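import Pool.Agent.Helper88.AdT.Defs

open Matrix Real Topology Filter Set

noncomputable section

namespace AdT

lemma sqrt3_mul : √3 * √3 = (3 : ℝ) := Real.mul_self_sqrt (by norm_num)

lemma sqrt3_pos : (0 : ℝ) < √3 := Real.sqrt_pos.mpr (by norm_num)

lemma gm_inj {a b c d a' b' c' d' : ℝ} (h : gm a b c d = gm a' b' c' d') :
    a = a' ∧ b = b' ∧ c = c' ∧ d = d' := by
  have h00 := congrFun (congrFun h 0) 0
  have h01 := congrFun (congrFun h 0) 1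
  have h10 := congrFun (congrFun h 1) 0
  have h11 := congrFun (congrFun h 1) 1
  simp [gm] at h00 h01 h10 h11
  have hb : b * √3 = b' * √3 := by linarith
  have hd : d * √3 = d' * √3 := by linarith
  refine ⟨by linarith, mul_right_cancel₀ sqrt3_pos.ne' hb, by linarith,
    mul_right_cancel₀ sqrt3_pos.ne' hd⟩

lemma gm_det (a b c d : ℝ) : (gm a b c d).det = a ^ 2 - 3 * b ^ 2 + 9 * c ^ 2 - 3 * d ^ 2 := by
  simp [gm, Matrix.det_fin_two]
  linear_combination (-b ^ 2 - d ^ 2) * sqrt3_mul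

lemma gm_adj (a b c d : ℝ) : (gm a b c d).adjugate = gm a (-b) (-c) (-d) := by
  ext i j
  fin_cases i <;> fin_cases j <;> simp [gm, Matrix.adjugate_fin_two] <;> ring

lemma sqrt3_nm (b d c : ℝ) : √3 • nm b d c = gm 0 b c d := by
  ext i j
  fin_cases i <;> fin_cases j <;> simp [gm, nm]
  · ring
  · linear_combination c * sqrt3_mul
  · linear_combination (-c) * sqrt3_mul
  · ring

lemma nm_det (b d c : ℝ) : (nm b d c).det = -(b ^ 2 + d ^ 2 - 3 * c ^ 2) := by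
  simp [nm, Matrix.det_fin_two]
  linear_combination (c ^ 2) * sqrt3_mul

lemma nm_inj {b d c b' d' c' : ℝ} (h : nm b d c = nm b' d' c') : b = b' ∧ d = d' ∧ c = c' := by
  have h2 : gm 0 b c d = gm 0 b' c' d' := by rw [← sqrt3_nm, ← sqrt3_nm, h]
  obtain ⟨-, h1, h2, h3⟩ := gm_inj h2
  exact ⟨h1, h3, h2⟩

/-- The arithmetic lattice (a genus 2 surface group together with `-1`). -/
def Gam : Subgroup SL where
  carrier := {g | ∃ a b c d : ℤ, (g : M2) = gm a b c d}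
  mul_mem' := by
    rintro g h ⟨a, b, c, d, hg⟩ ⟨a', b', c', d', hh⟩
    refine ⟨a * a' + 3 * b * b' - 9 * c * c' + 3 * d * d', a * b' + b * a' + 3 * c * d' - 3 * d * c',
      a * c' + c * a' + b * d' - d * b', a * d' + d * a' + 3 * b * c' - 3 * c * b', ?_⟩
    rw [Matrix.SpecialLinearGroup.coe_mul, hg, hh, gm_mul]
    push_cast
    rfl
  one_mem' := ⟨1, 0, 0, 0, by
    ext i j
    fin_cases i <;> fin_cases j <;> simp [gm]⟩
  inv_mem' := by
    rintro g ⟨a, b, c, d, hg⟩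
    refine ⟨a, -b, -c, -d, ?_⟩
    rw [Matrix.SpecialLinearGroup.coe_inv, hg, gm_adj]
    push_cast
    rfl

lemma mem_Gam {g : SL} : g ∈ Gam ↔ ∃ a b c d : ℤ, (g : M2) = gm a b c d := Iff.rfl

lemma Gam_eqn {g : SL} {a b c d : ℤ} (h : (g : M2) = gm a b c d) :
    a ^ 2 - 3 * b ^ 2 + 9 * c ^ 2 - 3 * d ^ 2 = 1 := by
  have h1 : (g : M2).det = 1 := g.2
  rw [h, gm_det] at h1
  exact_mod_cast h1

/-- conjugation -/
def cj (g : SL) (N : M2) : M2 := (g : M2) * N * (↑(g⁻¹) : M2)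

lemma SL_mul_inv (g : SL) : (g : M2) * (↑(g⁻¹) : M2) = 1 := by
  rw [← Matrix.SpecialLinearGroup.coe_mul, mul_inv_cancel, Matrix.SpecialLinearGroup.coe_one]

lemma SL_inv_mul (g : SL) : (↑(g⁻¹) : M2) * (g : M2) = 1 := by
  rw [← Matrix.SpecialLinearGroup.coe_mul, inv_mul_cancel, Matrix.SpecialLinearGroup.coe_one]

lemma cj_one (N : M2) : cj 1 N = N := by simp [cj]

lemma cj_mul (g h : SL) (N : M2) : cj (g * h) N = cj g (cj h N) := by
  simp only [cj, _root_.mul_inv_rev, Matrix.SpecialLinearGroup.coe_mul]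
  simp only [Matrix.mul_assoc]

lemma cj_inv_cj (g : SL) (N : M2) : cj g⁻¹ (cj g N) = N := by
  rw [← cj_mul, inv_mul_cancel, cj_one]

lemma cj_cj_inv (g : SL) (N : M2) : cj g (cj g⁻¹ N) = N := by
  rw [← cj_mul, mul_inv_cancel, cj_one]

lemma cj_neg (g : SL) (N : M2) : cj g (-N) = -cj g N := by
  simp [cj]

lemma cj_smul (g : SL) (r : ℝ) (N : M2) : cj g (r • N) = r • cj g N := by
  simp [cj]

lemma cj_det (g : SL) (N : M2) : (cj g N).det = N.det := by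
  rw [cj, Matrix.det_mul, Matrix.det_mul, g.2, (g⁻¹).2]; ring

lemma fr_eq (x : SL) (N : M2) : fr x N = cj x⁻¹ N := by simp [fr, cj]

lemma fr_mul (g x : SL) (N : M2) : fr (g * x) (cj g N) = fr x N := by
  rw [fr_eq, fr_eq, _root_.mul_inv_rev, cj_mul, cj_inv_cj]

lemma tau_mul (g x : SL) (N : M2) : tau (g * x) (cj g N) = tau x N := by simp [tau, fr_mul]
lemma nu_mul (g x : SL) (N : M2) : nu (g * x) (cj g N) = nu x N := by simp [nu, fr_mul]
lemma sg_mul (g x : SL) (N : M2) : sg (g * x) (cj g N) = sg x N := by simp [sg, fr_mul]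

lemma ip_cj (g : SL) (N N' : M2) : ip (cj g N) (cj g N') = ip N N' := by
  have : cj g N * cj g N' = (g : M2) * (N * N') * (↑(g⁻¹) : M2) := by
    simp only [cj]
    calc (g : M2) * N * (↑(g⁻¹) : M2) * ((g : M2) * N' * (↑(g⁻¹) : M2))
        = (g : M2) * N * ((↑(g⁻¹) : M2) * (g : M2)) * (N' * (↑(g⁻¹) : M2)) := by
          simp only [Matrix.mul_assoc]
      _ = _ := by rw [SL_inv_mul, Matrix.mul_one]; simp only [Matrix.mul_assoc]
  rw [ip, this, ip, Matrix.trace_mul_comm, ← Matrix.mul_assoc, SL_inv_mul, Matrix.one_mul]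

lemma cj_nm_int {g : SL} {a b c d : ℤ} (hg : (g : M2) = gm a b c d) (n1 n2 n3 : ℤ) :
    ∃ m1 m2 m3 : ℤ, cj g (nm n1 n2 n3) = nm m1 m2 m3 ∧ m1 ≡ a ^ 2 * n1 [ZMOD 3] ∧
      m2 ≡ a ^ 2 * n2 [ZMOD 3] := by
  have hinv : (↑(g⁻¹) : M2) = gm a (-b) (-c) (-d) := by
    rw [Matrix.SpecialLinearGroup.coe_inv, hg, gm_adj]
  have key : √3 • cj g (nm n1 n2 n3) =
      gm a b c d * gm 0 n1 n3 n2 * gm a (-b) (-c) (-d) := by
    rw [← cj_smul, sqrt3_nm, cj, hg, hinv]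
  rw [gm_mul, gm_mul] at key
  refine ⟨(a * 0 + 3 * b * n1 - 9 * c * n3 + 3 * d * n2) * (-b) + (a * n1 + b * 0 + 3 * c * n2 - 3 * d * n3) * a
      + 3 * (a * n3 + c * 0 + b * n2 - d * n1) * (-d) - 3 * (a * n2 + d * 0 + 3 * b * n3 - 3 * c * n1) * (-c),
    (a * 0 + 3 * b * n1 - 9 * c * n3 + 3 * d * n2) * (-d) + (a * n2 + d * 0 + 3 * b * n3 - 3 * c * n1) * a
      + 3 * (a * n1 + b * 0 + 3 * c * n2 - 3 * d * n3) * (-c) - 3 * (a * n3 + c * 0 + b * n2 - d * n1) * (-b),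
    (a * 0 + 3 * b * n1 - 9 * c * n3 + 3 * d * n2) * (-c) + (a * n3 + c * 0 + b * n2 - d * n1) * a
      + (a * n1 + b * 0 + 3 * c * n2 - 3 * d * n3) * (-d) - (a * n2 + d * 0 + 3 * b * n3 - 3 * c * n1) * (-b),
    ?_, ?_, ?_⟩
  · apply smul_right_injective M2 sqrt3_pos.ne'
    show √3 • cj g (nm n1 n2 n3) = √3 • nm _ _ _
    rw [key, sqrt3_nm]
    push_cast
    congr 1
    ring
  · exact Int.modEq_iff_dvd.mpr ⟨(b * n1 - 3 * c * n3 + d * n2) * b - (c * n2 - d * n3) * a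
        + (a * n3 + b * n2 - d * n1) * d - (a * n2 + 3 * b * n3 - 3 * c * n1) * c, by ring⟩
  · exact Int.modEq_iff_dvd.mpr ⟨(b * n1 - 3 * c * n3 + d * n2) * d - (b * n3 - c * n1) * a
        + (a * n1 + 3 * c * n2 - 3 * d * n3) * c - (a * n3 + b * n2 - d * n1) * b, by ring⟩

lemma Gam_sq {g : SL} {a b c d : ℤ} (h : (g : M2) = gm a b c d) : a ^ 2 ≡ 1 [ZMOD 3] := by
  have := Gam_eqn h
  refine (Int.modEq_iff_dvd).mpr ⟨3 * c ^ 2 - b ^ 2 - d ^ 2, ?_⟩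
  linarith

lemma Q_of_det {b d c : ℤ} (h : (nm b d c).det = -1) : b ^ 2 + d ^ 2 - 3 * c ^ 2 = 1 := by
  rw [nm_det] at h
  have : ((b ^ 2 + d ^ 2 - 3 * c ^ 2 : ℤ) : ℝ) = 1 := by push_cast; linarith
  exact_mod_cast this

lemma det_of_Q {b d c : ℤ} (h : b ^ 2 + d ^ 2 - 3 * c ^ 2 = 1) : (nm b d c).det = -1 := by
  rw [nm_det]
  have : ((b ^ 2 + d ^ 2 - 3 * c ^ 2 : ℤ) : ℝ) = 1 := by exact_mod_cast h
  push_cast at this
  linarith

lemma Lines_cj {g : SL} (hg : g ∈ Gam) {N : M2} (hN : N ∈ Lines) : cj g N ∈ Lines := by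
  obtain ⟨a, b, c, d, hg⟩ := hg
  obtain ⟨n1, n2, n3, hQ, rfl⟩ := hN
  obtain ⟨m1, m2, m3, hm, -, -⟩ := cj_nm_int hg n1 n2 n3
  refine ⟨m1, m2, m3, Q_of_det ?_, hm⟩
  rw [← hm, cj_det, det_of_Q hQ]

lemma Can_cj {g : SL} (hg : g ∈ Gam) {κ : Bool} {N : M2} (hN : N ∈ Can κ) : cj g N ∈ Can κ := by
  obtain ⟨a, b, c, d, hg⟩ := hg
  obtain ⟨n1, n2, n3, hQ, hmod, rfl⟩ := hN
  obtain ⟨m1, m2, m3, hm, h1, h2⟩ := cj_nm_int hg n1 n2 n3
  have ha := Gam_sq hg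
  refine ⟨m1, m2, m3, Q_of_det ?_, ?_, hm⟩
  · rw [← hm, cj_det, det_of_Q hQ]
  · cases κ
    · simp only [cond_false] at hmod ⊢
      have : m2 ≡ 1 * n2 [ZMOD 3] := h2.trans (ha.mul_right _)
      have h3 := this
      rw [one_mul] at h3
      exact h3.trans (show n2 ≡ 1 [ZMOD 3] from hmod)
    · simp only [cond_true] at hmod ⊢
      have : m1 ≡ 1 * n1 [ZMOD 3] := h1.trans (ha.mul_right _)
      have h3 := this
      rw [one_mul] at h3
      exact h3.trans (show n1 ≡ 1 [ZMOD 3] from hmod)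

lemma E_mul {g : SL} (hg : g ∈ Gam) {x : SL} (hx : x ∈ E) : g * x ∈ E := by
  intro N hN h
  have h1 := Lines_cj (Gam.inv_mem hg) hN
  refine hx _ h1 ?_
  have h2 : cj g (cj g⁻¹ N) = N := cj_cj_inv g N
  rw [← h2, tau_mul, nu_mul] at h
  exact h

instance : SMul Gam E := ⟨fun g x => ⟨g.1 * x.1, E_mul g.2 x.2⟩⟩

instance : MulAction Gam E where
  one_smul _ := Subtype.ext (one_mul _)
  mul_smul _ _ _ := Subtype.ext (mul_assoc _ _ _)

@[simp] lemma smul_val (g : Gam) (x : E) : (g • x : E).1 = g.1 * x.1 := rfl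

/-- the complement of the link: `Γ \ (SL(2,ℝ) minus the frames tangent to lines)` -/
abbrev M : Type := MulAction.orbitRel.Quotient Gam E

/-- the projection -/
def pr (x : E) : M := Quotient.mk'' x

end AdT

namespace AdT

/-- an explicit frame not tangent to any line -/
def x1 : SL := ⟨!![2 / √5, 1 / √5; -(1 / √5), 2 / √5], by
  have h5 : √5 * √5 = (5 : ℝ) := Real.mul_self_sqrt (by norm_num)
  have h5' : √5 ≠ 0 := (Real.sqrt_pos.mpr (by norm_num)).ne'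
  rw [Matrix.det_fin_two_of]
  field_simp
  nlinarith⟩

end AdT

namespace AdT

lemma inv_entries (x : SL) : ((x⁻¹ : SL) : M2) = !![x 1 1, - x 0 1; - x 1 0, x 0 0] := by
  rw [Matrix.SpecialLinearGroup.coe_inv, Matrix.adjugate_fin_two]

lemma fr_gen (x : SL) (N : M2) : fr x N =
    !![x 1 1 * (N 0 0 * x 0 0 + N 0 1 * x 1 0) - x 0 1 * (N 1 0 * x 0 0 + N 1 1 * x 1 0),
       x 1 1 * (N 0 0 * x 0 1 + N 0 1 * x 1 1) - x 0 1 * (N 1 0 * x 0 1 + N 1 1 * x 1 1);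
       x 0 0 * (N 1 0 * x 0 0 + N 1 1 * x 1 0) - x 1 0 * (N 0 0 * x 0 0 + N 0 1 * x 1 0),
       x 0 0 * (N 1 0 * x 0 1 + N 1 1 * x 1 1) - x 1 0 * (N 0 0 * x 0 1 + N 0 1 * x 1 1)] := by
  have h : fr x N = !![x 1 1, - x 0 1; - x 1 0, x 0 0] * !![N 0 0, N 0 1; N 1 0, N 1 1] *
      !![x 0 0, x 0 1; x 1 0, x 1 1] := by
    rw [fr, inv_entries, ← Matrix.eta_fin_two N, ← Matrix.eta_fin_two (x : M2)]
  rw [h, Matrix.mul_fin_two, Matrix.mul_fin_two]
  ext i j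
  fin_cases i <;> fin_cases j <;> simp <;> ring

lemma tau_nm (x : SL) (b d c : ℝ) : tau x (nm b d c) =
    b * (x 0 0 * x 1 0 + x 0 1 * x 1 1)
    + d * ((x 1 0 ^ 2 + x 1 1 ^ 2 - x 0 0 ^ 2 - x 0 1 ^ 2) / 2)
    + c * √3 * ((x 0 0 ^ 2 + x 0 1 ^ 2 + x 1 0 ^ 2 + x 1 1 ^ 2) / 2) := by
  rw [tau, fr_gen]; simp [nm]; ring

lemma nu_nm (x : SL) (b d c : ℝ) : nu x (nm b d c) =
    b * (x 0 0 * x 1 0 - x 0 1 * x 1 1)
    + d * ((x 1 0 ^ 2 - x 1 1 ^ 2 - x 0 0 ^ 2 + x 0 1 ^ 2) / 2)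
    + c * √3 * ((x 0 0 ^ 2 - x 0 1 ^ 2 + x 1 0 ^ 2 - x 1 1 ^ 2) / 2) := by
  rw [nu, fr_gen]; simp [nm]; ring

lemma sg_nm (x : SL) (b d c : ℝ) : sg x (nm b d c) =
    b * (x 0 0 * x 1 1 + x 0 1 * x 1 0)
    + d * (x 1 0 * x 1 1 - x 0 0 * x 0 1)
    + c * √3 * (x 1 0 * x 1 1 + x 0 0 * x 0 1) := by
  rw [sg, fr_gen]; simp [nm]; ring

lemma x1_mem : x1 ∈ E := by
  rintro N ⟨b, d, c, hQ, rfl⟩ ⟨h1, h2⟩
  have h5 : √5 * √5 = (5 : ℝ) := Real.mul_self_sqrt (by norm_num)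
  have h5' : √5 ≠ 0 := (Real.sqrt_pos.mpr (by norm_num)).ne'
  have e1 : (2 / √5) ^ 2 = 4 / 5 := by field_simp; nlinarith
  have e2 : (1 / √5) ^ 2 = 1 / 5 := by field_simp; nlinarith
  have e3 : (2 / √5) * (1 / √5) = 2 / 5 := by field_simp; nlinarith
  rw [tau_nm] at h1
  rw [nu_nm] at h2
  simp only [x1, Matrix.SpecialLinearGroup.coe_mk, Matrix.of_apply, Matrix.cons_val', Matrix.cons_val_zero, Matrix.cons_val_one, Matrix.cons_val_fin_one, neg_sq, mul_neg, e1, e2] at h1 h2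
  have e3' : (1 / √5) * (2 / √5) = 2 / 5 := by rw [mul_comm]; exact e3
  rw [e3, e3'] at h1 h2
  have hc : (c : ℝ) * √3 = 0 := by linarith
  have hc0 : (c : ℝ) = 0 := (mul_eq_zero.mp hc).resolve_right sqrt3_pos.ne'
  have hb : (4 : ℝ) * b = -3 * d ∨ (4 : ℝ) * b = 3 * d := by
    left
    rw [hc0] at h2
    linarith
  have hc1 : c = 0 := by exact_mod_cast hc0
  subst hc1
  rcases hb with hb | hb
  · have hb' : 4 * b = -3 * d := by exact_mod_cast hb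
    have h25 : 25 * b ^ 2 = 9 := by
      have h16 : (4 * b) ^ 2 = 9 * d ^ 2 := by rw [hb']; ring
      linarith
    have : (5 * b - 3) * (5 * b + 3) = 0 := by linarith
    rcases mul_eq_zero.mp this with h | h <;> omega
  · have hb' : 4 * b = 3 * d := by exact_mod_cast hb
    have h25 : 25 * b ^ 2 = 9 := by
      have h16 : (4 * b) ^ 2 = 9 * d ^ 2 := by rw [hb']; ring
      linarith
    have : (5 * b - 3) * (5 * b + 3) = 0 := by linarith
    rcases mul_eq_zero.mp this with h | h <;> omega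
end AdT

namespace AdT

instance : Nonempty E := ⟨⟨x1, x1_mem⟩⟩
instance : Nonempty M := ⟨pr ⟨x1, x1_mem⟩⟩

open Classical in
/-- the projection, extended by a junk value outside `E` -/
def prT (x : SL) : M := if h : x ∈ E then pr ⟨x, h⟩ else pr ⟨x1, x1_mem⟩

/-- isometries permuting the lines -/
def Nz : Set SL := {g | ∀ N ∈ Lines, cj g N ∈ Lines ∧ cj g⁻¹ N ∈ Lines}

/-- oriented lines -/
abbrev LL : Type := {N : M2 // N ∈ Lines}

instance : SMul Gam LL := ⟨fun g N => ⟨cj g.1 N.1, Lines_cj g.2 N.2⟩⟩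
instance : MulAction Gam LL where
  one_smul _ := Subtype.ext (cj_one _)
  mul_smul _ _ _ := Subtype.ext (cj_mul _ _ _)

/-- index set of the components of the link: oriented lines modulo the lattice -/
abbrev Idx : Type := MulAction.orbitRel.Quotient Gam LL

/-- radius of the tubes -/
def ε0 : ℝ := 1 / 4

/-- tube coordinates around the line `cj g Dm` -/
def tb (g : SL) (z : ℝ) (w : ℂ) : SL := g * a z * y w

/-- the tube map with the position on the core in `ℝ/2ℤ` -/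
def psi (g : SL) (p : ℂ × AddCircle (2 : ℝ)) : M := prT (tb g (s0 * Quotient.out p.2) p.1)

def tw (w : ℂ) : ℝ := tau (y w) Dm
def nw (w : ℂ) : ℝ := nu (y w) Dm

/-- the gluing map of the solid torus -/
def gl (g : SL) (p : ℂ × AddCircle (2 : ℝ)) : M := psi g (p.1, p.2 + th2 (tw p.1) (nw p.1))

end AdT
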