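import Pool.Agent.Helper88.AdT.Stmts

/-!
Integrality of the inner products, and the frame identities.
-/

open Matrix Real Topology Filter Set

noncomputable section

namespace AdT

namespace Arith1

lemma ip_nm (b d c b' d' c' : ℝ) : ip (nm b d c) (nm b' d' c') = b * b' + d * d' - 3 * c * c' := by
  simp only [ip, nm, Matrix.mul_fin_two, Matrix.trace_fin_two_of]
  linear_combination (-(c * c')) * sqrt3_mul

lemma neg_nm (b d c : ℝ) : -nm b d c = nm (-b) (-d) (-c) := by
  ext i j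
  fin_cases i <;> fin_cases j <;> simp [nm] <;> ring

lemma sq_mod3 (n : ℤ) : (n % 3 = 0 ∧ n ^ 2 % 3 = 0) ∨ (n % 3 = 1 ∧ n ^ 2 % 3 = 1) ∨
    (n % 3 = 2 ∧ n ^ 2 % 3 = 1) := by
  have h : n % 3 = 0 ∨ n % 3 = 1 ∨ n % 3 = 2 := by omega
  rcases h with h | h | h
  · left; exact ⟨h, by rw [pow_two, Int.mul_emod, h]; norm_num⟩
  · right; left; exact ⟨h, by rw [pow_two, Int.mul_emod, h]; norm_num⟩
  · right; right; exact ⟨h, by rw [pow_two, Int.mul_emod, h]; norm_num⟩

/-- exactly one of `b`, `d` is divisible by 3 -/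
lemma cases3 {b d c : ℤ} (h : b ^ 2 + d ^ 2 - 3 * c ^ 2 = 1) :
    (b % 3 = 0 ∧ (d % 3 = 1 ∨ d % 3 = 2)) ∨ (d % 3 = 0 ∧ (b % 3 = 1 ∨ b % 3 = 2)) := by
  have h1 := sq_mod3 b
  have h2 := sq_mod3 d
  omega

lemma descent (n : ℕ) : ∀ B D C : ℤ, C.natAbs ≤ n → B ^ 2 + D ^ 2 = 3 * C ^ 2 →
    B = 0 ∧ D = 0 ∧ C = 0 := by
  induction n with
  | zero =>
    intro B D C hC h
    have hC0 : C = 0 := by omega
    subst hC0
    have hB : B ^ 2 = 0 := by nlinarith [sq_nonneg B, sq_nonneg D]
    have hD : D ^ 2 = 0 := by nlinarith [sq_nonneg B, sq_nonneg D]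
    exact ⟨pow_eq_zero_iff (by norm_num) |>.mp hB, pow_eq_zero_iff (by norm_num) |>.mp hD, rfl⟩
  | succ n ih =>
    intro B D C hC h
    have h1 := sq_mod3 B
    have h2 := sq_mod3 D
    have hB : B % 3 = 0 := by omega
    have hD : D % 3 = 0 := by omega
    obtain ⟨B', rfl⟩ := Int.dvd_of_emod_eq_zero hB
    obtain ⟨D', rfl⟩ := Int.dvd_of_emod_eq_zero hD
    have h3 : 3 * (B' ^ 2 + D' ^ 2) = C ^ 2 := by linarith
    have h4 := sq_mod3 C
    have hC3 : C % 3 = 0 := by omega
    obtain ⟨C', rfl⟩ := Int.dvd_of_emod_eq_zero hC3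
    have h5 : B' ^ 2 + D' ^ 2 = 3 * C' ^ 2 := by linarith
    have hle : C'.natAbs ≤ n := by omega
    obtain ⟨e1, e2, e3⟩ := ih B' D' C' hle h5
    subst e1 e2 e3
    simp

lemma ip_int {b d c b' d' c' : ℤ} : ip (nm b d c) (nm b' d' c') =
    ((b * b' + d * d' - 3 * c * c' : ℤ) : ℝ) := by
  rw [ip_nm]; push_cast; ring

lemma eq_of_ip {N N' : M2} (hN : N ∈ Lines) (hN' : N' ∈ Lines) (h : ip N N' = 1) : N = N' := by
  obtain ⟨b, d, c, hQ, rfl⟩ := hN
  obtain ⟨b', d', c', hQ', rfl⟩ := hN'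
  rw [ip_int] at h
  have h1 : b * b' + d * d' - 3 * c * c' = 1 := by exact_mod_cast h
  obtain ⟨e1, e2, e3⟩ := descent (c - c').natAbs (b - b') (d - d') (c - c') le_rfl (by linarith)
  have e1 : b = b' := by linarith
  have e2 : d = d' := by linarith
  have e3 : c = c' := by linarith
  subst e1 e2 e3
  rfl

lemma mulmod (b b' : ℤ) (r s : ℤ) (h : b % 3 = r) (h' : b' % 3 = s) : (b * b') % 3 = (r * s) % 3 := by
  rw [Int.mul_emod, h, h']

lemma fr_trace (x : SL) {N : M2} (hN : N ∈ Lines) : fr x N 1 1 = -fr x N 0 0 := by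
  obtain ⟨b, d, c, -, rfl⟩ := hN
  have h1 : (fr x (nm b d c)).trace = 0 := by
    rw [fr, Matrix.trace_mul_comm, ← Matrix.mul_assoc, SL_mul_inv, Matrix.one_mul, nm,
      Matrix.trace_fin_two_of]
    ring
  rw [Matrix.trace_fin_two] at h1
  linarith

lemma fr_det (x : SL) {N : M2} (hN : N ∈ Lines) :
    fr x N 0 0 * fr x N 0 0 + fr x N 0 1 * fr x N 1 0 = 1 := by
  have ht := fr_trace x hN
  obtain ⟨b, d, c, hQ, rfl⟩ := hN
  have h1 : (fr x (nm b d c)).det = -1 := by
    rw [fr_eq, cj_det, det_of_Q hQ]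
  rw [Matrix.det_fin_two, ht] at h1
  linarith

lemma fr_flow (x : SL) (N : M2) (t : ℝ) : fr (x * a t) N =
    !![fr x N 0 0, exp (-t) * fr x N 0 1; exp t * fr x N 1 0, fr x N 1 1] := by
  have h1 : fr (x * a t) N = (↑((a t)⁻¹) : M2) * fr x N * ((a t : SL) : M2) := by
    simp only [fr, _root_.mul_inv_rev, Matrix.SpecialLinearGroup.coe_mul, Matrix.mul_assoc]
  have h2 : ((a t : SL) : M2) = !![exp (t / 2), 0; 0, exp (-(t / 2))] := rfl
  have h3 : (((a t)⁻¹ : SL) : M2) = !![exp (-(t / 2)), 0; 0, exp (t / 2)] := by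
    rw [inv_entries, h2]; simp
  have e1 : exp (t / 2) * exp (-(t / 2)) = 1 := by rw [← Real.exp_add]; simp
  have e2 : exp (t / 2) * exp (t / 2) = exp t := by rw [← Real.exp_add]; congr 1; ring
  have e3 : exp (-(t / 2)) * exp (-(t / 2)) = exp (-t) := by rw [← Real.exp_add]; congr 1; ring
  rw [h1, h2, h3]
  conv_lhs => rw [Matrix.eta_fin_two (fr x N)]
  rw [Matrix.mul_fin_two, Matrix.mul_fin_two]
  ext i j
  fin_cases i <;> fin_cases j <;> simp
  · linear_combination (fr x N 0 0) * e1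
  · linear_combination (fr x N 0 1) * e3
  · linear_combination (fr x N 1 0) * e2
  · linear_combination (fr x N 1 1) * e1

end Arith1

open Arith1

theorem arith1 : Arith1Stmt := by
  refine ⟨?_, ?_, ?_, ?_, ?_, ?_, ?_, ?_⟩
  · rintro N ⟨b, d, c, hQ, rfl⟩ N' ⟨b', d', c', hQ', rfl⟩
    exact ⟨_, ip_int⟩
  · rintro κ N ⟨b, d, c, hQ, hm, rfl⟩ N' ⟨b', d', c', hQ', hm', rfl⟩
    refine ⟨_, ip_int, ?_⟩
    have h1 := cases3 hQ
    have h2 := cases3 hQ'
    cases κ
    · simp only [cond_false] at hm hm'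
      have hb : b % 3 = 0 := by omega
      have hb' : b' % 3 = 0 := by omega
      have e1 := mulmod b b' 0 0 hb hb'
      have e2 := mulmod d d' 1 1 hm hm'
      have e3 : 3 * c * c' = 3 * (c * c') := by ring
      rw [e3]
      norm_num at e1 e2
      omega
    · simp only [cond_true] at hm hm'
      have hd : d % 3 = 0 := by omega
      have hd' : d' % 3 = 0 := by omega
      have e1 := mulmod d d' 0 0 hd hd'
      have e2 := mulmod b b' 1 1 hm hm'
      have e3 : 3 * c * c' = 3 * (c * c') := by ring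
      rw [e3]
      norm_num at e1 e2
      omega
  · rintro N ⟨b, d, c, hQ, hm, rfl⟩ N' ⟨b', d', c', hQ', hm', rfl⟩
    refine ⟨_, ip_int, ?_⟩
    have h1 := cases3 hQ
    have h2 := cases3 hQ'
    simp only [cond_true] at hm
    simp only [cond_false] at hm'
    have hd : d % 3 = 0 := by omega
    have hb' : b' % 3 = 0 := by omega
    have e1 := mulmod d d' 0 1 hd hm'
    have e2 := mulmod b b' 1 0 hm hb'
    have e3 : 3 * c * c' = 3 * (c * c') := by ring
    rw [e3]
    norm_num at e1 e2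
    omega
  · intro N hN N' hN' h
    exact eq_of_ip hN hN' h
  · rintro N ⟨b, d, c, hQ, rfl⟩
    rcases cases3 hQ with ⟨-, h | h⟩ | ⟨-, h | h⟩
    · exact ⟨false, Or.inl ⟨b, d, c, hQ, by simpa using h, rfl⟩⟩
    · refine ⟨false, Or.inr ⟨-b, -d, -c, by linarith, ?_, ?_⟩⟩
      · simp only [cond_false]; omega
      · rw [neg_nm]; push_cast; rfl
    · exact ⟨true, Or.inl ⟨b, d, c, hQ, by simpa using h, rfl⟩⟩
    · refine ⟨true, Or.inr ⟨-b, -d, -c, by linarith, ?_, ?_⟩⟩
      · simp only [cond_true]; omega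
      · rw [neg_nm]; push_cast; rfl
  · rintro κ N ⟨b, d, c, hQ, hm, rfl⟩
    refine ⟨⟨b, d, c, hQ, rfl⟩, ⟨-b, -d, -c, by linarith, ?_⟩⟩
    rw [neg_nm]; push_cast; rfl
  · rintro κ N ⟨b, d, c, hQ, hm, rfl⟩ ⟨b', d', c', hQ', hm', h⟩
    rw [neg_nm] at h
    obtain ⟨e1, e2, e3⟩ := nm_inj h
    have e1' : -b = b' := by exact_mod_cast e1
    have e2' : -d = d' := by exact_mod_cast e2
    cases κ
    · simp only [cond_false] at hm hm'
      omega
    · simp only [cond_true] at hm hm'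
      omega
  · rintro N ⟨b, d, c, hQ, hm, rfl⟩
    simp only [cond_true] at hm
    have h1 := cases3 hQ
    have hd : d % 3 = 0 := by omega
    constructor
    · rintro ⟨b', d', c', hQ', hm', h⟩
      simp only [cond_false] at hm'
      obtain ⟨e1, e2, e3⟩ := nm_inj h
      have e2' : d = d' := by exact_mod_cast e2
      omega
    · rintro ⟨b', d', c', hQ', hm', h⟩
      simp only [cond_false] at hm'
      rw [neg_nm] at h
      obtain ⟨e1, e2, e3⟩ := nm_inj h
      have e2' : -d = d' := by exact_mod_cast e2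
      omega

theorem frame : FrameStmt := by
  refine ⟨?_, ?_, ?_, ?_⟩
  · intro x N hN
    have h := fr_det x hN
    simp only [tau, nu, sg]
    linear_combination h
  · intro x N hN N' hN'
    have h1 := fr_trace x hN
    have h2 := fr_trace x hN'
    have h3 : ip N N' = ip (fr x N) (fr x N') := by rw [fr_eq, fr_eq, ip_cj]
    have h4 : (fr x N * fr x N').trace = fr x N 0 0 * fr x N' 0 0 + fr x N 0 1 * fr x N' 1 0 +
        (fr x N 1 0 * fr x N' 0 1 + fr x N 1 1 * fr x N' 1 1) := by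
      rw [Matrix.trace_fin_two, Matrix.mul_apply, Matrix.mul_apply, Fin.sum_univ_two,
        Fin.sum_univ_two]
    rw [h3, ip, h4, h1, h2]
    simp only [tau, nu, sg]
    ring
  · intro x N t
    have e1 : exp (-t) = cosh t - sinh t := by rw [Real.cosh_sub_sinh]
    have e2 : exp t = cosh t + sinh t := by rw [Real.cosh_add_sinh]
    refine ⟨?_, ?_, ?_⟩
    · simp only [tau, nu, fr_flow]
      simp only [Matrix.of_apply, Matrix.cons_val', Matrix.cons_val_zero, Matrix.cons_val_one,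
        Matrix.cons_val_fin_one, e1, e2]
      ring
    · simp only [tau, nu, fr_flow]
      simp only [Matrix.of_apply, Matrix.cons_val', Matrix.cons_val_zero, Matrix.cons_val_one,
        Matrix.cons_val_fin_one, e1, e2]
      ring
    · simp only [sg, fr_flow]
      simp
  · intro x N hN h1 h2
    have ht := fr_trace x hN
    have hd := fr_det x hN
    simp only [tau] at h1
    simp only [nu] at h2
    have h01 : fr x N 0 1 = 0 := by linarith
    have h10 : fr x N 1 0 = 0 := by linarith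
    rw [h01] at hd
    have hs : (fr x N 0 0 - 1) * (fr x N 0 0 + 1) = 0 := by linarith
    have hN' : N = cj x (fr x N) := by rw [fr_eq, cj_cj_inv]
    rcases mul_eq_zero.mp hs with h | h
    · left
      have h00 : fr x N 0 0 = 1 := by linarith
      have : fr x N = Dm := by
        rw [Matrix.eta_fin_two (fr x N), ht, h00, h01, h10]
        ext i j
        fin_cases i <;> fin_cases j <;> simp [Dm, nm]
      rw [← this]; exact hN'
    · right
      have h00 : fr x N 0 0 = -1 := by linarith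
      have : fr x N = -Dm := by
        rw [Matrix.eta_fin_two (fr x N), ht, h00, h01, h10]
        ext i j
        fin_cases i <;> fin_cases j <;> simp [Dm, nm]
      rw [← cj_neg, ← this]; exact hN'

end AdT
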