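import Pool.Agent.Helper88.AdT.Stmts2

/-!
Assembly of the final statement from the module statements.
-/

open Matrix Real Topology Filter Set

noncomputable section

namespace AdT

lemma abs_clampt {t : ℝ} (hs : 0 < s0) : |if |t| < s0 / 20 then t else 0| < s0 / 20 := by
  split_ifs with h
  · exact h
  · rw [abs_zero]; positivity

/-- the structure with parameter `t` (for `t` out of range the structure with parameter `0`) -/
def strA (gi : Idx → SL) (hg : GoodGi gi) (hS : StructStmt) (hs : 0 < s0) (t : ℝ) :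
    AdSStr (FN gi) (Sg gi) where
  charts := devCharts gi (if |t| < s0 / 20 then t else 0)
  disj := (hS gi hg _ (abs_clampt hs)).1
  cover := (hS gi hg _ (abs_clampt hs)).2.1
  compat := (hS gi hg _ (abs_clampt hs)).2.2

lemma strA_charts (gi : Idx → SL) (hg : GoodGi gi) (hS : StructStmt) (hs : 0 < s0) (t : ℝ)
    (ht : |t| < s0 / 20) : (strA gi hg hS hs t).charts = devCharts gi t := by
  simp only [strA, if_pos ht]

/-- the coordinates of a point of the source of the tachyon chart -/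
lemma tach_continuousOn (gi : Idx → SL) (i : Idx) (col : Bool)
    (ϑ₀ : ℝ) (κ : ℝ → OpenPartialHomeomorph (FN gi) (ℂ × ℝ))
    (h1 : ∀ t : ℝ, |t| < s0 / 20 → (κ t).source =
      {q | ∃ (p : ST ε0) (ϑ : ℝ), |ϑ - ϑ₀| < 1 / 2 ∧ p.1.2 = (ϑ : AddCircle (2 : ℝ)) ∧
        kN gi i p = q})
    (h2 : ∀ t : ℝ, |t| < s0 / 20 → ∀ (p : ST ε0) (ϑ : ℝ), |ϑ - ϑ₀| < 1 / 2 →
      p.1.2 = (ϑ : AddCircle (2 : ℝ)) → κ t (kN gi i p) = (p.1.1, zc col t / 2 * ϑ))
    (hs : 0 < s0) :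
    ContinuousOn (fun p : ℝ × FN gi => κ p.1 p.2)
      (Ioo (-(s0 / 20)) (s0 / 20) ×ˢ (κ 0).source) := by
  have h0 : |(0 : ℝ)| < s0 / 20 := by rw [abs_zero]; positivity
  have hz0 : zc col 0 = s0 := by cases col <;> simp [zc]
  -- κ t q = (first coordinate of κ 0 q, zc t / s0 * second coordinate)
  have key : ∀ p ∈ (Ioo (-(s0 / 20)) (s0 / 20) ×ˢ (κ 0).source : Set (ℝ × FN gi)),
      κ p.1 p.2 = ((κ 0 p.2).1, zc col p.1 / s0 * (κ 0 p.2).2) := by
    rintro ⟨t, q⟩ ⟨ht, hq⟩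
    have ht' : |t| < s0 / 20 := abs_lt.2 ht
    simp only at hq ⊢
    rw [h1 0 h0] at hq
    obtain ⟨p, ϑ, hϑ, hp, rfl⟩ := hq
    rw [h2 t ht' p ϑ hϑ hp, h2 0 h0 p ϑ hϑ hp, hz0]
    simp only [Prod.mk.injEq, true_and]
    field_simp
  refine ContinuousOn.congr ?_ key
  have hc : ContinuousOn (fun p : ℝ × FN gi => κ 0 p.2)
      (Ioo (-(s0 / 20)) (s0 / 20) ×ˢ (κ 0).source) :=
    (κ 0).continuousOn.comp continuousOn_snd (fun p hp => hp.2)
  refine ContinuousOn.prodMk (continuous_fst.comp_continuousOn hc) ?_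
  refine ContinuousOn.mul ?_ (continuous_snd.comp_continuousOn hc)
  have : Continuous (fun p : ℝ × FN gi => zc col p.1 / s0) := by
    cases col <;> simp only [zc, cond_true, cond_false] <;> fun_prop
  exact this.continuousOn

theorem final_of (hF : FNStmt) (hG : ExistsGiStmt) (hT : ThStmt) (hS : StructStmt)
    (hC : ContStmt) (hTa : Tach2Stmt) (hN : NonIsoStmt) (hA : AtoroNStmt) : FinalStmt := by
  obtain ⟨gi, hg⟩ := hG
  have hs : 0 < s0 := by
    have := hT.2.2.2.2.2.1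
    unfold s0
    positivity
  obtain ⟨hj, hk, hkj, hrange, hcore, hne, hfin, hcl, hlink⟩ := hF gi hg
  refine ⟨FN gi, inferInstance, Sg gi, -(2 * s0), s0 / 20, strA gi hg hS hs, hcl, hlink,
    hA gi hg, by linarith [hs] |> ne_of_lt, by positivity, ?_, ?_, ?_⟩
  · intro q hq
    obtain ⟨U, c, hU, hqU, hc, hcont⟩ := hC gi hg q hq
    refine ⟨U, c, hU, hqU, fun t ht => ?_, hcont⟩
    rw [strA_charts gi hg hS hs t (abs_lt.2 ht)]
    exact hc t ht
  · intro q hq
    obtain ⟨i, p, hp, rfl⟩ := hq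
    obtain ⟨col, hcol⟩ := hTa gi hg i
    obtain ⟨ϑ, hϑ⟩ := QuotientAddGroup.mk_surjective p.1.2
    obtain ⟨κ, h1, h2, h3⟩ := hcol ϑ
    have h0 : |(0 : ℝ)| < s0 / 20 := by rw [abs_zero]; positivity
    refine ⟨(κ 0).source, κ, (κ 0).open_source, ?_, fun t ht => ?_, ?_⟩
    · rw [h1 0 h0]
      exact ⟨p, ϑ, by simp, hϑ.symm, rfl⟩
    · have ht' := abs_lt.2 ht
      rw [strA_charts gi hg hS hs t ht']
      exact ⟨h3 t ht', by rw [h1 t ht', h1 0 h0]⟩
    · exact tach_continuousOn gi i col ϑ κ h1 h2 hs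
  · intro t t' h0 htt' ht' ⟨h, hh, hcomp⟩
    have ht1 : |t| < s0 / 20 := by rw [abs_of_nonneg h0]; linarith
    have ht2 : |t'| < s0 / 20 := by rw [abs_of_nonneg (by linarith)]; exact ht'
    rw [strA_charts gi hg hS hs t ht1, strA_charts gi hg hS hs t' ht2] at hcomp
    exact hN gi hg t t' h0 htt' ht' ⟨h, hh, hcomp⟩

end AdT
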