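import Pool.Agent.Helper88.AdT.AtoroM4

/-!
# every `ℤ²` in the fundamental group of `M` is peripheral
-/

open Matrix Real Topology Filter Set

noncomputable section

namespace AdT.AtoroM

/-! ### powers -/

theorem fg_npw {X : Type} [TopologicalSpace X] {x : X} (γ : Path x x) (n : ℕ) :
    (FundamentalGroup.fromPath (mk (npw γ n)) : FundamentalGroup X x) =
      (FundamentalGroup.fromPath (mk γ)) ^ n := by
  induction n with
  | zero => rfl
  | succ n ih =>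
    rw [pow_succ, ← ih]
    rfl

theorem fg_pw {X : Type} [TopologicalSpace X] {x : X} (γ : Path x x) (k : ℤ) :
    (FundamentalGroup.fromPath (mk (pw γ k)) : FundamentalGroup X x) =
      (FundamentalGroup.fromPath (mk γ)) ^ k := by
  cases k with
  | ofNat n =>
    rw [Int.ofNat_eq_natCast, zpow_natCast]
    exact fg_npw γ n
  | negSucc n =>
    have h := fg_npw γ.symm (n + 1)
    rw [zpow_negSucc, ← inv_pow]
    exact h

theorem dp_pw {x : E} (γ : Path x x) (k : ℤ) : dp (pw γ k) = pw (dp γ) k := by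
  unfold dp
  rw [map_pw, map_pw]

/-! ### both group elements trivial -/

theorem case_two (hL : LiftStmt) (hq : IsQuotientCoveringMap pr Gam) (hP4a : P4aStmt)
    (hLF : LF Pq) (x : E) (α β : FundamentalGroup M (pr x)) (hc : α * β = β * α)
    (hind : ∀ m n : ℤ, α ^ m * β ^ n = 1 → m = 0 ∧ n = 0)
    (h1 : ph hq x α ^ 2 = 1) (h2 : ph hq x β ^ 2 = 1) : False := by
  have hC : Commute α β := hc
  obtain ⟨A, hA⟩ := lift_one hq x (α ^ (2 : ℤ)) (by
    rw [ph_zpow]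
    exact_mod_cast h1)
  obtain ⟨B, hB⟩ := lift_one hq x (β ^ (2 : ℤ)) (by
    rw [ph_zpow]
    exact_mod_cast h2)
  obtain ⟨u, rfl⟩ := Path.Homotopic.Quotient.mk_surjective A
  obtain ⟨v, rfl⟩ := Path.Homotopic.Quotient.mk_surjective B
  change prm hq (mk u) = _ at hA
  change prm hq (mk v) = _ at hB
  have huv : mk (u.trans v) = mk (v.trans u) := by
    apply pr_inj hq
    change prm hq ((mk u).trans (mk v)) = prm hq ((mk v).trans (mk u))
    rw [prm_trans, prm_trans, hA, hB]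
    have h3 : β ^ (2 : ℤ) * α ^ (2 : ℤ) = α ^ (2 : ℤ) * β ^ (2 : ℤ) :=
      ((hC.zpow_zpow 2 2).eq).symm
    exact h3
  have h4 := homIn_dp hL huv
  rw [dp_trans, dp_trans] at h4
  obtain ⟨m, n, hmn, h5⟩ := hP4a Pq hLF (dq x.1) (dp u) (dp v) h4
  rw [← dp_pw, ← dp_pw, ← dp_trans] at h5
  have h6 : mk ((pw u m).trans (pw v n)) = mk (Path.refl x) := of_homIn_dp hL h5
  have h7 : (prm hq (mk (pw u m))).trans (prm hq (mk (pw v n))) =
      Path.Homotopic.Quotient.refl (pr x) := by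
    have := congrArg (fun p => prm hq p) h6
    change prm hq ((mk (pw u m)).trans (mk (pw v n))) = Path.Homotopic.Quotient.refl (pr x) at this
    rwa [prm_trans] at this
  have h8 : prm hq (mk (pw u m)) = ((α ^ (2 : ℤ)) ^ m : FundamentalGroup M (pr x)) := by
    rw [prm_mk, map_pw hq.isCoveringMap.continuous]
    have := fg_pw (u.map hq.isCoveringMap.continuous) m
    refine Eq.trans this ?_
    exact congrArg (fun z : FundamentalGroup M (pr x) => z ^ m) hA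
  have h9 : prm hq (mk (pw v n)) = ((β ^ (2 : ℤ)) ^ n : FundamentalGroup M (pr x)) := by
    rw [prm_mk, map_pw hq.isCoveringMap.continuous]
    have := fg_pw (v.map hq.isCoveringMap.continuous) n
    refine Eq.trans this ?_
    exact congrArg (fun z : FundamentalGroup M (pr x) => z ^ n) hB
  rw [h8, h9] at h7
  have h10 : (β ^ (2 : ℤ)) ^ n * (α ^ (2 : ℤ)) ^ m = 1 := h7
  have h11 : α ^ (2 * m) * β ^ (2 * n) = 1 := by
    rw [_root_.zpow_mul, _root_.zpow_mul]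
    rw [← ((hC.zpow_zpow 2 2).zpow_zpow m n).eq] at h10
    exact h10
  obtain ⟨h12, h13⟩ := hind _ _ h11
  rcases hmn with h | h
  · exact h (by omega)
  · exact h (by omega)

/-! ### application of the planar theorem -/

theorem cj_bound (h : SL) (R : ℝ) : ∃ R' : ℝ, ∀ N : M2, (∀ i j, |N i j| ≤ R) →
    ∀ i j, |cj h N i j| ≤ R' := by
  let c : ℝ := ∑ i, ∑ j, |(h : M2) i j|
  let c' : ℝ := ∑ i, ∑ j, |((h⁻¹ : SL) : M2) i j|
  have hc : ∀ i j, |(h : M2) i j| ≤ c := fun i j =>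
    (Finset.single_le_sum (f := fun j => |(h : M2) i j|) (fun _ _ => abs_nonneg _)
      (Finset.mem_univ j)).trans (Finset.single_le_sum (f := fun i => ∑ j, |(h : M2) i j|)
        (fun _ _ => Finset.sum_nonneg fun _ _ => abs_nonneg _) (Finset.mem_univ i))
  have hc' : ∀ i j, |((h⁻¹ : SL) : M2) i j| ≤ c' := fun i j =>
    (Finset.single_le_sum (f := fun j => |((h⁻¹ : SL) : M2) i j|) (fun _ _ => abs_nonneg _)
      (Finset.mem_univ j)).trans (Finset.single_le_sum (f := fun i => ∑ j, |((h⁻¹ : SL) : M2) i j|)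
        (fun _ _ => Finset.sum_nonneg fun _ _ => abs_nonneg _) (Finset.mem_univ i))
  have hc0 : 0 ≤ c := (abs_nonneg _).trans (hc 0 0)
  refine ⟨2 * (2 * (c * R) * c'), fun N hN i j => ?_⟩
  have hR : 0 ≤ R := (abs_nonneg _).trans (hN 0 0)
  have e : cj h N i j = ((h : M2) * N) i 0 * ((h⁻¹ : SL) : M2) 0 j +
      ((h : M2) * N) i 1 * ((h⁻¹ : SL) : M2) 1 j := by
    rw [cj, Matrix.mul_apply, Fin.sum_univ_two]
  have e2 : ∀ l, |((h : M2) * N) i l| ≤ 2 * (c * R) := by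
    intro l
    rw [Matrix.mul_apply, Fin.sum_univ_two]
    refine (abs_add_le _ _).trans ?_
    rw [abs_mul, abs_mul]
    have := mul_le_mul (hc i 0) (hN 0 l) (abs_nonneg _) hc0
    have := mul_le_mul (hc i 1) (hN 1 l) (abs_nonneg _) hc0
    linarith
  rw [e]
  refine (abs_add_le _ _).trans ?_
  rw [abs_mul, abs_mul]
  have h3 : (0 : ℝ) ≤ 2 * (c * R) := by positivity
  have := mul_le_mul (e2 0) (hc' 0 j) (abs_nonneg _) h3
  have := mul_le_mul (e2 1) (hc' 1 j) (abs_nonneg _) h3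
  linarith

theorem cq_inj (h : SL) {N N' : Qd} (e : cq h N = cq h N') : N = N' := by
  have := congrArg (cq h⁻¹) e
  rwa [← cq_mul, ← cq_mul, inv_mul_cancel, cq_one, cq_one] at this

theorem LF_Pq (hFin : FinStmt) : LF Pq := by
  intro R
  have h := (hFin.1 R).preimage (f := (Subtype.val : Qd → M2)) Subtype.val_injective.injOn
  refine h.subset fun N hN => ?_
  exact ⟨hN.1, hN.2⟩

theorem LF_pre (hFin : FinStmt) (h : SL) : LF {N : Qd | cq h N ∈ Pq} := by
  intro R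
  obtain ⟨R', hR'⟩ := cj_bound h R
  have h1 := (LF_Pq hFin R').preimage (f := cq h) (fun N _ N' _ e => cq_inj h e)
  refine h1.subset fun N hN => ?_
  exact ⟨hN.1, fun i j => hR' N.1 hN.2 i j⟩

theorem neg_Pq {N : Qd} (h : N ∈ Pq) : cq Jm Dq = cq Jm Dq → ∀ N' : Qd, N'.1 = -N.1 → N' ∈ Pq := by
  intro _ N' h'
  show N'.1 ∈ Lines
  rw [h']
  exact TubeA.neg_Lines h

theorem cj_Jm_Dm : cj Jm Dm = -Dm := Lift.cj_Jm

theorem XN_ip (N : Qd) : XN N = ip N.1 Dm := by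
  have h := N.2.1
  simp [XN, ip, Dm, nm, Matrix.trace_fin_two, Matrix.mul_apply, Fin.sum_univ_two, h]

theorem exists_mu (hL : LiftStmt) (hq : IsQuotientCoveringMap pr Gam) (hFin : FinStmt)
    (hMPT : MPTStmt) (hDA : DynAStmt) (hDB : DynBStmt) (x : E) (kp : Path x x)
    (hk : mk kp ≠ Path.Homotopic.Quotient.refl x) (g₀ : Gam) (h1 : (g₀.1 : M2) ≠ 1)
    (h2 : (g₀.1 : M2) ≠ -1) (U : PQ x (g₀ • x))
    (hc : (mk kp).trans U = U.trans (smm hq g₀ (mk kp))) :
    ∃ (G : SL) (ρ : ℝ) (k : ℤ), dq G ∈ Pq ∧ k ≠ 0 ∧ Small Pq G ρ ∧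
      FreeIn (Pqᶜ : Set Qd) (dp kp) (mu G ρ k) := by
  obtain ⟨h, T, hT, hg⟩ := hDA g₀.1 g₀.2 h1 h2
  obtain ⟨σ, hσ, hg'⟩ := sgn_eq hg
  obtain ⟨u, rfl⟩ := Path.Homotopic.Quotient.mk_surjective U
  change (mk kp).trans (mk u) = (mk u).trans (smm hq g₀ (mk kp)) at hc
  let km : Path (g₀ • x) (g₀ • x) := kp.map (sm hq g₀).continuous
  have f1 : FreeIn (Pqᶜ : Set Qd) (dp kp) ((dp kp).map (continuous_cq g₀.1)) := by
    have e1 : mk kp = mk (u.trans (km.trans u.symm)) := by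
      change mk kp = (mk u).trans ((smm hq g₀ (mk kp)).trans (mk u).symm)
      rw [← Path.Homotopic.Quotient.trans_assoc, ← hc]
      simp only [Path.Homotopic.Quotient.trans_assoc, Path.Homotopic.Quotient.trans_symm,
        Path.Homotopic.Quotient.trans_refl]
    have e2 := homIn_dp hL e1
    rw [dp_trans, dp_trans, dp_symm] at e2
    have e3 : FreeIn (Pqᶜ : Set Qd) (dp kp) (dp km) := ⟨dp u, e2⟩
    refine freeIn_congr (fun t => rfl) (fun t => ?_) e3
    exact dq_mul _ _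
  -- transport by `h`
  let P : Set Qd := {N | cq h N ∈ Pq}
  let c' := (dp kp).map (continuous_cq h⁻¹)
  have hS1 : ∀ p ∈ (Pqᶜ : Set Qd), cq h⁻¹ p ∈ Pᶜ := by
    intro p hp hp'
    apply hp
    have : cq h (cq h⁻¹ p) ∈ Pq := hp'
    rwa [← cq_mul, mul_inv_cancel, cq_one] at this
  have hS2 : ∀ p ∈ Pᶜ, cq h p ∈ (Pqᶜ : Set Qd) := fun p hp hp' => hp hp'
  have f2 : FreeIn Pᶜ c' (c'.map (continuous_cq (a T))) := by
    refine freeIn_congr (fun t => rfl) (fun t => ?_) (f1.map (continuous_cq h⁻¹) hS1)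
    show cq h⁻¹ (cq g₀.1 (dp kp t)) = cq (a T) (cq h⁻¹ (dp kp t))
    rw [← cq_mul, ← cq_mul, hg', ← mul_assoc, ← Z2_comm hσ, mul_assoc, cq_mul, Z2_cq hσ]
    congr 1
    group
  have hgT : ∀ N : Qd, cq h (cq (a T) N) = cq g₀.1 (cq h N) := by
    intro N
    rw [hg', cq_mul, Z2_cq hσ, ← cq_mul, ← cq_mul]
    congr 1
    group
  have hDq : Dq ∈ P ↔ cq Jm Dq ∈ P := by
    have e : (cq h (cq Jm Dq)).1 = -(cq h Dq).1 := by
      show cj h (cj Jm Dm) = -cj h Dm
      rw [cj_Jm_Dm, cj_neg]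
    constructor
    · intro hh
      exact neg_Pq hh rfl _ e
    · intro hh
      refine neg_Pq hh rfl _ ?_
      rw [e, neg_neg]
  obtain ⟨N, hN, hNip⟩ := hDB h
  have hNdet : N 1 1 = -N 0 0 ∧ N.det = -1 := by
    obtain ⟨b, d, c, hQ, rfl⟩ := hN
    exact ⟨by simp [nm], det_of_Q hQ⟩
  let Nq : Qd := ⟨N, hNdet⟩
  let q1 : Qd := cq h⁻¹ Nq
  have hq1 : q1 ∈ P := by
    show cq h (cq h⁻¹ Nq) ∈ Pq
    rw [← cq_mul, mul_inv_cancel, cq_one]
    exact hN
  have hX1 : |XN q1| < 1 := by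
    have e : XN q1 = ip N (cj h Dm) := by
      rw [XN_ip]
      show ip (cj h⁻¹ N) Dm = _
      rw [← ip_cj h, cj_cj_inv]
    rw [e]
    exact hNip
  have hneg : (-q1.1 : M2) 1 1 = -(-q1.1 : M2) 0 0 ∧ (-q1.1 : M2).det = -1 := by
    constructor
    · rw [Matrix.neg_apply, Matrix.neg_apply, q1.2.1]
    · have := q1.2.2
      rw [Matrix.det_fin_two] at this ⊢
      simp only [Matrix.neg_apply]
      linarith
  let q2 : Qd := ⟨-q1.1, hneg⟩
  have hq2 : q2 ∈ P := by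
    refine neg_Pq (N := cq h q1) hq1 rfl _ ?_
    show cj h (-q1.1) = -cj h q1.1
    rw [cj_neg]
  have hX2 : XN q2 = -XN q1 := by simp [XN, q2]
  have hY2 : YN q2 = -YN q1 := by
    simp only [YN, q2, Matrix.neg_apply]
    ring
  have hY : YN q1 ≠ 0 := by
    intro h0
    have e := XYT q1
    rw [h0] at e
    have e2 : XN q1 ^ 2 < 1 := by
      rw [sq_lt_one_iff_abs_lt_one]
      exact hX1
    nlinarith [sq_nonneg (TN q1)]
  have hX2' : |XN q2| < 1 := by
    rw [hX2, abs_neg]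
    exact hX1
  have hpos : ∃ q ∈ P, |XN q| < 1 ∧ 0 < YN q := by
    rcases lt_or_gt_of_ne hY with hh | hh
    · exact ⟨q2, hq2, hX2', by rw [hY2]; linarith⟩
    · exact ⟨q1, hq1, hX1, hh⟩
  have hneg' : ∃ q ∈ P, |XN q| < 1 ∧ YN q < 0 := by
    rcases lt_or_gt_of_ne hY with hh | hh
    · exact ⟨q1, hq1, hX1, hh⟩
    · exact ⟨q2, hq2, hX2', by rw [hY2]; linarith⟩
  have hinv : ∀ N, N ∈ P ↔ cq (a T) N ∈ P := by
    intro N
    show cq h N ∈ Pq ↔ cq h (cq (a T) N) ∈ Pq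
    rw [hgT, cq_Pq_iff g₀.2]
  rcases hMPT P T (LF_pre hFin h) hT hDq hinv hpos hneg' _ c' f2 with h3 | h3
  · exfalso
    apply hk
    have e1 := h3.map (continuous_cq h) hS2
    have e2 : HomIn (Pqᶜ : Set Qd) (dp kp) (dp (Path.refl x)) := by
      refine homIn_congr (fun t => ?_) (fun t => ?_) e1
      · show cq h (cq h⁻¹ (dp kp t)) = dp kp t
        rw [← cq_mul, mul_inv_cancel, cq_one]
      · show cq h (cq h⁻¹ (dq x.1)) = dq x.1
        rw [← cq_mul, mul_inv_cancel, cq_one]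
    exact of_homIn_dp hL e2
  · obtain ⟨g, ρ, k, hgP, hk0, hSm, hF⟩ := h3
    refine ⟨h * g, ρ, k, ?_, hk0, ⟨hSm.1, hSm.2.1, fun w h0 h1 => ?_⟩, ?_⟩
    · rw [dq_mul]
      exact hgP
    · rw [mul_assoc, dq_mul]
      exact hSm.2.2 w h0 h1
    · have e1 := hF.map (continuous_cq h) hS2
      refine freeIn_congr (fun t => ?_) (fun t => ?_) e1
      · show cq h (cq h⁻¹ (dp kp t)) = dp kp t
        rw [← cq_mul, mul_inv_cancel, cq_one]
      · show cq h (dq (g * y (cw ρ k t))) = dq (h * g * y (cw ρ k t))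
        rw [← dq_mul, mul_assoc]

end AdT.AtoroM

namespace AdT

open AtoroM

theorem atoroM (hQA : QuotAStmt) (hFr : FrameStmt) (hFin : FinStmt) (hTr : TransStmt)
    (hSt : StabStmt) (hA : TubeAStmt) (hMu : MuStmt) (hP4a : P4aStmt) (hP4b : P4bStmt)
    (hP4c : P4cStmt) (hMPT : MPTStmt) (hDA : DynAStmt) (hDB : DynBStmt) (hDC : DynCStmt)
    (hL : LiftStmt) : AtoroMStmt := by
  intro x₀ α β hαβ hind
  have hq := hQA.2.1
  have hLF := LF_Pq hFin
  obtain ⟨x, rfl⟩ : ∃ x : E, pr x = x₀ := hq.surjective x₀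
  have hC : Commute α β := hαβ
  have hcg : ph hq x α * ph hq x β = ph hq x β * ph hq x α := by
    rw [← ph_mul, ← ph_mul, hαβ]
  obtain ⟨m, n, hmn, hmn1⟩ := hDC (ph hq x α).1 (ph hq x α).2 (ph hq x β).1 (ph hq x β).2
    (congrArg Subtype.val hcg)
  let κ : FundamentalGroup M (pr x) := α ^ m * β ^ n
  have hmn2 : ph hq x α ^ m * ph hq x β ^ n = 1 := by
    apply Subtype.ext
    exact hmn1
  have hκ1 : ph hq x κ = 1 := by
    show ph hq x (α ^ m * β ^ n) = 1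
    rw [ph_mul, ph_zpow, ph_zpow, ← hmn2]
    have hcc : Commute (ph hq x α) (ph hq x β) := hcg
    exact ((hcc.zpow_zpow m n).eq).symm
  have hκ2 : κ ≠ 1 := by
    intro h
    obtain ⟨h1, h2⟩ := hind m n h
    rcases hmn with h3 | h3
    · exact h3 h1
    · exact h3 h2
  have hκα : Commute κ α := by
    show Commute (α ^ m * β ^ n) α
    exact ((Commute.refl α).zpow_left m).mul_left (hC.symm.zpow_left n)
  have hκβ : Commute κ β := by
    show Commute (α ^ m * β ^ n) β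
    exact (hC.zpow_left m).mul_left ((Commute.refl β).zpow_left n)
  obtain ⟨K, hK⟩ := lift_one hq x κ hκ1
  obtain ⟨kp, rfl⟩ := Path.Homotopic.Quotient.mk_surjective K
  change prm hq (mk kp) = _ at hK
  have hkp : mk kp ≠ Path.Homotopic.Quotient.refl x := by
    intro h
    apply hκ2
    rw [h] at hK
    exact hK.symm
  have key : ∀ ξ : FundamentalGroup M (pr x), Commute κ ξ →
      (prm hq (mk kp)).trans (ξ : PQ (pr x) (pr x)) =
        (ξ : PQ (pr x) (pr x)).trans (prm hq (mk kp)) := by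
    intro ξ hξ
    rw [hK]
    have h1 : ξ * κ = κ * ξ := hξ.symm
    exact h1
  -- a group element different from plus minus one
  have hexists : ∃ ξ : FundamentalGroup M (pr x), Commute κ ξ ∧ ((ph hq x ξ).1 : M2) ≠ 1 ∧
      ((ph hq x ξ).1 : M2) ≠ -1 := by
    by_contra hcon
    push Not at hcon
    have hsq : ∀ ξ : FundamentalGroup M (pr x), Commute κ ξ → ph hq x ξ ^ 2 = 1 := by
      intro ξ hξ
      apply Subtype.ext
      apply Subtype.ext
      show ((((ph hq x ξ) ^ 2 : Gam) : SL) : M2) = 1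
      rw [Subgroup.coe_pow, Matrix.SpecialLinearGroup.coe_pow]
      by_cases h1 : ((ph hq x ξ).1 : M2) = 1
      · rw [h1, one_pow]
      · have h2 := hcon ξ hξ h1
        rw [h2]
        simp
    exact case_two hL hq hP4a hLF x α β hαβ hind (hsq α hκα) (hsq β hκβ)
  obtain ⟨ξ, hξ, hξ1, hξ2⟩ := hexists
  obtain ⟨U, hU⟩ := lift_gen hq x ξ
  have hcU := comm_lift hq x (mk kp) _ U ξ hU (key ξ hξ)
  obtain ⟨G, ρ, k, hGP, hk0, hSm, hF⟩ := exists_mu hL hq hFin hMPT hDA hDB x kp hkp _ hξ1 hξ2 U hcU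
  obtain ⟨g, hg, hgN⟩ := hTr (dq G).1 hGP
  have hdq : dq g = dq G := Subtype.ext hgN
  obtain ⟨s, hs⟩ := hL.2.2.2.1 g G hdq
  obtain ⟨ς, hς, hG⟩ := sgn_eq hs
  refine ⟨g, hg, fun dl hdl hdl' => ?_⟩
  let ρ' : ℝ := min ρ (dl / 2)
  have hρ'0 : 0 < ρ' := lt_min hSm.1 (by positivity)
  have hρ'1 : ρ' ≤ ρ := min_le_left _ _
  have hρ'2 : ρ' < dl := (min_le_right _ _).trans_lt (by linarith)
  obtain ⟨hSm', hF'⟩ := hMu.1 Pq G ρ ρ' k hSm hρ'0 hρ'1
  have hF2 := hF.trans hF'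
  obtain ⟨D, hD1, hD2, hD3, δ, hδ⟩ := exists_tube hA hL hς hg hG hρ'0
    (hρ'2.trans hdl') hF2
  have hG2 : G = ς * (D.g * a D.s) := by rw [hD1, hD2]; exact hG
  have hSm2 : Small Pq G D.ρ := by rw [hD3]; exact hSm'
  have hdl2 : D.ρ < dl := by rw [hD3]; exact hρ'2
  obtain ⟨p, hp1, hp2⟩ := final_loop hA hL hSt hq hP4b hP4c hLF D hς hG2 hGP hSm2 hk0 dl hdl2 δ hδ
    α (key α hκα)
  obtain ⟨q, hq1, hq2⟩ := final_loop hA hL hSt hq hP4b hP4c hLF D hς hG2 hGP hSm2 hk0 dl hdl2 δ hδ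
    β (key β hκβ)
  rw [hD1] at hp1 hq1
  exact ⟨_, _, p, q, hp1, hq1, hp2, hq2⟩

end AdT
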