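import Pool.Agent.Helper88.AdT.Stmts2

/-!
# lifting from the annulus of oriented geodesics to frames
-/

open Matrix Real Topology Filter Set

noncomputable section

namespace AdT

namespace Lift

lemma a_zero : a 0 = 1 := by
  apply Subtype.ext
  ext i j
  fin_cases i <;> fin_cases j <;> simp [a]

lemma a_add (s t : ℝ) : a (s + t) = a s * a t := by
  apply Subtype.ext
  ext i j
  fin_cases i <;> fin_cases j <;>
    simp [a, Matrix.mul_apply, Fin.sum_univ_two, ← Real.exp_add] <;> ring

lemma continuous_a : Continuous a := by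
  apply Continuous.subtype_mk
  apply continuous_matrix
  intro i j
  fin_cases i <;> fin_cases j <;> simp <;> fun_prop

lemma mul_entry (x z : SL) (i j : Fin 2) : (x * z : SL) i j = x i 0 * z 0 j + x i 1 * z 1 j := by
  rw [Matrix.SpecialLinearGroup.coe_mul, Matrix.mul_apply, Fin.sum_univ_two]

lemma det_eq (x : SL) : x 0 0 * x 1 1 - x 0 1 * x 1 0 = 1 := by
  have := x.2
  rwa [Matrix.det_fin_two] at this

lemma col0_pos (x : SL) : 0 < x 0 0 ^ 2 + x 1 0 ^ 2 := by
  have h := det_eq x
  rcases eq_or_ne (x 0 0) 0 with h0 | h0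
  · rcases eq_or_ne (x 1 0) 0 with h1 | h1
    · rw [h0, h1] at h; simp at h
    · positivity
  · positivity

lemma col1_pos (x : SL) : 0 < x 0 1 ^ 2 + x 1 1 ^ 2 := by
  have h := det_eq x
  rcases eq_or_ne (x 0 1) 0 with h0 | h0
  · rcases eq_or_ne (x 1 1) 0 with h1 | h1
    · rw [h0, h1] at h; simp at h
    · positivity
  · positivity

/-- the flow coordinate -/
def u (x : SL) : ℝ := Real.log ((x 0 0 ^ 2 + x 1 0 ^ 2) / (x 0 1 ^ 2 + x 1 1 ^ 2)) / 2

lemma continuous_entry (i j : Fin 2) : Continuous (fun x : SL => x i j) :=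
  (continuous_apply j).comp ((continuous_apply i).comp continuous_subtype_val)

lemma continuous_u : Continuous u := by
  unfold u
  have h00 := continuous_entry 0 0
  have h01 := continuous_entry 0 1
  have h10 := continuous_entry 1 0
  have h11 := continuous_entry 1 1
  refine (Continuous.log ?_ fun x => (div_pos (col0_pos x) (col1_pos x)).ne').div_const _
  exact ((h00.pow 2).add (h10.pow 2)).div ((h01.pow 2).add (h11.pow 2))
    fun x => (col1_pos x).ne'

lemma u_a (x : SL) (t : ℝ) : u (x * a t) = u x + t := by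
  have e1 : ((x * a t : SL) 0 0 ^ 2 + (x * a t : SL) 1 0 ^ 2) /
      ((x * a t : SL) 0 1 ^ 2 + (x * a t : SL) 1 1 ^ 2) =
      ((x 0 0 ^ 2 + x 1 0 ^ 2) / (x 0 1 ^ 2 + x 1 1 ^ 2)) * Real.exp (2 * t) := by
    simp only [mul_entry]
    simp only [a, Matrix.SpecialLinearGroup.coe_mk, Matrix.of_apply, Matrix.cons_val',
      Matrix.cons_val_zero, Matrix.cons_val_one, Matrix.cons_val_fin_one, mul_zero, add_zero,
      zero_add]
    have h2 : Real.exp (2 * t) = Real.exp (t / 2) ^ 2 * Real.exp (t / 2) ^ 2 := by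
      rw [← Real.exp_nat_mul, ← Real.exp_add]; congr 1; push_cast; ring
    have h3 : Real.exp (-(t / 2)) = (Real.exp (t / 2))⁻¹ := Real.exp_neg _
    have h4 : Real.exp (t / 2) ≠ 0 := (Real.exp_pos _).ne'
    have h5 := (col1_pos x).ne'
    rw [h2, h3]
    field_simp
  rw [u, u, e1, Real.log_mul (div_pos (col0_pos x) (col1_pos x)).ne' (Real.exp_pos _).ne',
    Real.log_exp]
  ring

lemma dq_a (x : SL) (t : ℝ) : dq (x * a t) = dq x := by
  rw [dq_mul, dq]
  congr 1
  apply Subtype.ext
  show cj (a t) Dm = Dm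
  rw [cj, inv_entries]
  ext i j
  fin_cases i <;> fin_cases j <;>
    simp [a, Dm, nm, Matrix.mul_apply, Fin.sum_univ_two, ← Real.exp_add]

lemma sq_one (N : Qd) : N.1 * N.1 = 1 := by
  have h1 := N.2.1
  have h2 := N.2.2
  rw [Matrix.det_fin_two] at h2
  ext i j
  fin_cases i <;> fin_cases j <;> simp [Matrix.mul_apply, Fin.sum_univ_two, h1]
  · rw [h1] at h2; linarith
  · ring
  · ring
  · rw [h1] at h2; linarith

lemma det_one_add (N0 N : Qd) : (1 + N.1 * N0.1).det = 2 + (N.1 * N0.1).trace := by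
  have h : (N.1 * N0.1).det = 1 := by
    rw [Matrix.det_mul, N.2.2, N0.2.2]; norm_num
  rw [Matrix.det_fin_two] at h
  rw [Matrix.det_fin_two, Matrix.trace_fin_two]
  simp only [Matrix.add_apply, Matrix.one_apply_eq, ne_eq, zero_ne_one, not_false_eq_true,
    Matrix.one_apply_ne, one_ne_zero]
  linarith

/-- the matrix moving `N0` to `N` -/
def gmat (N0 N : Qd) : M2 := (√(2 + (N.1 * N0.1).trace))⁻¹ • (1 + N.1 * N0.1)

lemma gmat_det {N0 N : Qd} (h : 0 < 2 + (N.1 * N0.1).trace) : (gmat N0 N).det = 1 := by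
  have hs : 0 < √(2 + (N.1 * N0.1).trace) := Real.sqrt_pos.mpr h
  rw [gmat, Matrix.det_smul, det_one_add]
  simp only [Fintype.card_fin]
  rw [inv_pow, Real.sq_sqrt h.le, inv_mul_cancel₀ h.ne']

open Classical in
/-- the element of `SL` moving `N0` to `N` -/
def gg (N0 N : Qd) : SL := if h : 0 < 2 + (N.1 * N0.1).trace then ⟨gmat N0 N, gmat_det h⟩ else 1

lemma cq_gg {N0 N : Qd} (h : 0 < 2 + (N.1 * N0.1).trace) : cq (gg N0 N) N0 = N := by
  apply Subtype.ext
  show cj (gg N0 N) N0.1 = N.1
  have hg : ((gg N0 N : SL) : M2) = gmat N0 N := by rw [gg, dif_pos h]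
  have hcomm : ((gg N0 N : SL) : M2) * N0.1 = N.1 * ((gg N0 N : SL) : M2) := by
    rw [hg, gmat, Matrix.smul_mul, Matrix.mul_smul, Matrix.add_mul, Matrix.mul_add,
      Matrix.one_mul, Matrix.mul_one, Matrix.mul_assoc, sq_one N0, ← Matrix.mul_assoc, sq_one N,
      Matrix.one_mul, Matrix.mul_one]
    congr 1
    exact add_comm _ _
  rw [cj, hcomm, Matrix.mul_assoc, SL_mul_inv, Matrix.mul_one]

lemma trace_self (N : Qd) : (N.1 * N.1).trace = 2 := by
  rw [sq_one, Matrix.trace_one]; simp

lemma gg_self (N : Qd) : gg N N = 1 := by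
  have h : 0 < 2 + (N.1 * N.1).trace := by rw [trace_self]; norm_num
  rw [gg, dif_pos h]
  apply Subtype.ext
  show gmat N N = 1
  rw [gmat, trace_self, sq_one]
  have : √(2 + 2 : ℝ) = 2 := by
    rw [show (2 + 2 : ℝ) = 2 ^ 2 by norm_num]; exact Real.sqrt_sq (by norm_num)
  rw [this, ← two_smul ℝ (1 : M2), smul_smul]
  norm_num

lemma continuous_trace (N0 : Qd) : Continuous (fun N : Qd => (N.1 * N0.1).trace) :=
  (continuous_subtype_val.matrix_mul continuous_const).matrix_trace

lemma continuousAt_gg (N0 : Qd) : ContinuousAt (gg N0) N0 := by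
  have h0 : 0 < 2 + (N0.1 * N0.1).trace := by rw [trace_self]; norm_num
  have hopen : ∀ᶠ N in 𝓝 N0, 0 < 2 + (N.1 * N0.1).trace :=
    (continuous_const.add (continuous_trace N0)).continuousAt.eventually (lt_mem_nhds h0)
  have hind : IsInducing (fun x : SL => (x : M2)) := ⟨rfl⟩
  rw [hind.continuousAt_iff]
  have hc : ContinuousAt (gmat N0) N0 := by
    unfold gmat
    have c1 : ContinuousAt (fun N : Qd => √(2 + (N.1 * N0.1).trace)) N0 :=
      (Real.continuous_sqrt.comp (continuous_const.add (continuous_trace N0))).continuousAt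
    have c2 : ContinuousAt (fun N : Qd => (√(2 + (N.1 * N0.1).trace))⁻¹) N0 :=
      c1.inv₀ (Real.sqrt_pos.mpr h0).ne'
    have c3 : Continuous (fun N : Qd => (1 + N.1 * N0.1 : M2)) :=
      continuous_const.add (continuous_subtype_val.matrix_mul continuous_const)
    exact c2.smul c3.continuousAt
  refine hc.congr ?_
  filter_upwards [hopen] with N hN
  show gmat N0 N = ((gg N0 N : SL) : M2)
  rw [gg, dif_pos hN]

/-- the two-fold covering -/
def Pm (x : SL) : Qd × ℝ := (dq x, u x)

lemma continuous_Pm : Continuous Pm := continuous_dq.prodMk continuous_u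

/-- local sections -/
def sec (x0 : SL) (q : Qd × ℝ) : SL :=
  gg (dq x0) q.1 * x0 * a (q.2 - u (gg (dq x0) q.1 * x0))

lemma Pm_sec (x0 : SL) (q : Qd × ℝ) (h : 0 < 2 + (q.1.1 * (dq x0).1).trace) :
    Pm (sec x0 q) = q := by
  rw [Pm, sec, dq_a, u_a, dq_mul, cq_gg h]
  simp

lemma sec_self (x0 : SL) : sec x0 (Pm x0) = x0 := by
  rw [sec, Pm, gg_self, one_mul, sub_self, a_zero, mul_one]

lemma continuousAt_sec (x0 : SL) : ContinuousAt (sec x0) (Pm x0) := by
  unfold sec
  have h1 : ContinuousAt (fun q : Qd × ℝ => gg (dq x0) q.1 * x0) (Pm x0) := by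
    refine ContinuousAt.mul ?_ continuousAt_const
    exact ContinuousAt.comp (g := gg (dq x0)) (f := fun q : Qd × ℝ => q.1) (continuousAt_gg (dq x0)) continuousAt_fst
  refine h1.mul ?_
  exact continuous_a.continuousAt.comp (continuousAt_snd.sub (continuous_u.continuousAt.comp h1))

lemma isOpenMap_Pm : IsOpenMap Pm := by
  rw [isOpenMap_iff_nhds_le]
  intro x0 V hV
  rw [Filter.mem_map] at hV
  have h0 : 0 < 2 + ((dq x0).1 * (dq x0).1).trace := by rw [trace_self]; norm_num
  have hopen : ∀ᶠ q : Qd × ℝ in 𝓝 (Pm x0), 0 < 2 + (q.1.1 * (dq x0).1).trace := by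
    have hc : Continuous (fun q : Qd × ℝ => 2 + (q.1.1 * (dq x0).1).trace) :=
      continuous_const.add ((continuous_trace (dq x0)).comp continuous_fst)
    exact hc.continuousAt.eventually (lt_mem_nhds h0)
  have hV' : ∀ᶠ q : Qd × ℝ in 𝓝 (Pm x0), sec x0 q ∈ Pm ⁻¹' V := by
    refine (continuousAt_sec x0).eventually ?_
    rw [sec_self]
    exact hV
  filter_upwards [hopen, hV'] with q h1 h2
  rwa [mem_preimage, Pm_sec x0 q h1] at h2

lemma dq_one : dq 1 = Dq := cq_one Dq

lemma cj_Jm : cj Jm Dm = -Dm := by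
  rw [cj, inv_entries]
  ext i j
  fin_cases i <;> fin_cases j <;>
    simp [Jm, Dm, nm, Matrix.mul_apply, Fin.sum_univ_two]

lemma surj_dq (N : Qd) : ∃ x, dq x = N := by
  by_cases h : 0 < 2 + (N.1 * Dq.1).trace
  · exact ⟨gg Dq N, cq_gg h⟩
  · refine ⟨gg (dq Jm) N * Jm, ?_⟩
    rw [dq_mul, cq_gg]
    have e : (dq Jm).1 = -Dq.1 := cj_Jm
    rw [e, Matrix.mul_neg, Matrix.trace_neg]
    linarith

lemma surj_Pm : Function.Surjective Pm := by
  rintro ⟨N, v⟩
  obtain ⟨x, hx⟩ := surj_dq N
  exact ⟨x * a (v - u x), by rw [Pm, dq_a, u_a, hx]; simp⟩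

/-- two frames with the same flow line -/
lemma dq_eq {x x' : SL} (h : dq x = dq x') : ∃ s : ℝ, (x' : M2) = ((x * a s : SL) : M2) ∨
    (x' : M2) = -((x * a s : SL) : M2) := by
  obtain ⟨z, hx'⟩ : ∃ z : SL, x' = x * z := ⟨x⁻¹ * x', by group⟩
  have h1 : cj z Dm = Dm := by
    have h2 : cj x' Dm = cj x Dm := (congrArg Subtype.val h).symm
    have h4 : z = x⁻¹ * x' := by rw [hx']; group
    rw [h4, cj_mul, h2, ← cj_mul, inv_mul_cancel, cj_one]
  have h3 : (z : M2) * Dm = Dm * (z : M2) := by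
    have : (z : M2) * Dm * ((z⁻¹ : SL) : M2) * (z : M2) = Dm * (z : M2) := congrArg (· * (z : M2)) h1
    rwa [Matrix.mul_assoc, SL_inv_mul, Matrix.mul_one] at this
  have e01 := congrFun (congrFun h3 0) 1
  have e10 := congrFun (congrFun h3 1) 0
  simp [Dm, nm, Matrix.mul_apply, Fin.sum_univ_two] at e01 e10
  have z01 : z 0 1 = 0 := by linarith
  have z10 : z 1 0 = 0 := by linarith
  have hdet := det_eq z
  rw [z01, z10] at hdet
  have hne : z 0 0 ≠ 0 := by
    intro h; rw [h] at hdet; simp at hdet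
  have h11 : z 1 1 = (z 0 0)⁻¹ := by
    field_simp
    linarith
  obtain ⟨p, hp⟩ : ∃ p : ℝ, z 0 0 = p := ⟨_, rfl⟩
  rw [hp] at hne h11
  have hz : (z : M2) = !![p, 0; 0, p⁻¹] := by
    ext i j
    fin_cases i <;> fin_cases j
    · exact hp
    · exact z01
    · exact z10
    · exact h11
  refine ⟨2 * Real.log |p|, ?_⟩
  have hexp : Real.exp (2 * Real.log |p| / 2) = |p| := by
    rw [mul_div_cancel_left₀ _ (two_ne_zero), Real.exp_log (abs_pos.mpr hne)]
  have hexp' : Real.exp (-(2 * Real.log |p| / 2)) = |p|⁻¹ := by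
    rw [Real.exp_neg, hexp]
  have ha : ((a (2 * Real.log |p|) : SL) : M2) = !![|p|, 0; 0, |p|⁻¹] := by
    show !![Real.exp (2 * Real.log |p| / 2), 0; 0, Real.exp (-(2 * Real.log |p| / 2))] = _
    rw [hexp, hexp']
  rw [hx', Matrix.SpecialLinearGroup.coe_mul, Matrix.SpecialLinearGroup.coe_mul, ha, hz]
  rcases lt_or_gt_of_ne hne with hneg | hpos
  · right
    rw [abs_of_neg hneg, ← Matrix.mul_neg]
    congr 1
    ext i j
    fin_cases i <;> fin_cases j <;> simp [inv_neg]
  · left
    rw [abs_of_pos hpos]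

/-- minus one -/
def mone : SL := ⟨-1, by simp [Matrix.det_fin_two]⟩

lemma mone_sq : mone * mone = 1 := by
  apply Subtype.ext
  show (-1 : M2) * (-1 : M2) = 1
  simp

/-- the group with two elements -/
def Z2 : Subgroup SL where
  carrier := {1, mone}
  mul_mem' := by
    rintro x z (rfl | rfl) (rfl | rfl) <;> simp [mone_sq]
  one_mem' := by simp
  inv_mem' := by
    rintro x (rfl | rfl)
    · simp
    · right
      exact inv_eq_of_mul_eq_one_right mone_sq

lemma mem_Z2 {x : SL} : x ∈ Z2 ↔ x = 1 ∨ x = mone := Iff.rfl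

lemma mone_mul (x : SL) : ((mone * x : SL) : M2) = -(x : M2) := by
  rw [Matrix.SpecialLinearGroup.coe_mul]
  show (-1 : M2) * _ = _
  simp

lemma cj_mone (N : M2) : cj mone N = N := by
  have : (mone⁻¹ : SL) = mone := inv_eq_of_mul_eq_one_right mone_sq
  rw [cj, this]
  show (-1 : M2) * N * (-1 : M2) = N
  simp

lemma Pm_mone (x : SL) : Pm (mone * x) = Pm x := by
  have h : ∀ i j, (mone * x : SL) i j = -x i j := fun i j =>
    congrFun (congrFun (mone_mul x) i) j
  rw [Pm, Pm, dq_mul]
  congr 1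
  · exact Subtype.ext (cj_mone _)
  · rw [u, u, h, h, h, h]; simp

lemma Pm_eq {x x' : SL} (h : Pm x = Pm x') : x = x' ∨ x = mone * x' := by
  obtain ⟨h1, h2⟩ := Prod.mk.inj h
  obtain ⟨s, hs | hs⟩ := dq_eq h1.symm
  · left
    have e : x = x' * a s := Subtype.ext hs
    have h3 : u x = u x' + s := by rw [e, u_a]
    have h4 : s = 0 := by linarith
    rw [e, h4, a_zero, mul_one]
  · right
    have e : x = mone * (x' * a s) := by
      apply Subtype.ext; rw [mone_mul]; exact hs
    have h3 : u x = u x' + s := by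
      have : Pm x = Pm (x' * a s) := by rw [e, Pm_mone]
      have := (Prod.mk.inj this).2
      rw [this, u_a]
    have h4 : s = 0 := by linarith
    rw [e, h4, a_zero, mul_one]

lemma isCoveringMap_Pm : IsCoveringMap Pm := by
  have hq : IsQuotientCoveringMap Pm Z2 := by
    refine { toIsQuotientMap := isOpenMap_Pm.isQuotientMap continuous_Pm surj_Pm
             continuous_const_smul := ?_
             apply_eq_iff_mem_orbit := ?_
             disjoint := ?_ }
    · rintro ⟨g, hg⟩
      exact continuous_const.mul continuous_id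
    · intro x x'
      constructor
      · intro h
        rcases Pm_eq h with h | h
        · exact ⟨1, by rw [h]; simp⟩
        · exact ⟨⟨mone, Or.inr rfl⟩, by rw [h]; rfl⟩
      · rintro ⟨⟨g, hg⟩, rfl⟩
        rcases hg with rfl | rfl
        · show Pm (1 * x') = Pm x'
          rw [one_mul]
        · exact Pm_mone x'
    · intro x
      obtain ⟨i, j, hij⟩ : ∃ i j, x i j ≠ 0 := by
        by_contra hcon
        push Not at hcon
        have := det_eq x
        rw [hcon 0 0, hcon 0 1] at this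
        simp at this
      refine ⟨{z | 0 < z i j * x i j}, ?_, ?_⟩
      · refine IsOpen.mem_nhds (isOpen_lt continuous_const
          ((continuous_entry i j).mul continuous_const)) ?_
        exact mul_self_pos.mpr hij
      · rintro ⟨g, hg⟩ ⟨_, ⟨z, hz, rfl⟩, hz'⟩
        rcases hg with rfl | rfl
        · rfl
        · exfalso
          have e : (mone * z : SL) i j = -z i j := congrFun (congrFun (mone_mul z) i) j
          have h1 : 0 < (mone * z : SL) i j * x i j := hz'
          have h2 : 0 < z i j * x i j := hz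
          rw [e] at h1
          linarith
  exact hq.isCoveringMap

/-- path lifting -/
lemma lift1 (x : SL) (N : Qd) (γ : Path (dq x) N) :
    ∃ (x' : SL) (γ' : Path x x'), ∀ t, dq (γ' t) = γ t := by
  obtain ⟨Γ, h1, h2⟩ := isCoveringMap_Pm.exists_path_lifts
    (⟨fun t => (γ t, u x), by fun_prop⟩ : C(unitInterval, Qd × ℝ)) x (by simp [Pm])
  refine ⟨Γ 1, ⟨Γ, h2, rfl⟩, fun t => ?_⟩
  exact congrArg Prod.fst (congrFun h1 t)

/-- homotopies lift -/
lemma lift2 (S : Set Qd) (x x' : SL) (γ γ' : Path x x')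
    (h : HomIn S (γ.map continuous_dq) (γ'.map continuous_dq)) : HomIn (dq ⁻¹' S) γ γ' := by
  obtain ⟨H, hH⟩ := h
  let F : ContinuousMap.HomotopyRel
      ((ContinuousMap.mk Pm continuous_Pm).comp γ.toContinuousMap)
      ((ContinuousMap.mk Pm continuous_Pm).comp γ'.toContinuousMap) {0, 1} :=
    { toFun := fun p => (H p, (1 - (p.1 : ℝ)) * u (γ p.2) + (p.1 : ℝ) * u (γ' p.2))
      continuous_toFun := by
        have h1 := continuous_u
        have h2 := γ.continuous
        have h3 := γ'.continuous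
        fun_prop
      map_zero_left := by
        intro t
        show (H (0, t), (1 - ((0 : unitInterval) : ℝ)) * u (γ t) +
          ((0 : unitInterval) : ℝ) * u (γ' t)) = Pm (γ t)
        rw [H.apply_zero]
        simp [Pm]
      map_one_left := by
        intro t
        show (H (1, t), (1 - ((1 : unitInterval) : ℝ)) * u (γ t) +
          ((1 : unitInterval) : ℝ) * u (γ' t)) = Pm (γ' t)
        rw [H.apply_one]
        simp [Pm]
      prop' := by
        intro s t ht
        show (H (s, t), (1 - (s : ℝ)) * u (γ t) + (s : ℝ) * u (γ' t)) = Pm (γ t)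
        rcases ht with rfl | rfl
        · rw [H.source]
          simp [Pm]
          ring
        · rw [H.target]
          simp [Pm]
          ring }
  refine ⟨isCoveringMap_Pm.liftHomotopyRel F (f₀' := γ.toContinuousMap)
    (f₁' := γ'.toContinuousMap) ⟨0, by simp, by simp⟩ rfl rfl, fun p => ?_⟩
  have h1 := congrFun (isCoveringMap_Pm.liftHomotopy_lifts F γ.toContinuousMap
    (fun t => F.apply_zero t)) p
  have h2 := congrArg Prod.fst h1
  have h3 : dq (isCoveringMap_Pm.liftHomotopy F γ.toContinuousMap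
    (fun t => F.apply_zero t) p) = H p := h2
  show dq (isCoveringMap_Pm.liftHomotopy F γ.toContinuousMap
    (fun t => F.apply_zero t) p) ∈ S
  rw [h3]
  exact hH p

lemma lift3 (S : Set Qd) (x x' x'' : SL) (γ : Path x x') (γ' : Path x x'') (h : dq x' = dq x'')
    (hh : HomIn S (γ.map continuous_dq) ((γ'.map continuous_dq).cast rfl h)) :
    ∃ s : ℝ, x'' = x' * a s := by
  obtain ⟨H, -⟩ := hh
  obtain ⟨c, hc⟩ : ∃ c, c = u x' - u x'' := ⟨_, rfl⟩
  let γ2 : C(unitInterval, SL) := ⟨fun t => γ' t * a ((t : ℝ) * c), by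
    have h1 := continuous_a
    exact γ'.continuous.mul (h1.comp (by fun_prop))⟩
  have hγ2 : ∀ t, γ2 t = γ' t * a ((t : ℝ) * c) := fun _ => rfl
  have g0 : γ2 0 = x := by rw [hγ2]; simp [a_zero]
  have g1 : γ2 1 = x'' * a c := by rw [hγ2]; simp
  have hu : ∀ t, u (γ2 t) = u (γ' t) + (t : ℝ) * c := fun t => by rw [hγ2, u_a]
  have hd : ∀ t, dq (γ2 t) = dq (γ' t) := fun t => by rw [hγ2, dq_a]
  let F : ContinuousMap.HomotopyRel
      ((ContinuousMap.mk Pm continuous_Pm).comp γ.toContinuousMap)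
      ((ContinuousMap.mk Pm continuous_Pm).comp γ2) {0, 1} :=
    { toFun := fun p => (H p, (1 - (p.1 : ℝ)) * u (γ p.2) + (p.1 : ℝ) * u (γ2 p.2))
      continuous_toFun := by
        have h1 := continuous_u
        have h2 := γ.continuous
        have h3 := γ2.continuous
        fun_prop
      map_zero_left := by
        intro t
        show (H (0, t), (1 - ((0 : unitInterval) : ℝ)) * u (γ t) +
          ((0 : unitInterval) : ℝ) * u (γ2 t)) = Pm (γ t)
        rw [H.apply_zero]
        simp [Pm]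
      map_one_left := by
        intro t
        show (H (1, t), (1 - ((1 : unitInterval) : ℝ)) * u (γ t) +
          ((1 : unitInterval) : ℝ) * u (γ2 t)) = Pm (γ2 t)
        rw [H.apply_one, Pm, hd]
        simp
      prop' := by
        intro s t ht
        show (H (s, t), (1 - (s : ℝ)) * u (γ t) + (s : ℝ) * u (γ2 t)) = Pm (γ t)
        rcases ht with rfl | rfl
        · rw [H.source, g0]
          simp [Pm]
          ring
        · rw [H.target, hu]
          simp only [Path.target, Set.Icc.coe_one, one_mul, Pm]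
          rw [hc]
          congr 1
          ring }
  have key := isCoveringMap_Pm.liftPath_apply_one_eq_of_homotopicRel (⟨F⟩) x
    (by simp) (by simp [g0])
  have e1 := (isCoveringMap_Pm.eq_liftPath_iff' (γ := (ContinuousMap.mk Pm continuous_Pm).comp
    γ.toContinuousMap) (e := x) (by simp) (Γ := γ.toContinuousMap)).mpr ⟨rfl, by simp⟩
  have e2 := (isCoveringMap_Pm.eq_liftPath_iff' (γ := (ContinuousMap.mk Pm continuous_Pm).comp
    γ2) (e := x) (by simp [g0]) (Γ := γ2)).mpr ⟨rfl, g0⟩
  rw [← e1, ← e2, g1] at key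
  have key' : x' = x'' * a c := by simpa using key
  refine ⟨-c, ?_⟩
  rw [key', mul_assoc, ← a_add, add_neg_cancel, a_zero, mul_one]

lemma neg_mem_Lines {N : M2} (h : N ∈ Lines) : -N ∈ Lines := by
  obtain ⟨b, d, c, hQ, rfl⟩ := h
  refine ⟨-b, -d, -c, by rw [← hQ]; ring, ?_⟩
  ext i j
  fin_cases i <;> fin_cases j <;> simp [nm] <;> ring

lemma fr_self (x : SL) : fr x (cj x Dm) = Dm := by
  rw [fr_eq, cj_inv_cj]

lemma lift5 (h : FrameStmt) (x : SL) : x ∈ E ↔ dq x ∉ Pq := by
  constructor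
  · intro hx hP
    have hP' : cj x Dm ∈ Lines := hP
    refine hx _ hP' ⟨?_, ?_⟩
    · rw [tau, fr_self]; simp [Dm, nm]
    · rw [nu, fr_self]; simp [Dm, nm]
  · intro hP N hN h0
    rcases h.2.2.2 x N hN h0.1 h0.2 with e | e
    · exact hP (show cj x Dm ∈ Lines from e ▸ hN)
    · refine hP (show cj x Dm ∈ Lines from ?_)
      have : cj x Dm = -N := by rw [e, neg_neg]
      rw [this]
      exact neg_mem_Lines hN

end Lift

open Lift

theorem lift (h : FrameStmt) : LiftStmt :=
  ⟨lift1, lift2, lift3, fun _ _ h => dq_eq h, lift5 h⟩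

end AdT
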