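import Pool.Agent.Helper88.AdT.Stmts1

/-!
AD-9a : first part of the statement about the tubes.
-/

open Matrix Real Topology Filter Set

noncomputable section

namespace AdT.TubeA

lemma a00 (z : ℝ) : (a z) 0 0 = exp (z / 2) := rfl
lemma a01 (z : ℝ) : (a z) 0 1 = 0 := rfl
lemma a10 (z : ℝ) : (a z) 1 0 = 0 := rfl
lemma a11 (z : ℝ) : (a z) 1 1 = exp (-(z / 2)) := rfl
lemma y00 (w : ℂ) : (y w) 0 0 = 1 + w.re * w.im := rfl
lemma y01 (w : ℂ) : (y w) 0 1 = w.re := rfl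
lemma y10 (w : ℂ) : (y w) 1 0 = w.im := rfl
lemma y11 (w : ℂ) : (y w) 1 1 = 1 := rfl

lemma mul_ent (A B : SL) (i j : Fin 2) : (A * B) i j = A i 0 * B 0 j + A i 1 * B 1 j := by
  rw [Matrix.SpecialLinearGroup.coe_mul, Matrix.mul_apply, Fin.sum_univ_two]

lemma x00 (z : ℝ) (w : ℂ) : (a z * y w) 0 0 = exp (z / 2) * (1 + w.re * w.im) := by
  rw [mul_ent, a00, a01, y00]; ring
lemma x01 (z : ℝ) (w : ℂ) : (a z * y w) 0 1 = exp (z / 2) * w.re := by
  rw [mul_ent, a00, a01, y01]; ring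
lemma x10 (z : ℝ) (w : ℂ) : (a z * y w) 1 0 = exp (-(z / 2)) * w.im := by
  rw [mul_ent, a10, a11, y10]; ring
lemma x11 (z : ℝ) (w : ℂ) : (a z * y w) 1 1 = exp (-(z / 2)) := by
  rw [mul_ent, a10, a11, y11]; ring

lemma ee (z : ℝ) : exp (z / 2) * exp (-(z / 2)) = 1 := by
  rw [← Real.exp_add]; simp

lemma a_mul (s t : ℝ) : a s * a t = a (s + t) := by
  apply Subtype.ext
  ext i j
  fin_cases i <;> fin_cases j
  · show (a s * a t) 0 0 = (a (s + t)) 0 0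
    rw [mul_ent]; simp only [a00, a01, a10]; rw [mul_zero, add_zero, ← Real.exp_add]; congr 1; ring
  · show (a s * a t) 0 1 = (a (s + t)) 0 1
    rw [mul_ent]; simp only [a00, a01]; ring
  · show (a s * a t) 1 0 = (a (s + t)) 1 0
    rw [mul_ent]; simp only [a10, a11]; ring
  · show (a s * a t) 1 1 = (a (s + t)) 1 1
    rw [mul_ent]; simp only [a10, a11]; rw [zero_mul, zero_add, ← Real.exp_add]; congr 1; ring

lemma a_zero : a 0 = 1 := by
  have := a_mul 0 0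
  rw [add_zero] at this
  exact mul_eq_right.mp this

lemma a_inv (t : ℝ) : (a t)⁻¹ = a (-t) := by
  rw [inv_eq_iff_mul_eq_one, a_mul, add_neg_cancel, a_zero]

lemma a_npow (t : ℝ) (n : ℕ) : (a t) ^ n = a (t * n) := by
  induction n with
  | zero => rw [pow_zero, Nat.cast_zero, mul_zero, a_zero]
  | succ n ih => rw [pow_succ, ih, a_mul]; congr 1; push_cast; ring

lemma a_zpow (t : ℝ) (n : ℤ) : (a t) ^ n = a (t * n) := by
  cases n with
  | ofNat n => rw [Int.ofNat_eq_natCast, zpow_natCast, a_npow]; congr 1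
  | negSucc n => rw [zpow_negSucc, a_npow, a_inv]; congr 1; push_cast; ring

lemma tau_Dm (x : SL) : tau x Dm = x 0 0 * x 1 0 + x 0 1 * x 1 1 := by
  rw [Dm, tau_nm]; ring
lemma nu_Dm (x : SL) : nu x Dm = x 0 0 * x 1 0 - x 0 1 * x 1 1 := by
  rw [Dm, nu_nm]; ring
lemma sg_Dm (x : SL) : sg x Dm = x 0 0 * x 1 1 + x 0 1 * x 1 0 := by
  rw [Dm, sg_nm]; ring

lemma tau_ay (z : ℝ) (w : ℂ) : tau (a z * y w) Dm = w.im * (1 + w.re * w.im) + w.re := by
  rw [tau_Dm, x00, x01, x10, x11]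
  linear_combination (w.im * (1 + w.re * w.im) + w.re) * ee z

lemma nu_ay (z : ℝ) (w : ℂ) : nu (a z * y w) Dm = w.im * (1 + w.re * w.im) - w.re := by
  rw [nu_Dm, x00, x01, x10, x11]
  linear_combination (w.im * (1 + w.re * w.im) - w.re) * ee z

lemma sg_ay (z : ℝ) (w : ℂ) : sg (a z * y w) Dm = 1 + 2 * (w.re * w.im) := by
  rw [sg_Dm, x00, x01, x10, x11]
  linear_combination (1 + 2 * (w.re * w.im)) * ee z

lemma tau_tb (g : SL) (z : ℝ) (w : ℂ) :
    tau (tb g z w) (cj g Dm) = w.im * (1 + w.re * w.im) + w.re := by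
  rw [tb, mul_assoc, tau_mul, tau_ay]

lemma nu_tb (g : SL) (z : ℝ) (w : ℂ) :
    nu (tb g z w) (cj g Dm) = w.im * (1 + w.re * w.im) - w.re := by
  rw [tb, mul_assoc, nu_mul, nu_ay]

lemma sg_tb (g : SL) (z : ℝ) (w : ℂ) :
    sg (tb g z w) (cj g Dm) = 1 + 2 * (w.re * w.im) := by
  rw [tb, mul_assoc, sg_mul, sg_ay]

lemma Dm_Can : Dm ∈ Can true := ⟨1, 0, 0, by norm_num, by simp, by simp [Dm]⟩

lemma Dm_Lines : Dm ∈ Lines := ⟨1, 0, 0, by norm_num, by simp [Dm]⟩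

lemma neg_Lines {N : M2} (hN : N ∈ Lines) : -N ∈ Lines := by
  obtain ⟨b, d, c, h, rfl⟩ := hN
  refine ⟨-b, -d, -c, by rw [neg_sq, neg_sq, neg_sq]; exact h, ?_⟩
  ext i j
  fin_cases i <;> fin_cases j <;> simp [nm] <;> ring

lemma fr_neg (x : SL) (N : M2) : fr x (-N) = -fr x N := by
  rw [fr_eq, fr_eq, cj_neg]

lemma tau_neg (x : SL) (N : M2) : tau x (-N) = -tau x N := by
  rw [tau, tau, fr_neg]; simp only [Matrix.neg_apply]; ring

lemma nu_neg (x : SL) (N : M2) : nu x (-N) = -nu x N := by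
  rw [nu, nu, fr_neg]; simp only [Matrix.neg_apply]; ring

lemma ip_neg (N N' : M2) : ip (-N) N' = -ip N N' := by
  rw [ip, ip]; simp only [Matrix.neg_mul, Matrix.trace_neg]; ring

lemma re_lt {w : ℂ} (hw : ‖w‖ < ε0) : |w.re| < 1 / 4 := lt_of_le_of_lt (Complex.abs_re_le_norm w) hw
lemma im_lt {w : ℂ} (hw : ‖w‖ < ε0) : |w.im| < 1 / 4 := lt_of_le_of_lt (Complex.abs_im_le_norm w) hw

/-- `q r` is small -/
lemma qr_lt {w w' : ℂ} (hw : ‖w‖ < ε0) (hw' : ‖w'‖ < ε0) : |w.re * w'.im| < 1 / 16 := by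
  rw [abs_mul]
  have h1 := re_lt hw
  have h2 := im_lt hw'
  have h3 := abs_nonneg w.re
  have h4 := abs_nonneg w'.im
  nlinarith

lemma int_one {k : ℤ} (h1 : (0 : ℝ) < k) (h2 : (k : ℝ) < 2) : k = 1 := by
  have h3 : 0 < k := by exact_mod_cast h1
  have h4 : k < 2 := by exact_mod_cast h2
  omega

/-- two nearly equal frames: the inner product is near 1 -/
lemma ip_close {w w' : ℂ} (hw : ‖w‖ < ε0) (hw' : ‖w'‖ < ε0) (v : ℝ)
    (hv : v = -((w.im * (1 + w.re * w.im) + w.re) * (w'.im * (1 + w'.re * w'.im) + w'.re)) +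
      (w.im * (1 + w.re * w.im) - w.re) * (w'.im * (1 + w'.re * w'.im) - w'.re) +
      (1 + 2 * (w.re * w.im)) * (1 + 2 * (w'.re * w'.im))) : 0 < v ∧ v < 2 := by
  have a1 := abs_lt.mp (qr_lt hw hw)
  have a2 := abs_lt.mp (qr_lt hw' hw')
  have a3 := abs_lt.mp (qr_lt hw hw')
  have a4 := abs_lt.mp (qr_lt hw' hw)
  have e : v = (1 + 2 * (w.re * w.im)) * (1 + 2 * (w'.re * w'.im))
      - 2 * ((w'.re * w.im) * (1 + w.re * w.im)) - 2 * ((w.re * w'.im) * (1 + w'.re * w'.im)) := by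
    rw [hv]; ring
  set A := w.re * w.im
  set B := w'.re * w'.im
  set C := w.re * w'.im
  set D := w'.re * w.im
  have b1 : (1 + 2 * A) * (1 + 2 * B) > 49 / 64 := by nlinarith
  have b2 : (1 + 2 * A) * (1 + 2 * B) < 81 / 64 := by nlinarith
  have b3 : D * (1 + A) < 17 / 256 := by nlinarith
  have b4 : D * (1 + A) > -(17 / 256) := by nlinarith
  have b5 : C * (1 + B) < 17 / 256 := by nlinarith
  have b6 : C * (1 + B) > -(17 / 256) := by nlinarith
  constructor <;> linarith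

lemma tangent_ip (h1 : Arith1Stmt) (h2 : FrameStmt) {g : SL} (hg : g ∈ Nz) {z : ℝ} {w : ℂ}
    (hw : ‖w‖ < ε0) {N : M2} (hN : N ∈ Lines) (ht : tau (tb g z w) N = 0)
    (hn : nu (tb g z w) N = 0) : ip N (cj g Dm) = 1 ∨ ip N (cj g Dm) = -1 := by
  have hL := (hg Dm Dm_Lines).1
  obtain ⟨k, hk⟩ := h1.1 N hN _ hL
  have e1 := h2.1 (tb g z w) N hN
  have e2 := h2.2.1 (tb g z w) N hN _ hL
  rw [ht, hn] at e1 e2
  rw [sg_tb] at e2
  have a1 := abs_lt.mp (qr_lt hw hw)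
  have hs : (sg (tb g z w) N - 1) * (sg (tb g z w) N + 1) = 0 := by linarith
  rcases mul_eq_zero.mp hs with h | h
  · have hs1 : sg (tb g z w) N = 1 := by linarith
    rw [hs1, hk] at e2
    left
    rw [hk, int_one (k := k) (by linarith) (by linarith)]
    norm_num
  · have hs1 : sg (tb g z w) N = -1 := by linarith
    rw [hs1, hk] at e2
    right
    have : -k = 1 := int_one (k := -k) (by push_cast; linarith) (by push_cast; linarith)
    rw [hk]
    have h3 : k = -1 := by omega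
    rw [h3]; norm_num

lemma w_zero {w : ℂ} (h1 : w.im * (1 + w.re * w.im) + w.re = 0)
    (h2 : w.im * (1 + w.re * w.im) - w.re = 0) (hw : ‖w‖ < ε0) : w = 0 := by
  have a1 := abs_lt.mp (qr_lt hw hw)
  have hr : w.re = 0 := by linarith
  have hi : w.im = 0 := by
    rw [hr] at h1
    linarith
  exact Complex.ext hr hi

lemma mem_E (h1 : Arith1Stmt) (h2 : FrameStmt) {g : SL} (hg : g ∈ Nz) (z : ℝ) {w : ℂ}
    (hw0 : w ≠ 0) (hw : ‖w‖ < ε0) : tb g z w ∈ E := by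
  rintro N hN ⟨ht, hn⟩
  have hL := (hg Dm Dm_Lines).1
  rcases tangent_ip h1 h2 hg hw hN ht hn with h | h
  · have e := h1.2.2.2.1 N hN _ hL h
    rw [e, tau_tb] at ht
    rw [e, nu_tb] at hn
    exact hw0 (w_zero ht hn hw)
  · have h' : ip (-N) (cj g Dm) = 1 := by rw [ip_neg, h]; norm_num
    have e := h1.2.2.2.1 _ (neg_Lines hN) _ hL h'
    have ht' : tau (tb g z w) (cj g Dm) = 0 := by rw [← e, tau_neg, ht, neg_zero]
    have hn' : nu (tb g z w) (cj g Dm) = 0 := by rw [← e, nu_neg, hn, neg_zero]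
    rw [tau_tb] at ht'
    rw [nu_tb] at hn'
    exact hw0 (w_zero ht' hn' hw)

lemma one_Nz : (1 : SL) ∈ Nz := by
  intro N hN
  rw [inv_one, cj_one]
  exact ⟨hN, hN⟩

lemma clause1 (h1 : Arith1Stmt) (h2 : FrameStmt) (z : ℝ) (w : ℂ) (hw : ‖w‖ < ε0) (N : M2)
    (hN : N ∈ Can false) : ¬ (tau (a z * y w) N = 0 ∧ nu (a z * y w) N = 0) := by
  rintro ⟨ht, hn⟩
  have hNL := (h1.2.2.2.2.2.1 false N hN).1
  have e : a z * y w = tb 1 z w := by rw [tb, one_mul]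
  rw [e] at ht hn
  have h := tangent_ip h1 h2 one_Nz hw hNL ht hn
  rw [cj_one] at h
  obtain ⟨k, hk, hk3⟩ := h1.2.2.1 Dm Dm_Can N hN
  have hc : ip Dm N = ip N Dm := by rw [ip, ip, Matrix.trace_mul_comm]
  rw [← hc, hk] at h
  rcases h with h | h
  · have : k = 1 := by exact_mod_cast h
    omega
  · have : k = -1 := by exact_mod_cast h
    omega

lemma conj_pow_mem (h3 : StabStmt) {g : SL} (hg : g ∈ Nz) (k : ℤ) :
    g * a (2 * s0 * k) * g⁻¹ ∈ Gam := by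
  have h := h3.1 g hg
  have h' := Gam.zpow_mem h k
  rwa [conj_zpow, a_zpow] at h'

lemma prT_mul {γ : SL} (hγ : γ ∈ Gam) (x : SL) : prT (γ * x) = prT x := by
  by_cases hx : x ∈ E
  · have hx' : γ * x ∈ E := E_mul hγ hx
    rw [prT, prT, dif_pos hx, dif_pos hx']
    exact Quotient.sound ⟨⟨γ, hγ⟩, rfl⟩
  · have hx' : γ * x ∉ E := by
      intro h
      apply hx
      have := E_mul (Gam.inv_mem hγ) h
      rwa [inv_mul_cancel_left] at this
    rw [prT, prT, dif_neg hx, dif_neg hx']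

lemma prT_eq {x x' : SL} (hx : x ∈ E) (hx' : x' ∈ E) (h : prT x = prT x') :
    ∃ γ ∈ Gam, x = γ * x' := by
  rw [prT, prT, dif_pos hx, dif_pos hx'] at h
  obtain ⟨γ, hγ⟩ := Quotient.exact h
  exact ⟨γ.1, γ.2, (congrArg Subtype.val hγ).symm⟩

lemma r0_pos : 0 < r0 := by
  rw [r0, Real.arsinh_pos_iff]
  positivity

lemma s0_pos : 0 < s0 := by
  have := r0_pos
  rw [s0]
  linarith

lemma clause3 (h3 : StabStmt) {g : SL} (hg : g ∈ Nz) (z : ℝ) (w : ℂ) :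
    psi g (w, ((z / s0 : ℝ) : AddCircle (2 : ℝ))) = prT (tb g z w) := by
  rw [psi]
  dsimp only
  set u : ℝ := Quotient.out ((z / s0 : ℝ) : AddCircle (2 : ℝ)) with hu
  have hu' : ((u : ℝ) : AddCircle (2 : ℝ)) = ((z / s0 : ℝ) : AddCircle (2 : ℝ)) := Quotient.out_eq _
  have h4 : ∃ k : ℤ, u = z / s0 + 2 * k := by
    have h5 := (QuotientAddGroup.eq_iff_sub_mem).mp hu'
    obtain ⟨k, hk⟩ := AddSubgroup.mem_zmultiples_iff.mp h5
    refine ⟨k, ?_⟩
    rw [zsmul_eq_mul] at hk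
    linarith
  obtain ⟨k, hk⟩ := h4
  have hs := s0_pos
  have e : s0 * u = 2 * s0 * k + z := by
    rw [hk]
    field_simp
    ring
  have e2 : tb g (s0 * u) w = (g * a (2 * s0 * k) * g⁻¹) * tb g z w := by
    rw [e, tb, tb, ← a_mul (2 * s0 * k) z]
    group
  rw [e2, prT_mul (conj_pow_mem h3 hg k)]

/-- two tubes meet only if the lines agree -/
lemma core (h1 : Arith1Stmt) (h2 : FrameStmt) {g h : SL} (hg : g ∈ Nz) (hh : h ∈ Nz)
    {z z' : ℝ} {w w' : ℂ} (hw : ‖w‖ < ε0) (hw' : ‖w'‖ < ε0) {γ : SL} (hγ : γ ∈ Gam)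
    (e : tb g z w = γ * tb h z' w') : cj g Dm = cj γ (cj h Dm) := by
  have hL := (hg Dm Dm_Lines).1
  have hL' := Lines_cj hγ (hh Dm Dm_Lines).1
  obtain ⟨k, hk⟩ := h1.1 _ hL _ hL'
  have e2 := h2.2.1 (tb g z w) _ hL _ hL'
  have t1 : tau (tb g z w) (cj γ (cj h Dm)) = w'.im * (1 + w'.re * w'.im) + w'.re := by
    rw [e, tau_mul, tau_tb]
  have t2 : nu (tb g z w) (cj γ (cj h Dm)) = w'.im * (1 + w'.re * w'.im) - w'.re := by
    rw [e, nu_mul, nu_tb]
  have t3 : sg (tb g z w) (cj γ (cj h Dm)) = 1 + 2 * (w'.re * w'.im) := by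
    rw [e, sg_mul, sg_tb]
  rw [t1, t2, t3, tau_tb, nu_tb, sg_tb] at e2
  have h4 := ip_close hw hw' _ e2
  rw [hk] at h4
  have h5 := int_one h4.1 h4.2
  refine h1.2.2.2.1 _ hL _ hL' ?_
  rw [hk, h5, Int.cast_one]

lemma ay_inj {z z' : ℝ} {w w' : ℂ} (e : a z * y w = a z' * y w') : w = w' ∧ z = z' := by
  have e00 : (a z * y w) 0 1 = (a z' * y w') 0 1 := by rw [e]
  have e10 : (a z * y w) 1 0 = (a z' * y w') 1 0 := by rw [e]
  have e11 : (a z * y w) 1 1 = (a z' * y w') 1 1 := by rw [e]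
  rw [x01, x01] at e00
  rw [x10, x10] at e10
  rw [x11, x11] at e11
  have hz : z = z' := by
    have := Real.exp_injective e11
    linarith
  subst hz
  refine ⟨Complex.ext ?_ ?_, rfl⟩
  · exact mul_left_cancel₀ (Real.exp_pos _).ne' e00
  · exact mul_left_cancel₀ (Real.exp_pos _).ne' e10

lemma clause5 (h1 : Arith1Stmt) (h2 : FrameStmt) (h3 : StabStmt) {g : SL} (hg : g ∈ Nz)
    {z z' : ℝ} {w w' : ℂ} (hw : ‖w‖ < ε0) (hw' : ‖w'‖ < ε0) {γ : SL} (hγ : γ ∈ Gam)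
    (e : tb g z w = γ * tb g z' w') :
    ∃ k : ℤ, γ = g * a (2 * s0 * k) * g⁻¹ ∧ w = w' ∧ z = z' + 2 * s0 * k := by
  have hc := core h1 h2 hg hg hw hw' hγ e
  obtain ⟨k, hk⟩ := h3.2.1 g hg γ hγ hc.symm
  refine ⟨k, ?_⟩
  rcases hk with hk | hk
  · have hk' : γ = g * a (2 * s0 * k) * g⁻¹ := Subtype.ext hk
    refine ⟨hk', ?_⟩
    have e2 : g * (a z * y w) = g * (a (2 * s0 * k + z') * y w') := by
      rw [← a_mul]
      calc g * (a z * y w) = tb g z w := by rw [tb, mul_assoc]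
        _ = _ := by rw [e, hk', tb]; group
    obtain ⟨h5, h6⟩ := ay_inj (mul_left_cancel e2)
    exact ⟨h5, by rw [h6]; ring⟩
  · exfalso
    have e3 : ((a z * y w : SL) : M2) = -((a (2 * s0 * k + z') * y w' : SL) : M2) := by
      have e4 : a z * y w = g⁻¹ * (γ * tb g z' w') := by
        rw [← e, tb]; group
      have e6 : g⁻¹ * (g * a (2 * s0 * k) * g⁻¹ * tb g z' w') =
          a (2 * s0 * k + z') * y w' := by
        rw [tb, ← a_mul]; group
      rw [e4, ← e6, Matrix.SpecialLinearGroup.coe_mul, Matrix.SpecialLinearGroup.coe_mul, hk,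
        Matrix.neg_mul, Matrix.mul_neg, ← Matrix.SpecialLinearGroup.coe_mul,
        ← Matrix.SpecialLinearGroup.coe_mul]
    have e5 : (a z * y w) 1 1 = -(a (2 * s0 * k + z') * y w') 1 1 := by
      have := congrFun (congrFun e3 1) 1
      rwa [Matrix.neg_apply] at this
    rw [x11, x11] at e5
    have p1 := Real.exp_pos (-(z / 2))
    have p2 := Real.exp_pos (-((2 * s0 * k + z') / 2))
    linarith

end AdT.TubeA

namespace AdT

theorem tubeA (h1 : Arith1Stmt) (h2 : FrameStmt) (h3 : StabStmt) : TubeAStmt := by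
  refine ⟨TubeA.clause1 h1 h2, fun g hg z w hw0 hw => TubeA.mem_E h1 h2 hg z hw0 hw,
    fun g hg z w _ => TubeA.clause3 h3 hg z w, ?_, fun g hg z z' w w' hw hw' γ hγ e =>
    TubeA.clause5 h1 h2 h3 hg hw hw' hγ e⟩
  intro g hg h hh hno p q hp0 hp hq0 hq e
  rw [psi, psi] at e
  obtain ⟨γ, hγ, e'⟩ := TubeA.prT_eq (TubeA.mem_E h1 h2 hg _ hp0 hp)
    (TubeA.mem_E h1 h2 hh _ hq0 hq) e
  have hc := TubeA.core h1 h2 hg hh hp hq hγ e'
  refine hno ⟨γ⁻¹, Gam.inv_mem hγ, ?_⟩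
  rw [hc, cj_inv_cj]

end AdT
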