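import Pool.Agent.Helper88.AdT.Pi1
import Pool.Agent.Helper88.AdT.Lift
import Pool.Agent.Helper88.AdT.TubeA

/-!
General lemmas for the atoroidality of `M`: homotopy classes with propositionally equal end points,
squares, lifting through the quotient covering, faithfulness of the projection to the annulus.
-/

open Matrix Real Topology Filter Set

noncomputable section

namespace AdT.AtoroM

/-- homotopy classes of paths -/
abbrev PQ {X : Type} [TopologicalSpace X] (x y : X) : Type := Path.Homotopic.Quotient x y

/-- class of a path -/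
abbrev mk {X : Type} [TopologicalSpace X] {x y : X} (γ : Path x y) : PQ x y :=
  Path.Homotopic.Quotient.mk γ

section Gen

variable {X Y Z : Type} [TopologicalSpace X] [TopologicalSpace Y] [TopologicalSpace Z]

theorem mk_heq {x y x' y' : X} (γ : Path x y) (γ' : Path x' y') (h : ∀ t, γ t = γ' t) :
    HEq (mk γ) (mk γ') := Path.Homotopic.hpath_hext h

theorem trans_heq {x y z x' y' z' : X} (hx : x = x') (hy : y = y') (hz : z = z')
    {p : PQ x y} {p' : PQ x' y'} {q : PQ y z} {q' : PQ y' z'} (hp : HEq p p') (hq : HEq q q') :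
    HEq (p.trans q) (p'.trans q') := by
  subst hx hy hz
  rw [eq_of_heq hp, eq_of_heq hq]

theorem symm_heq {x y x' y' : X} (hx : x = x') (hy : y = y')
    {p : PQ x y} {p' : PQ x' y'} (hp : HEq p p') : HEq p.symm p'.symm := by
  subst hx hy
  rw [eq_of_heq hp]

theorem refl_heq {x x' : X} (hx : x = x') :
    HEq (Path.Homotopic.Quotient.refl x) (Path.Homotopic.Quotient.refl x') := by
  subst hx
  rfl

theorem map_heq {x y x' y' : X} (hx : x = x') (hy : y = y') (f : C(X, Y))
    {p : PQ x y} {p' : PQ x' y'} (hp : HEq p p') : HEq (p.map f) (p'.map f) := by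
  subst hx hy
  rw [eq_of_heq hp]

theorem map_eq_heq {x y : X} {f g : C(X, Y)} (h : ∀ z, f z = g z) (p : PQ x y) :
    HEq (p.map f) (p.map g) := by
  have : f = g := ContinuousMap.ext h
  subst this
  rfl

theorem map_map_heq {x y : X} (f : C(X, Y)) (g : C(Y, Z)) (k : C(X, Z)) (h : ∀ z, g (f z) = k z)
    (p : PQ x y) : HEq ((p.map f).map g) (p.map k) := by
  rw [← Path.Homotopic.Quotient.map_comp]
  exact map_eq_heq h p

theorem map_trans {x y z : X} (f : C(X, Y)) (p : PQ x y) (q : PQ y z) :
    (p.trans q).map f = (p.map f).trans (q.map f) := by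
  induction p using Path.Homotopic.Quotient.ind with | _ p
  induction q using Path.Homotopic.Quotient.ind with | _ q
  rw [← Path.Homotopic.Quotient.mk_trans, ← Path.Homotopic.Quotient.mk_map, Path.map_trans]
  rfl

theorem map_symm {x y : X} (f : C(X, Y)) (p : PQ x y) : p.symm.map f = (p.map f).symm := by
  induction p using Path.Homotopic.Quotient.ind with | _ p
  rfl

theorem map_refl (f : C(X, Y)) (x : X) :
    (Path.Homotopic.Quotient.refl x).map f = Path.Homotopic.Quotient.refl (f x) := rfl

theorem cancel_right {x y z : X} {p p' : PQ x y} (q : PQ y z) (h : p.trans q = p'.trans q) :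
    p = p' := by
  have := congrArg (fun r => r.trans q.symm) h
  simpa [Path.Homotopic.Quotient.trans_assoc] using this

theorem cancel_left {x y z : X} {q q' : PQ y z} (p : PQ x y) (h : p.trans q = p.trans q') :
    q = q' := by
  have := congrArg (fun r => p.symm.trans r) h
  simpa [← Path.Homotopic.Quotient.trans_assoc] using this

/-- the four sides of a square -/
theorem square (F : C(unitInterval × unitInterval, X)) {x00 x10 x01 x11 : X}
    (u : Path x00 x10) (v : Path x10 x11) (u' : Path x01 x11) (v' : Path x00 x01)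
    (hu : ∀ t, u t = F (t, 0)) (hv : ∀ t, v t = F (1, t)) (hu' : ∀ t, u' t = F (t, 1))
    (hv' : ∀ t, v' t = F (0, t)) : (mk u).trans (mk v) = (mk v').trans (mk u') := by
  let u₀ : Path ((0, 0) : unitInterval × unitInterval) (1, 0) :=
    { toFun := fun t => (t, 0), source' := rfl, target' := rfl }
  let v₀ : Path ((1, 0) : unitInterval × unitInterval) (1, 1) :=
    { toFun := fun t => (1, t), source' := rfl, target' := rfl }
  let u₁ : Path ((0, 1) : unitInterval × unitInterval) (1, 1) :=
    { toFun := fun t => (t, 1), source' := rfl, target' := rfl }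
  let v₁ : Path ((0, 0) : unitInterval × unitInterval) (0, 1) :=
    { toFun := fun t => (0, t), source' := rfl, target' := rfl }
  have hI : ContractibleSpace unitInterval :=
    (convex_Icc (0 : ℝ) 1).contractibleSpace ⟨0, by simp⟩
  have key : (u₀.trans v₀).Homotopic (v₁.trans u₁) := SimplyConnectedSpace.paths_homotopic _ _
  have h1 : (mk (u₀.trans v₀)).map F = (mk (v₁.trans u₁)).map F :=
    congrArg (fun p => Path.Homotopic.Quotient.map p F) (Path.Homotopic.Quotient.eq.2 key)
  have e00 : F (0, 0) = x00 := by rw [← hu]; simp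
  have e10 : F (1, 0) = x10 := by rw [← hu]; simp
  have e01 : F (0, 1) = x01 := by rw [← hu']; simp
  have e11 : F (1, 1) = x11 := by rw [← hu']; simp
  apply eq_of_heq
  change ((mk u₀).trans (mk v₀)).map F = ((mk v₁).trans (mk u₁)).map F at h1
  rw [map_trans, map_trans] at h1
  have a1 : HEq ((mk u).trans (mk v)) (((mk u₀).map F).trans ((mk v₀).map F)) :=
    trans_heq e00.symm e10.symm e11.symm
      (mk_heq u (u₀.map F.continuous) fun t => by rw [hu]; rfl)
      (mk_heq v (v₀.map F.continuous) fun t => by rw [hv]; rfl)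
  have a2 : HEq ((mk v').trans (mk u')) (((mk v₁).map F).trans ((mk u₁).map F)) :=
    trans_heq e00.symm e01.symm e11.symm
      (mk_heq v' (v₁.map F.continuous) fun t => by rw [hv']; rfl)
      (mk_heq u' (u₁.map F.continuous) fun t => by rw [hu']; rfl)
  exact a1.trans ((heq_of_eq h1).trans a2.symm)

/-- congruence of `HomIn` -/
theorem homIn_congr {S : Set X} {x y x' y' : X} {γ γ' : Path x y} {δ δ' : Path x' y'}
    (h : ∀ t, γ t = δ t) (h' : ∀ t, γ' t = δ' t) (H : HomIn S γ γ') : HomIn S δ δ' := by
  have hx : x = x' := by simpa using h 0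
  have hy : y = y' := by simpa using h 1
  subst hx hy
  have e1 : γ = δ := Path.ext (funext h)
  have e2 : γ' = δ' := Path.ext (funext h')
  rw [← e1, ← e2]
  exact H

/-- congruence of `FreeIn` -/
theorem freeIn_congr {S : Set X} {x y x' y' : X} {γ : Path x x} {γ' : Path y y} {δ : Path x' x'}
    {δ' : Path y' y'} (h : ∀ t, γ t = δ t) (h' : ∀ t, γ' t = δ' t) (H : FreeIn S γ γ') :
    FreeIn S δ δ' := by
  have hx : x = x' := by simpa using h 0
  have hy : y = y' := by simpa using h' 0
  subst hx hy
  have e1 : γ = δ := Path.ext (funext h)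
  have e2 : γ' = δ' := Path.ext (funext h')
  rw [← e1, ← e2]
  exact H

/-- homotopy in the subtype -/
theorem homIn_val {S : Set X} {x y : S} {γ γ' : Path x y} (h : mk γ = mk γ') :
    HomIn S (γ.map continuous_subtype_val) (γ'.map continuous_subtype_val) := by
  have h1 : γ.Homotopic γ' := Path.Homotopic.Quotient.exact h
  obtain ⟨H⟩ := h1
  refine ⟨H.map ⟨Subtype.val, continuous_subtype_val⟩, fun p => ?_⟩
  exact (H p).2

theorem of_homIn_val {S : Set X} {x y : S} {γ γ' : Path x y}
    (h : HomIn S (γ.map continuous_subtype_val) (γ'.map continuous_subtype_val)) :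
    mk γ = mk γ' := by
  have h1 := (homIn_iff_cl (S := S) (γ := γ.map continuous_subtype_val)
    (γ' := γ'.map continuous_subtype_val) (fun t => (γ t).2) (fun t => (γ' t).2)).1 h
  exact h1

end Gen

end AdT.AtoroM
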