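import Pool.Agent.Helper88.AdT.AtoroM0

/-!
Lifting loops of `M` to `E` and projecting paths of `E` to the annulus.
-/

open Matrix Real Topology Filter Set

noncomputable section

namespace AdT.AtoroM

section Cov

variable (hq : IsQuotientCoveringMap pr Gam)

/-- the projection as a continuous map -/
def prC : C(E, M) := ⟨pr, hq.isCoveringMap.continuous⟩

/-- the action of a group element on `E` -/
def sm (g : Gam) : C(E, E) := ⟨fun x => g • x, hq.toContinuousConstSMul.continuous_const_smul g⟩

theorem prC_sm (g : Gam) (x : E) : prC hq (sm hq g x) = prC hq x := hq.map_smul g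

/-- the group element of a loop -/
def ph (x : E) (α : FundamentalGroup M (pr x)) : Gam :=
  (hq.fundamentalGroupToMulOpposite ⟨x, rfl⟩ α).unop

theorem ph_mul (x : E) (α β : FundamentalGroup M (pr x)) :
    ph hq x (α * β) = ph hq x β * ph hq x α := by
  unfold ph
  rw [_root_.map_mul, MulOpposite.unop_mul]

theorem ph_zpow (x : E) (α : FundamentalGroup M (pr x)) (m : ℤ) :
    ph hq x (α ^ m) = ph hq x α ^ m := by
  unfold ph
  rw [_root_.map_zpow, MulOpposite.unop_zpow]

/-- projection of a class to `M` -/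
def prm {x y : E} (p : PQ x y) : PQ (pr x) (pr y) := p.map (prC hq)

/-- translation of a class -/
def smm (g : Gam) {x y : E} (p : PQ x y) : PQ (g • x) (g • y) := p.map (sm hq g)

theorem prm_trans {x y z : E} (p : PQ x y) (q : PQ y z) :
    prm hq (p.trans q) = (prm hq p).trans (prm hq q) := map_trans (prC hq) p q

theorem prm_symm {x y : E} (p : PQ x y) :
    prm hq p.symm = (prm hq p).symm := map_symm (prC hq) p

theorem prm_mk {x y : E} (γ : Path x y) :
    prm hq (mk γ) = mk (γ.map hq.isCoveringMap.continuous) := rfl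

theorem prm_smm (g : Gam) {x y : E} (p : PQ x y) : HEq (prm hq (smm hq g p)) (prm hq p) :=
  map_map_heq (sm hq g) (prC hq) (prC hq) (prC_sm hq g) p

theorem prm_heq {x y x' y' : E} (hx : x = x') (hy : y = y')
    {p : PQ x y} {p' : PQ x' y'} (hp : HEq p p') : HEq (prm hq p) (prm hq p') :=
  map_heq hx hy (prC hq) hp

/-- lifting a loop of `M` -/
theorem lift_gen (x : E) (α : FundamentalGroup M (pr x)) :
    ∃ U : PQ x (ph hq x α • x), HEq (prm hq U) (α : PQ (pr x) (pr x)) := by
  have h : ph hq x α • x = (hq.isCoveringMap.monodromy α ⟨x, rfl⟩ : E) :=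
    hq.unop_fundamentalGroupToMulOpposite_smul
  refine ⟨(hq.isCoveringMap.liftPathQuotient α ⟨x, rfl⟩).cast rfl h, ?_⟩
  have h1 := hq.isCoveringMap.map_liftPathQuotient α ⟨x, rfl⟩
  refine (prm_heq hq rfl h (Path.Homotopic.Quotient.cast_heq rfl h)).trans ?_
  refine (heq_of_eq h1).trans ?_
  exact Path.Homotopic.Quotient.cast_heq _ _

/-- loops with trivial group element lift to loops -/
theorem lift_one (x : E) (κ : FundamentalGroup M (pr x)) (h : ph hq x κ = 1) :
    ∃ K : PQ x x, prm hq K = (κ : PQ (pr x) (pr x)) := by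
  obtain ⟨U, hU⟩ := lift_gen hq x κ
  have h1 : ph hq x κ • x = x := by rw [h, one_smul]
  refine ⟨U.cast rfl h1.symm, eq_of_heq ?_⟩
  exact (prm_heq hq rfl h1.symm (Path.Homotopic.Quotient.cast_heq rfl h1.symm)).trans hU

theorem pr_inj {x y : E} {p q : PQ x y} (h : prm hq p = prm hq q) : p = q :=
  hq.isCoveringMap.injective_path_homotopic_map x y h

/-- commutation upstairs -/
theorem comm_lift (x : E) (K : PQ x x) (g : Gam) (U : PQ x (g • x)) (α : PQ (pr x) (pr x))
    (hU : HEq (prm hq U) α)
    (hc : (prm hq K).trans α = α.trans (prm hq K)) :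
    K.trans U = U.trans (smm hq g K) := by
  apply pr_inj hq
  rw [prm_trans, prm_trans]
  have hg : pr (g • x) = pr x := prC_sm hq g x
  apply eq_of_heq
  have h1 : HEq ((prm hq K).trans (prm hq U)) ((prm hq K).trans α) :=
    trans_heq rfl rfl hg HEq.rfl hU
  have h2 : HEq ((prm hq U).trans (prm hq (smm hq g K))) (α.trans (prm hq K)) :=
    trans_heq rfl hg hg hU (prm_smm hq g K)
  exact h1.trans ((heq_of_eq hc).trans h2.symm)

end Cov

section Proj

/-- projection of a path of `E` to the annulus -/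
def dp {x y : E} (γ : Path x y) : Path (dq x.1) (dq y.1) :=
  (γ.map continuous_subtype_val).map continuous_dq

@[simp] theorem dp_apply {x y : E} (γ : Path x y) (t : unitInterval) :
    dp γ t = dq (γ t).1 := rfl

theorem dp_trans {x y z : E} (γ : Path x y) (γ' : Path y z) :
    dp (γ.trans γ') = (dp γ).trans (dp γ') := by
  unfold dp
  rw [Path.map_trans, Path.map_trans]

theorem dp_symm {x y : E} (γ : Path x y) : dp γ.symm = (dp γ).symm := rfl

variable (hL : LiftStmt)

/-- the annulus minus the punctures -/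
abbrev Qp : Type := ((Pqᶜ : Set Qd) : Type)

/-- the projection to the annulus minus the punctures -/
def DC : C(E, Qp) where
  toFun x := ⟨dq x.1, (hL.2.2.2.2 x.1).1 x.2⟩
  continuous_toFun := Continuous.subtype_mk (continuous_dq.comp continuous_subtype_val) _

theorem DC_val (x : E) : (DC hL x).1 = dq x.1 := rfl

include hL in
theorem dp_mem {x y : E} (γ : Path x y) (t : unitInterval) : dp γ t ∈ (Pqᶜ : Set Qd) :=
  (hL.2.2.2.2 (γ t).1).1 (γ t).2

include hL in
theorem homIn_dp {x y : E} {γ γ' : Path x y} (h : mk γ = mk γ') :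
    HomIn (Pqᶜ : Set Qd) (dp γ) (dp γ') := by
  have h1 : mk (γ.map (DC hL).continuous) = mk (γ'.map (DC hL).continuous) :=
    congrArg (fun p => Path.Homotopic.Quotient.map p (DC hL)) h
  exact homIn_congr (fun _ => rfl) (fun _ => rfl) (homIn_val h1)

include hL in
theorem of_homIn_dp {x y : E} {γ γ' : Path x y} (h : HomIn (Pqᶜ : Set Qd) (dp γ) (dp γ')) :
    mk γ = mk γ' := by
  have h1 := hL.2.1 (Pqᶜ) x.1 y.1 (γ.map continuous_subtype_val) (γ'.map continuous_subtype_val) h
  have h2 : (dq ⁻¹' (Pqᶜ : Set Qd)) ⊆ E := fun x hx => (hL.2.2.2.2 x).2 hx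
  exact of_homIn_val (S := E) (h1.mono h2)

/-- the projection to the annulus is faithful -/
theorem faith {x y : E} {p q : PQ x y} (h : p.map (DC hL) = q.map (DC hL)) : p = q := by
  induction p using Path.Homotopic.Quotient.ind with | _ p
  induction q using Path.Homotopic.Quotient.ind with | _ q
  apply of_homIn_dp hL
  have h1 : mk (p.map (DC hL).continuous) = mk (q.map (DC hL).continuous) := h
  exact homIn_congr (fun _ => rfl) (fun _ => rfl) (homIn_val h1)

end Proj

section Alg

theorem alg {X : Type} [TopologicalSpace X] {z u u' : X} (h : u = u') (μ : PQ z z) (δ : PQ z u)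
    (ε : PQ z u') (ν : PQ u u) (ν' : PQ u' u') (hν : HEq ν ν')
    (r1 : μ.trans δ = δ.trans ν) (r2 : μ.trans ε = ε.trans ν') :
    (δ.trans (ε.symm.cast h rfl)).trans μ = μ.trans (δ.trans (ε.symm.cast h rfl)) := by
  subst h
  obtain rfl := eq_of_heq hν
  rw [Path.Homotopic.Quotient.cast_rfl_rfl]
  have h1 : ν = ε.symm.trans (μ.trans ε) := by
    rw [r2, ← Path.Homotopic.Quotient.trans_assoc, Path.Homotopic.Quotient.symm_trans,
      Path.Homotopic.Quotient.refl_trans]
  rw [← Path.Homotopic.Quotient.trans_assoc μ, r1, h1]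
  simp only [Path.Homotopic.Quotient.trans_assoc, Path.Homotopic.Quotient.trans_symm,
    Path.Homotopic.Quotient.trans_refl]

theorem alg2 {X : Type} [TopologicalSpace X] {z u u' : X} (h : u = u') (μ : PQ z z) (δ : PQ z u)
    (ε : PQ z u') (r : δ.trans (ε.symm.cast h rfl) = μ) : δ = (μ.trans ε).cast rfl h := by
  subst h
  rw [← r, Path.Homotopic.Quotient.cast_rfl_rfl, Path.Homotopic.Quotient.cast_rfl_rfl]
  simp only [Path.Homotopic.Quotient.trans_assoc, Path.Homotopic.Quotient.symm_trans,
    Path.Homotopic.Quotient.trans_refl]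

end Alg

/-! ### signs -/

theorem Z2_le {σ : SL} (h : σ ∈ Lift.Z2) : σ ∈ Gam := by
  rcases h with rfl | h
  · exact Gam.one_mem
  · rw [Set.mem_singleton_iff] at h
    subst h
    refine ⟨-1, 0, 0, 0, ?_⟩
    ext i j
    fin_cases i <;> fin_cases j <;> simp [gm, Lift.mone]

theorem Z2_comm {σ : SL} (h : σ ∈ Lift.Z2) (x : SL) : σ * x = x * σ := by
  rcases h with rfl | h
  · simp
  · rw [Set.mem_singleton_iff] at h
    subst h
    apply Subtype.ext
    show (-1 : M2) * (x : M2) = (x : M2) * (-1 : M2)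
    simp

theorem Z2_cq {σ : SL} (h : σ ∈ Lift.Z2) (N : Qd) : cq σ N = N := by
  rcases h with rfl | h
  · exact cq_one N
  · rw [Set.mem_singleton_iff] at h
    subst h
    exact Subtype.ext (Lift.cj_mone N.1)

theorem Z2_dq {σ : SL} (h : σ ∈ Lift.Z2) (x : SL) : dq (σ * x) = dq x := by
  rw [dq_mul, Z2_cq h]

theorem sgn_eq {x y : SL} (h : (x : M2) = (y : M2) ∨ (x : M2) = -(y : M2)) :
    ∃ σ ∈ Lift.Z2, x = σ * y := by
  rcases h with h | h
  · exact ⟨1, Lift.Z2.one_mem, by rw [one_mul]; exact Subtype.ext h⟩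
  · refine ⟨Lift.mone, Or.inr rfl, ?_⟩
    apply Subtype.ext
    rw [Lift.mone_mul]
    exact h

end AdT.AtoroM
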