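import Pool.Agent.Helper88.AdT.AtoroM1

/-!
Loops in the tubes.
-/

open Matrix Real Topology Filter Set

noncomputable section

namespace AdT.AtoroM

/-- data of a punctured tube with a base point -/
structure TD where
  σ : SL
  g : SL
  hσ : σ ∈ Lift.Z2
  hg : g ∈ Nz
  s : ℝ
  ρ : ℝ
  hρ : 0 < ρ
  hρ' : ρ < ε0

/-- the loop `ρ e^{2 pi i k t}` -/
def cw (ρ : ℝ) (k : ℤ) (t : ℝ) : ℂ := ρ * Complex.exp (2 * π * k * (t : ℝ) * Complex.I)

theorem cw_zero (ρ : ℝ) (k : ℤ) : cw ρ k 0 = ρ := by simp [cw]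

theorem cw_one (ρ : ℝ) (k : ℤ) : cw ρ k 1 = ρ := by
  unfold cw
  have h : Complex.exp (2 * π * k * ((1 : ℝ) : ℂ) * Complex.I) = 1 := by
    rw [Complex.exp_eq_one_iff]
    exact ⟨k, by simp; ring⟩
  rw [h, mul_one]

theorem cw_norm {ρ : ℝ} (h : 0 < ρ) (k : ℤ) (t : ℝ) : ‖cw ρ k t‖ = ρ := by
  unfold cw
  rw [norm_mul, Complex.norm_exp]
  have : (2 * π * k * (t : ℝ) * Complex.I : ℂ).re = 0 := by simp
  rw [this, Real.exp_zero, mul_one, Complex.norm_real, Real.norm_eq_abs, abs_of_pos h]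

theorem cw_ne {ρ : ℝ} (h : 0 < ρ) (k : ℤ) (t : ℝ) : cw ρ k t ≠ 0 := by
  rw [← norm_ne_zero_iff, cw_norm h]
  exact h.ne'

theorem cw_cont (ρ : ℝ) (k : ℤ) : Continuous (cw ρ k) := by
  unfold cw
  fun_prop

variable (hA : TubeAStmt) (D : TD)

/-- point of the tube -/
def tpt (z : ℝ) (w : ℂ) (h0 : w ≠ 0) (h1 : ‖w‖ < ε0) : E :=
  ⟨D.σ * tb D.g z w, E_mul (Z2_le D.hσ) (hA.2.1 D.g D.hg z w h0 h1)⟩

/-- the base point -/
def bz : E := tpt hA D D.s (cw D.ρ 0 0) (cw_ne D.hρ 0 0) (by rw [cw_norm D.hρ]; exact D.hρ')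

theorem bz_val : (bz hA D).1 = D.σ * tb D.g D.s D.ρ := by
  show D.σ * tb D.g D.s (cw D.ρ 0 0) = _
  rw [cw_zero]

/-- the map of the square -/
def FF (c : ℝ) (k : ℤ) : C(unitInterval × unitInterval, E) where
  toFun p := tpt hA D (D.s + c * (p.1 : ℝ)) (cw D.ρ k (p.2 : ℝ)) (cw_ne D.hρ k _)
    (by rw [cw_norm D.hρ]; exact D.hρ')
  continuous_toFun := by
    refine Continuous.subtype_mk ?_ _
    refine continuous_const.mul ?_
    unfold tb
    refine (continuous_const.mul (Lift.continuous_a.comp ?_)).mul (continuous_y.comp ?_)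
    · fun_prop
    · exact (cw_cont D.ρ k).comp (continuous_subtype_val.comp continuous_snd)

theorem FF_val (c : ℝ) (k : ℤ) (p : unitInterval × unitInterval) :
    (FF hA D c k p).1 = D.σ * tb D.g (D.s + c * (p.1 : ℝ)) (cw D.ρ k (p.2 : ℝ)) := rfl

/-- the meridian -/
def mE (k : ℤ) : Path (bz hA D) (bz hA D) where
  toFun t := FF hA D 0 k (0, t)
  continuous_toFun := (FF hA D 0 k).continuous.comp (by fun_prop)
  source' := by
    apply Subtype.ext
    rw [FF_val, bz_val]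
    simp [cw_zero]
  target' := by
    apply Subtype.ext
    rw [FF_val, bz_val]
    simp [cw_one]

theorem mE_val (k : ℤ) (t : unitInterval) :
    (mE hA D k t).1 = D.σ * tb D.g D.s (cw D.ρ k (t : ℝ)) := by
  show (FF hA D 0 k (0, t)).1 = _
  rw [FF_val]
  simp

variable (hSt : StabStmt)

/-- the group element of the longitude -/
def gj (j : ℤ) : Gam := ⟨D.g * a (2 * s0 * j) * D.g⁻¹, TubeA.conj_pow_mem hSt D.hg j⟩

/-- the longitude -/
def eE (j : ℤ) : Path (bz hA D) (gj D hSt j • bz hA D) where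
  toFun t := FF hA D (2 * s0 * j) 0 (t, 0)
  continuous_toFun := (FF hA D (2 * s0 * j) 0).continuous.comp (by fun_prop)
  source' := by
    apply Subtype.ext
    rw [FF_val, bz_val]
    simp [cw_zero]
  target' := by
    apply Subtype.ext
    rw [FF_val, smul_val, bz_val]
    simp only [Set.Icc.coe_one, Set.Icc.coe_zero, mul_one, cw_zero]
    show D.σ * tb D.g (D.s + 2 * s0 * j) D.ρ = (D.g * a (2 * s0 * j) * D.g⁻¹) * (D.σ * tb D.g D.s D.ρ)
    rw [← mul_assoc (D.g * a (2 * s0 * j) * D.g⁻¹), ← Z2_comm D.hσ, mul_assoc D.σ]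
    unfold tb
    rw [add_comm, ← TubeA.a_mul]
    group

theorem eE_val (j : ℤ) (t : unitInterval) :
    (eE hA D hSt j t).1 = D.σ * tb D.g (D.s + 2 * s0 * j * (t : ℝ)) D.ρ := by
  show (FF hA D (2 * s0 * j) 0 (t, 0)).1 = _
  rw [FF_val]
  simp [cw_zero]

variable (hq : IsQuotientCoveringMap pr Gam)

/-- meridian and longitude commute -/
theorem me_comm (j k : ℤ) : (mk (mE hA D k)).trans (mk (eE hA D hSt j)) =
    (mk (eE hA D hSt j)).trans (smm hq (gj D hSt j) (mk (mE hA D k))) := by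
  symm
  have h := square (FF hA D (2 * s0 * j) k) (eE hA D hSt j)
    ((mE hA D k).map (sm hq (gj D hSt j)).continuous) (eE hA D hSt j) (mE hA D k) ?_ ?_ ?_ ?_
  · exact h
  · intro t
    apply Subtype.ext
    rw [eE_val, FF_val]
    simp [cw_zero]
  · intro t
    apply Subtype.ext
    rw [FF_val]
    show (gj D hSt j • (mE hA D k t) : E).1 = _
    rw [smul_val, mE_val]
    show (D.g * a (2 * s0 * j) * D.g⁻¹) * _ = _
    rw [← mul_assoc (D.g * a (2 * s0 * j) * D.g⁻¹), ← Z2_comm D.hσ, mul_assoc D.σ]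
    simp only [Set.Icc.coe_one, mul_one]
    unfold tb
    rw [add_comm, ← TubeA.a_mul]
    group
  · intro t
    apply Subtype.ext
    rw [eE_val, FF_val]
    simp [cw_one]
  · intro t
    apply Subtype.ext
    rw [mE_val, FF_val]
    simp

/-- loops in the tube -/
theorem pr_tube (δ : ℝ) (hδ : D.ρ < δ) (i j : ℤ) (t : unitInterval) :
    pr (((mE hA D i).trans (eE hA D hSt j)) t) ∈ psi D.g '' {p | p.1 ≠ 0 ∧ ‖p.1‖ < δ} := by
  have key : ∀ (x : E) (z : ℝ) (w : ℂ), x.1 = D.σ * tb D.g z w → w ≠ 0 → ‖w‖ = D.ρ →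
      pr x ∈ psi D.g '' {p | p.1 ≠ 0 ∧ ‖p.1‖ < δ} := by
    intro x z w hx h0 h1
    refine ⟨(w, ((z / s0 : ℝ) : AddCircle (2 : ℝ))), ⟨h0, by rw [h1]; exact hδ⟩, ?_⟩
    rw [hA.2.2.1 D.g D.hg z w (by rw [h1]; exact D.hρ'), ← TubeA.prT_mul (Z2_le D.hσ), ← hx]
    exact dif_pos x.2
  rw [Path.trans_apply]
  split_ifs with h
  · exact key _ D.s _ (mE_val hA D i _) (cw_ne D.hρ _ _) (cw_norm D.hρ _ _)
  · refine key _ _ _ (eE_val hA D hSt j _) ?_ ?_
    · have := D.hρ.ne'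
      exact_mod_cast this
    · rw [Complex.norm_real, Real.norm_eq_abs, abs_of_pos D.hρ]

end AdT.AtoroM
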