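import Pool.Agent.Helper88.AdT.AtoroM2

/-!
The centraliser of a meridian consists of loops in the tube.
-/

open Matrix Real Topology Filter Set

noncomputable section

namespace AdT.AtoroM

theorem cq_Pq {γ : SL} (hγ : γ ∈ Gam) {N : Qd} (h : N ∈ Pq) : cq γ N ∈ Pq := Lines_cj hγ h

theorem cq_Pq_iff {γ : SL} (hγ : γ ∈ Gam) (N : Qd) : cq γ N ∈ Pq ↔ N ∈ Pq := by
  constructor
  · intro h
    have := cq_Pq (Gam.inv_mem hγ) h
    rwa [← cq_mul, inv_mul_cancel, cq_one] at this
  · exact cq_Pq hγ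

theorem small_mul {γ G : SL} (hγ : γ ∈ Gam) {ρ : ℝ} (h : Small Pq G ρ) : Small Pq (γ * G) ρ := by
  refine ⟨h.1, h.2.1, fun w h0 h1 h2 => h.2.2 w h0 h1 ?_⟩
  rw [mul_assoc, dq_mul, cq_Pq_iff hγ] at h2
  exact h2

theorem trans_fun {X : Type} [TopologicalSpace X] {x y z x' y' z' : X} {γ : Path x y}
    {γ' : Path y z} {δ : Path x' y'} {δ' : Path y' z'} (h : ∀ t, γ t = δ t)
    (h' : ∀ t, γ' t = δ' t) (t : unitInterval) : (γ.trans γ') t = (δ.trans δ') t := by
  rw [Path.trans_apply, Path.trans_apply]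
  split_ifs
  · exact h _
  · exact h' _

variable (hA : TubeAStmt) (D : TD) (hSt : StabStmt) (hq : IsQuotientCoveringMap pr Gam)
  (hL : LiftStmt)

theorem dp_mE {G ς : SL} (hς : ς ∈ Lift.Z2) (hG : G = ς * (D.g * a D.s)) (k : ℤ)
    (t : unitInterval) : dp (mE hA D k) t = mu G D.ρ k t := by
  rw [dp_apply, mE_val, Z2_dq D.hσ, hG]
  show _ = dq (ς * (D.g * a D.s) * y (cw D.ρ k t))
  rw [mul_assoc ς, Z2_dq hς]
  rfl

theorem dp_sm_mE {G ς : SL} (hς : ς ∈ Lift.Z2) (hG : G = ς * (D.g * a D.s)) (γ : Gam) (k : ℤ)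
    (t : unitInterval) :
    dp ((mE hA D k).map (sm hq γ).continuous) t = mu (γ.1 * G) D.ρ k t := by
  have h := dp_mE hA D hς hG k t
  show dq (γ.1 * (mE hA D k t).1) = dq (γ.1 * G * y (cw D.ρ k t))
  rw [dq_mul, mul_assoc, dq_mul]
  exact congrArg (cq γ.1) h

include hL in
/-- the centraliser of a meridian -/
theorem claim (hP4b : P4bStmt) (hP4c : P4cStmt) (hLF : LF Pq) {G ς : SL} (hς : ς ∈ Lift.Z2)
    (hG : G = ς * (D.g * a D.s)) (hGP : dq G ∈ Pq) (hS : Small Pq G D.ρ) {k : ℤ} (hk : k ≠ 0)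
    (γ : Gam) (d : PQ (bz hA D) (γ • bz hA D))
    (r1 : (mk (mE hA D k)).trans d = d.trans (smm hq γ (mk (mE hA D k)))) :
    ∃ (i j : ℤ) (_ : γ = gj D hSt j),
      HEq d ((mk (mE hA D i)).trans (mk (eE hA D hSt j))) := by
  obtain ⟨u, rfl⟩ := Path.Homotopic.Quotient.mk_surjective d
  change (mk (mE hA D k)).trans (mk u) = (mk u).trans (smm hq γ (mk (mE hA D k))) at r1
  let γm : Path (γ • (bz hA D)) (γ • (bz hA D)) := (mE hA D k).map (sm hq γ).continuous
  -- the small loops are freely homotopic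
  have s1 : FreeIn (Pqᶜ : Set Qd) (mu G D.ρ k) (mu (γ.1 * G) D.ρ k) := by
    have h1 : mk (mE hA D k) = mk (u.trans (γm.trans u.symm)) := by
      change mk (mE hA D k) = (mk u).trans ((smm hq γ (mk (mE hA D k))).trans (mk u).symm)
      rw [← Path.Homotopic.Quotient.trans_assoc, ← r1]
      simp only [Path.Homotopic.Quotient.trans_assoc, Path.Homotopic.Quotient.trans_symm,
        Path.Homotopic.Quotient.trans_refl]
    have h2 := homIn_dp hL h1
    rw [dp_trans, dp_trans, dp_symm] at h2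
    have h3 : FreeIn (Pqᶜ : Set Qd) (dp (mE hA D k)) (dp γm) := ⟨dp u, h2⟩
    exact freeIn_congr (dp_mE hA D hς hG k) (dp_sm_mE hA D hq hς hG γ k) h3
  have hdqG : dq G = dq D.g := by rw [hG, Z2_dq hς, Lift.dq_a]
  have s2 : dq G = dq (γ.1 * G) := hP4c Pq G (γ.1 * G) D.ρ D.ρ k k hGP
    (by rw [dq_mul]; exact cq_Pq γ.2 hGP) hS (small_mul γ.2 hS) hk s1
  have s3 : cj γ.1 (cj D.g Dm) = cj D.g Dm := by
    rw [dq_mul, hdqG] at s2
    exact (congrArg Subtype.val s2).symm
  obtain ⟨j, hj⟩ := hSt.2.1 D.g D.hg γ.1 γ.2 s3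
  obtain ⟨ς', hς', hγ⟩ := sgn_eq hj
  have hγ' : γ.1 = ς' * (gj D hSt j).1 := hγ
  have hDC : ∀ x : E, DC hL (γ • x) = DC hL (gj D hSt j • x) := by
    intro x
    apply Subtype.ext
    rw [DC_val, DC_val, smul_val, smul_val, hγ', mul_assoc, Z2_dq hς']
  -- classes in the annulus
  let δ : PQ (DC hL (bz hA D)) (DC hL (γ • (bz hA D))) := (mk u).map (DC hL)
  let ε : PQ (DC hL (bz hA D)) (DC hL (gj D hSt j • (bz hA D))) := (mk (eE hA D hSt j)).map (DC hL)
  let μ : PQ (DC hL (bz hA D)) (DC hL (bz hA D)) := (mk (mE hA D k)).map (DC hL)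
  let ν : PQ (DC hL (γ • (bz hA D))) (DC hL (γ • (bz hA D))) := (smm hq γ (mk (mE hA D k))).map (DC hL)
  let ν' : PQ (DC hL (gj D hSt j • (bz hA D))) (DC hL (gj D hSt j • (bz hA D))) :=
    (smm hq (gj D hSt j) (mk (mE hA D k))).map (DC hL)
  have hν : HEq ν ν' := by
    have h1 := map_map_heq (sm hq γ) (DC hL) ((DC hL).comp (sm hq (gj D hSt j)))
      (fun x => hDC x) (mk (mE hA D k))
    refine h1.trans (heq_of_eq ?_)
    rw [Path.Homotopic.Quotient.map_comp]
    rfl
  have q1 : μ.trans δ = δ.trans ν := by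
    have h : ((mk (mE hA D k)).trans (mk u)).map (DC hL) =
        ((mk u).trans (smm hq γ (mk (mE hA D k)))).map (DC hL) :=
      congrArg (fun p => Path.Homotopic.Quotient.map p (DC hL)) r1
    rw [map_trans, map_trans] at h
    exact h
  have q2 : μ.trans ε = ε.trans ν' := by
    have h : ((mk (mE hA D k)).trans (mk (eE hA D hSt j))).map (DC hL) =
        ((mk (eE hA D hSt j)).trans (smm hq (gj D hSt j) (mk (mE hA D k)))).map (DC hL) :=
      congrArg (fun p => Path.Homotopic.Quotient.map p (DC hL)) (me_comm hA D hSt hq j k)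
    rw [map_trans, map_trans] at h
    exact h
  have q3 := alg (hDC (bz hA D)) μ δ ε ν ν' hν q1 q2
  obtain ⟨β, hβ⟩ := Path.Homotopic.Quotient.mk_surjective
    (δ.trans (ε.symm.cast (hDC (bz hA D)) rfl))
  rw [← hβ] at q3
  have hbase : dq (G * y D.ρ) = dq (bz hA D).1 := by
    rw [bz_val, Z2_dq D.hσ, hG, mul_assoc ς, Z2_dq hς]
    rfl
  let b : Path (dq (G * y D.ρ)) (dq (G * y D.ρ)) :=
    (β.map continuous_subtype_val).cast hbase hbase
  have s4 : HomIn (Pqᶜ : Set Qd) (b.trans (mu G D.ρ k)) ((mu G D.ρ k).trans b) := by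
    have h1 : mk (β.trans ((mE hA D k).map (DC hL).continuous)) =
        mk (((mE hA D k).map (DC hL).continuous).trans β) := q3
    have h2 := homIn_val h1
    rw [Path.map_trans, Path.map_trans] at h2
    refine homIn_congr ?_ ?_ h2
    · exact trans_fun (fun t => rfl) (fun t => dp_mE hA D hς hG k t)
    · exact trans_fun (fun t => dp_mE hA D hς hG k t) (fun t => rfl)
  obtain ⟨i, hi⟩ := hP4b Pq hLF G D.ρ hGP hS k b hk s4
  have s5 : mk β = mk ((mE hA D i).map (DC hL).continuous) := by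
    apply of_homIn_val
    have h : HomIn (Pqᶜ : Set Qd) (β.map continuous_subtype_val) (dp (mE hA D i)) :=
      homIn_congr (γ := b) (γ' := mu G D.ρ i) (fun t => rfl)
        (fun t => (dp_mE hA D hς hG i t).symm) hi
    exact h
  have s6 : δ.trans (ε.symm.cast (hDC (bz hA D)) rfl) = (mk (mE hA D i)).map (DC hL) := by
    rw [← hβ]
    exact s5
  have s7 := alg2 (hDC (bz hA D)) _ δ ε s6
  have s8 : mk (u.map (DC hL).continuous) =
      mk ((((mE hA D i).trans (eE hA D hSt j)).map (DC hL).continuous).cast rfl (hDC (bz hA D))) := by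
    refine Eq.trans (show mk (u.map (DC hL).continuous) = δ from rfl) (s7.trans ?_)
    rw [← map_trans]
    rfl
  have hdq : dq (γ • (bz hA D) : E).1 = dq (gj D hSt j • (bz hA D) : E).1 := congrArg Subtype.val (hDC (bz hA D))
  have s9 := hL.2.2.1 (Pqᶜ) (bz hA D).1 (γ • (bz hA D) : E).1 (gj D hSt j • (bz hA D) : E).1
    (u.map continuous_subtype_val)
    (((mE hA D i).trans (eE hA D hSt j)).map continuous_subtype_val) hdq
    (homIn_congr (fun t => rfl) (fun t => rfl) (homIn_val s8))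
  obtain ⟨s', hs'⟩ := s9
  have hς1 : ς' = 1 := by
    rcases hς' with h | h
    · exact h
    · exfalso
      rw [Set.mem_singleton_iff] at h
      rw [smul_val, smul_val, hγ'] at hs'
      have h1 : (gj D hSt j).1 * (bz hA D).1 = ((gj D hSt j).1 * (bz hA D).1) * (ς' * a s') := by
        conv_lhs => rw [hs']
        rw [mul_assoc ς', Z2_comm (Or.inr h), mul_assoc]
      have h2 : ς' * a s' = 1 := by
        have := mul_left_cancel (h1.symm.trans (mul_one _).symm)
        exact this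
      have h3 : a s' = Lift.mone := by
        rw [h] at h2
        have := congrArg (fun x => Lift.mone * x) h2
        rw [← mul_assoc, Lift.mone_sq, one_mul, mul_one] at this
        exact this
      have h4 : (a s') 0 0 = (Lift.mone : SL) 0 0 := by rw [h3]
      have h5 : (a s') 0 0 = Real.exp (s' / 2) := rfl
      have h6 : (Lift.mone : SL) 0 0 = -1 := by
        show (-1 : M2) 0 0 = -1
        simp
      rw [h5, h6] at h4
      have := Real.exp_pos (s' / 2)
      linarith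
  have hγj : γ = gj D hSt j := by
    apply Subtype.ext
    rw [hγ', hς1, one_mul]
  refine ⟨i, j, hγj, ?_⟩
  subst hγj
  apply heq_of_eq
  apply faith hL
  rw [map_trans]
  rw [Path.Homotopic.Quotient.cast_rfl_rfl] at s7
  exact s7

end AdT.AtoroM
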