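import Pool.Agent.Helper88.AdT.AtoroM3

/-!
From the conclusion of the planar theorem to loops of `M`.
-/

open Matrix Real Topology Filter Set

noncomputable section

namespace AdT.AtoroM

/-! ### the flow line to the base point of the tube -/

theorem exists_tube (hA : TubeAStmt) (hL : LiftStmt) {x : E} {kp : Path x x} {G g ς : SL}
    (hς : ς ∈ Lift.Z2) (hg : g ∈ Nz) {s : ℝ} (hG : G = ς * (g * a s)) {ρ : ℝ} (hρ : 0 < ρ)
    (hρ' : ρ < ε0) {k : ℤ}
    (hF : FreeIn (Pqᶜ : Set Qd) (dp kp) (mu G ρ k)) :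
    ∃ (D : TD) (_ : D.g = g) (_ : D.s = s) (_ : D.ρ = ρ) (δ : Path x (bz hA D)),
      mk kp = (mk δ).trans ((mk (mE hA D k)).trans (mk δ).symm) := by
  obtain ⟨δ, hδ⟩ := hF
  have hm : ∀ t, δ t ∈ (Pqᶜ : Set Qd) := mem_of_cjp_left hδ.right_mem
  have hmu : ∀ t, mu G ρ k t ∈ (Pqᶜ : Set Qd) := mem_of_cjp_right hδ.right_mem
  obtain ⟨x', γ', hγ'⟩ := hL.1 x.1 _ δ
  have h1 : dq (G * y ρ) = dq x' := by
    have := hγ' 1
    rw [γ'.target, δ.target] at this
    exact this.symm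
  obtain ⟨s', hs'⟩ := hL.2.2.2.1 _ _ h1
  obtain ⟨σ', hσ', hx'⟩ := sgn_eq hs'
  let D : TD := ⟨σ' * ς, g, Lift.Z2.mul_mem hσ' hς, hg, s, ρ, hρ, hρ'⟩
  have hbz : (bz hA D).1 = σ' * (G * y ρ) := by
    rw [bz_val]
    show (σ' * ς) * tb g s ρ = _
    rw [hG]
    unfold tb
    group
  have hx2 : x' = (bz hA D).1 * a s' := by
    rw [hx', hbz]
    group
  have hmemE : ∀ t, γ' t ∈ (E : Set SL) := fun t => (hL.2.2.2.2 _).2 (by
    rw [hγ' t]
    exact hm t)
  have hx'E : x' ∈ E := by simpa using hmemE 1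
  let δ' : Path x (⟨x', hx'E⟩ : E) := rs E γ' hmemE
  have hdqb : dq (bz hA D).1 = dq (G * y ρ) := by rw [hbz, Z2_dq hσ']
  have hflow : ∀ r : ℝ, (bz hA D).1 * a r ∈ E := fun r => (hL.2.2.2.2 _).2 (by
    rw [Lift.dq_a]
    exact (hL.2.2.2.2 _).1 (bz hA D).2)
  let f : Path (⟨x', hx'E⟩ : E) (bz hA D) :=
    { toFun := fun t => ⟨(bz hA D).1 * a (s' * (1 - (t : ℝ))), hflow _⟩
      continuous_toFun := by
        refine Continuous.subtype_mk ?_ _
        refine continuous_const.mul (Lift.continuous_a.comp ?_)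
        fun_prop
      source' := by
        apply Subtype.ext
        show (bz hA D).1 * a (s' * (1 - ((0 : unitInterval) : ℝ))) = x'
        rw [hx2]
        simp
      target' := by
        apply Subtype.ext
        show (bz hA D).1 * a (s' * (1 - ((1 : unitInterval) : ℝ))) = _
        simp [Lift.a_zero] }
  refine ⟨D, rfl, rfl, rfl, δ'.trans f, ?_⟩
  apply faith hL
  rw [map_trans, map_trans, map_symm]
  have e0 : (mk kp).map (DC hL) = cl (Pqᶜ : Set Qd) (dp kp) (dp_mem hL kp) := rfl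
  have e1 : cl (Pqᶜ : Set Qd) (dp kp) (dp_mem hL kp) = cl Pqᶜ (cjp δ (mu G ρ k))
      (mem_cjp hm hmu) := (homIn_iff_cl _ _).1 hδ
  have hb1 : DC hL (⟨x', hx'E⟩ : E) = (⟨dq (G * y ρ), by simpa using hm 1⟩ : Qp) :=
    Subtype.ext h1.symm
  have hb2 : DC hL (bz hA D) = (⟨dq (G * y ρ), by simpa using hm 1⟩ : Qp) := Subtype.ext hdqb
  have a1 : HEq ((mk δ').map (DC hL)) (cl (Pqᶜ : Set Qd) δ hm) :=
    mk_heq (δ'.map (DC hL).continuous) (rs Pqᶜ δ hm) fun t => Subtype.ext (hγ' t)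
  have a2 : HEq ((mk f).map (DC hL))
      (Path.Homotopic.Quotient.refl (⟨dq (G * y ρ), by simpa using hm 1⟩ : Qp)) :=
    mk_heq (f.map (DC hL).continuous) (Path.refl (⟨dq (G * y ρ), by simpa using hm 1⟩ : Qp))
      fun t => Subtype.ext ((Lift.dq_a _ _).trans hdqb)
  have a3 : HEq ((mk (δ'.trans f)).map (DC hL)) (cl (Pqᶜ : Set Qd) δ hm) := by
    have b1 : (mk (δ'.trans f)).map (DC hL) = ((mk δ').map (DC hL)).trans ((mk f).map (DC hL)) :=
      map_trans (DC hL) (mk δ') (mk f)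
    rw [b1]
    refine (trans_heq rfl hb1 hb2 a1 a2).trans (heq_of_eq ?_)
    exact Path.Homotopic.Quotient.trans_refl _
  have a4 : HEq ((mk (mE hA D k)).map (DC hL)) (cl (Pqᶜ : Set Qd) (mu G ρ k) hmu) :=
    mk_heq ((mE hA D k).map (DC hL).continuous) (rs Pqᶜ (mu G ρ k) hmu)
      fun t => Subtype.ext (dp_mE hA D hς hG k t)
  have a5 : HEq ((mk (δ'.trans f)).map (DC hL)).symm (cl (Pqᶜ : Set Qd) δ hm).symm :=
    symm_heq rfl hb2 a3
  rw [e0, e1, cl_cjp δ (mu G ρ k) hm hmu]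
  apply eq_of_heq
  exact (trans_heq rfl hb2 rfl a3 (trans_heq hb2 hb2 rfl a4 a5)).symm

/-! ### loops commuting with the meridian -/

theorem final_loop (hA : TubeAStmt) (hL : LiftStmt) (hSt : StabStmt)
    (hq : IsQuotientCoveringMap pr Gam) (hP4b : P4bStmt) (hP4c : P4cStmt) (hLF : LF Pq)
    (D : TD) {G ς : SL} (hς : ς ∈ Lift.Z2)
    (hG : G = ς * (D.g * a D.s)) (hGP : dq G ∈ Pq) (hS : Small Pq G D.ρ) {k : ℤ} (hk : k ≠ 0)
    (dl : ℝ) (hdl : D.ρ < dl)
    {x : E} {kp : Path x x} (δ : Path x (bz hA D))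
    (hkp : mk kp = (mk δ).trans ((mk (mE hA D k)).trans (mk δ).symm))
    (α : FundamentalGroup M (pr x))
    (hα : (prm hq (mk kp)).trans (α : PQ (pr x) (pr x)) =
      (α : PQ (pr x) (pr x)).trans (prm hq (mk kp))) :
    ∃ p : Path (pr (bz hA D)) (pr (bz hA D)),
      range p ⊆ psi D.g '' {p | p.1 ≠ 0 ∧ ‖p.1‖ < dl} ∧
      α = FundamentalGroup.fromPath (Path.Homotopic.Quotient.mk
        ((δ.map hq.isCoveringMap.continuous).trans
          (p.trans (δ.map hq.isCoveringMap.continuous).symm))) := by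
  let γ0 : PQ (pr x) (pr (bz hA D)) := prm hq (mk δ)
  let α1 : PQ (pr x) (pr x) := α
  let α' : PQ (pr (bz hA D)) (pr (bz hA D)) := γ0.symm.trans (α1.trans γ0)
  let m : PQ (pr (bz hA D)) (pr (bz hA D)) := prm hq (mk (mE hA D k))
  have hκ : prm hq (mk kp) = γ0.trans (m.trans γ0.symm) := by
    rw [hkp, prm_trans, prm_trans, prm_symm]
  have hα1 : (γ0.trans (m.trans γ0.symm)).trans α1 = α1.trans (γ0.trans (m.trans γ0.symm)) := by
    rw [← hκ]
    exact hα
  have hcomm : m.trans α' = α'.trans m := by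
    apply cancel_left γ0
    apply cancel_right γ0.symm
    have l1 : (γ0.trans (m.trans α')).trans γ0.symm =
        (γ0.trans (m.trans γ0.symm)).trans α1 := by
      show (γ0.trans (m.trans (γ0.symm.trans (α1.trans γ0)))).trans γ0.symm = _
      simp only [Path.Homotopic.Quotient.trans_assoc, Path.Homotopic.Quotient.trans_symm,
        Path.Homotopic.Quotient.trans_refl]
    have l2 : (γ0.trans (α'.trans m)).trans γ0.symm =
        α1.trans (γ0.trans (m.trans γ0.symm)) := by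
      show (γ0.trans ((γ0.symm.trans (α1.trans γ0)).trans m)).trans γ0.symm = _
      rw [← Path.Homotopic.Quotient.trans_assoc γ0, ← Path.Homotopic.Quotient.trans_assoc γ0 γ0.symm,
        Path.Homotopic.Quotient.trans_symm, Path.Homotopic.Quotient.refl_trans]
      simp only [Path.Homotopic.Quotient.trans_assoc]
    rw [l1, l2]
    exact hα1
  obtain ⟨d, hd⟩ := lift_gen hq (bz hA D) α'
  have r1 := comm_lift hq (bz hA D) (mk (mE hA D k)) _ d α' hd hcomm
  obtain ⟨i, j, hγ, hd2⟩ := claim hA D hSt hq hL hP4b hP4c hLF hς hG hGP hS hk _ d r1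
  have hend : pr (bz hA D) = pr (gj D hSt j • bz hA D) := (prC_sm hq (gj D hSt j) (bz hA D)).symm
  let p : Path (pr (bz hA D)) (pr (bz hA D)) :=
    (((mE hA D i).trans (eE hA D hSt j)).map hq.isCoveringMap.continuous).cast rfl hend
  refine ⟨p, ?_, ?_⟩
  · rintro _ ⟨t, rfl⟩
    exact pr_tube hA D hSt dl hdl i j t
  · have hp : HEq (prm hq d) (mk p) := by
      have h1 : HEq (prm hq d) (prm hq ((mk (mE hA D i)).trans (mk (eE hA D hSt j)))) :=
        prm_heq hq rfl (by rw [hγ]) hd2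
      refine h1.trans ?_
      exact mk_heq (((mE hA D i).trans (eE hA D hSt j)).map hq.isCoveringMap.continuous) p
        fun t => rfl
    have hα' : α' = mk p := eq_of_heq (hd.symm.trans hp)
    have h2 : α1 = γ0.trans (α'.trans γ0.symm) := by
      show α1 = γ0.trans ((γ0.symm.trans (α1.trans γ0)).trans γ0.symm)
      simp only [Path.Homotopic.Quotient.trans_assoc, Path.Homotopic.Quotient.trans_symm,
        Path.Homotopic.Quotient.trans_refl]
      rw [← Path.Homotopic.Quotient.trans_assoc, Path.Homotopic.Quotient.trans_symm,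
        Path.Homotopic.Quotient.refl_trans]
    rw [hα'] at h2
    exact h2

end AdT.AtoroM
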