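import Pool.Agent.Helper88.AdT.Stmts2

/-!
AT-10: atoroidality of the complement of the link.
-/

open Matrix Real Topology Filter Set

noncomputable section

namespace AdT

namespace AtoroN

section Transport

variable {X Y : Type} [TopologicalSpace X] [TopologicalSpace Y] (e : X ≃ₜ Y) (m : X)

lemma map_mk (a : Path m m) : FundamentalGroup.map (⟨e, e.continuous⟩ : C(X, Y)) m
    (FundamentalGroup.fromPath (Path.Homotopic.Quotient.mk a)) =
    FundamentalGroup.fromPath (Path.Homotopic.Quotient.mk (a.map e.continuous)) := rfl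

lemma map_surj (α : FundamentalGroup Y (e m)) : ∃ α' : FundamentalGroup X m,
    FundamentalGroup.map (⟨e, e.continuous⟩ : C(X, Y)) m α' = α := by
  obtain ⟨a, rfl⟩ : ∃ a : Path (e m) (e m),
      FundamentalGroup.fromPath (Path.Homotopic.Quotient.mk a) = α := by
    obtain ⟨a, ha⟩ := Quotient.exists_rep (FundamentalGroup.toPath α)
    exact ⟨a, ha⟩
  refine ⟨FundamentalGroup.fromPath (Path.Homotopic.Quotient.mk
    ((a.map e.symm.continuous).cast (by simp) (by simp))), ?_⟩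
  rw [map_mk]
  congr 2
  ext t
  simp

lemma map_inj (α β : FundamentalGroup X m)
    (h : FundamentalGroup.map (⟨e, e.continuous⟩ : C(X, Y)) m α =
      FundamentalGroup.map (⟨e, e.continuous⟩ : C(X, Y)) m β) : α = β := by
  obtain ⟨a, rfl⟩ : ∃ a : Path m m,
      FundamentalGroup.fromPath (Path.Homotopic.Quotient.mk a) = α := by
    obtain ⟨a, ha⟩ := Quotient.exists_rep (FundamentalGroup.toPath α)
    exact ⟨a, ha⟩
  obtain ⟨b, rfl⟩ : ∃ b : Path m m,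
      FundamentalGroup.fromPath (Path.Homotopic.Quotient.mk b) = β := by
    obtain ⟨b, hb⟩ := Quotient.exists_rep (FundamentalGroup.toPath β)
    exact ⟨b, hb⟩
  rw [map_mk, map_mk] at h
  have h1 : (a.map e.continuous).Homotopic (b.map e.continuous) := Quotient.exact h
  obtain ⟨H⟩ := h1
  have h2 : a.Homotopic b := ⟨{
    toFun := fun p => e.symm (H p)
    continuous_toFun := e.symm.continuous.comp H.continuous
    map_zero_left := fun t => by simp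
    map_one_left := fun t => by simp
    prop' := fun t x hx => by
      have := H.prop' t x hx
      simp only [ContinuousMap.toFun_eq_coe, ContinuousMap.coe_mk] at this ⊢
      have h3 : H (t, x) = (a.map e.continuous) x := this
      rw [h3]
      simp }⟩
  exact Quotient.sound h2

end Transport

lemma a_add (s t : ℝ) : a (s + t) = a s * a t := by
  apply Subtype.ext
  rw [Matrix.SpecialLinearGroup.coe_mul]
  show !![exp ((s + t) / 2), 0; 0, exp (-((s + t) / 2))] =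
    !![exp (s / 2), 0; 0, exp (-(s / 2))] * !![exp (t / 2), 0; 0, exp (-(t / 2))]
  rw [Matrix.mul_fin_two]
  simp only [mul_zero, zero_mul, add_zero, zero_add, ← Real.exp_add]
  congr 4 <;> ring_nf

lemma prT_mul {γ x : SL} (hγ : γ ∈ Gam) (hx : x ∈ E) : prT (γ * x) = prT x := by
  unfold prT
  rw [dif_pos hx, dif_pos (E_mul hγ hx)]
  apply Quotient.sound'
  exact ⟨⟨γ, hγ⟩, rfl⟩

/-- minus one -/
def neg1 : SL := ⟨-1, by simp [Matrix.det_fin_two]⟩

lemma neg1_mem : neg1 ∈ Gam := by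
  refine ⟨-1, 0, 0, 0, ?_⟩
  ext i j
  fin_cases i <;> fin_cases j <;> simp [gm, neg1]

lemma psi_sub (hA : TubeAStmt) (hL : LiftStmt) {g h γ : SL} (hh : h ∈ Nz)
    (hγ : γ ∈ Gam) (hc : cj γ (cj h Dm) = cj g Dm) (p : ℂ × AddCircle (2 : ℝ)) (hp : p.1 ≠ 0)
    (hp' : ‖p.1‖ < ε0) : ∃ θ : AddCircle (2 : ℝ), psi g p = psi h (p.1, θ) := by
  have hdq : dq (γ * h) = dq g := by
    apply Subtype.ext
    show cj (γ * h) Dm = cj g Dm
    rw [cj_mul, hc]
  obtain ⟨s, hs⟩ := hL.2.2.2.1 (γ * h) g hdq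
  obtain ⟨ζ, hζ, hgζ⟩ : ∃ ζ ∈ Gam, g = ζ * (γ * h * a s) := by
    rcases hs with hs | hs
    · refine ⟨1, Gam.one_mem, ?_⟩
      rw [one_mul]
      exact Subtype.ext hs
    · refine ⟨neg1, neg1_mem, ?_⟩
      apply Subtype.ext
      show (g : M2) = ((neg1 * (γ * h * a s) : SL) : M2)
      rw [hs, Matrix.SpecialLinearGroup.coe_mul neg1]
      show _ = (-1 : M2) * _
      rw [neg_one_mul]
  set z : ℝ := s0 * Quotient.out p.2 with hz
  have h1 : psi g p = prT (tb g z p.1) := rfl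
  have h2 : tb g z p.1 = (ζ * γ) * tb h (s + z) p.1 := by
    unfold tb
    rw [hgζ, a_add]
    group
  have h3 : tb h (s + z) p.1 ∈ E := hA.2.1 h hh _ _ hp hp'
  have h4 := hA.2.2.1 h hh (s + z) p.1 hp'
  refine ⟨(((s + z) / s0 : ℝ) : AddCircle (2 : ℝ)), ?_⟩
  rw [h1, h2, prT_mul (Gam.mul_mem hζ hγ) h3, h4]

lemma tube (hF : FNStmt) (gi : Idx → SL) (hg : GoodGi gi) (U : Set (FN gi)) (hU : IsOpen U)
    (hS : Sg gi ⊆ U) : ∃ d : ℝ, 0 < d ∧ d < ε0 ∧ ∀ i (p : ST ε0), ‖p.1.1‖ < d → kN gi i p ∈ U := by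
  obtain ⟨-, hk, -, -, -, hne, hfin, -, -⟩ := hF gi hg
  have : Fact ((0 : ℝ) < 2) := ⟨by norm_num⟩
  have hε : (0 : ℝ) < ε0 := by unfold ε0; norm_num
  have h1 : ∀ i, ∃ d : ℝ, 0 < d ∧ ∀ p : ST ε0, ‖p.1.1‖ < d → kN gi i p ∈ U := by
    intro i
    have ho : IsOpen {p : ℂ × AddCircle (2 : ℝ) | ‖p.1‖ < ε0} :=
      isOpen_lt (by fun_prop) continuous_const
    have hW : IsOpen ((Subtype.val : ST ε0 → ℂ × AddCircle (2 : ℝ)) '' ((kN gi i) ⁻¹' U)) :=
      ho.isOpenMap_subtype_val _ (hU.preimage (hk i).continuous)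
    have hsub : ({0} : Set ℂ) ×ˢ (univ : Set (AddCircle (2 : ℝ))) ⊆
        (Subtype.val : ST ε0 → ℂ × AddCircle (2 : ℝ)) '' ((kN gi i) ⁻¹' U) := by
      rintro ⟨w, θ⟩ ⟨hw, -⟩
      have hw0 : w = 0 := hw
      subst hw0
      refine ⟨⟨(0, θ), by simpa using hε⟩, ?_, rfl⟩
      apply hS
      exact ⟨i, _, rfl, rfl⟩
    obtain ⟨u, v, hu, hv, h0u, hvv, huv⟩ := generalized_tube_lemma isCompact_singleton
      isCompact_univ hW hsub
    have h0 : (0 : ℂ) ∈ u := h0u rfl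
    obtain ⟨d, hd, hdu⟩ := Metric.isOpen_iff.1 hu 0 h0
    refine ⟨d, hd, ?_⟩
    intro p hp
    have h2 : p.1.1 ∈ u := hdu (by simpa using hp)
    have h3 : (p.1.1, p.1.2) ∈ (Subtype.val : ST ε0 → ℂ × AddCircle (2 : ℝ)) ''
        ((kN gi i) ⁻¹' U) := huv ⟨h2, hvv (mem_univ _)⟩
    obtain ⟨p', hp', he⟩ := h3
    have h4 : p' = p := Subtype.ext he
    rw [← h4]
    exact hp'
  choose d hd hdU using h1
  obtain ⟨i0, hi0⟩ := Finite.exists_min d
  refine ⟨min (d i0) (ε0 / 2), lt_min (hd i0) (by linarith),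
    (min_le_right _ _).trans_lt (by linarith), ?_⟩
  intro i p hp
  exact hdU i p (hp.trans_le ((min_le_left _ _).trans (hi0 i)))

lemma Dm_mem : Dm ∈ Lines := ⟨1, 0, 0, by norm_num, by simp [Dm]⟩

end AtoroN

theorem atoroN (hM : AtoroMStmt) (hF : FNStmt) (hTr : TransStmt) (hA : TubeAStmt)
    (hL : LiftStmt) : AtoroNStmt := by
  intro gi hg
  have hFN := hF gi hg
  have hrange : range (jN gi) = (Sg gi)ᶜ := by rw [← hFN.2.2.2.1, compl_compl]
  let e : M ≃ₜ ↥((Sg gi)ᶜ : Set (FN gi)) :=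
    hFN.1.isEmbedding.toHomeomorph.trans (Homeomorph.setCongr hrange)
  have heval : ∀ m : M, ((e m : ↥((Sg gi)ᶜ : Set (FN gi))) : FN gi) = jN gi m := fun m => rfl
  intro x₀ α β hcomm hind U hU hSU
  obtain ⟨m₀, rfl⟩ := e.surjective x₀
  obtain ⟨α', rfl⟩ := AtoroN.map_surj e m₀ α
  obtain ⟨β', rfl⟩ := AtoroN.map_surj e m₀ β
  set φ := FundamentalGroup.map (⟨e, e.continuous⟩ : C(M, ↥((Sg gi)ᶜ : Set (FN gi)))) m₀ with hφ
  have hcomm' : α' * β' = β' * α' := by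
    apply AtoroN.map_inj e m₀
    rw [map_mul, map_mul]
    exact hcomm
  have hind' : ∀ m n : ℤ, α' ^ m * β' ^ n = 1 → m = 0 ∧ n = 0 := by
    intro m n h
    apply hind m n
    have := congrArg φ h
    rw [map_mul, map_zpow, map_zpow, map_one] at this
    exact this
  obtain ⟨g, hgN, hgδ⟩ := hM m₀ α' β' hcomm' hind'
  obtain ⟨d, hd0, hdε, hdU⟩ := AtoroN.tube hF gi hg U hU hSU
  have hgL : cj g Dm ∈ Lines := (hgN Dm AtoroN.Dm_mem).1
  set i : Idx := (Quotient.mk'' (⟨cj g Dm, hgL⟩ : LL) : Idx) with hi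
  obtain ⟨hiL, hieq⟩ := hg.2 i
  obtain ⟨γ, hγ⟩ : ∃ γ : Gam, γ • (⟨cj (gi i) Dm, hiL⟩ : LL) = (⟨cj g Dm, hgL⟩ : LL) := by
    have h1 : (Quotient.mk'' (⟨cj g Dm, hgL⟩ : LL) : Idx) =
        Quotient.mk'' (⟨cj (gi i) Dm, hiL⟩ : LL) := by rw [hieq]
    have h2 := Quotient.exact' h1
    exact h2
  have hγc : cj γ.1 (cj (gi i) Dm) = cj g Dm := congrArg Subtype.val hγ
  have hsub : ∀ m ∈ psi g '' {p | p.1 ≠ 0 ∧ ‖p.1‖ < d}, jN gi m ∈ U := by
    rintro _ ⟨p, ⟨hp0, hpd⟩, rfl⟩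
    have hpd' : ‖p.1‖ < d := hpd
    obtain ⟨θ, hθ⟩ := AtoroN.psi_sub hA hL (hg.1 i) γ.2 hγc p hp0 (hpd'.trans hdε)
    rw [hθ]
    let p' : ST ε0 := ⟨(p.1, θ - th2 (tw p.1) (nw p.1)), hpd'.trans hdε⟩
    have h1 : gl (gi i) p'.1 = psi (gi i) (p.1, θ) := by
      show psi (gi i) (p.1, θ - th2 (tw p.1) (nw p.1) + th2 (tw p.1) (nw p.1)) = _
      rw [sub_add_cancel]
    rw [← h1, ← hFN.2.2.1 i p' hp0]
    exact hdU i p' hpd'
  obtain ⟨y, c, p, q, hp, hq, hα, hβ⟩ := hgδ d hd0 hdε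
  refine ⟨e y, c.map e.continuous, p.map e.continuous, q.map e.continuous, ?_, ?_, ?_, ?_⟩
  · intro t
    rw [Path.map_coe, Function.comp_apply, heval]
    exact hsub _ (hp ⟨t, rfl⟩)
  · intro t
    rw [Path.map_coe, Function.comp_apply, heval]
    exact hsub _ (hq ⟨t, rfl⟩)
  · rw [hα, hφ, AtoroN.map_mk, Path.map_trans, Path.map_trans, Path.map_symm]
  · rw [hβ, hφ, AtoroN.map_mk, Path.map_trans, Path.map_trans, Path.map_symm]

end AdT
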