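import Pool.Agent.Helper88.AdT.Stmts1

open Matrix Real Topology Filter Set

noncomputable section

namespace AdT

namespace Cont

theorem continuous_a : Continuous a := by
  apply Topology.IsInducing.subtypeVal.continuous_iff.2
  apply continuous_matrix
  intro i j
  fin_cases i <;> fin_cases j
  · exact Real.continuous_exp.comp (continuous_id.div_const 2)
  · exact continuous_const
  · exact continuous_const
  · exact Real.continuous_exp.comp (continuous_id.div_const 2).neg

theorem isOpenMap_domRestrict (U : Set E) (hU : IsOpen U) (D : E → SL)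
    (ho : ∀ W ⊆ U, IsOpen W → IsOpen (D '' W)) : IsOpenMap (U.domRestrict D) := by
  intro W hW
  have h1 : (U.domRestrict D) '' W = D '' (Subtype.val '' W) := by
    rw [Set.domRestrict_eq, Set.image_comp]
  rw [h1]
  exact ho _ (Subtype.coe_image_subset U W) (hU.isOpenMap_subtype_val W hW)

/-- The developing map as a homeomorphism between open subsets. -/
def dvp (U : Set E) (hU : IsOpen U) (D : E → SL) (hc : ContinuousOn D U) (hi : InjOn D U)
    (ho : ∀ W ⊆ U, IsOpen W → IsOpen (D '' W)) : OpenPartialHomeomorph E SL :=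
  OpenPartialHomeomorph.ofContinuousOpenRestrict (hi.toPartialEquiv D U) hc
    (isOpenMap_domRestrict U hU D ho) hU

theorem dvp_source (U : Set E) (hU : IsOpen U) (D : E → SL) (hc : ContinuousOn D U)
    (hi : InjOn D U) (ho : ∀ W ⊆ U, IsOpen W → IsOpen (D '' W)) :
    (dvp U hU D hc hi ho).source = U := rfl

theorem dvp_apply (U : Set E) (hU : IsOpen U) (D : E → SL) (hc : ContinuousOn D U)
    (hi : InjOn D U) (ho : ∀ W ⊆ U, IsOpen W → IsOpen (D '' W)) (x : E) :
    dvp U hU D hc hi ho x = D x := rfl

end Cont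

open Cont

theorem contFam (hF : FNStmt) (hL : LocalStmt) (hQ : QuotAStmt) : ContStmt := by
  classical
  intro gi hgi q hq
  obtain ⟨hj, -, -, hrange, -⟩ := hF gi hgi
  obtain ⟨hEo, hcov, -⟩ := hQ
  have hq2 : q ∈ range (jN gi) := by
    by_contra h
    exact hq (hrange ▸ h)
  obtain ⟨m, rfl⟩ := hq2
  obtain ⟨x, rfl⟩ : ∃ x : E, pr x = m := Quotient.exists_rep m
  obtain ⟨U, f, hU, hxU, hUE, hfc, hfT, hdev⟩ := hL x.1 x.2
  -- local inverse of the projection
  have hloc : IsLocalHomeomorph pr := hcov.isCoveringMap.isLocalHomeomorph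
  have hloc2 : IsLocalHomeomorph (fun x => jN gi (pr x)) :=
    hj.isLocalHomeomorph.comp hloc
  obtain ⟨e1, hx1, he1⟩ := hloc2 x
  set UE : Set E := Subtype.val ⁻¹' U with hUEdef
  have hUEo : IsOpen UE := hU.preimage continuous_subtype_val
  set e0 := e1.restrOpen UE hUEo with he0
  have he0s : e0.source = e1.source ∩ UE := rfl
  have he0U : ∀ x' ∈ e0.source, x'.1 ∈ U := fun x' hx' => hx'.2
  have he0a : ∀ x', e0 x' = jN gi (pr x') := by
    intro x'
    have : e0 x' = e1 x' := rfl
    rw [this, ← he1]
  have hx0 : x ∈ e0.source := ⟨hx1, hxU⟩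
  -- the developing maps
  have hs0 : (0 : ℝ) < s0 / 20 := by
    have : 0 < s0 := by
      unfold s0 r0
      have h1 : 0 < arsinh (1 / √2) := Real.arsinh_pos_iff.2 (by positivity)
      linarith
    linarith
  have hcf : ∀ κ, ContinuousOn (fun x' : E => f κ x'.1) UE := fun κ =>
    (hfc κ).comp continuous_subtype_val.continuousOn (fun x' hx' => hx')
  have hDc : ∀ t, ContinuousOn (fun x' : E => x'.1 * a (devf t (fun κ => f κ x'.1))) UE := by
    intro t
    apply ContinuousOn.mul continuous_subtype_val.continuousOn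
    apply continuous_a.comp_continuousOn
    unfold devf
    exact continuousOn_const.mul ((continuousOn_const.mul (hcf true)).add
      (continuousOn_const.mul (hcf false)))
  have hDi : ∀ t, |t| < s0 / 20 →
      InjOn (fun x' : E => x'.1 * a (devf t (fun κ => f κ x'.1))) UE := by
    intro t ht x' hx' x'' hx'' h
    exact Subtype.ext ((hdev t ht).1 hx' hx'' h)
  have hDo : ∀ t, |t| < s0 / 20 → ∀ W ⊆ UE, IsOpen W →
      IsOpen ((fun x' : E => x'.1 * a (devf t (fun κ => f κ x'.1))) '' W) := by
    intro t ht W hW hWo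
    have h1 : (fun x' : E => x'.1 * a (devf t (fun κ => f κ x'.1))) '' W =
        (fun x' : SL => x' * a (devf t (fun κ => f κ x'))) '' (Subtype.val '' W) := by
      rw [Set.image_image]
    rw [h1]
    apply (hdev t ht).2
    · rintro _ ⟨x', hx', rfl⟩
      exact hW hx'
    · exact hEo.isOpenMap_subtype_val W hWo
  set c0 : (t : ℝ) → |t| < s0 / 20 → OpenPartialHomeomorph (FN gi) SL := fun t ht =>
    e0.symm.trans (dvp UE hUEo _ (hDc t) (hDi t ht) (hDo t ht)) with hc0
  have hsrc : ∀ t ht, (c0 t ht).source = e0.target := by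
    intro t ht
    rw [hc0]
    change e0.symm.source ∩ e0.symm ⁻¹' UE = e0.target
    rw [OpenPartialHomeomorph.symm_source]
    apply Set.inter_eq_left.2
    intro q' hq'
    exact (e0.map_target hq').2
  have hval : ∀ t ht q', c0 t ht q' =
      (e0.symm q').1 * a (devf t (fun κ => f κ (e0.symm q').1)) := fun t ht q' => rfl
  have habs : ∀ t ∈ Ioo (-(s0 / 20)) (s0 / 20), |t| < s0 / 20 := fun t ht => abs_lt.2 ht
  refine ⟨e0.target, fun t => if h : |t| < s0 / 20 then c0 t h else c0 0 (by simpa using hs0),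
    e0.open_target, ?_, ?_, ?_⟩
  · rw [← he0a x]
    exact e0.map_source hx0
  · intro t ht
    have ht' := habs t ht
    simp only [dif_pos ht']
    refine ⟨?_, hsrc t ht'⟩
    intro q' hq'
    rw [hsrc t ht'] at hq'
    refine ⟨e0.symm q', ?_, fun κ x' => f κ x'.1, 1, 1, e0.source, e0.open_source,
      e0.map_target hq', ?_, ?_, ?_⟩
    · rw [← he0a, e0.right_inv hq']
    · intro κ
      exact (hcf κ).mono (fun x' hx' => hx'.2)
    · intro κ x' hx'
      exact hfT κ _ (he0U x' hx')
    · intro x' hx'
      rw [hval t ht', ← he0a, e0.left_inv hx', one_mul, mul_one]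
  · have h1 : ContinuousOn (fun p : ℝ × FN gi => (e0.symm p.2).1 *
        a (devf p.1 (fun κ => f κ (e0.symm p.2).1))) (Ioo (-(s0 / 20)) (s0 / 20) ×ˢ e0.target) := by
      have hsm : ContinuousOn (fun p : ℝ × FN gi => e0.symm p.2)
          (Ioo (-(s0 / 20)) (s0 / 20) ×ˢ e0.target) :=
        e0.symm.continuousOn.comp continuous_snd.continuousOn (fun p hp => hp.2)
      have hfκ : ∀ κ, ContinuousOn (fun p : ℝ × FN gi => f κ (e0.symm p.2).1)
          (Ioo (-(s0 / 20)) (s0 / 20) ×ˢ e0.target) := fun κ =>
        (hcf κ).comp hsm (fun p hp => (e0.map_target hp.2).2)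
      apply ContinuousOn.mul (continuous_subtype_val.comp_continuousOn hsm)
      apply continuous_a.comp_continuousOn
      unfold devf
      exact continuousOn_const.mul (((continuousOn_const.add continuous_fst.continuousOn).mul
        (hfκ true)).add ((continuousOn_const.sub continuous_fst.continuousOn).mul (hfκ false)))
    refine h1.congr ?_
    rintro ⟨t, q'⟩ ⟨ht, -⟩
    have ht' := habs t ht
    simp only [dif_pos ht']
    rw [hval t ht']

end AdT
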