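import Pool.Agent.Helper88.AdT.Stmts2

/-!
The cut system of the annulus minus a finite set, with narrow boxes (the clause `η < 1 / 4` makes
the two sides of a cut different also modulo one).
-/

open Matrix Real Topology Filter Set

noncomputable section

namespace AdT

/-- `CylStmt` with the additional bound `η < 1 / 4` -/
def CylSStmt : Prop :=
  ∀ F : Set Cyl, F.Finite → ∃ (η : ℝ) (ω : ∀ {x y : Cyl}, Path x y → FreeGroup (Option F)),
    0 < η ∧ η < 1 / 4 ∧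
    (∀ (x y : Cyl) (γ γ' : Path x y), range γ ⊆ Fᶜ → range γ' ⊆ Fᶜ →
      (HomIn Fᶜ γ γ' ↔ ω γ = ω γ')) ∧
    (∀ (x y z : Cyl) (γ : Path x y) (γ' : Path y z), range γ ⊆ Fᶜ → range γ' ⊆ Fᶜ →
      ω (γ.trans γ') = ω γ * ω γ') ∧
    (∀ (x y : Cyl) (γ : Path x y), range γ ⊆ cut0 F → ω γ = 1) ∧
    (∀ (α : Option F) (x y : Cyl) (γ : Path x y), range γ ⊆ bx F η α →
      ω γ = (sig (bxr F η) α x)⁻¹ * sig (bxr F η) α y) ∧
    (∀ (B : Set (Option F)) (x y : Cyl) (γ : Path x y),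
      range γ ⊆ Fᶜ → (∀ α ∈ B, Disjoint (range γ) (arc F α)) →
      ω γ ∈ Subgroup.closure (FreeGroup.of '' Bᶜ)) ∧
    (∀ (B : Set (Option F)) (x y : Cyl), x ∈ cut0 F → y ∈ cut0 F →
      ∀ g ∈ Subgroup.closure (FreeGroup.of '' B),
        ∃ γ : Path x y, range γ ⊆ Fᶜ ∧ (∀ α ∉ B, Disjoint (range γ) (arc F α)) ∧ ω γ = g)

lemma CylSStmt.cylStmt (h : CylSStmt) : CylStmt := by
  intro F hF
  obtain ⟨η, ω, h0, -, h1⟩ := h F hF
  exact ⟨η, ω, h0, h1⟩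

end AdT
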