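import Pool.Agent.Helper88.AdT.CylS

/-!
# AT-2: cut system of the annulus minus a finite set
-/

open Matrix Real Topology Filter Set

noncomputable section

namespace AdT

namespace CylSys

/-! ### real coordinates on the circle -/

/-- the representative in `[a, a + 1)` -/
def rc (a : ℝ) (θ : AddCircle (1 : ℝ)) : ℝ := (AddCircle.equivIco 1 a θ : ℝ)

lemma coe_rc (a : ℝ) (θ : AddCircle (1 : ℝ)) : ((rc a θ : ℝ) : AddCircle (1 : ℝ)) = θ :=
  AddCircle.coe_equivIco

lemma rc_mem (a : ℝ) (θ : AddCircle (1 : ℝ)) : rc a θ ∈ Ico a (a + 1) :=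
  (AddCircle.equivIco 1 a θ).2

lemma rc_gt {a : ℝ} {θ : AddCircle (1 : ℝ)} (h : θ ≠ (a : AddCircle (1 : ℝ))) : a < rc a θ := by
  rcases (rc_mem a θ).1.lt_or_eq with h1 | h1
  · exact h1
  · exfalso
    apply h
    rw [← coe_rc a θ, ← h1]

lemma rc_coe {a s : ℝ} (h : s ∈ Ico a (a + 1)) : rc a (s : AddCircle (1 : ℝ)) = s :=
  AddCircle.equivIco_coe_of_mem h

lemma continuousAt_rc {a : ℝ} {θ : AddCircle (1 : ℝ)} (h : θ ≠ (a : AddCircle (1 : ℝ))) :
    ContinuousAt (rc a) θ :=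
  continuous_subtype_val.continuousAt.comp (AddCircle.continuousAt_equivIco 1 a h)

lemma coe_small {s : ℝ} (h : (s : AddCircle (1 : ℝ)) = 0) (hs : |s| < 1) : s = 0 := by
  obtain ⟨n, hn⟩ := (AddCircle.coe_eq_zero_iff (1 : ℝ)).1 h
  have hn' : (n : ℝ) = s := by simpa using hn
  rw [← hn'] at hs ⊢
  have : |n| < 1 := by exact_mod_cast hs
  have h0 : n = 0 := Int.abs_lt_one_iff.1 this
  rw [h0]; simp

lemma coe_inj_small {s s' : ℝ} {θ : AddCircle (1 : ℝ)}
    (h : θ + (s : AddCircle (1 : ℝ)) = θ + (s' : AddCircle (1 : ℝ))) (hs : |s - s'| < 1) :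
    s = s' := by
  have h1 : ((s - s' : ℝ) : AddCircle (1 : ℝ)) = 0 := by
    rw [AddCircle.coe_sub, add_left_cancel h, sub_self]
  linarith [coe_small h1 hs]

/-! ### the cuts -/

variable (F : Set Cyl)

/-- heights of a cut -/
def J (α : Option F) : Set ℝ := {T | (ang F α, T) ∈ arc F α}

variable {F}

lemma mem_J_some {f : F} {T : ℝ} : T ∈ J F (some f) ↔ f.1.2 < T ∧
    ∀ f' ∈ F, f'.1 = f.1.1 → f.1.2 < f'.2 → T < f'.2 := by
  constructor
  · intro h; exact ⟨h.2.1, h.2.2⟩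
  · intro h; exact ⟨rfl, h.1, h.2⟩

lemma mem_J_none {T : ℝ} : T ∈ J F none ↔ ∀ f ∈ F, f.1 = 0 → T < f.2 := by
  constructor
  · intro h; exact h.2
  · intro h; exact ⟨rfl, h⟩

lemma arc_ang {α : Option F} {y : Cyl} (h : y ∈ arc F α) : y.1 = ang F α := by
  cases α with
  | none => exact h.1
  | some f => exact h.1

lemma arc_J {α : Option F} {y : Cyl} (h : y ∈ arc F α) : y.2 ∈ J F α := by
  show (ang F α, y.2) ∈ arc F α
  rw [← arc_ang h]
  exact h

lemma J_arc {α : Option F} {y : Cyl} (h1 : y.1 = ang F α) (h : y.2 ∈ J F α) : y ∈ arc F α := by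
  have h' : (ang F α, y.2) ∈ arc F α := h
  rw [← h1] at h'
  exact h'

lemma arc_notF {α : Option F} {y : Cyl} (h : y ∈ arc F α) : y ∉ F := by
  intro hy
  cases α with
  | none => exact lt_irrefl _ (h.2 y hy h.1)
  | some f => exact lt_irrefl _ (h.2.2 y hy h.1 h.2.1)

lemma arc_unique {α β : Option F} {T : ℝ} (hang : ang F α = ang F β) (h1 : T ∈ J F α)
    (h2 : T ∈ J F β) : α = β := by
  cases α with
  | none =>
    cases β with
    | none => rfl
    | some f =>
      exfalso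
      rw [mem_J_none] at h1
      rw [mem_J_some] at h2
      have h3 := h1 f.1 f.2 hang.symm
      linarith [h2.1]
  | some f =>
    cases β with
    | none =>
      exfalso
      rw [mem_J_some] at h1
      rw [mem_J_none] at h2
      have h3 := h2 f.1 f.2 hang
      linarith [h1.1]
    | some f' =>
      rw [mem_J_some] at h1 h2
      have hang' : f.1.1 = f'.1.1 := hang
      rcases lt_trichotomy f.1.2 f'.1.2 with h | h | h
      · exfalso
        have := h1.2 f'.1 f'.2 hang'.symm h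
        linarith [h2.1]
      · have : f = f' := Subtype.ext (Prod.ext hang' h)
        rw [this]
      · exfalso
        have := h2.2 f.1 f.2 hang' h
        linarith [h1.1]

lemma mem_cut0 (hF : F.Finite) {y : Cyl} :
    y ∈ cut0 F ↔ y.1 ≠ 0 ∧ ∀ f ∈ F, f.1 = y.1 → y.2 < f.2 := by
  constructor
  · rintro ⟨hyF, hy⟩
    have key : ∀ f ∈ F, f.1 = y.1 → f.2 ≤ y.2 → False := by
      intro f hf hfy hle
      -- highest puncture below y
      have hfin : {f' | f' ∈ F ∧ f'.1 = y.1 ∧ f'.2 ≤ y.2}.Finite :=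
        hF.subset fun f' h => h.1
      obtain ⟨g, hg, hmax⟩ := Set.exists_max_image _ (fun f' : Cyl => f'.2) hfin ⟨f, hf, hfy, hle⟩
      apply hy (some ⟨g, hg.1⟩)
      refine ⟨hg.2.1.symm, ?_, ?_⟩
      · rcases hg.2.2.lt_or_eq with h | h
        · exact h
        · exfalso
          apply hyF
          have : g = y := Prod.ext hg.2.1 h
          rw [← this]; exact hg.1
      · intro f' hf' hang hlt
        by_contra hcon
        push Not at hcon
        have := hmax f' ⟨hf', hang.trans hg.2.1, hcon⟩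
        exact absurd hlt (not_lt.2 this)
    constructor
    · intro h0
      by_cases hex : ∃ f ∈ F, f.1 = 0 ∧ f.2 ≤ y.2
      · obtain ⟨f, hf, hf0, hle⟩ := hex
        exact key f hf (hf0.trans h0.symm) hle
      · push Not at hex
        exact hy none ⟨h0, hex⟩
    · intro f hf hfy
      by_contra hcon
      push Not at hcon
      exact key f hf hfy hcon
  · rintro ⟨h0, hy⟩
    refine ⟨fun hF => lt_irrefl _ (hy y hF rfl), ?_⟩
    intro α hα
    cases α with
    | none => exact h0 hα.1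
    | some f => exact absurd (hy f.1 f.2 hα.1.symm) (not_lt.2 hα.2.1.le)

/-! ### the width -/

/-- admissible widths -/
def Eta (F : Set Cyl) (η : ℝ) : Prop := 0 < η ∧ η < 1 / 4 ∧
  ∀ (α β : Option F) (s s' : ℝ), |s| < η → |s'| < η →
    ang F α + (s : AddCircle (1 : ℝ)) = ang F β + (s' : AddCircle (1 : ℝ)) → ang F α = ang F β

lemma exists_eta (hF : F.Finite) : ∃ η, Eta F η := by
  have : Finite F := hF
  have h1 : ∀ α β : Option F, ∀ᶠ η in 𝓝[>] (0 : ℝ), ∀ (s s' : ℝ), |s| < η → |s'| < η →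
      ang F α + (s : AddCircle (1 : ℝ)) = ang F β + (s' : AddCircle (1 : ℝ)) →
        ang F α = ang F β := by
    intro α β
    by_cases hab : ang F α = ang F β
    · exact Eventually.of_forall fun _ _ _ _ _ _ => hab
    · have hpos : 0 < ‖ang F α - ang F β‖ / 2 := by
        have : 0 < ‖ang F α - ang F β‖ := norm_pos_iff.2 (sub_ne_zero.2 hab)
        linarith
      have h2 : ∀ᶠ η in 𝓝[>] (0 : ℝ), η < ‖ang F α - ang F β‖ / 2 :=
        nhdsWithin_le_nhds (gt_mem_nhds hpos)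
      filter_upwards [h2] with η hη s s' hs hs' he
      exfalso
      have e : ang F α - ang F β = ((s' - s : ℝ) : AddCircle (1 : ℝ)) := by
        rw [AddCircle.coe_sub, sub_eq_sub_iff_add_eq_add, he, add_comm]
      have h3 : ‖((s' - s : ℝ) : AddCircle (1 : ℝ))‖ ≤ ‖s' - s‖ :=
        QuotientAddGroup.norm_mk_le_norm
      rw [← e, Real.norm_eq_abs] at h3
      have h4 : |s' - s| ≤ |s'| + |s| := abs_sub _ _
      linarith
  have h2 : ∀ᶠ η in 𝓝[>] (0 : ℝ), ∀ α β : Option F, ∀ (s s' : ℝ), |s| < η → |s'| < η →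
      ang F α + (s : AddCircle (1 : ℝ)) = ang F β + (s' : AddCircle (1 : ℝ)) →
        ang F α = ang F β := by
    rw [Filter.eventually_all]
    intro α
    rw [Filter.eventually_all]
    exact h1 α
  have h3 : ∀ᶠ η in 𝓝[>] (0 : ℝ), η < 1 / 4 := nhdsWithin_le_nhds (gt_mem_nhds (by norm_num))
  obtain ⟨η, ⟨ha, hb⟩, hc⟩ := ((h2.and h3).and self_mem_nhdsWithin).exists
  exact ⟨η, hc, hb, ha⟩

/-! ### boxes -/

/-- boxes over an interval of angles -/
def B (F : Set Cyl) (α : Option F) (I : Set ℝ) : Set Cyl :=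
  {y | (∃ s ∈ I, y.1 = ang F α + (s : AddCircle (1 : ℝ))) ∧ y.2 ∈ J F α}

lemma bx_eq (η : ℝ) (α : Option F) : bx F η α = B F α (Ioo (-η) η) := by
  ext y
  constructor
  · rintro ⟨⟨s, hs, h1⟩, h2⟩
    exact ⟨⟨s, abs_lt.1 hs, h1⟩, h2⟩
  · rintro ⟨⟨s, hs, h1⟩, h2⟩
    exact ⟨⟨s, abs_lt.2 hs, h1⟩, h2⟩

lemma bxr_eq (η : ℝ) (α : Option F) : bxr F η α = B F α (Ioo 0 η) := by
  ext y
  constructor
  · rintro ⟨⟨s, hs, hs', h1⟩, h2⟩
    exact ⟨⟨s, ⟨hs, hs'⟩, h1⟩, h2⟩
  · rintro ⟨⟨s, hs, h1⟩, h2⟩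
    exact ⟨⟨s, hs.1, hs.2, h1⟩, h2⟩

lemma B_mono {α : Option F} {I I' : Set ℝ} (h : I ⊆ I') : B F α I ⊆ B F α I' := by
  rintro y ⟨⟨s, hs, h1⟩, h2⟩
  exact ⟨⟨s, h hs, h1⟩, h2⟩

lemma arc_B {α : Option F} {y : Cyl} {I : Set ℝ} (h0 : (0 : ℝ) ∈ I) (h : y ∈ arc F α) :
    y ∈ B F α I :=
  ⟨⟨0, h0, by rw [arc_ang h]; simp⟩, arc_J h⟩

lemma B_unique {η : ℝ} (hη : Eta F η) {α β : Option F} {y : Cyl}
    (h1 : y ∈ B F α (Ioo (-η) η)) (h2 : y ∈ B F β (Ioo (-η) η)) : α = β := by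
  obtain ⟨⟨s, hs, e1⟩, j1⟩ := h1
  obtain ⟨⟨s', hs', e2⟩, j2⟩ := h2
  exact arc_unique (hη.2.2 α β s s' (abs_lt.2 hs) (abs_lt.2 hs') (e1.symm.trans e2)) j1 j2

lemma B_notF {η : ℝ} (hη : Eta F η) {α : Option F} {y : Cyl}
    (h1 : y ∈ B F α (Ioo (-η) η)) : y ∉ F := by
  intro hy
  obtain ⟨⟨s, hs, e1⟩, j1⟩ := h1
  have h0 : |(0 : ℝ)| < η := by rw [abs_zero]; exact hη.1
  have := hη.2.2 α (some ⟨y, hy⟩) s 0 (abs_lt.2 hs) h0 (by
    rw [← e1]; show y.1 = y.1 + _; simp)
  have h2 : y.1 = ang F α := this.symm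
  exact arc_notF (J_arc h2 j1) hy

lemma B_cut0 {η : ℝ} (hη : Eta F η) {α : Option F} {y : Cyl}
    (h1 : y ∈ B F α (Ioo (-η) η)) : y ∈ cut0 F ↔ y.1 ≠ ang F α := by
  constructor
  · intro h h2
    exact h.2 α (J_arc h2 h1.2)
  · intro h
    refine ⟨B_notF hη h1, ?_⟩
    intro β hβ
    have : α = β := B_unique hη h1 (arc_B ⟨by linarith [hη.1], hη.1⟩ hβ)
    subst this
    exact h (arc_ang hβ)

lemma J_open (hF : F.Finite) (α : Option F) : IsOpen (J F α) := by
  cases α with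
  | none =>
    have : J F none = ⋂ f ∈ F, {T : ℝ | f.1 = 0 → T < f.2} := by
      ext T
      rw [mem_J_none]
      simp
    rw [this]
    apply hF.isOpen_biInter
    intro f _
    by_cases h : f.1 = 0
    · simp only [h, forall_const]
      exact isOpen_Iio
    · simp [h]
  | some f =>
    have : J F (some f) = Ioi f.1.2 ∩ ⋂ f' ∈ F, {T : ℝ | f'.1 = f.1.1 → f.1.2 < f'.2 → T < f'.2} := by
      ext T
      rw [mem_J_some]
      simp
    rw [this]
    apply isOpen_Ioi.inter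
    apply hF.isOpen_biInter
    intro f' _
    by_cases h : f'.1 = f.1.1
    · by_cases h' : f.1.2 < f'.2
      · simp only [h, h', forall_const]
        exact isOpen_Iio
      · simp [h']
    · simp [h]

lemma J_nonempty (hF : F.Finite) (α : Option F) : (J F α).Nonempty := by
  cases α with
  | none =>
    obtain ⟨m, hm⟩ := (hF.image Prod.snd).bddBelow
    refine ⟨m - 1, ?_⟩
    rw [mem_J_none]
    intro f hf _
    have := hm ⟨f, hf, rfl⟩
    linarith
  | some f =>
    have h1 : ∀ᶠ T in 𝓝[>] f.1.2, ∀ f' ∈ F, f'.1 = f.1.1 → f.1.2 < f'.2 → T < f'.2 := by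
      rw [Filter.eventually_all_finite hF]
      intro f' _
      by_cases h' : f.1.2 < f'.2
      · filter_upwards [nhdsWithin_le_nhds (gt_mem_nhds h')] with T hT _ _ using hT
      · exact Eventually.of_forall fun _ _ h => absurd h h'
    obtain ⟨T, hT, hT'⟩ := (h1.and self_mem_nhdsWithin).exists
    exact ⟨T, mem_J_some.2 ⟨hT', hT⟩⟩

lemma J_convex (α : Option F) : Convex ℝ (J F α) := by
  apply Set.OrdConnected.convex
  constructor
  intro x hx y hy z hz
  cases α with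
  | none =>
    rw [mem_J_none] at *
    intro f hf h0
    exact lt_of_le_of_lt hz.2 (hy f hf h0)
  | some f =>
    rw [mem_J_some] at *
    exact ⟨lt_of_lt_of_le hx.1 hz.1, fun f' hf' h1 h2 => lt_of_le_of_lt hz.2 (hy.2 f' hf' h1 h2)⟩

lemma B_open (hF : F.Finite) (α : Option F) {I : Set ℝ} (hI : IsOpen I) :
    IsOpen (B F α I) := by
  have h1 : IsOpen ((fun s : ℝ => (s : AddCircle (1 : ℝ))) '' I) :=
    QuotientAddGroup.isOpenMap_coe I hI
  have h2 : B F α I = (fun y : Cyl => y.1 - ang F α) ⁻¹' ((fun s : ℝ => (s : AddCircle (1 : ℝ))) '' I)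
      ∩ Prod.snd ⁻¹' (J F α) := by
    ext y
    constructor
    · rintro ⟨⟨s, hs, h⟩, hJ⟩
      exact ⟨⟨s, hs, by show (s : AddCircle (1 : ℝ)) = y.1 - ang F α; rw [h]; simp⟩, hJ⟩
    · rintro ⟨⟨s, hs, h⟩, hJ⟩
      refine ⟨⟨s, hs, ?_⟩, hJ⟩
      have h' : (s : AddCircle (1 : ℝ)) = y.1 - ang F α := h
      rw [h']; simp
  rw [h2]
  exact (h1.preimage (by fun_prop)).inter ((J_open hF α).preimage continuous_snd)

lemma B_pathConnected (hF : F.Finite) (α : Option F) {I : Set ℝ} (hI : Convex ℝ I)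
    (hne : I.Nonempty) : IsPathConnected (B F α I) := by
  have h1 : IsPathConnected (I ×ˢ J F α) :=
    (hI.prod (J_convex α)).isPathConnected (hne.prod (J_nonempty hF α))
  have h2 : B F α I = (fun p : ℝ × ℝ => ((ang F α + (p.1 : AddCircle (1 : ℝ)), p.2) : Cyl)) ''
      (I ×ˢ J F α) := by
    ext y
    constructor
    · rintro ⟨⟨s, hs, h⟩, hJ⟩
      exact ⟨(s, y.2), ⟨hs, hJ⟩, Prod.ext h.symm rfl⟩
    · rintro ⟨p, ⟨h1, h2⟩, rfl⟩
      exact ⟨⟨p.1, h1, rfl⟩, h2⟩
  rw [h2]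
  apply h1.image
  have : Continuous (fun s : ℝ => (s : AddCircle (1 : ℝ))) := AddCircle.continuous_mk' 1
  fun_prop

lemma cut0_open (hF : F.Finite) : IsOpen (cut0 F) := by
  have h : cut0 F = {y : Cyl | y.1 ≠ 0} ∩ ⋂ f ∈ F, {y : Cyl | f.1 = y.1 ∧ f.2 ≤ y.2}ᶜ := by
    ext y
    rw [mem_cut0 hF]
    simp only [ne_eq, mem_inter_iff, Set.mem_ofPred_eq, mem_iInter, mem_compl_iff, not_and, not_le]
  rw [h]
  apply IsOpen.inter
  · exact isOpen_ne_fun continuous_fst continuous_const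
  · apply hF.isOpen_biInter
    intro f _
    rw [isOpen_compl_iff]
    exact (isClosed_eq continuous_const continuous_fst).inter
      (isClosed_le continuous_const continuous_snd)

/-! ### simple connectedness -/

lemma sc_of (S : Set Cyl) (S' : Set Cyl) (hS : S ⊆ S') (H : ℝ → Cyl → Cyl)
    (hH : ContinuousOn (fun p : ℝ × Cyl => H p.1 p.2) (Icc 0 1 ×ˢ S))
    (hmem : ∀ t ∈ Icc (0 : ℝ) 1, ∀ y ∈ S, H t y ∈ S) (h0 : ∀ y ∈ S, H 0 y = y) (c : Cyl)
    (hc : c ∈ S) (h1 : ∀ y ∈ S, H 1 y = c) :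
    SimplyConnectedSpace {y : S' | (y : Cyl) ∈ S} := by
  have : ContractibleSpace {y : S' | (y : Cyl) ∈ S} := by
    rw [contractible_iff_id_nullhomotopic]
    refine ⟨⟨⟨c, hS hc⟩, hc⟩, ⟨?_⟩⟩
    refine
      { toFun := fun p => ⟨⟨H p.1 p.2.1.1, hS (hmem _ p.1.2 _ p.2.2)⟩, hmem _ p.1.2 _ p.2.2⟩
        continuous_toFun := ?_
        map_zero_left := ?_
        map_one_left := ?_ }
    · refine Continuous.subtype_mk (Continuous.subtype_mk ?_ _) _
      have h2 : Continuous (fun p : unitInterval × {y : S' | (y : Cyl) ∈ S} =>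
          (((p.1 : ℝ), (p.2.1.1 : Cyl)) : ℝ × Cyl)) := by fun_prop
      exact hH.comp_continuous h2 fun p => ⟨p.1.2, p.2.2⟩
    · intro y
      apply Subtype.ext
      apply Subtype.ext
      exact h0 _ y.2
    · intro y
      apply Subtype.ext
      apply Subtype.ext
      exact h1 _ y.2
  exact SimplyConnectedSpace.ofContractible _

lemma sc_B (hF : F.Finite) {η : ℝ} (hη : Eta F η) (α : Option F) :
    SimplyConnectedSpace {y : (Fᶜ : Set Cyl) | (y : Cyl) ∈ B F α (Ioo (-η) η)} := by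
  obtain ⟨T0, hT0⟩ := J_nonempty hF α
  have hη1 := hη.1
  have hη2 := hη.2.1
  have hs : ∀ y ∈ B F α (Ioo (-η) η), rc (-(1 / 2)) (y.1 - ang F α) ∈ Ioo (-η) η := by
    rintro y ⟨⟨s, hs, h⟩, hJ⟩
    have e : y.1 - ang F α = (s : AddCircle (1 : ℝ)) := by rw [h]; simp
    rw [e, rc_coe ⟨by linarith [hs.1], by linarith [hs.2]⟩]
    exact hs
  have hne : ∀ y ∈ B F α (Ioo (-η) η),
      y.1 - ang F α ≠ ((-(1 / 2) : ℝ) : AddCircle (1 : ℝ)) := by
    intro y hy he
    have h1 := hs y hy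
    rw [he, rc_coe ⟨le_rfl, by norm_num⟩] at h1
    linarith [h1.1]
  refine sc_of (B F α (Ioo (-η) η)) Fᶜ (fun y hy => B_notF hη hy)
    (fun t y => (ang F α + (((1 - t) * rc (-(1 / 2)) (y.1 - ang F α) : ℝ) : AddCircle (1 : ℝ)),
      (1 - t) * y.2 + t * T0)) ?_ ?_ ?_ (ang F α, T0) ?_ ?_
  · have hmk : Continuous (fun s : ℝ => (s : AddCircle (1 : ℝ))) := AddCircle.continuous_mk' 1
    apply ContinuousOn.prodMk
    · apply ContinuousOn.add continuousOn_const
      apply hmk.comp_continuousOn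
      apply ContinuousOn.mul
      · fun_prop
      · intro p hp
        have hc := continuousAt_rc (hne p.2 hp.2)
        have h2 : ContinuousAt (fun p : ℝ × Cyl => p.2.1 - ang F α) p := by fun_prop
        exact (ContinuousAt.comp (f := fun p : ℝ × Cyl => p.2.1 - ang F α)
          (g := rc (-(1 / 2))) hc h2).continuousWithinAt
    · fun_prop
  · intro t ht y hy
    refine ⟨⟨_, ?_, rfl⟩, ?_⟩
    · have h1 := hs y hy
      generalize rc (-(1 / 2)) (y.1 - ang F α) = s at h1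
      have h2 : |s| < η := abs_lt.2 h1
      have h3 : |(1 - t) * s| < η := by
        rw [abs_mul, abs_of_nonneg (by linarith [ht.2] : (0 : ℝ) ≤ 1 - t)]
        nlinarith [abs_nonneg s, ht.1, ht.2]
      exact abs_lt.1 h3
    · have := J_convex α hy.2 hT0 (show (0 : ℝ) ≤ 1 - t by linarith [ht.2]) ht.1 (by ring)
      simpa [smul_eq_mul] using this
  · intro y hy
    apply Prod.ext
    · show ang F α + (((1 - 0) * rc (-(1 / 2)) (y.1 - ang F α) : ℝ) : AddCircle (1 : ℝ)) = y.1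
      rw [sub_zero, one_mul, coe_rc]
      simp
    · show (1 - 0) * y.2 + 0 * T0 = y.2
      ring
  · exact ⟨⟨0, ⟨by linarith, by linarith⟩, by simp⟩, hT0⟩
  · intro y hy
    apply Prod.ext
    · show ang F α + (((1 - 1) * rc (-(1 / 2)) (y.1 - ang F α) : ℝ) : AddCircle (1 : ℝ)) = ang F α
      simp
    · show (1 - 1) * y.2 + 1 * T0 = T0
      ring

lemma sc_cut0 (hF : F.Finite) :
    SimplyConnectedSpace {y : (Fᶜ : Set Cyl) | (y : Cyl) ∈ cut0 F} := by
  obtain ⟨m, hm⟩ := (hF.image Prod.snd).bddBelow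
  set L := m - 1 with hL
  have hLf : ∀ f ∈ F, L < f.2 := by
    intro f hf
    have := hm ⟨f, hf, rfl⟩
    rw [hL]
    linarith
  have hne : ∀ y ∈ cut0 F, y.1 ≠ ((0 : ℝ) : AddCircle (1 : ℝ)) := by
    intro y hy
    have := ((mem_cut0 hF).1 hy).1
    simpa using this
  -- the two parameters
  refine sc_of (cut0 F) Fᶜ (fun y hy => hy.1)
    (fun t y => (((rc 0 y.1 + max 0 (2 * t - 1) * (1 / 2 - rc 0 y.1) : ℝ) : AddCircle (1 : ℝ)),
      (y.2 - min 1 (2 * t) * max 0 (y.2 - L)) +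
        max 0 (2 * t - 1) * (L - (y.2 - min 1 (2 * t) * max 0 (y.2 - L))))) ?_ ?_ ?_
    (((1 / 2 : ℝ) : AddCircle (1 : ℝ)), L) ?_ ?_
  · have hmk : Continuous (fun s : ℝ => (s : AddCircle (1 : ℝ))) := AddCircle.continuous_mk' 1
    have hrc : ContinuousOn (fun p : ℝ × Cyl => rc 0 p.2.1) (Icc 0 1 ×ˢ cut0 F) := by
      intro p hp
      have hc := continuousAt_rc (hne p.2 hp.2)
      have h2 : ContinuousAt (fun p : ℝ × Cyl => p.2.1) p := by fun_prop
      exact (ContinuousAt.comp (f := fun p : ℝ × Cyl => p.2.1)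
        (g := rc 0) hc h2).continuousWithinAt
    apply ContinuousOn.prodMk
    · apply hmk.comp_continuousOn
      apply hrc.add
      apply ContinuousOn.mul
      · fun_prop
      · exact continuousOn_const.sub hrc
    · fun_prop
  · intro t ht y hy
    have hy' := (mem_cut0 hF).1 hy
    have hr0 : 0 < rc 0 y.1 := rc_gt (hne y hy)
    have hr1 : rc 0 y.1 < 1 := by have := (rc_mem 0 y.1).2; linarith
    rw [mem_cut0 hF]
    have hne0 : ∀ x : ℝ, 0 < x → x < 1 → (x : AddCircle (1 : ℝ)) ≠ 0 := by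
      intro x h1 h2 h3
      have := coe_small h3 (by rw [abs_of_pos h1]; exact h2)
      linarith
    rcases le_total t (1 / 2) with h | h
    · have e1 : max 0 (2 * t - 1) = 0 := max_eq_left (by linarith)
      simp only [e1, zero_mul, add_zero]
      rw [coe_rc]
      refine ⟨hy'.1, ?_⟩
      intro f hf hfy
      have h3 := hy'.2 f hf hfy
      have h4 : 0 ≤ min 1 (2 * t) * max 0 (y.2 - L) :=
        mul_nonneg (le_min zero_le_one (by linarith [ht.1])) (le_max_left _ _)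
      show y.2 - min 1 (2 * t) * max 0 (y.2 - L) < f.2
      linarith
    · have e1 : max 0 (2 * t - 1) = 2 * t - 1 := max_eq_right (by linarith)
      have e2 : min 1 (2 * t) = 1 := min_eq_left (by linarith)
      simp only [e1, e2, one_mul]
      have ha : 0 ≤ 2 * t - 1 := by linarith
      have hb : 2 * t - 1 ≤ 1 := by linarith [ht.2]
      generalize 2 * t - 1 = a at ha hb
      constructor
      · apply hne0
        · nlinarith
        · nlinarith
      · intro f hf _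
        have h5 : y.2 - max 0 (y.2 - L) ≤ L := by
          have := le_max_right 0 (y.2 - L)
          linarith
        have h6 := hLf f hf
        show (y.2 - max 0 (y.2 - L)) + a * (L - (y.2 - max 0 (y.2 - L))) < f.2
        nlinarith
  · intro y hy
    have e1 : max (0 : ℝ) (2 * 0 - 1) = 0 := max_eq_left (by norm_num)
    have e2 : min (1 : ℝ) (2 * 0) = 0 := by norm_num
    simp only [e1, e2, zero_mul, add_zero, sub_zero]
    rw [coe_rc]
  · rw [mem_cut0 hF]
    refine ⟨?_, fun f hf _ => hLf f hf⟩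
    intro h3
    have := coe_small h3 (by rw [abs_of_pos] <;> norm_num)
    norm_num at this
  · intro y hy
    have e1 : max (0 : ℝ) (2 * 1 - 1) = 1 := by norm_num
    have e2 : min (1 : ℝ) (2 * 1) = 1 := by norm_num
    simp only [e1, e2, one_mul]
    apply Prod.ext
    · show ((rc 0 y.1 + (1 / 2 - rc 0 y.1) : ℝ) : AddCircle (1 : ℝ)) = _
      congr 1
      ring
    · show (y.2 - max 0 (y.2 - L)) + (L - (y.2 - max 0 (y.2 - L))) = L
      ring

/-! ### lifting paths to a subtype -/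

section Lift

variable {Z : Type} [TopologicalSpace Z] {S : Set Z} {x y z : Z}

/-- a path inside `S` as a path of the subtype -/
def lft (γ : Path x y) (h : ∀ t, γ t ∈ S) (hx : x ∈ S) (hy : y ∈ S) :
    Path (⟨x, hx⟩ : S) ⟨y, hy⟩ where
  toFun t := ⟨γ t, h t⟩
  continuous_toFun := Continuous.subtype_mk γ.continuous _
  source' := Subtype.ext γ.source
  target' := Subtype.ext γ.target

lemma homIn_iff (γ γ' : Path x y) (h : ∀ t, γ t ∈ S) (h' : ∀ t, γ' t ∈ S) (hx : x ∈ S)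
    (hy : y ∈ S) : HomIn S γ γ' ↔ (lft γ h hx hy).Homotopic (lft γ' h' hx hy) := by
  constructor
  · rintro ⟨H, hH⟩
    refine ⟨{ toFun := fun p => ⟨H p, hH p⟩
              continuous_toFun := Continuous.subtype_mk H.continuous _
              map_zero_left := fun t => Subtype.ext (H.map_zero_left t)
              map_one_left := fun t => Subtype.ext (H.map_one_left t)
              prop' := fun t s hs => Subtype.ext (H.prop' t s hs) }⟩
  · rintro ⟨H⟩
    refine ⟨{ toFun := fun p => (H p : Z)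
              continuous_toFun := continuous_subtype_val.comp H.continuous
              map_zero_left := fun t => congrArg Subtype.val (H.map_zero_left t)
              map_one_left := fun t => congrArg Subtype.val (H.map_one_left t)
              prop' := fun t s hs => congrArg Subtype.val (H.prop' t s hs) }, ?_⟩
    intro p
    exact (H p).2

lemma lft_trans (γ : Path x y) (γ' : Path y z) (h : ∀ t, γ t ∈ S) (h' : ∀ t, γ' t ∈ S)
    (h'' : ∀ t, (γ.trans γ') t ∈ S) (hx : x ∈ S) (hy : y ∈ S) (hz : z ∈ S) :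
    lft (γ.trans γ') h'' hx hz = (lft γ h hx hy).trans (lft γ' h' hy hz) := by
  ext t
  show (γ.trans γ') t = (((lft γ h hx hy).trans (lft γ' h' hy hz)) t : Z)
  rw [Path.trans_apply, Path.trans_apply]
  split_ifs
  · rfl
  · rfl

lemma trans_mem {γ : Path x y} {γ' : Path y z} (h : ∀ t, γ t ∈ S) (h' : ∀ t, γ' t ∈ S) :
    ∀ t, (γ.trans γ') t ∈ S := by
  intro t
  rw [Path.trans_apply]
  split_ifs
  · exact h _
  · exact h' _

end Lift

end CylSys

open CylSys in
theorem cylS (hgos : GosStmt) : CylSStmt := by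
  classical
  intro F hF
  obtain ⟨η, hη⟩ := exists_eta hF
  have hη1 := hη.1
  have hη2 := hη.2.1
  have sub1 : Ioo (-η) 0 ⊆ Ioo (-η) η := Ioo_subset_Ioo le_rfl hη1.le
  have sub2 : Ioo 0 η ⊆ Ioo (-η) η := Ioo_subset_Ioo (by linarith) le_rfl
  have bF : ∀ α, B F α (Ioo (-η) η) ⊆ Fᶜ := fun α y hy => B_notF hη hy
  obtain ⟨ω, w1, w2, w3, w4, w5, w6⟩ := hgos (Fᶜ : Set Cyl) (Option F)
    {y | (y : Cyl) ∈ cut0 F}
    (fun α => {y | (y : Cyl) ∈ B F α (Ioo (-η) η)})
    (fun α => {y | (y : Cyl) ∈ B F α (Ioo (-η) 0)})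
    (fun α => {y | (y : Cyl) ∈ B F α (Ioo 0 η)})
    ((cut0_open hF).preimage continuous_subtype_val)
    (fun α => (B_open hF α isOpen_Ioo).preimage continuous_subtype_val)
    (fun α => (B_open hF α isOpen_Ioo).preimage continuous_subtype_val)
    (fun α => (B_open hF α isOpen_Ioo).preimage continuous_subtype_val)
    (by
      intro y
      by_cases h : (y : Cyl) ∈ cut0 F
      · exact Or.inl h
      · right
        by_contra hcon
        push Not at hcon
        apply h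
        refine ⟨y.2, fun α hα => hcon α ?_⟩
        exact arc_B ⟨by linarith, hη1⟩ hα)
    (by
      intro α β hne
      rw [Set.disjoint_left]
      intro y h1 h2
      exact hne (B_unique hη h1 h2))
    (by
      intro α
      ext y
      constructor
      · rintro ⟨h1, h2⟩
        have h3 := (B_cut0 hη h1).1 h2
        obtain ⟨⟨s, hs, e⟩, hJ⟩ := h1
        rcases lt_trichotomy s 0 with h | h | h
        · exact Or.inl ⟨⟨s, ⟨hs.1, h⟩, e⟩, hJ⟩
        · exfalso
          apply h3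
          rw [e, h]
          simp
        · exact Or.inr ⟨⟨s, ⟨h, hs.2⟩, e⟩, hJ⟩
      · have key : ∀ s : ℝ, s ≠ 0 → |s| < η → (y : Cyl).1 = ang F α + (s : AddCircle (1 : ℝ)) →
            (y : Cyl).2 ∈ J F α →
            y ∈ {y : (Fᶜ : Set Cyl) | (y : Cyl) ∈ B F α (Ioo (-η) η)} ∩
              {y : (Fᶜ : Set Cyl) | (y : Cyl) ∈ cut0 F} := by
          intro s hs0 hs e hJ
          have h1 : (y : Cyl) ∈ B F α (Ioo (-η) η) := ⟨⟨s, abs_lt.1 hs, e⟩, hJ⟩
          refine ⟨h1, (B_cut0 hη h1).2 ?_⟩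
          intro h
          apply hs0
          rw [h] at e
          have e' : ang F α + ((0 : ℝ) : AddCircle (1 : ℝ)) =
              ang F α + (s : AddCircle (1 : ℝ)) := by
            rw [← e]; simp
          have := coe_inj_small e' (by rw [zero_sub, abs_neg]; linarith)
          exact this.symm
        rintro (⟨⟨s, hs, e⟩, hJ⟩ | ⟨⟨s, hs, e⟩, hJ⟩)
        · exact key s hs.2.ne (abs_lt.2 ⟨hs.1, by linarith [hs.2]⟩) e hJ
        · exact key s hs.1.ne' (abs_lt.2 ⟨by linarith [hs.1], hs.2⟩) e hJ)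
    (by
      intro α
      rw [Set.disjoint_left]
      rintro y ⟨⟨s, hs, e⟩, _⟩ ⟨⟨s', hs', e'⟩, _⟩
      have := coe_inj_small (e.symm.trans e') (by
        rw [abs_lt]
        constructor <;> linarith [hs.1, hs.2, hs'.1, hs'.2])
      linarith [hs.2, hs'.1])
    (fun α => (B_pathConnected hF α (convex_Ioo _ _) (nonempty_Ioo.2 (by linarith))).preimage_coe
      ((B_mono sub1).trans (bF α)))
    (fun α => (B_pathConnected hF α (convex_Ioo _ _) (nonempty_Ioo.2 (by linarith))).preimage_coe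
      ((B_mono sub2).trans (bF α)))
    (sc_cut0 hF)
    (fun α => sc_B hF hη α)
  -- the invariant
  have e0 : ∀ {x y : Cyl} (γ : Path x y), (∀ t, γ t ∈ Fᶜ) → x ∈ Fᶜ := by
    intro x y γ h
    have := h 0
    rwa [γ.source] at this
  have e1 : ∀ {x y : Cyl} (γ : Path x y), (∀ t, γ t ∈ Fᶜ) → y ∈ Fᶜ := by
    intro x y γ h
    have := h 1
    rwa [γ.target] at this
  let Ω : ∀ {x y : Cyl}, Path x y → FreeGroup (Option F) := fun {x y} γ =>
    if h : ∀ t, γ t ∈ Fᶜ then ω (lft γ h (e0 γ h) (e1 γ h)) else 1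
  have hΩ : ∀ {x y : Cyl} (γ : Path x y) (h : ∀ t, γ t ∈ Fᶜ) (hx : x ∈ Fᶜ) (hy : y ∈ Fᶜ),
      Ω γ = ω (lft γ h hx hy) := by
    intro x y γ h hx hy
    show (if h : ∀ t, γ t ∈ Fᶜ then ω (lft γ h (e0 γ h) (e1 γ h)) else 1) = _
    rw [dif_pos h]
  have hr : ∀ {x y : Cyl} {γ : Path x y} {S : Set Cyl}, range γ ⊆ S → ∀ t, γ t ∈ S :=
    fun h t => h ⟨t, rfl⟩
  have hsig : ∀ (α : Option F) (x : Cyl) (hx : x ∈ (Fᶜ : Set Cyl)),
      sig (fun α => {y : (Fᶜ : Set Cyl) | (y : Cyl) ∈ B F α (Ioo 0 η)}) α ⟨x, hx⟩ =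
        sig (bxr F η) α x := by
    intro α x hx
    unfold sig
    rw [bxr_eq]
    rfl
  refine ⟨η, @Ω, hη1, by linarith, ?_, ?_, ?_, ?_, ?_, ?_⟩
  · intro x y γ γ' h h'
    have hx := e0 γ (hr h)
    have hy := e1 γ (hr h)
    rw [hΩ γ (hr h) hx hy, hΩ γ' (hr h') hx hy, ← w1, homIn_iff γ γ' (hr h) (hr h') hx hy]
  · intro x y z γ γ' h h'
    have hx := e0 γ (hr h)
    have hy := e1 γ (hr h)
    have hz := e1 γ' (hr h')
    rw [hΩ γ (hr h) hx hy, hΩ γ' (hr h') hy hz, hΩ (γ.trans γ') (trans_mem (hr h) (hr h')) hx hz,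
      ← w2, lft_trans γ γ' (hr h) (hr h')]
  · intro x y γ h
    have h' : ∀ t, γ t ∈ Fᶜ := fun t => (hr h t).1
    rw [hΩ γ h' (e0 γ h') (e1 γ h')]
    apply w3
    rintro _ ⟨t, rfl⟩
    exact hr h t
  · intro α x y γ h
    have h1 : ∀ t, γ t ∈ B F α (Ioo (-η) η) := by
      intro t
      rw [← bx_eq]
      exact hr h t
    have h' : ∀ t, γ t ∈ Fᶜ := fun t => bF α (h1 t)
    rw [hΩ γ h' (e0 γ h') (e1 γ h'), w4 α _ _ _ (by
      rintro _ ⟨t, rfl⟩
      exact h1 t), hsig, hsig]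
  · intro B' x y γ h hd
    rw [hΩ γ (hr h) (e0 γ (hr h)) (e1 γ (hr h))]
    apply w5
    intro α hα
    rw [Set.disjoint_left]
    rintro _ ⟨t, rfl⟩ ⟨h1, h2⟩
    have h1' : γ t ∈ B F α (Ioo (-η) η) := h1
    have h2' : γ t ∉ cut0 F := h2
    have h3 : γ t ∈ arc F α := by
      rw [B_cut0 hη h1'] at h2'
      push Not at h2'
      exact J_arc h2' h1'.2
    exact Set.disjoint_left.1 (hd α hα) ⟨t, rfl⟩ h3
  · intro B' x y hx hy g hg
    obtain ⟨γ, hγ, hω⟩ := w6 B' ⟨x, hx.1⟩ ⟨y, hy.1⟩ hx hy g hg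
    have hmem : ∀ t, (γ.map continuous_subtype_val) t ∈ (Fᶜ : Set Cyl) := fun t => (γ t).2
    refine ⟨γ.map continuous_subtype_val, ?_, ?_, ?_⟩
    · rintro _ ⟨t, rfl⟩
      exact hmem t
    · intro α hα
      rw [Set.disjoint_left]
      rintro _ ⟨t, rfl⟩ h2
      have h2' : (γ t : Cyl) ∈ arc F α := h2
      rcases hγ ⟨t, rfl⟩ with h3 | h3
      · have h3' : (γ t : Cyl) ∈ cut0 F := h3
        exact h3'.2 α h2'
      · rw [mem_iUnion₂] at h3
        obtain ⟨β, hβ, h3⟩ := h3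
        have h3' : (γ t : Cyl) ∈ B F β (Ioo (-η) η) := h3
        have : α = β := B_unique hη (arc_B ⟨by linarith, hη1⟩ h2') h3'
        exact hα (this ▸ hβ)
    · rw [hΩ (γ.map continuous_subtype_val) hmem hx.1 hy.1]
      exact hω

theorem cyl2 (hgos : GosStmt) : Cyl2Stmt := by
  intro F hF
  obtain ⟨η, ω, h1, h2, h⟩ := cylS hgos F hF
  exact ⟨η, ω, h1, by linarith, h⟩

theorem cyl (hgos : GosStmt) : CylStmt := (cylS hgos).cylStmt

end AdT
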