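import Mathlib

/-!
# MP_e447a9_gt : flexible closed AdS 3-manifold with tachyons -- basic objects
-/

open Matrix Real Topology Filter Set

noncomputable section

namespace AdT

/-- Anti-de Sitter 3-space `SL(2,ℝ)` (the quadric `det = 1` in the 2 by 2 matrices). -/
abbrev SL : Type := Matrix.SpecialLinearGroup (Fin 2) ℝ

abbrev M2 : Type := Matrix (Fin 2) (Fin 2) ℝ

/-- `a t = diag(e^{t/2}, e^{-t/2})`; right multiplication by `a t` is the geodesic flow. -/
def a (t : ℝ) : SL := ⟨!![exp (t / 2), 0; 0, exp (-(t / 2))], by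
  simp [Matrix.det_fin_two, ← Real.exp_add]⟩

/-- A section transverse to the axis: `y (q + i r) = [[1 + q r, q], [r, 1]]`. -/
def y (w : ℂ) : SL := ⟨!![1 + w.re * w.im, w.re; w.im, 1], by
  simp [Matrix.det_fin_two]⟩

/-- The line vector with integral coordinates `(b, d, c)`. -/
def nm (b d c : ℝ) : M2 := !![b, d + c * √3; d - c * √3, -b]

/-- All lines: integral vectors with `b² + d² - 3 c² = 1`. -/
def Lines : Set M2 := {N | ∃ b d c : ℤ, b ^ 2 + d ^ 2 - 3 * c ^ 2 = 1 ∧ N = nm b d c}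

/-- Canonically oriented lines of colour `κ` (`true`: `b ≡ 1 (3)`, `false`: `d ≡ 1 (3)`). -/
def Can (κ : Bool) : Set M2 := {N | ∃ b d c : ℤ, b ^ 2 + d ^ 2 - 3 * c ^ 2 = 1 ∧
  (bif κ then b else d) % 3 = 1 ∧ N = nm b d c}

/-- The vertical line `diag(1,-1)`. -/
def Dm : M2 := nm 1 0 0

/-- The line perpendicular to `Dm` at the base point. -/
def Km : M2 := nm 0 1 0

/-- inner product `½ tr (N N')`. -/
def ip (N N' : M2) : ℝ := (N * N').trace / 2

/-- coordinates of `N` in the frame `x`. -/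
def fr (x : SL) (N : M2) : M2 := (↑(x⁻¹) : M2) * N * (x : M2)

/-- sinh of the signed distance from the base point of `x` to the line `N`. -/
def tau (x : SL) (N : M2) : ℝ := (fr x N 0 1 - fr x N 1 0) / 2

/-- derivative of `tau` along the geodesic flow. -/
def nu (x : SL) (N : M2) : ℝ := -(fr x N 0 1 + fr x N 1 0) / 2

/-- `sg x N = 1` and `tau = nu = 0` iff `x` is tangent to the oriented line `N`. -/
def sg (x : SL) (N : M2) : ℝ := fr x N 0 0

/-- half the side length of the right-angled hexagon: `sinh r0 = 1/√2`, `cosh (2 r0) = 2`. -/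
def r0 : ℝ := arsinh (1 / √2)

def s0 : ℝ := 2 * r0

def clamp (x : ℝ) : ℝ := max (-1) (min 1 x)

def m0 (ν : ℝ) : ℝ := max (-r0) (min r0 ν)

/-- real lift of `th` -/
def u0 (τ ν : ℝ) : ℝ := 1 / 2 + clamp (arsinh τ / m0 ν) / 2

/-- the contribution of one line, with values in `ℝ/ℤ` -/
def th (τ ν : ℝ) : AddCircle (1 : ℝ) := if ν = 0 then 0 else ((u0 τ ν : ℝ) : AddCircle (1 : ℝ))

/-- the lift of `th` to `ℝ/2ℤ` (off the origin) -/
def th2 (τ ν : ℝ) : AddCircle (2 : ℝ) :=
  if ν = 0 then (if 0 < τ then ((1 : ℝ) : AddCircle (2 : ℝ)) else 0)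
  else if 0 < ν then ((u0 τ ν : ℝ) : AddCircle (2 : ℝ))
  else ((u0 τ ν + 1 : ℝ) : AddCircle (2 : ℝ))

/-- the two circle valued functions -/
def Th (κ : Bool) (x : SL) : AddCircle (1 : ℝ) := ∑ᶠ N : Can κ, th (tau x N) (nu x N)

/-- frames not tangent to a line -/
def E : Set SL := {x | ∀ N ∈ Lines, ¬ (tau x N = 0 ∧ nu x N = 0)}

/-- the shape of elements of the lattice -/
def gm (a b c d : ℝ) : M2 := !![a + b * √3, 3 * c + d * √3; -(3 * c) + d * √3, a - b * √3]

lemma gm_mul (a b c d a' b' c' d' : ℝ) :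
    gm a b c d * gm a' b' c' d' =
      gm (a * a' + 3 * b * b' - 9 * c * c' + 3 * d * d')
        (a * b' + b * a' + 3 * c * d' - 3 * d * c')
        (a * c' + c * a' + b * d' - d * b')
        (a * d' + d * a' + 3 * b * c' - 3 * c * b') := by
  have h3 : √3 * √3 = (3 : ℝ) := Real.mul_self_sqrt (by norm_num)
  ext i j
  fin_cases i <;> fin_cases j <;> simp [gm, Matrix.mul_apply, Fin.sum_univ_two] <;>
    ring_nf <;> (try rw [Real.sq_sqrt (by norm_num : (0:ℝ) ≤ 3)]) <;> ring

end AdT
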