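import Pool.Agent.Helper88.AdT.Planar

/-!
Statements of the modules AT-* (atoroidality).
-/

open Matrix Real Topology Filter Set

noncomputable section

namespace AdT

/-! ## AT-1 fundamental group of a space glued from simply connected pieces along
simply connected collars (graph of spaces with trivial groups) -/

/-- two values: `of α` on `W`, `1` elsewhere -/
def sig {Y A : Type} (W : A → Set Y) (α : A) (y : Y) : FreeGroup A :=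
  open Classical in if y ∈ W α then FreeGroup.of α else 1

def GosStmt : Prop :=
  ∀ (Y A : Type) [TopologicalSpace Y] (U0 : Set Y) (U V W : A → Set Y),
    IsOpen U0 → (∀ α, IsOpen (U α)) → (∀ α, IsOpen (V α)) → (∀ α, IsOpen (W α)) →
    (∀ y, y ∈ U0 ∨ ∃ α, y ∈ U α) → (∀ α β, α ≠ β → Disjoint (U α) (U β)) →
    (∀ α, U α ∩ U0 = V α ∪ W α) → (∀ α, Disjoint (V α) (W α)) →
    (∀ α, IsPathConnected (V α)) → (∀ α, IsPathConnected (W α)) →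
    SimplyConnectedSpace U0 → (∀ α, SimplyConnectedSpace (U α)) →
    ∃ ω : ∀ {x y : Y}, Path x y → FreeGroup A,
      (∀ (x y : Y) (γ γ' : Path x y), γ.Homotopic γ' ↔ ω γ = ω γ') ∧
      (∀ (x y z : Y) (γ : Path x y) (γ' : Path y z), ω (γ.trans γ') = ω γ * ω γ') ∧
      (∀ (x y : Y) (γ : Path x y), range γ ⊆ U0 → ω γ = 1) ∧
      (∀ (α : A) (x y : Y) (γ : Path x y), range γ ⊆ U α → ω γ = (sig W α x)⁻¹ * sig W α y) ∧
      (∀ (B : Set A) (x y : Y) (γ : Path x y), (∀ α ∈ B, Disjoint (range γ) (U α \ U0)) →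
        ω γ ∈ Subgroup.closure (FreeGroup.of '' Bᶜ)) ∧
      (∀ (B : Set A) (x y : Y), x ∈ U0 → y ∈ U0 →
        ∀ g ∈ Subgroup.closure (FreeGroup.of '' B),
          ∃ γ : Path x y, range γ ⊆ U0 ∪ ⋃ α ∈ B, U α ∧ ω γ = g)

/-! ## AT-2 the annulus minus a finite set -/

/-- the standard annulus -/
abbrev Cyl : Type := AddCircle (1 : ℝ) × ℝ

/-- the cuts: for a puncture `f` the vertical segment above `f`, up to the next puncture;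
`none`: the part of the line `angle = 0` below all punctures on it -/
def arc (F : Set Cyl) : Option F → Set Cyl
  | some f => {y | y.1 = f.1.1 ∧ f.1.2 < y.2 ∧
      ∀ f' ∈ F, f'.1 = f.1.1 → f.1.2 < f'.2 → y.2 < f'.2}
  | none => {y | y.1 = 0 ∧ ∀ f ∈ F, f.1 = 0 → y.2 < f.2}

/-- angle of a cut -/
def ang (F : Set Cyl) : Option F → AddCircle (1 : ℝ)
  | some f => f.1.1
  | none => 0

/-- rectangular neighbourhood of a cut -/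
def bx (F : Set Cyl) (η : ℝ) (α : Option F) : Set Cyl :=
  {y | (∃ s : ℝ, |s| < η ∧ y.1 = ang F α + (s : AddCircle (1 : ℝ))) ∧ (ang F α, y.2) ∈ arc F α}

/-- right half of this neighbourhood -/
def bxr (F : Set Cyl) (η : ℝ) (α : Option F) : Set Cyl :=
  {y | (∃ s : ℝ, 0 < s ∧ s < η ∧ y.1 = ang F α + (s : AddCircle (1 : ℝ))) ∧
    (ang F α, y.2) ∈ arc F α}

/-- the annulus minus punctures and cuts -/
def cut0 (F : Set Cyl) : Set Cyl := {y | y ∉ F ∧ ∀ α : Option F, y ∉ arc F α}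

def CylStmt : Prop :=
  ∀ F : Set Cyl, F.Finite → ∃ (η : ℝ) (ω : ∀ {x y : Cyl}, Path x y → FreeGroup (Option F)),
    0 < η ∧
    (∀ (x y : Cyl) (γ γ' : Path x y), range γ ⊆ Fᶜ → range γ' ⊆ Fᶜ →
      (HomIn Fᶜ γ γ' ↔ ω γ = ω γ')) ∧
    (∀ (x y z : Cyl) (γ : Path x y) (γ' : Path y z), range γ ⊆ Fᶜ → range γ' ⊆ Fᶜ →
      ω (γ.trans γ') = ω γ * ω γ') ∧
    (∀ (x y : Cyl) (γ : Path x y), range γ ⊆ cut0 F → ω γ = 1) ∧
    (∀ (α : Option F) (x y : Cyl) (γ : Path x y), range γ ⊆ bx F η α →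
      ω γ = (sig (bxr F η) α x)⁻¹ * sig (bxr F η) α y) ∧
    (∀ (B : Set (Option F)) (x y : Cyl) (γ : Path x y),
      range γ ⊆ Fᶜ → (∀ α ∈ B, Disjoint (range γ) (arc F α)) →
      ω γ ∈ Subgroup.closure (FreeGroup.of '' Bᶜ)) ∧
    (∀ (B : Set (Option F)) (x y : Cyl), x ∈ cut0 F → y ∈ cut0 F →
      ∀ g ∈ Subgroup.closure (FreeGroup.of '' B),
        ∃ γ : Path x y, range γ ⊆ Fᶜ ∧ (∀ α ∉ B, Disjoint (range γ) (arc F α)) ∧ ω γ = g)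

/-- the same with `η < 1/2` -/
def Cyl2Stmt : Prop :=
  ∀ F : Set Cyl, F.Finite → ∃ (η : ℝ) (ω : ∀ {x y : Cyl}, Path x y → FreeGroup (Option F)),
    0 < η ∧ η < 1 / 2 ∧
    (∀ (x y : Cyl) (γ γ' : Path x y), range γ ⊆ Fᶜ → range γ' ⊆ Fᶜ →
      (HomIn Fᶜ γ γ' ↔ ω γ = ω γ')) ∧
    (∀ (x y z : Cyl) (γ : Path x y) (γ' : Path y z), range γ ⊆ Fᶜ → range γ' ⊆ Fᶜ →
      ω (γ.trans γ') = ω γ * ω γ') ∧
    (∀ (x y : Cyl) (γ : Path x y), range γ ⊆ cut0 F → ω γ = 1) ∧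
    (∀ (α : Option F) (x y : Cyl) (γ : Path x y), range γ ⊆ bx F η α →
      ω γ = (sig (bxr F η) α x)⁻¹ * sig (bxr F η) α y) ∧
    (∀ (B : Set (Option F)) (x y : Cyl) (γ : Path x y),
      range γ ⊆ Fᶜ → (∀ α ∈ B, Disjoint (range γ) (arc F α)) →
      ω γ ∈ Subgroup.closure (FreeGroup.of '' Bᶜ)) ∧
    (∀ (B : Set (Option F)) (x y : Cyl), x ∈ cut0 F → y ∈ cut0 F →
      ∀ g ∈ Subgroup.closure (FreeGroup.of '' B),
        ∃ γ : Path x y, range γ ⊆ Fᶜ ∧ (∀ α ∉ B, Disjoint (range γ) (arc F α)) ∧ ω γ = g)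

/-! ## AT-3 free groups -/

def FG1Stmt : Prop := ∀ (A : Type) (u v : FreeGroup A), Commute u v →
  ∃ m n : ℤ, (m ≠ 0 ∨ n ≠ 0) ∧ u ^ m * v ^ n = 1

def FG2Stmt : Prop := ∀ (A : Type) (x y : A) (k : ℤ) (b : FreeGroup A), x ≠ y → k ≠ 0 →
  Commute b ((FreeGroup.of x * (FreeGroup.of y)⁻¹) ^ k) →
    ∃ i : ℤ, b = (FreeGroup.of x * (FreeGroup.of y)⁻¹) ^ i

def FG3Stmt : Prop := ∀ (A : Type) (x y z : A) (u u' : FreeGroup A), x ≠ y → y ≠ z → x ≠ z →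
  u ∈ Subgroup.closure {FreeGroup.of x, FreeGroup.of y} →
  u' ∈ Subgroup.closure
    {FreeGroup.of x, FreeGroup.of z * FreeGroup.of y * (FreeGroup.of z)⁻¹} →
  IsConj u u' → ∃ k : ℤ, IsConj u (FreeGroup.of x ^ k) ∨ IsConj u (FreeGroup.of y ^ k)

def FG4Stmt : Prop := ∀ (A : Type) (B C : Set A) (u v v' : FreeGroup A),
  v ∈ Subgroup.closure (FreeGroup.of '' B) → v' ∈ Subgroup.closure (FreeGroup.of '' C) →
  IsConj u v → IsConj u v' →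
    ∃ w ∈ Subgroup.closure (FreeGroup.of '' (B ∩ C)), IsConj u w

/-! ## AT-4 small loops -/

def MuStmt : Prop :=
  (∀ (P : Set Qd) (g : SL) (ρ ρ' : ℝ) (k : ℤ), Small P g ρ → 0 < ρ' → ρ' ≤ ρ →
    Small P g ρ' ∧ FreeIn Pᶜ (mu g ρ k) (mu g ρ' k)) ∧
  (∀ (P : Set Qd) (g : SL) (ρ : ℝ) (k : ℤ), 0 < ρ → (∀ w : ℂ, ‖w‖ ≤ ρ → dq (g * y w) ∉ P) →
    HomIn Pᶜ (mu g ρ k) (Path.refl _)) ∧
  (∀ (P : Set Qd) (g : SL) (ρ : ℝ) (j k : ℤ), Small P g ρ →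
    HomIn Pᶜ (mu g ρ (j + k)) ((mu g ρ j).trans (mu g ρ k)) ∧
    HomIn Pᶜ (mu g ρ k) (pw (mu g ρ 1) k)) ∧
  (∀ (P : Set Qd) (g : SL) (ρ : ℝ), Small P g ρ → HomIn Pᶜ (mu g ρ 0) (Path.refl _)) ∧
  (∀ (P : Set Qd) (g : SL), LF P → dq g ∈ P → ∃ ρ, Small P g ρ) ∧
  (∀ (S : Set Qd) (g h : SL) (ρ : ℝ) (k : ℤ) (x : Qd) (c : Path x x),
    FreeIn S c (mu (h * g) ρ k) ↔ FreeIn S c ((mu g ρ k).map (continuous_cq h)))

/-- retraction onto the part `|T| < R` -/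
def RetrStmt : Prop :=
  ∀ (P : Set Qd) (R : ℝ), 0 < R → (∀ N ∈ P, |TN N| ≠ R) →
    (∀ (x y : Qd) (γ γ' : Path x y), (∀ t, |TN (γ t)| < R) → (∀ t, |TN (γ' t)| < R) →
      HomIn (P ∩ {N | |TN N| < R})ᶜ γ γ' → HomIn Pᶜ γ γ') ∧
    (∀ (x y : Qd) (γ : Path x x) (γ' : Path y y), (∀ t, |TN (γ t)| < R) →
      (∀ t, |TN (γ' t)| < R) →
      FreeIn (P ∩ {N | |TN N| < R})ᶜ γ γ' → FreeIn Pᶜ γ γ')

/-- commuting loops are dependent -/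
def P4aStmt : Prop := ∀ P : Set Qd, LF P → ∀ (x : Qd) (u v : Path x x),
  HomIn Pᶜ (u.trans v) (v.trans u) →
    ∃ m n : ℤ, (m ≠ 0 ∨ n ≠ 0) ∧ HomIn Pᶜ ((pw u m).trans (pw v n)) (Path.refl x)

/-- the centraliser of a power of a small loop -/
def P4bStmt : Prop := ∀ P : Set Qd, LF P → ∀ (g : SL) (ρ : ℝ), dq g ∈ P → Small P g ρ →
  ∀ (k : ℤ) (b : Path (dq (g * y ρ)) (dq (g * y ρ))), k ≠ 0 →
    HomIn Pᶜ (b.trans (mu g ρ k)) ((mu g ρ k).trans b) → ∃ i : ℤ, HomIn Pᶜ b (mu g ρ i)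

/-- small loops around different punctures are not freely homotopic -/
def P4cStmt : Prop := ∀ (P : Set Qd) (g g' : SL) (ρ ρ' : ℝ) (k k' : ℤ), dq g ∈ P → dq g' ∈ P →
  Small P g ρ → Small P g' ρ' → k ≠ 0 → FreeIn Pᶜ (mu g ρ k) (mu g' ρ' k') → dq g = dq g'

/-! ## AT-5 arcs through a crossing puncture -/

/-- the orbit of `q` under the boosts `cq (a t)` (for `|X| < 1`) and its two halves -/
def ell (q : Qd) : Set Qd := {N | XN N = XN q ∧ 0 < YN q * YN N}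
def ellp (q : Qd) : Set Qd := {N | N ∈ ell q ∧ TN q ≤ TN N}
def ellm (q : Qd) : Set Qd := {N | N ∈ ell q ∧ TN N ≤ TN q}

def P5aStmt : Prop := ∀ (q x x₁ x₂ : Qd) (c : Path x x) (c₁ : Path x₁ x₁) (c₂ : Path x₂ x₂),
  |XN q| < 1 → FreeIn {q}ᶜ c c₁ → FreeIn {q}ᶜ c c₂ →
  Disjoint (range c₁) (ellp q) → Disjoint (range c₂) (ellm q) → HomIn univ c (Path.refl x)

def P5bStmt : Prop := ∀ (q x x₁ x₂ : Qd) (c : Path x x) (c₁ : Path x₁ x₁) (c₂ : Path x₂ x₂),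
  |XN q| < 1 → FreeIn {q, Dq, cq Jm Dq}ᶜ c c₁ → FreeIn {q, Dq, cq Jm Dq}ᶜ c c₂ →
  Disjoint (range c₁) (ellp q) → Disjoint (range c₂) (ellm q) →
    ∃ (x' : Qd) (c' : Path x' x'), FreeIn {Dq, cq Jm Dq}ᶜ c c' ∧ Disjoint (range c') (ell q)

def P5cStmt : Prop := ∀ (q q' x x₁ x₂ : Qd) (c : Path x x) (c₁ : Path x₁ x₁) (c₂ : Path x₂ x₂),
  |XN q| < 1 → |XN q'| < 1 → 0 < YN q → YN q' < 0 →
  FreeIn {Dq, cq Jm Dq}ᶜ c c₁ → FreeIn {Dq, cq Jm Dq}ᶜ c c₂ →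
  Disjoint (range c₁) (ell q) → Disjoint (range c₂) (ell q') →
    ∃ (g : SL) (ρ : ℝ) (k : ℤ), (g = 1 ∨ g = Jm) ∧ Small {Dq, cq Jm Dq} g ρ ∧
      FreeIn {Dq, cq Jm Dq}ᶜ c (mu g ρ k)

/-! ## AT-6 the main planar theorem -/

def MPTStmt : Prop := ∀ (P : Set Qd) (T0 : ℝ), LF P → 0 < T0 →
  (Dq ∈ P ↔ cq Jm Dq ∈ P) →
  (∀ N, N ∈ P ↔ cq (a T0) N ∈ P) →
  (∃ q ∈ P, |XN q| < 1 ∧ 0 < YN q) → (∃ q ∈ P, |XN q| < 1 ∧ YN q < 0) →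
  ∀ (x : Qd) (c : Path x x), FreeIn Pᶜ c (c.map (continuous_cq (a T0))) →
    HomIn Pᶜ c (Path.refl x) ∨
    ∃ (g : SL) (ρ : ℝ) (k : ℤ), dq g ∈ P ∧ k ≠ 0 ∧ Small P g ρ ∧ FreeIn Pᶜ c (mu g ρ k)

/-! ## AT-7 arithmetic and dynamics of `Gam` -/

def DynAStmt : Prop := ∀ g ∈ Gam, (g : M2) ≠ 1 → (g : M2) ≠ -1 →
  ∃ (h : SL) (T : ℝ), 0 < T ∧
    ((g : M2) = ((h * a T * h⁻¹ : SL) : M2) ∨ (g : M2) = -((h * a T * h⁻¹ : SL) : M2))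

def DynBStmt : Prop := ∀ h : SL, ∃ N ∈ Lines, |ip N (cj h Dm)| < 1

def DynCStmt : Prop := ∀ g ∈ Gam, ∀ g' ∈ Gam, g * g' = g' * g →
  ∃ m n : ℤ, (m ≠ 0 ∨ n ≠ 0) ∧ g ^ m * g' ^ n = 1

/-! ## AT-8 lifting from the annulus to frames -/

def LiftStmt : Prop :=
  (∀ (x : SL) (N : Qd) (γ : Path (dq x) N), ∃ (x' : SL) (γ' : Path x x'), ∀ t, dq (γ' t) = γ t) ∧
  (∀ (S : Set Qd) (x x' : SL) (γ γ' : Path x x'),
    HomIn S (γ.map continuous_dq) (γ'.map continuous_dq) → HomIn (dq ⁻¹' S) γ γ') ∧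
  (∀ (S : Set Qd) (x x' x'' : SL) (γ : Path x x') (γ' : Path x x'') (h : dq x' = dq x''),
    HomIn S (γ.map continuous_dq) ((γ'.map continuous_dq).cast rfl h) →
      ∃ s : ℝ, x'' = x' * a s) ∧
  (∀ x x' : SL, dq x = dq x' → ∃ s : ℝ, (x' : M2) = ((x * a s : SL) : M2) ∨
    (x' : M2) = -((x * a s : SL) : M2)) ∧
  (∀ x : SL, x ∈ E ↔ dq x ∉ Pq)

/-! ## AT-9 atoroidality of `M`, AT-10 of the complement of the link -/

def AtoroMStmt : Prop :=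
  ∀ (x₀ : M) (α β : FundamentalGroup M x₀), α * β = β * α →
    (∀ m n : ℤ, α ^ m * β ^ n = 1 → m = 0 ∧ n = 0) →
    ∃ g ∈ Nz, ∀ δ : ℝ, 0 < δ → δ < ε0 →
      ∃ (y : M) (γ : Path x₀ y) (p q : Path y y),
        range p ⊆ psi g '' {p | p.1 ≠ 0 ∧ ‖p.1‖ < δ} ∧
        range q ⊆ psi g '' {p | p.1 ≠ 0 ∧ ‖p.1‖ < δ} ∧
        α = FundamentalGroup.fromPath (Path.Homotopic.Quotient.mk (γ.trans (p.trans γ.symm))) ∧
        β = FundamentalGroup.fromPath (Path.Homotopic.Quotient.mk (γ.trans (q.trans γ.symm)))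

def AtoroNStmt : Prop := ∀ gi : Idx → SL, GoodGi gi → AtoroidalCompl (Sg gi)

end AdT
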