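import Pool.Agent.Helper88.AdT.Fin
import Pool.Agent.Helper88.AdT.Stmts2

/-!
# AT-7: elements of the lattice are hyperbolic, crossing lines, commuting elements (helper83)
-/

open Matrix Real Topology Filter Set

noncomputable section

namespace AdT

namespace Dyn

/-! ### hyperbolic elements -/

lemma three_dvd_of_sq {b d : ℤ} (h : 3 ∣ b ^ 2 + d ^ 2) : 3 ∣ b ∧ 3 ∣ d := by
  have hb : b % 3 = 0 ∨ b % 3 = 1 ∨ b % 3 = 2 := by omega
  have hd : d % 3 = 0 ∨ d % 3 = 1 ∨ d % 3 = 2 := by omega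
  have hm : (b ^ 2 + d ^ 2) % 3 = 0 := Int.emod_eq_zero_of_dvd h
  rw [Int.add_emod, pow_two, pow_two, Int.mul_emod, Int.mul_emod d d] at hm
  rcases hb with hb | hb | hb <;> rcases hd with hd | hd | hd <;> rw [hb, hd] at hm <;>
    (simp at hm; try omega)

lemma descent : ∀ (n : ℕ) (b d c : ℤ), c.natAbs = n → b ^ 2 + d ^ 2 = 3 * c ^ 2 → c = 0 := by
  intro n
  induction n using Nat.strong_induction_on with
  | _ n ih =>
    intro b d c hc h
    by_contra hc0
    obtain ⟨⟨b', rfl⟩, ⟨d', rfl⟩⟩ := three_dvd_of_sq (b := b) (d := d) ⟨c ^ 2, h⟩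
    have h1 : c ^ 2 = 3 * (b' ^ 2 + d' ^ 2) := by nlinarith
    have h2 : (3 : ℤ) ∣ c := Int.prime_three.dvd_of_dvd_pow ⟨_, h1⟩
    obtain ⟨c', rfl⟩ := h2
    have h3 : b' ^ 2 + d' ^ 2 = 3 * c' ^ 2 := by nlinarith
    have h4 : c'.natAbs < n := by omega
    have := ih _ h4 b' d' c' rfl h3
    omega

/-- the trace of a nontrivial element -/
lemma two_le {a b c d : ℤ} (h : a ^ 2 - 3 * b ^ 2 + 9 * c ^ 2 - 3 * d ^ 2 = 1)
    (h1 : gm a b c d ≠ 1) (h2 : gm a b c d ≠ -1) : 2 ≤ |a| := by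
  by_contra hcon
  push Not at hcon
  have ha : a = 0 ∨ a = 1 ∨ a = -1 := by
    rw [abs_lt] at hcon
    omega
  have key : a ^ 2 = 1 → b = 0 ∧ c = 0 ∧ d = 0 := by
    intro ha2
    have h3 : b ^ 2 + d ^ 2 = 3 * c ^ 2 := by linarith
    have h4 := descent _ b d c rfl h3
    subst h4
    have h5 : b ^ 2 = 0 := by nlinarith [sq_nonneg b, sq_nonneg d]
    have h6 : d ^ 2 = 0 := by nlinarith [sq_nonneg b, sq_nonneg d]
    exact ⟨by simpa using h5, rfl, by simpa using h6⟩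
  rcases ha with rfl | rfl | rfl
  · have : 3 * (3 * c ^ 2 - b ^ 2 - d ^ 2) = 1 := by linarith
    omega
  · obtain ⟨rfl, rfl, rfl⟩ := key (by norm_num)
    apply h1
    ext i j
    fin_cases i <;> fin_cases j <;> simp [gm]
  · obtain ⟨rfl, rfl, rfl⟩ := key (by norm_num)
    apply h2
    ext i j
    fin_cases i <;> fin_cases j <;> simp [gm]

lemma exists_eigen (g : M2) (l : ℝ) (h : l ^ 2 - (g 0 0 + g 1 1) * l + g.det = 0) :
    ∃ v0 v1 : ℝ, (v0 ≠ 0 ∨ v1 ≠ 0) ∧ g 0 0 * v0 + g 0 1 * v1 = l * v0 ∧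
      g 1 0 * v0 + g 1 1 * v1 = l * v1 := by
  have hdet : (g - l • (1 : M2)).det = 0 := by
    rw [Matrix.det_fin_two] at h ⊢
    simp
    linarith
  obtain ⟨v, hv, hv2⟩ := Matrix.exists_mulVec_eq_zero_iff.2 hdet
  refine ⟨v 0, v 1, ?_, ?_, ?_⟩
  · by_contra hcon
    push Not at hcon
    apply hv
    ext i
    fin_cases i
    · exact hcon.1
    · exact hcon.2
  · have := congrFun hv2 0
    simp [Matrix.mulVec, dotProduct, Fin.sum_univ_two] at this
    linarith
  · have := congrFun hv2 1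
    simp [Matrix.mulVec, dotProduct, Fin.sum_univ_two] at this
    linarith

lemma diag (g : SL) (htr : 2 < g 0 0 + g 1 1) :
    ∃ (h : SL) (T : ℝ), 0 < T ∧ g = h * a T * h⁻¹ := by
  set t : ℝ := g 0 0 + g 1 1 with ht
  have hdet := FinM.det_eq g
  have hD : 0 < t ^ 2 - 4 := by nlinarith
  set r : ℝ := √(t ^ 2 - 4) with hr
  have hr0 : 0 < r := Real.sqrt_pos.2 hD
  have hr2 : r ^ 2 = t ^ 2 - 4 := Real.sq_sqrt hD.le
  set l : ℝ := (t + r) / 2 with hl
  set m : ℝ := (t - r) / 2 with hm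
  have hlm : l * m = 1 := by
    rw [hl, hm]
    nlinarith
  have hl1 : 1 < l := by
    rw [hl]
    linarith
  have hl0 : 0 < l := by linarith
  have hml : m = l⁻¹ := by
    field_simp
    linarith
  have hgd : (g : M2).det = 1 := g.2
  obtain ⟨v0, v1, hv, hv0, hv1⟩ := exists_eigen (g : M2) l (by
    rw [hgd, ← ht]
    have : l + m = t := by rw [hl, hm]; ring
    rw [← this]
    nlinarith)
  obtain ⟨w0, w1, hw, hw0, hw1⟩ := exists_eigen (g : M2) m (by
    rw [hgd, ← ht]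
    have : l + m = t := by rw [hl, hm]; ring
    rw [← this]
    nlinarith)
  have hne : l - m ≠ 0 := by
    have : 0 < l - m := by rw [hl, hm]; linarith
    exact this.ne'
  set D : ℝ := v0 * w1 - v1 * w0 with hDd
  have hD0 : D ≠ 0 := by
    intro hD0
    have e : v0 * w1 = v1 * w0 := by linarith
    have z1 : v0 * w0 = 0 := by
      have : (l - m) * (v0 * w0) = 0 := by
        linear_combination (-w0) * hv0 + v0 * hw0 - g 0 1 * e
      exact (mul_eq_zero.1 this).resolve_left hne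
    have z2 : v1 * w0 = 0 := by
      have : (l - m) * (v1 * w0) = 0 := by
        linear_combination (-w1) * hv0 + v1 * hw0 + (g 0 0 - l) * e
      exact (mul_eq_zero.1 this).resolve_left hne
    have z3 : v0 * w1 = 0 := by linarith
    have z4 : v1 * w1 = 0 := by
      have : (l - m) * (v1 * w1) = 0 := by
        linear_combination (-w1) * hv1 + v1 * hw1 + g 1 0 * e
      exact (mul_eq_zero.1 this).resolve_left hne
    rcases hv with hv | hv
    · rcases hw with hw | hw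
      · exact (mul_ne_zero hv hw) z1
      · exact (mul_ne_zero hv hw) z3
    · rcases hw with hw | hw
      · exact (mul_ne_zero hv hw) z2
      · exact (mul_ne_zero hv hw) z4
  let h : SL := ⟨!![v0, w0 / D; v1, w1 / D], by
    rw [Matrix.det_fin_two_of]
    field_simp
    linarith⟩
  refine ⟨h, 2 * Real.log l, by
    have := Real.log_pos hl1
    linarith, ?_⟩
  have e1 : exp (Real.log l) = l := Real.exp_log hl0
  have e2 : exp (-Real.log l) = m := by
    rw [Real.exp_neg, e1, hml]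
  have key : g * h = h * a (2 * Real.log l) := by
    apply Subtype.ext
    rw [Matrix.SpecialLinearGroup.coe_mul, Matrix.SpecialLinearGroup.coe_mul]
    ext i j
    rw [Matrix.mul_apply, Matrix.mul_apply, Fin.sum_univ_two, Fin.sum_univ_two]
    fin_cases i <;> fin_cases j <;> simp [h, a, e1, e2]
    · linarith
    · field_simp
      linarith
    · linarith
    · field_simp
      linarith
  rw [← key, mul_inv_cancel_right]

end Dyn

theorem dynA : DynAStmt := by
  intro g hg h1 h2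
  obtain ⟨a0, b, c, d, hgm⟩ := hg
  have hN := Gam_eqn hgm
  have h3 := Dyn.two_le hN (by rw [← hgm]; exact h1) (by rw [← hgm]; exact h2)
  have htr : (g : M2) 0 0 + (g : M2) 1 1 = 2 * a0 := by
    rw [hgm]
    simp [gm]
    ring
  rcases abs_cases a0 with ⟨h4, -⟩ | ⟨h4, -⟩
  · rw [h4] at h3
    have h3' : (2 : ℝ) ≤ a0 := by exact_mod_cast h3
    obtain ⟨h, T, hT, he⟩ := Dyn.diag g (by
      have : (2 : ℝ) < (g : M2) 0 0 + (g : M2) 1 1 := by rw [htr]; linarith
      exact this)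
    exact ⟨h, T, hT, Or.inl (by rw [← he])⟩
  · rw [h4] at h3
    have h3' : (2 : ℝ) ≤ -a0 := by exact_mod_cast h3
    let g' : SL := ⟨-(g : M2), by
      rw [Matrix.det_neg, g.2]
      simp⟩
    obtain ⟨h, T, hT, he⟩ := Dyn.diag g' (by
      have : (2 : ℝ) < (-(g : M2)) 0 0 + (-(g : M2)) 1 1 := by
        rw [Matrix.neg_apply, Matrix.neg_apply]
        linarith
      exact this)
    refine ⟨h, T, hT, Or.inr ?_⟩
    rw [← he]
    simp [g']

namespace Dyn

/-! ### crossing lines -/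

lemma T_diff {g : SL} {a b c d : ℝ} (hg : (g : M2) = gm a b c d)
    (h : a ^ 2 - 3 * b ^ 2 + 9 * c ^ 2 - 3 * d ^ 2 = 1) (x : SL) :
    FinM.T (g * x) - FinM.T x =
      4 * √3 * tau x (nm (a * d + 3 * b * c) (3 * c * d - a * b) (b ^ 2 + d ^ 2)) := by
  rw [FinM.gm_mul_T hg, tau_nm, FinM.T]
  linear_combination (x 0 0 ^ 2 + x 0 1 ^ 2 + x 1 0 ^ 2 + x 1 1 ^ 2) * h -
    (x 0 0 ^ 2 + x 0 1 ^ 2 + x 1 0 ^ 2 + x 1 1 ^ 2) * (b ^ 2 + d ^ 2) * sqrt3_mul

lemma tau_smul (x : SL) (r b d c : ℝ) : tau x (nm (r * b) (r * d) (r * c)) = r * tau x (nm b d c) := by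
  rw [tau_nm, tau_nm]; ring

/-- the lines through the sides of the fundamental polygon -/
def Sides : List (ℤ × ℤ × ℤ) :=
  [(0, -2, 1), (0, 2, 1), (2, 0, 1), (-2, 0, 1), (3, -2, 2), (-3, -2, 2), (-3, 2, 2), (3, 2, 2),
    (2, 3, 2), (2, -3, 2), (-2, -3, 2), (-2, 3, 2)]

lemma tau_sides (x : SL) (hmin : ∀ γ' ∈ Gam, FinM.T x ≤ FinM.T (γ' * x)) :
    ∀ s ∈ Sides, 0 ≤ tau x (nm s.1 s.2.1 s.2.2) := by
  have key : ∀ (a b c d : ℤ) (_ : a ^ 2 - 3 * b ^ 2 + 9 * c ^ 2 - 3 * d ^ 2 = 1) (r : ℝ) (_ : 0 < r)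
      (n1 n2 n3 : ℝ), r * n1 = a * d + 3 * b * c → r * n2 = 3 * c * d - a * b →
      r * n3 = b ^ 2 + d ^ 2 → 0 ≤ tau x (nm n1 n2 n3) := by
    intro a b c d h r hr n1 n2 n3 e1 e2 e3
    have h1 := hmin _ (FinM.gi_mem a b c d h)
    have h2 := T_diff (g := FinM.gi a b c d h) (a := a) (b := b) (c := c) (d := d) rfl
      (by exact_mod_cast h) x
    rw [← e1, ← e2, ← e3, tau_smul] at h2
    have h3 : 0 ≤ 4 * √3 * (r * tau x (nm n1 n2 n3)) := by linarith
    have h4 : 0 ≤ (4 * √3 * r) * tau x (nm n1 n2 n3) := by linarith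
    exact nonneg_of_mul_nonneg_right h4 (mul_pos (mul_pos (by norm_num) sqrt3_pos) hr)
  intro s hs
  simp only [Sides, List.mem_cons, List.not_mem_nil, or_false] at hs
  rcases hs with rfl | rfl | rfl | rfl | rfl | rfl | rfl | rfl | rfl | rfl | rfl | rfl
  · exact key 2 1 0 0 (by norm_num) 1 (by norm_num) _ _ _ (by norm_num) (by norm_num) (by norm_num)
  · exact key 2 (-1) 0 0 (by norm_num) 1 (by norm_num) _ _ _ (by norm_num) (by norm_num) (by norm_num)
  · exact key 2 0 0 1 (by norm_num) 1 (by norm_num) _ _ _ (by norm_num) (by norm_num) (by norm_num)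
  · exact key 2 0 0 (-1) (by norm_num) 1 (by norm_num) _ _ _ (by norm_num) (by norm_num) (by norm_num)
  · exact key 2 2 1 0 (by norm_num) 2 (by norm_num) _ _ _ (by norm_num) (by norm_num) (by norm_num)
  · exact key 2 2 (-1) 0 (by norm_num) 2 (by norm_num) _ _ _ (by norm_num) (by norm_num) (by norm_num)
  · exact key 2 (-2) 1 0 (by norm_num) 2 (by norm_num) _ _ _ (by norm_num) (by norm_num) (by norm_num)
  · exact key 2 (-2) (-1) 0 (by norm_num) 2 (by norm_num) _ _ _ (by norm_num) (by norm_num) (by norm_num)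
  · exact key 2 0 1 2 (by norm_num) 2 (by norm_num) _ _ _ (by norm_num) (by norm_num) (by norm_num)
  · exact key 2 0 (-1) 2 (by norm_num) 2 (by norm_num) _ _ _ (by norm_num) (by norm_num) (by norm_num)
  · exact key 2 0 1 (-2) (by norm_num) 2 (by norm_num) _ _ _ (by norm_num) (by norm_num) (by norm_num)
  · exact key 2 0 (-1) (-2) (by norm_num) 2 (by norm_num) _ _ _ (by norm_num) (by norm_num) (by norm_num)

lemma sides_lines : ∀ s ∈ Sides, nm s.1 s.2.1 s.2.2 ∈ Lines := by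
  intro s hs
  refine ⟨s.1, s.2.1, s.2.2, ?_, rfl⟩
  simp only [Sides, List.mem_cons, List.not_mem_nil, or_false] at hs
  rcases hs with rfl | rfl | rfl | rfl | rfl | rfl | rfl | rfl | rfl | rfl | rfl | rfl <;> norm_num

/-- frames with nonnegative `tau` at the sides are bounded -/
lemma T_le (x : SL) (h : ∀ s ∈ Sides, 0 ≤ tau x (nm s.1 s.2.1 s.2.2)) : FinM.T x ≤ 10 := by
  have hs := sqrt3_mul
  have hs0 := sqrt3_pos
  have hdet := FinM.det_eq x
  set p : ℝ := x 0 0 ^ 2 + x 0 1 ^ 2 with hp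
  set r : ℝ := x 1 0 ^ 2 + x 1 1 ^ 2 with hr
  set q : ℝ := x 0 0 * x 1 0 + x 0 1 * x 1 1 with hq
  have hT : FinM.T x = p + r := by rw [FinM.T, hp, hr]; ring
  have hpq : p * r - q ^ 2 = 1 := by
    have : p * r - q ^ 2 = (x 0 0 * x 1 1 - x 0 1 * x 1 0) ^ 2 := by rw [hp, hr, hq]; ring
    rw [this, hdet]; ring
  set Z : ℝ := (p + r) / 2 with hZ
  set X : ℝ := (p - r) / 2 with hX
  have ep : p = Z + X := by rw [hZ, hX]; ring
  have er : r = Z - X := by rw [hZ, hX]; ring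
  have hZ0 : 0 ≤ Z := by rw [hZ, hp, hr]; positivity
  have htau : ∀ b d c : ℝ, tau x (nm b d c) = b * q - d * X + c * √3 * Z := by
    intro b d c
    rw [tau_nm, hX, hZ, hp, hr, hq]
    ring
  have c1 := h (0, -2, 1) (by simp [Sides])
  have c2 := h (0, 2, 1) (by simp [Sides])
  have c3 := h (2, 0, 1) (by simp [Sides])
  have c4 := h (-2, 0, 1) (by simp [Sides])
  have c5 := h (3, -2, 2) (by simp [Sides])
  have c6 := h (-3, -2, 2) (by simp [Sides])
  have c7 := h (-3, 2, 2) (by simp [Sides])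
  have c8 := h (3, 2, 2) (by simp [Sides])
  have c9 := h (2, 3, 2) (by simp [Sides])
  have c10 := h (2, -3, 2) (by simp [Sides])
  have c11 := h (-2, -3, 2) (by simp [Sides])
  have c12 := h (-2, 3, 2) (by simp [Sides])
  rw [htau] at c1 c2 c3 c4 c5 c6 c7 c8 c9 c10 c11 c12
  push_cast at c1 c2 c3 c4 c5 c6 c7 c8 c9 c10 c11 c12
  have b1 : |X| ≤ √3 / 2 * Z := by
    rw [abs_le]; constructor <;> linarith
  have b2 : |q| ≤ √3 / 2 * Z := by
    rw [abs_le]; constructor <;> linarith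
  have b3 : 2 * |X| + 3 * |q| ≤ 2 * √3 * Z := by
    rcases abs_cases X with ⟨h1, -⟩ | ⟨h1, -⟩ <;> rcases abs_cases q with ⟨h2, -⟩ | ⟨h2, -⟩ <;>
      rw [h1, h2] <;> linarith
  have b4 : 3 * |X| + 2 * |q| ≤ 2 * √3 * Z := by
    rcases abs_cases X with ⟨h1, -⟩ | ⟨h1, -⟩ <;> rcases abs_cases q with ⟨h2, -⟩ | ⟨h2, -⟩ <;>
      rw [h1, h2] <;> linarith
  have b5 := FinM.arith_bound hs hs0 hZ0 b1 b2 b3 b4
  have b6 : Z ^ 2 - X ^ 2 - q ^ 2 = 1 := by
    rw [ep, er] at hpq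
    linarith
  have b7 : Z ≤ 5 := by
    by_contra hh
    have hh2 : (5 : ℝ) < Z := not_le.mp hh
    have h25 : (25 : ℝ) < Z ^ 2 := by nlinarith only [hh2]
    linarith only [b5, b6, h25]
  rw [hT]
  linarith

lemma ip_Dm (F : M2) (h : F 1 1 = -F 0 0) : ip F Dm = F 0 0 := by
  rw [ip, Matrix.trace_fin_two, Matrix.mul_apply, Matrix.mul_apply, Fin.sum_univ_two,
    Fin.sum_univ_two, h]
  simp [Dm, nm]

lemma sg_eq (x : SL) {N : M2} (hN : N ∈ Lines) : ip N (cj x Dm) = sg x N := by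
  have h1 : ip N (cj x Dm) = ip (fr x N) Dm := by
    rw [fr_eq, ← ip_cj x⁻¹ N (cj x Dm), cj_inv_cj]
  obtain ⟨b, d, c, -, rfl⟩ := hN
  rw [h1]
  exact ip_Dm _ (FinM.fr_trace x b d c)

lemma mul_a (x : SL) (t : ℝ) (i : Fin 2) : (x * a t : SL) i 0 = x i 0 * exp (t / 2) ∧
    (x * a t : SL) i 1 = x i 1 * exp (-(t / 2)) := by
  constructor
  · change ((x : M2) * (a t : M2)) i 0 = _
    rw [Matrix.mul_apply, Fin.sum_univ_two]
    simp [a]
  · change ((x : M2) * (a t : M2)) i 1 = _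
    rw [Matrix.mul_apply, Fin.sum_univ_two]
    simp [a]

lemma T_a (x : SL) (t : ℝ) : FinM.T (x * a t) =
    exp t * (x 0 0 ^ 2 + x 1 0 ^ 2) + exp (-t) * (x 0 1 ^ 2 + x 1 1 ^ 2) := by
  have e1 : exp t = exp (t / 2) ^ 2 := by
    rw [← Real.exp_nat_mul]; congr 1; push_cast; ring
  have e2 : exp (-t) = exp (-(t / 2)) ^ 2 := by
    rw [← Real.exp_nat_mul]; congr 1; push_cast; ring
  rw [FinM.T, (mul_a x t 0).1, (mul_a x t 0).2, (mul_a x t 1).1, (mul_a x t 1).2, e1, e2]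
  ring

end Dyn

open Dyn in
theorem dynB (hF : FrameStmt) : DynBStmt := by
  intro h
  by_contra hcon
  push Not at hcon
  obtain ⟨γ, hγ, hmin⟩ := FinM.exists_min h
  set x : SL := γ * h with hx
  have hmin' : ∀ γ' ∈ Gam, FinM.T x ≤ FinM.T (γ' * x) := by
    intro γ' hγ'
    have := hmin (γ' * γ) (Gam.mul_mem hγ' hγ)
    rwa [mul_assoc] at this
  have hsg : ∀ N ∈ Lines, 1 ≤ |sg x N| := by
    intro N hN
    have h1 := hcon _ (Lines_cj (Gam.inv_mem hγ) hN)
    rw [← sg_eq x hN, hx, cj_mul, ← cj_cj_inv γ N, ip_cj]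
    exact h1
  have hnu : ∀ N ∈ Lines, |nu x N| ≤ |tau x N| := by
    intro N hN
    have h1 := hF.1 x N hN
    have h2 : 1 ≤ sg x N ^ 2 := by
      rw [← sq_abs]
      nlinarith [hsg N hN]
    rw [← sq_le_sq]
    linarith
  have hbd : ∀ t : ℝ, FinM.T (x * a t) ≤ 10 := by
    intro t
    apply T_le
    intro s hs
    have h1 := tau_sides x hmin' s hs
    have h2 := hnu _ (sides_lines s hs)
    rw [abs_of_nonneg h1] at h2
    rw [(hF.2.2.1 x _ t).1]
    have h3 : |sinh t| ≤ cosh t := by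
      rw [abs_le]
      constructor
      · have := Real.exp_pos t
        have e := Real.cosh_add_sinh t
        linarith
      · exact (Real.sinh_lt_cosh t).le
    have h4 : |sinh t * nu x (nm s.1 s.2.1 s.2.2)| ≤ cosh t * tau x (nm s.1 s.2.1 s.2.2) := by
      rw [abs_mul]
      exact mul_le_mul h3 h2 (abs_nonneg _) (Real.cosh_pos t).le
    have h5 := neg_abs_le (sinh t * nu x (nm s.1 s.2.1 s.2.2))
    linarith
  have hpos : 0 < x 0 0 ^ 2 + x 1 0 ^ 2 := by
    have hdet := FinM.det_eq x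
    by_contra hh
    have h0 : x 0 0 ^ 2 + x 1 0 ^ 2 = 0 := le_antisymm (not_lt.1 hh) (by positivity)
    have h1 : x 0 0 = 0 := by
      have : x 0 0 ^ 2 = 0 := by nlinarith [sq_nonneg (x 0 0), sq_nonneg (x 1 0)]
      simpa using this
    have h2 : x 1 0 = 0 := by
      have : x 1 0 ^ 2 = 0 := by nlinarith [sq_nonneg (x 0 0), sq_nonneg (x 1 0)]
      simpa using this
    rw [h1, h2] at hdet
    linarith
  have h1 := hbd (Real.log (11 / (x 0 0 ^ 2 + x 1 0 ^ 2)))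
  rw [T_a, Real.exp_log (by positivity), div_mul_cancel₀ _ hpos.ne'] at h1
  have h2 : 0 ≤ exp (-Real.log (11 / (x 0 0 ^ 2 + x 1 0 ^ 2))) * (x 0 1 ^ 2 + x 1 1 ^ 2) := by
    positivity
  linarith

namespace Dyn

/-! ### commuting elements -/

lemma a_add (s t : ℝ) : a (s + t) = a s * a t := by
  apply Subtype.ext
  rw [Matrix.SpecialLinearGroup.coe_mul]
  ext i j
  rw [Matrix.mul_apply, Fin.sum_univ_two]
  fin_cases i <;> fin_cases j <;> simp [a, ← Real.exp_add] <;> ring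

lemma a_zero : a 0 = 1 := by
  apply Subtype.ext
  ext i j
  fin_cases i <;> fin_cases j <;> simp [a]

lemma a_neg (t : ℝ) : a (-t) = (a t)⁻¹ := by
  rw [eq_inv_iff_mul_eq_one, ← a_add, neg_add_cancel, a_zero]

lemma a_inj {s t : ℝ} (h : a s = a t) : s = t := by
  have h1 : exp (s / 2) = exp (t / 2) := by
    have := congrArg (fun x : SL => (x : M2) 0 0) h
    simpa [a] using this
  have := Real.exp_injective h1
  linarith

/-- the translation lengths along the axis of `h` -/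
def H (h : SL) : AddSubgroup ℝ where
  carrier := {t | h * a t * h⁻¹ ∈ Gam}
  zero_mem' := by
    change h * a 0 * h⁻¹ ∈ Gam
    rw [a_zero, mul_one, mul_inv_cancel]
    exact Gam.one_mem
  add_mem' := by
    intro s t hs ht
    change h * a (s + t) * h⁻¹ ∈ Gam
    have e : h * a (s + t) * h⁻¹ = (h * a s * h⁻¹) * (h * a t * h⁻¹) := by
      rw [a_add]; group
    rw [e]
    exact Gam.mul_mem hs ht
  neg_mem' := by
    intro t ht
    change h * a (-t) * h⁻¹ ∈ Gam
    have e : h * a (-t) * h⁻¹ = (h * a t * h⁻¹)⁻¹ := by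
      rw [a_neg]; group
    rw [e]
    exact Gam.inv_mem ht

lemma mem_H {h : SL} {t : ℝ} : t ∈ H h ↔ h * a t * h⁻¹ ∈ Gam := Iff.rfl

lemma T_cont (h : SL) : Continuous fun t => FinM.T (h * a t * h⁻¹) := by
  have e : ∀ t i j, (h * a t * h⁻¹ : SL) i j =
      h i 0 * exp (t / 2) * (h⁻¹ : SL) 0 j + h i 1 * exp (-(t / 2)) * (h⁻¹ : SL) 1 j := by
    intro t i j
    change ((h * a t : SL) * ((h⁻¹ : SL) : M2) : M2) i j = _
    rw [Matrix.mul_apply, Fin.sum_univ_two, (mul_a h t i).1, (mul_a h t i).2]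
  simp only [FinM.T, e]
  fun_prop

lemma H_cyclic (hfin : FinStmt) (h : SL) : ∃ t0 : ℝ, H h = AddSubgroup.closure {t0} := by
  rcases AddSubgroup.dense_or_cyclic (H h) with hd | hd
  · exfalso
    obtain ⟨C, hC⟩ := isCompact_Icc.exists_bound_of_continuousOn (s := Icc (0 : ℝ) 1)
      (T_cont h).continuousOn
    have hf := hfin.2.1 (C + 1)
    have hinf : ((H h : Set ℝ) ∩ Ioo 0 1).Infinite := by
      intro hfi
      have h1 : IsOpen (Ioo (0 : ℝ) 1 \ ((H h : Set ℝ) ∩ Ioo 0 1)) := isOpen_Ioo.sdiff hfi.isClosed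
      have h2 : (Ioo (0 : ℝ) 1 \ ((H h : Set ℝ) ∩ Ioo 0 1)).Nonempty := by
        by_contra hne
        rw [Set.not_nonempty_iff_eq_empty, Set.sdiff_eq_empty] at hne
        exact (Set.Ioo_infinite (show (0 : ℝ) < 1 by norm_num)) (hfi.subset hne)
      obtain ⟨y, hy1, hy2⟩ := hd.inter_open_nonempty _ h1 h2
      exact hy1.2 ⟨hy2, hy1.1⟩
    apply hinf
    refine Set.Finite.of_finite_image (f := fun t => h * a t * h⁻¹) (hf.subset ?_) ?_
    · rintro _ ⟨t, ⟨ht1, ht2⟩, rfl⟩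
      refine ⟨ht1, fun i j => ?_⟩
      have h3 := hC t ⟨ht2.1.le, ht2.2.le⟩
      rw [Real.norm_eq_abs] at h3
      exact (FinM.abs_le_T _ i j).trans (by linarith [le_abs_self (FinM.T (h * a t * h⁻¹))])
    · intro s _ t _ hst
      have h4 : h * a s * h⁻¹ = h * a t * h⁻¹ := hst
      exact a_inj (mul_left_cancel (mul_right_cancel h4))
  · exact hd

lemma conj_mem {h g : SL} {T : ℝ} (hg : g ∈ Gam)
    (hgT : (g : M2) = ((h * a T * h⁻¹ : SL) : M2) ∨ (g : M2) = -((h * a T * h⁻¹ : SL) : M2)) :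
    T ∈ H h := by
  rw [mem_H]
  rcases hgT with h1 | h1
  · have : h * a T * h⁻¹ = g := Subtype.ext h1.symm
    rw [this]
    exact hg
  · obtain ⟨a0, b, c, d, h2⟩ := hg
    refine ⟨-a0, -b, -c, -d, ?_⟩
    have h3 : ((h * a T * h⁻¹ : SL) : M2) = -(g : M2) := by rw [h1, neg_neg]
    rw [h3, h2]
    ext i j
    fin_cases i <;> fin_cases j <;> simp [gm] <;> ring

/-- even powers do not see the sign -/
lemma pow_even {h g : SL} {T : ℝ}
    (hgT : (g : M2) = ((h * a T * h⁻¹ : SL) : M2) ∨ (g : M2) = -((h * a T * h⁻¹ : SL) : M2)) :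
    g * g = h * a (2 * T) * h⁻¹ := by
  have e : h * a (2 * T) * h⁻¹ = (h * a T * h⁻¹) * (h * a T * h⁻¹) := by
    rw [two_mul, a_add]; group
  rw [e]
  apply Subtype.ext
  rw [Matrix.SpecialLinearGroup.coe_mul, Matrix.SpecialLinearGroup.coe_mul]
  rcases hgT with h1 | h1
  · rw [h1, Matrix.SpecialLinearGroup.coe_mul]
  · rw [h1, neg_mul_neg]

lemma a_zsmul (T : ℝ) (k : ℤ) (h : SL) : (h * a T * h⁻¹) ^ k = h * a (k * T) * h⁻¹ := by
  rw [conj_zpow]
  congr 2
  induction k using Int.induction_on with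
  | zero => simp [a_zero]
  | succ n ih =>
    rw [_root_.zpow_add_one, ih, ← a_add]
    congr 1
    push_cast
    ring
  | pred n ih =>
    rw [_root_.zpow_sub_one, ih, ← a_neg, ← a_add]
    congr 1
    push_cast
    ring

/-- the centraliser of a hyperbolic element -/
lemma centraliser {g g' h : SL} {T : ℝ} (hT : 0 < T)
    (hgT : (g : M2) = ((h * a T * h⁻¹ : SL) : M2) ∨ (g : M2) = -((h * a T * h⁻¹ : SL) : M2))
    (hc : g * g' = g' * g) : ∃ T' : ℝ,
      (g' : M2) = ((h * a T' * h⁻¹ : SL) : M2) ∨ (g' : M2) = -((h * a T' * h⁻¹ : SL) : M2) := by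
  obtain ⟨k, hk⟩ : ∃ k : SL, k = h⁻¹ * g' * h := ⟨_, rfl⟩
  have hg' : g' = h * k * h⁻¹ := by rw [hk]; group
  have hcomm : a (2 * T) * k = k * a (2 * T) := by
    have h1 : (g * g) * g' = g' * (g * g) := by
      rw [mul_assoc, hc, ← mul_assoc, hc, mul_assoc]
    rw [pow_even hgT, hg'] at h1
    have h2 : h * (a (2 * T) * k) * h⁻¹ = h * (k * a (2 * T)) * h⁻¹ := by
      calc h * (a (2 * T) * k) * h⁻¹ = h * a (2 * T) * h⁻¹ * (h * k * h⁻¹) := by group
        _ = h * k * h⁻¹ * (h * a (2 * T) * h⁻¹) := h1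
        _ = _ := by group
    exact mul_left_cancel (mul_right_cancel h2)
  have e : ∀ i j, ((a (2 * T) : M2) * (k : M2)) i j = ((k : M2) * (a (2 * T) : M2)) i j := by
    intro i j
    rw [← Matrix.SpecialLinearGroup.coe_mul, hcomm, Matrix.SpecialLinearGroup.coe_mul]
  have hne : exp (2 * T / 2) ≠ exp (-(2 * T / 2)) := by
    intro h1
    have := Real.exp_injective h1
    linarith
  have k01 : (k : M2) 0 1 = 0 := by
    have h1 := e 0 1
    rw [Matrix.mul_apply, Matrix.mul_apply, Fin.sum_univ_two, Fin.sum_univ_two] at h1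
    simp [a] at h1
    have h2 : (exp (2 * T / 2) - exp (-(2 * T / 2))) * (k : M2) 0 1 = 0 := by
      ring_nf at h1 ⊢
      linarith
    exact (mul_eq_zero.1 h2).resolve_left (sub_ne_zero.2 hne)
  have k10 : (k : M2) 1 0 = 0 := by
    have h1 := e 1 0
    rw [Matrix.mul_apply, Matrix.mul_apply, Fin.sum_univ_two, Fin.sum_univ_two] at h1
    simp [a] at h1
    have h2 : (exp (2 * T / 2) - exp (-(2 * T / 2))) * (k : M2) 1 0 = 0 := by
      ring_nf at h1 ⊢
      linarith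
    exact (mul_eq_zero.1 h2).resolve_left (sub_ne_zero.2 hne)
  have hdet : (k : M2) 0 0 * (k : M2) 1 1 = 1 := by
    have := FinM.det_eq k
    have k01' : k 0 1 = 0 := k01
    rw [k01'] at this
    linarith
  have hk0 : (k : M2) 0 0 ≠ 0 := left_ne_zero_of_mul_eq_one hdet
  have h11 : (k : M2) 1 1 = ((k : M2) 0 0)⁻¹ := eq_inv_of_mul_eq_one_right hdet
  refine ⟨2 * Real.log |(k : M2) 0 0|, ?_⟩
  have e1 : exp (2 * Real.log |(k : M2) 0 0| / 2) = |(k : M2) 0 0| := by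
    rw [mul_div_cancel_left₀ _ (by norm_num : (2 : ℝ) ≠ 0), Real.exp_log (abs_pos.2 hk0)]
  have e2 : exp (-(2 * Real.log |(k : M2) 0 0| / 2)) = |(k : M2) 0 0|⁻¹ := by
    rw [Real.exp_neg, e1]
  have hsign : (k : M2) = (a (2 * Real.log |(k : M2) 0 0|) : M2) ∨
      (k : M2) = -(a (2 * Real.log |(k : M2) 0 0|) : M2) := by
    rcases lt_or_gt_of_ne hk0 with hneg | hpos
    · right
      have e3 : (a (2 * Real.log |(k : M2) 0 0|) : M2) =
          !![|(k : M2) 0 0|, 0; 0, |(k : M2) 0 0|⁻¹] := by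
        simp only [a, Matrix.SpecialLinearGroup.coe_mk]
        rw [e1, e2]
      rw [e3, abs_of_neg hneg]
      ext i j
      fin_cases i <;> fin_cases j <;> simp [k01, k10, h11]
    · left
      have e3 : (a (2 * Real.log |(k : M2) 0 0|) : M2) =
          !![|(k : M2) 0 0|, 0; 0, |(k : M2) 0 0|⁻¹] := by
        simp only [a, Matrix.SpecialLinearGroup.coe_mk]
        rw [e1, e2]
      rw [e3, abs_of_pos hpos]
      ext i j
      fin_cases i <;> fin_cases j <;> simp [k01, k10, h11]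
  rcases hsign with h1 | h1
  · left
    have : k = a (2 * Real.log |(k : M2) 0 0|) := Subtype.ext h1
    rw [hg', ← this]
  · right
    rw [hg', Matrix.SpecialLinearGroup.coe_mul, Matrix.SpecialLinearGroup.coe_mul,
      Matrix.SpecialLinearGroup.coe_mul, Matrix.SpecialLinearGroup.coe_mul]
    have h2 : (k : M2) = -(a (2 * Real.log |(k : M2) 0 0|) : M2) := h1
    calc (h : M2) * (k : M2) * ((h⁻¹ : SL) : M2)
        = (h : M2) * (-(a (2 * Real.log |(k : M2) 0 0|) : M2)) * ((h⁻¹ : SL) : M2) := by rw [← h2]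
      _ = _ := by rw [mul_neg, neg_mul]

end Dyn

open Dyn in
theorem dynC (hfin : FinStmt) : DynCStmt := by
  intro g hg g' hg' hc
  have sq1 : ∀ u : SL, ((u : M2) = 1 ∨ (u : M2) = -1) → u ^ (2 : ℤ) = 1 := by
    intro u hu
    apply Subtype.ext
    rw [zpow_ofNat, pow_two, Matrix.SpecialLinearGroup.coe_mul, Matrix.SpecialLinearGroup.coe_one]
    rcases hu with hu | hu <;> rw [hu] <;> simp
  by_cases h1 : (g : M2) = 1 ∨ (g : M2) = -1
  · exact ⟨2, 0, Or.inl (by norm_num), by rw [sq1 g h1, zpow_zero, mul_one]⟩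
  push Not at h1
  obtain ⟨h, T, hT, hgT⟩ := dynA g hg h1.1 h1.2
  obtain ⟨T', hgT'⟩ := centraliser hT hgT hc
  have m1 := conj_mem hg hgT
  have m2 := conj_mem hg' hgT'
  obtain ⟨t0, ht0⟩ := H_cyclic hfin h
  rw [ht0, AddSubgroup.mem_closure_singleton] at m1 m2
  obtain ⟨m, hm⟩ := m1
  obtain ⟨n, hn⟩ := m2
  rw [zsmul_eq_mul] at hm hn
  have hm0 : m ≠ 0 := by
    rintro rfl
    rw [Int.cast_zero, zero_mul] at hm
    linarith
  refine ⟨2 * n, -(2 * m), Or.inr (by omega), ?_⟩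
  have p1 : g ^ (2 * n) = h * a (n * (2 * T)) * h⁻¹ := by
    rw [_root_.zpow_mul, zpow_ofNat, pow_two, pow_even hgT, a_zsmul]
  have p2 : g' ^ (-(2 * m)) = h * a ((-m : ℤ) * (2 * T')) * h⁻¹ := by
    rw [← mul_neg, _root_.zpow_mul, zpow_ofNat, pow_two, pow_even hgT', a_zsmul]
  rw [p1, p2]
  have e : h * a (n * (2 * T)) * h⁻¹ * (h * a ((-m : ℤ) * (2 * T')) * h⁻¹) =
      h * (a (n * (2 * T)) * a ((-m : ℤ) * (2 * T'))) * h⁻¹ := by group
  rw [e, ← a_add, ← hm, ← hn]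
  have e0 : (n : ℝ) * (2 * (m * t0)) + ((-m : ℤ) : ℝ) * (2 * (n * t0)) = 0 := by
    push_cast
    ring
  rw [e0, a_zero, mul_one, mul_inv_cancel]

end AdT
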