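import Pool.Agent.Helper88.AdT.Stmts1

/-!
# Topology of the filled manifold (module AD-11)
-/

open Matrix Real Topology Filter Set

noncomputable section

namespace AdT

namespace FNAux

/-! ### Locally Euclidean spaces -/

/-- Every point has a chart with values in euclidean 3-space. -/
def LocEuc (X : Type) [TopologicalSpace X] : Prop :=
  ∀ x : X, ∃ c : OpenPartialHomeomorph X (EuclideanSpace ℝ (Fin 3)), x ∈ c.source

lemma LocEuc.push {X Y : Type} [TopologicalSpace X] [TopologicalSpace Y] (h : LocEuc X)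
    {f : X → Y} (hf : IsLocalHomeomorph f) (x : X) :
    ∃ c : OpenPartialHomeomorph Y (EuclideanSpace ℝ (Fin 3)), f x ∈ c.source := by
  obtain ⟨e, he, hfe⟩ := hf x
  obtain ⟨c, hc⟩ := h x
  refine ⟨e.symm.trans c, ?_⟩
  rw [OpenPartialHomeomorph.trans_source, OpenPartialHomeomorph.symm_source]
  refine ⟨?_, ?_⟩
  · rw [hfe]
    exact e.map_source he
  · rw [Set.mem_preimage, hfe, e.left_inv he]
    exact hc

lemma LocEuc.pull {X Y : Type} [TopologicalSpace X] [TopologicalSpace Y] (h : LocEuc Y)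
    {f : X → Y} (hf : IsLocalHomeomorph f) : LocEuc X := by
  intro x
  obtain ⟨e, he, hfe⟩ := hf x
  obtain ⟨c, hc⟩ := h (f x)
  refine ⟨e.trans c, ?_⟩
  rw [OpenPartialHomeomorph.trans_source]
  refine ⟨he, ?_⟩
  rw [Set.mem_preimage, ← hfe]
  exact hc

/-! ### `SL` is locally Euclidean -/

/-- Reconstruct a matrix from three entries. -/
def mkSL (v : EuclideanSpace ℝ (Fin 3)) (h : v 2 ≠ 0) : SL :=
  ⟨!![(1 + v 0 * v 1) / v 2, v 0; v 1, v 2], by
    rw [Matrix.det_fin_two_of]
    field_simp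
    ring⟩

lemma cont_entry (i j : Fin 2) : Continuous (fun x : SL => x i j) :=
  (continuous_apply j).comp (Matrix.SpecialLinearGroup.continuous_apply _ continuous_id i)

open Classical in
/-- The chart of `SL` at the identity. -/
def chSL : OpenPartialHomeomorph SL (EuclideanSpace ℝ (Fin 3)) where
  toFun x := WithLp.toLp 2 ![x 0 1, x 1 0, x 1 1]
  invFun v := if h : v 2 ≠ 0 then mkSL v h else 1
  source := {x | 0 < x 1 1}
  target := {v | 0 < v 2}
  map_source' := by
    intro x hx
    simpa using hx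
  map_target' := by
    intro v hv
    have hv' : v 2 ≠ 0 := ne_of_gt hv
    rw [dif_pos hv']
    simpa [mkSL] using hv
  left_inv' := by
    intro x hx
    have hx' : x 1 1 ≠ 0 := ne_of_gt hx
    have hdet : x 0 0 * x 1 1 - x 0 1 * x 1 0 = 1 := by
      rw [← Matrix.det_fin_two]
      exact x.2
    rw [dif_pos (by simpa using hx')]
    apply Subtype.ext
    ext i j
    fin_cases i <;> fin_cases j
    · simp [mkSL]
      field_simp
      linarith
    · simp [mkSL]
    · simp [mkSL]
    · simp [mkSL]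
  right_inv' := by
    intro v hv
    have hv' : v 2 ≠ 0 := ne_of_gt hv
    rw [dif_pos hv']
    ext i
    fin_cases i <;> simp [mkSL]
  open_source := by
    exact isOpen_lt continuous_const (cont_entry 1 1)
  open_target := by
    refine isOpen_lt continuous_const ?_
    fun_prop
  continuousOn_toFun := by
    apply Continuous.continuousOn
    refine (PiLp.continuous_toLp 2 _).comp (continuous_pi fun i => ?_)
    fin_cases i
    · exact cont_entry 0 1
    · exact cont_entry 1 0
    · exact cont_entry 1 1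
  continuousOn_invFun := by
    have hc : ∀ i : Fin 3, ContinuousOn (fun v : EuclideanSpace ℝ (Fin 3) => v i)
        {v | 0 < v 2} := fun i => by fun_prop
    have h : ContinuousOn (fun v : EuclideanSpace ℝ (Fin 3) =>
        (!![(1 + v 0 * v 1) / v 2, v 0; v 1, v 2] : M2)) {v | 0 < v 2} := by
      refine continuousOn_pi.2 fun i => continuousOn_pi.2 fun j => ?_
      fin_cases i <;> fin_cases j
      · exact ContinuousOn.div (continuousOn_const.add ((hc 0).mul (hc 1))) (hc 2)
          (fun v hv => ne_of_gt hv)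
      · exact hc 0
      · exact hc 1
      · exact hc 2
    refine (IsInducing.subtypeVal.continuousOn_iff).2 (h.congr ?_)
    intro v hv
    have hv' : v 2 ≠ 0 := ne_of_gt hv
    simp only [Function.comp]
    rw [dif_pos hv']
    rfl

lemma locEuc_SL : LocEuc SL := by
  intro x
  refine ⟨(Homeomorph.mulLeft x⁻¹).toOpenPartialHomeomorph.trans chSL, ?_⟩
  rw [OpenPartialHomeomorph.trans_source]
  refine ⟨trivial, ?_⟩
  change 0 < (x⁻¹ * x : SL) 1 1
  rw [inv_mul_cancel]
  simp

/-! ### Solid tori are locally Euclidean -/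

instance : Fact ((0 : ℝ) < 2) := ⟨by norm_num⟩

lemma locEuc_prod : LocEuc (ℂ × ℝ) := by
  intro x
  have h : Module.finrank ℝ (ℂ × ℝ) = Module.finrank ℝ (EuclideanSpace ℝ (Fin 3)) := by
    rw [Module.finrank_prod, Complex.finrank_real_complex, Module.finrank_self,
      finrank_euclideanSpace, Fintype.card_fin]
  refine ⟨(ContinuousLinearEquiv.ofFinrankEq h).toHomeomorph.toOpenPartialHomeomorph, ?_⟩
  trivial

lemma locEuc_torus : LocEuc (ℂ × AddCircle (2 : ℝ)) := by
  rintro ⟨w, v⟩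
  induction v using QuotientAddGroup.induction_on with
  | H t =>
    have e := AddCircle.openPartialHomeomorphCoe (2 : ℝ) (t - 1)
    have h : (w, t) ∈ ((OpenPartialHomeomorph.refl ℂ).prod
        (AddCircle.openPartialHomeomorphCoe (2 : ℝ) (t - 1))).source := by
      rw [OpenPartialHomeomorph.prod_source]
      refine ⟨trivial, ?_⟩
      change t ∈ Ioo (t - 1) (t - 1 + 2)
      constructor <;> linarith
    obtain ⟨c, hc⟩ := locEuc_prod (w, t)
    refine ⟨((OpenPartialHomeomorph.refl ℂ).prod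
        (AddCircle.openPartialHomeomorphCoe (2 : ℝ) (t - 1))).symm.trans c, ?_⟩
    rw [OpenPartialHomeomorph.trans_source]
    refine ⟨OpenPartialHomeomorph.map_source _ h, ?_⟩
    rw [Set.mem_preimage]
    have h2 := OpenPartialHomeomorph.left_inv _ h
    have h3 : ((OpenPartialHomeomorph.refl ℂ).prod
        (AddCircle.openPartialHomeomorphCoe (2 : ℝ) (t - 1))) (w, t) =
          (w, (t : AddCircle (2 : ℝ))) := rfl
    rw [h3] at h2
    rw [h2]
    exact hc

/-! ### The twist -/

lemma tw_eq (w : ℂ) : tw w = (1 + w.re * w.im) * w.im + w.re := by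
  have : tw w = tau (y w) (nm 1 0 0) := rfl
  rw [this, tau_nm]
  simp [y]

lemma nw_eq (w : ℂ) : nw w = (1 + w.re * w.im) * w.im - w.re := by
  have : nw w = nu (y w) (nm 1 0 0) := rfl
  rw [this, nu_nm]
  simp [y]

lemma tn_ne (w : ℂ) (hw : w ≠ 0) : (tw w, nw w) ≠ (0 : ℝ × ℝ) := by
  intro h
  have h1 : tw w = 0 := congrArg Prod.fst h
  have h2 : nw w = 0 := congrArg Prod.snd h
  rw [tw_eq] at h1
  rw [nw_eq] at h2
  have hre : w.re = 0 := by linarith
  rw [hre] at h1
  have him : w.im = 0 := by linarith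
  exact hw (Complex.ext hre him)

/-- The punctured solid torus. -/
abbrev PT : Type := {p : ℂ × AddCircle (2 : ℝ) // p.1 ≠ 0 ∧ ‖p.1‖ < ε0}

/-- The twisting angle. -/
def tht (w : ℂ) : AddCircle (2 : ℝ) := th2 (tw w) (nw w)

lemma continuous_tht (hT : ThStmt) : Continuous (fun p : PT => tht p.1.1) := by
  have h1 : Continuous (fun p : PT => (tw p.1.1, nw p.1.1)) := by
    simp only [tw_eq, nw_eq]
    fun_prop
  exact hT.2.1.comp_continuous h1 (fun p => tn_ne p.1.1 p.2.1)

/-- The twist of the punctured solid torus. -/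
def twist (hT : ThStmt) : PT ≃ₜ PT where
  toFun p := ⟨(p.1.1, p.1.2 + tht p.1.1), p.2⟩
  invFun p := ⟨(p.1.1, p.1.2 - tht p.1.1), p.2⟩
  left_inv p := by
    apply Subtype.ext
    apply Prod.ext
    · rfl
    · exact add_sub_cancel_right _ _
  right_inv p := by
    apply Subtype.ext
    apply Prod.ext
    · rfl
    · exact sub_add_cancel _ _
  continuous_toFun := by
    have h := continuous_tht hT
    refine Continuous.subtype_mk ?_ _
    exact (continuous_fst.comp continuous_subtype_val).prodMk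
      ((continuous_snd.comp continuous_subtype_val).add h)
  continuous_invFun := by
    have h := continuous_tht hT
    refine Continuous.subtype_mk ?_ _
    exact (continuous_fst.comp continuous_subtype_val).prodMk
      ((continuous_snd.comp continuous_subtype_val).sub h)

lemma twist_val (hT : ThStmt) (p : PT) : (twist hT p).1 = (p.1.1, p.1.2 + tht p.1.1) := rfl

lemma gl_eq (g : SL) (p : ℂ × AddCircle (2 : ℝ)) : gl g p = psi g (p.1, p.2 + tht p.1) := by
  unfold gl tht
  rfl

lemma gl_emb (hT : ThStmt) (g : SL) (h : IsOpenEmbedding (fun p : PT => psi g p.1)) :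
    IsOpenEmbedding (fun p : PT => gl g p.1) := by
  have h1 : IsOpenEmbedding ((fun p : PT => psi g p.1) ∘ (twist hT)) :=
    h.comp (twist hT).isOpenEmbedding
  have h2 : (fun p : PT => gl g p.1) = (fun p : PT => psi g p.1) ∘ (twist hT) := by
    funext p
    rw [gl_eq, Function.comp_apply, twist_val]
  rw [h2]
  exact h1

lemma gl_image (g : SL) (A : ℂ → Prop) :
    gl g '' {p | A p.1} = psi g '' {p | A p.1} := by
  ext m
  constructor
  · rintro ⟨⟨w, v⟩, hp, rfl⟩
    refine ⟨(w, v + tht w), hp, ?_⟩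
    rw [gl_eq]
  · rintro ⟨⟨w, v⟩, hp, rfl⟩
    refine ⟨(w, v - tht w), hp, ?_⟩
    rw [gl_eq, sub_add_cancel]

lemma sep (gi : Idx → SL) (hg : GoodGi gi) (i j : Idx) (hij : i ≠ j) :
    ¬ ∃ γ ∈ Gam, cj γ (cj (gi i) Dm) = cj (gi j) Dm := by
  rintro ⟨γ, hγ, h⟩
  obtain ⟨h1, h2⟩ := hg.2 i
  obtain ⟨h3, h4⟩ := hg.2 j
  apply hij
  rw [← h2, ← h4]
  symm
  apply Quotient.sound'
  exact ⟨⟨γ, hγ⟩, Subtype.ext h⟩

/-! ### Rescaling the solid torus -/

/-- Rescaling. -/
def sc : {w : ℂ // ‖w‖ < 1} × AddCircle (1 : ℝ) ≃ₜ ST ε0 where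
  toFun x := ⟨((1 / 4 : ℂ) * x.1.1,
    AddCircle.homeomorphAddCircle (1 : ℝ) 2 one_ne_zero two_ne_zero x.2), by
      have h := x.1.2
      rw [norm_mul]
      norm_num [ε0]
      linarith⟩
  invFun p := (⟨4 * p.1.1, by
      have h := p.2
      rw [norm_mul]
      norm_num [ε0] at h ⊢
      linarith⟩, (AddCircle.homeomorphAddCircle (1 : ℝ) 2 one_ne_zero two_ne_zero).symm p.1.2)
  left_inv x := by
    apply Prod.ext
    · apply Subtype.ext
      change (4 : ℂ) * ((1 / 4 : ℂ) * x.1.1) = x.1.1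
      ring
    · exact Homeomorph.symm_apply_apply _ _
  right_inv p := by
    apply Subtype.ext
    apply Prod.ext
    · change (1 / 4 : ℂ) * ((4 : ℂ) * p.1.1) = p.1.1
      ring
    · exact Homeomorph.apply_symm_apply _ _
  continuous_toFun := by
    refine Continuous.subtype_mk ?_ _
    refine Continuous.prodMk (by fun_prop) ?_
    exact (Homeomorph.continuous _).comp continuous_snd
  continuous_invFun := by
    refine Continuous.prodMk (Continuous.subtype_mk (by fun_prop) _) ?_
    exact (Homeomorph.continuous _).comp (continuous_snd.comp continuous_subtype_val)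

lemma sc_fst (x : {w : ℂ // ‖w‖ < 1} × AddCircle (1 : ℝ)) :
    (sc x).1.1 = (1 / 4 : ℂ) * x.1.1 := rfl

lemma sc_fst_eq_zero (x : {w : ℂ // ‖w‖ < 1} × AddCircle (1 : ℝ)) :
    (sc x).1.1 = 0 ↔ x.1.1 = 0 := by
  rw [sc_fst, mul_eq_zero]
  constructor
  · rintro (h | h)
    · norm_num at h
    · exact h
  · exact Or.inr

lemma isOpen_ST : IsOpen {p : ℂ × AddCircle (2 : ℝ) | ‖p.1‖ < ε0} := by
  refine isOpen_lt ?_ continuous_const
  fun_prop

lemma dense_punctured : Dense {p : ST ε0 | p.1.1 ≠ 0} := by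
  have h1 : Dense ({(0 : ℂ)}ᶜ ×ˢ (univ : Set (AddCircle (2 : ℝ)))) :=
    (dense_compl_singleton (0 : ℂ)).prod dense_univ
  have h2 : Dense ((Subtype.val : ST ε0 → ℂ × AddCircle (2 : ℝ)) ⁻¹'
      ({(0 : ℂ)}ᶜ ×ˢ (univ : Set (AddCircle (2 : ℝ))))) :=
    h1.preimage isOpen_ST.isOpenEmbedding_subtypeVal.isOpenMap
  refine h2.mono ?_
  rintro p ⟨hp, _⟩
  exact hp

end FNAux

open FNAux

theorem fnStmt (hA : TubeAStmt) (hB : TubeBStmt) (hC : TubeCStmt) (hQ : QuotAStmt)
    (hQ2 : QuotBStmt) (hF : FillStmt) (hT : ThStmt) : FNStmt := by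
  intro gi hg
  have hε0 : 0 < ε0 := by norm_num [ε0]
  have hT2 : T2Space M := hQ.2.2
  have hfin : Finite Idx := hC.2.1
  have hemb : ∀ i, IsOpenEmbedding (fun p : PT => gl (gi i) p.1) := fun i =>
    gl_emb hT (gi i) (hB (gi i) (hg.1 i))
  have hsep : ∀ i j, i ≠ j → ∀ p q : ℂ × AddCircle (2 : ℝ), p.1 ≠ 0 → ‖p.1‖ < ε0 → q.1 ≠ 0 →
      ‖q.1‖ < ε0 → gl (gi i) p ≠ gl (gi j) q := by
    intro i j hij p q hp1 hp2 hq1 hq2
    rw [gl_eq, gl_eq]
    exact hA.2.2.2.1 (gi i) (hg.1 i) (gi j) (hg.1 j) (sep gi hg i j hij) (p.1, p.2 + tht p.1)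
      (q.1, q.2 + tht q.1) hp1 hp2 hq1 hq2
  obtain ⟨f1, f2, f3, f4, f5, f6, f7, f8⟩ := hF M Idx ε0 hε0 (fun i => gl (gi i)) hemb hsep
    (fun i δ h1 h2 => by
      rw [gl_image (gi i) (fun w => w ≠ 0 ∧ ‖w‖ ≤ δ)]
      exact hC.1 (gi i) (hg.1 i) δ h1 h2)
    (fun δ h1 h2 => by
      have h := hC.2.2 gi hg.1 hg.2 δ h1 h2
      have e : ∀ i, gl (gi i) '' {p | p.1 ≠ 0 ∧ ‖p.1‖ < δ} =
          psi (gi i) '' {p | p.1 ≠ 0 ∧ ‖p.1‖ < δ} := fun i =>
        gl_image (gi i) (fun w => w ≠ 0 ∧ ‖w‖ < δ)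
      rw [Set.iUnion_congr e]
      exact h)
  have hDm : Dm ∈ Lines := ⟨1, 0, 0, by norm_num, by simp [Dm]⟩
  have hne : Nonempty Idx := ⟨Quotient.mk'' (⟨Dm, hDm⟩ : LL)⟩
  have hrange : (range (jN gi))ᶜ = Sg gi := by
    ext q
    constructor
    · intro hq
      rcases f6 q with ⟨x, hx⟩ | ⟨i, p, hp, h⟩
      · exact absurd ⟨x, hx⟩ hq
      · exact ⟨i, p, hp, h⟩
    · rintro ⟨i, p, hp, h⟩ ⟨x, hx⟩
      exact f7 i p x hp (h.trans hx.symm)
  refine ⟨f3, f4, f5, hrange, f8, hne, hfin, ⟨f1, f2, ?_, ?_⟩, ?_⟩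
  · -- connected
    have hE : PathConnectedSpace E := hQ2
    have hM : ConnectedSpace M := by
      have hs : Function.Surjective pr := hQ.2.1.surjective
      have hc : Continuous pr := hQ.2.1.continuous
      exact hs.connectedSpace hc
    have hd : DenseRange (jN gi) := by
      intro q
      rcases f6 q with ⟨x, hx⟩ | ⟨i, p, hp, h⟩
      · exact subset_closure ⟨x, hx⟩
      · subst h
        have hp2 : p ∈ closure {p : ST ε0 | p.1.1 ≠ 0} := dense_punctured p
        have h3 := image_closure_subset_closure_image (f4 i).continuous ⟨p, hp2, rfl⟩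
        refine closure_mono ?_ h3
        rintro _ ⟨p', hp', rfl⟩
        exact ⟨_, (f5 i p' hp').symm⟩
    have hp := hd.preconnectedSpace f3.continuous
    exact { toPreconnectedSpace := hp, toNonempty := ⟨jN gi (Classical.arbitrary M)⟩ }
  · -- locally Euclidean
    intro q
    have hSL : LocEuc E := locEuc_SL.pull (hQ.1.isOpenEmbedding_subtypeVal.isLocalHomeomorph)
    rcases f6 q with ⟨x, hx⟩ | ⟨i, p, hp, h⟩
    · obtain ⟨e, rfl⟩ := hQ.2.1.surjective x
      subst hx
      have h1 : IsLocalHomeomorph (fun x : E => jN gi (pr x)) :=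
        f3.isLocalHomeomorph.comp hQ.2.1.isCoveringMap.isLocalHomeomorph
      exact hSL.push h1 e
    · subst h
      have h2 : LocEuc (ST ε0) :=
        locEuc_torus.pull (isOpen_ST.isOpenEmbedding_subtypeVal.isLocalHomeomorph)
      exact h2.push (f4 i).isLocalHomeomorph p
  · -- link
    refine ⟨Idx, hfin, hne, fun i x => kN gi i (sc x), ?_, ?_, ?_⟩
    · intro i
      exact (f4 i).comp sc.isOpenEmbedding
    · intro i j hij
      rw [Set.disjoint_iff_forall_ne]
      rintro _ ⟨x, rfl⟩ _ ⟨x', rfl⟩ h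
      change kN gi i (sc x) = kN gi j (sc x') at h
      generalize sc x = p at h
      generalize sc x' = p' at h
      by_cases hp : p.1.1 = 0
      · by_cases hp' : p'.1.1 = 0
        · exact hij (f8 i j p p' hp hp' h).1
        · have h5 := f5 j p' hp'
          exact f7 i p _ hp (h.trans h5)
      · have h4 := f5 i p hp
        by_cases hp' : p'.1.1 = 0
        · exact f7 j p' _ hp' (h.symm.trans h4)
        · have h5 := f5 j p' hp'
          have h6 := f3.injective (h4.symm.trans (h.trans h5))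
          exact hsep i j hij p.1 p'.1 hp p.2 hp' p'.2 h6
    · ext q
      rw [Set.mem_iUnion]
      constructor
      · rintro ⟨i, p, hp, h⟩
        refine ⟨i, sc.symm p, ?_, ?_⟩
        · change (sc.symm p).1.1 = 0
          rw [← sc_fst_eq_zero, Homeomorph.apply_symm_apply]
          exact hp
        · change kN gi i (sc (sc.symm p)) = q
          rw [Homeomorph.apply_symm_apply]
          exact h
      · rintro ⟨i, x, hx, h⟩
        exact ⟨i, sc x, (sc_fst_eq_zero x).2 hx, h⟩

theorem existsGi (h : TransStmt) : ExistsGiStmt := by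
  have h1 : ∀ i : Idx, ∃ g : SL, g ∈ Nz ∧ ∃ h : cj g Dm ∈ Lines,
      (Quotient.mk'' (⟨_, h⟩ : LL) : Idx) = i := by
    intro i
    induction i using Quotient.inductionOn' with
    | h N =>
      obtain ⟨g, hg, hN⟩ := h N.1 N.2
      refine ⟨g, hg, ?_⟩
      have h2 : cj g Dm ∈ Lines := by
        rw [hN]
        exact N.2
      refine ⟨h2, ?_⟩
      congr 1
      exact Subtype.ext hN
  choose gi h2 h3 using h1
  exact ⟨gi, h2, h3⟩

end AdT
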