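import Pool.Agent.Helper88.AdT.Stmts1

/-!
AD-7a: a map which is the identity on the base and strictly increasing on the fibres is
injective and open.
-/

open Matrix Real Topology Filter Set

namespace AdT

theorem monoFibre : MonoFibreStmt := by
  intro Z _ O hO H hH hmono V hV t₀ t₁ hsub
  have hseg : ∀ ζ ∈ V, ∀ s ∈ Ioo t₀ t₁, ∀ s' ∈ Ioo t₀ t₁, s < s' → H (ζ, s) < H (ζ, s') := by
    intro ζ hζ s hs s' hs' hlt
    apply hmono ζ s s' hlt
    intro t ht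
    exact hsub ⟨hζ, lt_of_lt_of_le hs.1 ht.1, lt_of_le_of_lt ht.2 hs'.2⟩
  constructor
  · rintro ⟨ζ, s⟩ hp ⟨ζ', s'⟩ hp' heq
    simp only [Prod.mk.injEq] at heq
    obtain ⟨rfl, h2⟩ := heq
    rcases lt_trichotomy s s' with h | h | h
    · exact absurd h2 (hseg ζ hp.1 s hp.2 s' hp'.2 h).ne
    · rw [h]
    · exact absurd h2 (hseg ζ hp.1 s' hp'.2 s hp.2 h).ne'
  · intro W hWsub hW
    rw [isOpen_iff_mem_nhds]
    rintro _ ⟨⟨ζ₀, s₀⟩, hp, rfl⟩
    -- a small vertical segment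
    have hcont : Continuous (fun s : ℝ => (ζ₀, s)) := by fun_prop
    have hpre : (fun s : ℝ => (ζ₀, s)) ⁻¹' W ∈ 𝓝 s₀ :=
      (hW.preimage hcont).mem_nhds hp
    obtain ⟨δ, hδ, hball⟩ := Metric.mem_nhds_iff.1 hpre
    set p := s₀ - δ / 2 with hpdef
    set q := s₀ + δ / 2 with hqdef
    have hpq : ∀ s ∈ Icc p q, (ζ₀, s) ∈ W := by
      intro s hs
      apply hball
      rw [Metric.mem_ball, Real.dist_eq, abs_lt]
      constructor <;> linarith [hs.1, hs.2]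
    have hcomp : IsCompact (Icc p q) := isCompact_Icc
    obtain ⟨N, T, hN, -, hζN, hT, hNT⟩ := generalized_tube_lemma (isCompact_singleton (x := ζ₀))
      hcomp hW (by
        rintro ⟨ζ, s⟩ ⟨h1, h2⟩
        rw [Set.mem_singleton_iff] at h1
        simp only at h1 h2
        subst h1
        exact hpq s h2)
    have hple : p ≤ q := by linarith
    have hp1 : (ζ₀, p) ∈ W := hpq p ⟨le_rfl, hple⟩
    have hq1 : (ζ₀, q) ∈ W := hpq q ⟨hple, le_rfl⟩
    have hin : ∀ z s, (z, s) ∈ W → z ∈ V ∧ s ∈ Ioo t₀ t₁ := fun z s h => hWsub h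
    have hlt1 : H (ζ₀, p) < H (ζ₀, s₀) :=
      hseg ζ₀ (hin _ _ hp1).1 p (hin _ _ hp1).2 s₀ (hin _ _ hp).2 (by linarith)
    have hlt2 : H (ζ₀, s₀) < H (ζ₀, q) :=
      hseg ζ₀ (hin _ _ hp1).1 s₀ (hin _ _ hp).2 q (hin _ _ hq1).2 (by linarith)
    obtain ⟨h₁, hh1, hh1'⟩ := exists_between hlt1
    obtain ⟨h₂, hh2, hh2'⟩ := exists_between hlt2
    have hHat : ∀ z s, (z, s) ∈ W → ContinuousAt H (z, s) := by
      intro z s h
      exact hH.continuousAt (hO.mem_nhds (hsub (hWsub h)))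
    have hc1 : ContinuousAt (fun z => H (z, p)) ζ₀ := by
      have : ContinuousAt (fun z : Z => (z, p)) ζ₀ := by fun_prop
      exact ContinuousAt.comp (f := fun z : Z => (z, p)) (hHat _ _ hp1) this
    have hc2 : ContinuousAt (fun z => H (z, q)) ζ₀ := by
      have : ContinuousAt (fun z : Z => (z, q)) ζ₀ := by fun_prop
      exact ContinuousAt.comp (f := fun z : Z => (z, q)) (hHat _ _ hq1) this
    have hN' : ∀ᶠ z in 𝓝 ζ₀, z ∈ N := hN.mem_nhds (hζN rfl)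
    have hev : ∀ᶠ z in 𝓝 ζ₀, z ∈ N ∧ H (z, p) < h₁ ∧ h₂ < H (z, q) :=
      hN'.and ((hc1.eventually_lt_const hh1).and
        (hc2.eventually_const_lt hh2'))
    have hmem : {z | z ∈ N ∧ H (z, p) < h₁ ∧ h₂ < H (z, q)} ×ˢ Ioo h₁ h₂ ∈
        𝓝 (ζ₀, H (ζ₀, s₀)) :=
      prod_mem_nhds hev (Ioo_mem_nhds hh1' hh2)
    refine Filter.mem_of_superset hmem ?_
    rintro ⟨z, h⟩ ⟨⟨hzN, hz1, hz2⟩, hh⟩
    simp only at hzN hz1 hz2 hh
    have hzW : ∀ s ∈ Icc p q, (z, s) ∈ W := fun s hs => hNT ⟨hzN, hT hs⟩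
    have hcz : ContinuousOn (fun s => H (z, s)) (Icc p q) := by
      intro s hs
      have h3 : ContinuousAt (fun s : ℝ => (z, s)) s := by fun_prop
      exact (ContinuousAt.comp (f := fun s : ℝ => (z, s)) (hHat _ _ (hzW s hs)) h3).continuousWithinAt
    obtain ⟨s, hs, hs'⟩ := intermediate_value_Icc hple hcz
      (show h ∈ Icc (H (z, p)) (H (z, q)) from ⟨(hz1.trans hh.1).le, (hh.2.trans hz2).le⟩)
    refine ⟨(z, s), hzW s hs, ?_⟩
    simp only at hs'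
    simp only [hs']

end AdT
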