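import Pool.Agent.Helper88.AdT.Stmts

/-!
AD-10: gluing solid tori to a space (general topology).
-/

open Matrix Real Topology Filter Set

noncomputable section

namespace AdT

namespace Fill

section Basic

variable {X : Type} {ι : Type} (ε : ℝ) (e : ι → ℂ × AddCircle (2 : ℝ) → X)

open Classical in
/-- normal form -/
def nf : X ⊕ (Σ _ : ι, ST ε) → X ⊕ (Σ _ : ι, ST ε)
  | .inl x => .inl x
  | .inr ⟨i, p⟩ => if p.1.1 = 0 then .inr ⟨i, p⟩ else .inl (e i p.1)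

theorem nf_inl (x : X) : nf ε e (.inl x) = .inl x := rfl

theorem nf_core (i : ι) (p : ST ε) (h : p.1.1 = 0) : nf ε e (.inr ⟨i, p⟩) = .inr ⟨i, p⟩ := by
  simp [nf, h]

theorem nf_ne (i : ι) (p : ST ε) (h : p.1.1 ≠ 0) : nf ε e (.inr ⟨i, p⟩) = .inl (e i p.1) := by
  simp [nf, h]

theorem nf_rel (u v : X ⊕ (Σ _ : ι, ST ε)) (h : FillRel ε e u v) : nf ε e u = nf ε e v := by
  obtain ⟨i, p, hp, rfl, rfl⟩ := h
  rw [nf_inl, nf_ne ε e i p hp]

theorem nf_eq_of_mk_eq {u v : X ⊕ (Σ _ : ι, ST ε)}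
    (h : Quot.mk (FillRel ε e) u = Quot.mk (FillRel ε e) v) : nf ε e u = nf ε e v := by
  have := congrArg (Quot.lift (nf ε e) (nf_rel ε e)) h
  exact this

theorem fk_eq_fj (i : ι) (p : ST ε) (h : p.1.1 ≠ 0) : fk ε e i p = fj ε e (e i p.1) :=
  (Quot.sound ⟨i, p, h, rfl, rfl⟩ : Quot.mk (FillRel ε e) _ = Quot.mk (FillRel ε e) _).symm

theorem fj_inj {x x' : X} (h : fj ε e x = fj ε e x') : x = x' := by
  have := nf_eq_of_mk_eq ε e h
  rw [nf_inl, nf_inl] at this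
  exact Sum.inl_injective this

theorem core_ne (i : ι) (p : ST ε) (x : X) (hp : p.1.1 = 0) : fk ε e i p ≠ fj ε e x := by
  intro h
  have := nf_eq_of_mk_eq ε e h
  rw [nf_core ε e i p hp, nf_inl] at this
  exact absurd this (by simp)

theorem core_core (i j : ι) (p q : ST ε) (hp : p.1.1 = 0) (hq : q.1.1 = 0)
    (h : fk ε e i p = fk ε e j q) : i = j ∧ p = q := by
  have := nf_eq_of_mk_eq ε e h
  rw [nf_core ε e i p hp, nf_core ε e j q hq] at this
  have h2 := Sum.inr_injective this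
  rw [Sigma.mk.injEq] at h2
  exact ⟨h2.1, eq_of_heq h2.2⟩

theorem cover (q : Fill ε e) :
    (∃ x, fj ε e x = q) ∨ ∃ i p, p.1.1 = 0 ∧ fk ε e i p = q := by
  obtain ⟨u, rfl⟩ := Quot.exists_rep q
  rcases u with x | ⟨i, p⟩
  · exact Or.inl ⟨x, rfl⟩
  · by_cases hp : p.1.1 = 0
    · exact Or.inr ⟨i, p, hp, rfl⟩
    · exact Or.inl ⟨e i p.1, (fk_eq_fj ε e i p hp).symm⟩

theorem fk_cases {i j : ι} {p q : ST ε} (h : fk ε e i p = fk ε e j q) :
    (p.1.1 = 0 ∧ q.1.1 = 0 ∧ i = j ∧ p = q) ∨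
      (p.1.1 ≠ 0 ∧ q.1.1 ≠ 0 ∧ e i p.1 = e j q.1) := by
  by_cases hp : p.1.1 = 0
  · by_cases hq : q.1.1 = 0
    · exact Or.inl ⟨hp, hq, core_core ε e i j p q hp hq h⟩
    · rw [fk_eq_fj ε e j q hq] at h
      exact absurd h (core_ne ε e i p _ hp)
  · by_cases hq : q.1.1 = 0
    · rw [fk_eq_fj ε e i p hp] at h
      exact absurd h.symm (core_ne ε e j q _ hq)
    · rw [fk_eq_fj ε e i p hp, fk_eq_fj ε e j q hq] at h
      exact Or.inr ⟨hp, hq, fj_inj ε e h⟩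

theorem fk_fj {i : ι} {p : ST ε} {x : X} (h : fk ε e i p = fj ε e x) :
    p.1.1 ≠ 0 ∧ e i p.1 = x := by
  have hp : p.1.1 ≠ 0 := fun hp => core_ne ε e i p x hp h
  rw [fk_eq_fj ε e i p hp] at h
  exact ⟨hp, fj_inj ε e h⟩

end Basic

section Top

variable {X : Type} [TopologicalSpace X] {ι : Type} (ε : ℝ)
  (e : ι → ℂ × AddCircle (2 : ℝ) → X)

theorem isOpen_iff (U : Set (Fill ε e)) :
    IsOpen U ↔ IsOpen (fj ε e ⁻¹' U) ∧ ∀ i, IsOpen (fk ε e i ⁻¹' U) := by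
  have h : IsOpen U ↔ IsOpen ((Quot.mk (FillRel ε e)) ⁻¹' U) :=
    isQuotientMap_quot_mk.isOpen_preimage.symm
  rw [h, isOpen_sum_iff, isOpen_sigma_iff]
  rfl

theorem continuous_fj : Continuous (fj ε e) :=
  continuous_quot_mk.comp continuous_inl

theorem continuous_fk (i : ι) : Continuous (fk ε e i) :=
  continuous_quot_mk.comp (continuous_inr.comp continuous_sigmaMk)

section Hyp

variable (he : ∀ i, IsOpenEmbedding
      (fun p : {p : ℂ × AddCircle (2 : ℝ) // p.1 ≠ 0 ∧ ‖p.1‖ < ε} => e i p.1))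

include he

theorem e_inj {i : ι} {p q : ST ε} (hp : p.1.1 ≠ 0) (hq : q.1.1 ≠ 0) (h : e i p.1 = e i q.1) :
    p = q := by
  have := (he i).injective
    (a₁ := ⟨p.1, hp, p.2⟩) (a₂ := ⟨q.1, hq, q.2⟩) h
  have h2 : p.1 = q.1 := by
    have h3 := congrArg (fun r : {p : ℂ × AddCircle (2 : ℝ) // p.1 ≠ 0 ∧ ‖p.1‖ < ε} => r.1) this
    exact h3
  exact Subtype.ext h2

theorem fk_inj (i : ι) : Function.Injective (fk ε e i) := by
  intro p q h
  rcases fk_cases ε e h with h1 | h1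
  · exact h1.2.2.2
  · exact e_inj ε e he h1.1 h1.2.1 h1.2.2

theorem isOpen_pre (i : ι) {W : Set X} (hW : IsOpen W) :
    IsOpen {p : ST ε | p.1.1 ≠ 0 ∧ e i p.1 ∈ W} := by
  have h1 : IsOpen {p : {p : ℂ × AddCircle (2 : ℝ) // p.1 ≠ 0 ∧ ‖p.1‖ < ε} | e i p.1 ∈ W} :=
    hW.preimage (he i).continuous
  have hop : IsOpen {p : ℂ × AddCircle (2 : ℝ) | p.1 ≠ 0 ∧ ‖p.1‖ < ε} := by
    apply IsOpen.and
    · exact isOpen_ne.preimage continuous_fst
    · exact isOpen_lt (by fun_prop) continuous_const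
  have h2 := hop.isOpenEmbedding_subtypeVal.isOpenMap _ h1
  have h3 : {p : ST ε | p.1.1 ≠ 0 ∧ e i p.1 ∈ W} = Subtype.val ⁻¹'
      ((Subtype.val : {p : ℂ × AddCircle (2 : ℝ) // p.1 ≠ 0 ∧ ‖p.1‖ < ε} → _) ''
        {p : {p : ℂ × AddCircle (2 : ℝ) // p.1 ≠ 0 ∧ ‖p.1‖ < ε} | e i p.1 ∈ W}) := by
    ext p
    constructor
    · rintro ⟨hp, hW⟩
      exact ⟨⟨p.1, hp, p.2⟩, hW, rfl⟩
    · rintro ⟨q, hq, hqp⟩
      refine ⟨?_, ?_⟩
      · rw [← hqp]
        exact q.2.1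
      · rw [← hqp]
        exact hq
  rw [h3]
  exact h2.preimage continuous_subtype_val

theorem isOpen_image (i : ι) {W : Set (ST ε)} (hW : IsOpen W) :
    IsOpen {x : X | ∃ p ∈ W, p.1.1 ≠ 0 ∧ e i p.1 = x} := by
  have h1 : IsOpen {p : {p : ℂ × AddCircle (2 : ℝ) // p.1 ≠ 0 ∧ ‖p.1‖ < ε} |
      (⟨p.1, p.2.2⟩ : ST ε) ∈ W} :=
    hW.preimage (by fun_prop)
  have h2 := (he i).isOpenMap _ h1
  convert h2 using 1
  ext x
  constructor
  · rintro ⟨p, hp, hp0, rfl⟩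
    exact ⟨⟨p.1, hp0, p.2⟩, hp, rfl⟩
  · rintro ⟨p, hp, rfl⟩
    exact ⟨⟨p.1, p.2.2⟩, hp, p.2.1, rfl⟩

theorem isOpenEmbedding_fj : IsOpenEmbedding (fj ε e) := by
  refine .of_continuous_injective_isOpenMap (continuous_fj ε e) (fun _ _ => fj_inj ε e) ?_
  intro W hW
  rw [isOpen_iff]
  constructor
  · rw [preimage_image_eq _ (fun _ _ => fj_inj ε e)]
    exact hW
  · intro i
    convert isOpen_pre ε e he i hW using 1
    ext p
    constructor
    · rintro ⟨x, hx, hxp⟩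
      obtain ⟨h1, h2⟩ := fk_fj ε e hxp.symm
      exact ⟨h1, h2 ▸ hx⟩
    · rintro ⟨h1, h2⟩
      exact ⟨_, h2, (fk_eq_fj ε e i p h1).symm⟩

theorem isOpenEmbedding_fk
    (hne : ∀ i j, i ≠ j → ∀ p q : ℂ × AddCircle (2 : ℝ), p.1 ≠ 0 → ‖p.1‖ < ε → q.1 ≠ 0 →
      ‖q.1‖ < ε → e i p ≠ e j q) (i : ι) : IsOpenEmbedding (fk ε e i) := by
  refine .of_continuous_injective_isOpenMap (continuous_fk ε e i) (fk_inj ε e he i) ?_
  intro W hW
  rw [isOpen_iff]
  constructor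
  · convert isOpen_image ε e he i hW using 1
    ext x
    constructor
    · rintro ⟨p, hp, hpx⟩
      obtain ⟨h1, h2⟩ := fk_fj ε e hpx
      exact ⟨p, hp, h1, h2⟩
    · rintro ⟨p, hp, h1, h2⟩
      exact ⟨p, hp, (fk_eq_fj ε e i p h1).trans (congrArg _ h2)⟩
  · intro j
    by_cases hij : i = j
    · subst hij
      rw [preimage_image_eq _ (fk_inj ε e he i)]
      exact hW
    · convert isOpen_empty using 1
      rw [eq_empty_iff_forall_notMem]
      rintro p ⟨q, -, hq⟩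
      rcases fk_cases ε e hq with h1 | h1
      · exact hij h1.2.2.1
      · exact hne i j hij q.1 p.1 h1.1 q.2 h1.2.1 p.2 h1.2.2

end Hyp

end Top

end Fill

open Fill in
theorem fill : FillStmt := by
  intro X _ _ ι _ ε hε e he hne hcl hcp
  have oj := isOpenEmbedding_fj ε e he
  have ok := isOpenEmbedding_fk ε e he hne
  have disj : ∀ i j, i ≠ j → ∀ p q : ST ε, fk ε e i p ≠ fk ε e j q := by
    intro i j hij p q h
    rcases fk_cases ε e h with h1 | h1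
    · exact hij h1.2.2.1
    · exact hne i j hij p.1 q.1 h1.1 p.2 h1.2.1 q.2 h1.2.2
  -- separation of a point of `X` from a core point
  have sepcore : ∀ (x : X) (i : ι) (p : ST ε), p.1.1 = 0 →
      ∃ U V : Set (AdT.Fill ε e), IsOpen U ∧ IsOpen V ∧ fj ε e x ∈ U ∧ fk ε e i p ∈ V ∧
        Disjoint U V := by
    intro x i p hp
    obtain ⟨δ, hδ, hδε, hx⟩ : ∃ δ : ℝ, 0 < δ ∧ δ < ε ∧
        x ∉ e i '' {p | p.1 ≠ 0 ∧ ‖p.1‖ ≤ δ} := by
      by_cases hx : x ∈ e i '' {p | p.1 ≠ 0 ∧ ‖p.1‖ ≤ ε / 2}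
      · obtain ⟨p0, ⟨hp0, hp0'⟩, rfl⟩ := hx
        have hpos : 0 < ‖p0.1‖ := norm_pos_iff.2 hp0
        refine ⟨‖p0.1‖ / 2, by positivity, by linarith, ?_⟩
        rintro ⟨p1, ⟨hp1, hp1'⟩, h⟩
        have hb0 : ‖p0.1‖ < ε := by linarith
        have hb1 : ‖p1.1‖ < ε := by linarith
        have := (he i).injective (a₁ := ⟨p1, hp1, hb1⟩) (a₂ := ⟨p0, hp0, hb0⟩) h
        have h2 : p1 = p0 := congrArg Subtype.val this
        subst h2
        linarith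
      · exact ⟨ε / 2, by linarith, by linarith, hx⟩
    refine ⟨fj ε e '' (e i '' {p | p.1 ≠ 0 ∧ ‖p.1‖ ≤ δ})ᶜ,
      fk ε e i '' {p : ST ε | ‖p.1.1‖ < δ}, oj.isOpenMap _ (hcl i δ hδ hδε).isOpen_compl,
      (ok i).isOpenMap _ (isOpen_lt (by fun_prop) continuous_const),
      mem_image_of_mem _ hx, mem_image_of_mem _ (by simpa [hp] using hδ), ?_⟩
    rw [Set.disjoint_left]
    rintro _ ⟨x', hx', rfl⟩ ⟨p', hp', h⟩
    obtain ⟨h1, h2⟩ := fk_fj ε e h
    exact hx' ⟨p'.1, ⟨h1, le_of_lt hp'⟩, h2⟩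
  refine ⟨⟨?_⟩, ⟨?_⟩, oj, ok, fun i p hp => fk_eq_fj ε e i p hp, cover ε e,
    fun i p x hp => core_ne ε e i p x hp, core_core ε e⟩
  · intro q q' hqq
    rcases cover ε e q with ⟨x, rfl⟩ | ⟨i, p, hp, rfl⟩
    · rcases cover ε e q' with ⟨x', rfl⟩ | ⟨j, p', hp', rfl⟩
      · have hxx : x ≠ x' := fun h => hqq (congrArg _ h)
        obtain ⟨U, V, hU, hV, hxU, hxV, hd⟩ := t2_separation hxx
        exact ⟨fj ε e '' U, fj ε e '' V, oj.isOpenMap _ hU, oj.isOpenMap _ hV,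
          mem_image_of_mem _ hxU, mem_image_of_mem _ hxV,
          (Set.disjoint_image_iff oj.injective).2 hd⟩
      · exact sepcore x j p' hp'
    · rcases cover ε e q' with ⟨x', rfl⟩ | ⟨j, p', hp', rfl⟩
      · obtain ⟨U, V, hU, hV, h1, h2, hd⟩ := sepcore x' i p hp
        exact ⟨V, U, hV, hU, h2, h1, hd.symm⟩
      · by_cases hij : i = j
        · subst hij
          have hpp : p ≠ p' := fun h => hqq (congrArg _ h)
          obtain ⟨U, V, hU, hV, hxU, hxV, hd⟩ := t2_separation hpp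
          exact ⟨fk ε e i '' U, fk ε e i '' V, (ok i).isOpenMap _ hU, (ok i).isOpenMap _ hV,
            mem_image_of_mem _ hxU, mem_image_of_mem _ hxV,
            (Set.disjoint_image_iff (ok i).injective).2 hd⟩
        · refine ⟨range (fk ε e i), range (fk ε e j), (ok i).isOpen_range, (ok j).isOpen_range,
            mem_range_self _, mem_range_self _, ?_⟩
          rw [Set.disjoint_left]
          rintro _ ⟨a, rfl⟩ ⟨b, hb⟩
          exact disj i j hij a b hb.symm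
  · have hδ : 0 < ε / 2 := by linarith
    have hδε : ε / 2 < ε := by linarith
    have : Fact ((0 : ℝ) < 2) := ⟨by norm_num⟩
    have hc1 := (hcp (ε / 2) hδ hδε).image (continuous_fj ε e)
    have hc2 : ∀ i, IsCompact (fk ε e i '' {p : ST ε | ‖p.1.1‖ ≤ ε / 2}) := by
      intro i
      refine IsCompact.image ?_ (continuous_fk ε e i)
      have hind : IsInducing (Subtype.val : ST ε → ℂ × AddCircle (2 : ℝ)) :=
        Topology.IsInducing.subtypeVal
      rw [hind.isCompact_iff]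
      have : (Subtype.val '' {p : ST ε | ‖p.1.1‖ ≤ ε / 2} : Set (ℂ × AddCircle (2 : ℝ)))
          = Metric.closedBall 0 (ε / 2) ×ˢ univ := by
        ext p
        constructor
        · rintro ⟨q, hq, rfl⟩
          refine ⟨?_, mem_univ _⟩
          simpa using hq
        · rintro ⟨hp, -⟩
          rw [mem_closedBall_zero_iff] at hp
          exact ⟨⟨p, lt_of_le_of_lt hp hδε⟩, hp, rfl⟩
      rw [this]
      exact (isCompact_closedBall _ _).prod isCompact_univ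
    have hc3 := isCompact_iUnion hc2
    have hc4 := hc1.union hc3
    convert hc4 using 1
    symm
    rw [eq_univ_iff_forall]
    intro q
    rcases cover ε e q with ⟨x, rfl⟩ | ⟨i, p, hp, rfl⟩
    · by_cases hx : x ∈ ⋃ i, e i '' {p | p.1 ≠ 0 ∧ ‖p.1‖ < ε / 2}
      · rw [mem_iUnion] at hx
        obtain ⟨i, p, ⟨hp0, hpl⟩, rfl⟩ := hx
        refine Or.inr (mem_iUnion.2 ⟨i, ⟨p, hpl.trans hδε⟩, le_of_lt hpl, ?_⟩)
        exact fk_eq_fj ε e i ⟨p, hpl.trans hδε⟩ hp0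
      · exact Or.inl ⟨x, hx, rfl⟩
    · refine Or.inr (mem_iUnion.2 ⟨i, p, ?_, rfl⟩)
      show ‖p.1.1‖ ≤ ε / 2
      rw [hp, norm_zero]
      exact hδ.le

end AdT
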