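import Pool.Agent.Helper88.AdT.Stmts1

/-!
# AD-3: finiteness and cocompactness
-/

open Matrix Real Topology Filter Set

noncomputable section

namespace AdT

namespace FinM

lemma abs_le_of_sums {u v R : ℝ} (h1 : |u + v| ≤ R) (h2 : |u - v| ≤ R) : |u| ≤ R ∧ |v| ≤ R := by
  rw [abs_le] at h1 h2
  constructor <;> rw [abs_le] <;> constructor <;> linarith [h1.1, h1.2, h2.1, h2.2]

lemma one_le_sqrt3 : (1 : ℝ) ≤ √3 := by
  rw [Real.one_le_sqrt]; norm_num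

lemma abs_le_of_mul_sqrt3 {u R : ℝ} (h : |u * √3| ≤ R) : |u| ≤ R := by
  rw [abs_mul, abs_of_pos sqrt3_pos] at h
  nlinarith [abs_nonneg u, one_le_sqrt3]

lemma int_mem {k : ℤ} {R : ℝ} (h : |(k : ℝ)| ≤ R) : k ∈ Set.Icc (-⌈R⌉) ⌈R⌉ := by
  have hR : R ≤ ⌈R⌉ := Int.le_ceil R
  rw [abs_le] at h
  constructor
  · have : (-(⌈R⌉ : ℝ)) ≤ k := by linarith [h.1]
    exact_mod_cast this
  · have : (k : ℝ) ≤ ⌈R⌉ := by linarith [h.2]
    exact_mod_cast this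

lemma nm_bound {b d c : ℤ} {R : ℝ} (h : ∀ i j, |nm b d c i j| ≤ R) :
    b ∈ Set.Icc (-⌈R⌉) ⌈R⌉ ∧ d ∈ Set.Icc (-⌈R⌉) ⌈R⌉ ∧ c ∈ Set.Icc (-⌈R⌉) ⌈R⌉ := by
  have h00 := h 0 0
  have h01 := h 0 1
  have h10 := h 1 0
  simp [nm] at h00 h01 h10
  obtain ⟨h1, h2⟩ := abs_le_of_sums h01 h10
  exact ⟨int_mem h00, int_mem h1, int_mem (abs_le_of_mul_sqrt3 h2)⟩

lemma gm_bound {a b c d : ℤ} {R : ℝ} (h : ∀ i j, |gm a b c d i j| ≤ R) :
    a ∈ Set.Icc (-⌈R⌉) ⌈R⌉ ∧ b ∈ Set.Icc (-⌈R⌉) ⌈R⌉ ∧ c ∈ Set.Icc (-⌈R⌉) ⌈R⌉ ∧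
      d ∈ Set.Icc (-⌈R⌉) ⌈R⌉ := by
  have h00 := h 0 0
  have h01 := h 0 1
  have h10 := h 1 0
  have h11 := h 1 1
  simp [gm] at h00 h01 h10 h11
  obtain ⟨h1, h2⟩ := abs_le_of_sums h00 h11
  have h10' : |3 * (c : ℝ) - d * √3| ≤ R := by
    rw [← abs_neg]
    have e : -(3 * (c : ℝ) - d * √3) = -(3 * (c : ℝ)) + d * √3 := by ring
    rw [e]; exact h10
  obtain ⟨h3, h4⟩ := abs_le_of_sums h01 h10'
  have h3' : |(c : ℝ)| ≤ R := by
    rw [abs_mul, abs_of_pos (by norm_num : (0:ℝ) < 3)] at h3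
    nlinarith [abs_nonneg (c : ℝ)]
  exact ⟨int_mem h1, int_mem (abs_le_of_mul_sqrt3 h2), int_mem h3', int_mem (abs_le_of_mul_sqrt3 h4)⟩

lemma fin1 (R : ℝ) : {N : M2 | N ∈ Lines ∧ ∀ i j, |N i j| ≤ R}.Finite := by
  have hf : ((Set.Icc (-⌈R⌉) ⌈R⌉) ×ˢ ((Set.Icc (-⌈R⌉) ⌈R⌉) ×ˢ (Set.Icc (-⌈R⌉) ⌈R⌉))).Finite :=
    (Set.finite_Icc _ _).prod ((Set.finite_Icc _ _).prod (Set.finite_Icc _ _))
  refine (hf.image (fun p : ℤ × ℤ × ℤ => nm p.1 p.2.1 p.2.2)).subset ?_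
  rintro N ⟨⟨b, d, c, -, rfl⟩, hN⟩
  obtain ⟨h1, h2, h3⟩ := nm_bound hN
  exact ⟨(b, d, c), ⟨h1, h2, h3⟩, rfl⟩

lemma fin2 (R : ℝ) : {g : SL | g ∈ Gam ∧ ∀ i j, |g i j| ≤ R}.Finite := by
  have hf : ((Set.Icc (-⌈R⌉) ⌈R⌉) ×ˢ ((Set.Icc (-⌈R⌉) ⌈R⌉) ×ˢ ((Set.Icc (-⌈R⌉) ⌈R⌉) ×ˢ
      (Set.Icc (-⌈R⌉) ⌈R⌉)))).Finite :=
    (Set.finite_Icc _ _).prod ((Set.finite_Icc _ _).prod ((Set.finite_Icc _ _).prod
      (Set.finite_Icc _ _)))
  have hf2 := hf.image (fun p : ℤ × ℤ × ℤ × ℤ => gm p.1 p.2.1 p.2.2.1 p.2.2.2)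
  refine (hf2.preimage (f := fun g : SL => (g : M2)) Subtype.val_injective.injOn).subset ?_
  rintro g ⟨⟨a, b, c, d, hg⟩, hN⟩
  have hN' : ∀ i j, |gm a b c d i j| ≤ R := by
    intro i j
    rw [← hg]
    exact hN i j
  obtain ⟨h1, h2, h3, h4⟩ := gm_bound hN'
  exact ⟨(a, b, c, d), ⟨h1, h2, h3, h4⟩, hg.symm⟩

lemma det_eq (x : SL) : x 0 0 * x 1 1 - x 0 1 * x 1 0 = 1 := by
  have := x.2
  rw [Matrix.det_fin_two] at this
  exact this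

lemma inv_bound {x : SL} {R : ℝ} (h : ∀ i j, |x i j| ≤ R) : ∀ i j, |(x⁻¹ : SL) i j| ≤ R := by
  intro i j
  have e : (x⁻¹ : SL) i j = (!![x 1 1, - x 0 1; - x 1 0, x 0 0] : M2) i j := by
    rw [← inv_entries]
  rw [e]
  fin_cases i <;> fin_cases j <;> simp [h]

/-- four products of bounded numbers -/
lemma quad_bound {x1 x2 y1 y2 n1 n2 n3 n4 R B : ℝ} (hx1 : |x1| ≤ R) (hx2 : |x2| ≤ R)
    (hy1 : |y1| ≤ R) (hy2 : |y2| ≤ R) (h1 : |n1| ≤ B) (h2 : |n2| ≤ B) (h3 : |n3| ≤ B)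
    (h4 : |n4| ≤ B) :
    |x1 * (n1 * y1 + n2 * y2) - x2 * (n3 * y1 + n4 * y2)| ≤ 4 * R ^ 2 * B := by
  have hR : 0 ≤ R := (abs_nonneg _).trans hx1
  have hB : 0 ≤ B := (abs_nonneg _).trans h1
  have key : ∀ u v w : ℝ, |u| ≤ R → |v| ≤ B → |w| ≤ R → |u * (v * w)| ≤ R ^ 2 * B := by
    intro u v w hu hv hw
    rw [abs_mul, abs_mul]
    calc |u| * (|v| * |w|) ≤ R * (B * R) := by gcongr
      _ = R ^ 2 * B := by ring
  have e : x1 * (n1 * y1 + n2 * y2) - x2 * (n3 * y1 + n4 * y2) =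
      (x1 * (n1 * y1) + x1 * (n2 * y2)) - (x2 * (n3 * y1) + x2 * (n4 * y2)) := by ring
  rw [e]
  calc |(x1 * (n1 * y1) + x1 * (n2 * y2)) - (x2 * (n3 * y1) + x2 * (n4 * y2))|
      ≤ |x1 * (n1 * y1) + x1 * (n2 * y2)| + |x2 * (n3 * y1) + x2 * (n4 * y2)| := abs_sub _ _
    _ ≤ (|x1 * (n1 * y1)| + |x1 * (n2 * y2)|) + (|x2 * (n3 * y1)| + |x2 * (n4 * y2)|) := by
        gcongr <;> exact abs_add_le _ _
    _ ≤ (R ^ 2 * B + R ^ 2 * B) + (R ^ 2 * B + R ^ 2 * B) := by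
        gcongr
        · exact key _ _ _ hx1 h1 hy1
        · exact key _ _ _ hx1 h2 hy2
        · exact key _ _ _ hx2 h3 hy1
        · exact key _ _ _ hx2 h4 hy2
    _ = 4 * R ^ 2 * B := by ring

lemma fr_bound {x : SL} {N : M2} {R B : ℝ} (hx : ∀ i j, |x i j| ≤ R) (hN : ∀ i j, |N i j| ≤ B) :
    ∀ i j, |fr x N i j| ≤ 4 * R ^ 2 * B := by
  intro i j
  rw [fr_gen]
  fin_cases i <;> fin_cases j <;> simp only [Fin.zero_eta, Fin.mk_one, Fin.isValue, of_apply,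
    cons_val', cons_val_zero, cons_val_one, cons_val_fin_one]
  · exact quad_bound (hx _ _) (hx _ _) (hx _ _) (hx _ _) (hN _ _) (hN _ _) (hN _ _) (hN _ _)
  · exact quad_bound (hx _ _) (hx _ _) (hx _ _) (hx _ _) (hN _ _) (hN _ _) (hN _ _) (hN _ _)
  · exact quad_bound (hx _ _) (hx _ _) (hx _ _) (hx _ _) (hN _ _) (hN _ _) (hN _ _) (hN _ _)
  · exact quad_bound (hx _ _) (hx _ _) (hx _ _) (hx _ _) (hN _ _) (hN _ _) (hN _ _) (hN _ _)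

lemma fr_trace (x : SL) (b d c : ℝ) : fr x (nm b d c) 1 1 = -fr x (nm b d c) 0 0 := by
  rw [fr_gen]
  simp [nm]
  ring

lemma fin3 (h : FrameStmt) (R C : ℝ) :
    {N : M2 | N ∈ Lines ∧ ∃ x : SL, (∀ i j, |x i j| ≤ R) ∧ |tau x N| ≤ C}.Finite := by
  refine (fin1 (4 * R ^ 2 * (2 * C + 1))).subset ?_
  rintro N ⟨hN, x, hx, hC⟩
  refine ⟨hN, ?_⟩
  have hC0 : 0 ≤ C := (abs_nonneg _).trans hC
  have h1 := h.1 x N hN
  have ht : tau x N ^ 2 ≤ C ^ 2 := by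
    rw [← sq_abs]; gcongr
  have hnu : |nu x N| ≤ C + 1 := abs_le_of_sq_le_sq (by nlinarith [sq_nonneg (sg x N)]) (by linarith)
  have hsg : |sg x N| ≤ C + 1 := abs_le_of_sq_le_sq (by nlinarith [sq_nonneg (nu x N)]) (by linarith)
  have hfr : ∀ i j, |fr x N i j| ≤ 2 * C + 1 := by
    obtain ⟨b, d, c, -, rfl⟩ := hN
    have htr := fr_trace x b d c
    have e01 : fr x (nm b d c) 0 1 = tau x (nm b d c) - nu x (nm b d c) := by
      rw [tau, nu]; ring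
    have e10 : fr x (nm b d c) 1 0 = -tau x (nm b d c) - nu x (nm b d c) := by
      rw [tau, nu]; ring
    have e00 : fr x (nm b d c) 0 0 = sg x (nm b d c) := rfl
    rw [abs_le] at hC hnu hsg
    intro i j
    fin_cases i <;> fin_cases j
    · show |fr x (nm b d c) 0 0| ≤ _
      rw [e00, abs_le]; constructor <;> linarith [hsg.1, hsg.2]
    · show |fr x (nm b d c) 0 1| ≤ _
      rw [e01, abs_le]; constructor <;> linarith [hC.1, hC.2, hnu.1, hnu.2]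
    · show |fr x (nm b d c) 1 0| ≤ _
      rw [e10, abs_le]; constructor <;> linarith [hC.1, hC.2, hnu.1, hnu.2]
    · show |fr x (nm b d c) 1 1| ≤ _
      rw [htr, e00, abs_le]; constructor <;> linarith [hsg.1, hsg.2]
  have e : N = fr x⁻¹ (fr x N) := by
    rw [fr_eq, fr_eq, inv_inv, cj_cj_inv]
  intro i j
  rw [e]
  exact fr_bound (inv_bound hx) hfr i j

/-- sum of the squares of the entries -/
def T (x : SL) : ℝ := x 0 0 ^ 2 + x 0 1 ^ 2 + x 1 0 ^ 2 + x 1 1 ^ 2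

lemma abs_le_T (x : SL) : ∀ i j, |x i j| ≤ T x + 1 := by
  intro i j
  have key : ∀ u s : ℝ, u ^ 2 ≤ s → |u| ≤ s + 1 := by
    intro u s hs
    have h0 : 0 ≤ s := (sq_nonneg u).trans hs
    refine abs_le_of_sq_le_sq (by nlinarith) (by linarith)
  apply key
  have h00 := sq_nonneg (x 0 0)
  have h01 := sq_nonneg (x 0 1)
  have h10 := sq_nonneg (x 1 0)
  have h11 := sq_nonneg (x 1 1)
  fin_cases i <;> fin_cases j <;> simp only [Fin.zero_eta, Fin.mk_one, Fin.isValue, T] <;> linarith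

lemma gm_mul_T {g : SL} {a b c d : ℝ} (hg : (g : M2) = gm a b c d) (x : SL) :
    T (g * x) = ((a + b * √3) * x 0 0 + (3 * c + d * √3) * x 1 0) ^ 2
      + ((a + b * √3) * x 0 1 + (3 * c + d * √3) * x 1 1) ^ 2
      + ((-(3 * c) + d * √3) * x 0 0 + (a - b * √3) * x 1 0) ^ 2
      + ((-(3 * c) + d * √3) * x 0 1 + (a - b * √3) * x 1 1) ^ 2 := by
  have e : ∀ i j, (g * x : SL) i j = (gm a b c d * (x : M2)) i j := by
    intro i j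
    rw [← hg]
    rfl
  simp only [T, e, Matrix.mul_apply, Fin.sum_univ_two, gm]
  simp

lemma exists_min (x : SL) : ∃ γ ∈ Gam, ∀ γ' ∈ Gam, T (γ * x) ≤ T (γ' * x) := by
  have hfin : {g : SL | g ∈ Gam ∧ T (g * x) ≤ T x}.Finite := by
    refine (fin2 (4 * (T x + 1) ^ 2 * 1 + 4 * (T x + 1) ^ 2)).subset ?_
    rintro g ⟨hg, hT⟩
    refine ⟨hg, ?_⟩
    intro i j
    have e : (g : SL) = (g * x) * x⁻¹ := by group
    have h1 : ∀ i j, |(g * x : SL) i j| ≤ T x + 1 := fun i j => (abs_le_T _ i j).trans (by linarith)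
    have h2 : ∀ i j, |(x⁻¹ : SL) i j| ≤ T x + 1 := inv_bound (abs_le_T x)
    have hT0 : 0 ≤ T x := by unfold T; positivity
    have e2 : (g : SL) i j = ∑ k, (g * x : SL) i k * (x⁻¹ : SL) k j := by
      conv_lhs => rw [e]
      rfl
    rw [e2, Fin.sum_univ_two]
    have hb : ∀ k, |(g * x : SL) i k * (x⁻¹ : SL) k j| ≤ (T x + 1) ^ 2 := by
      intro k
      rw [abs_mul]
      calc |(g * x : SL) i k| * |(x⁻¹ : SL) k j| ≤ (T x + 1) * (T x + 1) := by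
            gcongr
            · exact h1 i k
            · exact h2 k j
        _ = (T x + 1) ^ 2 := by ring
    calc |(g * x : SL) i 0 * (x⁻¹ : SL) 0 j + (g * x : SL) i 1 * (x⁻¹ : SL) 1 j|
        ≤ |(g * x : SL) i 0 * (x⁻¹ : SL) 0 j| + |(g * x : SL) i 1 * (x⁻¹ : SL) 1 j| :=
          abs_add_le _ _
      _ ≤ (T x + 1) ^ 2 + (T x + 1) ^ 2 := add_le_add (hb 0) (hb 1)
      _ ≤ _ := by nlinarith [sq_nonneg (T x + 1)]
  have hne : {g : SL | g ∈ Gam ∧ T (g * x) ≤ T x}.Nonempty :=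
    ⟨1, Gam.one_mem, by simp⟩
  obtain ⟨γ, ⟨hγ, hγT⟩, hmin⟩ := Set.exists_min_image _ (fun g : SL => T (g * x)) hfin hne
  refine ⟨γ, hγ, fun γ' hγ' => ?_⟩
  by_cases hc : T (γ' * x) ≤ T x
  · exact hmin γ' ⟨hγ', hc⟩
  · exact hγT.trans (le_of_lt (not_le.mp hc))

/-- the element `gm a b c d` of the lattice -/
def gi (a b c d : ℤ) (h : a ^ 2 - 3 * b ^ 2 + 9 * c ^ 2 - 3 * d ^ 2 = 1) : SL :=
  ⟨gm a b c d, by
    rw [gm_det]
    exact_mod_cast h⟩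

lemma gi_mem (a b c d : ℤ) (h : a ^ 2 - 3 * b ^ 2 + 9 * c ^ 2 - 3 * d ^ 2 = 1) :
    gi a b c d h ∈ Gam := ⟨a, b, c, d, rfl⟩

lemma arith_bound {X Y Z s : ℝ} (hs : s * s = 3) (hs0 : 0 < s) (hZ : 0 ≤ Z)
    (h1 : |X| ≤ s / 2 * Z) (h2 : |Y| ≤ s / 2 * Z) (h3 : 2 * |X| + 3 * |Y| ≤ 2 * s * Z)
    (h4 : 3 * |X| + 2 * |Y| ≤ 2 * s * Z) : X ^ 2 + Y ^ 2 ≤ 0.96 * Z ^ 2 := by
  have key : ∀ x y : ℝ, 0 ≤ x → 0 ≤ y → y ≤ x → x ≤ s / 2 * Z → 3 * x + 2 * y ≤ 2 * s * Z →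
      x ^ 2 + y ^ 2 ≤ 0.96 * Z ^ 2 := by
    intro x y hx hy hyx h1 h2
    rcases le_total x (2 * s / 5 * Z) with h | h
    · have e1 : x ^ 2 ≤ (2 * s / 5 * Z) ^ 2 := by gcongr
      have e2 : y ^ 2 ≤ (2 * s / 5 * Z) ^ 2 := by
        have : y ≤ 2 * s / 5 * Z := hyx.trans h
        gcongr
      have e3 : (2 * s / 5 * Z) ^ 2 = 0.48 * Z ^ 2 := by
        have : (2 * s / 5 * Z) ^ 2 = 4 / 25 * (s * s) * Z ^ 2 := by ring
        rw [this, hs]; ring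
      linarith
    · have e1 : y ≤ s * Z - 1.5 * x := by linarith
      have e2 : y ^ 2 ≤ (s * Z - 1.5 * x) ^ 2 := by gcongr
      have e3 : 0 ≤ (x - 2 * s / 5 * Z) * (s / 2 * Z - x) :=
        mul_nonneg (by linarith) (by linarith)
      have e4 : 0 ≤ (x - 2 * s / 5 * Z) * (s * Z) := mul_nonneg (by linarith) (by positivity)
      have e5 : (s * Z - 1.5 * x) ^ 2 = (s * s) * Z ^ 2 - 3 * s * Z * x + 2.25 * x ^ 2 := by ring
      have e6 : (x - 2 * s / 5 * Z) * (s / 2 * Z - x) =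
          0.9 * s * Z * x - x ^ 2 - (s * s) / 5 * Z ^ 2 := by ring
      have e7 : (x - 2 * s / 5 * Z) * (s * Z) = s * Z * x - 2 / 5 * (s * s) * Z ^ 2 := by ring
      rw [hs] at e5 e6 e7
      rw [e6] at e3
      rw [e7] at e4
      rw [e5] at e2
      nlinarith
  rcases le_total |Y| |X| with h | h
  · have := key |X| |Y| (abs_nonneg _) (abs_nonneg _) h h1 h4
    rwa [sq_abs, sq_abs] at this
  · have := key |Y| |X| (abs_nonneg _) (abs_nonneg _) h h2 (by linarith)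
    rw [sq_abs, sq_abs] at this
    linarith

lemma T_bound (x : SL) (hmin : ∀ γ' ∈ Gam, T x ≤ T (γ' * x)) : T x ≤ 10 := by
  have hs := sqrt3_mul
  have hs0 := sqrt3_pos
  have hdet := det_eq x
  -- the eight comparisons
  have hcmp : ∀ a b c d : ℤ, ∀ _ : a ^ 2 - 3 * b ^ 2 + 9 * c ^ 2 - 3 * d ^ 2 = 1,
      T x ≤ ((a + b * √3) * x 0 0 + (3 * c + d * √3) * x 1 0) ^ 2
      + ((a + b * √3) * x 0 1 + (3 * c + d * √3) * x 1 1) ^ 2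
      + ((-(3 * c) + d * √3) * x 0 0 + (a - b * √3) * x 1 0) ^ 2
      + ((-(3 * c) + d * √3) * x 0 1 + (a - b * √3) * x 1 1) ^ 2 := by
    intro a b c d h
    have h1 := hmin _ (gi_mem a b c d h)
    rwa [gm_mul_T (g := gi a b c d h) (a := a) (b := b) (c := c) (d := d) rfl] at h1
  set p : ℝ := x 0 0 ^ 2 + x 0 1 ^ 2 with hp
  set r : ℝ := x 1 0 ^ 2 + x 1 1 ^ 2 with hr
  set q : ℝ := x 0 0 * x 1 0 + x 0 1 * x 1 1 with hq
  have hT : T x = p + r := by rw [T, hp, hr]; ring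
  have hpq : p * r - q ^ 2 = 1 := by
    have : p * r - q ^ 2 = (x 0 0 * x 1 1 - x 0 1 * x 1 0) ^ 2 := by rw [hp, hr, hq]; ring
    rw [this, hdet]; ring
  have hcmp2 : ∀ a b c d : ℤ, ∀ _ : a ^ 2 - 3 * b ^ 2 + 9 * c ^ 2 - 3 * d ^ 2 = 1,
      p + r ≤ ((a + b * √3) ^ 2 + (-(3 * c) + d * √3) ^ 2) * p
      + ((3 * c + d * √3) ^ 2 + (a - b * √3) ^ 2) * r
      + 2 * ((a + b * √3) * (3 * c + d * √3) + (-(3 * c) + d * √3) * (a - b * √3)) * q := by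
    intro a b c d h
    have h1 := hcmp a b c d h
    rw [hT] at h1
    refine h1.trans (le_of_eq ?_)
    rw [hp, hr, hq]; ring
  have c1 := hcmp2 2 1 0 0 (by norm_num)
  have c2 := hcmp2 2 (-1) 0 0 (by norm_num)
  have c3 := hcmp2 2 0 0 1 (by norm_num)
  have c4 := hcmp2 2 0 0 (-1) (by norm_num)
  have c5 := hcmp2 2 2 1 0 (by norm_num)
  have c6 := hcmp2 2 2 (-1) 0 (by norm_num)
  have c7 := hcmp2 2 (-2) 1 0 (by norm_num)
  have c8 := hcmp2 2 (-2) (-1) 0 (by norm_num)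
  have c9 := hcmp2 2 0 1 2 (by norm_num)
  have c10 := hcmp2 2 0 (-1) 2 (by norm_num)
  have c11 := hcmp2 2 0 1 (-2) (by norm_num)
  have c12 := hcmp2 2 0 (-1) (-2) (by norm_num)
  push_cast at c1 c2 c3 c4 c5 c6 c7 c8 c9 c10 c11 c12
  set Z : ℝ := (p + r) / 2 with hZ
  set X : ℝ := (p - r) / 2 with hX
  have ep : p = Z + X := by rw [hZ, hX]; ring
  have er : r = Z - X := by rw [hZ, hX]; ring
  rw [ep, er] at c1 c2 c3 c4 c5 c6 c7 c8 c9 c10 c11 c12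
  have s2 : √3 ^ 2 = (3 : ℝ) := by rw [sq]; exact hs
  ring_nf at c1 c2 c3 c4 c5 c6 c7 c8 c9 c10 c11 c12
  simp only [s2] at c1 c2 c3 c4 c5 c6 c7 c8 c9 c10 c11 c12
  have hZ0 : 0 ≤ Z := by rw [hZ, hp, hr]; positivity
  have d1 : 0 ≤ 12 * Z + 8 * (√3 * X) := by linarith
  have d2 : 0 ≤ 12 * Z - 8 * (√3 * X) := by linarith
  have d3 : 0 ≤ 12 * Z + 8 * (√3 * q) := by linarith
  have d4 : 0 ≤ 12 * Z - 8 * (√3 * q) := by linarith
  have d5 : 0 ≤ 48 * Z + 16 * (√3 * X) + 24 * (√3 * q) := by linarith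
  have d6 : 0 ≤ 48 * Z + 16 * (√3 * X) - 24 * (√3 * q) := by linarith
  have d7 : 0 ≤ 48 * Z - 16 * (√3 * X) + 24 * (√3 * q) := by linarith
  have d8 : 0 ≤ 48 * Z - 16 * (√3 * X) - 24 * (√3 * q) := by linarith
  have d9 : 0 ≤ 48 * Z - 24 * (√3 * X) + 16 * (√3 * q) := by linarith
  have d10 : 0 ≤ 48 * Z + 24 * (√3 * X) + 16 * (√3 * q) := by linarith
  have d11 : 0 ≤ 48 * Z + 24 * (√3 * X) - 16 * (√3 * q) := by linarith
  have d12 : 0 ≤ 48 * Z - 24 * (√3 * X) - 16 * (√3 * q) := by linarith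
  -- multiply by sqrt 3
  have m : ∀ u v w α β : ℝ, 0 ≤ u * Z + α * (√3 * X) + β * (√3 * q) →
      0 ≤ u * (√3 * Z) + 3 * α * X + 3 * β * q := by
    intro u v w α β h
    have h1 := mul_nonneg hs0.le h
    have e : √3 * (u * Z + α * (√3 * X) + β * (√3 * q)) =
        u * (√3 * Z) + α * (√3 * √3) * X + β * (√3 * √3) * q := by ring
    rw [e, hs] at h1
    linarith
  have f1 := m 12 0 0 8 0 (by linarith)
  have f2 := m 12 0 0 (-8) 0 (by linarith)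
  have f3 := m 12 0 0 0 8 (by linarith)
  have f4 := m 12 0 0 0 (-8) (by linarith)
  have f5 := m 48 0 0 16 24 (by linarith)
  have f6 := m 48 0 0 16 (-24) (by linarith)
  have f7 := m 48 0 0 (-16) 24 (by linarith)
  have f8 := m 48 0 0 (-16) (-24) (by linarith)
  have f9 := m 48 0 0 (-24) 16 (by linarith)
  have f10 := m 48 0 0 24 16 (by linarith)
  have f11 := m 48 0 0 24 (-16) (by linarith)
  have f12 := m 48 0 0 (-24) (-16) (by linarith)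
  have b1 : |X| ≤ √3 / 2 * Z := by
    rw [abs_le]; constructor <;> linarith
  have b2 : |q| ≤ √3 / 2 * Z := by
    rw [abs_le]; constructor <;> linarith
  have b3 : 2 * |X| + 3 * |q| ≤ 2 * √3 * Z := by
    rcases abs_cases X with ⟨h1, -⟩ | ⟨h1, -⟩ <;> rcases abs_cases q with ⟨h2, -⟩ | ⟨h2, -⟩ <;>
      rw [h1, h2] <;> linarith
  have b4 : 3 * |X| + 2 * |q| ≤ 2 * √3 * Z := by
    rcases abs_cases X with ⟨h1, -⟩ | ⟨h1, -⟩ <;> rcases abs_cases q with ⟨h2, -⟩ | ⟨h2, -⟩ <;>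
      rw [h1, h2] <;> linarith
  have b5 := arith_bound hs hs0 hZ0 b1 b2 b3 b4
  have b6 : Z ^ 2 - X ^ 2 - q ^ 2 = 1 := by
    rw [ep, er] at hpq
    linarith
  clear c1 c2 c3 c4 c5 c6 c7 c8 c9 c10 c11 c12 d1 d2 d3 d4 d5 d6 d7 d8 d9 d10 d11 d12
  clear f1 f2 f3 f4 f5 f6 f7 f8 f9 f10 f11 f12 m
  have b7 : Z ≤ 5 := by
    by_contra hh
    have hh2 : (5 : ℝ) < Z := not_le.mp hh
    have h25 : (25 : ℝ) < Z ^ 2 := by nlinarith only [hh2]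
    linarith only [b5, b6, h25]
  rw [hT]
  linarith

end FinM

theorem fin (h : FrameStmt) : FinStmt := ⟨FinM.fin1, FinM.fin2, FinM.fin3 h⟩

theorem cocomp : CocompStmt := by
  refine ⟨11, fun x => ?_⟩
  obtain ⟨γ, hγ, hmin⟩ := FinM.exists_min x
  refine ⟨γ, hγ, fun i j => ?_⟩
  have h1 : FinM.T (γ * x) ≤ 10 := by
    apply FinM.T_bound
    intro γ' hγ'
    have := hmin (γ' * γ) (Gam.mul_mem hγ' hγ)
    rwa [mul_assoc] at this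
  exact (FinM.abs_le_T _ i j).trans (by linarith)

end AdT
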