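import Pool.Agent.Helper88.AdT.Stmts2

open Matrix Real Topology Filter Set

noncomputable section

namespace AdT
namespace FreeG

theorem cyc {A : Type} {u v : FreeGroup A} (h : Commute u v) :
    ∃ (w : FreeGroup A) (i j : ℤ), u = w ^ i ∧ v = w ^ j := by
  classical
  let H : Subgroup (FreeGroup A) := Subgroup.closure {u, v}
  have hu : u ∈ H := Subgroup.subset_closure (by simp)
  have hv : v ∈ H := Subgroup.subset_closure (by simp)
  have hcomm : ∀ a b : H, a * b = b * a := by
    have : ∀ x ∈ ({u, v} : Set (FreeGroup A)), ∀ y ∈ ({u, v} : Set (FreeGroup A)),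
        x * y = y * x := by
      rintro x (rfl | rfl) y (rfl | rfl)
      · rfl
      · exact h
      · exact h.symm
      · rfl
    have hc := Subgroup.isMulCommutative_closure this
    intro a b
    exact (hc.is_comm.comm a b)
  have : IsFreeGroup H := inferInstance
  let e : H ≃* FreeGroup (IsFreeGroup.Generators H) := IsFreeGroup.toFreeGroup H
  have hsub : Subsingleton (IsFreeGroup.Generators H) := by
    constructor
    intro a b
    by_contra hab
    let f : FreeGroup (IsFreeGroup.Generators H) →* Equiv.Perm (Fin 3) :=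
      FreeGroup.lift (fun c => if c = a then Equiv.swap 0 1 else Equiv.swap 1 2)
    have h1 : FreeGroup.of a * FreeGroup.of b = FreeGroup.of b * FreeGroup.of a := by
      have := hcomm (e.symm (FreeGroup.of a)) (e.symm (FreeGroup.of b))
      have h3 := congrArg e this
      simpa using h3
    have h2 := congrArg f h1
    have hba : ¬ b = a := fun h => hab h.symm
    simp only [f, map_mul, FreeGroup.lift_apply_of, if_true, if_neg hba] at h2
    exact absurd h2 (by decide)
  by_cases hne : Nonempty (IsFreeGroup.Generators H)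
  · obtain ⟨a⟩ := hne
    have : Unique (IsFreeGroup.Generators H) := ⟨⟨a⟩, fun b => Subsingleton.elim _ _⟩
    have hcy : IsCyclic (FreeGroup (IsFreeGroup.Generators H)) := inferInstance
    obtain ⟨g, hg⟩ := hcy.exists_generator
    obtain ⟨i, hi⟩ := hg (e ⟨u, hu⟩)
    obtain ⟨j, hj⟩ := hg (e ⟨v, hv⟩)
    refine ⟨(e.symm g : H), i, j, ?_, ?_⟩
    · have : e.symm (g ^ i) = ⟨u, hu⟩ := by
        simp only at hi
        rw [hi]; simp
      have h2 := congrArg (fun t : H => (t : FreeGroup A)) this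
      simp only [map_zpow, Subgroup.coe_zpow] at h2
      exact h2.symm
    · have : e.symm (g ^ j) = ⟨v, hv⟩ := by
        simp only at hj
        rw [hj]; simp
      have h2 := congrArg (fun t : H => (t : FreeGroup A)) this
      simp only [map_zpow, Subgroup.coe_zpow] at h2
      exact h2.symm
  · have : IsEmpty (IsFreeGroup.Generators H) := not_nonempty_iff.mp hne
    have hs : Subsingleton H := e.toEquiv.subsingleton
    refine ⟨1, 0, 0, ?_, ?_⟩
    · have := congrArg (fun t : H => (t : FreeGroup A)) (hs.elim ⟨u, hu⟩ 1)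
      simpa using this
    · have := congrArg (fun t : H => (t : FreeGroup A)) (hs.elim ⟨v, hv⟩ 1)
      simpa using this

/-! ### words -/

/-- The element `∏ x ^ a * y ^ b` attached to a list of pairs `(a, b)`. -/
def Pi2 {G : Type} [Group G] (x y : G) (l : List (ℤ × ℤ)) : G :=
  (l.map (fun p => x ^ p.1 * y ^ p.2)).prod

theorem Pi2_nil {G : Type} [Group G] (x y : G) : Pi2 x y [] = 1 := rfl

theorem Pi2_cons {G : Type} [Group G] (x y : G) (p : ℤ × ℤ) (l : List (ℤ × ℤ)) :
    Pi2 x y (p :: l) = x ^ p.1 * y ^ p.2 * Pi2 x y l := by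
  simp [Pi2]

theorem Pi2_append {G : Type} [Group G] (x y : G) (l m : List (ℤ × ℤ)) :
    Pi2 x y (l ++ m) = Pi2 x y l * Pi2 x y m := by
  simp [Pi2]

theorem Pi2_inv {G : Type} [Group G] (x y : G) (l : List (ℤ × ℤ)) :
    ∃ m, Pi2 x y m = (Pi2 x y l)⁻¹ := by
  induction l with
  | nil => exact ⟨[], by simp [Pi2]⟩
  | cons p l ih =>
    obtain ⟨m, hm⟩ := ih
    refine ⟨m ++ [(0, -p.2), (-p.1, 0)], ?_⟩
    rw [Pi2_append, hm, Pi2_cons, Pi2_cons, Pi2_cons, Pi2_nil]
    simp

theorem exists_Pi2 {G : Type} [Group G] (x y v : G) (hv : v ∈ Subgroup.closure {x, y}) :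
    ∃ l, Pi2 x y l = v := by
  induction hv using Subgroup.closure_induction with
  | mem w hw =>
    rcases hw with rfl | hw
    · exact ⟨[(1, 0)], by simp [Pi2]⟩
    · rw [Set.mem_singleton_iff] at hw
      subst hw
      exact ⟨[(0, 1)], by simp [Pi2]⟩
  | one => exact ⟨[], rfl⟩
  | mul a b _ _ ha hb =>
    obtain ⟨l, rfl⟩ := ha
    obtain ⟨m, rfl⟩ := hb
    exact ⟨l ++ m, Pi2_append x y l m⟩
  | inv a _ ha =>
    obtain ⟨l, rfl⟩ := ha
    exact Pi2_inv x y l

theorem isConj_mul_comm' {G : Type} [Group G] (a b : G) : IsConj (a * b) (b * a) := by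
  rw [isConj_iff]
  exact ⟨b, by group⟩

theorem normal_form {G : Type} [Group G] (x y : G) : ∀ (n : ℕ) (l : List (ℤ × ℤ)),
    l.length = n → (∃ k : ℤ, IsConj (Pi2 x y l) (x ^ k) ∨ IsConj (Pi2 x y l) (y ^ k)) ∨
      ∃ m : List (ℤ × ℤ), m ≠ [] ∧ (∀ p ∈ m, p.1 ≠ 0 ∧ p.2 ≠ 0) ∧
        IsConj (Pi2 x y l) (Pi2 x y m) := by
  intro n
  induction n with
  | zero =>
    intro l hl
    rw [List.length_eq_zero_iff] at hl
    subst hl
    exact Or.inl ⟨0, Or.inl (by simp [Pi2])⟩
  | succ n ih =>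
    intro l hl
    by_cases hall : ∀ p ∈ l, p.1 ≠ 0 ∧ p.2 ≠ 0
    · refine Or.inr ⟨l, ?_, hall, IsConj.refl _⟩
      rintro rfl
      simp at hl
    · push Not at hall
      obtain ⟨⟨a, b⟩, hp, hp2⟩ := hall
      obtain ⟨s, t, rfl⟩ := List.append_of_mem hp
      have hlen : (t ++ s).length = n := by
        simp only [List.length_append, List.length_cons] at hl ⊢
        omega
      have hc : IsConj (Pi2 x y (s ++ (a, b) :: t)) (x ^ a * y ^ b * Pi2 x y (t ++ s)) := by
        rw [Pi2_append, Pi2_cons, Pi2_append]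
        have := isConj_mul_comm' (Pi2 x y s) (x ^ a * y ^ b * Pi2 x y t)
        simpa [mul_assoc] using this
      -- it suffices to treat the rotated word
      suffices hs : (∃ k : ℤ, IsConj (x ^ a * y ^ b * Pi2 x y (t ++ s)) (x ^ k) ∨
          IsConj (x ^ a * y ^ b * Pi2 x y (t ++ s)) (y ^ k)) ∨
          ∃ m : List (ℤ × ℤ), m ≠ [] ∧ (∀ p ∈ m, p.1 ≠ 0 ∧ p.2 ≠ 0) ∧
            IsConj (x ^ a * y ^ b * Pi2 x y (t ++ s)) (Pi2 x y m) by
        rcases hs with ⟨k, hk | hk⟩ | ⟨m, h1, h2, h3⟩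
        · exact Or.inl ⟨k, Or.inl (hc.trans hk)⟩
        · exact Or.inl ⟨k, Or.inr (hc.trans hk)⟩
        · exact Or.inr ⟨m, h1, h2, hc.trans h3⟩
      generalize hl2 : t ++ s = l2
      rw [hl2] at hlen
      by_cases ha : a = 0
      · subst ha
        rcases List.eq_nil_or_concat l2 with rfl | ⟨l4, q, rfl⟩
        · exact Or.inl ⟨b, Or.inr (by rw [Pi2_nil, zpow_zero, one_mul, mul_one])⟩
        · have hc2 : IsConj (x ^ (0 : ℤ) * y ^ b * Pi2 x y (l4.concat q))
              (Pi2 x y (l4 ++ [(q.1, q.2 + b)])) := by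
            rw [List.concat_eq_append, Pi2_append, Pi2_append, Pi2_cons, Pi2_cons, Pi2_nil,
              zpow_zero, one_mul, mul_one, mul_one]
            have := isConj_mul_comm' (y ^ b) (Pi2 x y l4 * (x ^ q.1 * y ^ q.2))
            simpa [mul_assoc, _root_.zpow_add] using this
          have hlen2 : (l4 ++ [(q.1, q.2 + b)]).length = n := by
            rw [← hlen]; simp
          rcases ih _ hlen2 with ⟨k, hk | hk⟩ | ⟨m, h1, h2, h3⟩
          · exact Or.inl ⟨k, Or.inl (hc2.trans hk)⟩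
          · exact Or.inl ⟨k, Or.inr (hc2.trans hk)⟩
          · exact Or.inr ⟨m, h1, h2, hc2.trans h3⟩
      · have hb : b = 0 := hp2 ha
        subst hb
        cases l2 with
        | nil => exact Or.inl ⟨a, Or.inl (by rw [Pi2_nil, zpow_zero, mul_one, mul_one])⟩
        | cons q l3 =>
          have he : x ^ a * y ^ (0 : ℤ) * Pi2 x y (q :: l3) = Pi2 x y ((a + q.1, q.2) :: l3) := by
            rw [Pi2_cons, Pi2_cons, zpow_zero, mul_one]
            simp [_root_.zpow_add, mul_assoc]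
          rw [he]
          refine ih _ ?_
          rw [← hlen]; simp

/-! ### the matrices -/

/-- The polynomial matrix of one syllable. -/
def N2 (p : ℤ × ℤ) : Matrix (Fin 2) (Fin 2) (Polynomial ℚ) :=
  !![1 + Polynomial.C ((p.1 : ℚ) * (p.2 : ℚ)) * Polynomial.X, Polynomial.C (p.1 : ℚ);
     Polynomial.C (p.2 : ℚ) * Polynomial.X, 1]

/-- The polynomial matrix of a list of syllables. -/
def M2 (l : List (ℤ × ℤ)) : Matrix (Fin 2) (Fin 2) (Polynomial ℚ) := (l.map N2).prod

theorem M2_cons (p : ℤ × ℤ) (l : List (ℤ × ℤ)) : M2 (p :: l) = N2 p * M2 l := by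
  simp [M2]

theorem M2_coeff (l : List (ℤ × ℤ)) :
    (∀ m, l.length < m → (M2 l 0 0).coeff m = 0) ∧
    (M2 l 0 0).coeff l.length = (l.map (fun p => ((p.1 : ℚ) * (p.2 : ℚ)))).prod ∧
    (∀ m, l.length ≤ m → (M2 l 0 1).coeff m = 0) ∧
    (∀ m, l.length < m → (M2 l 1 0).coeff m = 0) ∧
    (∀ m, l.length ≤ m → 1 ≤ m → (M2 l 1 1).coeff m = 0) := by
  induction l with
  | nil =>
    refine ⟨?_, ?_, ?_, ?_, ?_⟩
    · intro m hm
      have : m ≠ 0 := by simpa using (Nat.pos_iff_ne_zero.mp hm)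
      simp [M2, Polynomial.coeff_one, this]
    · simp [M2]
    · intro m _; simp [M2]
    · intro m _; simp [M2]
    · intro m _ hm
      have : m ≠ 0 := by omega
      simp [M2, Polynomial.coeff_one, this]
  | cons p l ih =>
    obtain ⟨h1, h2, h3, h4, h5⟩ := ih
    have e00 : M2 (p :: l) 0 0 = M2 l 0 0 +
        Polynomial.C ((p.1 : ℚ) * (p.2 : ℚ)) * (Polynomial.X * M2 l 0 0) +
        Polynomial.C (p.1 : ℚ) * M2 l 1 0 := by
      rw [M2_cons, Matrix.mul_apply, Fin.sum_univ_two]
      simp [N2]; ring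
    have e01 : M2 (p :: l) 0 1 = M2 l 0 1 +
        Polynomial.C ((p.1 : ℚ) * (p.2 : ℚ)) * (Polynomial.X * M2 l 0 1) +
        Polynomial.C (p.1 : ℚ) * M2 l 1 1 := by
      rw [M2_cons, Matrix.mul_apply, Fin.sum_univ_two]
      simp [N2]; ring
    have e10 : M2 (p :: l) 1 0 = Polynomial.C (p.2 : ℚ) * (Polynomial.X * M2 l 0 0) +
        M2 l 1 0 := by
      rw [M2_cons, Matrix.mul_apply, Fin.sum_univ_two]
      simp [N2]; ring
    have e11 : M2 (p :: l) 1 1 = Polynomial.C (p.2 : ℚ) * (Polynomial.X * M2 l 0 1) +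
        M2 l 1 1 := by
      rw [M2_cons, Matrix.mul_apply, Fin.sum_univ_two]
      simp [N2]; ring
    refine ⟨?_, ?_, ?_, ?_, ?_⟩
    · intro m hm
      rw [List.length_cons] at hm
      obtain ⟨k, rfl⟩ : ∃ k, m = k + 1 := ⟨m - 1, by omega⟩
      rw [e00]
      simp only [Polynomial.coeff_add, Polynomial.coeff_C_mul, Polynomial.coeff_X_mul]
      rw [h1 _ (by omega), h1 _ (by omega), h4 _ (by omega)]
      simp
    · rw [e00, List.length_cons]
      simp only [Polynomial.coeff_add, Polynomial.coeff_C_mul, Polynomial.coeff_X_mul]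
      rw [h1 _ (by omega), h2, h4 _ (by omega)]
      simp
    · intro m hm
      rw [List.length_cons] at hm
      obtain ⟨k, rfl⟩ : ∃ k, m = k + 1 := ⟨m - 1, by omega⟩
      rw [e01]
      simp only [Polynomial.coeff_add, Polynomial.coeff_C_mul, Polynomial.coeff_X_mul]
      rw [h3 _ (by omega), h3 _ (by omega), h5 _ (by omega) (by omega)]
      simp
    · intro m hm
      rw [List.length_cons] at hm
      obtain ⟨k, rfl⟩ : ∃ k, m = k + 1 := ⟨m - 1, by omega⟩
      rw [e10]
      simp only [Polynomial.coeff_add, Polynomial.coeff_C_mul, Polynomial.coeff_X_mul]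
      rw [h1 _ (by omega), h4 _ (by omega)]
      simp
    · intro m hm hm1
      rw [List.length_cons] at hm
      obtain ⟨k, rfl⟩ : ∃ k, m = k + 1 := ⟨m - 1, by omega⟩
      rw [e11]
      simp only [Polynomial.coeff_add, Polynomial.coeff_C_mul, Polynomial.coeff_X_mul]
      rw [h3 _ (by omega), h5 _ (by omega) (by omega)]
      simp

/-- `!![1, a; 0, 1]` as a unit. -/
def UX (a : ℚ) : (Matrix (Fin 2) (Fin 2) ℚ)ˣ where
  val := !![1, a; 0, 1]
  inv := !![1, -a; 0, 1]
  val_inv := by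
    ext i j; fin_cases i <;> fin_cases j <;> simp [Matrix.mul_apply, Fin.sum_univ_two]
  inv_val := by
    ext i j; fin_cases i <;> fin_cases j <;> simp [Matrix.mul_apply, Fin.sum_univ_two]

/-- `!![1, 0; a, 1]` as a unit. -/
def UY (a : ℚ) : (Matrix (Fin 2) (Fin 2) ℚ)ˣ where
  val := !![1, 0; a, 1]
  inv := !![1, 0; -a, 1]
  val_inv := by
    ext i j; fin_cases i <;> fin_cases j <;> simp [Matrix.mul_apply, Fin.sum_univ_two]
  inv_val := by
    ext i j; fin_cases i <;> fin_cases j <;> simp [Matrix.mul_apply, Fin.sum_univ_two]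

/-- `diag(1, c)` as a unit. -/
def UZ (c : ℚ) (hc : c ≠ 0) : (Matrix (Fin 2) (Fin 2) ℚ)ˣ where
  val := !![1, 0; 0, c]
  inv := !![1, 0; 0, c⁻¹]
  val_inv := by
    ext i j; fin_cases i <;> fin_cases j <;> simp [Matrix.mul_apply, Fin.sum_univ_two, hc]
  inv_val := by
    ext i j; fin_cases i <;> fin_cases j <;> simp [Matrix.mul_apply, Fin.sum_univ_two, hc]

theorem UX_zpow (a : ℤ) : UX 1 ^ a = UX a := by
  let f : Multiplicative ℤ →* (Matrix (Fin 2) (Fin 2) ℚ)ˣ :=
    { toFun := fun t => UX ((Multiplicative.toAdd t : ℤ) : ℚ)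
      map_one' := by
        ext i j; fin_cases i <;> fin_cases j <;> simp [UX]
      map_mul' := by
        intro s t
        ext i j
        fin_cases i <;> fin_cases j <;>
          simp [UX, Matrix.mul_apply, Fin.sum_univ_two, add_comm] }
  have h1 : f (Multiplicative.ofAdd 1) = UX 1 := by simp [f]
  have h2 : f (Multiplicative.ofAdd a) = UX a := by simp [f]
  rw [← h1, ← h2, ← map_zpow]
  congr 1
  rw [← ofAdd_zsmul]; simp

theorem UY_zpow (a : ℤ) : UY 1 ^ a = UY a := by
  let f : Multiplicative ℤ →* (Matrix (Fin 2) (Fin 2) ℚ)ˣ :=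
    { toFun := fun t => UY ((Multiplicative.toAdd t : ℤ) : ℚ)
      map_one' := by
        ext i j; fin_cases i <;> fin_cases j <;> simp [UY]
      map_mul' := by
        intro s t
        ext i j
        fin_cases i <;> fin_cases j <;>
          simp [UY, Matrix.mul_apply, Fin.sum_univ_two, add_comm] }
  have h1 : f (Multiplicative.ofAdd 1) = UY 1 := by simp [f]
  have h2 : f (Multiplicative.ofAdd a) = UY a := by simp [f]
  rw [← h1, ← h2, ← map_zpow]
  congr 1
  rw [← ofAdd_zsmul]; simp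

theorem UZ_conj (c : ℚ) (hc : c ≠ 0) (b : ℤ) :
    (UZ c hc * UY 1 * (UZ c hc)⁻¹) ^ b = UY (c * b) := by
  rw [conj_zpow, UY_zpow]
  ext i j
  fin_cases i <;> fin_cases j <;>
    simp [UZ, UY, Matrix.mul_apply, Fin.sum_univ_two, hc]

theorem val_Pi2 (c : ℚ) (l : List (ℤ × ℤ)) (Y : (Matrix (Fin 2) (Fin 2) ℚ)ˣ)
    (hY : ∀ b : ℤ, Y ^ b = UY (c * b)) :
    ((Pi2 (UX 1) Y l : (Matrix (Fin 2) (Fin 2) ℚ)ˣ) : Matrix (Fin 2) (Fin 2) ℚ) =
      (Polynomial.evalRingHom c).mapMatrix (M2 l) := by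
  induction l with
  | nil => simp [Pi2, M2]
  | cons p l ih =>
    rw [Pi2_cons, M2_cons, map_mul, Units.val_mul, ih, Units.val_mul, UX_zpow, hY]
    congr 1
    ext i j
    fin_cases i <;> fin_cases j <;>
      simp [UX, UY, N2, Matrix.mul_apply, Fin.sum_univ_two] <;> ring

theorem trace_conj {g h : (Matrix (Fin 2) (Fin 2) ℚ)ˣ} (H : IsConj g h) :
    Matrix.trace (g : Matrix (Fin 2) (Fin 2) ℚ) = Matrix.trace (h : Matrix (Fin 2) (Fin 2) ℚ) := by
  obtain ⟨c, rfl⟩ := isConj_iff.mp H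
  rw [Units.val_mul, Units.val_mul, Matrix.trace_units_conj]

theorem map_Pi2 {G K : Type} [Group G] [Group K] (f : G →* K) (x y : G) (l : List (ℤ × ℤ)) :
    f (Pi2 x y l) = Pi2 (f x) (f y) l := by
  induction l with
  | nil => simp [Pi2]
  | cons p l ih => rw [Pi2_cons, Pi2_cons, map_mul, ih, map_mul, map_zpow, map_zpow]

theorem no_conj {A : Type} (x y z : A) (hxy : x ≠ y) (hyz : y ≠ z) (hxz : x ≠ z)
    (l : List (ℤ × ℤ)) (hl : l ≠ []) (hn : ∀ p ∈ l, p.1 ≠ 0 ∧ p.2 ≠ 0) :
    ¬ IsConj (Pi2 (FreeGroup.of x) (FreeGroup.of y) l)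
      (Pi2 (FreeGroup.of x) (FreeGroup.of z * FreeGroup.of y * (FreeGroup.of z)⁻¹) l) := by
  classical
  intro hconj
  set P : Polynomial ℚ := Matrix.trace (M2 l) with hP
  have key : ∀ c : ℚ, c ≠ 0 → P.eval c = P.eval 1 := by
    intro c hc
    let ρ : FreeGroup A →* (Matrix (Fin 2) (Fin 2) ℚ)ˣ :=
      FreeGroup.lift (fun a => if a = x then UX 1 else if a = y then UY 1 else UZ c hc)
    have hx : ρ (FreeGroup.of x) = UX 1 := by simp [ρ]
    have hy : ρ (FreeGroup.of y) = UY 1 := by simp [ρ, hxy.symm]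
    have hz : ρ (FreeGroup.of z) = UZ c hc := by simp [ρ, hxz.symm, hyz.symm]
    have h1 := trace_conj (ρ.map_isConj hconj)
    rw [map_Pi2, map_Pi2, map_mul, map_mul, map_inv, hx, hy, hz,
      val_Pi2 1 l (UY 1) (fun b => by rw [UY_zpow, one_mul]),
      val_Pi2 c l _ (UZ_conj c hc)] at h1
    have h2 : ∀ t : ℚ, Matrix.trace ((Polynomial.evalRingHom t).mapMatrix (M2 l)) = P.eval t := by
      intro t
      rw [hP]
      simp [Matrix.trace, Fin.sum_univ_two]
    rw [h2, h2] at h1
    exact h1.symm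
  have hPC : P = Polynomial.C (P.eval 1) := by
    apply Polynomial.eq_of_infinite_eval_eq
    refine Set.Infinite.mono (s := {c : ℚ | c ≠ 0}) ?_ ?_
    · intro c hc
      show P.eval c = (Polynomial.C (P.eval 1)).eval c
      rw [key c hc, Polynomial.eval_C]
    · exact (Set.finite_singleton (0 : ℚ)).infinite_compl
  obtain ⟨_, h2, _, _, h5⟩ := M2_coeff l
  have hlen : 1 ≤ l.length := by
    rcases l with _ | ⟨p, l⟩
    · exact absurd rfl hl
    · simp
  have hcoef : P.coeff l.length = (l.map (fun p => ((p.1 : ℚ) * (p.2 : ℚ)))).prod := by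
    rw [hP, Matrix.trace, Fin.sum_univ_two]
    simp only [Matrix.diag_apply, Polynomial.coeff_add]
    rw [h2, h5 _ le_rfl hlen, add_zero]
  have hzero : P.coeff l.length = 0 := by
    rw [hPC, Polynomial.coeff_C, if_neg (by omega)]
  rw [hzero] at hcoef
  have := List.prod_eq_zero_iff.mp hcoef.symm
  rw [List.mem_map] at this
  obtain ⟨p, hp, hp0⟩ := this
  obtain ⟨hp1, hp2⟩ := hn p hp
  rcases mul_eq_zero.mp hp0 with h | h
  · exact hp1 (by exact_mod_cast h)
  · exact hp2 (by exact_mod_cast h)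

end FreeG

theorem fg1 : FG1Stmt := by
  intro A u v h
  obtain ⟨w, i, j, rfl, rfl⟩ := FreeG.cyc h
  by_cases hi : i = 0
  · refine ⟨1, 0, Or.inl one_ne_zero, ?_⟩
    simp [hi]
  · refine ⟨j, -i, Or.inr (neg_ne_zero.mpr hi), ?_⟩
    rw [← _root_.zpow_mul, ← _root_.zpow_mul, ← _root_.zpow_add]
    have : i * j + j * -i = 0 := by ring
    rw [this, zpow_zero]

theorem fg2 : FG2Stmt := by
  intro A x y k b hxy hk h
  classical
  set w : FreeGroup A := FreeGroup.of x * (FreeGroup.of y)⁻¹ with hw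
  have h1 : (b * w * b⁻¹) ^ k = w ^ k := by
    rw [conj_zpow, h.eq]; group
  have h2 : b * w * b⁻¹ = w := zpow_left_injective hk h1
  have h3 : Commute b w := by
    show b * w = w * b
    calc b * w = (b * w * b⁻¹) * b := by group
      _ = w * b := by rw [h2]
  obtain ⟨v, i, j, hb, hv⟩ := FreeG.cyc h3
  -- hom to ℤ
  let f : FreeGroup A →* Multiplicative ℤ :=
    FreeGroup.lift (fun c => if c = x then Multiplicative.ofAdd (1 : ℤ) else 1)
  have hyx : ¬ y = x := fun h => hxy h.symm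
  have hf : f w = Multiplicative.ofAdd (1 : ℤ) := by
    simp only [hw, f, map_mul, map_inv, FreeGroup.lift_apply_of, if_true, if_neg hyx]
    simp
  have hf2 : Multiplicative.ofAdd (1 : ℤ) = (f v) ^ j := by
    rw [← hf, hv, map_zpow]
  have hf3 : (1 : ℤ) = j * Multiplicative.toAdd (f v) := by
    have := congrArg Multiplicative.toAdd hf2
    simpa using this
  have hj : j = 1 ∨ j = -1 := by
    exact Int.isUnit_iff.mp (IsUnit.of_mul_eq_one _ hf3.symm)
  rcases hj with rfl | rfl
  · refine ⟨i, ?_⟩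
    rw [hb, hv, zpow_one]
  · refine ⟨-i, ?_⟩
    rw [hb, hv]; simp

theorem fg3 : FG3Stmt := by
  intro A x y z u u' hxy hyz hxz hu hu' hconj
  classical
  let κ : FreeGroup A →* FreeGroup A :=
    FreeGroup.lift (fun a => if a = z then 1 else FreeGroup.of a)
  have hκx : κ (FreeGroup.of x) = FreeGroup.of x := by simp [κ, hxz]
  have hκy : κ (FreeGroup.of y) = FreeGroup.of y := by simp [κ, hyz]
  have hκz : κ (FreeGroup.of z) = 1 := by simp [κ]
  obtain ⟨l, rfl⟩ := FreeG.exists_Pi2 _ _ _ hu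
  obtain ⟨m, rfl⟩ := FreeG.exists_Pi2 _ _ _ hu'
  have h1 : IsConj (FreeG.Pi2 (FreeGroup.of x) (FreeGroup.of y) l)
      (FreeG.Pi2 (FreeGroup.of x) (FreeGroup.of y) m) := by
    have := κ.map_isConj hconj
    rw [FreeG.map_Pi2, FreeG.map_Pi2, map_mul, map_mul, map_inv, hκx, hκy, hκz] at this
    simpa using this
  have h2 : IsConj (FreeG.Pi2 (FreeGroup.of x) (FreeGroup.of y) m)
      (FreeG.Pi2 (FreeGroup.of x) (FreeGroup.of z * FreeGroup.of y * (FreeGroup.of z)⁻¹) m) :=
    h1.symm.trans hconj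
  let τ : FreeGroup A →* FreeGroup A :=
    FreeGroup.lift (fun a => if a = y then FreeGroup.of z * FreeGroup.of y * (FreeGroup.of z)⁻¹
      else FreeGroup.of a)
  have hτx : τ (FreeGroup.of x) = FreeGroup.of x := by simp [τ, hxy]
  have hτy : τ (FreeGroup.of y) = FreeGroup.of z * FreeGroup.of y * (FreeGroup.of z)⁻¹ := by
    simp [τ]
  rcases FreeG.normal_form (FreeGroup.of x) (FreeGroup.of y) _ m rfl with
    ⟨k, hk | hk⟩ | ⟨l', hne, hall, hl'⟩
  · exact ⟨k, Or.inl (h1.trans hk)⟩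
  · exact ⟨k, Or.inr (h1.trans hk)⟩
  · exfalso
    have h3 := τ.map_isConj hl'
    rw [FreeG.map_Pi2, FreeG.map_Pi2, hτx, hτy] at h3
    exact FreeG.no_conj x y z hxy hyz hxz l' hne hall ((hl'.symm.trans h2).trans h3)

theorem fg4 : FG4Stmt := by
  intro A B C u v v' hv hv' huv huv'
  classical
  let r : Set A → (FreeGroup A →* FreeGroup A) := fun B =>
    FreeGroup.lift (fun a => if a ∈ B then FreeGroup.of a else 1)
  have hr : ∀ (B : Set A) (v : FreeGroup A), v ∈ Subgroup.closure (FreeGroup.of '' B) →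
      r B v = v := by
    intro B v hv
    induction hv using Subgroup.closure_induction with
    | mem x hx =>
      obtain ⟨a, ha, rfl⟩ := hx
      simp [r, ha]
    | one => simp
    | mul x y _ _ hx hy => rw [map_mul, hx, hy]
    | inv x _ hx => rw [map_inv, hx]
  have h1 : ∀ (B : Set A) (v : FreeGroup A), v ∈ Subgroup.closure (FreeGroup.of '' B) →
      IsConj u v → IsConj u (r B u) := by
    intro B v hv h
    have h2 : IsConj (r B u) (r B v) := (r B).map_isConj h
    rw [hr B v hv] at h2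
    exact h.trans h2.symm
  have hB := h1 B v hv huv
  have hC := h1 C v' hv' huv'
  have hBC : IsConj u (r B (r C u)) := hB.trans ((r B).map_isConj hC)
  refine ⟨_, ?_, hBC⟩
  have : ∀ g : FreeGroup A, r B (r C g) ∈ Subgroup.closure (FreeGroup.of '' (B ∩ C)) := by
    intro g
    induction g using FreeGroup.induction_on with
    | C1 => simp
    | of a =>
      by_cases haC : a ∈ C
      · by_cases haB : a ∈ B
        · have : r B (r C (FreeGroup.of a)) = FreeGroup.of a := by simp [r, haB, haC]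
          rw [this]
          exact Subgroup.subset_closure ⟨a, ⟨haB, haC⟩, rfl⟩
        · have : r B (r C (FreeGroup.of a)) = 1 := by simp [r, haB, haC]
          rw [this]; exact Subgroup.one_mem _
      · have : r B (r C (FreeGroup.of a)) = 1 := by simp [r, haC]
        rw [this]; exact Subgroup.one_mem _
    | inv_of a ih => 
      rw [map_inv, map_inv]; exact Subgroup.inv_mem _ ih
    | mul a b ha hb =>
      rw [map_mul, map_mul]; exact Subgroup.mul_mem _ ha hb
  exact this u

end AdT
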