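import Pool.Agent.Helper88.AdT.Stmts1

/-!
AD-12: isometries of anti-de Sitter space.
-/

open Matrix Real Topology Filter Set

noncomputable section

namespace AdT

namespace Isom

lemma cont_SL {X : Type*} [TopologicalSpace X] {f : X → SL}
    (h : ∀ i j, Continuous fun x => (f x : M2) i j) : Continuous f := by
  refine continuous_induced_rng.mpr ?_
  exact continuous_matrix h

/-- polarisation of the determinant -/
lemma det_add (u v : M2) : (u + v).det - u.det - v.det =
    u 0 0 * v 1 1 + u 1 1 * v 0 0 - u 0 1 * v 1 0 - u 1 0 * v 0 1 := by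
  simp only [Matrix.det_fin_two, Matrix.add_apply]
  ring

lemma inj (L : M2 →ₗ[ℝ] M2) (hL : ∀ v, (L v).det = v.det) : Function.Injective L := by
  rw [← LinearMap.ker_eq_bot, LinearMap.ker_eq_bot']
  intro u hu
  have key : ∀ v : M2, u 0 0 * v 1 1 + u 1 1 * v 0 0 - u 0 1 * v 1 0 - u 1 0 * v 0 1 = 0 := by
    intro v
    rw [← det_add, ← hL (u + v), ← hL u, ← hL v, map_add, hu]
    simp
  have h1 := key !![1, 0; 0, 0]
  have h2 := key !![0, 1; 0, 0]
  have h3 := key !![0, 0; 1, 0]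
  have h4 := key !![0, 0; 0, 1]
  simp at h1 h2 h3 h4
  ext i j
  fin_cases i <;> fin_cases j <;> simp [h1, h2, h3, h4]

lemma exists_inv (L : M2 →ₗ[ℝ] M2) (hL : ∀ v, (L v).det = v.det) :
    ∃ K : M2 →ₗ[ℝ] M2, (∀ v, (K v).det = v.det) ∧ (∀ v, L (K v) = v) ∧ ∀ v, K (L v) = v := by
  let e := LinearEquiv.ofInjectiveEndo L (inj L hL)
  refine ⟨e.symm.toLinearMap, ?_, ?_, ?_⟩
  · intro v
    have h : L (e.symm v) = v := e.apply_symm_apply v
    rw [← hL]
    show (L (e.symm v)).det = v.det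
    rw [h]
  · intro v
    exact e.apply_symm_apply v
  · intro v
    exact e.symm_apply_apply v

/-- unipotent curves -/
def up (s : ℝ) : SL := ⟨!![1, s; 0, 1], by simp [Matrix.det_fin_two]⟩
def lo (s : ℝ) : SL := ⟨!![1, 0; s, 1], by simp [Matrix.det_fin_two]⟩

lemma cont_up : Continuous up := by
  apply cont_SL
  intro i j
  fin_cases i <;> fin_cases j <;> simp [up] <;> fun_prop

lemma cont_lo : Continuous lo := by
  apply cont_SL
  intro i j
  fin_cases i <;> fin_cases j <;> simp [lo] <;> fun_prop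

lemma cont_a : Continuous a := by
  apply cont_SL
  intro i j
  fin_cases i <;> fin_cases j <;> simp [a] <;> fun_prop

lemma ev_mem {c : ℝ → SL} (hc : Continuous c) (h0 : c 0 = 1) {U : Set SL} (hU : IsOpen U)
    {x : SL} (hx : x ∈ U) : ∃ s : ℝ, 0 < s ∧ x * c s ∈ U := by
  have h1 : Continuous fun s => x * c s := continuous_const.mul hc
  have h2 : ∀ᶠ s in 𝓝 (0 : ℝ), x * c s ∈ U := by
    apply h1.continuousAt.eventually
    apply hU.mem_nhds
    show x * c 0 ∈ U
    rw [h0, mul_one]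
    exact hx
  have h3 : ∀ᶠ s in 𝓝[>] (0 : ℝ), x * c s ∈ U := h2.filter_mono nhdsWithin_le_nhds
  obtain ⟨s, hs1, hs2⟩ := (h3.and self_mem_nhdsWithin).exists
  exact ⟨s, hs2, hs1⟩

/-- an open subset of `SL` spans the matrices -/
lemma span_open (ℓ : M2 →ₗ[ℝ] ℝ) {U : Set SL} (hU : IsOpen U) (hne : U.Nonempty)
    (h : ∀ x ∈ U, ℓ (x : M2) = 0) : ∀ v, ℓ v = 0 := by
  obtain ⟨x, hx⟩ := hne
  have hx0 := h x hx
  -- the functional `v ↦ ℓ (x v)`
  have e12 : ℓ ((x : M2) * !![0, 1; 0, 0]) = 0 := by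
    obtain ⟨s, hs, hsU⟩ := ev_mem cont_up (by ext i j; fin_cases i <;> fin_cases j <;> simp [up]) hU hx
    have h1 := h _ hsU
    have h2 : ((x * up s : SL) : M2) = (x : M2) + s • ((x : M2) * !![0, 1; 0, 0]) := by
      rw [Matrix.SpecialLinearGroup.coe_mul, ← Matrix.mul_smul]
      nth_rewrite 2 [← Matrix.mul_one (x : M2)]
      rw [← Matrix.mul_add]
      congr 1
      ext i j
      fin_cases i <;> fin_cases j <;> simp [up]
    rw [h2, map_add, hx0, map_smul, zero_add, smul_eq_mul] at h1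
    exact (mul_eq_zero.mp h1).resolve_left hs.ne'
  have e21 : ℓ ((x : M2) * !![0, 0; 1, 0]) = 0 := by
    obtain ⟨s, hs, hsU⟩ := ev_mem cont_lo (by ext i j; fin_cases i <;> fin_cases j <;> simp [lo]) hU hx
    have h1 := h _ hsU
    have h2 : ((x * lo s : SL) : M2) = (x : M2) + s • ((x : M2) * !![0, 0; 1, 0]) := by
      rw [Matrix.SpecialLinearGroup.coe_mul, ← Matrix.mul_smul]
      nth_rewrite 2 [← Matrix.mul_one (x : M2)]
      rw [← Matrix.mul_add]
      congr 1
      ext i j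
      fin_cases i <;> fin_cases j <;> simp [lo]
    rw [h2, map_add, hx0, map_smul, zero_add, smul_eq_mul] at h1
    exact (mul_eq_zero.mp h1).resolve_left hs.ne'
  have eone : ℓ ((x : M2) * !![1, 0; 0, 0]) + ℓ ((x : M2) * !![0, 0; 0, 1]) = 0 := by
    rw [← map_add, ← Matrix.mul_add]
    have : (!![1, 0; 0, 0] + !![0, 0; 0, 1] : M2) = 1 := by
      ext i j
      fin_cases i <;> fin_cases j <;> simp
    rw [this, Matrix.mul_one]
    exact hx0
  obtain ⟨s, hs, hsU⟩ := ev_mem cont_a (by ext i j; fin_cases i <;> fin_cases j <;> simp [a]) hU hx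
  have h1 := h _ hsU
  have h2 : ((x * a s : SL) : M2) = Real.exp (s / 2) • ((x : M2) * !![1, 0; 0, 0]) +
      Real.exp (-(s / 2)) • ((x : M2) * !![0, 0; 0, 1]) := by
    rw [Matrix.SpecialLinearGroup.coe_mul, ← Matrix.mul_smul, ← Matrix.mul_smul, ← Matrix.mul_add]
    congr 1
    ext i j
    fin_cases i <;> fin_cases j <;> simp [a]
  rw [h2, map_add, map_smul, map_smul, smul_eq_mul, smul_eq_mul] at h1
  have hlt : Real.exp (-(s / 2)) < Real.exp (s / 2) := Real.exp_lt_exp.mpr (by linarith)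
  have e11 : ℓ ((x : M2) * !![1, 0; 0, 0]) = 0 := by
    have h3 : (Real.exp (s / 2) - Real.exp (-(s / 2))) * ℓ ((x : M2) * !![1, 0; 0, 0]) = 0 := by
      linear_combination h1 - Real.exp (-(s / 2)) * eone
    exact (mul_eq_zero.mp h3).resolve_left (by linarith)
  have e22 : ℓ ((x : M2) * !![0, 0; 0, 1]) = 0 := by linarith
  intro v
  have hv : v = (x : M2) * ((↑(x⁻¹) : M2) * v) := by
    rw [← Matrix.mul_assoc, SL_mul_inv, Matrix.one_mul]
  set w : M2 := (↑(x⁻¹) : M2) * v with hw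
  have hw2 : w = w 0 0 • !![1, 0; 0, 0] + w 0 1 • !![0, 1; 0, 0] + w 1 0 • !![0, 0; 1, 0] +
      w 1 1 • !![0, 0; 0, 1] := by
    ext i j
    fin_cases i <;> fin_cases j <;> simp
  rw [hv, hw2, Matrix.mul_add, Matrix.mul_add, Matrix.mul_add, Matrix.mul_smul, Matrix.mul_smul,
    Matrix.mul_smul, Matrix.mul_smul, map_add, map_add, map_add, map_smul, map_smul, map_smul,
    map_smul, e11, e12, e21, e22]
  simp

/-- the entry functional -/
def entry (i j : Fin 2) : M2 →ₗ[ℝ] ℝ where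
  toFun v := v i j
  map_add' _ _ := rfl
  map_smul' _ _ := rfl

lemma comp {f g : SL → SL} (hf : IsIsom f) (hg : IsIsom g) : IsIsom (f ∘ g) := by
  obtain ⟨L, hL, hLf⟩ := hf
  obtain ⟨K, hK, hKg⟩ := hg
  refine ⟨L.comp K, fun v => ?_, fun x => ?_⟩
  · rw [LinearMap.comp_apply, hL, hK]
  · rw [LinearMap.comp_apply, Function.comp_apply, hLf, hKg]

lemma inv {f : SL → SL} (hf : IsIsom f) : ∃ g, IsIsom g ∧ f ∘ g = id ∧ g ∘ f = id := by
  obtain ⟨L, hL, hLf⟩ := hf
  obtain ⟨K, hK, h1, h2⟩ := exists_inv L hL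
  refine ⟨fun x => ⟨K (x : M2), by rw [hK]; exact x.2⟩, ⟨K, hK, fun x => rfl⟩, ?_, ?_⟩
  · funext x
    apply Subtype.ext
    show ((f ⟨K (x : M2), _⟩ : SL) : M2) = (x : M2)
    rw [hLf]
    exact h1 _
  · funext x
    apply Subtype.ext
    show K ((f x : SL) : M2) = (x : M2)
    rw [hLf]
    exact h2 _

lemma mul (A B : SL) : IsIsom (fun x => A * x * B) := by
  refine ⟨(LinearMap.mulRight ℝ (B : M2)).comp (LinearMap.mulLeft ℝ (A : M2)), fun v => ?_,
    fun x => ?_⟩
  · simp [Matrix.det_mul]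
  · simp

lemma cont {f : SL → SL} (hf : IsIsom f) : Continuous f := by
  obtain ⟨L, hL, hLf⟩ := hf
  refine continuous_induced_rng.mpr ?_
  have : (fun x : SL => ((f x : SL) : M2)) = fun x : SL => L (x : M2) := funext hLf
  show Continuous (fun x : SL => ((f x : SL) : M2))
  rw [this]
  exact (LinearMap.continuous_of_finiteDimensional L).comp continuous_subtype_val

lemma eq_of_eqOn {f g : SL → SL} (hf : IsIsom f) (hg : IsIsom g) {U : Set SL} (hU : IsOpen U)
    (hne : U.Nonempty) (h : EqOn f g U) : f = g := by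
  obtain ⟨L, hL, hLf⟩ := hf
  obtain ⟨K, hK, hKg⟩ := hg
  have key : ∀ v, L v = K v := by
    intro v
    ext i j
    have h0 := span_open ((entry i j).comp (L - K)) hU hne (fun x hx => by
      rw [LinearMap.comp_apply, LinearMap.sub_apply, ← hLf, ← hKg, h hx, sub_self, map_zero]) v
    rw [LinearMap.comp_apply, LinearMap.sub_apply] at h0
    have h1 : (L v - K v) i j = 0 := h0
    rw [Matrix.sub_apply] at h1
    linarith
  funext x
  apply Subtype.ext
  show ((f x : SL) : M2) = ((g x : SL) : M2)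
  rw [hLf, hKg, key]

end Isom

theorem isom : IsomStmt := by
  refine ⟨fun f g hf hg => Isom.comp hf hg, ⟨LinearMap.id, fun v => rfl, fun x => rfl⟩,
    fun f hf => Isom.inv hf, Isom.mul, fun f hf => Isom.cont hf,
    fun f g hf hg U hU hne h => Isom.eq_of_eqOn hf hg hU hne h, ?_⟩
  intro L hL U hU hne ℓ h v
  exact Isom.span_open (ℓ.comp L) hU hne (fun x hx => h x hx) v

end AdT
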