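import Pool.Agent.Helper88.AdT.Stmts1

/-!
AD-7b: the developing map is locally an open embedding.
-/

open Matrix Real Topology Filter Set

noncomputable section

namespace AdT

namespace Local

lemma a_coe (t : ℝ) : (a t : M2) = !![exp (t / 2), 0; 0, exp (-(t / 2))] := rfl

lemma mul_a_coe (x : SL) (t : ℝ) : ((x * a t : SL) : M2) =
    !![x 0 0 * exp (t / 2), x 0 1 * exp (-(t / 2)); x 1 0 * exp (t / 2),
      x 1 1 * exp (-(t / 2))] := by
  rw [Matrix.SpecialLinearGroup.coe_mul, a_coe]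
  ext i j
  fin_cases i <;> fin_cases j <;> simp [Matrix.mul_apply, Fin.sum_univ_two]

lemma a_add (s t : ℝ) : a (s + t) = a s * a t := by
  apply Matrix.SpecialLinearGroup.ext
  intro i j
  have h := mul_a_coe (a s) t
  change (a (s + t) : M2) i j = ((a s * a t : SL) : M2) i j
  rw [h, a_coe]
  fin_cases i <;> fin_cases j <;> simp [a, ← Real.exp_add] <;> ring_nf

lemma a_zero : a 0 = 1 := by
  apply Matrix.SpecialLinearGroup.ext
  intro i j
  rw [a_coe, Matrix.SpecialLinearGroup.coe_one]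
  fin_cases i <;> fin_cases j <;> simp

lemma continuous_coe : Continuous (fun x : SL => (x : M2)) := continuous_subtype_val

lemma continuous_entry (i j : Fin 2) : Continuous (fun x : SL => x i j) := by
  have h := continuous_coe
  have h2 : Continuous (fun x : SL => (x : M2) i j) := by fun_prop
  exact h2

lemma continuous_a : Continuous a := by
  apply Continuous.subtype_mk
  apply continuous_matrix
  intro i j
  fin_cases i <;> fin_cases j <;> simp <;> fun_prop

/-- The coordinate along the flow. -/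
def u (x : SL) : ℝ := (1 / 2) * Real.log ((x 0 0 ^ 2 + x 1 0 ^ 2) / (x 0 1 ^ 2 + x 1 1 ^ 2))

lemma det_eq (x : SL) : x 0 0 * x 1 1 - x 0 1 * x 1 0 = 1 := by
  have h : (x : M2).det = 1 := x.2
  rw [Matrix.det_fin_two] at h
  exact h

lemma pos0 (x : SL) : 0 < x 0 0 ^ 2 + x 1 0 ^ 2 := by
  have h := det_eq x
  by_contra hc
  have h1 : x 0 0 = 0 := by nlinarith [sq_nonneg (x 0 0), sq_nonneg (x 1 0)]
  have h2 : x 1 0 = 0 := by nlinarith [sq_nonneg (x 0 0), sq_nonneg (x 1 0)]
  rw [h1, h2] at h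
  norm_num at h

lemma pos1 (x : SL) : 0 < x 0 1 ^ 2 + x 1 1 ^ 2 := by
  have h := det_eq x
  by_contra hc
  have h1 : x 0 1 = 0 := by nlinarith [sq_nonneg (x 0 1), sq_nonneg (x 1 1)]
  have h2 : x 1 1 = 0 := by nlinarith [sq_nonneg (x 0 1), sq_nonneg (x 1 1)]
  rw [h1, h2] at h
  norm_num at h

lemma continuous_u : Continuous u := by
  unfold u
  have h00 := continuous_entry 0 0
  have h01 := continuous_entry 0 1
  have h10 := continuous_entry 1 0
  have h11 := continuous_entry 1 1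
  apply Continuous.mul continuous_const
  apply Continuous.log
  · apply Continuous.div (by fun_prop) (by fun_prop)
    intro x
    exact (pos1 x).ne'
  · intro x
    exact (div_pos (pos0 x) (pos1 x)).ne'

lemma u_mul_a (x : SL) (t : ℝ) : u (x * a t) = u x + t := by
  have h := mul_a_coe x t
  have e00 : (x * a t : SL) 0 0 = x 0 0 * exp (t / 2) := congrFun (congrFun h 0) 0
  have e01 : (x * a t : SL) 0 1 = x 0 1 * exp (-(t / 2)) := congrFun (congrFun h 0) 1
  have e10 : (x * a t : SL) 1 0 = x 1 0 * exp (t / 2) := congrFun (congrFun h 1) 0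
  have e11 : (x * a t : SL) 1 1 = x 1 1 * exp (-(t / 2)) := congrFun (congrFun h 1) 1
  unfold u
  rw [e00, e01, e10, e11]
  have h1 : ((x 0 0 * exp (t / 2)) ^ 2 + (x 1 0 * exp (t / 2)) ^ 2) /
      ((x 0 1 * exp (-(t / 2))) ^ 2 + (x 1 1 * exp (-(t / 2))) ^ 2) =
      (x 0 0 ^ 2 + x 1 0 ^ 2) / (x 0 1 ^ 2 + x 1 1 ^ 2) * exp (2 * t) := by
    have h2 : exp (2 * t) = exp (t / 2) ^ 2 / exp (-(t / 2)) ^ 2 := by
      rw [← Real.exp_nat_mul, ← Real.exp_nat_mul, ← Real.exp_sub]
      congr 1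
      push_cast
      ring
    have h3 := pos1 x
    have h4 := Real.exp_pos (-(t / 2))
    rw [h2, mul_pow, mul_pow, mul_pow, mul_pow, ← add_mul, ← add_mul]
    field_simp
  rw [h1, Real.log_mul (div_pos (pos0 x) (pos1 x)).ne' (Real.exp_pos _).ne', Real.log_exp]
  ring

/-- The transversal. -/
abbrev Zt : Type := {x : SL // u x = 0}

/-- The homeomorphism with the product. -/
def Phi : SL ≃ₜ Zt × ℝ where
  toFun x := (⟨x * a (-(u x)), by rw [u_mul_a]; ring⟩, u x)
  invFun p := p.1.1 * a p.2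
  left_inv x := by
    simp only
    rw [mul_assoc, ← a_add, neg_add_cancel, a_zero, mul_one]
  right_inv p := by
    obtain ⟨⟨z, hz⟩, s⟩ := p
    have h : u (z * a s) = s := by rw [u_mul_a, hz, zero_add]
    simp only [h]
    congr 1
    apply Subtype.ext
    simp only
    rw [mul_assoc, ← a_add, add_neg_cancel, a_zero, mul_one]
  continuous_toFun := by
    apply Continuous.prodMk
    · apply Continuous.subtype_mk
      exact continuous_id.mul (continuous_a.comp continuous_u.neg)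
    · exact continuous_u
  continuous_invFun := by
    exact (continuous_subtype_val.comp continuous_fst).mul (continuous_a.comp continuous_snd)

lemma Phi_symm (p : Zt × ℝ) : Phi.symm p = p.1.1 * a p.2 := rfl

/-- A continuous function which increases to the right of every point increases. -/
lemma lt_of_local {g : ℝ → ℝ} {p q : ℝ} (hpq : p < q) (hg : ContinuousOn g (Icc p q))
    (hloc : ∀ s ∈ Ico p q, ∀ᶠ v in 𝓝[>] (0 : ℝ), g s < g (s + v)) : g p < g q := by
  have hstep : ∀ s ∈ Ico p q, ∃ v, 0 < v ∧ s + v ≤ q ∧ g s < g (s + v) := by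
    intro s hs
    have h1 : ∀ᶠ v in 𝓝[>] (0 : ℝ), v ∈ Ioo 0 (q - s) :=
      Ioo_mem_nhdsGT (by linarith [hs.2])
    obtain ⟨v, hv1, hv2⟩ := (h1.and (hloc s hs)).exists
    exact ⟨v, hv1.1, by linarith [hv1.2], hv2⟩
  obtain ⟨c, hc, hmax⟩ := isCompact_Icc.exists_isMaxOn (nonempty_Icc.2 hpq.le) hg
  have hcq : c = q := by
    by_contra hne
    have hlt : c < q := lt_of_le_of_ne hc.2 hne
    obtain ⟨v, hv, hvq, hgt⟩ := hstep c ⟨hc.1, hlt⟩
    have h2 : g (c + v) ≤ g c := hmax ⟨by linarith [hc.1], hvq⟩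
    linarith
  obtain ⟨v, hv, hvq, hgt⟩ := hstep p ⟨le_rfl, hpq⟩
  have h3 : g (p + v) ≤ g c := hmax ⟨by linarith, hvq⟩
  rw [hcq] at h3
  linarith

lemma exists_lift {φ : SL → AddCircle (1 : ℝ)} {S : Set SL} (hS : IsOpen S)
    (hφ : ContinuousOn φ S) {x : SL} (hx : x ∈ S) :
    ∃ (U : Set SL) (f : SL → ℝ), IsOpen U ∧ x ∈ U ∧ U ⊆ S ∧ ContinuousOn f U ∧
      ∀ x' ∈ U, ((f x' : ℝ) : AddCircle (1 : ℝ)) = φ x' := by
  obtain ⟨r, hr⟩ := QuotientAddGroup.mk_surjective (φ x)
  let e := AddCircle.openPartialHomeomorphCoe (1 : ℝ) (r - 1 / 2)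
  have hsrc : r ∈ e.source := by
    change r ∈ Ioo (r - 1 / 2) (r - 1 / 2 + 1)
    constructor <;> linarith
  have htgt : φ x ∈ e.target := by
    rw [← hr]
    exact e.map_source hsrc
  refine ⟨S ∩ φ ⁻¹' e.target, fun x' => e.symm (φ x'), ?_, ⟨hx, htgt⟩, inter_subset_left, ?_, ?_⟩
  · exact hφ.isOpen_inter_preimage hS e.open_target
  · have h1 : ContinuousOn φ (S ∩ φ ⁻¹' e.target) := hφ.mono inter_subset_left
    exact e.continuousOn_symm.comp h1 (fun x' hx' => hx'.2)
  · intro x' hx'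
    exact e.right_inv hx'.2

end Local

open Local

theorem localDev (h0 : IsOpen E) (h1 : ThetaStmt) (h2 : MonoStmt) (h3 : MonoFibreStmt) :
    LocalStmt := by
  intro x hx
  have hcont : ∀ κ, ContinuousOn (Th κ) E := by
    intro κ
    refine (h1.1 κ).mono ?_
    intro x' hx' N hN
    obtain ⟨b, d, c, hQ, -, rfl⟩ := hN
    exact hx' _ ⟨b, d, c, hQ, rfl⟩
  choose U₁ f hU₁ hxU₁ hU₁E hf hf' using fun κ => exists_lift h0 (hcont κ) hx
  set U₀ : Set SL := U₁ true ∩ U₁ false with hU₀def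
  have hU₀sub : ∀ κ, U₀ ⊆ U₁ κ := by
    intro κ
    cases κ
    · exact inter_subset_right
    · exact inter_subset_left
  have hU₀ : IsOpen U₀ := (hU₁ true).inter (hU₁ false)
  have hxU₀ : x ∈ U₀ := ⟨hxU₁ true, hxU₁ false⟩
  have hU₀E : U₀ ⊆ E := (hU₀sub true).trans (hU₁E true)
  have hfU₀ : ∀ κ, ContinuousOn (f κ) U₀ := fun κ => (hf κ).mono (hU₀sub κ)
  -- the product picture
  set O : Set (Zt × ℝ) := Phi.symm ⁻¹' U₀ with hOdef
  have hO : IsOpen O := hU₀.preimage Phi.symm.continuous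
  have hxO : Phi x ∈ O := by
    rw [hOdef, Set.mem_preimage, Phi.symm_apply_apply]
    exact hxU₀
  obtain ⟨V, I, hV, hI, hxV, hxI, hVI⟩ := isOpen_prod_iff.1 hO (Phi x).1 (Phi x).2 hxO
  obtain ⟨δ, hδ, hball⟩ := Metric.isOpen_iff.1 hI (Phi x).2 hxI
  set t₀ := (Phi x).2 - δ with ht₀
  set t₁ := (Phi x).2 + δ with ht₁
  have hIoo : Ioo t₀ t₁ ⊆ I := by
    intro s hs
    apply hball
    rw [Metric.mem_ball, Real.dist_eq, abs_lt]
    constructor <;> linarith [hs.1, hs.2]
  have hbox : V ×ˢ Ioo t₀ t₁ ⊆ O := fun p hp => hVI ⟨hp.1, hIoo hp.2⟩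
  set U : Set SL := Phi ⁻¹' (V ×ˢ Ioo t₀ t₁) with hUdef
  have hUopen : IsOpen U := (hV.prod isOpen_Ioo).preimage Phi.continuous
  have hxU : x ∈ U := ⟨hxV, by linarith, by linarith⟩
  have hUU₀ : U ⊆ U₀ := by
    intro x' hx'
    have h4 := hbox hx'
    rw [hOdef, Set.mem_preimage, Phi.symm_apply_apply] at h4
    exact h4
  refine ⟨U, f, hUopen, hxU, hUU₀.trans hU₀E, fun κ => (hfU₀ κ).mono hUU₀,
    fun κ x' hx' => hf' κ x' (hU₀sub κ (hUU₀ hx')), ?_⟩
  intro t ht
  -- the function H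
  set H : Zt × ℝ → ℝ := fun p => p.2 + devf t (fun κ => f κ (Phi.symm p)) with hHdef
  have hHc : ContinuousOn H O := by
    have h5 : ∀ κ, ContinuousOn (fun p => f κ (Phi.symm p)) O := fun κ =>
      (hfU₀ κ).comp Phi.symm.continuous.continuousOn (fun p hp => hp)
    have h6 := h5 true
    have h7 := h5 false
    rw [hHdef]
    unfold devf
    exact continuousOn_snd.add (continuousOn_const.mul
      ((continuousOn_const.mul h6).add (continuousOn_const.mul h7)))
  have hHmono : ∀ ζ t₁ t₂, t₁ < t₂ → (∀ t ∈ Icc t₁ t₂, (ζ, t) ∈ O) →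
      H (ζ, t₁) < H (ζ, t₂) := by
    intro ζ p q hpq hseg
    have hgc : ContinuousOn (fun s => H (ζ, s)) (Icc p q) := by
      refine hHc.comp ?_ (fun s hs => hseg s hs)
      exact (Continuous.prodMk_right ζ).continuousOn
    refine lt_of_local (g := fun s => H (ζ, s)) hpq hgc ?_
    intro s hs
    have hxs : ζ.1 * a s ∈ U₀ := hseg s ⟨hs.1, hs.2.le⟩
    have hadd : ∀ v, ζ.1 * a s * a v = ζ.1 * a (s + v) := by
      intro v
      rw [a_add, mul_assoc]
    have hmem : ∀ v ∈ Ico 0 (q - s), ζ.1 * a s * a v ∈ U₀ := by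
      intro v hv
      rw [hadd]
      exact hseg (s + v) ⟨by linarith [hs.1, hv.1], by linarith [hv.2]⟩
    have h8 := h2 (ζ.1 * a s) (hU₀E hxs) t ht (q - s) (by linarith [hs.2])
      (fun κ v => f κ (ζ.1 * a s * a v)) (by
        intro κ
        refine (hfU₀ κ).comp ?_ hmem
        exact (continuous_const.mul continuous_a).continuousOn) (by
        intro κ v hv
        exact hf' κ _ (hU₀sub κ (hmem v hv)))
    filter_upwards [h8] with v hv
    simp only [hHdef, Phi_symm]
    have h9 : devf t (fun κ => f κ (ζ.1 * a s * a 0)) = devf t (fun κ => f κ (ζ.1 * a s)) := by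
      simp only [a_zero, mul_one]
    rw [h9] at hv
    simp only [hadd] at hv
    linarith
  obtain ⟨hinj, hopen⟩ := h3 Zt O hO H hHc hHmono V hV t₀ t₁ hbox
  have hD : ∀ x' : SL, x' * a (devf t (fun κ => f κ x')) =
      Phi.symm ((fun p : Zt × ℝ => (p.1, H p)) (Phi x')) := by
    intro x'
    rw [Phi_symm]
    simp only [hHdef, Phi.symm_apply_apply]
    change _ = x' * a (-(u x')) * a (u x' + devf t (fun κ => f κ x'))
    rw [mul_assoc, ← a_add]
    congr 2
    ring
  constructor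
  · intro x' hx' x'' hx'' heq
    simp only at heq
    rw [hD, hD] at heq
    exact Phi.injective (hinj hx' hx'' (Phi.symm.injective heq))
  · intro W hWU hW
    have h10 : (fun x' : SL => x' * a (devf t (fun κ => f κ x'))) '' W =
        Phi.symm '' ((fun p : Zt × ℝ => (p.1, H p)) '' (Phi '' W)) := by
      rw [image_image, image_image]
      apply image_congr
      intro x' _
      exact hD x'
    rw [h10]
    apply Phi.symm.isOpenMap
    apply hopen
    · rintro _ ⟨x', hx', rfl⟩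
      exact hWU hx'
    · exact Phi.isOpenMap W hW

end AdT
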