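import Pool.Agent.Helper88.AdT.Stmts1

/-!
AD-6 : monotonicity of the exponent of the developing map along the geodesic flow.
-/

open Matrix Real Topology Filter Set

noncomputable section

namespace AdT.Mono

lemma clamp_sub_le {p q d : ℝ} (hd : 0 ≤ d) (h : p - q ≤ d) : clamp p - clamp q ≤ d := by
  simp only [clamp, max_def, min_def]
  split_ifs <;> linarith

lemma clamp_mono {p q : ℝ} (h : p ≤ q) : clamp p ≤ clamp q := by
  have := clamp_sub_le (p := p) (q := q) le_rfl (by linarith)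
  linarith

lemma clamp_cont : Continuous clamp := by
  unfold clamp
  fun_prop

lemma m0_cont : Continuous m0 := by
  unfold m0
  fun_prop

lemma m0_of_pos (hr : 0 < r0) {ν : ℝ} (hν : 0 < ν) : m0 ν = min r0 ν := by
  rw [m0, max_eq_right]
  have : 0 < min r0 ν := lt_min hr hν
  linarith

lemma m0_neg (ν : ℝ) : m0 (-ν) = -m0 ν := by
  have hr : 0 ≤ r0 := arsinh_nonneg_iff.mpr (by positivity)
  simp only [m0, max_def, min_def]
  split_ifs <;> linarith

lemma u0_neg (τ ν : ℝ) : u0 (-τ) (-ν) = u0 τ ν := by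
  rw [u0, u0, m0_neg, arsinh_neg, neg_div_neg_eq]

/-- a differentiable majorant of `arsinh τ / m0 ν` along the flow -/
lemma exists_major (hr : 0 < r0) (τ ν : ℝ) (hν : 0 < ν) : ∃ g1 : ℝ → ℝ,
    HasDerivAt g1 (ν / √(1 + τ ^ 2) / m0 ν) 0 ∧ g1 0 = arsinh τ / m0 ν ∧
    ∀ᶠ u in 𝓝[>] (0 : ℝ), arsinh (cosh u * τ + sinh u * ν) / m0 (sinh u * τ + cosh u * ν)
      ≤ g1 u := by
  have hm : 0 < m0 ν := by rw [m0_of_pos hr hν]; exact lt_min hr hν
  have hd : HasDerivAt (fun u : ℝ => cosh u * τ + sinh u * ν) (sinh 0 * τ + cosh 0 * ν) 0 :=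
    ((Real.hasDerivAt_cosh 0).mul_const τ).add ((Real.hasDerivAt_sinh 0).mul_const ν)
  have hA : HasDerivAt (fun u : ℝ => arsinh (cosh u * τ + sinh u * ν)) (ν / √(1 + τ ^ 2)) 0 := by
    have h1 := hd.arsinh
    simp only [sinh_zero, cosh_zero, zero_mul, one_mul, zero_add, add_zero, smul_eq_mul] at h1
    convert h1 using 1
    rw [div_eq_inv_mul]
  have hνc : Continuous (fun u : ℝ => sinh u * τ + cosh u * ν) := by fun_prop
  have hpos : ∀ᶠ u in 𝓝[>] (0 : ℝ), 0 < sinh u * τ + cosh u * ν := by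
    apply nhdsWithin_le_nhds
    have h0 : Tendsto (fun u : ℝ => sinh u * τ + cosh u * ν) (𝓝 0) (𝓝 ν) := by
      have := hνc.tendsto 0
      simpa using this
    exact h0.eventually (lt_mem_nhds hν)
  rcases le_or_gt 0 τ with hτ | hτ
  · refine ⟨fun u => arsinh (cosh u * τ + sinh u * ν) / m0 ν, hA.div_const _, by simp, ?_⟩
    filter_upwards [hpos, self_mem_nhdsWithin] with u hu hu0
    have hu0' : 0 < u := hu0
    have h1 : ν ≤ sinh u * τ + cosh u * ν := by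
      have h2 : 1 ≤ cosh u := Real.one_le_cosh u
      have h3 : 0 ≤ sinh u := Real.sinh_nonneg_iff.mpr hu0'.le
      nlinarith
    have h4 : m0 ν ≤ m0 (sinh u * τ + cosh u * ν) := by
      rw [m0_of_pos hr hν, m0_of_pos hr hu]
      exact min_le_min_left _ h1
    have h5 : 0 ≤ arsinh (cosh u * τ + sinh u * ν) := by
      rw [arsinh_nonneg_iff]
      have h3 : 0 ≤ sinh u := Real.sinh_nonneg_iff.mpr hu0'.le
      have h2 : 0 ≤ cosh u := (Real.cosh_pos u).le
      positivity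
    exact div_le_div_of_nonneg_left h5 hm h4
  · refine ⟨fun u => arsinh (cosh u * τ + sinh u * ν) / (cosh u * m0 ν), ?_, by simp, ?_⟩
    · have h1 := hA.div ((Real.hasDerivAt_cosh 0).mul_const (m0 ν)) (by simp [hm.ne'])
      refine h1.congr_deriv ?_
      have hm' : m0 ν ≠ 0 := hm.ne'
      simp only [Real.sinh_zero, Real.cosh_zero, zero_mul, one_mul, mul_zero, sub_zero]
      field_simp
    · have hneg : ∀ᶠ u in 𝓝[>] (0 : ℝ), arsinh (cosh u * τ + sinh u * ν) < 0 := by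
        apply nhdsWithin_le_nhds
        have h0 : Tendsto (fun u : ℝ => arsinh (cosh u * τ + sinh u * ν)) (𝓝 0)
            (𝓝 (arsinh τ)) := by
          have := hA.continuousAt.tendsto
          simpa using this
        exact h0.eventually (gt_mem_nhds (arsinh_neg_iff.mpr hτ))
      filter_upwards [hpos, self_mem_nhdsWithin, hneg] with u hu hu0 hn
      have hu0' : 0 < u := hu0
      have h1 : m0 (sinh u * τ + cosh u * ν) ≤ cosh u * m0 ν := by
        rw [m0_of_pos hr hν, m0_of_pos hr hu]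
        have h3 : 0 ≤ sinh u := Real.sinh_nonneg_iff.mpr hu0'.le
        have h2 : 1 ≤ cosh u := Real.one_le_cosh u
        rw [mul_min_of_nonneg _ _ (by linarith)]
        refine min_le_min ?_ ?_
        · nlinarith
        · nlinarith
      have h2 : 0 < m0 (sinh u * τ + cosh u * ν) := by
        rw [m0_of_pos hr hu]; exact lt_min hr hu
      have h3 := div_le_div_of_nonneg_left (neg_nonneg.mpr hn.le) h2 h1
      rw [neg_div, neg_div] at h3
      linarith

/-- upper derivative bound of one line -/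
lemma one_line_pos (hr : 0 < r0) (τ ν : ℝ) (hν : 0 < ν) (e : ℝ) (he : 0 < e) :
    ∀ᶠ u in 𝓝[>] (0 : ℝ), u0 (cosh u * τ + sinh u * ν) (sinh u * τ + cosh u * ν) - u0 τ ν
      ≤ (ν / √(1 + τ ^ 2) / m0 ν / 2 + e) * u := by
  obtain ⟨g1, hg, hg0, hle⟩ := exists_major hr τ ν hν
  have hm : 0 < m0 ν := by rw [m0_of_pos hr hν]; exact lt_min hr hν
  have hD : 0 ≤ ν / √(1 + τ ^ 2) / m0 ν := by positivity
  have h1 : ∀ᶠ u in 𝓝[>] (0 : ℝ), g1 u - g1 0 ≤ (ν / √(1 + τ ^ 2) / m0 ν + 2 * e) * u := by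
    have h2 := (hasDerivAt_iff_tendsto_slope.mp hg)
    have h3 : Tendsto (slope g1 0) (𝓝[>] 0) (𝓝 (ν / √(1 + τ ^ 2) / m0 ν)) :=
      h2.mono_left (nhdsWithin_mono _ (fun u hu => (ne_of_gt hu)))
    have h4 := h3.eventually (gt_mem_nhds (show ν / √(1 + τ ^ 2) / m0 ν <
      ν / √(1 + τ ^ 2) / m0 ν + 2 * e by linarith))
    filter_upwards [h4, self_mem_nhdsWithin] with u hu hu0
    have hu0' : 0 < u := hu0
    rw [slope_def_field, sub_zero, div_lt_iff₀ hu0'] at hu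
    exact hu.le
  filter_upwards [h1, hle, self_mem_nhdsWithin] with u hu hu1 hu0
  have hu0' : 0 < u := hu0
  have h5 : clamp (arsinh (cosh u * τ + sinh u * ν) / m0 (sinh u * τ + cosh u * ν)) ≤
    clamp (g1 u) := clamp_mono hu1
  have h6 := clamp_sub_le (p := g1 u) (q := g1 0) (by positivity) hu
  rw [u0, u0, ← hg0]
  linarith

lemma s0_m0 (hr : 0 < r0) {ν : ℝ} (hν : 0 < ν) (T : ℝ) :
    s0 * (ν / T / m0 ν / 2) = max |ν| r0 / T := by
  rw [s0, m0_of_pos hr hν, abs_of_pos hν]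
  rcases le_total r0 ν with h | h
  · rw [min_eq_left h, max_eq_left h]; field_simp
  · rw [min_eq_right h, max_eq_right h]; field_simp

lemma one_line (hr : 0 < r0) (τ ν : ℝ) (hν : ν ≠ 0) (e : ℝ) (he : 0 < e) :
    ∀ᶠ u in 𝓝[>] (0 : ℝ), s0 * (u0 (cosh u * τ + sinh u * ν) (sinh u * τ + cosh u * ν)
      - u0 τ ν) ≤ (max |ν| r0 / √(1 + τ ^ 2) + e) * u := by
  have hs : 0 < s0 := by rw [s0]; linarith
  rcases lt_or_gt_of_ne hν with h | h
  · have h1 := one_line_pos hr (-τ) (-ν) (by linarith) (e / s0) (by positivity)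
    filter_upwards [h1] with u hu
    have e1 : cosh u * -τ + sinh u * -ν = -(cosh u * τ + sinh u * ν) := by ring
    have e2 : sinh u * -τ + cosh u * -ν = -(sinh u * τ + cosh u * ν) := by ring
    rw [e1, e2, u0_neg, u0_neg, neg_sq] at hu
    have h3 := mul_le_mul_of_nonneg_left hu hs.le
    refine h3.trans (le_of_eq ?_)
    rw [← mul_assoc, mul_add, s0_m0 hr (by linarith), abs_neg, mul_div_cancel₀ _ hs.ne']
  · have h1 := one_line_pos hr τ ν h (e / s0) (by positivity)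
    filter_upwards [h1] with u hu
    have h3 := mul_le_mul_of_nonneg_left hu hs.le
    refine h3.trans (le_of_eq ?_)
    rw [← mul_assoc, mul_add, s0_m0 hr h, mul_div_cancel₀ _ hs.ne']

/-- a right continuous function whose values agree modulo one is constant -/
lemma const_of_mod (h : ℝ → ℝ) (hc : ContinuousWithinAt h (Ioi 0) 0)
    (hm : ∀ᶠ u in 𝓝[>] (0 : ℝ), ((h u : ℝ) : AddCircle (1 : ℝ)) = (h 0 : ℝ)) :
    ∀ᶠ u in 𝓝[>] (0 : ℝ), h u = h 0 := by
  have h1 : ∀ᶠ u in 𝓝[>] (0 : ℝ), |h u - h 0| < 1 := by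
    exact hc.tendsto.eventually (Metric.ball_mem_nhds (h 0) one_pos)
  filter_upwards [h1, hm] with u hu hu'
  have h2 : h u - h 0 ∈ AddSubgroup.zmultiples (1 : ℝ) :=
    (QuotientAddGroup.eq_iff_sub_mem).mp hu'
  obtain ⟨n, hn⟩ := AddSubgroup.mem_zmultiples_iff.mp h2
  rw [← hn] at hu
  simp only [zsmul_eq_mul, mul_one] at hu hn
  have h3 : |n| < 1 := by exact_mod_cast hu
  have h4 : n = 0 := Int.abs_lt_one_iff.mp h3
  rw [h4] at hn
  simp only [Int.cast_zero] at hn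
  linarith

lemma dich (τ ν : ℝ) :
    ((∀ᶠ u in 𝓝[>] (0 : ℝ), 2 * (cosh u * τ + sinh u * ν) ^ 2 < 1) ∧ 2 * τ ^ 2 ≤ 1) ∨
    ((∀ᶠ u in 𝓝[>] (0 : ℝ), 1 ≤ 2 * (cosh u * τ + sinh u * ν) ^ 2) ∧ 1 ≤ 2 * τ ^ 2) := by
  have hc : Tendsto (fun u : ℝ => 2 * (cosh u * τ + sinh u * ν) ^ 2) (𝓝[>] 0)
      (𝓝 (2 * τ ^ 2)) := by
    have h : Continuous (fun u : ℝ => 2 * (cosh u * τ + sinh u * ν) ^ 2) := by fun_prop
    have := h.tendsto 0
    simp only [Real.sinh_zero, Real.cosh_zero, zero_mul, one_mul, add_zero] at this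
    exact this.mono_left nhdsWithin_le_nhds
  rcases lt_trichotomy (2 * τ ^ 2) 1 with h | h | h
  · exact Or.inl ⟨hc.eventually (gt_mem_nhds h), h.le⟩
  · rcases lt_or_ge (τ * ν) 0 with h1 | h1
    · left
      refine ⟨?_, h.le⟩
      have hc2 : Tendsto (fun u : ℝ => sinh u * (τ ^ 2 + ν ^ 2) + 2 * cosh u * (τ * ν)) (𝓝[>] 0)
          (𝓝 (2 * (τ * ν))) := by
        have h : Continuous (fun u : ℝ => sinh u * (τ ^ 2 + ν ^ 2) + 2 * cosh u * (τ * ν)) := by
          fun_prop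
        have := h.tendsto 0
        simp only [Real.sinh_zero, Real.cosh_zero, zero_mul, mul_one, zero_add] at this
        exact this.mono_left nhdsWithin_le_nhds
      filter_upwards [hc2.eventually (gt_mem_nhds (show 2 * (τ * ν) < 0 by linarith)),
        self_mem_nhdsWithin] with u hu hu0
      have hs : 0 < sinh u := Real.sinh_pos_iff.mpr hu0
      have h3 := mul_neg_of_pos_of_neg hs hu
      have h4 := Real.cosh_sq u
      nlinarith
    · right
      refine ⟨?_, h.ge⟩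
      filter_upwards [self_mem_nhdsWithin] with u hu0
      have hs : 0 < sinh u := Real.sinh_pos_iff.mpr hu0
      have h2 : 1 ≤ cosh u := Real.one_le_cosh u
      have h4 := Real.cosh_sq u
      have h5 : 0 ≤ cosh u * sinh u * (τ * ν) := by positivity
      nlinarith [sq_nonneg (sinh u * ν), sq_nonneg (sinh u * τ)]
  · exact Or.inr ⟨(hc.eventually (lt_mem_nhds h)).mono (fun _ h => h.le), h.le⟩

/-- for `ν = 0` the contribution is locally constant to the right -/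
lemma nu_zero (h5 : ThStmt) (τ : ℝ) (hτ : τ ≠ 0) :
    ∀ᶠ u in 𝓝[>] (0 : ℝ), th (cosh u * τ) (sinh u * τ) = 0 := by
  have hr : 0 < r0 := h5.2.2.2.2.2.1
  have key : ∀ τ : ℝ, 0 < τ → ∀ᶠ u in 𝓝[>] (0 : ℝ), th (cosh u * τ) (sinh u * τ) = 0 := by
    intro τ hτ
    have hc : Tendsto (fun u : ℝ => sinh u * τ) (𝓝[>] 0) (𝓝 0) := by
      have h : Continuous (fun u : ℝ => sinh u * τ) := by fun_prop
      have := h.tendsto 0
      simp only [Real.sinh_zero, zero_mul] at this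
      exact this.mono_left nhdsWithin_le_nhds
    filter_upwards [self_mem_nhdsWithin,
      hc.eventually (gt_mem_nhds (Real.arsinh_pos_iff.mpr hτ))] with u hu0 hu
    have hs : 0 < sinh u := Real.sinh_pos_iff.mpr hu0
    have h1 : 0 < sinh u * τ := by positivity
    rw [th, if_neg h1.ne', u0]
    have h2 : m0 (sinh u * τ) = min r0 (sinh u * τ) := m0_of_pos hr h1
    have h3 : 0 < m0 (sinh u * τ) := by rw [h2]; exact lt_min hr h1
    have h4 : arsinh τ ≤ arsinh (cosh u * τ) := by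
      rw [Real.arsinh_le_arsinh]
      nlinarith [Real.one_le_cosh u]
    have h5 : 1 ≤ arsinh (cosh u * τ) / m0 (sinh u * τ) := by
      rw [le_div_iff₀ h3, one_mul]
      calc m0 (sinh u * τ) ≤ sinh u * τ := by rw [h2]; exact min_le_right _ _
        _ ≤ arsinh τ := hu.le
        _ ≤ _ := h4
    have h6 : clamp (arsinh (cosh u * τ) / m0 (sinh u * τ)) = 1 := by
      rw [clamp, min_eq_left h5, max_eq_right (by norm_num)]
    rw [h6]
    norm_num
  rcases lt_or_gt_of_ne hτ with h | h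
  · filter_upwards [key (-τ) (by linarith)] with u hu
    rw [mul_neg, mul_neg, h5.2.2.2.1] at hu
    exact hu
  · exact key τ h

lemma entries_bound (x : SL) : ∃ R : ℝ, ∀ u ∈ Icc (0 : ℝ) 1, ∀ i j, |(x * a u : SL) i j| ≤ R := by
  have hcomp : IsCompact (Icc (0 : ℝ) 1) := isCompact_Icc
  have hc : ∀ i j, Continuous (fun u : ℝ => |(x * a u : SL) i j|) := by
    intro i j
    have h : ∀ u : ℝ, (x * a u : SL) i j = x i 0 * (a u) 0 j + x i 1 * (a u) 1 j := by
      intro u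
      rw [Matrix.SpecialLinearGroup.coe_mul, Matrix.mul_apply, Fin.sum_univ_two]
    simp_rw [h]
    apply Continuous.abs
    fin_cases j
    · simp [a]; fun_prop
    · simp [a]; fun_prop
  have hb : ∀ i j, ∃ R : ℝ, ∀ u ∈ Icc (0 : ℝ) 1, |(x * a u : SL) i j| ≤ R := by
    intro i j
    obtain ⟨R, hR⟩ := (hcomp.image (hc i j)).bddAbove
    exact ⟨R, fun u hu => hR (mem_image_of_mem _ hu)⟩
  choose R hR using hb
  refine ⟨∑ i, ∑ j, |R i j|, fun u hu i j => ?_⟩
  calc |(x * a u : SL) i j| ≤ R i j := hR i j u hu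
    _ ≤ |R i j| := le_abs_self _
    _ ≤ ∑ j, |R i j| := Finset.single_le_sum (f := fun j => |R i j|)
        (fun _ _ => abs_nonneg _) (Finset.mem_univ j)
    _ ≤ _ := Finset.single_le_sum (f := fun i => ∑ j, |R i j|)
        (fun _ _ => Finset.sum_nonneg (fun _ _ => abs_nonneg _)) (Finset.mem_univ i)

/-- the behaviour of one colour near the base point -/
lemma colour (h2 : FrameStmt) (h4 : FinStmt) (h5 : ThStmt) (h6 : ThetaStmt)
    (hL : ∀ κ, ∀ N ∈ Can κ, N ∈ Lines) (x : SL) (hx : x ∈ E) (κ : Bool) :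
    (∀ᶠ u in 𝓝[>] (0 : ℝ), Th κ (x * a u) = Th κ x) ∨
    ∃ N ∈ Can κ, 2 * tau x N ^ 2 ≤ 1 ∧ nu x N ≠ 0 ∧ Th κ x = th (tau x N) (nu x N) ∧
      ∀ᶠ u in 𝓝[>] (0 : ℝ), Th κ (x * a u) =
        th (cosh u * tau x N + sinh u * nu x N) (sinh u * tau x N + cosh u * nu x N) := by
  have flow := h2.2.2.1 x
  have main : ∀ N ∈ Can κ, 2 * tau x N ^ 2 ≤ 1 → Th κ x = th (tau x N) (nu x N) →
      (∀ᶠ u in 𝓝[>] (0 : ℝ), 2 * (cosh u * tau x N + sinh u * nu x N) ^ 2 < 1) →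
      ((∀ᶠ u in 𝓝[>] (0 : ℝ), Th κ (x * a u) = Th κ x) ∨
      ∃ N ∈ Can κ, 2 * tau x N ^ 2 ≤ 1 ∧ nu x N ≠ 0 ∧ Th κ x = th (tau x N) (nu x N) ∧
      ∀ᶠ u in 𝓝[>] (0 : ℝ), Th κ (x * a u) =
        th (cosh u * tau x N + sinh u * nu x N) (sinh u * tau x N + cosh u * nu x N)) := by
    intro N hN h1 h3 h7
    have h8 : ∀ᶠ u in 𝓝[>] (0 : ℝ), Th κ (x * a u) =
        th (cosh u * tau x N + sinh u * nu x N) (sinh u * tau x N + cosh u * nu x N) := by
      filter_upwards [h7] with u hu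
      have e1 := flow N u
      rw [h6.2.2.2.1 κ (x * a u) N hN (by rw [e1.1]; exact hu), e1.1, e1.2.1]
    by_cases hν : nu x N = 0
    · left
      have hτ : tau x N ≠ 0 := fun h => hx N (hL κ N hN) ⟨h, hν⟩
      filter_upwards [h8, nu_zero h5 _ hτ] with u hu hu'
      rw [hu, h3, hν, mul_zero, mul_zero, add_zero, add_zero, hu', th, if_pos rfl]
    · exact Or.inr ⟨N, hN, h1, hν, h3, h8⟩
  by_cases hA : ∃ N ∈ Can κ, 2 * tau x N ^ 2 < 1
  · obtain ⟨N, hN, h1⟩ := hA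
    refine main N hN h1.le (h6.2.2.2.1 κ x N hN h1) ?_
    rcases dich (tau x N) (nu x N) with h | h
    · exact h.1
    · exact absurd h1 (not_lt.mpr h.2)
  · push Not at hA
    have hx0 : Th κ x = 0 := h6.2.2.2.2.1 κ x hA
    by_cases hB : ∃ N ∈ Can κ,
        (∀ᶠ u in 𝓝[>] (0 : ℝ), 2 * (cosh u * tau x N + sinh u * nu x N) ^ 2 < 1) ∧
        2 * tau x N ^ 2 ≤ 1
    · obtain ⟨N, hN, h1, h3⟩ := hB
      exact main N hN h3 (by rw [hx0, h5.2.2.1 _ _ (hA N hN)]) h1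
    · left
      obtain ⟨R, hR⟩ := entries_bound x
      have hfin := h4.2.2 R 1
      have hev : ∀ᶠ u in 𝓝[>] (0 : ℝ), ∀ N ∈ {N : M2 | N ∈ Lines ∧ ∃ x : SL,
          (∀ i j, |x i j| ≤ R) ∧ |tau x N| ≤ 1}, N ∈ Can κ →
          1 ≤ 2 * (cosh u * tau x N + sinh u * nu x N) ^ 2 := by
        rw [Filter.eventually_all_finite hfin]
        intro N _
        by_cases hN : N ∈ Can κ
        · rcases dich (tau x N) (nu x N) with h | h
          · exact absurd ⟨N, hN, h⟩ hB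
          · exact h.1.mono (fun _ h _ => h)
        · exact Eventually.of_forall (fun _ h => absurd h hN)
      have h01 : ∀ᶠ u in 𝓝[>] (0 : ℝ), u < 1 := nhdsWithin_le_nhds (gt_mem_nhds one_pos)
      filter_upwards [hev, h01, self_mem_nhdsWithin] with u hu hu1 hu0
      have hu0' : 0 < u := hu0
      rw [hx0]
      refine h6.2.2.2.2.1 κ (x * a u) (fun N hN => ?_)
      by_cases hs : |tau (x * a u) N| ≤ 1
      · rw [(flow N u).1]
        exact hu N ⟨hL κ N hN, x * a u, hR u ⟨hu0'.le, hu1.le⟩, hs⟩ hN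
      · have h3 : 1 < |tau (x * a u) N| := not_le.mp hs
        have h7 : 1 < tau (x * a u) N ^ 2 := by
          rw [← sq_abs]
          nlinarith
        linarith

lemma u0_cont (hr : 0 < r0) (τ ν : ℝ) (hν : ν ≠ 0) :
    ContinuousAt (fun u : ℝ => u0 (cosh u * τ + sinh u * ν) (sinh u * τ + cosh u * ν)) 0 := by
  have hm : m0 ν ≠ 0 := by
    rcases lt_or_gt_of_ne hν with h | h
    · have := m0_of_pos hr (show 0 < -ν by linarith)
      have h1 : 0 < min r0 (-ν) := lt_min hr (by linarith)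
      rw [m0_neg] at this
      intro h2
      rw [h2] at this
      linarith
    · rw [m0_of_pos hr h]
      exact (lt_min hr h).ne'
  have hden : ContinuousAt (fun u : ℝ => m0 (sinh u * τ + cosh u * ν)) 0 :=
    (m0_cont.comp (by fun_prop : Continuous (fun u : ℝ => sinh u * τ + cosh u * ν))).continuousAt
  have hnum : ContinuousAt (fun u : ℝ => arsinh (cosh u * τ + sinh u * ν)) 0 :=
    (Real.continuous_arsinh.comp
      (by fun_prop : Continuous (fun u : ℝ => cosh u * τ + sinh u * ν))).continuousAt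
  have hq := hnum.div hden (by simpa using hm)
  exact continuousAt_const.add ((clamp_cont.continuousAt.comp hq).div_const 2)

/-- upper derivative bound for a lift of one colour -/
lemma lift_bound (hr : 0 < r0) (x : SL) (κ : Bool) (δ : ℝ) (hδ : 0 < δ) (f : ℝ → ℝ)
    (hf : ContinuousOn f (Ico 0 δ))
    (hfT : ∀ u ∈ Ico 0 δ, ((f u : ℝ) : AddCircle (1 : ℝ)) = Th κ (x * a u))
    (τ ν : ℝ) (hν : ν ≠ 0) (hx0 : Th κ x = th τ ν)
    (hxu : ∀ᶠ u in 𝓝[>] (0 : ℝ), Th κ (x * a u) =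
        th (cosh u * τ + sinh u * ν) (sinh u * τ + cosh u * ν)) (e : ℝ) (he : 0 < e) :
    ∀ᶠ u in 𝓝[>] (0 : ℝ), s0 * (f u - f 0) ≤ (max |ν| r0 / √(1 + τ ^ 2) + e) * u := by
  set V : ℝ → ℝ := fun u => u0 (cosh u * τ + sinh u * ν) (sinh u * τ + cosh u * ν) with hV
  have hV0 : V 0 = u0 τ ν := by simp [hV]
  have ha0 : x * a 0 = x := by
    have : a 0 = 1 := by
      ext i j
      fin_cases i <;> fin_cases j <;> simp [a]
    rw [this, mul_one]
  have h0 : (0 : ℝ) ∈ Ico 0 δ := ⟨le_rfl, hδ⟩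
  have hcf : ContinuousWithinAt f (Ioi 0) 0 := by
    have h1 := hf 0 h0
    have h2 : ContinuousWithinAt f (Ioo 0 δ) 0 := h1.mono Ioo_subset_Ico_self
    have h3 : Ioo 0 δ ∈ 𝓝[>] (0 : ℝ) := Ioo_mem_nhdsGT hδ
    exact h2.mono_of_mem_nhdsWithin h3
  have hcV : ContinuousAt V 0 := u0_cont hr τ ν hν
  have hνne : ∀ᶠ u in 𝓝[>] (0 : ℝ), sinh u * τ + cosh u * ν ≠ 0 := by
    apply nhdsWithin_le_nhds
    have hc : ContinuousAt (fun u : ℝ => sinh u * τ + cosh u * ν) 0 := by fun_prop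
    exact hc.eventually_ne (by simpa using hν)
  have hconst := const_of_mod (fun u => f u - V u) (hcf.sub hcV.continuousWithinAt) (by
    have h01 : ∀ᶠ u in 𝓝[>] (0 : ℝ), u < δ := nhdsWithin_le_nhds (gt_mem_nhds hδ)
    filter_upwards [hνne, hxu, h01, self_mem_nhdsWithin] with u hu1 hu2 hu3 hu4
    have hu4' : 0 < u := hu4
    have e1 := hfT u ⟨hu4'.le, hu3⟩
    have e2 := hfT 0 h0
    rw [ha0, hx0, th, if_neg hν] at e2
    rw [hu2, th, if_neg hu1] at e1
    show ((f u - V u : ℝ) : AddCircle (1 : ℝ)) = ((f 0 - V 0 : ℝ) : AddCircle (1 : ℝ))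
    rw [AddCircle.coe_sub, AddCircle.coe_sub, e1, e2, hV0, sub_self, sub_self])
  filter_upwards [hconst, one_line hr τ ν hν e he] with u hu hu'
  have h5 : f u - f 0 = V u - u0 τ ν := by
    have : f u - V u = f 0 - V 0 := hu
    rw [← hV0]
    linarith
  rw [h5]
  exact hu'

lemma const_bound (x : SL) (κ : Bool) (δ : ℝ) (hδ : 0 < δ) (f : ℝ → ℝ)
    (hf : ContinuousOn f (Ico 0 δ))
    (hfT : ∀ u ∈ Ico 0 δ, ((f u : ℝ) : AddCircle (1 : ℝ)) = Th κ (x * a u))
    (hxu : ∀ᶠ u in 𝓝[>] (0 : ℝ), Th κ (x * a u) = Th κ x) :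
    ∀ᶠ u in 𝓝[>] (0 : ℝ), f u = f 0 := by
  have ha0 : x * a 0 = x := by
    have : a 0 = 1 := by
      ext i j
      fin_cases i <;> fin_cases j <;> simp [a]
    rw [this, mul_one]
  have h0 : (0 : ℝ) ∈ Ico 0 δ := ⟨le_rfl, hδ⟩
  have hcf : ContinuousWithinAt f (Ioi 0) 0 := by
    have h1 := hf 0 h0
    have h2 : ContinuousWithinAt f (Ioo 0 δ) 0 := h1.mono Ioo_subset_Ico_self
    have h3 : Ioo 0 δ ∈ 𝓝[>] (0 : ℝ) := Ioo_mem_nhdsGT hδ
    exact h2.mono_of_mem_nhdsWithin h3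
  refine const_of_mod f hcf ?_
  have h01 : ∀ᶠ u in 𝓝[>] (0 : ℝ), u < δ := nhdsWithin_le_nhds (gt_mem_nhds hδ)
  filter_upwards [hxu, h01, self_mem_nhdsWithin] with u hu2 hu3 hu4
  have hu4' : 0 < u := hu4
  have e1 := hfT u ⟨hu4'.le, hu3⟩
  have e2 := hfT 0 h0
  rw [ha0] at e2
  rw [e1, e2, hu2]

/-- the value `max(|ν|, r0)/√(1+τ²)` is at most one -/
lemma M_le_one (hr : 0 < r0) (hr1 : r0 ≤ 0.7072) {τ ν σ : ℝ} (h : -τ ^ 2 + ν ^ 2 + σ ^ 2 = 1) :
    max |ν| r0 / √(1 + τ ^ 2) ≤ 1 := by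
  have h1 : 1 ≤ √(1 + τ ^ 2) := by
    rw [Real.one_le_sqrt]; nlinarith [sq_nonneg τ]
  rw [div_le_one (by linarith)]
  refine max_le ?_ (by norm_num at hr1; linarith)
  apply Real.abs_le_sqrt
  nlinarith [sq_nonneg σ]

lemma two_lines (hr : 0 < r0) (hr1 : r0 ≤ 0.7072) {τ ν σ τ' ν' σ' : ℝ}
    (h : -τ ^ 2 + ν ^ 2 + σ ^ 2 = 1) (h' : -τ' ^ 2 + ν' ^ 2 + σ' ^ 2 = 1)
    (ht : 2 * τ ^ 2 ≤ 1) (ht' : 2 * τ' ^ 2 ≤ 1)
    (hip : -(τ * τ') + ν * ν' + σ * σ' = 0) :
    max |ν| r0 / √(1 + τ ^ 2) + max |ν'| r0 / √(1 + τ' ^ 2) ≤ 1.7072 := by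
  set A := √(1 + τ ^ 2) with hA
  set B := √(1 + τ' ^ 2) with hB
  have hA1 : 1 ≤ A := by rw [hA, Real.one_le_sqrt]; nlinarith [sq_nonneg τ]
  have hB1 : 1 ≤ B := by rw [hB, Real.one_le_sqrt]; nlinarith [sq_nonneg τ']
  have hA2 : A ^ 2 = 1 + τ ^ 2 := Real.sq_sqrt (by positivity)
  have hB2 : B ^ 2 = 1 + τ' ^ 2 := Real.sq_sqrt (by positivity)
  have hA0 : 0 < A := by linarith
  have hB0 : 0 < B := by linarith
  set p := |ν| / A with hp
  set q := |ν'| / B with hq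
  have hp0 : 0 ≤ p := by positivity
  have hq0 : 0 ≤ q := by positivity
  have hp2 : p ^ 2 + (σ / A) ^ 2 = 1 := by
    rw [hp, div_pow, div_pow, sq_abs, ← add_div, hA2]
    rw [div_eq_one_iff_eq (by positivity)]
    linarith
  have hq2 : q ^ 2 + (σ' / B) ^ 2 = 1 := by
    rw [hq, div_pow, div_pow, sq_abs, ← add_div, hB2]
    rw [div_eq_one_iff_eq (by positivity)]
    linarith
  have hp1 : p ≤ 1 := by nlinarith [sq_nonneg (σ / A)]
  have hq1 : q ≤ 1 := by nlinarith [sq_nonneg (σ' / B)]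
  have hab : |τ * τ'| ≤ A * B / 3 := by
    apply abs_le_of_sq_le_sq _ (by positivity)
    have h3 : τ ^ 2 ≤ A ^ 2 / 3 := by rw [hA2]; linarith
    have h4 : τ' ^ 2 ≤ B ^ 2 / 3 := by rw [hB2]; linarith
    calc (τ * τ') ^ 2 = τ ^ 2 * τ' ^ 2 := by ring
      _ ≤ (A ^ 2 / 3) * (B ^ 2 / 3) := mul_le_mul h3 h4 (sq_nonneg _) (by positivity)
      _ = _ := by ring
  have hpq : p * q ≤ 1 / 3 + |σ / A| * |σ' / B| := by
    have h5 : |ν * ν'| ≤ |τ * τ'| + |σ * σ'| := by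
      have : ν * ν' = τ * τ' - σ * σ' := by linarith
      rw [this]
      exact abs_sub _ _
    rw [hp, hq, abs_div, abs_div, abs_of_pos hA0, abs_of_pos hB0, div_mul_div_comm,
      div_mul_div_comm, ← abs_mul, ← abs_mul, div_add_div _ _ (by norm_num) (by positivity),
      div_le_div_iff₀ (by positivity) (by positivity)]
    have : 0 < A * B := by positivity
    nlinarith
  have hs2 : |σ / A| * |σ' / B| ≤ ((σ / A) ^ 2 + (σ' / B) ^ 2) / 2 := by
    rw [← sq_abs (σ / A), ← sq_abs (σ' / B)]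
    nlinarith [sq_nonneg (|σ / A| - |σ' / B|)]
  have hsum : (p + q) ^ 2 ≤ 8 / 3 := by nlinarith
  have hpq1 : p + q ≤ 1.7072 := by
    norm_num
    nlinarith
  have e1 : max |ν| r0 / A ≤ max p r0 := by
    rw [div_le_iff₀ hA0]
    refine max_le ?_ ?_
    · calc |ν| = p * A := by rw [hp]; field_simp
        _ ≤ _ := mul_le_mul_of_nonneg_right (le_max_left _ _) hA0.le
    · calc r0 = r0 * 1 := by ring
        _ ≤ max p r0 * A := mul_le_mul (le_max_right _ _) hA1 zero_le_one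
            (le_trans hr.le (le_max_right _ _))
  have e2 : max |ν'| r0 / B ≤ max q r0 := by
    rw [div_le_iff₀ hB0]
    refine max_le ?_ ?_
    · calc |ν'| = q * B := by rw [hq]; field_simp
        _ ≤ _ := mul_le_mul_of_nonneg_right (le_max_left _ _) hB0.le
    · calc r0 = r0 * 1 := by ring
        _ ≤ max q r0 * B := mul_le_mul (le_max_right _ _) hB1 zero_le_one
            (le_trans hr.le (le_max_right _ _))
  refine (add_le_add e1 e2).trans ?_
  norm_num at hr1 hpq1 ⊢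
  rcases le_total p r0 with h6 | h6 <;> rcases le_total q r0 with h7 | h7
  · rw [max_eq_right h6, max_eq_right h7]; linarith
  · rw [max_eq_right h6, max_eq_left h7]; linarith
  · rw [max_eq_left h6, max_eq_right h7]; linarith
  · rw [max_eq_left h6, max_eq_left h7]; linarith

/-- inner product zero for two lines of different colours -/
lemma ip_zero (h1 : Arith1Stmt) (h2 : FrameStmt) (x : SL) {N N' : M2} (hN : N ∈ Can true)
    (hN' : N' ∈ Can false) (ht : 2 * tau x N ^ 2 ≤ 1) (ht' : 2 * tau x N' ^ 2 ≤ 1) :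
    -(tau x N * tau x N') + nu x N * nu x N' + sg x N * sg x N' = 0 := by
  have hNL := (h1.2.2.2.2.2.1 true N hN).1
  have hNL' := (h1.2.2.2.2.2.1 false N' hN').1
  obtain ⟨k, hk, hk3⟩ := h1.2.2.1 N hN N' hN'
  have hip := h2.2.1 x N hNL N' hNL'
  have hq := h2.1 x N hNL
  have hq' := h2.1 x N' hNL'
  rw [hk] at hip
  generalize tau x N = τ at *
  generalize tau x N' = τ' at *
  generalize nu x N = ν at *
  generalize nu x N' = ν' at *
  generalize sg x N = σ at *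
  generalize sg x N' = σ' at *
  have hb : (k : ℝ) ^ 2 ≤ 4 := by
    have e1 : (τ * τ') ^ 2 ≤ 1 / 4 := by
      calc (τ * τ') ^ 2 = τ ^ 2 * τ' ^ 2 := by ring
        _ ≤ (1 / 2) * (1 / 2) := mul_le_mul (by linarith) (by linarith) (sq_nonneg _) (by norm_num)
        _ = 1 / 4 := by norm_num
    have e2 : (ν * ν' + σ * σ') ^ 2 ≤ 9 / 4 := by
      calc (ν * ν' + σ * σ') ^ 2 ≤ (ν ^ 2 + σ ^ 2) * (ν' ^ 2 + σ' ^ 2) := by
            nlinarith [sq_nonneg (ν * σ' - σ * ν')]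
        _ ≤ (3 / 2) * (3 / 2) := mul_le_mul (by linarith) (by linarith) (by positivity)
            (by norm_num)
        _ = 9 / 4 := by norm_num
    have e3 : |τ * τ'| ≤ 1 / 2 := abs_le_of_sq_le_sq (by norm_num; linarith) (by norm_num)
    have e4 : |ν * ν' + σ * σ'| ≤ 3 / 2 := abs_le_of_sq_le_sq (by norm_num; linarith) (by norm_num)
    have e5 : |(k : ℝ)| ≤ 2 := by
      rw [hip, abs_le]
      rw [abs_le] at e3 e4
      constructor <;> linarith [e3.1, e3.2, e4.1, e4.2]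
    rw [← sq_abs]
    nlinarith [abs_nonneg (k : ℝ)]
  have hk2 : k ^ 2 ≤ 4 := by exact_mod_cast hb
  have hk0 : k = 0 := by
    have h3 : k ≤ 2 := by nlinarith
    have h4 : -2 ≤ k := by nlinarith
    omega
  rw [hk0] at hip
  simpa using hip.symm

end AdT.Mono

namespace AdT

open Mono in
theorem mono (h1 : Arith1Stmt) (h2 : FrameStmt) (h4 : FinStmt) (h5 : ThStmt) (h6 : ThetaStmt) :
    MonoStmt := by
  intro x hx t ht δ hδ f hf hfT
  have hr : 0 < r0 := h5.2.2.2.2.2.1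
  have hr1 : r0 ≤ 0.7072 := h5.2.2.2.2.2.2.1
  have hs : 0 < s0 := by rw [s0]; linarith
  have hL : ∀ κ, ∀ N ∈ Can κ, N ∈ Lines := fun κ N hN => (h1.2.2.2.2.2.1 κ N hN).1
  have hf' : ∀ κ, ∀ u ∈ Ico 0 δ, ((f κ u : ℝ) : AddCircle (1 : ℝ)) = Th κ (x * a u) := hfT
  -- the two bounds
  have key : ∃ M M' : ℝ, 0 ≤ M ∧ 0 ≤ M' ∧ M + M' ≤ 1.7072 ∧
      (∀ᶠ u in 𝓝[>] (0 : ℝ), s0 * (f true u - f true 0) ≤ (M + 0.01) * u) ∧
      (∀ᶠ u in 𝓝[>] (0 : ℝ), s0 * (f false u - f false 0) ≤ (M' + 0.01) * u) := by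
    have cst : ∀ κ, (∀ᶠ u in 𝓝[>] (0 : ℝ), Th κ (x * a u) = Th κ x) →
        (∀ᶠ u in 𝓝[>] (0 : ℝ), s0 * (f κ u - f κ 0) ≤ (0 + 0.01) * u) := by
      intro κ hκ
      filter_upwards [const_bound x κ δ hδ (f κ) (hf κ) (hf' κ) hκ, self_mem_nhdsWithin]
        with u hu hu0
      have hu0' : 0 < u := hu0
      rw [hu, sub_self, mul_zero]
      positivity
    have lft : ∀ κ, ∀ N, nu x N ≠ 0 → Th κ x = th (tau x N) (nu x N) →
        (∀ᶠ u in 𝓝[>] (0 : ℝ), Th κ (x * a u) =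
        th (cosh u * tau x N + sinh u * nu x N) (sinh u * tau x N + cosh u * nu x N)) →
        (∀ᶠ u in 𝓝[>] (0 : ℝ), s0 * (f κ u - f κ 0) ≤
          (max |nu x N| r0 / √(1 + tau x N ^ 2) + 0.01) * u) := fun κ N h3 h7 h8 =>
      lift_bound hr x κ δ hδ (f κ) (hf κ) (hf' κ) _ _ h3 h7 h8 0.01 (by norm_num)
    have hM0 : ∀ N, 0 ≤ max |nu x N| r0 / √(1 + tau x N ^ 2) := fun N =>
      div_nonneg (le_trans hr.le (le_max_right _ _)) (Real.sqrt_nonneg _)
    rcases colour h2 h4 h5 h6 hL x hx true with hc | ⟨N, hN, a1, a2, a3, a4⟩ <;>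
      rcases colour h2 h4 h5 h6 hL x hx false with hc' | ⟨N', hN', b1, b2, b3, b4⟩
    · exact ⟨0, 0, le_rfl, le_rfl, by norm_num, cst true hc, cst false hc'⟩
    · exact ⟨0, _, le_rfl, hM0 N', by
        have := M_le_one hr hr1 (h2.1 x N' (hL false N' hN'))
        norm_num
        linarith, cst true hc, lft false N' b2 b3 b4⟩
    · exact ⟨_, 0, hM0 N, le_rfl, by
        have := M_le_one hr hr1 (h2.1 x N (hL true N hN))
        norm_num
        linarith, lft true N a2 a3 a4, cst false hc'⟩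
    · exact ⟨_, _, hM0 N, hM0 N', two_lines hr hr1 (h2.1 x N (hL true N hN))
        (h2.1 x N' (hL false N' hN')) a1 b1 (ip_zero h1 h2 x hN hN' a1 b1),
        lft true N a2 a3 a4, lft false N' b2 b3 b4⟩
  obtain ⟨M, M', hM, hM', hMM, k1, k2⟩ := key
  filter_upwards [k1, k2, self_mem_nhdsWithin] with u hu1 hu2 hu0
  have hu0' : 0 < u := hu0
  have ht1 := abs_lt.mp ht
  have hl1 : (s0 + t) * (f true u - f true 0) ≤ 1.05 * ((M + 0.01) * u) := by
    have e1 : (s0 + t) * (f true u - f true 0) = (s0 + t) / s0 * (s0 * (f true u - f true 0)) := by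
      field_simp
    rw [e1]
    have e2 : 0 ≤ (s0 + t) / s0 := div_nonneg (by linarith) hs.le
    have e3 : (s0 + t) / s0 ≤ 1.05 := by rw [div_le_iff₀ hs]; norm_num; linarith
    calc (s0 + t) / s0 * (s0 * (f true u - f true 0)) ≤ (s0 + t) / s0 * ((M + 0.01) * u) :=
          mul_le_mul_of_nonneg_left hu1 e2
      _ ≤ _ := mul_le_mul_of_nonneg_right e3 (by positivity)
  have hl2 : (s0 - t) * (f false u - f false 0) ≤ 1.05 * ((M' + 0.01) * u) := by
    have e1 : (s0 - t) * (f false u - f false 0) =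
      (s0 - t) / s0 * (s0 * (f false u - f false 0)) := by
      field_simp
    rw [e1]
    have e2 : 0 ≤ (s0 - t) / s0 := div_nonneg (by linarith) hs.le
    have e3 : (s0 - t) / s0 ≤ 1.05 := by rw [div_le_iff₀ hs]; norm_num; linarith
    calc (s0 - t) / s0 * (s0 * (f false u - f false 0)) ≤ (s0 - t) / s0 * ((M' + 0.01) * u) :=
          mul_le_mul_of_nonneg_left hu2 e2
      _ ≤ _ := mul_le_mul_of_nonneg_right e3 (by positivity)
  have hfin : 1.05 * ((M + 0.01) * u) + 1.05 * ((M' + 0.01) * u) < 2 * u := by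
    have : 1.05 * ((M + 0.01) * u) + 1.05 * ((M' + 0.01) * u) = 1.05 * (M + M' + 0.02) * u := by
      ring
    rw [this]
    apply mul_lt_mul_of_pos_right _ hu0'
    norm_num at hMM ⊢
    linarith
  simp only [devf]
  linarith

end AdT
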