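import Pool.Agent.Helper88.AdT.Planar

/-!
Basic lemmas on `HomIn`, `FreeIn`, `pw`: everything is transported to the subtype.
-/

open Topology Filter Set

noncomputable section

namespace AdT

variable {Z Z' : Type} [TopologicalSpace Z] [TopologicalSpace Z'] {S S' : Set Z}
  {x y z w : Z}

/-- restriction of a path to a subset containing its range -/
def rs (S : Set Z) (γ : Path x y) (h : ∀ t, γ t ∈ S) :
    Path (⟨x, by simpa using h 0⟩ : S) ⟨y, by simpa using h 1⟩ where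
  toFun t := ⟨γ t, h t⟩
  continuous_toFun := by fun_prop
  source' := by simp
  target' := by simp

@[simp] lemma rs_apply (γ : Path x y) (h : ∀ t, γ t ∈ S) (t : unitInterval) :
    ((rs S γ h t : S) : Z) = γ t := rfl

lemma HomIn.left_mem {γ γ' : Path x y} (h : HomIn S γ γ') (t : unitInterval) : γ t ∈ S := by
  obtain ⟨H, hH⟩ := h
  have := hH (0, t)
  simpa using this

lemma HomIn.right_mem {γ γ' : Path x y} (h : HomIn S γ γ') (t : unitInterval) : γ' t ∈ S := by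
  obtain ⟨H, hH⟩ := h
  have := hH (1, t)
  simpa using this

lemma homIn_iff {γ γ' : Path x y} (h : ∀ t, γ t ∈ S) (h' : ∀ t, γ' t ∈ S) :
    HomIn S γ γ' ↔ (rs S γ h).Homotopic (rs S γ' h') := by
  constructor
  · rintro ⟨H, hH⟩
    refine ⟨{ toFun := fun p => ⟨H p, hH p⟩
              continuous_toFun := by fun_prop
              map_zero_left := fun t => Subtype.ext (by simp)
              map_one_left := fun t => Subtype.ext (by simp)
              prop' := ?_ }⟩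
    intro t s hs
    apply Subtype.ext
    rcases hs with rfl | hs
    · simp
    · rw [Set.mem_singleton_iff] at hs
      subst hs
      simp
  · rintro ⟨H⟩
    have h1 : (rs S γ h).map continuous_subtype_val = γ := by ext t; rfl
    have h2 : (rs S γ' h').map continuous_subtype_val = γ' := by ext t; rfl
    refine ⟨(H.map ⟨Subtype.val, continuous_subtype_val⟩).cast h1.symm h2.symm, fun p => ?_⟩
    exact (H p).2

/-- class of a path inside `S` -/
def cl (S : Set Z) (γ : Path x y) (h : ∀ t, γ t ∈ S) :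
    Path.Homotopic.Quotient (⟨x, by simpa using h 0⟩ : S) ⟨y, by simpa using h 1⟩ :=
  Path.Homotopic.Quotient.mk (rs S γ h)

lemma homIn_iff_cl {γ γ' : Path x y} (h : ∀ t, γ t ∈ S) (h' : ∀ t, γ' t ∈ S) :
    HomIn S γ γ' ↔ cl S γ h = cl S γ' h' := by
  rw [homIn_iff h h', cl, cl, Path.Homotopic.Quotient.eq]

lemma mem_trans {γ : Path x y} {γ' : Path y z} (h : ∀ t, γ t ∈ S) (h' : ∀ t, γ' t ∈ S)
    (t : unitInterval) : (γ.trans γ') t ∈ S := by
  have : (γ.trans γ') t ∈ range (γ.trans γ') := ⟨t, rfl⟩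
  rw [Path.trans_range] at this
  rcases this with ⟨s, hs⟩ | ⟨s, hs⟩
  · rw [← hs]; exact h s
  · rw [← hs]; exact h' s

lemma mem_symm {γ : Path x y} (h : ∀ t, γ t ∈ S) (t : unitInterval) : γ.symm t ∈ S := h _

lemma mem_refl (h : x ∈ S) (t : unitInterval) : (Path.refl x) t ∈ S := h

lemma mem_trans_left {γ : Path x y} {γ' : Path y z} (h : ∀ t, (γ.trans γ') t ∈ S)
    (t : unitInterval) : γ t ∈ S := by
  have : γ t ∈ range (γ.trans γ') := by
    rw [Path.trans_range]; exact Or.inl ⟨t, rfl⟩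
  obtain ⟨s, hs⟩ := this
  rw [← hs]; exact h s

lemma mem_trans_right {γ : Path x y} {γ' : Path y z} (h : ∀ t, (γ.trans γ') t ∈ S)
    (t : unitInterval) : γ' t ∈ S := by
  have : γ' t ∈ range (γ.trans γ') := by
    rw [Path.trans_range]; exact Or.inr ⟨t, rfl⟩
  obtain ⟨s, hs⟩ := this
  rw [← hs]; exact h s

lemma cl_trans (γ : Path x y) (γ' : Path y z) (h : ∀ t, γ t ∈ S) (h' : ∀ t, γ' t ∈ S) :
    cl S (γ.trans γ') (mem_trans h h') = (cl S γ h).trans (cl S γ' h') := by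
  rw [cl, cl, cl, ← Path.Homotopic.Quotient.mk_trans]
  congr 1
  ext t
  rw [rs_apply, Path.trans_apply, Path.trans_apply]
  split_ifs <;> rfl

lemma cl_symm (γ : Path x y) (h : ∀ t, γ t ∈ S) :
    cl S γ.symm (mem_symm h) = (cl S γ h).symm := by
  rw [cl, cl, ← Path.Homotopic.Quotient.mk_symm]
  rfl

lemma cl_refl (h : x ∈ S) :
    cl S (Path.refl x) (mem_refl h) = Path.Homotopic.Quotient.refl (⟨x, h⟩ : S) := rfl

/-! ### `HomIn` -/

lemma HomIn.refl {γ : Path x y} (h : ∀ t, γ t ∈ S) : HomIn S γ γ := by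
  rw [homIn_iff_cl h h]

lemma HomIn.symm {γ γ' : Path x y} (h : HomIn S γ γ') : HomIn S γ' γ := by
  rw [homIn_iff_cl h.right_mem h.left_mem]
  exact ((homIn_iff_cl h.left_mem h.right_mem).1 h).symm

lemma HomIn.trans {γ γ' γ'' : Path x y} (h : HomIn S γ γ') (h' : HomIn S γ' γ'') :
    HomIn S γ γ'' := by
  rw [homIn_iff_cl h.left_mem h'.right_mem]
  exact ((homIn_iff_cl h.left_mem h.right_mem).1 h).trans
    ((homIn_iff_cl h'.left_mem h'.right_mem).1 h')

lemma HomIn.hcomp {γ₁ γ₁' : Path x y} {γ₂ γ₂' : Path y z} (h : HomIn S γ₁ γ₁')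
    (h' : HomIn S γ₂ γ₂') : HomIn S (γ₁.trans γ₂) (γ₁'.trans γ₂') := by
  rw [homIn_iff_cl (mem_trans h.left_mem h'.left_mem) (mem_trans h.right_mem h'.right_mem),
    cl_trans _ _ h.left_mem h'.left_mem, cl_trans _ _ h.right_mem h'.right_mem,
    (homIn_iff_cl h.left_mem h.right_mem).1 h,
    (homIn_iff_cl h'.left_mem h'.right_mem).1 h']

lemma HomIn.symm₂ {γ γ' : Path x y} (h : HomIn S γ γ') : HomIn S γ.symm γ'.symm := by
  rw [homIn_iff_cl (mem_symm h.left_mem) (mem_symm h.right_mem), cl_symm _ h.left_mem,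
    cl_symm _ h.right_mem, (homIn_iff_cl h.left_mem h.right_mem).1 h]

lemma HomIn.assoc {γ₁ : Path x y} {γ₂ : Path y z} {γ₃ : Path z w} (h₁ : ∀ t, γ₁ t ∈ S)
    (h₂ : ∀ t, γ₂ t ∈ S) (h₃ : ∀ t, γ₃ t ∈ S) :
    HomIn S ((γ₁.trans γ₂).trans γ₃) (γ₁.trans (γ₂.trans γ₃)) := by
  rw [homIn_iff_cl (mem_trans (mem_trans h₁ h₂) h₃) (mem_trans h₁ (mem_trans h₂ h₃)),
    cl_trans (γ₁.trans γ₂) γ₃ (mem_trans h₁ h₂) h₃, cl_trans γ₁ γ₂ h₁ h₂,
    cl_trans γ₁ (γ₂.trans γ₃) h₁ (mem_trans h₂ h₃), cl_trans γ₂ γ₃ h₂ h₃,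
    Path.Homotopic.Quotient.trans_assoc]

lemma HomIn.refl_trans {γ : Path x y} (h : ∀ t, γ t ∈ S) :
    HomIn S ((Path.refl x).trans γ) γ := by
  have hx : x ∈ S := by simpa using h 0
  rw [homIn_iff_cl (mem_trans (mem_refl hx) h) h, cl_trans (Path.refl x) γ (mem_refl hx) h,
    cl_refl hx, Path.Homotopic.Quotient.refl_trans]

lemma HomIn.trans_refl {γ : Path x y} (h : ∀ t, γ t ∈ S) :
    HomIn S (γ.trans (Path.refl y)) γ := by
  have hy : y ∈ S := by simpa using h 1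
  rw [homIn_iff_cl (mem_trans h (mem_refl hy)) h, cl_trans γ (Path.refl y) h (mem_refl hy),
    cl_refl hy, Path.Homotopic.Quotient.trans_refl]

lemma HomIn.trans_symm {γ : Path x y} (h : ∀ t, γ t ∈ S) :
    HomIn S (γ.trans γ.symm) (Path.refl x) := by
  have hx : x ∈ S := by simpa using h 0
  rw [homIn_iff_cl (mem_trans h (mem_symm h)) (mem_refl hx), cl_trans γ γ.symm h (mem_symm h),
    cl_symm γ h, cl_refl hx, Path.Homotopic.Quotient.trans_symm]

lemma HomIn.symm_trans {γ : Path x y} (h : ∀ t, γ t ∈ S) :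
    HomIn S (γ.symm.trans γ) (Path.refl y) := by
  have hy : y ∈ S := by simpa using h 1
  rw [homIn_iff_cl (mem_trans (mem_symm h) h) (mem_refl hy), cl_trans γ.symm γ (mem_symm h) h,
    cl_symm γ h, cl_refl hy, Path.Homotopic.Quotient.symm_trans]

lemma HomIn.mono (hS : S ⊆ S') {γ γ' : Path x y} (h : HomIn S γ γ') : HomIn S' γ γ' := by
  obtain ⟨H, hH⟩ := h
  exact ⟨H, fun p => hS (hH p)⟩

lemma HomIn.map {T : Set Z'} {f : Z → Z'} (hf : Continuous f) (hS : ∀ p ∈ S, f p ∈ T)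
    {γ γ' : Path x y} (h : HomIn S γ γ') : HomIn T (γ.map hf) (γ'.map hf) := by
  obtain ⟨H, hH⟩ := h
  exact ⟨H.map ⟨f, hf⟩, fun p => hS _ (hH p)⟩

/-- conjugation by a path -/
def cjp (δ : Path x y) (γ : Path y y) : Path x x := δ.trans (γ.trans δ.symm)

lemma mem_cjp {δ : Path x y} {γ : Path y y} (h : ∀ t, δ t ∈ S) (h' : ∀ t, γ t ∈ S)
    (t : unitInterval) : (cjp δ γ) t ∈ S := mem_trans h (mem_trans h' (mem_symm h)) t

lemma mem_of_cjp_left {δ : Path x y} {γ : Path y y} (h : ∀ t, (cjp δ γ) t ∈ S)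
    (t : unitInterval) : δ t ∈ S := mem_trans_left h t

lemma mem_of_cjp_right {δ : Path x y} {γ : Path y y} (h : ∀ t, (cjp δ γ) t ∈ S)
    (t : unitInterval) : γ t ∈ S := mem_trans_left (mem_trans_right h) t

lemma freeIn_iff {γ : Path x x} {γ' : Path y y} :
    FreeIn S γ γ' ↔ ∃ δ : Path x y, HomIn S γ (cjp δ γ') := Iff.rfl

lemma cl_cjp (δ : Path x y) (γ : Path y y) (h : ∀ t, δ t ∈ S) (h' : ∀ t, γ t ∈ S) :
    cl S (cjp δ γ) (mem_cjp h h') = (cl S δ h).trans ((cl S γ h').trans (cl S δ h).symm) := by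
  unfold cjp
  rw [cl_trans δ _ h (mem_trans h' (mem_symm h)), cl_trans γ _ h' (mem_symm h), cl_symm δ h]

lemma HomIn.cjp_congr {δ δ' : Path x y} {γ γ' : Path y y} (h : HomIn S δ δ')
    (h' : HomIn S γ γ') : HomIn S (cjp δ γ) (cjp δ' γ') := h.hcomp (h'.hcomp h.symm₂)

lemma HomIn.cjp_cjp {δ : Path x y} {δ' : Path y z} {γ : Path z z} (h : ∀ t, δ t ∈ S)
    (h' : ∀ t, δ' t ∈ S) (h'' : ∀ t, γ t ∈ S) :
    HomIn S (cjp δ (cjp δ' γ)) (cjp (δ.trans δ') γ) := by
  rw [homIn_iff_cl (mem_cjp h (mem_cjp h' h'')) (mem_cjp (mem_trans h h') h''),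
    cl_cjp _ _ h (mem_cjp h' h''), cl_cjp _ _ h' h'', cl_cjp _ _ (mem_trans h h') h'',
    cl_trans _ _ h h']
  generalize cl S δ h = p
  generalize cl S δ' h' = q
  generalize cl S γ h'' = r
  have : (p.trans q).symm = q.symm.trans p.symm := by
    induction p using Path.Homotopic.Quotient.ind with | _ p
    induction q using Path.Homotopic.Quotient.ind with | _ q
    rw [← Path.Homotopic.Quotient.mk_trans, ← Path.Homotopic.Quotient.mk_symm,
      Path.trans_symm, Path.Homotopic.Quotient.mk_trans, Path.Homotopic.Quotient.mk_symm,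
      Path.Homotopic.Quotient.mk_symm]
  rw [this]
  simp only [Path.Homotopic.Quotient.trans_assoc]

lemma HomIn.cjp_refl_left {γ : Path x x} (h : ∀ t, γ t ∈ S) :
    HomIn S (cjp (Path.refl x) γ) γ := by
  have hx : x ∈ S := by simpa using h 0
  have h1 : HomIn S (γ.trans (Path.refl x).symm) γ := HomIn.trans_refl h
  exact (HomIn.refl_trans (mem_trans h (mem_symm (mem_refl hx)))).trans h1

lemma HomIn.cjp_refl {δ : Path x y} (h : ∀ t, δ t ∈ S) :
    HomIn S (cjp δ (Path.refl y)) (Path.refl x) :=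
  ((HomIn.refl h).hcomp (HomIn.refl_trans (mem_symm h))).trans (HomIn.trans_symm h)

lemma HomIn.cjp_symm_cjp {δ : Path x y} {γ : Path y y} (h : ∀ t, δ t ∈ S)
    (h' : ∀ t, γ t ∈ S) : HomIn S (cjp δ.symm (cjp δ γ)) γ :=
  (HomIn.cjp_cjp (mem_symm h) h h').trans
    (((HomIn.symm_trans h).cjp_congr (HomIn.refl h')).trans (HomIn.cjp_refl_left h'))

lemma HomIn.cjp_trans {δ : Path x y} {γ γ' : Path y y} (h : ∀ t, δ t ∈ S)
    (h' : ∀ t, γ t ∈ S) (h'' : ∀ t, γ' t ∈ S) :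
    HomIn S ((cjp δ γ).trans (cjp δ γ')) (cjp δ (γ.trans γ')) := by
  rw [homIn_iff_cl (mem_trans (mem_cjp h h') (mem_cjp h h'')) (mem_cjp h (mem_trans h' h'')),
    cl_trans _ _ (mem_cjp h h') (mem_cjp h h''), cl_cjp _ _ h h', cl_cjp _ _ h h'',
    cl_cjp _ _ h (mem_trans h' h''), cl_trans _ _ h' h'']
  generalize cl S δ h = p
  generalize cl S γ h' = q
  generalize cl S γ' h'' = r
  calc _ = p.trans (q.trans ((p.symm.trans p).trans (r.trans p.symm))) := by
        simp only [Path.Homotopic.Quotient.trans_assoc]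
    _ = _ := by
        rw [Path.Homotopic.Quotient.symm_trans, Path.Homotopic.Quotient.refl_trans]
        simp only [Path.Homotopic.Quotient.trans_assoc]

/-! ### `FreeIn` -/

lemma HomIn.freeIn {γ γ' : Path x x} (h : HomIn S γ γ') : FreeIn S γ γ' :=
  ⟨Path.refl x, h.trans (HomIn.cjp_refl_left h.right_mem).symm⟩

lemma FreeIn.refl {γ : Path x x} (h : ∀ t, γ t ∈ S) : FreeIn S γ γ := (HomIn.refl h).freeIn

lemma FreeIn.left_mem {γ : Path x x} {γ' : Path y y} (h : FreeIn S γ γ') (t : unitInterval) :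
    γ t ∈ S := h.choose_spec.left_mem t

lemma FreeIn.right_mem {γ : Path x x} {γ' : Path y y} (h : FreeIn S γ γ') (t : unitInterval) :
    γ' t ∈ S := mem_of_cjp_right (h.choose_spec.right_mem) t

lemma FreeIn.symm {γ : Path x x} {γ' : Path y y} (h : FreeIn S γ γ') : FreeIn S γ' γ := by
  obtain ⟨δ, hδ⟩ := h
  have h1 : ∀ t, δ t ∈ S := mem_of_cjp_left hδ.right_mem
  have h2 : ∀ t, γ' t ∈ S := mem_of_cjp_right hδ.right_mem
  exact ⟨δ.symm, ((HomIn.cjp_symm_cjp h1 h2).symm).trans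
    ((HomIn.refl (mem_symm h1)).cjp_congr hδ.symm)⟩

lemma FreeIn.trans {γ : Path x x} {γ' : Path y y} {γ'' : Path z z} (h : FreeIn S γ γ')
    (h' : FreeIn S γ' γ'') : FreeIn S γ γ'' := by
  obtain ⟨δ, hδ⟩ := h
  obtain ⟨δ', hδ'⟩ := h'
  have h1 : ∀ t, δ t ∈ S := mem_of_cjp_left hδ.right_mem
  have h2 : ∀ t, δ' t ∈ S := mem_of_cjp_left hδ'.right_mem
  have h3 : ∀ t, γ'' t ∈ S := mem_of_cjp_right hδ'.right_mem
  exact ⟨δ.trans δ', hδ.trans (((HomIn.refl h1).cjp_congr hδ').trans (HomIn.cjp_cjp h1 h2 h3))⟩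

lemma FreeIn.mono (hS : S ⊆ S') {γ : Path x x} {γ' : Path y y} (h : FreeIn S γ γ') :
    FreeIn S' γ γ' := by
  obtain ⟨δ, hδ⟩ := h
  exact ⟨δ, hδ.mono hS⟩

lemma FreeIn.map {T : Set Z'} {f : Z → Z'} (hf : Continuous f) (hS : ∀ p ∈ S, f p ∈ T)
    {γ : Path x x} {γ' : Path y y} (h : FreeIn S γ γ') : FreeIn T (γ.map hf) (γ'.map hf) := by
  obtain ⟨δ, hδ⟩ := h
  refine ⟨δ.map hf, ?_⟩
  have := hδ.map hf hS
  rwa [Path.map_trans, Path.map_trans, ← Path.map_symm] at this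

lemma FreeIn.homIn_refl {γ : Path x x} (h : FreeIn S γ (Path.refl y)) :
    HomIn S γ (Path.refl x) := by
  obtain ⟨δ, hδ⟩ := h
  exact hδ.trans (HomIn.cjp_refl (mem_of_cjp_left hδ.right_mem))

lemma freeIn_cjp {δ : Path x y} {γ : Path y y} (h : ∀ t, δ t ∈ S) (h' : ∀ t, γ t ∈ S) :
    FreeIn S (cjp δ γ) γ := ⟨δ, HomIn.refl (mem_cjp h h')⟩

lemma FreeIn.refl_of {γ : Path x x} {γ' : Path y y} (h : FreeIn S γ γ')
    (h' : HomIn S γ (Path.refl x)) : HomIn S γ' (Path.refl y) := by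
  have h1 : FreeIn S γ' (Path.refl x) := h.symm.trans h'.freeIn
  exact h1.homIn_refl

/-! ### powers -/

lemma mem_npw {γ : Path x x} (h : ∀ t, γ t ∈ S) (hx : x ∈ S) (n : ℕ) (t : unitInterval) :
    (npw γ n) t ∈ S := by
  induction n generalizing t with
  | zero => exact hx
  | succ n ih => exact mem_trans h ih t

lemma mem_pw {γ : Path x x} (h : ∀ t, γ t ∈ S) (k : ℤ) (t : unitInterval) : (pw γ k) t ∈ S := by
  have hx : x ∈ S := by simpa using h 0
  cases k with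
  | ofNat n => exact mem_npw h hx n t
  | negSucc n => exact mem_npw (mem_symm h) hx (n + 1) t

/-- class of a loop inside `S` in the fundamental group of `S` -/
def cg (S : Set Z) (γ : Path x x) (h : ∀ t, γ t ∈ S) (hx : x ∈ S) :
    FundamentalGroup S ⟨x, hx⟩ := FundamentalGroup.fromPath (cl S γ h)

lemma homIn_iff_cg {γ γ' : Path x x} (h : ∀ t, γ t ∈ S) (h' : ∀ t, γ' t ∈ S) (hx : x ∈ S) :
    HomIn S γ γ' ↔ cg S γ h hx = cg S γ' h' hx := homIn_iff_cl h h'

lemma cg_trans {γ γ' : Path x x} (h : ∀ t, γ t ∈ S) (h' : ∀ t, γ' t ∈ S) (hx : x ∈ S) :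
    cg S (γ.trans γ') (mem_trans h h') hx = cg S γ' h' hx * cg S γ h hx :=
  cl_trans γ γ' h h'

lemma cg_refl (hx : x ∈ S) : cg S (Path.refl x) (mem_refl hx) hx = 1 := rfl

lemma cg_symm {γ : Path x x} (h : ∀ t, γ t ∈ S) (hx : x ∈ S) :
    cg S γ.symm (mem_symm h) hx = (cg S γ h hx)⁻¹ := cl_symm γ h

lemma cg_npw {γ : Path x x} (h : ∀ t, γ t ∈ S) (hx : x ∈ S) (n : ℕ) :
    cg S (npw γ n) (mem_npw h hx n) hx = (cg S γ h hx) ^ n := by
  induction n with
  | zero => rfl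
  | succ n ih =>
    have := cg_trans (S := S) (γ := γ) (γ' := npw γ n) h (mem_npw h hx n) hx
    rw [pow_succ, ← ih]
    exact this

lemma cg_pw {γ : Path x x} (h : ∀ t, γ t ∈ S) (hx : x ∈ S) (k : ℤ) :
    cg S (pw γ k) (mem_pw h k) hx = (cg S γ h hx) ^ k := by
  cases k with
  | ofNat n =>
    have := cg_npw (S := S) h hx n
    rw [Int.ofNat_eq_natCast, zpow_natCast]
    exact this
  | negSucc n =>
    have := cg_npw (S := S) (γ := γ.symm) (mem_symm h) hx (n + 1)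
    rw [cg_symm h hx] at this
    rw [zpow_negSucc]
    rw [← inv_pow]
    exact this

lemma HomIn.pw_congr {γ γ' : Path x x} (h : HomIn S γ γ') (k : ℤ) :
    HomIn S (pw γ k) (pw γ' k) := by
  have hx : x ∈ S := by simpa using h.left_mem 0
  rw [homIn_iff_cg (mem_pw h.left_mem k) (mem_pw h.right_mem k) hx, cg_pw h.left_mem hx,
    cg_pw h.right_mem hx, (homIn_iff_cg h.left_mem h.right_mem hx).1 h]

lemma HomIn.pw_add {γ : Path x x} (h : ∀ t, γ t ∈ S) (j k : ℤ) :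
    HomIn S (pw γ (j + k)) ((pw γ j).trans (pw γ k)) := by
  have hx : x ∈ S := by simpa using h 0
  rw [homIn_iff_cg (mem_pw h _) (mem_trans (mem_pw h j) (mem_pw h k)) hx, cg_pw h hx,
    cg_trans (mem_pw h j) (mem_pw h k) hx, cg_pw h hx, cg_pw h hx, add_comm, zpow_add]

lemma map_npw {f : Z → Z'} (hf : Continuous f) (γ : Path x x) (n : ℕ) :
    (npw γ n).map hf = npw (γ.map hf) n := by
  induction n with
  | zero => rfl
  | succ n ih => rw [npw, Path.map_trans, ih, npw]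

lemma map_pw {f : Z → Z'} (hf : Continuous f) (γ : Path x x) (k : ℤ) :
    (pw γ k).map hf = pw (γ.map hf) k := by
  cases k with
  | ofNat n => exact map_npw hf γ n
  | negSucc n => rw [pw, map_npw, ← Path.map_symm, pw]

end AdT
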