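import Pool.Agent.Helper88.AdT.Stmts2
import Pool.Agent.Helper88.AdT.Pi1

/-!
AT-6: the main planar theorem (family argument).
-/

open Matrix Real Topology Filter Set

noncomputable section

namespace AdT

namespace Mpt

/-! ### coordinates -/

lemma cq_a_coord (s : ℝ) (N : Qd) :
    (cq (a s) N).1 0 0 = N.1 0 0 ∧ (cq (a s) N).1 0 1 = exp s * N.1 0 1 ∧
      (cq (a s) N).1 1 0 = exp (-s) * N.1 1 0 := by
  have e1 : exp (s / 2) * exp (-(s / 2)) = 1 := by rw [← Real.exp_add]; simp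
  have e2 : exp (s / 2) * exp (s / 2) = exp s := by rw [← Real.exp_add]; ring_nf
  have e3 : exp (-(s / 2)) * exp (-(s / 2)) = exp (-s) := by rw [← Real.exp_add]; ring_nf
  have h : (cq (a s) N).1 = !![exp (s / 2), 0; 0, exp (-(s / 2))] * !![N.1 0 0, N.1 0 1;
      N.1 1 0, N.1 1 1] * !![exp (-(s / 2)), 0; 0, exp (s / 2)] := by
    rw [← Matrix.eta_fin_two N.1]
    show cj (a s) N.1 = _
    rw [cj, inv_entries]
    simp [a]
  rw [h, Matrix.mul_fin_two, Matrix.mul_fin_two]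
  refine ⟨?_, ?_, ?_⟩
  · simp
    linear_combination (N.1 0 0) * e1
  · simp
    linear_combination (N.1 0 1) * e2
  · simp
    linear_combination (N.1 1 0) * e3

lemma XN_b (s : ℝ) (N : Qd) : XN (cq (a s) N) = XN N := (cq_a_coord s N).1

lemma YN_b (s : ℝ) (N : Qd) :
    YN (cq (a s) N) = (exp s * N.1 0 1 + exp (-s) * N.1 1 0) / 2 := by
  rw [YN, (cq_a_coord s N).2.1, (cq_a_coord s N).2.2]

lemma TN_b (s : ℝ) (N : Qd) :
    TN (cq (a s) N) = (exp s * N.1 0 1 - exp (-s) * N.1 1 0) / 2 := by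
  rw [TN, (cq_a_coord s N).2.1, (cq_a_coord s N).2.2]

lemma uv (N : Qd) : N.1 0 1 * N.1 1 0 = 1 - XN N ^ 2 := by
  have h := N.2.2
  rw [Matrix.det_fin_two, N.2.1] at h
  rw [XN]
  nlinarith

lemma sgn_pos {N : Qd} (hX : |XN N| < 1) (hY : 0 < YN N) : 0 < N.1 0 1 ∧ 0 < N.1 1 0 := by
  have h1 : 0 < N.1 0 1 * N.1 1 0 := by
    rw [uv]
    have := (sq_lt_one_iff_abs_lt_one (XN N)).mpr hX
    linarith
  rw [YN] at hY
  rcases mul_pos_iff.mp h1 with h | h
  · exact h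
  · linarith [h.1, h.2]

lemma sgn_neg {N : Qd} (hX : |XN N| < 1) (hY : YN N < 0) : N.1 0 1 < 0 ∧ N.1 1 0 < 0 := by
  have h1 : 0 < N.1 0 1 * N.1 1 0 := by
    rw [uv]
    have := (sq_lt_one_iff_abs_lt_one (XN N)).mpr hX
    linarith
  rw [YN] at hY
  rcases mul_pos_iff.mp h1 with h | h
  · linarith [h.1, h.2]
  · exact h

lemma sgn_cases {q N : Qd} (hX : |XN q| < 1) (hN : N ∈ ell q) :
    ((0 < q.1 0 1 ∧ 0 < q.1 1 0) ∧ (0 < N.1 0 1 ∧ 0 < N.1 1 0)) ∨
    ((q.1 0 1 < 0 ∧ q.1 1 0 < 0) ∧ (N.1 0 1 < 0 ∧ N.1 1 0 < 0)) := by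
  obtain ⟨h1, h2⟩ := hN
  have hX' : |XN N| < 1 := by rw [h1]; exact hX
  rcases mul_pos_iff.mp h2 with h | h
  · exact Or.inl ⟨sgn_pos hX h.1, sgn_pos hX' h.2⟩
  · exact Or.inr ⟨sgn_neg hX h.1, sgn_neg hX' h.2⟩

lemma ell_b {q N : Qd} (s : ℝ) (hX : |XN q| < 1) (hN : N ∈ ell q) :
    cq (a s) N ∈ ell (cq (a s) q) := by
  refine ⟨by rw [XN_b, XN_b]; exact hN.1, ?_⟩
  rw [YN_b, YN_b]
  have e1 := Real.exp_pos s
  have e2 := Real.exp_pos (-s)
  rcases sgn_cases hX hN with ⟨⟨h1, h2⟩, h3, h4⟩ | ⟨⟨h1, h2⟩, h3, h4⟩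
  · positivity
  · have a1 : exp s * q.1 0 1 < 0 := mul_neg_of_pos_of_neg e1 h1
    have a2 : exp (-s) * q.1 1 0 < 0 := mul_neg_of_pos_of_neg e2 h2
    have a3 : exp s * N.1 0 1 < 0 := mul_neg_of_pos_of_neg e1 h3
    have a4 : exp (-s) * N.1 1 0 < 0 := mul_neg_of_pos_of_neg e2 h4
    exact mul_pos_of_neg_of_neg (by linarith) (by linarith)

lemma le_of_TN {q N : Qd} (hX : |XN q| < 1) (hN : N ∈ ell q) (h : TN q ≤ TN N) :
    q.1 0 1 ≤ N.1 0 1 ∧ N.1 1 0 ≤ q.1 1 0 := by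
  have hp : q.1 0 1 * q.1 1 0 = N.1 0 1 * N.1 1 0 := by rw [uv, uv, hN.1]
  rw [TN, TN] at h
  have key : q.1 0 1 ≤ N.1 0 1 := by
    by_contra hlt
    push Not at hlt
    rcases sgn_cases hX hN with ⟨⟨h1, h2⟩, h3, h4⟩ | ⟨⟨h1, h2⟩, h3, h4⟩
    · have : q.1 1 0 < N.1 1 0 := by
        by_contra h5
        push Not at h5
        nlinarith
      linarith
    · have : q.1 1 0 < N.1 1 0 := by
        by_contra h5
        push Not at h5
        nlinarith
      linarith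
  refine ⟨key, ?_⟩
  by_contra hlt
  push Not at hlt
  rcases sgn_cases hX hN with ⟨⟨h1, h2⟩, h3, h4⟩ | ⟨⟨h1, h2⟩, h3, h4⟩
  · nlinarith
  · nlinarith

lemma TN_b_le {q N : Qd} (s : ℝ) (h : q.1 0 1 ≤ N.1 0 1 ∧ N.1 1 0 ≤ q.1 1 0) :
    TN (cq (a s) q) ≤ TN (cq (a s) N) := by
  rw [TN_b, TN_b]
  have e1 := mul_le_mul_of_nonneg_left h.1 (Real.exp_pos s).le
  have e2 := mul_le_mul_of_nonneg_left h.2 (Real.exp_pos (-s)).le
  linarith

lemma ell_symm {q N : Qd} (h : N ∈ ell q) : q ∈ ell N := ⟨h.1.symm, by rw [mul_comm]; exact h.2⟩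

lemma ellp_b {q N : Qd} (s : ℝ) (hX : |XN q| < 1) (hN : N ∈ ellp q) :
    cq (a s) N ∈ ellp (cq (a s) q) :=
  ⟨ell_b s hX hN.1, TN_b_le s (le_of_TN hX hN.1 hN.2)⟩

lemma ellm_b {q N : Qd} (s : ℝ) (hX : |XN q| < 1) (hN : N ∈ ellm q) :
    cq (a s) N ∈ ellm (cq (a s) q) := by
  have hX' : |XN N| < 1 := by rw [hN.1.1]; exact hX
  exact ⟨ell_b s hX hN.1, TN_b_le s (le_of_TN hX' (ell_symm hN.1) hN.2)⟩

lemma large (u v T0 R : ℝ) (hu : 0 < u) (hv : 0 < v) (hT : 0 < T0) :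
    ∃ m : ℕ, R ≤ (exp (m * T0) * u - exp (-(m * T0)) * v) / 2 := by
  obtain ⟨m, hm⟩ := exists_nat_ge ((2 * R + v) / (u * T0))
  refine ⟨m, ?_⟩
  have h0 : (0 : ℝ) ≤ m * T0 := by positivity
  have h1 : m * T0 + 1 ≤ exp (m * T0) := Real.add_one_le_exp _
  have h2 : exp (-(m * T0)) ≤ 1 := by rw [Real.exp_le_one_iff]; linarith
  have h3 : 2 * R + v ≤ m * (u * T0) := by
    rw [div_le_iff₀ (by positivity)] at hm
    exact hm
  have h4 : exp (-(m * T0)) * v ≤ 1 * v := mul_le_mul_of_nonneg_right h2 hv.le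
  have h5 : (m * T0 + 1) * u ≤ exp (m * T0) * u := mul_le_mul_of_nonneg_right h1 hu.le
  have h6 : (m * T0 + 1) * u = m * (u * T0) + u := by ring
  linarith

/-- the values of `TN` along the orbit of a crossing puncture are unbounded above -/
lemma exists_TN_ge {q : Qd} (hX : |XN q| < 1) (hY : YN q ≠ 0) {T0 : ℝ} (hT : 0 < T0) (R : ℝ) :
    ∃ n : ℤ, R ≤ TN (cq (a (n * T0)) q) := by
  rcases lt_or_gt_of_ne hY with h | h
  · obtain ⟨h1, h2⟩ := sgn_neg hX h
    obtain ⟨m, hm⟩ := large (-q.1 1 0) (-q.1 0 1) T0 R (by linarith) (by linarith) hT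
    refine ⟨-m, ?_⟩
    rw [TN_b]
    push_cast
    rw [show -(-(m : ℝ) * T0) = m * T0 by ring, show -(m : ℝ) * T0 = -(m * T0) by ring]
    linarith
  · obtain ⟨h1, h2⟩ := sgn_pos hX h
    obtain ⟨m, hm⟩ := large (q.1 0 1) (q.1 1 0) T0 R (by linarith) (by linarith) hT
    refine ⟨m, ?_⟩
    rw [TN_b]
    push_cast
    linarith

/-- and unbounded below -/
lemma exists_TN_le {q : Qd} (hX : |XN q| < 1) (hY : YN q ≠ 0) {T0 : ℝ} (hT : 0 < T0) (R : ℝ) :
    ∃ n : ℤ, TN (cq (a (n * T0)) q) ≤ -R := by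
  rcases lt_or_gt_of_ne hY with h | h
  · obtain ⟨h1, h2⟩ := sgn_neg hX h
    obtain ⟨m, hm⟩ := large (-q.1 0 1) (-q.1 1 0) T0 R (by linarith) (by linarith) hT
    refine ⟨m, ?_⟩
    rw [TN_b]
    push_cast
    linarith
  · obtain ⟨h1, h2⟩ := sgn_pos hX h
    obtain ⟨m, hm⟩ := large (q.1 1 0) (q.1 0 1) T0 R (by linarith) (by linarith) hT
    refine ⟨-m, ?_⟩
    rw [TN_b]
    push_cast
    rw [show -(-(m : ℝ) * T0) = m * T0 by ring, show -(m : ℝ) * T0 = -(m * T0) by ring]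
    linarith

lemma cont_TN : Continuous TN := by
  unfold TN
  have h1 : Continuous fun N : Qd => N.1 0 1 := continuous_subtype_val.matrix_elem 0 1
  have h2 : Continuous fun N : Qd => N.1 1 0 := continuous_subtype_val.matrix_elem 1 0
  exact (h1.sub h2).div_const 2

lemma bound_path {x : Qd} (c : Path x x) : ∃ R : ℝ, ∀ t, |TN (c t)| < R := by
  have h1 : IsCompact (range fun t => |TN (c t)|) :=
    isCompact_range ((cont_TN.comp c.continuous).abs)
  obtain ⟨R, hR⟩ := h1.bddAbove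
  refine ⟨R + 1, fun t => ?_⟩
  have := hR ⟨t, rfl⟩
  simp only at this
  linarith

lemma cq_inv_apply (g : SL) (N : Qd) : cq g⁻¹ (cq g N) = N := by
  rw [← cq_mul, inv_mul_cancel, cq_one]

lemma cq_apply_inv (g : SL) (N : Qd) : cq g (cq g⁻¹ N) = N := by
  rw [← cq_mul, mul_inv_cancel, cq_one]

lemma a_add (s t : ℝ) : a (s + t) = a s * a t := by
  apply Subtype.ext
  rw [Matrix.SpecialLinearGroup.coe_mul]
  have h1 : exp ((s + t) / 2) = exp (s / 2) * exp (t / 2) := by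
    rw [← Real.exp_add]; ring_nf
  have h2 : exp (-((s + t) / 2)) = exp (-(s / 2)) * exp (-(t / 2)) := by
    rw [← Real.exp_add]; ring_nf
  show !![exp ((s + t) / 2), 0; 0, exp (-((s + t) / 2))] = _
  rw [h1, h2]
  show _ = !![exp (s / 2), 0; 0, exp (-(s / 2))] * !![exp (t / 2), 0; 0, exp (-(t / 2))]
  rw [Matrix.mul_fin_two]
  simp

lemma a_zero : a 0 = 1 := by
  apply Subtype.ext
  show !![exp (0 / 2), 0; 0, exp (-(0 / 2))] = _
  ext i j
  fin_cases i <;> fin_cases j <;> simp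

lemma a_neg (s : ℝ) : a (-s) = (a s)⁻¹ := by
  rw [eq_inv_iff_mul_eq_one, ← a_add, neg_add_cancel, a_zero]

/-- a loop moved far by the boost avoids the upper half orbit -/
lemma exists_avoid_p {q x : Qd} (c : Path x x) (hX : |XN q| < 1) (hY : YN q ≠ 0) {T0 : ℝ}
    (hT : 0 < T0) :
    ∃ n : ℤ, Disjoint (range (c.map (continuous_cq (a (n * T0))))) (ellp q) := by
  obtain ⟨R, hR⟩ := bound_path c
  obtain ⟨n, hn⟩ := exists_TN_ge hX hY hT R
  refine ⟨-n, ?_⟩
  rw [Set.disjoint_left]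
  rintro _ ⟨t, rfl⟩ ht
  have h1 := ellp_b (n * T0) hX ht
  rw [Path.map_coe, Function.comp_apply] at h1
  rw [← cq_mul, ← a_add] at h1
  push_cast at h1
  rw [show (n : ℝ) * T0 + -n * T0 = 0 by ring, a_zero, cq_one] at h1
  have h2 := h1.2
  have h3 := hR t
  rw [abs_lt] at h3
  linarith

lemma exists_avoid_m {q x : Qd} (c : Path x x) (hX : |XN q| < 1) (hY : YN q ≠ 0) {T0 : ℝ}
    (hT : 0 < T0) :
    ∃ n : ℤ, Disjoint (range (c.map (continuous_cq (a (n * T0))))) (ellm q) := by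
  obtain ⟨R, hR⟩ := bound_path c
  obtain ⟨n, hn⟩ := exists_TN_le hX hY hT R
  refine ⟨-n, ?_⟩
  rw [Set.disjoint_left]
  rintro _ ⟨t, rfl⟩ ht
  have h1 := ellm_b (n * T0) hX ht
  rw [Path.map_coe, Function.comp_apply] at h1
  rw [← cq_mul, ← a_add] at h1
  push_cast at h1
  rw [show (n : ℝ) * T0 + -n * T0 = 0 by ring, a_zero, cq_one] at h1
  have h2 := h1.2
  have h3 := hR t
  rw [abs_lt] at h3
  linarith

/-! ### free homotopies -/

lemma freeIn_of_eq {S : Set Qd} {x y : Qd} {γ : Path x x} {γ' : Path y y}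
    (h : ∀ t, γ t = γ' t) (hS : ∀ t, γ t ∈ S) : FreeIn S γ γ' := by
  have hxy : x = y := by simpa using h 0
  subst hxy
  have : γ = γ' := Path.ext (funext h)
  subst this
  exact FreeIn.refl hS

lemma P_inv {P : Set Qd} {g : SL} (hP : ∀ N, N ∈ P ↔ cq g N ∈ P) :
    (∀ N ∈ Pᶜ, cq g N ∈ Pᶜ) ∧ (∀ N ∈ Pᶜ, cq g⁻¹ N ∈ Pᶜ) := by
  refine ⟨fun N hN h => hN ((hP N).mpr h), fun N hN h => hN ?_⟩
  have := (hP _).mp h
  rwa [cq_apply_inv] at this

lemma free_inv {P : Set Qd} {g : SL} (hP : ∀ N, N ∈ P ↔ cq g N ∈ P) {x : Qd} {c : Path x x}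
    (hc : FreeIn Pᶜ c (c.map (continuous_cq g))) :
    FreeIn Pᶜ c (c.map (continuous_cq g⁻¹)) := by
  have h1 := hc.map (continuous_cq g⁻¹) (P_inv hP).2
  refine FreeIn.symm (h1.trans ?_)
  refine freeIn_of_eq (fun t => ?_) h1.right_mem
  simp only [Path.map_coe, Function.comp_apply]
  exact cq_inv_apply g _

lemma free_pow {P : Set Qd} {T0 : ℝ} (hP : ∀ N, N ∈ P ↔ cq (a T0) N ∈ P) {x : Qd}
    {c : Path x x} (hc : FreeIn Pᶜ c (c.map (continuous_cq (a T0)))) (n : ℤ) :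
    FreeIn Pᶜ c (c.map (continuous_cq (a (n * T0)))) := by
  induction n using Int.induction_on with
  | zero =>
    refine freeIn_of_eq (fun t => ?_) hc.left_mem
    simp only [Path.map_coe, Function.comp_apply]
    rw [Int.cast_zero, zero_mul, a_zero, cq_one]
  | succ n ih =>
    have h1 := ih.map (continuous_cq (a T0)) (P_inv hP).1
    have h2 := hc.trans h1
    refine h2.trans (freeIn_of_eq (fun t => ?_) h2.right_mem)
    simp only [Path.map_coe, Function.comp_apply]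
    rw [← cq_mul, ← a_add]
    congr 2
    push_cast
    ring
  | pred n ih =>
    have h0 := free_inv hP hc
    have h1 := ih.map (continuous_cq (a T0)⁻¹) (P_inv hP).2
    have h2 := h0.trans h1
    refine h2.trans (freeIn_of_eq (fun t => ?_) h2.right_mem)
    simp only [Path.map_coe, Function.comp_apply]
    rw [← cq_mul, ← a_neg, ← a_add]
    congr 2
    push_cast
    ring

/-! ### the family of peripheral sets -/

/-- `c` is null homotopic or peripheral relative to the punctures `F` -/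
def Per {x : Qd} (c : Path x x) (F : Set Qd) : Prop :=
  HomIn Fᶜ c (Path.refl x) ∨ ∃ (g : SL) (ρ : ℝ) (k : ℤ), dq g ∈ F ∧ Small F g ρ ∧
    FreeIn Fᶜ c (mu g ρ k)

lemma y_zero : y 0 = 1 := by
  apply Subtype.ext
  show !![1 + (0 : ℂ).re * (0 : ℂ).im, (0 : ℂ).re; (0 : ℂ).im, 1] = _
  ext i j
  fin_cases i <;> fin_cases j <;> simp

lemma Small.mono {F G : Set Qd} {g : SL} {ρ : ℝ} (h : F ⊆ G) (hS : Small G g ρ) :
    Small F g ρ := ⟨hS.1, hS.2.1, fun w hw hw' hF => hS.2.2 w hw hw' (h hF)⟩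

lemma Per.mono (hMu : MuStmt) {x : Qd} {c : Path x x} {F G : Set Qd} (h : F ⊆ G)
    (hG : Per c G) : Per c F := by
  have hc : Gᶜ ⊆ Fᶜ := compl_subset_compl.mpr h
  rcases hG with h1 | ⟨g, ρ, k, h1, h2, h3⟩
  · exact Or.inl (h1.mono hc)
  · have h3' := h3.mono hc
    by_cases hg : dq g ∈ F
    · exact Or.inr ⟨g, ρ, k, hg, Small.mono h h2, h3'⟩
    · left
      have h4 : ∀ w : ℂ, ‖w‖ ≤ ρ → dq (g * y w) ∉ F := by
        intro w hw
        by_cases hw0 : w = 0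
        · rw [hw0, y_zero, mul_one]; exact hg
        · exact fun hF => h2.2.2 w hw0 hw (h hF)
      have h5 := hMu.2.1 F g ρ k h2.1 h4
      exact (h3'.trans h5.freeIn).homIn_refl

lemma Per.of_inter (hMu : MuStmt) (hR : RetrStmt) {x : Qd} {c : Path x x} {F : Set Qd} {R : ℝ}
    (hR0 : 0 < R) (hF : ∀ N ∈ F, |TN N| ≠ R) (hc : ∀ t, |TN (c t)| < R)
    (h : Per c (F ∩ {N | |TN N| < R})) : Per c F := by
  obtain ⟨hR1, hR2⟩ := hR F R hR0 hF
  rcases h with h1 | ⟨g, ρ, k, ⟨h0, h1⟩, h2, h3⟩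
  · left
    refine hR1 _ _ _ _ hc (fun t => ?_) h1
    have := hc 0
    simpa using this
  · right
    have hcont : Continuous fun w : ℂ => |TN (dq (g * y w))| :=
      (cont_TN.comp (continuous_dq.comp (continuous_const.mul continuous_y))).abs
    have hopen : IsOpen {w : ℂ | |TN (dq (g * y w))| < R} := isOpen_lt hcont continuous_const
    have hmem : (0 : ℂ) ∈ {w : ℂ | |TN (dq (g * y w))| < R} := by
      show |TN (dq (g * y 0))| < R
      rw [y_zero, mul_one]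
      exact h1
    obtain ⟨r, hr, hr'⟩ := Metric.isOpen_iff.mp hopen 0 hmem
    set ρ' := min ρ (r / 2) with hρ'
    have hρ'0 : 0 < ρ' := lt_min h2.1 (by linarith)
    have hρ'1 : ρ' ≤ ρ := min_le_left _ _
    have hρ'2 : ρ' < r := lt_of_le_of_lt (min_le_right _ _) (by linarith)
    have hK : ∀ w : ℂ, ‖w‖ ≤ ρ' → |TN (dq (g * y w))| < R := by
      intro w hw
      apply hr'
      rw [mem_ball_zero_iff]
      linarith
    obtain ⟨h4, h5⟩ := hMu.1 _ g ρ ρ' k h2 hρ'0 hρ'1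
    refine ⟨g, ρ', k, h0, ⟨h4.1, h4.2.1, fun w hw hw' hwF => ?_⟩, ?_⟩
    · exact h4.2.2 w hw hw' ⟨hwF, hK w hw'⟩
    · refine hR2 _ _ _ _ hc (fun t => ?_) (h3.trans h5)
      refine hK _ ?_
      rw [norm_mul, Complex.norm_real, Real.norm_of_nonneg hρ'0.le]
      have : ‖Complex.exp (2 * π * k * (t : ℝ) * Complex.I)‖ = 1 := by
        rw [show (2 * π * k * (t : ℝ) * Complex.I : ℂ) = ((2 * π * k * t : ℝ) : ℂ) * Complex.I by
          push_cast; ring]
        exact Complex.norm_exp_ofReal_mul_I _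
      rw [this, mul_one]

lemma Per.boost (hMu : MuStmt) {P : Set Qd} {b : SL} (hP : ∀ N, N ∈ P ↔ cq b N ∈ P) {x : Qd}
    {c : Path x x} (hc : FreeIn Pᶜ c (c.map (continuous_cq b))) {F : Set Qd} (hF : F ⊆ P)
    (h : Per c (cq b '' F)) : Per c F := by
  have h0 : FreeIn Fᶜ c (c.map (continuous_cq b⁻¹)) :=
    (free_inv hP hc).mono (compl_subset_compl.mpr hF)
  have hmap : ∀ N ∈ (cq b '' F)ᶜ, cq b⁻¹ N ∈ Fᶜ := by
    intro N hN hN'
    exact hN ⟨_, hN', cq_apply_inv b N⟩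
  rcases h with h1 | ⟨g, ρ, k, h1, h2, h3⟩
  · left
    have h4 := h1.freeIn.map (continuous_cq b⁻¹) hmap
    have h5 := h0.trans h4
    have h6 : FreeIn Fᶜ ((Path.refl x).map (continuous_cq b⁻¹)) (Path.refl (cq b⁻¹ x)) :=
      freeIn_of_eq (fun t => rfl) h5.right_mem
    exact (h5.trans h6).homIn_refl
  · right
    have h4 := h3.map (continuous_cq b⁻¹) hmap
    have h5 := (hMu.2.2.2.2.2 Fᶜ g b⁻¹ ρ k _ _).mpr h4
    refine ⟨b⁻¹ * g, ρ, k, ?_, ⟨h2.1, h2.2.1, fun w hw hw' hwF => ?_⟩, h0.trans h5⟩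
    · obtain ⟨N, hN, hN'⟩ := h1
      rw [dq_mul, ← hN', cq_inv_apply]
      exact hN
    · refine h2.2.2 w hw hw' ⟨_, hwF, ?_⟩
      rw [mul_assoc, dq_mul, cq_apply_inv]

/-! ### fixed points of the boost -/

lemma Jm_Dq : (cq Jm Dq).1 = !![-1, 0; 0, 1] := by
  show cj Jm Dm = _
  rw [cj, inv_entries]
  simp [Jm, Dm, nm]

lemma mem_pair {N : Qd} (h1 : N.1 0 1 = 0) (h2 : N.1 1 0 = 0) : N = Dq ∨ N = cq Jm Dq := by
  have h3 := uv N
  rw [h1, zero_mul, XN] at h3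
  have h4 : (N.1 0 0 - 1) * (N.1 0 0 + 1) = 0 := by linarith
  have h5 := N.2.1
  rcases mul_eq_zero.mp h4 with h | h
  · left
    apply Subtype.ext
    have h6 : N.1 0 0 = 1 := by linarith
    ext i j
    fin_cases i <;> fin_cases j <;> simp [Dq, Dm, nm, h1, h2, h5, h6]
  · right
    apply Subtype.ext
    rw [Jm_Dq]
    have h6 : N.1 0 0 = -1 := by linarith
    ext i j
    fin_cases i <;> fin_cases j <;> simp [h1, h2, h5, h6]

lemma fin_K {P : Set Qd} (hP : LF P) (R : ℝ) : (P ∩ {N | |TN N| < R}).Finite := by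
  refine (hP (1 + 2 * |R|)).subset ?_
  rintro N ⟨hN, hT⟩
  refine ⟨hN, ?_⟩
  have hT' : |TN N| < R := hT
  have h1 := XYT N
  have h2 : |TN N| < |R| := lt_of_lt_of_le hT' (le_abs_self R)
  have h3 : TN N ^ 2 ≤ |R| ^ 2 := by
    rw [← sq_abs (TN N)]
    exact pow_le_pow_left₀ (abs_nonneg _) h2.le 2
  have h0 := abs_nonneg R
  have h4 : |XN N| ≤ 1 + |R| := by
    apply abs_le_of_sq_le_sq _ (by linarith)
    nlinarith [sq_nonneg (YN N)]
  have h5 : |YN N| ≤ 1 + |R| := by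
    apply abs_le_of_sq_le_sq _ (by linarith)
    nlinarith [sq_nonneg (XN N)]
  have e01 : N.1 0 1 = YN N + TN N := by rw [YN, TN]; ring
  have e10 : N.1 1 0 = YN N - TN N := by rw [YN, TN]; ring
  have e00 : N.1 0 0 = XN N := rfl
  have e11 : N.1 1 1 = -XN N := N.2.1
  intro i j
  fin_cases i <;> fin_cases j
  · show |N.1 0 0| ≤ _
    rw [e00]; linarith
  · show |N.1 0 1| ≤ _
    rw [e01]
    have := abs_add_le (YN N) (TN N)
    linarith
  · show |N.1 1 0| ≤ _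
    rw [e10]
    have := abs_sub (YN N) (TN N)
    linarith
  · show |N.1 1 1| ≤ _
    rw [e11, abs_neg]; linarith

lemma exists_R {P : Set Qd} (hP : LF P) {x : Qd} (c : Path x x) :
    ∃ R : ℝ, 0 < R ∧ (∀ N ∈ P, |TN N| ≠ R) ∧ ∀ t, |TN (c t)| < R := by
  obtain ⟨R0, hR0⟩ := bound_path c
  have h0 : 0 ≤ R0 := le_trans (abs_nonneg _) (hR0 0).le
  have hfin : ((fun N : Qd => |TN N|) '' (P ∩ {N | |TN N| < R0 + 1})).Finite :=
    (fin_K hP (R0 + 1)).image _
  have hinf : (Ioo R0 (R0 + 1)).Infinite := Set.Ioo_infinite (by linarith)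
  obtain ⟨R, hR, hR'⟩ := (hinf.sdiff hfin).nonempty
  refine ⟨R, by linarith [hR.1], fun N hN h => hR' ⟨N, ⟨hN, ?_⟩, h⟩, fun t => by
    linarith [hR0 t, hR.1]⟩
  show |TN N| < R0 + 1
  rw [h]; exact hR.2

end Mpt

open Mpt in
theorem mpt (hMu : MuStmt) (hR : RetrStmt) (_h4c : P4cStmt) (h5a : P5aStmt) (h5b : P5bStmt)
    (h5c : P5cStmt) : MPTStmt := by
  intro P T0 hLF hT0 hDq hPb hqp hqm x c hc
  obtain ⟨R, hR0, hRP, hRc⟩ := exists_R hLF c
  set K : Set Qd := {N | |TN N| < R} with hK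
  have hPK : (P ∩ K).Finite := fin_K hLF R
  -- it is enough to show that `P` is peripheral
  suffices hmain : Per c P by
    rcases hmain with h | ⟨g, ρ, k, h1, h2, h3⟩
    · exact Or.inl h
    · by_cases hk : k = 0
      · left
        subst hk
        have h4 := hMu.2.2.2.1 P g ρ h2
        exact (h3.trans h4.freeIn).homIn_refl
      · exact Or.inr ⟨g, ρ, k, h1, hk, h2, h3⟩
  refine Per.of_inter hMu hR hR0 hRP hRc ?_
  by_contra hbad
  -- a non peripheral finite subset of minimal cardinality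
  have hex : ∃ n : ℕ, ∃ F : Set Qd, F ⊆ P ∧ F.Finite ∧ F.ncard = n ∧ ¬ Per c F :=
    ⟨_, P ∩ K, inter_subset_left, hPK, rfl, hbad⟩
  classical
  obtain ⟨F, hFP, hFfin, hFn, hFper⟩ := Nat.find_spec hex
  have hmin : ∀ G : Set Qd, G ⊆ P → G.Finite → ¬ Per c G → F.ncard ≤ G.ncard := by
    intro G h1 h2 h3
    rw [hFn]
    exact Nat.find_min' hex ⟨G, h1, h2, rfl, h3⟩
  have hbP : ∀ (m : ℕ), ∀ N ∈ P, cq (a (m * T0)) N ∈ P := by
    intro m
    induction m with
    | zero => intro N hN; rw [Nat.cast_zero, zero_mul, a_zero, cq_one]; exact hN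
    | succ m ih =>
      intro N hN
      have := (hPb _).mp (ih N hN)
      rw [← cq_mul, ← a_add] at this
      rw [show ((m + 1 : ℕ) : ℝ) * T0 = T0 + m * T0 by push_cast; ring]
      exact this
  have hFm : ∀ m : ℕ, ¬ Per c (cq (a (m * T0)) '' F) := by
    intro m
    induction m with
    | zero =>
      have : cq (a ((0 : ℕ) * T0)) '' F = F := by
        rw [Nat.cast_zero, zero_mul, a_zero]
        have : cq 1 = id := funext cq_one
        rw [this, image_id]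
      rw [this]; exact hFper
    | succ m ih =>
      intro h
      apply ih
      refine Per.boost hMu hPb hc ?_ (b := a T0) ?_
      · rintro _ ⟨N, hN, rfl⟩
        exact hbP m N (hFP hN)
      · have : cq (a T0) '' (cq (a (m * T0)) '' F) = cq (a ((m + 1 : ℕ) * T0)) '' F := by
          rw [image_image]
          apply image_congr
          intro N _
          rw [← cq_mul, ← a_add]
          congr 2
          push_cast
          ring
        rw [this]; exact h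
  have hinj : ∀ s : ℝ, Function.Injective (cq (a s)) := fun s => (cqh (a s)).injective
  have hFK : ∀ m : ℕ, cq (a (m * T0)) '' F ⊆ K := by
    intro m
    have hsub : cq (a (m * T0)) '' F ⊆ P := by
      rintro _ ⟨N, hN, rfl⟩
      exact hbP m N (hFP hN)
    have hfin : (cq (a (m * T0)) '' F).Finite := hFfin.image _
    have h1 : ¬ Per c (cq (a (m * T0)) '' F ∩ K) := by
      intro h
      exact hFm m (Per.of_inter hMu hR hR0 (fun N hN => hRP N (hsub hN)) hRc h)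
    have h2 := hmin _ (inter_subset_left.trans hsub) (hfin.subset inter_subset_left) h1
    have h3 : (cq (a (m * T0)) '' F).ncard = F.ncard :=
      Set.ncard_image_of_injective F (hinj _)
    have h4 : cq (a (m * T0)) '' F ∩ K = cq (a (m * T0)) '' F :=
      Set.eq_of_subset_of_ncard_le inter_subset_left (by rw [h3]; exact h2) hfin
    rw [← h4]
    exact inter_subset_right
  have hFD : ∀ N ∈ F, N = Dq ∨ N = cq Jm Dq := by
    intro N hN
    have hmaps : ∀ m : ℕ, cq (a (m * T0)) N ∈ P ∩ K := fun m =>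
      ⟨hbP m N (hFP hN), hFK m ⟨N, hN, rfl⟩⟩
    have hni : ¬ Function.Injective (fun m : ℕ => cq (a (m * T0)) N) := by
      intro hi
      exact Set.infinite_range_of_injective hi (hPK.subset (by rintro _ ⟨m, rfl⟩; exact hmaps m))
    rw [Function.Injective] at hni
    push Not at hni
    obtain ⟨m, m', he, hne⟩ := hni
    have hne' : (m : ℝ) * T0 ≠ m' * T0 := by
      intro h
      exact hne (by exact_mod_cast mul_right_cancel₀ hT0.ne' h)
    have he' : (cq (a (m * T0)) N) = cq (a (m' * T0)) N := he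
    have e01 : exp (m * T0) * N.1 0 1 = exp (m' * T0) * N.1 0 1 := by
      rw [← (cq_a_coord _ N).2.1, ← (cq_a_coord _ N).2.1, he']
    have e10 : exp (-(m * T0)) * N.1 1 0 = exp (-(m' * T0)) * N.1 1 0 := by
      rw [← (cq_a_coord _ N).2.2, ← (cq_a_coord _ N).2.2, he']
    have z01 : N.1 0 1 = 0 := by
      by_contra h
      exact hne' (Real.exp_injective (mul_right_cancel₀ h e01))
    have z10 : N.1 1 0 = 0 := by
      by_contra h
      exact hne' (neg_injective (Real.exp_injective (mul_right_cancel₀ h e10)))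
    exact mem_pair z01 z10
  obtain ⟨q, hqP, hqX, hqY⟩ := hqp
  obtain ⟨q', hq'P, hq'X, hq'Y⟩ := hqm
  obtain ⟨n1, hn1⟩ := exists_avoid_p c hqX hqY.ne' hT0
  obtain ⟨n2, hn2⟩ := exists_avoid_m c hqX hqY.ne' hT0
  have f1 := free_pow hPb hc n1
  have f2 := free_pow hPb hc n2
  by_cases hD : Dq ∈ P
  · have hD' : cq Jm Dq ∈ P := hDq.mp hD
    obtain ⟨n3, hn3⟩ := exists_avoid_p c hq'X hq'Y.ne hT0
    obtain ⟨n4, hn4⟩ := exists_avoid_m c hq'X hq'Y.ne hT0
    have f3 := free_pow hPb hc n3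
    have f4 := free_pow hPb hc n4
    have hs : ∀ r ∈ P, Pᶜ ⊆ ({r, Dq, cq Jm Dq} : Set Qd)ᶜ := by
      intro r hr
      apply compl_subset_compl.mpr
      rintro N (rfl | rfl | rfl)
      · exact hr
      · exact hD
      · exact hD'
    obtain ⟨x1, c1, g1, d1⟩ := h5b q x _ _ c _ _ hqX (f1.mono (hs q hqP)) (f2.mono (hs q hqP))
      hn1 hn2
    obtain ⟨x2, c2, g2, d2⟩ := h5b q' x _ _ c _ _ hq'X (f3.mono (hs q' hq'P))
      (f4.mono (hs q' hq'P)) hn3 hn4
    obtain ⟨g, ρ, k, hg, hsm, hfr⟩ := h5c q q' x x1 x2 c c1 c2 hqX hq'X hqY hq'Y g1 g2 d1 d2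
    have hper : Per c {Dq, cq Jm Dq} := by
      right
      refine ⟨g, ρ, k, ?_, hsm, hfr⟩
      rcases hg with rfl | rfl
      · left
        exact cq_one Dq
      · right
        rfl
    refine hFper (Per.mono hMu ?_ hper)
    intro N hN
    rcases hFD N hN with h | h
    · exact Or.inl h
    · exact Or.inr h
  · have hD' : cq Jm Dq ∉ P := fun h => hD (hDq.mpr h)
    have hFe : F = ∅ := by
      rw [Set.eq_empty_iff_forall_notMem]
      intro N hN
      rcases hFD N hN with h | h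
      · exact hD (h ▸ hFP hN)
      · exact hD' (h ▸ hFP hN)
    apply hFper
    left
    rw [hFe, compl_empty]
    have hs : Pᶜ ⊆ ({q} : Set Qd)ᶜ := by
      apply compl_subset_compl.mpr
      rintro N rfl
      exact hqP
    exact h5a q x _ _ c _ _ hqX (f1.mono hs) (f2.mono hs) hn1 hn2

end AdT
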