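import Pool.Agent.Helper88.AdT.Stmts2

/-!
AT-4m: small loops around punctures and the retraction onto a compact part of the annulus.
-/

open Matrix Real Topology Filter Set

noncomputable section

namespace AdT

namespace MuRetr

variable {Z : Type} [TopologicalSpace Z] {S S' : Set Z} {x y z w : Z}

/-- a path inside `S` as a path of the subspace -/
def lft (γ : Path x y) (h : ∀ t, γ t ∈ S) :
    Path (⟨x, by simpa using h 0⟩ : S) ⟨y, by simpa using h 1⟩ where
  toFun t := ⟨γ t, h t⟩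
  continuous_toFun := Continuous.subtype_mk γ.continuous _
  source' := by simp
  target' := by simp

lemma homIn_mem {γ γ' : Path x y} (h : HomIn S γ γ') : (∀ t, γ t ∈ S) ∧ ∀ t, γ' t ∈ S := by
  obtain ⟨H, hH⟩ := h
  constructor
  · intro t
    have := hH (0, t)
    rwa [H.apply_zero] at this
  · intro t
    have := hH (1, t)
    rwa [H.apply_one] at this

lemma homIn_iff (γ γ' : Path x y) (h : ∀ t, γ t ∈ S) (h' : ∀ t, γ' t ∈ S) :
    HomIn S γ γ' ↔ (lft γ h).Homotopic (lft γ' h') := by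
  constructor
  · rintro ⟨H, hH⟩
    refine ⟨{ toFun := fun p => ⟨H p, hH p⟩
              continuous_toFun := Continuous.subtype_mk H.continuous _
              map_zero_left := fun t => Subtype.ext (H.apply_zero t)
              map_one_left := fun t => Subtype.ext (H.apply_one t)
              prop' := ?_ }⟩
    intro t p hp
    exact Subtype.ext (H.eq_fst t hp)
  · rintro ⟨H⟩
    refine ⟨{ toFun := fun p => (H p : Z)
              continuous_toFun := continuous_subtype_val.comp H.continuous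
              map_zero_left := fun t => congrArg Subtype.val (H.apply_zero t)
              map_one_left := fun t => congrArg Subtype.val (H.apply_one t)
              prop' := ?_ }, fun p => (H p).2⟩
    intro t p hp
    exact congrArg Subtype.val (H.eq_fst t hp)

lemma homIn_refl (γ : Path x y) (h : ∀ t, γ t ∈ S) : HomIn S γ γ :=
  (homIn_iff γ γ h h).2 (Path.Homotopic.refl _)

lemma homIn_symm {γ γ' : Path x y} (h : HomIn S γ γ') : HomIn S γ' γ :=
  (homIn_iff _ _ (homIn_mem h).2 (homIn_mem h).1).2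
    ((homIn_iff _ _ (homIn_mem h).1 (homIn_mem h).2).1 h).symm

lemma homIn_trans {γ γ' γ'' : Path x y} (h : HomIn S γ γ') (h' : HomIn S γ' γ'') :
    HomIn S γ γ'' :=
  (homIn_iff _ _ (homIn_mem h).1 (homIn_mem h').2).2
    (((homIn_iff _ _ (homIn_mem h).1 (homIn_mem h).2).1 h).trans
      ((homIn_iff _ _ (homIn_mem h').1 (homIn_mem h').2).1 h'))

lemma homIn_mono (hS : S ⊆ S') {γ γ' : Path x y} (h : HomIn S γ γ') : HomIn S' γ γ' := by
  obtain ⟨H, hH⟩ := h
  exact ⟨H, fun p => hS (hH p)⟩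

lemma trans_mem {γ : Path x y} {γ' : Path y z} (h : ∀ t, γ t ∈ S) (h' : ∀ t, γ' t ∈ S) :
    ∀ t, (γ.trans γ') t ∈ S := by
  intro t
  rw [Path.trans_apply]
  split_ifs
  · exact h _
  · exact h' _

lemma symm_mem {γ : Path x y} (h : ∀ t, γ t ∈ S) : ∀ t, γ.symm t ∈ S := fun _ => h _

lemma lft_trans {γ : Path x y} {γ' : Path y z} (h : ∀ t, γ t ∈ S) (h' : ∀ t, γ' t ∈ S) :
    lft (γ.trans γ') (trans_mem h h') = (lft γ h).trans (lft γ' h') := by
  ext t
  simp only [lft, Path.trans_apply, Path.coe_mk_mk]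
  split_ifs <;> rfl

lemma homIn_hcomp {γ₀ γ₁ : Path x y} {δ₀ δ₁ : Path y z} (h : HomIn S γ₀ γ₁)
    (h' : HomIn S δ₀ δ₁) : HomIn S (γ₀.trans δ₀) (γ₁.trans δ₁) := by
  obtain ⟨h0, h1⟩ := homIn_mem h
  obtain ⟨h0', h1'⟩ := homIn_mem h'
  rw [homIn_iff _ _ (trans_mem h0 h0') (trans_mem h1 h1'), lft_trans h0 h0', lft_trans h1 h1']
  exact ((homIn_iff _ _ h0 h1).1 h).hcomp ((homIn_iff _ _ h0' h1').1 h')

/-- pushing forward a homotopy -/
lemma homIn_push {Y : Type} [TopologicalSpace Y] {a b : Y} {C : Set Y} (F : Y → Z)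
    (hF : Continuous F) (hC : MapsTo F C S) {p q : Path a b} (h : HomIn C p q)
    {γ γ' : Path x y} (hγ : ∀ t, γ t = F (p t)) (hγ' : ∀ t, γ' t = F (q t)) :
    HomIn S γ γ' := by
  obtain ⟨H, hH⟩ := h
  have hx : x = F a := by have := hγ 0; simpa using this
  have hy : y = F b := by have := hγ 1; simpa using this
  refine ⟨{ toFun := fun t => F (H t)
            continuous_toFun := hF.comp H.continuous
            map_zero_left := fun t => ?_
            map_one_left := fun t => ?_
            prop' := ?_ }, fun p => hC (hH p)⟩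
  · rw [H.apply_zero]; exact (hγ t).symm
  · rw [H.apply_one]; exact (hγ' t).symm
  · intro t s hs
    show F (H (t, s)) = γ s
    rw [H.eq_fst t hs]
    exact (hγ s).symm

/-- paths in a convex set are homotopic -/
lemma homIn_convex {V : Type} [AddCommGroup V] [Module ℝ V] [TopologicalSpace V]
    [IsTopologicalAddGroup V] [ContinuousSMul ℝ V] {C : Set V} (hC : Convex ℝ C) {a b : V}
    (p q : Path a b) (hp : ∀ t, p t ∈ C) (hq : ∀ t, q t ∈ C) : HomIn C p q := by
  refine ⟨{ toFun := fun t => (1 - (t.1 : ℝ)) • p t.2 + (t.1 : ℝ) • q t.2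
            continuous_toFun := ?_
            map_zero_left := fun t => ?_
            map_one_left := fun t => ?_
            prop' := ?_ }, ?_⟩
  · fun_prop
  · simp
  · simp
  · intro t s hs
    show (1 - (t : ℝ)) • p s + (t : ℝ) • q s = p s
    have : q s = p s := by
      rcases hs with rfl | hs
      · simp
      · rw [mem_singleton_iff] at hs; subst hs; simp
    rw [this, ← add_smul]
    simp
  · intro t
    exact hC (hp _) (hq _) (by have := t.1.2.2; linarith) t.1.2.1 (by ring)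

/-- the main tool: paths which lift to paths of a convex set with the same end points -/
lemma homIn_lift {V : Type} [AddCommGroup V] [Module ℝ V] [TopologicalSpace V]
    [IsTopologicalAddGroup V] [ContinuousSMul ℝ V] {C : Set V} (hC : Convex ℝ C) (F : V → Z)
    (hF : Continuous F) (hS : MapsTo F C S) {a b : V}
    (p q : Path a b) (hp : ∀ t, p t ∈ C) (hq : ∀ t, q t ∈ C) {γ γ' : Path x y}
    (hγ : ∀ t, γ t = F (p t)) (hγ' : ∀ t, γ' t = F (q t)) : HomIn S γ γ' :=
  homIn_push F hF hS (homIn_convex hC p q hp hq) hγ hγ'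

/-- lifting of a concatenation -/
lemma lf_trans {Y : Type} [TopologicalSpace Y] (F : Y → Z) {a b c : Y} {p : Path a b}
    {q : Path b c} {γ : Path x y} {γ' : Path y z} (h : ∀ t, γ t = F (p t))
    (h' : ∀ t, γ' t = F (q t)) : ∀ t, (γ.trans γ') t = F ((p.trans q) t) := by
  intro t
  rw [Path.trans_apply, Path.trans_apply]
  split_ifs
  · exact h _
  · exact h' _

/-- equality of paths with propositionally equal end points -/
lemma freeIn_congr {y' : Z} (c : Path x x) (γ : Path y y) (γ' : Path y' y')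
    (h : ∀ t, γ t = γ' t) : FreeIn S c γ → FreeIn S c γ' := by
  have hy : y = y' := by have := h 0; simpa using this
  subst hy
  have : γ = γ' := Path.ext (funext h)
  rw [this]
  exact id

end MuRetr

open MuRetr

/-- polar parametrisation of the neighbourhood of a puncture -/
def pol (g : SL) (p : ℝ × ℝ) : Qd := dq (g * y (p.1 * Complex.exp (p.2 * Complex.I)))

lemma continuous_pol (g : SL) : Continuous (pol g) := by
  unfold pol
  refine continuous_dq.comp (continuous_const.mul (continuous_y.comp ?_))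
  fun_prop

lemma pol_add (g : SL) (r θ : ℝ) (k : ℤ) : pol g (r, θ + 2 * π * k) = pol g (r, θ) := by
  have h : Complex.exp (((θ + 2 * π * k : ℝ) : ℂ) * Complex.I) = Complex.exp (θ * Complex.I) := by
    rw [Complex.exp_eq_exp_iff_exists_int]
    exact ⟨k, by push_cast; ring⟩
  simp only [pol, h]

lemma mu_pol (g : SL) (ρ : ℝ) (k : ℤ) (t : unitInterval) :
    mu g ρ k t = pol g (ρ, 2 * π * k * t) := by
  show dq _ = dq _
  simp

lemma pol_mem {P : Set Qd} {g : SL} {ρ : ℝ} (h : Small P g ρ) {r θ : ℝ} (hr : 0 < r)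
    (hr' : r ≤ ρ) : pol g (r, θ) ∈ Pᶜ := by
  refine h.2.2 _ ?_ ?_
  · exact mul_ne_zero (by exact_mod_cast hr.ne') (Complex.exp_ne_zero _)
  · rw [norm_mul, Complex.norm_exp_ofReal_mul_I, mul_one, Complex.norm_real, Real.norm_eq_abs,
      abs_of_pos hr]
    exact hr'

/-- segment in the plane -/
def seg (a b : ℝ × ℝ) : Path a b where
  toFun t := a + (t : ℝ) • (b - a)
  continuous_toFun := by fun_prop
  source' := by simp
  target' := by simp

lemma seg_apply (a b : ℝ × ℝ) (t : unitInterval) :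
    seg a b t = (a.1 + t * (b.1 - a.1), a.2 + t * (b.2 - a.2)) := by
  show a + (t : ℝ) • (b - a) = _
  ext <;> simp

lemma seg_mem {C : Set (ℝ × ℝ)} (hC : Convex ℝ C) {a b : ℝ × ℝ} (ha : a ∈ C) (hb : b ∈ C)
    (t : unitInterval) : seg a b t ∈ C := by
  have := hC ha hb (show (0:ℝ) ≤ 1 - t by have := t.2.2; linarith) t.2.1 (by ring)
  convert this using 1
  show a + (t : ℝ) • (b - a) = _
  rw [smul_sub, sub_smul, one_smul]
  abel

lemma convex_strip (ρ : ℝ) : Convex ℝ {p : ℝ × ℝ | 0 < p.1 ∧ p.1 ≤ ρ} := by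
  have : {p : ℝ × ℝ | 0 < p.1 ∧ p.1 ≤ ρ} = Ioc 0 ρ ×ˢ univ := by
    ext p; simp
  rw [this]
  exact (convex_Ioc 0 ρ).prod convex_univ

lemma mapsTo_pol {P : Set Qd} {g : SL} {ρ : ℝ} (h : Small P g ρ) :
    MapsTo (pol g) {p : ℝ × ℝ | 0 < p.1 ∧ p.1 ≤ ρ} Pᶜ := by
  rintro ⟨r, θ⟩ ⟨h1, h2⟩
  exact pol_mem h h1 h2

lemma Small_mono {P : Set Qd} {g : SL} {ρ ρ' : ℝ} (h : Small P g ρ) (h1 : 0 < ρ')
    (h2 : ρ' ≤ ρ) : Small P g ρ' :=
  ⟨h1, h2.trans_lt h.2.1, fun w hw hw' => h.2.2 w hw (hw'.trans h2)⟩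

lemma pol_zero_angle (g : SL) (ρ : ℝ) : pol g (ρ, 0) = dq (g * y ρ) := by
  simp [pol]

/-- radial path -/
def rad (g : SL) (ρ ρ' : ℝ) : Path (dq (g * y ρ)) (dq (g * y ρ')) where
  toFun t := pol g (ρ + t * (ρ' - ρ), 0)
  continuous_toFun := by
    refine (continuous_pol g).comp ?_
    fun_prop
  source' := by rw [← pol_zero_angle]; simp
  target' := by rw [← pol_zero_angle]; simp

lemma mu_shrink {P : Set Qd} {g : SL} {ρ ρ' : ℝ} (k : ℤ) (h : Small P g ρ) (h1 : 0 < ρ')
    (h2 : ρ' ≤ ρ) : FreeIn Pᶜ (mu g ρ k) (mu g ρ' k) := by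
  refine ⟨rad g ρ ρ', ?_⟩
  have hρ : 0 < ρ := h.1
  refine homIn_lift (convex_strip ρ) (pol g) (continuous_pol g) (mapsTo_pol h)
    (seg (ρ, 0) (ρ, 2 * π * k))
    ((seg (ρ, 0) (ρ', 0)).trans ((seg (ρ', 0) (ρ', 2 * π * k)).trans
      (seg (ρ', 2 * π * k) (ρ, 2 * π * k)))) ?_ ?_ ?_ ?_
  · exact seg_mem (convex_strip ρ) ⟨hρ, le_refl _⟩ ⟨hρ, le_refl _⟩
  · refine trans_mem ?_ (trans_mem ?_ ?_)
    · exact seg_mem (convex_strip ρ) ⟨hρ, le_refl _⟩ ⟨h1, h2⟩
    · exact seg_mem (convex_strip ρ) ⟨h1, h2⟩ ⟨h1, h2⟩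
    · exact seg_mem (convex_strip ρ) ⟨h1, h2⟩ ⟨hρ, le_refl _⟩
  · intro t
    rw [mu_pol, seg_apply]
    congr 1
    ext <;> simp
    ring
  · refine lf_trans _ ?_ (lf_trans _ ?_ ?_)
    · intro t
      rw [seg_apply]
      show pol g _ = _
      congr 1
      ext <;> simp
    · intro t
      rw [mu_pol, seg_apply]
      congr 1
      ext <;> simp
      ring
    · intro t
      rw [seg_apply]
      show pol g _ = _
      have := pol_add g (ρ' + t * (ρ - ρ')) 0 k
      rw [zero_add] at this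
      simp only [sub_self, mul_zero, add_zero]
      rw [this]
      congr 1
      ext <;> simp
      ring

lemma mu_fill {P : Set Qd} {g : SL} {ρ : ℝ} (k : ℤ) (h0 : 0 < ρ)
    (h : ∀ w : ℂ, ‖w‖ ≤ ρ → dq (g * y w) ∉ P) : HomIn Pᶜ (mu g ρ k) (Path.refl _) := by
  have hc : Continuous fun w : ℂ => dq (g * y w) :=
    continuous_dq.comp (continuous_const.mul continuous_y)
  have hnorm : ∀ t : ℝ, ‖(ρ : ℂ) * Complex.exp (2 * π * k * t * Complex.I)‖ ≤ ρ := by
    intro t
    have : (2 * π * k * t * Complex.I : ℂ) = ((2 * π * k * t : ℝ) : ℂ) * Complex.I := by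
      push_cast; ring
    rw [this, norm_mul, Complex.norm_exp_ofReal_mul_I, mul_one, Complex.norm_real,
      Real.norm_eq_abs, abs_of_pos h0]
  let p : Path (ρ : ℂ) (ρ : ℂ) :=
    { toFun := fun t => ρ * Complex.exp (2 * π * k * (t : ℝ) * Complex.I)
      continuous_toFun := by fun_prop
      source' := by simp
      target' := by
        have h : Complex.exp (2 * π * k * (((1 : unitInterval) : ℝ) : ℂ) * Complex.I) = 1 := by
          rw [Complex.exp_eq_one_iff]
          exact ⟨k, by simp; ring⟩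
        rw [h, mul_one] }
  refine homIn_lift (C := Metric.closedBall (0 : ℂ) ρ) (convex_closedBall _ _)
    (fun w : ℂ => dq (g * y w)) hc ?_ p (Path.refl _) ?_ ?_ ?_ ?_
  · intro w hw
    rw [mem_closedBall_zero_iff] at hw
    exact h w hw
  · intro t
    rw [mem_closedBall_zero_iff]
    exact hnorm t
  · intro t
    rw [mem_closedBall_zero_iff, Path.refl_apply, Complex.norm_real, Real.norm_eq_abs,
      abs_of_pos h0]
  · intro t; rfl
  · intro t; rfl

lemma mu_add {P : Set Qd} {g : SL} {ρ : ℝ} (j k : ℤ) (h : Small P g ρ) :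
    HomIn Pᶜ (mu g ρ (j + k)) ((mu g ρ j).trans (mu g ρ k)) := by
  have hρ : 0 < ρ := h.1
  refine homIn_lift (convex_strip ρ) (pol g) (continuous_pol g) (mapsTo_pol h)
    (seg (ρ, 0) (ρ, 2 * π * (j + k : ℤ)))
    ((seg (ρ, 0) (ρ, 2 * π * j)).trans (seg (ρ, 2 * π * j) (ρ, 2 * π * (j + k : ℤ))))
    ?_ ?_ ?_ ?_
  · exact seg_mem (convex_strip ρ) ⟨hρ, le_refl _⟩ ⟨hρ, le_refl _⟩
  · refine trans_mem ?_ ?_
    · exact seg_mem (convex_strip ρ) ⟨hρ, le_refl _⟩ ⟨hρ, le_refl _⟩
    · exact seg_mem (convex_strip ρ) ⟨hρ, le_refl _⟩ ⟨hρ, le_refl _⟩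
  · intro t
    rw [mu_pol, seg_apply]
    congr 1
    ext <;> simp
    ring
  · refine lf_trans _ ?_ ?_
    · intro t
      rw [mu_pol, seg_apply]
      congr 1
      ext <;> simp
      ring
    · intro t
      rw [mu_pol, seg_apply]
      have := pol_add g ρ (2 * π * k * t) j
      rw [← this]
      congr 1
      ext <;> simp
      ring

lemma mu_mem {P : Set Qd} {g : SL} {ρ : ℝ} (k : ℤ) (h : Small P g ρ) (t : unitInterval) :
    mu g ρ k t ∈ Pᶜ := by
  rw [mu_pol]
  exact pol_mem h h.1 le_rfl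

lemma mu_zero_eq (g : SL) (ρ : ℝ) : mu g ρ 0 = Path.refl _ := by
  ext1
  funext t
  rw [mu_pol]
  simp [pol]

lemma mu_symm_eq (g : SL) (ρ : ℝ) (k : ℤ) : (mu g ρ k).symm = mu g ρ (-k) := by
  ext1
  funext t
  show mu g ρ k (unitInterval.symm t) = _
  rw [mu_pol, mu_pol]
  have := pol_add g ρ (2 * π * (-k : ℤ) * t) k
  rw [← this]
  congr 1
  ext <;> simp
  ring

lemma npw_mu {P : Set Qd} {g : SL} {ρ : ℝ} (k : ℤ) (h : Small P g ρ) (n : ℕ) :
    HomIn Pᶜ (npw (mu g ρ k) n) (mu g ρ (n * k)) := by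
  induction n with
  | zero =>
    have : mu g ρ (((0 : ℕ) : ℤ) * k) = Path.refl _ := by
      rw [Nat.cast_zero, zero_mul]; exact mu_zero_eq g ρ
    rw [this]
    refine homIn_refl _ ?_
    intro t
    have := mu_mem 0 h 0
    simpa [npw] using this
  | succ n ih =>
    have h1 : HomIn Pᶜ (npw (mu g ρ k) (n + 1)) ((mu g ρ k).trans (mu g ρ (n * k))) :=
      homIn_hcomp (homIn_refl _ (mu_mem k h)) ih
    have h2 := homIn_symm (mu_add k (n * k) h)
    have h3 : (k + n * k : ℤ) = ((n + 1 : ℕ) : ℤ) * k := by push_cast; ring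
    rw [h3] at h2
    exact homIn_trans h1 h2

lemma mu_pw {P : Set Qd} {g : SL} {ρ : ℝ} (k : ℤ) (h : Small P g ρ) :
    HomIn Pᶜ (mu g ρ k) (pw (mu g ρ 1) k) := by
  apply homIn_symm
  rcases k with n | n
  · have := npw_mu 1 h n
    rw [mul_one] at this
    exact this
  · show HomIn Pᶜ (npw (mu g ρ 1).symm (n + 1)) _
    rw [mu_symm_eq]
    have := npw_mu (-1) h (n + 1)
    have h3 : (((n + 1 : ℕ) : ℤ) * -1 : ℤ) = Int.negSucc n := by
      rw [Int.negSucc_eq]; push_cast; ring
    rw [h3] at this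
    exact this

lemma dq_y_eq {w : ℂ} (h : dq (y w) = Dq) : w = 0 := by
  have h1 : (dq (y w)).1 = Dm := congrArg Subtype.val h
  have h2 : (y w : M2) * Dm * ((y w)⁻¹ : SL) = Dm := h1
  rw [inv_entries] at h2
  have e10 := congrFun (congrFun h2 1) 0
  have e01 := congrFun (congrFun h2 0) 1
  simp [y, Dm, nm, Matrix.mul_apply, Fin.sum_univ_two] at e10 e01
  have him : w.im = 0 := by linarith
  rw [him] at e01
  have hre : w.re = 0 := by linarith
  exact Complex.ext hre him

lemma exists_small {P : Set Qd} {g : SL} (hP : LF P) : ∃ ρ, Small P g ρ := by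
  obtain ⟨R, hR⟩ : ∃ R : ℝ, ∀ i j, |(dq g).1 i j| < R := by
    refine ⟨(∑ i, ∑ j, |(dq g).1 i j|) + 1, fun i j => ?_⟩
    have h1 : |(dq g).1 i j| ≤ ∑ j, |(dq g).1 i j| :=
      Finset.single_le_sum (f := fun j => |(dq g).1 i j|) (fun _ _ => abs_nonneg _)
        (Finset.mem_univ j)
    have h2 : ∑ j, |(dq g).1 i j| ≤ ∑ i, ∑ j, |(dq g).1 i j| :=
      Finset.single_le_sum (f := fun i => ∑ j, |(dq g).1 i j|)
        (fun _ _ => Finset.sum_nonneg fun _ _ => abs_nonneg _) (Finset.mem_univ i)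
    linarith
  have hc : Continuous fun w : ℂ => dq (g * y w) :=
    continuous_dq.comp (continuous_const.mul continuous_y)
  have hy0 : y 0 = 1 := by
    ext i j
    fin_cases i <;> fin_cases j <;> simp [y]
  have h0 : dq (g * y 0) = dq g := by rw [hy0, mul_one]
  have hfin := hP R
  have ev1 : ∀ᶠ w : ℂ in 𝓝 0, ∀ i j, |(dq (g * y w)).1 i j| < R := by
    rw [eventually_all]; intro i
    rw [eventually_all]; intro j
    have hcc : Continuous fun w : ℂ => |(dq (g * y w)).1 i j| := by
      have := continuous_subtype_val.comp hc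
      exact ((continuous_apply j).comp ((continuous_apply i).comp this)).abs
    have := hcc.tendsto 0
    simp only [h0] at this
    exact this.eventually (gt_mem_nhds (hR i j))
  have ev2 : ∀ᶠ w : ℂ in 𝓝 0, ∀ N ∈ {N : Qd | N ∈ P ∧ ∀ i j, |N.1 i j| ≤ R}, N ≠ dq g →
      dq (g * y w) ≠ N := by
    rw [hfin.eventually_all]
    intro N _
    by_cases hN : N = dq g
    · exact Eventually.of_forall fun _ h => absurd hN h
    · have h1 : {N}ᶜ ∈ 𝓝 (dq (g * y 0)) := by
        rw [h0]; exact isOpen_compl_singleton.mem_nhds (by simpa using fun h => hN h.symm)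
      filter_upwards [hc.continuousAt.preimage_mem_nhds h1] with w hw _
      exact hw
  obtain ⟨δ, hδ, hball⟩ := Metric.eventually_nhds_iff.mp (ev1.and ev2)
  refine ⟨min (δ / 2) (1 / 8), lt_min (by linarith) (by norm_num),
    (min_le_right _ _).trans_lt (by norm_num), ?_⟩
  intro w hw hw' hP'
  have hd : dist w 0 < δ := by
    rw [dist_zero_right]
    have := hw'.trans (min_le_left _ _)
    linarith
  obtain ⟨e1, e2⟩ := hball hd
  have hne : dq (g * y w) ≠ dq g := by
    intro h
    have : cq g (dq (y w)) = cq g Dq := by rw [← dq_mul]; exact h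
    have h3 := (cqh g).injective this
    exact hw (dq_y_eq h3)
  exact e2 _ ⟨hP', fun i j => (e1 i j).le⟩ hne rfl

theorem muStmt : MuStmt := by
  refine ⟨?_, ?_, ?_, ?_, ?_, ?_⟩
  · intro P g ρ ρ' k h h1 h2
    exact ⟨Small_mono h h1 h2, mu_shrink k h h1 h2⟩
  · intro P g ρ k h0 h
    exact mu_fill k h0 h
  · intro P g ρ j k h
    exact ⟨mu_add j k h, mu_pw k h⟩
  · intro P g ρ h
    rw [mu_zero_eq]
    refine homIn_refl _ fun t => ?_
    have := mu_mem 0 h 0
    simpa using this
  · intro P g hP _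
    exact exists_small hP
  · intro S g h ρ k x c
    have key : ∀ t, mu (h * g) ρ k t = ((mu g ρ k).map (continuous_cq h)) t := by
      intro t
      show dq _ = cq h (dq _)
      rw [← dq_mul, mul_assoc]
    constructor
    · exact freeIn_congr c _ _ key
    · exact freeIn_congr c _ _ fun t => (key t).symm

/-! ### the retraction -/

/-- truncation of `T` -/
def trc (R T : ℝ) : ℝ := max (-R) (min R T)

lemma trc_of_le {R T : ℝ} (h : |T| ≤ R) : trc R T = T := by
  rw [abs_le] at h
  rw [trc, min_eq_right h.2, max_eq_right h.1]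

lemma trc_abs {R T : ℝ} (hR : 0 < R) (h : R ≤ |T|) : |trc R T| = R := by
  rcases le_abs.mp h with h | h
  · rw [trc, min_eq_left h, max_eq_right (by linarith), abs_of_pos hR]
  · rw [trc, min_eq_right (by linarith), max_eq_left (by linarith), abs_neg, abs_of_pos hR]

/-- the retraction onto `|T| ≤ R` -/
def retq (R : ℝ) (N : Qd) : Qd :=
  ⟨!![XN N * (√(1 + trc R (TN N) ^ 2) / √(1 + TN N ^ 2)),
      YN N * (√(1 + trc R (TN N) ^ 2) / √(1 + TN N ^ 2)) + trc R (TN N);
      YN N * (√(1 + trc R (TN N) ^ 2) / √(1 + TN N ^ 2)) - trc R (TN N),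
      -(XN N * (√(1 + trc R (TN N) ^ 2) / √(1 + TN N ^ 2)))], by simp, by
    rw [Matrix.det_fin_two_of]
    have h1 : 0 < 1 + TN N ^ 2 := by positivity
    have h2 : 0 < 1 + trc R (TN N) ^ 2 := by positivity
    have h3 : (√(1 + trc R (TN N) ^ 2) / √(1 + TN N ^ 2)) ^ 2 =
        (1 + trc R (TN N) ^ 2) / (1 + TN N ^ 2) := by
      rw [div_pow, Real.sq_sqrt h2.le, Real.sq_sqrt h1.le]
    have h4 := XYT N
    have h5 : (√(1 + trc R (TN N) ^ 2) / √(1 + TN N ^ 2)) ^ 2 * (XN N ^ 2 + YN N ^ 2) =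
        1 + trc R (TN N) ^ 2 := by
      have : XN N ^ 2 + YN N ^ 2 = 1 + TN N ^ 2 := by linarith
      rw [h3, this]
      field_simp
    nlinarith [h5]⟩

lemma continuous_entry (i j : Fin 2) : Continuous fun N : Qd => N.1 i j :=
  (continuous_apply j).comp ((continuous_apply i).comp continuous_subtype_val)

lemma continuous_XN : Continuous XN := by
  unfold XN
  exact continuous_entry 0 0

lemma continuous_YN : Continuous YN := by
  unfold YN
  exact ((continuous_entry 0 1).add (continuous_entry 1 0)).div_const 2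

lemma continuous_TN : Continuous TN := by
  unfold TN
  exact ((continuous_entry 0 1).sub (continuous_entry 1 0)).div_const 2

lemma continuous_trc (R : ℝ) : Continuous fun N => trc R (TN N) := by
  unfold trc
  exact continuous_const.max (continuous_const.min continuous_TN)

lemma continuous_retq (R : ℝ) : Continuous (retq R) := by
  have hs : Continuous fun N => √(1 + trc R (TN N) ^ 2) / √(1 + TN N ^ 2) := by
    refine Continuous.div ?_ ?_ ?_
    · exact ((continuous_const).add ((continuous_trc R).pow 2)).sqrt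
    · exact ((continuous_const).add (continuous_TN.pow 2)).sqrt
    · intro N
      exact (Real.sqrt_pos.mpr (by positivity)).ne'
  have hX := continuous_XN
  have hY := continuous_YN
  have hT := continuous_trc R
  unfold retq
  refine Continuous.subtype_mk ?_ _
  refine continuous_matrix ?_
  intro i j
  fin_cases i <;> fin_cases j
  · exact hX.mul hs
  · exact (hY.mul hs).add hT
  · exact (hY.mul hs).sub hT
  · exact (hX.mul hs).neg

lemma TN_retq (R : ℝ) (N : Qd) : TN (retq R N) = trc R (TN N) := by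
  simp only [TN, retq]
  simp

lemma qd_ext {N N' : Qd} (hX : XN N = XN N') (hY : YN N = YN N') (hT : TN N = TN N') :
    N = N' := by
  apply Subtype.ext
  have h1 := N.2.1
  have h1' := N'.2.1
  simp only [XN, YN, TN] at hX hY hT
  ext i j
  fin_cases i <;> fin_cases j
  · exact hX
  · show N.1 0 1 = N'.1 0 1; linarith
  · show N.1 1 0 = N'.1 1 0; linarith
  · show N.1 1 1 = N'.1 1 1; rw [h1, h1', hX]

lemma retq_of_le {R : ℝ} {N : Qd} (h : |TN N| ≤ R) : retq R N = N := by
  have h1 : trc R (TN N) = TN N := trc_of_le h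
  have h2 : √(1 + TN N ^ 2) ≠ 0 := (Real.sqrt_pos.mpr (by positivity)).ne'
  apply qd_ext
  · simp only [XN, retq, h1]
    simp [div_self h2]
  · simp only [YN, retq, h1]
    simp [div_self h2]
  · rw [TN_retq, h1]

lemma retq_maps {P : Set Qd} {R : ℝ} (hR : 0 < R) (hP : ∀ N ∈ P, |TN N| ≠ R) :
    MapsTo (retq R) (P ∩ {N | |TN N| < R})ᶜ Pᶜ := by
  intro N hN hN'
  rcases lt_or_ge |TN N| R with h | h
  · rw [retq_of_le h.le] at hN'
    exact hN ⟨hN', h⟩
  · refine hP _ hN' ?_
    rw [TN_retq]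
    exact trc_abs hR h

theorem retr : RetrStmt := by
  intro P R hR hP
  have hm := retq_maps hR hP
  refine ⟨?_, ?_⟩
  · intro x y γ γ' h h' H
    exact homIn_push (retq R) (continuous_retq R) hm H
      (fun t => (retq_of_le (h t).le).symm) (fun t => (retq_of_le (h' t).le).symm)
  · rintro x y γ γ' h h' ⟨δ, H⟩
    have hx : retq R x = x := by have := retq_of_le (h 0).le; simpa using this
    have hy : retq R y = y := by have := retq_of_le (h' 0).le; simpa using this
    refine ⟨(δ.map (continuous_retq R)).cast hx.symm hy.symm, ?_⟩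
    refine homIn_push (retq R) (continuous_retq R) hm H
      (fun t => (retq_of_le (h t).le).symm) ?_
    refine lf_trans _ ?_ (lf_trans _ ?_ ?_)
    · intro t; rfl
    · intro t; exact (retq_of_le (h' t).le).symm
    · intro t; rfl

end AdT
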