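import Pool.Agent.Helper88.AdT.Stmts1

/-!
AD-17: the structures `A_t` are pairwise not isometric.
-/

open Matrix Real Topology Filter Set

noncomputable section

namespace AdT

namespace NonIso

lemma locAffine {F : ℝ → ℝ} {r : ℝ}
    (h : ∀ x, ∃ σ c : ℝ, (σ = 1 ∨ σ = -1) ∧ ∀ᶠ y in 𝓝 x, F y = σ * r * y + c) :
    ∃ σ c : ℝ, (σ = 1 ∨ σ = -1) ∧ ∀ y, F y = σ * r * y + c := by
  have hd : ∀ x, ∃ σ : ℝ, (σ = 1 ∨ σ = -1) ∧ DifferentiableAt ℝ F x ∧
      ∀ᶠ y in 𝓝 x, deriv F y = σ * r := by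
    intro x
    obtain ⟨σ, c, hσ, hc⟩ := h x
    have haff : ∀ y : ℝ, HasDerivAt (fun y => σ * r * y + c) (σ * r) y := by
      intro y
      simpa using ((hasDerivAt_id y).const_mul (σ * r)).add_const c
    refine ⟨σ, hσ, ((haff x).congr_of_eventuallyEq hc).differentiableAt, ?_⟩
    filter_upwards [hc.eventually_nhds] with y hy
    exact ((haff y).congr_of_eventuallyEq hy).deriv
  have hloc : IsLocallyConstant (deriv F) := by
    rw [IsLocallyConstant.iff_eventually_eq]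
    intro x
    obtain ⟨σ, -, -, hx⟩ := hd x
    filter_upwards [hx] with y hy
    rw [hy, hx.self_of_nhds]
  obtain ⟨σ, hσ, -, h0⟩ := hd 0
  have hconst : ∀ x, deriv F x = σ * r := by
    intro x
    rw [← h0.self_of_nhds]
    exact hloc.apply_eq_of_preconnectedSpace x 0
  have hdiff : Differentiable ℝ F := fun x => (hd x).choose_spec.2.1
  have hG : ∀ x y, F x - σ * r * x = F y - σ * r * y := by
    intro x y
    apply is_const_of_deriv_eq_zero (f := fun x => F x - σ * r * x)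
    · exact hdiff.sub (differentiable_id.const_mul _)
    · intro z
      have h1 : HasDerivAt (fun x => F x - σ * r * x) (deriv F z - σ * r * 1) z :=
        (hdiff z).hasDerivAt.sub ((hasDerivAt_id z).const_mul (σ * r))
      rw [h1.deriv, hconst]
      ring
  refine ⟨σ, F 0, hσ, fun y => ?_⟩
  have := hG y 0
  simp at this
  linarith

lemma slope_one {φ : AddCircle (2 : ℝ) → AddCircle (2 : ℝ)} (hφ : Function.Injective φ)
    {F : ℝ → ℝ} (hF : ∀ x : ℝ, (F x : AddCircle (2 : ℝ)) = φ (x : AddCircle (2 : ℝ)))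
    {σ r c : ℝ} (hσ : σ = 1 ∨ σ = -1) (hr : 0 < r) (hc : ∀ y, F y = σ * r * y + c) : r = 1 := by
  have coe_eq : ∀ x y : ℝ, (x : AddCircle (2 : ℝ)) = (y : AddCircle (2 : ℝ)) →
      ∃ k : ℤ, x - y = k * 2 := by
    intro x y hxy
    rw [← sub_eq_zero, ← AddCircle.coe_sub, AddCircle.coe_eq_zero_iff] at hxy
    obtain ⟨k, hk⟩ := hxy
    exact ⟨k, by rw [← hk]; simp⟩
  have h2 : ((2 : ℝ) : AddCircle (2 : ℝ)) = ((0 : ℝ) : AddCircle (2 : ℝ)) := by
    rw [AddCircle.coe_period]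
    simp
  obtain ⟨k, hk⟩ := coe_eq (F 2) (F 0) (by rw [hF, hF, h2])
  rw [hc, hc] at hk
  have hk2 : σ * r = k := by linarith
  -- `r` is a positive integer
  obtain ⟨n, hn⟩ : ∃ n : ℤ, r = n := by
    rcases hσ with h | h
    · exact ⟨k, by rw [← hk2, h, one_mul]⟩
    · exact ⟨-k, by push_cast; rw [← hk2, h]; ring⟩
  have hn0 : 0 < n := by
    have : (0 : ℝ) < n := by rw [← hn]; exact hr
    exact_mod_cast this
  by_contra hne
  have hn1 : n ≠ 1 := by
    intro h
    apply hne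
    rw [hn, h]
    norm_num
  have hn2 : 2 ≤ n := by omega
  have hr2 : 2 ≤ r := by
    rw [hn]
    exact_mod_cast hn2
  have h3 : φ ((2 / r : ℝ) : AddCircle (2 : ℝ)) = φ ((0 : ℝ) : AddCircle (2 : ℝ)) := by
    rw [← hF, ← hF, hc, hc]
    have h4 : σ * r * (2 / r) + c = c + σ * 2 := by
      field_simp
      ring
    rw [h4]
    rcases hσ with h | h
    · rw [h, one_mul, AddCircle.coe_add, h2]
      simp
    · have h5 : c + -1 * 2 = c - 2 := by ring
      rw [h, h5, AddCircle.coe_sub, h2]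
      simp
  obtain ⟨m, hm⟩ := coe_eq _ _ (hφ h3)
  rw [sub_zero] at hm
  have hm1 : (m : ℝ) = 1 / r := by
    field_simp at hm ⊢
    linarith
  have hm2 : (0 : ℝ) < m := by rw [hm1]; positivity
  have hm3 : (m : ℝ) < 1 := by
    rw [hm1, div_lt_one hr]
    linarith
  have hm4 : 0 < m := by exact_mod_cast hm2
  have hm5 : m < 1 := by exact_mod_cast hm3
  omega

lemma eps_pos : (0 : ℝ) < ε0 := by
  unfold ε0
  norm_num

/-- points of the core -/
def cp (v : AddCircle (2 : ℝ)) : ST ε0 := ⟨(0, v), by simp [eps_pos]⟩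

lemma cp_cont : Continuous cp := by
  unfold cp
  exact Continuous.subtype_mk (by fun_prop) _

lemma cp_inj : Function.Injective cp := by
  intro v v' h
  exact (Prod.ext_iff.mp (Subtype.ext_iff.mp h)).2

lemma eq_cp {p : ST ε0} (h : p.1.1 = 0) : p = cp p.1.2 := by
  apply Subtype.ext
  apply Prod.ext
  · exact h
  · rfl

/-- a homeomorphism maps circle to circle -/
lemma circle_map (hF : FNStmt) {gi : Idx → SL} (hgi : GoodGi gi) (h : FN gi ≃ₜ FN gi)
    (hS : h '' Sg gi = Sg gi) (i : Idx) :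
    ∃ (j : Idx) (φ : AddCircle (2 : ℝ) → AddCircle (2 : ℝ)), Continuous φ ∧
      Function.Injective φ ∧ ∀ v, h (kN gi i (cp v)) = kN gi j (cp (φ v)) := by
  obtain ⟨hj, hk, hglue, hcompl, hinj, -⟩ := hF gi hgi
  have hmem : ∀ i v, kN gi i (cp v) ∈ Sg gi := fun i v => ⟨i, cp v, rfl, rfl⟩
  have hcore : ∀ j, ∀ q ∈ Sg gi, q ∈ range (kN gi j) → ∃ v, q = kN gi j (cp v) := by
    rintro j q hq ⟨p, rfl⟩
    by_cases hp : p.1.1 = 0
    · exact ⟨p.1.2, by rw [← eq_cp hp]⟩
    · exfalso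
      rw [← hcompl] at hq
      apply hq
      rw [hglue j p hp]
      exact mem_range_self _
  have hψc : Continuous fun v => h (kN gi i (cp v)) :=
    h.continuous.comp ((hk i).continuous.comp cp_cont)
  have hψS : ∀ v, h (kN gi i (cp v)) ∈ Sg gi := by
    intro v
    rw [← hS]
    exact mem_image_of_mem _ (hmem i v)
  -- the index of the component is locally constant
  have hex : ∀ v, ∃ j, ∃ w, h (kN gi i (cp v)) = kN gi j (cp w) := by
    intro v
    obtain ⟨j, p, hp, hpq⟩ := hψS v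
    exact ⟨j, p.1.2, by rw [← hpq, ← eq_cp hp]⟩
  choose J W hJW using hex
  have hJ : IsLocallyConstant J := by
    rw [IsLocallyConstant.iff_eventually_eq]
    intro v
    have hopen : IsOpen (range (kN gi (J v))) := (hk (J v)).isOpen_range
    have hv : ∀ᶠ u in 𝓝 v, h (kN gi i (cp u)) ∈ range (kN gi (J v)) := by
      apply hψc.continuousAt.eventually
      apply hopen.mem_nhds
      show h (kN gi i (cp v)) ∈ _
      rw [hJW v]
      exact mem_range_self _
    filter_upwards [hv] with u hu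
    obtain ⟨w, hw⟩ := hcore _ _ (hψS u) hu
    rw [hJW u] at hw
    exact (hinj _ _ _ _ rfl rfl hw).1
  set j := J 0 with hjdef
  have hJj : ∀ v, J v = j := fun v => hJ.apply_eq_of_preconnectedSpace v 0
  have hW : ∀ v, h (kN gi i (cp v)) = kN gi j (cp (W v)) := by
    intro v
    rw [← hJj v]
    exact hJW v
  refine ⟨j, W, ?_, ?_, hW⟩
  · have h1 : Continuous fun v => kN gi j (cp (W v)) := by
      have : (fun v => kN gi j (cp (W v))) = fun v => h (kN gi i (cp v)) := by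
        funext v
        rw [hW]
      rw [this]
      exact hψc
    have h2 : Continuous fun v => cp (W v) := (hk j).toIsEmbedding.continuous_iff.mpr h1
    have h3 : W = fun v => (cp (W v)).1.2 := rfl
    rw [h3]
    exact continuous_snd.comp (continuous_subtype_val.comp h2)
  · intro v v' hvv
    have h1 : h (kN gi i (cp v)) = h (kN gi i (cp v')) := by rw [hW, hW, hvv]
    exact cp_inj ((hk i).injective (h.injective h1))

end NonIso

open NonIso in
theorem nonIso (hF : FNStmt) (hS : StructStmt) (hT : Tach2Stmt) (hC : TachCoordStmt) :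
    NonIsoStmt := by
  rintro gi hgi t t' ht0 htt ht' ⟨h, hSg, hcompat⟩
  have hF2 := hF gi hgi
  obtain ⟨hjN, hkN, hglue, hcompl, hinj, hne, -⟩ := hF2
  obtain ⟨i⟩ := hne
  have hs0 : 0 < s0 := by linarith
  have hat : |t| < s0 / 20 := by rw [abs_of_nonneg ht0]; linarith
  have hat' : |t'| < s0 / 20 := by rw [abs_of_nonneg (by linarith)]; exact ht'
  obtain ⟨j, φ, hφc, hφi, hφ⟩ := circle_map hF hgi h hSg i
  obtain ⟨col, hcol⟩ := hT gi hgi i
  obtain ⟨col', hcol'⟩ := hT gi hgi j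
  -- lift of `φ`
  have hcont : Continuous fun x : ℝ => φ (x : AddCircle (2 : ℝ)) :=
    hφc.comp (AddCircle.continuous_mk' 2)
  obtain ⟨y0, hy0⟩ : ∃ y0 : ℝ, (y0 : AddCircle (2 : ℝ)) = φ ((0 : ℝ) : AddCircle (2 : ℝ)) :=
    QuotientAddGroup.mk_surjective _
  obtain ⟨F, ⟨-, hFl⟩, -⟩ := (AddCircle.isCoveringMap_coe (2 : ℝ)).existsUnique_continuousMap_lifts
    (⟨_, hcont⟩ : C(ℝ, AddCircle (2 : ℝ))) 0 y0 hy0
  have hFl' : ∀ x : ℝ, (F x : AddCircle (2 : ℝ)) = φ (x : AddCircle (2 : ℝ)) :=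
    fun x => congrFun hFl x
  have hz : 0 < zc col t := by
    unfold zc
    cases col <;> simp <;> linarith
  have hz' : 0 < zc col' t' := by
    unfold zc
    cases col' <;> simp <;> linarith
  have hloc : ∀ x, ∃ σ c : ℝ, (σ = 1 ∨ σ = -1) ∧
      ∀ᶠ y in 𝓝 x, F y = σ * (zc col t / zc col' t') * y + c := by
    intro x
    obtain ⟨κ, hκ1, hκ2, hκ3⟩ := hcol x
    obtain ⟨κ', hκ1', hκ2', hκ3'⟩ := hcol' (F x)
    have hq : kN gi i (cp (x : AddCircle (2 : ℝ))) ∈ Sg gi := ⟨i, cp _, rfl, rfl⟩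
    have hhq : h (kN gi i (cp (x : AddCircle (2 : ℝ)))) = kN gi j (cp (F x : AddCircle (2 : ℝ))) := by
      rw [hφ, hFl']
    have hsrc : kN gi i (cp (x : AddCircle (2 : ℝ))) ∈ (κ t).source := by
      rw [hκ1 t hat]
      exact ⟨cp _, x, by simp, rfl, rfl⟩
    have hsrc' : h (kN gi i (cp (x : AddCircle (2 : ℝ)))) ∈ (κ' t').source := by
      rw [hκ1' t' hat', hhq]
      exact ⟨cp _, F x, by simp, rfl, rfl⟩
    obtain ⟨σ, c, hσ, hev⟩ := hC (FN gi) (Sg gi) (Sg gi) (devCharts gi t) (devCharts gi t')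
      (-(2 * s0)) (-(2 * s0)) h (κ t) (κ' t') (kN gi i (cp (x : AddCircle (2 : ℝ)))) hSg
      (hS gi hgi t hat).2.1 (hS gi hgi t' hat').2.1 hcompat (hκ3 t hat) (hκ3' t' hat') hq hsrc hsrc'
    refine ⟨σ, 2 * c / zc col' t', hσ, ?_⟩
    have hcore : Continuous fun y : ℝ => kN gi i (cp (y : AddCircle (2 : ℝ))) :=
      (hkN i).continuous.comp (cp_cont.comp (AddCircle.continuous_mk' 2))
    have hev2 : ∀ᶠ y : ℝ in 𝓝 x, kN gi i (cp (y : AddCircle (2 : ℝ))) ∈ Sg gi →
        (κ' t' (h (kN gi i (cp (y : AddCircle (2 : ℝ)))))).2 =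
          σ * (κ t (kN gi i (cp (y : AddCircle (2 : ℝ))))).2 + c :=
      hcore.continuousAt.eventually hev
    have hy1 : ∀ᶠ y in 𝓝 x, |y - x| < 1 / 2 := by
      have : Continuous fun y : ℝ => |y - x| := by fun_prop
      exact (this.tendsto x).eventually_lt_const (by simp)
    have hy2 : ∀ᶠ y in 𝓝 x, |F y - F x| < 1 / 2 := by
      have : Continuous fun y : ℝ => |F y - F x| := by fun_prop
      exact (this.tendsto x).eventually_lt_const (by simp)
    filter_upwards [hev2, hy1, hy2] with y h1 h2 h3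
    have h4 := h1 ⟨i, cp _, rfl, rfl⟩
    rw [hφ, ← hFl', hκ2' t' hat' (cp ((F y : ℝ) : AddCircle (2 : ℝ))) (F y) h3 rfl,
      hκ2 t hat (cp ((y : ℝ) : AddCircle (2 : ℝ))) y h2 rfl] at h4
    simp only at h4
    field_simp
    linarith
  obtain ⟨σ, c, hσ, hc⟩ := locAffine hloc
  have hr : zc col t / zc col' t' = 1 :=
    slope_one hφi hFl' hσ (div_pos hz hz') hc
  rw [div_eq_one_iff_eq hz'.ne'] at hr
  unfold zc at hr
  cases col <;> cases col' <;> simp at hr <;> linarith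

end AdT
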