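import Pool.Agent.Helper88.AdT.Stmts2
import Pool.Agent.Helper88.AdT.Pi1
import Pool.Agent.Helper88.AdT.MuRetr
import Pool.Agent.Helper88.AdT.CylS

/-!
AT-4: commuting loops, the centraliser of a power of a small loop, small loops at different
punctures.
-/

open Matrix Real Topology Filter Set

noncomputable section

namespace AdT

namespace P4

/-! ### the annulus `Qd` is homeomorphic to `Cyl` -/

/-- the unit vector of direction `(X, Y)` -/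
def zq (N : Qd) : Circle := ⟨⟨XN N / √(1 + TN N ^ 2), YN N / √(1 + TN N ^ 2)⟩, by
  have h1 : 0 < 1 + TN N ^ 2 := by positivity
  have h4 := XYT N
  rw [Submonoid.unitSphere, Submonoid.mem_mk, Subsemigroup.mem_mk, mem_sphere_zero_iff_norm]
  rw [Complex.norm_def, Real.sqrt_eq_one, Complex.normSq_mk]
  have h3 : √(1 + TN N ^ 2) * √(1 + TN N ^ 2) = 1 + TN N ^ 2 := Real.mul_self_sqrt h1.le
  rw [div_mul_div_comm, div_mul_div_comm, h3, ← add_div, div_eq_one_iff_eq h1.ne']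
  nlinarith⟩

lemma continuous_zq : Continuous zq := by
  unfold zq
  refine Continuous.subtype_mk ?_ _
  have h1 : Continuous fun N => XN N / √(1 + TN N ^ 2) :=
    continuous_XN.div ((continuous_const.add (continuous_TN.pow 2)).sqrt)
      fun N => (Real.sqrt_pos.mpr (by positivity)).ne'
  have h2 : Continuous fun N => YN N / √(1 + TN N ^ 2) :=
    continuous_YN.div ((continuous_const.add (continuous_TN.pow 2)).sqrt)
      fun N => (Real.sqrt_pos.mpr (by positivity)).ne'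
  have h3 : Continuous fun N =>
      ((XN N / √(1 + TN N ^ 2) : ℝ) : ℂ) + ((YN N / √(1 + TN N ^ 2) : ℝ) : ℂ) * Complex.I :=
    (Complex.continuous_ofReal.comp h1).add
      ((Complex.continuous_ofReal.comp h2).mul continuous_const)
  refine h3.congr fun N => ?_
  apply Complex.ext <;> simp

/-- the circle of directions -/
def hc : AddCircle (1 : ℝ) ≃ₜ Circle := AddCircle.homeomorphCircle one_ne_zero

lemma hc_coe (s : ℝ) : ((hc (s : AddCircle (1 : ℝ)) : Circle) : ℂ) =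
    ⟨Real.cos (2 * π * s), Real.sin (2 * π * s)⟩ := by
  rw [hc, AddCircle.homeomorphCircle_apply, AddCircle.toCircle_apply_mk, Circle.coe_exp]
  rw [div_one]
  apply Complex.ext
  · exact Complex.exp_ofReal_mul_I_re _
  · exact Complex.exp_ofReal_mul_I_im _

/-- the inverse map -/
def psi0 (p : Cyl) : Qd :=
  ⟨!![√(1 + p.2 ^ 2) * (hc p.1 : ℂ).re, √(1 + p.2 ^ 2) * (hc p.1 : ℂ).im + p.2;
      √(1 + p.2 ^ 2) * (hc p.1 : ℂ).im - p.2, -(√(1 + p.2 ^ 2) * (hc p.1 : ℂ).re)], by simp, by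
    rw [Matrix.det_fin_two_of]
    have h1 : 0 < 1 + p.2 ^ 2 := by positivity
    have h3 : √(1 + p.2 ^ 2) ^ 2 = 1 + p.2 ^ 2 := Real.sq_sqrt h1.le
    have h4 : (hc p.1 : ℂ).re ^ 2 + (hc p.1 : ℂ).im ^ 2 = 1 := by
      have := Circle.normSq_coe (hc p.1)
      rw [Complex.normSq_apply] at this
      nlinarith
    have h5 : √(1 + p.2 ^ 2) ^ 2 * ((hc p.1 : ℂ).re ^ 2 + (hc p.1 : ℂ).im ^ 2) =
        1 + p.2 ^ 2 := by rw [h3, h4, mul_one]
    nlinarith [h5]⟩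

lemma XN_psi0 (p : Cyl) : XN (psi0 p) = √(1 + p.2 ^ 2) * (hc p.1 : ℂ).re := rfl

lemma YN_psi0 (p : Cyl) : YN (psi0 p) = √(1 + p.2 ^ 2) * (hc p.1 : ℂ).im := by
  simp only [YN, psi0]
  simp

lemma TN_psi0 (p : Cyl) : TN (psi0 p) = p.2 := by
  simp only [TN, psi0]
  simp

lemma continuous_psi0 : Continuous psi0 := by
  have hs : Continuous fun p : Cyl => √(1 + p.2 ^ 2) :=
    (continuous_const.add (continuous_snd.pow 2)).sqrt
  have hz : Continuous fun p : Cyl => ((hc p.1 : Circle) : ℂ) :=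
    continuous_subtype_val.comp (hc.continuous.comp continuous_fst)
  have hr : Continuous fun p : Cyl => √(1 + p.2 ^ 2) * (hc p.1 : ℂ).re :=
    hs.mul (Complex.continuous_re.comp hz)
  have hi : Continuous fun p : Cyl => √(1 + p.2 ^ 2) * (hc p.1 : ℂ).im :=
    hs.mul (Complex.continuous_im.comp hz)
  unfold psi0
  refine Continuous.subtype_mk ?_ _
  refine continuous_matrix ?_
  intro i j
  fin_cases i <;> fin_cases j
  · exact hr
  · exact hi.add continuous_snd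
  · exact hi.sub continuous_snd
  · exact hr.neg

/-- the homeomorphism `Qd ≃ Cyl` -/
def Phi : Qd ≃ₜ Cyl where
  toFun N := (hc.symm (zq N), TN N)
  invFun := psi0
  left_inv N := by
    have h0 : √(1 + TN N ^ 2) ≠ 0 := (Real.sqrt_pos.mpr (by positivity)).ne'
    have h1 : hc (hc.symm (zq N)) = zq N := hc.apply_symm_apply _
    apply qd_ext
    · rw [XN_psi0]
      simp only [h1]
      show √(1 + TN N ^ 2) * (XN N / √(1 + TN N ^ 2)) = XN N
      field_simp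
    · rw [YN_psi0]
      simp only [h1]
      show √(1 + TN N ^ 2) * (YN N / √(1 + TN N ^ 2)) = YN N
      field_simp
    · rw [TN_psi0]
  right_inv p := by
    have h0 : √(1 + p.2 ^ 2) ≠ 0 := (Real.sqrt_pos.mpr (by positivity)).ne'
    apply Prod.ext
    · show hc.symm (zq (psi0 p)) = p.1
      rw [Homeomorph.symm_apply_eq]
      apply Subtype.ext
      show (⟨XN (psi0 p) / √(1 + TN (psi0 p) ^ 2), YN (psi0 p) / √(1 + TN (psi0 p) ^ 2)⟩ : ℂ) =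
        (hc p.1 : ℂ)
      rw [XN_psi0, YN_psi0, TN_psi0]
      apply Complex.ext
      · show √(1 + p.2 ^ 2) * (hc p.1 : ℂ).re / √(1 + p.2 ^ 2) = _
        field_simp
      · show √(1 + p.2 ^ 2) * (hc p.1 : ℂ).im / √(1 + p.2 ^ 2) = _
        field_simp
    · exact TN_psi0 p
  continuous_toFun := (hc.symm.continuous.comp continuous_zq).prodMk continuous_TN
  continuous_invFun := continuous_psi0

@[simp] lemma Phi_snd (N : Qd) : (Phi N).2 = TN N := rfl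

lemma XN_of_Phi {N : Qd} {s : ℝ} (h : (Phi N).1 = (s : AddCircle (1 : ℝ))) :
    XN N = √(1 + TN N ^ 2) * Real.cos (2 * π * s) := by
  have h1 : psi0 (Phi N) = N := Phi.left_inv N
  have h2 := XN_psi0 (Phi N)
  rw [h1, h, hc_coe, Phi_snd] at h2
  exact h2

lemma YN_of_Phi {N : Qd} {s : ℝ} (h : (Phi N).1 = (s : AddCircle (1 : ℝ))) :
    YN N = √(1 + TN N ^ 2) * Real.sin (2 * π * s) := by
  have h1 : psi0 (Phi N) = N := Phi.left_inv N
  have h2 := YN_psi0 (Phi N)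
  rw [h1, h, hc_coe, Phi_snd] at h2
  exact h2

/-! ### words -/

/-- words for paths in the complement of `F` -/
structure Wd (F : Set Qd) (A : Type) where
  om : ∀ {x y : Qd}, Path x y → FreeGroup A
  iff : ∀ {x y : Qd} (γ γ' : Path x y), (∀ t, γ t ∈ Fᶜ) → (∀ t, γ' t ∈ Fᶜ) →
    (HomIn Fᶜ γ γ' ↔ om γ = om γ')
  mul : ∀ {x y z : Qd} (γ : Path x y) (γ' : Path y z), (∀ t, γ t ∈ Fᶜ) → (∀ t, γ' t ∈ Fᶜ) →
    om (γ.trans γ') = om γ * om γ'

section Words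

variable {F : Set Qd} {A : Type} (W : Wd F A) {x y z : Qd}

lemma Wd.om_refl (h : x ∈ Fᶜ) : W.om (Path.refl x) = 1 := by
  have h1 := W.mul (Path.refl x) (Path.refl x) (mem_refl h) (mem_refl h)
  have h2 := (W.iff _ _ (mem_trans (mem_refl h) (mem_refl h)) (mem_refl h)).1
    (HomIn.refl_trans (mem_refl h))
  rw [h1] at h2
  exact mul_eq_left.1 h2

lemma Wd.om_symm {γ : Path x y} (h : ∀ t, γ t ∈ Fᶜ) : W.om γ.symm = (W.om γ)⁻¹ := by
  have hx : x ∈ Fᶜ := by simpa using h 0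
  have h1 := W.mul γ γ.symm h (mem_symm h)
  have h2 := (W.iff _ _ (mem_trans h (mem_symm h)) (mem_refl hx)).1 (HomIn.trans_symm h)
  rw [h1, W.om_refl hx] at h2
  exact eq_inv_of_mul_eq_one_right h2

lemma Wd.om_npw {γ : Path x x} (h : ∀ t, γ t ∈ Fᶜ) (n : ℕ) :
    W.om (npw γ n) = (W.om γ) ^ n := by
  have hx : x ∈ Fᶜ := by simpa using h 0
  induction n with
  | zero => rw [pow_zero]; exact W.om_refl hx
  | succ n ih => rw [npw, W.mul _ _ h (mem_npw h hx n), ih, pow_succ']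

lemma Wd.om_pw {γ : Path x x} (h : ∀ t, γ t ∈ Fᶜ) (k : ℤ) :
    W.om (pw γ k) = (W.om γ) ^ k := by
  cases k with
  | ofNat n => rw [Int.ofNat_eq_natCast, zpow_natCast]; exact W.om_npw h n
  | negSucc n => rw [pw, W.om_npw (mem_symm h), W.om_symm h, zpow_negSucc, inv_pow]

lemma Wd.om_cjp {δ : Path x y} {γ : Path y y} (h : ∀ t, δ t ∈ Fᶜ) (h' : ∀ t, γ t ∈ Fᶜ) :
    W.om (cjp δ γ) = W.om δ * W.om γ * (W.om δ)⁻¹ := by
  rw [cjp, W.mul _ _ h (mem_trans h' (mem_symm h)), W.mul _ _ h' (mem_symm h), W.om_symm h,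
    mul_assoc]

lemma Wd.om_congr {x' y' : Qd} (γ : Path x y) (γ' : Path x' y') (h : ∀ t, γ t = γ' t) :
    W.om γ = W.om γ' := by
  have hx : x = x' := by have := h 0; simpa using this
  have hy : y = y' := by have := h 1; simpa using this
  subst hx hy
  have : γ = γ' := Path.ext (funext h)
  rw [this]

lemma range_map_subset (e : Qd ≃ₜ Cyl) {γ : Path x y} (h : ∀ t, γ t ∈ Fᶜ) :
    range (γ.map e.continuous) ⊆ (e '' F)ᶜ := by
  rintro _ ⟨t, rfl⟩ ⟨N, hN, h1⟩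
  have h2 : N = γ t := e.injective h1
  exact h t (h2 ▸ hN)

/-- transport of words -/
def mkWd (e : Qd ≃ₜ Cyl) (F : Set Qd)
    (ω : ∀ {x y : Cyl}, Path x y → FreeGroup (Option (e '' F)))
    (h1 : ∀ (x y : Cyl) (γ γ' : Path x y), range γ ⊆ (e '' F)ᶜ → range γ' ⊆ (e '' F)ᶜ →
      (HomIn (e '' F)ᶜ γ γ' ↔ ω γ = ω γ'))
    (h2 : ∀ (x y z : Cyl) (γ : Path x y) (γ' : Path y z), range γ ⊆ (e '' F)ᶜ →
      range γ' ⊆ (e '' F)ᶜ → ω (γ.trans γ') = ω γ * ω γ') : Wd F (Option (e '' F)) where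
  om γ := ω (γ.map e.continuous)
  iff γ γ' h h' := by
    rw [← h1 _ _ _ _ (range_map_subset e h) (range_map_subset e h')]
    constructor
    · intro H
      refine H.map e.continuous ?_
      rintro p hp ⟨N, hN, h3⟩
      exact hp (e.injective h3 ▸ hN)
    · intro H
      refine MuRetr.homIn_push e.symm e.symm.continuous ?_ H ?_ ?_
      · intro p hp hp'
        exact hp ⟨e.symm p, hp', e.apply_symm_apply p⟩
      · intro t; exact (e.symm_apply_apply (γ t)).symm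
      · intro t; exact (e.symm_apply_apply (γ' t)).symm
  mul γ γ' h h' := by
    rw [Path.map_trans]
    exact h2 _ _ _ _ _ (range_map_subset e h) (range_map_subset e h')

lemma exists_wd (hC : CylStmt) (hF : F.Finite) : ∃ A : Type, Nonempty (Wd F A) := by
  obtain ⟨η, ω, -, h1, h2, -⟩ := hC (Phi '' F) (hF.image _)
  exact ⟨_, ⟨mkWd Phi F ω h1 h2⟩⟩

/-! ### the choice of the finite part -/

lemma path_bound (γ : Path x y) : ∃ R0 : ℝ, ∀ t, |TN (γ t)| ≤ R0 := by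
  have hc : Continuous fun t => |TN (γ t)| := (continuous_TN.comp γ.continuous).abs
  obtain ⟨t0, -, ht0⟩ := isCompact_univ.exists_isMaxOn univ_nonempty hc.continuousOn
  exact ⟨|TN (γ t0)|, fun t => ht0 (mem_univ t)⟩

end Words

lemma finite_part {P : Set Qd} (hP : LF P) (R : ℝ) : {N | N ∈ P ∧ |TN N| ≤ R}.Finite := by
  refine (hP (1 + 2 * |R|)).subset ?_
  rintro N ⟨hN, hT⟩
  refine ⟨hN, ?_⟩
  have hR : |TN N| ≤ |R| := hT.trans (le_abs_self R)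
  have h := XYT N
  have hX : |XN N| ≤ 1 + |R| := by
    apply abs_le_of_sq_le_sq _ (by positivity)
    have : TN N ^ 2 ≤ |R| ^ 2 := by rw [← sq_abs (TN N)]; gcongr
    nlinarith [sq_nonneg (YN N), abs_nonneg R]
  have hY : |YN N| ≤ 1 + |R| := by
    apply abs_le_of_sq_le_sq _ (by positivity)
    have : TN N ^ 2 ≤ |R| ^ 2 := by rw [← sq_abs (TN N)]; gcongr
    nlinarith [sq_nonneg (XN N), abs_nonneg R]
  have e00 : N.1 0 0 = XN N := rfl
  have e01 : N.1 0 1 = YN N + TN N := by simp only [YN, TN]; ring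
  have e10 : N.1 1 0 = YN N - TN N := by simp only [YN, TN]; ring
  have e11 : N.1 1 1 = -XN N := N.2.1
  have h0 := abs_nonneg R
  intro i j
  fin_cases i <;> fin_cases j
  · show |N.1 0 0| ≤ _
    rw [e00]; linarith
  · show |N.1 0 1| ≤ _
    rw [e01]; exact (abs_add_le _ _).trans (by linarith)
  · show |N.1 1 0| ≤ _
    rw [e10]; exact (abs_sub _ _).trans (by linarith)
  · show |N.1 1 1| ≤ _
    rw [e11, abs_neg]; linarith

lemma exists_R {P : Set Qd} (hP : LF P) (R0 : ℝ) : ∃ R, R0 < R ∧ 0 < R ∧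
    (∀ N ∈ P, |TN N| ≠ R) ∧ (P ∩ {N | |TN N| < R}).Finite := by
  have hfin := finite_part hP (|R0| + 1)
  have hinf : (Ioo |R0| (|R0| + 1)).Infinite := Ioo_infinite (by linarith)
  obtain ⟨R, hR, hR'⟩ := hinf.exists_notMem_finite (hfin.image fun N => |TN N|)
  refine ⟨R, (le_abs_self R0).trans_lt hR.1, (abs_nonneg R0).trans_lt hR.1, ?_, ?_⟩
  · intro N hN h
    exact hR' ⟨N, ⟨hN, by rw [h]; exact hR.2.le⟩, h⟩
  · exact hfin.subset fun N hN => ⟨hN.1, hN.2.le.trans hR.2.le⟩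

/-! ### coordinates near the puncture -/

lemma y_zero : y 0 = 1 := by
  ext i j
  fin_cases i <;> fin_cases j <;> simp [y]

lemma entries_y (w : ℂ) : (dq (y w)).1 = !![1 + 2 * w.re * w.im, -(2 * w.re * (1 + w.re * w.im));
    2 * w.im, -(1 + 2 * w.re * w.im)] := by
  have h2 : (dq (y w)).1 = (y w : M2) * Dm * ((y w)⁻¹ : SL) := rfl
  rw [h2, inv_entries]
  ext i j
  fin_cases i <;> fin_cases j <;>
    simp [y, Dm, nm, Matrix.mul_apply, Fin.sum_univ_two] <;> ring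

lemma YN_y (w : ℂ) : YN (dq (y w)) = w.im - w.re * (1 + w.re * w.im) := by
  rw [YN, entries_y]
  simp
  ring

lemma TN_y (w : ℂ) : TN (dq (y w)) = -(w.re * (1 + w.re * w.im)) - w.im := by
  rw [TN, entries_y]
  simp
  ring

lemma ne_zero_cases {w : ℂ} (h : w ≠ 0) : w.re ≠ 0 ∨ w.im ≠ 0 := by
  by_contra hc
  push Not at hc
  exact h (Complex.ext hc.1 hc.2)

lemma TN_neg {w : ℂ} (h : w ≠ 0) (h1 : 0 ≤ w.re) (h2 : 0 ≤ w.im) : TN (dq (y w)) < 0 := by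
  rw [TN_y]
  have h3 : 0 ≤ w.re * (w.re * w.im) := mul_nonneg h1 (mul_nonneg h1 h2)
  rcases ne_zero_cases h with h | h
  · have : 0 < w.re := lt_of_le_of_ne h1 h.symm
    nlinarith
  · have : 0 < w.im := lt_of_le_of_ne h2 h.symm
    nlinarith

lemma TN_pos {w : ℂ} (h : w ≠ 0) (h1 : w.re ≤ 0) (h2 : w.im ≤ 0) : 0 < TN (dq (y w)) := by
  rw [TN_y]
  have h3 : w.re * (w.re * w.im) ≤ 0 :=
    mul_nonpos_of_nonpos_of_nonneg h1 (mul_nonneg_of_nonpos_of_nonpos h1 h2)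
  rcases ne_zero_cases h with h | h
  · have : w.re < 0 := lt_of_le_of_ne h1 h
    nlinarith
  · have : w.im < 0 := lt_of_le_of_ne h2 h
    nlinarith

lemma YN_pos {w : ℂ} (h : w ≠ 0) (h0 : ‖w‖ < 1) (h1 : w.re ≤ 0) (h2 : 0 ≤ w.im) :
    0 < YN (dq (y w)) := by
  rw [YN_y]
  have h4 : |w.re| < 1 := (Complex.abs_re_le_norm w).trans_lt h0
  have h5 : w.re ^ 2 < 1 := by rw [← sq_abs]; nlinarith [abs_nonneg w.re]
  rcases ne_zero_cases h with h | h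
  · have : w.re < 0 := lt_of_le_of_ne h1 h
    nlinarith [mul_nonneg h2 (sub_nonneg.2 h5.le)]
  · have : 0 < w.im := lt_of_le_of_ne h2 h.symm
    nlinarith [mul_pos this (sub_pos.2 h5)]

lemma YN_neg {w : ℂ} (h : w ≠ 0) (h0 : ‖w‖ < 1) (h1 : 0 ≤ w.re) (h2 : w.im ≤ 0) :
    YN (dq (y w)) < 0 := by
  rw [YN_y]
  have h4 : |w.re| < 1 := (Complex.abs_re_le_norm w).trans_lt h0
  have h5 : w.re ^ 2 < 1 := by rw [← sq_abs]; nlinarith [abs_nonneg w.re]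
  rcases ne_zero_cases h with h | h
  · have : 0 < w.re := lt_of_le_of_ne h1 h.symm
    nlinarith [mul_nonneg (neg_nonneg.2 h2) (sub_nonneg.2 h5.le)]
  · have : w.im < 0 := lt_of_le_of_ne h2 h
    nlinarith [mul_pos (neg_pos.2 this) (sub_pos.2 h5)]

lemma hc_zero : hc (0 : AddCircle (1 : ℝ)) = 1 := by
  rw [hc, AddCircle.homeomorphCircle_apply, AddCircle.toCircle_zero]

lemma Phi_Dq : Phi Dq = (0, 0) := by
  have hX : XN Dq = 1 := by simp [XN, Dq, Dm, nm]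
  have hY : YN Dq = 0 := by simp [YN, Dq, Dm, nm]
  have hT : TN Dq = 0 := by simp [TN, Dq, Dm, nm]
  apply Prod.ext
  · show hc.symm (zq Dq) = 0
    rw [Homeomorph.symm_apply_eq, hc_zero]
    apply Subtype.ext
    show (⟨XN Dq / √(1 + TN Dq ^ 2), YN Dq / √(1 + TN Dq ^ 2)⟩ : ℂ) = 1
    rw [hX, hY, hT]
    apply Complex.ext <;> simp
  · exact hT

/-- the chart in which `dq g` is the point `(0, 0)` -/
def ep (g : SL) : Qd ≃ₜ Cyl := (cqh g⁻¹).trans Phi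

lemma ep_dq (g : SL) (w : ℂ) : ep g (dq (g * y w)) = Phi (dq (y w)) := by
  show Phi (cq g⁻¹ (dq (g * y w))) = _
  rw [← dq_mul, inv_mul_cancel_left]

lemma ep_g (g : SL) : ep g (dq g) = (0, 0) := by
  have h := ep_dq g 0
  rw [y_zero, mul_one] at h
  rw [h]
  have : dq 1 = Dq := cq_one Dq
  rw [this, Phi_Dq]

lemma local_box {η ε : ℝ} (hη : 0 < η) (hε : 0 < ε) : ∃ ρ0 > 0, ∀ w : ℂ, ‖w‖ ≤ ρ0 →
    ∃ s : ℝ, |s| < η ∧ (Phi (dq (y w))).1 = (s : AddCircle (1 : ℝ)) ∧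
      |TN (dq (y w))| < ε := by
  have hU : IsOpen (((fun s : ℝ => (s : AddCircle (1 : ℝ))) '' Ioo (-η) η) ×ˢ
      {T : ℝ | |T| < ε}) := by
    refine IsOpen.prod ?_ (isOpen_lt continuous_abs continuous_const)
    exact QuotientAddGroup.isOpenMap_coe _ isOpen_Ioo
  have hc : Continuous fun w : ℂ => Phi (dq (y w)) :=
    Phi.continuous.comp (continuous_dq.comp continuous_y)
  have h0 : Phi (dq (y 0)) = (0, 0) := by
    rw [y_zero]
    have : dq 1 = Dq := cq_one Dq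
    rw [this, Phi_Dq]
  have hm : (fun w : ℂ => Phi (dq (y w))) ⁻¹'
      (((fun s : ℝ => (s : AddCircle (1 : ℝ))) '' Ioo (-η) η) ×ˢ {T : ℝ | |T| < ε}) ∈
      𝓝 (0 : ℂ) := by
    refine (hU.preimage hc).mem_nhds ?_
    rw [mem_preimage, h0]
    refine ⟨⟨0, ⟨by linarith, hη⟩, by simp⟩, ?_⟩
    show |(0 : ℝ)| < ε
    simpa using hε
  obtain ⟨δ, hδ, hball⟩ := Metric.mem_nhds_iff.1 hm
  refine ⟨δ / 2, by positivity, fun w hw => ?_⟩
  have hw' : w ∈ Metric.ball (0 : ℂ) δ := by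
    rw [mem_ball_zero_iff]; linarith
  obtain ⟨⟨s, hs, hs'⟩, hT⟩ := hball hw'
  exact ⟨s, abs_lt.2 hs, hs'.symm, hT⟩

lemma sgn_pos {N : Qd} {s : ℝ} (hs : |s| < 1 / 2) (h : (Phi N).1 = (s : AddCircle (1 : ℝ)))
    (hY : 0 < YN N) : 0 < s := by
  rw [YN_of_Phi h] at hY
  by_contra hc
  push Not at hc
  have h1 := (abs_lt.1 hs).1
  have h2 : Real.sin (2 * π * s) ≤ 0 := by
    refine Real.sin_nonpos_of_nonpos_of_neg_pi_le ?_ ?_
    · nlinarith [Real.pi_pos]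
    · nlinarith [Real.pi_pos]
  have h3 : 0 ≤ √(1 + TN N ^ 2) := Real.sqrt_nonneg _
  nlinarith [mul_nonneg h3 (neg_nonneg.2 h2)]

lemma sgn_neg {N : Qd} {s : ℝ} (hs : |s| < 1 / 2) (h : (Phi N).1 = (s : AddCircle (1 : ℝ)))
    (hY : YN N < 0) : s < 0 := by
  rw [YN_of_Phi h] at hY
  by_contra hc
  push Not at hc
  have h1 := (abs_lt.1 hs).2
  have h2 : 0 ≤ Real.sin (2 * π * s) := by
    refine Real.sin_nonneg_of_nonneg_of_le_pi ?_ ?_
    · nlinarith [Real.pi_pos]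
    · nlinarith [Real.pi_pos]
  have h3 : 0 ≤ √(1 + TN N ^ 2) := Real.sqrt_nonneg _
  nlinarith [mul_nonneg h3 h2]

lemma coe_inj {s s' : ℝ} (hs : |s| < 1 / 2) (hs' : |s'| < 1 / 2)
    (h : (s : AddCircle (1 : ℝ)) = (s' : AddCircle (1 : ℝ))) : s = s' := by
  have h1 := abs_lt.1 hs
  have h2 := abs_lt.1 hs'
  exact (AddCircle.coe_eq_coe_iff_of_mem_Ico (p := (1 : ℝ)) (a := -(1 / 2))
    ⟨h1.1.le, by linarith [h1.2]⟩ ⟨h2.1.le, by linarith [h2.2]⟩).1 h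

/-! ### finite sets of punctures -/

lemma gap {B : Set ℝ} (hB : B.Finite) (h0 : (0 : ℝ) ∉ B) : ∃ ε > 0, ∀ s ∈ B, ε ≤ |s| := by
  have : Bᶜ ∈ 𝓝 (0 : ℝ) := hB.isClosed.isOpen_compl.mem_nhds h0
  obtain ⟨ε, hε, hb⟩ := Metric.mem_nhds_iff.1 this
  refine ⟨ε, hε, fun s hs => ?_⟩
  by_contra hc
  push Not at hc
  exact hb (by rw [mem_ball_zero_iff]; exact hc) hs

lemma gap_angle {G : Set Cyl} (hG : G.Finite) : ∃ η > 0, ∀ s : ℝ, s ≠ 0 → |s| < η →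
    ∀ f ∈ G, f.1 ≠ (s : AddCircle (1 : ℝ)) := by
  have hfin : {s : ℝ | |s| < 1 / 2 ∧ (s : AddCircle (1 : ℝ)) ∈ Prod.fst '' G}.Finite := by
    have h1 : (Prod.fst '' G).Finite := hG.image _
    refine Set.Finite.of_finite_image (f := fun s : ℝ => (s : AddCircle (1 : ℝ))) ?_ ?_
    · exact h1.subset (by rintro _ ⟨s, hs, rfl⟩; exact hs.2)
    · intro s hs s' hs' h
      exact coe_inj hs.1 hs'.1 h
  obtain ⟨ε, hε, hb⟩ := gap (hfin.subset (sdiff_subset (t := {0}))) (by simp)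
  refine ⟨min ε (1 / 2), lt_min hε (by norm_num), fun s hs hs' f hf h => ?_⟩
  have := hb s ⟨⟨hs'.trans_le (min_le_right _ _), f, hf, h⟩, hs⟩
  exact absurd (hs'.trans_le (min_le_left _ _)) (not_lt.2 this)

lemma gap_height {G : Set Cyl} (hG : G.Finite) : ∃ ε > 0, ∀ f ∈ G, f.2 ≠ 0 → ε ≤ |f.2| := by
  have hfin : ((fun f : Cyl => f.2) '' G \ {0}).Finite := (hG.image _).subset sdiff_subset
  obtain ⟨ε, hε, hb⟩ := gap hfin (by simp)
  exact ⟨ε, hε, fun f hf h => hb f.2 ⟨⟨f, hf, rfl⟩, h⟩⟩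

lemma exists_below {G : Set Cyl} (hG : G.Finite) (f0 : G) (h0 : f0.1 = (0, 0)) {ε : ℝ}
    (hε : ∀ f ∈ G, f.2 ≠ 0 → ε ≤ |f.2|) :
    ∃ b : Option G, b ≠ some f0 ∧ ang G b = 0 ∧
      ∀ T : ℝ, -ε < T → T < 0 → ((0 : AddCircle (1 : ℝ)), T) ∈ arc G b := by
  have hBfin : {f | f ∈ G ∧ f.1 = 0 ∧ f.2 < 0}.Finite := hG.subset fun f hf => hf.1
  rcases Set.eq_empty_or_nonempty {f | f ∈ G ∧ f.1 = 0 ∧ f.2 < 0} with he | hne
  · refine ⟨none, by simp, rfl, fun T _ hT => ⟨rfl, fun f hf hf1 => ?_⟩⟩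
    by_contra hc
    push Not at hc
    have : f ∈ {f | f ∈ G ∧ f.1 = 0 ∧ f.2 < 0} := ⟨hf, hf1, hc.trans_lt hT⟩
    rw [he] at this
    exact this
  · obtain ⟨f, hf, hmax⟩ := Set.exists_max_image _ (fun f : Cyl => f.2) hBfin hne
    refine ⟨some ⟨f, hf.1⟩, ?_, hf.2.1, fun T hT hT' => ⟨hf.2.1.symm, ?_, ?_⟩⟩
    · intro h
      have h1 : f = f0.1 := congrArg Subtype.val (Option.some.inj h)
      have h2 := hf.2.2
      rw [h1, h0] at h2
      exact lt_irrefl _ h2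
    · show f.2 < T
      have := hε f hf.1 hf.2.2.ne
      rw [abs_of_neg hf.2.2] at this
      linarith
    · intro f' hf' h1 h2
      show T < f'.2
      by_contra hc
      push Not at hc
      have h3 := hmax f' ⟨hf', h1.trans hf.2.1, hc.trans_lt hT'⟩
      exact absurd h2 (not_lt.2 h3)

lemma above {G : Set Cyl} (f0 : G) (h0 : f0.1 = (0, 0)) {ε : ℝ}
    (hε : ∀ f ∈ G, f.2 ≠ 0 → ε ≤ |f.2|) (T : ℝ) (hT : 0 < T) (hT' : T < ε) :
    ((0 : AddCircle (1 : ℝ)), T) ∈ arc G (some f0) := by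
  refine ⟨?_, ?_, ?_⟩
  · show (0 : AddCircle (1 : ℝ)) = f0.1.1
    rw [h0]
  · show f0.1.2 < T
    rw [h0]; exact hT
  · intro f' hf' _ h2
    show T < f'.2
    rw [h0] at h2
    have := hε f' hf' (ne_of_gt h2)
    rw [abs_of_pos h2] at this
    linarith

/-! ### the word of a small loop -/

/-- the path `φ ↦ pol g (ρ, φ)` from the angle `a` to the angle `b` -/
def arcp (g : SL) (ρ a b : ℝ) : Path (pol g (ρ, a)) (pol g (ρ, b)) :=
  (seg (ρ, a) (ρ, b)).map (continuous_pol g)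

lemma arcp_apply (g : SL) (ρ a b : ℝ) (t : unitInterval) :
    arcp g ρ a b t = pol g (ρ, a + t * (b - a)) := by
  show pol g (seg (ρ, a) (ρ, b) t) = _
  rw [seg_apply]
  congr 1
  ext <;> simp

lemma arcp_mem {F : Set Qd} {g : SL} {ρ : ℝ} (h : Small F g ρ) (a b : ℝ) (t : unitInterval) :
    arcp g ρ a b t ∈ Fᶜ := by
  rw [arcp_apply]
  exact pol_mem h h.1 le_rfl

lemma arcp_split {F : Set Qd} {g : SL} {ρ : ℝ} (h : Small F g ρ) (a b c : ℝ) :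
    HomIn Fᶜ (arcp g ρ a c) ((arcp g ρ a b).trans (arcp g ρ b c)) := by
  have hρ : 0 < ρ := h.1
  refine MuRetr.homIn_lift (convex_strip ρ) (pol g) (continuous_pol g) (mapsTo_pol h)
    (seg (ρ, a) (ρ, c)) ((seg (ρ, a) (ρ, b)).trans (seg (ρ, b) (ρ, c))) ?_ ?_ ?_ ?_
  · exact seg_mem (convex_strip ρ) ⟨hρ, le_refl _⟩ ⟨hρ, le_refl _⟩
  · refine MuRetr.trans_mem ?_ ?_
    · exact seg_mem (convex_strip ρ) ⟨hρ, le_refl _⟩ ⟨hρ, le_refl _⟩
    · exact seg_mem (convex_strip ρ) ⟨hρ, le_refl _⟩ ⟨hρ, le_refl _⟩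
  · intro t; rfl
  · exact MuRetr.lf_trans _ (fun t => rfl) (fun t => rfl)

lemma om_quarters {F : Set Qd} {A : Type} (W : Wd F A) {g : SL} {ρ : ℝ} (h : Small F g ρ) :
    W.om (mu g ρ 1) = W.om (arcp g ρ 0 (π / 2)) * W.om (arcp g ρ (π / 2) π) *
      (W.om (arcp g ρ π (3 * π / 2)) * W.om (arcp g ρ (3 * π / 2) (2 * π))) := by
  have h1 : W.om (mu g ρ 1) = W.om (arcp g ρ 0 (2 * π)) := by
    refine W.om_congr _ _ fun t => ?_
    rw [mu_pol, arcp_apply]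
    congr 2
    push_cast
    ring
  have key : ∀ a b c : ℝ, W.om (arcp g ρ a c) = W.om (arcp g ρ a b) * W.om (arcp g ρ b c) := by
    intro a b c
    rw [← W.mul _ _ (arcp_mem h a b) (arcp_mem h b c)]
    exact (W.iff _ _ (arcp_mem h a c) (mem_trans (arcp_mem h a b) (arcp_mem h b c))).1
      (arcp_split h a b c)
  rw [h1, key 0 π (2 * π), key 0 (π / 2) π, key π (3 * π / 2) (2 * π)]

/-- a point on the circle of radius `ρ` -/
def pt (ρ φ : ℝ) : Qd := dq (y (ρ * Complex.exp (φ * Complex.I)))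

lemma ep_pol (g : SL) (ρ φ : ℝ) : ep g (pol g (ρ, φ)) = Phi (pt ρ φ) := ep_dq g _

lemma w_re (ρ φ : ℝ) : ((ρ : ℂ) * Complex.exp (φ * Complex.I)).re = ρ * Real.cos φ := by
  rw [Complex.re_ofReal_mul, Complex.exp_ofReal_mul_I_re]

lemma w_im (ρ φ : ℝ) : ((ρ : ℂ) * Complex.exp (φ * Complex.I)).im = ρ * Real.sin φ := by
  rw [Complex.im_ofReal_mul, Complex.exp_ofReal_mul_I_im]

lemma w_norm {ρ : ℝ} (hρ : 0 < ρ) (φ : ℝ) : ‖(ρ : ℂ) * Complex.exp (φ * Complex.I)‖ = ρ := by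
  rw [norm_mul, Complex.norm_exp_ofReal_mul_I, mul_one, Complex.norm_real, Real.norm_eq_abs,
    abs_of_pos hρ]

lemma w_ne {ρ : ℝ} (hρ : 0 < ρ) (φ : ℝ) : (ρ : ℂ) * Complex.exp (φ * Complex.I) ≠ 0 :=
  mul_ne_zero (by exact_mod_cast hρ.ne') (Complex.exp_ne_zero _)

lemma q1 {ρ φ : ℝ} (hρ : 0 < ρ) (h0 : 0 ≤ φ) (h1 : φ ≤ π / 2) : TN (pt ρ φ) < 0 := by
  refine TN_neg (w_ne hρ φ) ?_ ?_
  · rw [w_re]
    exact mul_nonneg hρ.le (Real.cos_nonneg_of_mem_Icc ⟨by linarith [Real.pi_pos], h1⟩)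
  · rw [w_im]
    exact mul_nonneg hρ.le
      (Real.sin_nonneg_of_nonneg_of_le_pi h0 (by linarith [Real.pi_pos]))

lemma q2 {ρ φ : ℝ} (hρ : 0 < ρ) (hρ' : ρ < 1) (h0 : π / 2 ≤ φ) (h1 : φ ≤ π) :
    0 < YN (pt ρ φ) := by
  refine YN_pos (w_ne hρ φ) (by rw [w_norm hρ]; exact hρ') ?_ ?_
  · rw [w_re]
    exact mul_nonpos_of_nonneg_of_nonpos hρ.le
      (Real.cos_nonpos_of_pi_div_two_le_of_le h0 (by linarith [Real.pi_pos]))
  · rw [w_im]
    exact mul_nonneg hρ.le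
      (Real.sin_nonneg_of_nonneg_of_le_pi (by linarith [Real.pi_pos]) h1)

lemma q3 {ρ φ : ℝ} (hρ : 0 < ρ) (h0 : π ≤ φ) (h1 : φ ≤ 3 * π / 2) : 0 < TN (pt ρ φ) := by
  refine TN_pos (w_ne hρ φ) ?_ ?_
  · rw [w_re]
    exact mul_nonpos_of_nonneg_of_nonpos hρ.le
      (Real.cos_nonpos_of_pi_div_two_le_of_le (by linarith [Real.pi_pos])
        (by linarith [Real.pi_pos]))
  · rw [w_im]
    refine mul_nonpos_of_nonneg_of_nonpos hρ.le ?_
    rw [← Real.sin_sub_two_pi]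
    exact Real.sin_nonpos_of_nonpos_of_neg_pi_le (by linarith [Real.pi_pos]) (by linarith)

lemma q4 {ρ φ : ℝ} (hρ : 0 < ρ) (hρ' : ρ < 1) (h0 : 3 * π / 2 ≤ φ) (h1 : φ ≤ 2 * π) :
    YN (pt ρ φ) < 0 := by
  refine YN_neg (w_ne hρ φ) (by rw [w_norm hρ]; exact hρ') ?_ ?_
  · rw [w_re]
    refine mul_nonneg hρ.le ?_
    rw [← Real.cos_sub_two_pi]
    exact Real.cos_nonneg_of_mem_Icc ⟨by linarith, by linarith [Real.pi_pos]⟩
  · rw [w_im]
    refine mul_nonpos_of_nonneg_of_nonpos hρ.le ?_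
    rw [← Real.sin_sub_two_pi]
    exact Real.sin_nonpos_of_nonpos_of_neg_pi_le (by linarith) (by linarith [Real.pi_pos])

lemma param_mem {a b : ℝ} (hab : a ≤ b) (t : unitInterval) :
    a ≤ a + t * (b - a) ∧ a + t * (b - a) ≤ b := by
  have h0 := t.2.1
  have h1 := t.2.2
  constructor
  · nlinarith
  · nlinarith

lemma om_mu (hC : CylSStmt) (g : SL) {F : Set Qd} (hF : F.Finite) (hg : dq g ∈ F) :
    ∃ (A : Type) (W : Wd F A) (a b : A) (ρ0 : ℝ), a ≠ b ∧ 0 < ρ0 ∧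
      ∀ ρ, Small F g ρ → ρ ≤ ρ0 →
        W.om (mu g ρ 1) = FreeGroup.of a * (FreeGroup.of b)⁻¹ := by
  have hG : (ep g '' F).Finite := hF.image _
  set G : Set Cyl := ep g '' F with hGdef
  have hf0 : ((0, 0) : Cyl) ∈ G := ⟨dq g, hg, ep_g g⟩
  obtain ⟨η, ω, hη0, hη1, h1, h2, h3, h4, -⟩ := hC G hG
  obtain ⟨η1, hη1pos, hangle⟩ := gap_angle hG
  obtain ⟨ε, hε, hheight⟩ := gap_height hG
  obtain ⟨b0, hb0, hb0ang, hbelow⟩ := exists_below hG ⟨(0, 0), hf0⟩ rfl hheight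
  have habove := above (G := G) ⟨(0, 0), hf0⟩ rfl hheight
  obtain ⟨ρ0, hρ0, hloc⟩ := local_box (lt_min hη0 hη1pos) hε
  refine ⟨_, mkWd (ep g) F ω h1 h2, b0, some ⟨(0, 0), hf0⟩, ρ0, hb0, hρ0, ?_⟩
  intro ρ hS hρ
  have hρpos : 0 < ρ := hS.1
  have hρ1 : ρ < 1 := by linarith [hS.2.1]
  have hlocφ : ∀ φ : ℝ, ∃ s : ℝ, |s| < min η η1 ∧
      (Phi (pt ρ φ)).1 = (s : AddCircle (1 : ℝ)) ∧ |TN (pt ρ φ)| < ε := fun φ =>
    hloc _ (by rw [w_norm hρpos]; exact hρ)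
  have hmin : ∀ s : ℝ, |s| < min η η1 → |s| < 1 / 2 := fun s hs =>
    (hs.trans_le (min_le_left _ _)).trans (by linarith)
  have hcut : ∀ φ : ℝ, YN (pt ρ φ) ≠ 0 → Phi (pt ρ φ) ∈ cut0 G := by
    intro φ hY
    obtain ⟨s, hs, hs1, -⟩ := hlocφ φ
    have hs0 : s ≠ 0 := by
      rintro rfl
      rw [YN_of_Phi hs1] at hY
      simp at hY
    have hne := hangle s hs0 (hs.trans_le (min_le_right _ _))
    refine ⟨fun hmem => hne _ hmem hs1, ?_⟩
    rintro (_ | f) hmem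
    · exact hne _ hf0 (hmem.1.symm.trans hs1)
    · exact hne _ f.2 (hmem.1.symm.trans hs1)
  have hbox : ∀ (α : Option G) (φ : ℝ), ang G α = 0 →
      ((0 : AddCircle (1 : ℝ)), TN (pt ρ φ)) ∈ arc G α → Phi (pt ρ φ) ∈ bx G η α := by
    intro α φ hα hmem
    obtain ⟨s, hs, hs1, -⟩ := hlocφ φ
    refine ⟨⟨s, hs.trans_le (min_le_left _ _), ?_⟩, ?_⟩
    · rw [hα, zero_add]; exact hs1
    · rw [hα]; exact hmem
  have hright : ∀ (α : Option G) (φ : ℝ), ang G α = 0 →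
      ((0 : AddCircle (1 : ℝ)), TN (pt ρ φ)) ∈ arc G α → 0 < YN (pt ρ φ) →
      Phi (pt ρ φ) ∈ bxr G η α := by
    intro α φ hα hmem hY
    obtain ⟨s, hs, hs1, -⟩ := hlocφ φ
    refine ⟨⟨s, sgn_pos (hmin s hs) hs1 hY,
      (le_abs_self s).trans_lt (hs.trans_le (min_le_left _ _)), ?_⟩, ?_⟩
    · rw [hα, zero_add]; exact hs1
    · rw [hα]; exact hmem
  have hleft : ∀ (α : Option G) (φ : ℝ), ang G α = 0 → YN (pt ρ φ) < 0 →
      Phi (pt ρ φ) ∉ bxr G η α := by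
    rintro α φ hα hY ⟨⟨s', hs'0, hs'1, hs'2⟩, -⟩
    obtain ⟨s, hs, hs1, -⟩ := hlocφ φ
    rw [hα, zero_add, hs1] at hs'2
    have h5 := coe_inj (hmin s hs) (by rw [abs_of_pos hs'0]; linarith) hs'2
    have h6 := sgn_neg (hmin s hs) hs1 hY
    rw [h5] at h6
    linarith
  have hT : ∀ φ, |TN (pt ρ φ)| < ε := fun φ => (hlocφ φ).choose_spec.2.2
  have hrange : ∀ (a b : ℝ) (S : Set Cyl), a ≤ b →
      (∀ φ, a ≤ φ → φ ≤ b → Phi (pt ρ φ) ∈ S) →
      range ((arcp g ρ a b).map (ep g).continuous) ⊆ S := by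
    rintro a b S hab hS' _ ⟨t, rfl⟩
    show ep g (arcp g ρ a b t) ∈ S
    rw [arcp_apply, ep_pol]
    exact hS' _ (param_mem hab t).1 (param_mem hab t).2
  have hpi := Real.pi_pos
  rw [om_quarters _ hS]
  show ω ((arcp g ρ 0 (π / 2)).map (ep g).continuous) *
      ω ((arcp g ρ (π / 2) π).map (ep g).continuous) *
      (ω ((arcp g ρ π (3 * π / 2)).map (ep g).continuous) *
        ω ((arcp g ρ (3 * π / 2) (2 * π)).map (ep g).continuous)) = _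
  have e2 : ω ((arcp g ρ (π / 2) π).map (ep g).continuous) = 1 :=
    h3 _ _ _ (hrange _ _ _ (by linarith) fun φ ha hb => hcut φ (q2 hρpos hρ1 ha hb).ne')
  have e4 : ω ((arcp g ρ (3 * π / 2) (2 * π)).map (ep g).continuous) = 1 :=
    h3 _ _ _ (hrange _ _ _ (by linarith) fun φ ha hb => hcut φ (q4 hρpos hρ1 ha hb).ne)
  have hlow : ∀ φ, 0 ≤ φ → φ ≤ π / 2 → ((0 : AddCircle (1 : ℝ)), TN (pt ρ φ)) ∈ arc G b0 :=
    fun φ ha hb => hbelow _ (abs_lt.1 (hT φ)).1 (q1 hρpos ha hb)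
  have hhigh : ∀ φ, π ≤ φ → φ ≤ 3 * π / 2 →
      ((0 : AddCircle (1 : ℝ)), TN (pt ρ φ)) ∈ arc G (some ⟨(0, 0), hf0⟩) :=
    fun φ ha hb => habove _ (q3 hρpos ha hb) (abs_lt.1 (hT φ)).2
  have e1 : ω ((arcp g ρ 0 (π / 2)).map (ep g).continuous) = FreeGroup.of b0 := by
    rw [h4 b0 _ _ _ (hrange _ _ _ (by linarith) fun φ ha hb => hbox b0 φ hb0ang (hlow φ ha hb))]
    have hl : ep g (pol g (ρ, 0)) ∉ bxr G η b0 := by
      rw [ep_pol]
      have h := q4 hρpos hρ1 (by linarith : 3 * π / 2 ≤ 2 * π) le_rfl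
      have h' : pt ρ 0 = pt ρ (2 * π) := by
        unfold pt
        congr 2
        simp
      rw [h']
      exact hleft b0 _ hb0ang h
    have hr : ep g (pol g (ρ, π / 2)) ∈ bxr G η b0 := by
      rw [ep_pol]
      exact hright b0 _ hb0ang (hlow _ (by linarith) le_rfl)
        (q2 hρpos hρ1 le_rfl (by linarith))
    rw [sig, sig, if_neg hl, if_pos hr, inv_one, one_mul]
  have e3 : ω ((arcp g ρ π (3 * π / 2)).map (ep g).continuous) =
      (FreeGroup.of (some ⟨(0, 0), hf0⟩))⁻¹ := by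
    rw [h4 (some ⟨(0, 0), hf0⟩) _ _ _ (hrange _ _ _ (by linarith) fun φ ha hb =>
      hbox (some ⟨(0, 0), hf0⟩) φ rfl (hhigh φ ha hb))]
    have hl : ep g (pol g (ρ, 3 * π / 2)) ∉ bxr G η (some ⟨(0, 0), hf0⟩) := by
      rw [ep_pol]
      exact hleft _ _ rfl (q4 hρpos hρ1 le_rfl (by linarith))
    have hr : ep g (pol g (ρ, π)) ∈ bxr G η (some ⟨(0, 0), hf0⟩) := by
      rw [ep_pol]
      exact hright _ _ rfl (hhigh _ le_rfl (by linarith)) (q2 hρpos hρ1 (by linarith) le_rfl)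
    rw [sig, sig, if_neg hl, if_pos hr, mul_one]
  rw [e1, e2, e3, e4, mul_one, mul_one]

lemma om_mu_zpow (hMu : MuStmt) {F : Set Qd} {A : Type} (W : Wd F A) {g : SL} {ρ ρ0 : ℝ}
    {v : FreeGroup A} (hρ0 : 0 < ρ0) (hW : ∀ ρ, Small F g ρ → ρ ≤ ρ0 → W.om (mu g ρ 1) = v)
    (hS : Small F g ρ) :
    (∀ (k : ℤ) (t : unitInterval), mu g ρ k t ∈ Fᶜ) ∧
      ∃ d : FreeGroup A, ∀ k : ℤ, W.om (mu g ρ k) = d * v ^ k * d⁻¹ := by
  obtain ⟨hMu1, -, hMu3, -⟩ := hMu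
  have hρ' : 0 < min ρ ρ0 := lt_min hS.1 hρ0
  obtain ⟨hS', δ, hδ⟩ := hMu1 F g ρ (min ρ ρ0) 1 hS hρ' (min_le_left _ _)
  have hδm : ∀ t, δ t ∈ Fᶜ := mem_of_cjp_left hδ.right_mem
  have hm' : ∀ t, mu g (min ρ ρ0) 1 t ∈ Fᶜ := mem_of_cjp_right hδ.right_mem
  have hmm : ∀ t, mu g ρ 1 t ∈ Fᶜ := hδ.left_mem
  have e1 : W.om (mu g ρ 1) = W.om δ * v * (W.om δ)⁻¹ := by
    rw [← hW _ hS' (min_le_right _ _), ← W.om_cjp hδm hm']
    exact (W.iff _ _ hmm (mem_cjp hδm hm')).1 hδ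
  have hk : ∀ (k : ℤ) (t : unitInterval), mu g ρ k t ∈ Fᶜ := fun k =>
    (hMu3 F g ρ 0 k hS).2.left_mem
  refine ⟨hk, W.om δ, fun k => ?_⟩
  have e2 : W.om (mu g ρ k) = (W.om (mu g ρ 1)) ^ k := by
    rw [← W.om_pw hmm]
    exact (W.iff _ _ (hk k) (mem_pw hmm k)).1 (hMu3 F g ρ 0 k hS).2
  rw [e2, e1, conj_zpow]

lemma zpow_ne_one {A : Type} {a b : A} (hab : a ≠ b) {k : ℤ} (hk : k ≠ 0) :
    (FreeGroup.of a * (FreeGroup.of b)⁻¹) ^ k ≠ 1 := by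
  classical
  intro h
  set f : FreeGroup A →* Multiplicative ℤ := FreeGroup.lift
    (fun c => if c = a then Multiplicative.ofAdd (1 : ℤ) else 1) with hf
  have ha : f (FreeGroup.of a) = Multiplicative.ofAdd (1 : ℤ) := by
    rw [hf, FreeGroup.lift_apply_of, if_pos rfl]
  have hb : f (FreeGroup.of b) = 1 := by
    rw [hf, FreeGroup.lift_apply_of, if_neg hab.symm]
  have h1 : f ((FreeGroup.of a * (FreeGroup.of b)⁻¹) ^ k) = Multiplicative.ofAdd (1 : ℤ) ^ k := by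
    rw [map_zpow, map_mul, map_inv, ha, hb, inv_one, mul_one]
  rw [h, map_one, ← ofAdd_zsmul] at h1
  have h2 : 0 = k • (1 : ℤ) := h1
  rw [smul_eq_mul, mul_one] at h2
  exact hk h2.symm

end P4

open P4

theorem p4a (hC : CylStmt) (hFG : FG1Stmt) (hR : RetrStmt) : P4aStmt := by
  intro P hP x u v huv
  obtain ⟨Ru, hu⟩ := path_bound u
  obtain ⟨Rv, hv⟩ := path_bound v
  obtain ⟨R, hR0, hRp, hRP, hfin⟩ := exists_R hP (max Ru Rv)
  obtain ⟨A, ⟨W⟩⟩ := exists_wd hC hfin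
  have hsub : Pᶜ ⊆ (P ∩ {N | |TN N| < R})ᶜ := compl_subset_compl.2 inter_subset_left
  have huP : ∀ t, u t ∈ (P ∩ {N | |TN N| < R})ᶜ := fun t => hsub (mem_trans_left huv.left_mem t)
  have hvP : ∀ t, v t ∈ (P ∩ {N | |TN N| < R})ᶜ := fun t => hsub (mem_trans_left huv.right_mem t)
  have hxP : x ∈ (P ∩ {N | |TN N| < R})ᶜ := by simpa using huP 0
  have huR : ∀ t, u t ∈ {N | |TN N| < R} := fun t =>
    ((hu t).trans (le_max_left _ _)).trans_lt hR0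
  have hvR : ∀ t, v t ∈ {N | |TN N| < R} := fun t =>
    ((hv t).trans (le_max_right _ _)).trans_lt hR0
  have hcomm : Commute (W.om u) (W.om v) := by
    have := (W.iff _ _ (mem_trans huP hvP) (mem_trans hvP huP)).1 (huv.mono hsub)
    rwa [W.mul _ _ huP hvP, W.mul _ _ hvP huP] at this
  obtain ⟨m, n, hmn, h1⟩ := hFG A _ _ hcomm
  refine ⟨m, n, hmn, ?_⟩
  refine (hR P R hRp hRP).1 _ _ _ _ ?_ ?_ ?_
  · exact mem_trans (mem_pw huR m) (mem_pw hvR n)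
  · intro t
    have : x ∈ {N | |TN N| < R} := by simpa using huR 0
    exact this
  · rw [W.iff _ _ (mem_trans (mem_pw huP m) (mem_pw hvP n)) (mem_refl hxP),
      W.mul _ _ (mem_pw huP m) (mem_pw hvP n), W.om_pw huP, W.om_pw hvP, h1, W.om_refl hxP]

theorem p4b (hC : CylSStmt) (hFG : FG2Stmt) (hMu : MuStmt) (hR : RetrStmt) : P4bStmt := by
  intro P hP g ρ hg hS k b hk hcomm
  obtain ⟨Rb, hb⟩ := path_bound b
  obtain ⟨Rm, hm⟩ := path_bound (mu g ρ 1)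
  obtain ⟨R, hR0, hRp, hRP, hfin⟩ := exists_R hP (max (max Rb Rm) |TN (dq g)|)
  have hsub : Pᶜ ⊆ (P ∩ {N | |TN N| < R})ᶜ := compl_subset_compl.2 inter_subset_left
  have hgF : dq g ∈ P ∩ {N | |TN N| < R} := ⟨hg, (le_max_right _ _).trans_lt hR0⟩
  have hSF : Small (P ∩ {N | |TN N| < R}) g ρ :=
    ⟨hS.1, hS.2.1, fun w hw hw' h => hS.2.2 w hw hw' h.1⟩
  have hbR : ∀ t, b t ∈ {N | |TN N| < R} := fun t =>
    (((hb t).trans (le_max_left _ _)).trans (le_max_left _ _)).trans_lt hR0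
  have hmR : ∀ t, mu g ρ 1 t ∈ {N | |TN N| < R} := fun t =>
    (((hm t).trans (le_max_right _ _)).trans (le_max_left _ _)).trans_lt hR0
  obtain ⟨A, W, a, c, ρ0, hac, hρ0, hW⟩ := om_mu hC g hfin hgF
  obtain ⟨hkm, d, hd⟩ := om_mu_zpow hMu W hρ0 hW hSF
  have hbm : ∀ t, b t ∈ (P ∩ {N | |TN N| < R})ᶜ := fun t =>
    hsub (mem_trans_left hcomm.left_mem t)
  have e3 : Commute (W.om b) (W.om (mu g ρ k)) := by
    have := (W.iff _ _ (mem_trans hbm (hkm k)) (mem_trans (hkm k) hbm)).1 (hcomm.mono hsub)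
    rwa [W.mul _ _ hbm (hkm k), W.mul _ _ (hkm k) hbm] at this
  have e4 : Commute (d⁻¹ * W.om b * d) ((FreeGroup.of a * (FreeGroup.of c)⁻¹) ^ k) := by
    rw [hd k] at e3
    have e3' := e3.eq
    show d⁻¹ * W.om b * d * (FreeGroup.of a * (FreeGroup.of c)⁻¹) ^ k =
      (FreeGroup.of a * (FreeGroup.of c)⁻¹) ^ k * (d⁻¹ * W.om b * d)
    calc _ = d⁻¹ * (W.om b * (d * (FreeGroup.of a * (FreeGroup.of c)⁻¹) ^ k * d⁻¹)) * d := by
          group
      _ = _ := by rw [e3']; group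
  obtain ⟨i, hi⟩ := hFG A a c k _ hac hk e4
  refine ⟨i, ?_⟩
  have e5 : W.om b = W.om (mu g ρ i) := by
    rw [hd i, ← hi]
    group
  have e6 : HomIn (P ∩ {N | |TN N| < R})ᶜ b (pw (mu g ρ 1) i) :=
    ((W.iff _ _ hbm (hkm i)).2 e5).trans (hMu.2.2.1 _ g ρ 0 i hSF).2
  have e7 : HomIn Pᶜ b (pw (mu g ρ 1) i) :=
    (hR P R hRp hRP).1 _ _ _ _ hbR (mem_pw hmR i) e6
  exact e7.trans (hMu.2.2.1 P g ρ 0 i hS).2.symm

theorem p4c (hC : CylSStmt) (hMu : MuStmt) : P4cStmt := by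
  intro P g g' ρ ρ' k k' hg hg' hS hS' hk hfree
  by_contra hne
  have hsub : Pᶜ ⊆ ({dq g} : Set Qd)ᶜ := compl_subset_compl.2 (singleton_subset_iff.2 hg)
  have hSF : Small {dq g} g ρ := ⟨hS.1, hS.2.1, fun w hw hw' h => hS.2.2 w hw hw' (by
    rw [mem_singleton_iff.1 h]; exact hg)⟩
  obtain ⟨A, W, a, c, ρ0, hac, hρ0, hW⟩ := om_mu hC g (finite_singleton _) (mem_singleton _)
  obtain ⟨hkm, d, hd⟩ := om_mu_zpow hMu W hρ0 hW hSF
  have h1 : HomIn ({dq g} : Set Qd)ᶜ (mu g' ρ' k') (Path.refl _) := by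
    refine hMu.2.1 _ g' ρ' k' hS'.1 fun w hw h => ?_
    by_cases hw0 : w = 0
    · subst hw0
      rw [y_zero, mul_one] at h
      exact hne (mem_singleton_iff.1 h).symm
    · exact hS'.2.2 w hw0 hw (by rw [mem_singleton_iff.1 h]; exact hg)
  have h2 : HomIn ({dq g} : Set Qd)ᶜ (mu g ρ k) (Path.refl _) :=
    (hfree.mono hsub).symm.refl_of h1
  have h3 : W.om (mu g ρ k) = 1 := by
    have hx : dq (g * y ρ) ∈ ({dq g} : Set Qd)ᶜ := by simpa using hkm k 0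
    rw [← W.om_refl hx]
    exact (W.iff _ _ (hkm k) (mem_refl hx)).1 h2
  rw [hd k] at h3
  have h4 : (FreeGroup.of a * (FreeGroup.of c)⁻¹) ^ k = 1 := by
    have : (FreeGroup.of a * (FreeGroup.of c)⁻¹) ^ k =
        d⁻¹ * (d * (FreeGroup.of a * (FreeGroup.of c)⁻¹) ^ k * d⁻¹) * d := by group
    rw [this, h3]
    group
  exact zpow_ne_one hac hk h4

end AdT
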