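import Pool.Agent.Helper88.AdT.P5A

/-!
AT-5, part 4: the statement P5c.
-/

open Matrix Real Topology Filter Set

noncomputable section

namespace AdT

namespace P5

open MuRetr

section Words

variable (D : CD F0) {x y : Cyl}

lemma word1 {γ : Path x y} (hγ : ∀ t, γ t ∈ F0ᶜ) (h : ∀ t, (γ t).1 ≠ 0) :
    D.ω γ ∈ Subgroup.closure
      {(FreeGroup.of (some fm) : FreeGroup (Option F0)), FreeGroup.of (some fp)} := by
  have h1 := D.avoid {none} _ _ γ (range_of_mem hγ) (by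
    intro α hα
    rw [mem_singleton_iff] at hα
    subst hα
    rw [Set.disjoint_left]
    rintro _ ⟨t, rfl⟩ ht
    exact h t ((arc_none0 _).1 ht))
  refine Subgroup.closure_mono ?_ h1
  rintro _ ⟨α, hα, rfl⟩
  rcases opt_cases α with rfl | rfl | rfl
  · exact absurd rfl hα
  · exact Or.inl rfl
  · exact Or.inr rfl

/-- the right half -/
def Hr : Set Cyl := {y | ∃ s ∈ Ioo (0 : ℝ) (1 / 2), y.1 = (s : AddCircle (1 : ℝ))}

/-- the left half -/
def Hl : Set Cyl := {y | ∃ s ∈ Ioo (-(1 / 2) : ℝ) 0, y.1 = (s : AddCircle (1 : ℝ))}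

lemma open_angle {I : Set ℝ} (hI : IsOpen I) :
    IsOpen {y : Cyl | ∃ s ∈ I, y.1 = (s : AddCircle (1 : ℝ))} := by
  have h1 : IsOpen ((fun s : ℝ => (s : AddCircle (1 : ℝ))) '' I) :=
    QuotientAddGroup.isOpenMap_coe I hI
  have h2 : {y : Cyl | ∃ s ∈ I, y.1 = (s : AddCircle (1 : ℝ))} =
      Prod.fst ⁻¹' ((fun s : ℝ => (s : AddCircle (1 : ℝ))) '' I) := by
    ext y
    constructor
    · rintro ⟨s, hs, h⟩
      exact ⟨s, hs, h.symm⟩
    · rintro ⟨s, hs, h⟩
      exact ⟨s, hs, h.symm⟩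
  rw [h2]
  exact h1.preimage continuous_fst

lemma Hr_or_Hl {y : Cyl} (h0 : y.1 ≠ 0) (h2 : y.1 ≠ ((1 / 2 : ℝ) : AddCircle (1 : ℝ))) :
    y ∈ Hr ∪ Hl := by
  have h := CylSys.rc_mem (-(1 / 2)) y.1
  have hc := CylSys.coe_rc (-(1 / 2)) y.1
  set r := CylSys.rc (-(1 / 2)) y.1
  obtain ⟨ha, hb⟩ := h
  rcases lt_trichotomy r 0 with h1 | h1 | h1
  · right
    refine ⟨r, ⟨lt_of_le_of_ne ha ?_, h1⟩, hc.symm⟩
    intro he
    apply h2
    rw [← hc, ← he]
    have e : ((1 / 2 : ℝ) : AddCircle (1 : ℝ)) =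
        ((-(1 / 2) + 1 : ℝ) : AddCircle (1 : ℝ)) := by
      congr 1
      norm_num
    rw [e, AddCircle.coe_add, AddCircle.coe_period, add_zero]
  · exfalso
    apply h0
    rw [← hc, h1]
    simp
  · left
    exact ⟨r, ⟨h1, by linarith⟩, hc.symm⟩

lemma Hr_Hl : Disjoint Hr Hl := by
  rw [Set.disjoint_left]
  rintro y ⟨s, hs, h⟩ ⟨s', hs', h'⟩
  exact coe_ne (by linarith [hs.1, hs'.2]) (by
    rw [abs_lt]; constructor <;> linarith [hs.1, hs.2, hs'.1, hs'.2]) (h.symm.trans h')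

lemma Hr_iff {y : Cyl} {s : ℝ} (hs : |s| < 1 / 2) (h : y.1 = (s : AddCircle (1 : ℝ))) :
    y ∈ Hr ↔ 0 < s := by
  have h1 := abs_lt.1 hs
  constructor
  · rintro ⟨s', hs', h'⟩
    by_contra hc
    push Not at hc
    exact coe_ne (s := s') (s' := s) (by linarith [hs'.1]) (by
      rw [abs_lt]; constructor <;> linarith [hs'.1, hs'.2]) (h'.symm.trans h)
  · intro h0
    exact ⟨s, ⟨h0, h1.2⟩, h⟩

/-- gauge -/
def gz (y : Cyl) : FreeGroup (Option F0) :=
  open Classical in if y ∈ Hr then FreeGroup.of none else 1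

lemma gz_pos {y : Cyl} (h : y ∈ Hr) : gz y = FreeGroup.of none := if_pos h
lemma gz_neg {y : Cyl} (h : y ∉ Hr) : gz y = 1 := if_neg h

lemma sig_pos {Y A : Type} {W : A → Set Y} {α : A} {y : Y} (h : y ∈ W α) :
    sig W α y = FreeGroup.of α := if_pos h
lemma sig_neg {Y A : Type} {W : A → Set Y} {α : A} {y : Y} (h : y ∉ W α) :
    sig W α y = 1 := if_neg h

lemma sig_cases {Y A : Type} (W : A → Set Y) (α : A) (y : Y) :
    sig W α y = FreeGroup.of α ∨ sig W α y = 1 := by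
  by_cases h : y ∈ W α
  · exact Or.inl (sig_pos h)
  · exact Or.inr (sig_neg h)

/-- the subgroup of the words avoiding the opposite line -/
def H2 : Subgroup (FreeGroup (Option F0)) := Subgroup.closure
  {(FreeGroup.of (some fm) : FreeGroup (Option F0)),
    FreeGroup.of none * FreeGroup.of (some fp) * (FreeGroup.of none)⁻¹}

lemma H2_x : (FreeGroup.of (some fm) : FreeGroup (Option F0)) ∈ H2 :=
  Subgroup.subset_closure (Or.inl rfl)

lemma H2_y : (FreeGroup.of none * FreeGroup.of (some fp) * (FreeGroup.of none)⁻¹ :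
    FreeGroup (Option F0)) ∈ H2 := Subgroup.subset_closure (Or.inr rfl)

lemma word2_box (α : Option F0) {a b : Cyl} (p : Path a b)
    (hp : ∀ t, p t ∈ bx F0 (min D.η (1 / 8)) α) : gz a * D.ω p * (gz b)⁻¹ ∈ H2 := by
  have hη := D.pos
  have hη2 := D.lt
  have hsub : range p ⊆ bx F0 D.η α := by
    rintro _ ⟨t, rfl⟩
    obtain ⟨⟨s, hs, h1⟩, h2⟩ := hp t
    exact ⟨⟨s, lt_of_lt_of_le hs (min_le_left _ _), h1⟩, h2⟩
  rw [D.box α _ _ p hsub]
  have ha : a ∈ bx F0 (min D.η (1 / 8)) α := by simpa using hp 0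
  have hb : b ∈ bx F0 (min D.η (1 / 8)) α := by simpa using hp 1
  rcases opt_cases α with rfl | rfl | rfl
  · have key : ∀ {y : Cyl}, y ∈ bx F0 (min D.η (1 / 8)) none →
        gz y = sig (bxr F0 D.η) none y := by
      rintro y ⟨⟨s, hs, h1⟩, h2⟩
      have hs1 : |s| < D.η := lt_of_lt_of_le hs (min_le_left _ _)
      have hs2 : |s| < 1 / 2 := by linarith
      have h1' : y.1 = (s : AddCircle (1 : ℝ)) := by
        rw [h1]
        show (0 : AddCircle (1 : ℝ)) + _ = _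
        rw [zero_add]
      by_cases h0 : 0 < s
      · rw [gz_pos ((Hr_iff hs2 h1').2 h0), sig_pos]
        exact ⟨⟨s, h0, (abs_lt.1 hs1).2, h1⟩, h2⟩
      · rw [gz_neg (fun h => h0 ((Hr_iff hs2 h1').1 h)), sig_neg]
        rintro ⟨⟨s', hs', hs'', h3⟩, -⟩
        have e := CylSys.coe_inj_small (h3.symm.trans h1) (by
          rw [abs_lt]; constructor <;> linarith [(abs_lt.1 hs1).1])
        linarith
    rw [key ha, key hb]
    have : sig (bxr F0 D.η) none a * ((sig (bxr F0 D.η) none a)⁻¹ * sig (bxr F0 D.η) none b) *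
        (sig (bxr F0 D.η) none b)⁻¹ = 1 := by group
    rw [this]
    exact H2.one_mem
  · have key : ∀ {y : Cyl}, y ∈ bx F0 (min D.η (1 / 8)) (some fm) → gz y = 1 := by
      rintro y ⟨⟨s, hs, h1⟩, h2⟩
      have hs1 : |s| < 1 / 8 := lt_of_lt_of_le hs (min_le_right _ _)
      have hs2 := abs_lt.1 hs1
      have h1' : y.1 = ((-(1 / 4) + s : ℝ) : AddCircle (1 : ℝ)) := by
        rw [h1, AddCircle.coe_add]
        rfl
      apply gz_neg
      rw [Hr_iff (by rw [abs_lt]; constructor <;> linarith) h1']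
      linarith
    rw [key ha, key hb, one_mul, inv_one, mul_one]
    have h3 : ∀ y, sig (bxr F0 D.η) (some fm) y ∈ H2 := by
      intro y
      rcases sig_cases (bxr F0 D.η) (some fm) y with h | h
      · rw [h]; exact H2_x
      · rw [h]; exact H2.one_mem
    exact H2.mul_mem (H2.inv_mem (h3 a)) (h3 b)
  · have key : ∀ {y : Cyl}, y ∈ bx F0 (min D.η (1 / 8)) (some fp) →
        gz y = FreeGroup.of none := by
      rintro y ⟨⟨s, hs, h1⟩, h2⟩
      have hs1 : |s| < 1 / 8 := lt_of_lt_of_le hs (min_le_right _ _)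
      have hs2 := abs_lt.1 hs1
      have h1' : y.1 = ((1 / 4 + s : ℝ) : AddCircle (1 : ℝ)) := by
        rw [h1, AddCircle.coe_add]
        rfl
      apply gz_pos
      rw [Hr_iff (by rw [abs_lt]; constructor <;> linarith) h1']
      linarith
    rw [key ha, key hb]
    have h3 : ∀ y, FreeGroup.of none * sig (bxr F0 D.η) (some fp) y * (FreeGroup.of none)⁻¹
        ∈ H2 := by
      intro y
      rcases sig_cases (bxr F0 D.η) (some fp) y with h | h
      · rw [h]; exact H2_y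
      · rw [h, mul_one, mul_inv_cancel]; exact H2.one_mem
    have h4 := H2.mul_mem (H2.inv_mem (h3 a)) (h3 b)
    convert h4 using 1
    group

lemma word2 {γ : Path x y} (hγ : ∀ t, γ t ∈ F0ᶜ)
    (h : ∀ t, (γ t).1 ≠ ((1 / 2 : ℝ) : AddCircle (1 : ℝ))) :
    gz x * D.ω γ * (gz y)⁻¹ ∈ H2 := by
  have hη : 0 < min D.η (1 / 8) := lt_min D.pos (by norm_num)
  have hL : IsOpen {y : Cyl | y.1 ≠ ((1 / 2 : ℝ) : AddCircle (1 : ℝ))} :=
    isOpen_ne_fun continuous_fst continuous_const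
  let O : Option (Option F0) → Set Cyl := fun i => match i with
    | none => cut0 F0 ∩ {y : Cyl | y.1 ≠ ((1 / 2 : ℝ) : AddCircle (1 : ℝ))}
    | some α => bx F0 (min D.η (1 / 8)) α
  refine D.subdiv gz H2 O ?_ ?_ γ hγ ?_
  · intro i
    rcases i with _ | α
    · exact (CylSys.cut0_open F0_finite).inter hL
    · show IsOpen (bx F0 _ α)
      rw [CylSys.bx_eq]
      exact CylSys.B_open F0_finite α isOpen_Ioo
  · intro i a b p hp hpO
    rcases i with _ | α
    · have h1 : ∀ t, p t ∈ cut0 F0 := fun t => (hpO t).1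
      have h2 : ∀ t, (p t).1 ≠ ((1 / 2 : ℝ) : AddCircle (1 : ℝ)) := fun t => (hpO t).2
      rw [D.cut _ _ p (range_of_mem h1), mul_one]
      have h3 : range p ⊆ Hr ∪ Hl := by
        rintro _ ⟨t, rfl⟩
        refine Hr_or_Hl (fun h0 => ?_) (h2 t)
        exact (h1 t).2 none ((arc_none0 _).2 h0)
      have ha : a ∈ range p := ⟨0, p.source⟩
      have hb : b ∈ range p := ⟨1, p.target⟩
      have e : gz a = gz b := by
        rcases IsPreconnected.subset_or_subset (open_angle isOpen_Ioo) (open_angle isOpen_Ioo)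
          Hr_Hl h3 (isPreconnected_range p.continuous) with hs | hs
        · rw [gz_pos (hs ha), gz_pos (hs hb)]
        · rw [gz_neg (fun h => Set.disjoint_left.1 Hr_Hl h (hs ha)),
            gz_neg (fun h => Set.disjoint_left.1 Hr_Hl h (hs hb))]
      rw [e, mul_inv_cancel]
      exact H2.one_mem
    · exact word2_box D α p hpO
  · intro t
    by_cases hc : γ t ∈ cut0 F0
    · exact ⟨none, hc, h t⟩
    · have : ∃ α, γ t ∈ arc F0 α := by
        by_contra hne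
        push Not at hne
        exact hc ⟨hγ t, hne⟩
      obtain ⟨α, hα⟩ := this
      refine ⟨some α, ?_⟩
      show γ t ∈ bx F0 _ α
      rw [CylSys.bx_eq]
      exact CylSys.arc_B ⟨by linarith, hη⟩ hα

/-! ### small loops -/

lemma sub01 {F : Set Cyl} (D : CD F) (γ : Path x y) : D.ω (γ.subpath 0 1) = D.ω γ := by
  have h7 : ∀ (x' y' : Cyl) (hx : x' = x) (hy : y' = y), D.ω (γ.cast hx hy) = D.ω γ := by
    rintro x' y' rfl rfl
    rfl
  rw [Path.subpath_zero_one]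
  exact h7 _ _ _ _

lemma subpath_prop {γ : Path x y} {Q : Cyl → Prop} {s₀ s₁ : unitInterval} (hs : s₀ ≤ s₁)
    (h : ∀ t ∈ Icc s₀ s₁, Q (γ t)) : ∀ t, Q (γ.subpath s₀ s₁ t) := by
  intro t
  have h2 : γ.subpath s₀ s₁ t ∈ range (γ.subpath s₀ s₁) := ⟨t, rfl⟩
  rw [Path.range_subpath_of_le _ _ _ hs] at h2
  obtain ⟨r, hr, hr'⟩ := h2
  rw [← hr']
  exact h r hr

/-- crossing word of a loop which winds once around a puncture -/
lemma loop_word (f : F0) {p : Cyl} (γ : Path p p) (U V : unitInterval → ℝ)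
    (h1 : ∀ t, γ t = (f.1.1 + (U t : AddCircle (1 : ℝ)), V t)) (h2 : ∀ t, |U t| < D.η)
    (h2' : ∀ t, |U t| < 1 / 4) (h3 : ∀ t, U t = 0 → V t ≠ 0)
    (h4 : ∀ t : unitInterval, (t : ℝ) ≤ 1 / 2 ∨ 3 / 4 ≤ (t : ℝ) → U t = 0 → ¬ 0 < V t)
    (h5 : ∀ t : unitInterval, 1 / 2 ≤ (t : ℝ) → (t : ℝ) ≤ 3 / 4 → 0 < V t)
    (h6 : ∀ t : unitInterval, (t : ℝ) = 1 / 2 → 0 < U t)
    (h7 : ∀ t : unitInterval, (t : ℝ) = 3 / 4 → U t < 0) :
    D.ω γ = (FreeGroup.of (some f))⁻¹ := by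
  have hη := D.lt
  have hF : ∀ t, γ t ∈ F0ᶜ := by
    intro t ht
    have ha : ang F0 (some ⟨γ t, ht⟩) = f.1.1 + (U t : AddCircle (1 : ℝ)) := by
      show (γ t).1 = _
      rw [h1]
    obtain ⟨-, h0⟩ := ang_far f _ (h2' t) ha
    have hs := f_snd ⟨γ t, ht⟩
    have hs' : (γ t).2 = 0 := hs
    rw [h1] at hs'
    exact h3 t h0 hs'
  have hcut : ∀ t : unitInterval, (t : ℝ) ≤ 1 / 2 ∨ 3 / 4 ≤ (t : ℝ) → γ t ∈ cut0 F0 := by
    intro t ht
    refine ⟨hF t, fun α hα => ?_⟩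
    have ha : ang F0 α = f.1.1 + (U t : AddCircle (1 : ℝ)) := by
      rw [← CylSys.arc_ang hα, h1]
    obtain ⟨rfl, h0⟩ := ang_far f _ (h2' t) ha
    rw [arc_some0, h1] at hα
    exact h4 t ht h0 hα.2
  have hbox : ∀ t : unitInterval, 1 / 2 ≤ (t : ℝ) → (t : ℝ) ≤ 3 / 4 →
      γ t ∈ bx F0 D.η (some f) := by
    intro t ht ht'
    refine ⟨⟨U t, h2 t, by rw [h1]; rfl⟩, ?_⟩
    rw [arc_some0]
    refine ⟨rfl, ?_⟩
    show 0 < (γ t).2
    rw [h1]
    exact h5 t ht ht'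
  let a : unitInterval := ⟨1 / 2, by norm_num, by norm_num⟩
  let b : unitInterval := ⟨3 / 4, by norm_num, by norm_num⟩
  have ha : (a : ℝ) = 1 / 2 := rfl
  have hb : (b : ℝ) = 3 / 4 := rfl
  have h0a : (0 : unitInterval) ≤ a := a.2.1
  have hab : a ≤ b := by
    show (1 / 2 : ℝ) ≤ 3 / 4
    norm_num
  have hb1 : b ≤ (1 : unitInterval) := b.2.2
  have hs : ∀ s₀ s₁ t, γ.subpath s₀ s₁ t ∈ F0ᶜ := fun _ _ _ => hF _
  have e1 := D.homEq (homIn_subpath γ hF 0 b 1)
  have e2 := D.homEq (homIn_subpath γ hF 0 a b)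
  rw [D.trans (hs _ _) (hs _ _), sub01] at e1
  rw [D.trans (hs _ _) (hs _ _)] at e2
  have w1 : D.ω (γ.subpath 0 a) = 1 := D.cut _ _ _ (range_of_mem
    (subpath_prop (Q := fun y => y ∈ cut0 F0) h0a
      (fun t ht => hcut t (Or.inl (by have : (t : ℝ) ≤ a := ht.2; rwa [ha] at this)))))
  have w3 : D.ω (γ.subpath b 1) = 1 := D.cut _ _ _ (range_of_mem
    (subpath_prop (Q := fun y => y ∈ cut0 F0) hb1
      (fun t ht => hcut t (Or.inr (by have : (b : ℝ) ≤ t := ht.1; rwa [hb] at this)))))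
  have w2 := D.box (some f) _ _ (γ.subpath a b) (range_of_mem
    (subpath_prop (Q := fun y => y ∈ bx F0 D.η (some f)) hab
      (fun t ht => hbox t (by have : (a : ℝ) ≤ t := ht.1; rwa [ha] at this)
        (by have : (t : ℝ) ≤ b := ht.2; rwa [hb] at this))))
  have sa : sig (bxr F0 D.η) (some f) (γ a) = FreeGroup.of (some f) := by
    apply sig_pos
    obtain ⟨-, hbx⟩ := hbox a ha.ge (by rw [ha]; norm_num)
    exact ⟨⟨U a, h6 a ha, (abs_lt.1 (h2 a)).2, by rw [h1]; rfl⟩, hbx⟩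
  have sb : sig (bxr F0 D.η) (some f) (γ b) = 1 := by
    apply sig_neg
    rintro ⟨⟨s, hs0, hs1, he⟩, -⟩
    rw [h1] at he
    have h8 := h7 b hb
    have e := CylSys.coe_inj_small (θ := f.1.1) (s := U b) (s' := s) he (by
      have := (abs_lt.1 (h2 b)).1
      rw [abs_lt]
      constructor <;> linarith)
    linarith
  rw [sa, sb, mul_one] at w2
  rw [← e1, ← e2, w1, w2, w3]
  simp

end Words

/-! ### coordinates of the small loops -/

lemma dqy (w : ℂ) : XN (dq (y w)) = 1 + 2 * w.re * w.im ∧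
    YN (dq (y w)) = w.im - w.re - w.re ^ 2 * w.im ∧
    TN (dq (y w)) = -(w.re + w.im + w.re ^ 2 * w.im) := by
  have h : (dq (y w)).1 = !![1 + w.re * w.im, w.re; w.im, 1] * !![1, 0; 0, -1] *
      !![1, -w.re; -w.im, 1 + w.re * w.im] := by
    show cj (y w) Dm = _
    rw [cj, inv_entries]
    simp [y, Dm, nm]
  simp only [XN, YN, TN]
  rw [h, Matrix.mul_fin_two, Matrix.mul_fin_two]
  refine ⟨?_, ?_, ?_⟩
  · simp
    ring
  · simp
    ring
  · simp
    ring

/-- angular coordinate -/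
def Uw (w : ℂ) : ℝ :=
  arctan ((w.im - w.re - w.re ^ 2 * w.im) / (1 + 2 * w.re * w.im)) / (2 * π)

/-- vertical coordinate -/
def Vw (w : ℂ) : ℝ := -(w.re + w.im + w.re ^ 2 * w.im)

lemma re_im_small {w : ℂ} (hw : ‖w‖ ≤ 1 / 8) : |w.re| ≤ 1 / 8 ∧ |w.im| ≤ 1 / 8 ∧
    0 < 1 + 2 * w.re * w.im := by
  have h1 := (Complex.abs_re_le_norm w).trans hw
  have h2 := (Complex.abs_im_le_norm w).trans hw
  refine ⟨h1, h2, ?_⟩
  have h3 : |w.re * w.im| ≤ 1 / 8 * (1 / 8) := by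
    rw [abs_mul]
    exact mul_le_mul h1 h2 (abs_nonneg _) (by norm_num)
  have := (abs_le.1 h3).1
  nlinarith

lemma Uw_abs (w : ℂ) : |Uw w| < 1 / 4 := by
  have h1 := Real.arctan_lt_pi_div_two ((w.im - w.re - w.re ^ 2 * w.im) / (1 + 2 * w.re * w.im))
  have h2 := Real.neg_pi_div_two_lt_arctan
    ((w.im - w.re - w.re ^ 2 * w.im) / (1 + 2 * w.re * w.im))
  have hp := Real.pi_pos
  rw [Uw, abs_lt]
  constructor
  · rw [lt_div_iff₀ (by positivity)]
    linarith
  · rw [div_lt_iff₀ (by positivity)]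
    linarith

lemma Uw_zero {w : ℂ} (hw : ‖w‖ ≤ 1 / 8) (h : Uw w = 0) :
    w.im - w.re - w.re ^ 2 * w.im = 0 := by
  have hX := (re_im_small hw).2.2
  have hp := Real.pi_pos
  rw [Uw, div_eq_zero_iff] at h
  have h1 := h.resolve_right (by positivity)
  rw [Real.arctan_eq_zero_iff, div_eq_zero_iff] at h1
  exact h1.resolve_right hX.ne'

lemma continuousAt_Uw : ContinuousAt Uw 0 := by
  unfold Uw
  apply ContinuousAt.div_const
  apply Real.continuous_arctan.continuousAt.comp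
  apply ContinuousAt.div
  · exact (by fun_prop : Continuous fun w : ℂ => w.im - w.re - w.re ^ 2 * w.im).continuousAt
  · exact (by fun_prop : Continuous fun w : ℂ => 1 + 2 * w.re * w.im).continuousAt
  · simp

/-- the two punctures with their frames -/
def gf (g : SL) (f : F0) : Prop := (g = 1 ∧ f = fm) ∨ (g = Jm ∧ f = fp)

lemma Psi0_mu {g : SL} {f : F0} (h : gf g f) {w : ℂ} (hw : ‖w‖ ≤ 1 / 8) :
    Psi0 (dq (g * y w)) = (f.1.1 + (Uw w : AddCircle (1 : ℝ)), Vw w) := by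
  obtain ⟨hX, hY, hT⟩ := dqy w
  have hpos := (re_im_small hw).2.2
  rcases h with ⟨rfl, rfl⟩ | ⟨rfl, rfl⟩
  · rw [one_mul]
    refine Prod.ext ?_ ?_
    · rw [Psi0_fst, Phi_pos (by rw [hX]; exact hpos), hX, hY, ← AddCircle.coe_sub]
      show _ = ((-(1 / 4) : ℝ) : AddCircle (1 : ℝ)) + (Uw w : AddCircle (1 : ℝ))
      rw [← AddCircle.coe_add, Uw]
      congr 1
      ring
    · rw [Psi0_snd, hT]
      rfl
  · rw [dq_mul]
    obtain ⟨jX, jY, jT⟩ := cqJ (dq (y w))
    refine Prod.ext ?_ ?_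
    · rw [Psi0_fst, Phi_neg (by rw [jX, hX]; linarith), jX, jY, neg_div_neg_eq, hX, hY,
        ← AddCircle.coe_sub]
      show _ = ((1 / 4 : ℝ) : AddCircle (1 : ℝ)) + (Uw w : AddCircle (1 : ℝ))
      rw [← AddCircle.coe_add, Uw]
      congr 1
      ring
    · rw [Psi0_snd, jT, hT]
      rfl

lemma LF_Pp : LF Pp := by
  intro R
  have : Pp.Finite := by simp [Pp]
  exact this.subset fun N hN => hN.1

lemma dq_one : dq 1 = Dq := cq_one Dq

lemma gf_mem {g : SL} {f : F0} (h : gf g f) : dq g ∈ Pp := by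
  rcases h with ⟨rfl, -⟩ | ⟨rfl, -⟩
  · rw [dq_one]
    exact Or.inl rfl
  · exact Or.inr rfl

/-- points of the circle of radius `ρ` -/
def wt (ρ θ : ℝ) : ℂ := ρ * Complex.exp (θ * Complex.I)

lemma wt_re (ρ θ : ℝ) : (wt ρ θ).re = ρ * cos θ := by
  rw [wt, Complex.re_ofReal_mul, Complex.exp_ofReal_mul_I_re]

lemma wt_im (ρ θ : ℝ) : (wt ρ θ).im = ρ * sin θ := by
  rw [wt, Complex.im_ofReal_mul, Complex.exp_ofReal_mul_I_im]

lemma wt_norm {ρ : ℝ} (hρ : 0 < ρ) (θ : ℝ) : ‖wt ρ θ‖ = ρ := by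
  rw [wt, norm_mul, Complex.norm_exp_ofReal_mul_I, mul_one, Complex.norm_real, Real.norm_eq_abs,
    abs_of_pos hρ]

lemma mu_word (D : CD F0) {g : SL} {f : F0} (h : gf g f) : ∃ ρ, Small Pp g ρ ∧
    D.ω ((mu g ρ 1).map Psi0.continuous) = (FreeGroup.of (some f))⁻¹ := by
  obtain ⟨m1, -, -, -, m5, -⟩ := muStmt
  obtain ⟨ρ₀, hρ₀⟩ := m5 Pp g LF_Pp (gf_mem h)
  have hU0 : Uw 0 = 0 := by simp [Uw]
  have hev : ∀ᶠ w : ℂ in 𝓝 0, |Uw w| < D.η := by
    have h1 := continuousAt_Uw.abs.tendsto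
    rw [hU0, abs_zero] at h1
    exact h1.eventually (gt_mem_nhds D.pos)
  obtain ⟨δ, hδ, hball⟩ := Metric.eventually_nhds_iff.1 hev
  let ρ := min ρ₀ (min (1 / 8) (δ / 2))
  have hρ : 0 < ρ := lt_min hρ₀.1 (lt_min (by norm_num) (by linarith))
  have hρ8 : ρ ≤ 1 / 8 := (min_le_right _ _).trans (min_le_left _ _)
  have hρδ : ρ < δ := lt_of_le_of_lt ((min_le_right _ _).trans (min_le_right _ _)) (by linarith)
  have hsm : Small Pp g ρ := (m1 Pp g ρ₀ ρ 1 hρ₀ hρ (min_le_left _ _)).1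
  refine ⟨ρ, hsm, ?_⟩
  have hmu : ∀ t : unitInterval, mu g ρ 1 t = dq (g * y (wt ρ (2 * π * t))) := by
    intro t
    rw [mu_pol]
    show dq (g * y _) = _
    rw [wt]
    simp
  have hwn : ∀ t : unitInterval, ‖wt ρ (2 * π * t)‖ ≤ 1 / 8 := fun t => by
    rw [wt_norm hρ]; exact hρ8
  have hsq : ∀ t : unitInterval, (wt ρ (2 * π * t)).re ^ 2 + (wt ρ (2 * π * t)).im ^ 2 = ρ ^ 2 := by
    intro t
    rw [wt_re, wt_im]
    have := Real.cos_sq_add_sin_sq (2 * π * t)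
    linear_combination ρ ^ 2 * this
  have hp := Real.pi_pos
  refine loop_word D f _ (fun t => Uw (wt ρ (2 * π * t))) (fun t => Vw (wt ρ (2 * π * t)))
    ?_ ?_ ?_ ?_ ?_ ?_ ?_ ?_
  · intro t
    show Psi0 (mu g ρ 1 t) = _
    rw [hmu, Psi0_mu h (hwn t)]
  · intro t
    apply hball
    rw [dist_zero_right, wt_norm hρ]
    exact hρδ
  · intro t
    exact Uw_abs _
  · intro t hU hV
    have h1 := Uw_zero (hwn t) hU
    have h2 := hsq t
    rw [Vw] at hV
    have h3 : (wt ρ (2 * π * t)).im = 0 := by linarith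
    rw [h3] at h1 h2
    have h4 : (wt ρ (2 * π * t)).re = 0 := by linarith
    rw [h4] at h2
    have : 0 < ρ ^ 2 := by positivity
    linarith
  · intro t ht hU hV
    have h1 := Uw_zero (hwn t) hU
    rw [Vw] at hV
    obtain ⟨h2, h3, -⟩ := re_im_small (hwn t)
    have h4 : 0 < 1 - (wt ρ (2 * π * t)).re ^ 2 := by
      have h5 : (wt ρ (2 * π * t)).re ^ 2 ≤ (1 / 8) ^ 2 := by
        rw [← sq_abs]
        exact pow_le_pow_left₀ (abs_nonneg _) h2 2
      nlinarith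
    have h6 : (wt ρ (2 * π * t)).im * (1 - (wt ρ (2 * π * t)).re ^ 2) =
        (wt ρ (2 * π * t)).re := by linarith
    rcases ht with ht | ht
    · have him : 0 ≤ (wt ρ (2 * π * t)).im := by
        rw [wt_im]
        apply mul_nonneg hρ.le
        apply Real.sin_nonneg_of_nonneg_of_le_pi
        · have := t.2.1
          positivity
        · nlinarith
      have hre : 0 ≤ (wt ρ (2 * π * t)).re := by
        rw [← h6]
        exact mul_nonneg him h4.le
      have : 0 ≤ (wt ρ (2 * π * t)).re ^ 2 * (wt ρ (2 * π * t)).im := by positivity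
      linarith
    · have e : (2 * π * t : ℝ) = (2 * π * t - 2 * π) + 2 * π := by ring
      have t1 := t.2.2
      have hre : 0 ≤ (wt ρ (2 * π * t)).re := by
        rw [wt_re, e, Real.cos_add_two_pi]
        apply mul_nonneg hρ.le
        apply Real.cos_nonneg_of_neg_pi_div_two_le_of_le
        · nlinarith
        · nlinarith
      have him : (wt ρ (2 * π * t)).im ≤ 0 := by
        rw [wt_im, e, Real.sin_add_two_pi]
        apply mul_nonpos_of_nonneg_of_nonpos hρ.le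
        apply Real.sin_nonpos_of_nonpos_of_neg_pi_le
        · nlinarith
        · nlinarith
      have h7 : (wt ρ (2 * π * t)).im * (1 - (wt ρ (2 * π * t)).re ^ 2) ≤ 0 :=
        mul_nonpos_of_nonpos_of_nonneg him h4.le
      have h8 : (wt ρ (2 * π * t)).re = 0 := le_antisymm (by linarith) hre
      rw [h8] at h1 hV
      have h9 : (wt ρ (2 * π * t)).im = 0 := by linarith
      rw [h9] at hV
      simp at hV
  · intro t ht ht'
    show 0 < Vw _
    have e : (2 * π * t : ℝ) = (2 * π * t - π) + π := by ring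
    have hre : (wt ρ (2 * π * t)).re ≤ 0 := by
      rw [wt_re, e, Real.cos_add_pi]
      have : 0 ≤ cos (2 * π * t - π) := by
        apply Real.cos_nonneg_of_neg_pi_div_two_le_of_le
        · nlinarith
        · nlinarith
      nlinarith
    have him : (wt ρ (2 * π * t)).im ≤ 0 := by
      rw [wt_im, e, Real.sin_add_pi]
      have : 0 ≤ sin (2 * π * t - π) := by
        apply Real.sin_nonneg_of_nonneg_of_le_pi
        · nlinarith
        · nlinarith
      nlinarith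
    have h1 : (wt ρ (2 * π * t)).re ^ 2 * (wt ρ (2 * π * t)).im ≤ 0 :=
      mul_nonpos_of_nonneg_of_nonpos (sq_nonneg _) him
    have h2 := hsq t
    have h3 : 0 < ρ ^ 2 := by positivity
    rw [Vw]
    by_contra hc
    push Not at hc
    have h4 : (wt ρ (2 * π * t)).re = 0 := by linarith
    have h5 : (wt ρ (2 * π * t)).im = 0 := by linarith
    rw [h4, h5] at h2
    linarith
  · intro t ht
    show 0 < Uw _
    have e : (2 * π * t : ℝ) = π := by rw [ht]; ring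
    rw [e, Uw, wt_re, wt_im, Real.cos_pi, Real.sin_pi]
    have : 0 < arctan ((ρ * 0 - ρ * -1 - (ρ * -1) ^ 2 * (ρ * 0)) /
        (1 + 2 * (ρ * -1) * (ρ * 0))) := by
      rw [Real.arctan_pos]
      simp
      exact hρ
    positivity
  · intro t ht
    show Uw _ < 0
    have e : (2 * π * t : ℝ) = π / 2 + π := by rw [ht]; ring
    rw [e, Uw, wt_re, wt_im, Real.cos_add_pi, Real.sin_add_pi, Real.cos_pi_div_two,
      Real.sin_pi_div_two]
    have : arctan ((ρ * -1 - ρ * -0 - (ρ * -0) ^ 2 * (ρ * -1)) /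
        (1 + 2 * (ρ * -0) * (ρ * -1))) < 0 := by
      rw [Real.arctan_lt_zero]
      simp
      exact hρ
    exact div_neg_of_neg_of_pos this (by positivity)

lemma pw_map {Y Z : Type} [TopologicalSpace Y] [TopologicalSpace Z] (h : Y → Z)
    (hc : Continuous h) {x : Y} (γ : Path x x) (k : ℤ) :
    ∀ t, AdT.pw (γ.map hc) k t = h (AdT.pw γ k t) := by
  have hn : ∀ (γ : Path x x) (n : ℕ), ∀ t, AdT.npw (γ.map hc) n t = h (AdT.npw γ n t) := by
    intro γ n
    induction n with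
    | zero => intro t; rfl
    | succ n ih => exact lf_trans _ (fun _ => rfl) ih
  rcases k with n | n
  · exact hn γ n
  · exact hn γ.symm (n + 1)

lemma mu_word_pow (D : CD F0) {g : SL} {ρ : ℝ} {W : FreeGroup (Option F0)}
    (hs : Small Pp g ρ) (h : D.ω ((mu g ρ 1).map Psi0.continuous) = W) (k : ℤ) :
    D.ω ((mu g ρ k).map Psi0.continuous) = W ^ k := by
  have hm : MapsTo Psi0 Ppᶜ F0ᶜ := by
    have := mapsTo_compl (P := Pp) Psi0
    rwa [Psi0_image] at this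
  have h1 := mu_pw k hs
  have h2 : HomIn F0ᶜ ((mu g ρ k).map Psi0.continuous)
      (AdT.pw ((mu g ρ 1).map Psi0.continuous) k) :=
    homIn_push Psi0 Psi0.continuous hm h1 (fun _ => rfl) (pw_map Psi0 Psi0.continuous _ k)
  rw [D.homEq h2, (D.pw (fun t => hm (mu_mem 1 hs t)) k).2, h]

lemma down0 {x z : Qd} {c : Path x x} {c' : Path z z} (h : FreeIn Ppᶜ c c') :
    FreeIn F0ᶜ (c.map Psi0.continuous) (c'.map Psi0.continuous) := by
  have := free_down Psi0 h
  rwa [Psi0_image] at this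

lemma up0 {x z : Qd} {c : Path x x} {c' : Path z z}
    (h : FreeIn F0ᶜ (c.map Psi0.continuous) (c'.map Psi0.continuous)) : FreeIn Ppᶜ c c' := by
  rw [← Psi0_image] at h
  exact freeIn_congr₂ (fun _ => rfl) (fun _ => Psi0.symm_apply_apply _) (free_up Psi0 h)

end P5

open P5 MuRetr

theorem p5c (hC : Cyl2Stmt) (hFG : FG3Stmt) : P5cStmt := by
  intro q q' x x₁ x₂ c c₁ c₂ hq hq' hY hY' h₁ h₂ d₁ d₂
  obtain ⟨D⟩ := exists_CD hC F0 F0_finite
  obtain ⟨z₁, e₁, he₁, hx₁⟩ := straighten hq c₁ (free_mem h₁).2 d₁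
  obtain ⟨z₂, e₂, he₂, hx₂⟩ := straighten hq' c₂ (free_mem h₂).2 d₂
  have k₁ := (D.conj_of_free (down0 h₁)).trans (D.conj_of_free (down0 he₁))
  have k₂ := (D.conj_of_free (down0 h₂)).trans (D.conj_of_free (down0 he₂))
  have w₁ := word1 D (free_mem (down0 he₁)).2 (by
    intro t ht
    have h0 : (Psi0 (e₁ t)).1 = ((0 : ℝ) : AddCircle (1 : ℝ)) := by
      rw [AddCircle.coe_zero]
      exact ht
    rw [Psi0_fst_iff] at h0
    refine hx₁ t (by rw [h0.1]; simp) ?_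
    rw [h0.2]
    have := rt_pos (TN (e₁ t))
    simp
    positivity)
  have w₂ := word2 D (free_mem (down0 he₂)).2 (by
    intro t ht
    have h0 : (Psi0 (e₂ t)).1 = ((1 / 2 : ℝ) : AddCircle (1 : ℝ)) := ht
    rw [Psi0_fst_iff] at h0
    have e : 2 * π * (1 / 2) = π := by ring
    rw [e, Real.sin_pi, Real.cos_pi] at h0
    refine hx₂ t (by rw [h0.1]; simp) ?_
    rw [h0.2]
    have := rt_pos (TN (e₂ t))
    nlinarith)
  have kc : IsConj (D.ω (e₁.map Psi0.continuous))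
      (gz (Psi0 z₂) * D.ω (e₂.map Psi0.continuous) * (gz (Psi0 z₂))⁻¹) :=
    (k₁.symm.trans k₂).trans (isConj_iff.2 ⟨_, rfl⟩)
  have hne1 : (some fm : Option F0) ≠ some fp := by
    intro h
    have h1 : fm = fp := Option.some.inj h
    have h2 : pm = pq := congrArg Subtype.val h1
    have h3 : ((-(1 / 4) : ℝ) : AddCircle (1 : ℝ)) = ((1 / 4 : ℝ) : AddCircle (1 : ℝ)) :=
      congrArg Prod.fst h2
    exact coe_ne (by norm_num) (by rw [abs_lt]; norm_num) h3
  have hne2 : (some fp : Option F0) ≠ none := by simp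
  have hne3 : (some fm : Option F0) ≠ none := by simp
  obtain ⟨k, hk⟩ := hFG (Option F0) (some fm) (some fp) none _ _ hne1 hne2 hne3 w₁ w₂ kc
  have fin : ∀ (g : SL) (f : F0), gf g f →
      IsConj (D.ω (e₁.map Psi0.continuous)) (FreeGroup.of (some f) ^ k) →
      ∃ (g : SL) (ρ : ℝ) (k : ℤ), (g = 1 ∨ g = Jm) ∧ Small {Dq, cq Jm Dq} g ρ ∧
      FreeIn {Dq, cq Jm Dq}ᶜ c (mu g ρ k) := by
    intro g f hgf hconj
    obtain ⟨ρ, hρ, hω⟩ := mu_word D hgf
    refine ⟨g, ρ, -k, ?_, hρ, ?_⟩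
    · rcases hgf with ⟨h, -⟩ | ⟨h, -⟩
      · exact Or.inl h
      · exact Or.inr h
    · apply up0
      refine D.free_of_conj F0_finite (free_mem (down0 h₁)).1 ?_ ?_
      · intro t
        have := mapsTo_compl (P := Pp) Psi0
        rw [Psi0_image] at this
        exact this (mu_mem (-k) hρ t)
      · rw [mu_word_pow D hρ hω (-k), _root_.inv_zpow', neg_neg]
        exact k₁.trans hconj
  rcases hk with hk | hk
  · exact fin 1 fm (Or.inl ⟨rfl, rfl⟩) hk
  · exact fin Jm fp (Or.inr ⟨rfl, rfl⟩) hk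

end AdT
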