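import Pool.Agent.Helper88.AdT.Stmts1

/-!
Module AD-8a: `E` is open, the lattice acts as a covering group, the quotient is Hausdorff.
-/

open Matrix Real Topology Filter Set

noncomputable section

namespace AdT.QuotA

lemma cont_entry (i j : Fin 2) : Continuous (fun x : SL => x i j) := by
  have h : Continuous (fun x : SL => ((x : M2) i j)) :=
    (continuous_apply_apply i j).comp
      (Matrix.SpecialLinearGroup.isClosedEmbedding_val (R := ℝ)).continuous
  exact h

lemma cont_tau (N : M2) : Continuous (fun x : SL => tau x N) := by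
  have h00 := cont_entry 0 0
  have h01 := cont_entry 0 1
  have h10 := cont_entry 1 0
  have h11 := cont_entry 1 1
  simp only [tau, fr_gen]
  simp only [Matrix.of_apply, Matrix.cons_val', Matrix.cons_val_zero, Matrix.cons_val_one,
    Matrix.cons_val_fin_one]
  fun_prop

lemma cont_nu (N : M2) : Continuous (fun x : SL => nu x N) := by
  have h00 := cont_entry 0 0
  have h01 := cont_entry 0 1
  have h10 := cont_entry 1 0
  have h11 := cont_entry 1 1
  simp only [nu, fr_gen]
  simp only [Matrix.of_apply, Matrix.cons_val', Matrix.cons_val_zero, Matrix.cons_val_one,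
    Matrix.cons_val_fin_one]
  fun_prop

/-- bounded frames -/
def Bd (R : ℝ) : Set SL := {x | ∀ i j, |x i j| < R}

lemma isOpen_Bd (R : ℝ) : IsOpen (Bd R) := by
  have : Bd R = ⋂ i, ⋂ j, {x : SL | |x i j| < R} := by
    ext x; simp [Bd]
  rw [this]
  exact isOpen_iInter_of_finite fun i => isOpen_iInter_of_finite fun j =>
    isOpen_lt (cont_entry i j).abs continuous_const

lemma exists_Bd (x : SL) : ∃ R, x ∈ Bd R := by
  refine ⟨|x 0 0| + |x 0 1| + |x 1 0| + |x 1 1| + 1, ?_⟩
  intro i j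
  have h00 := abs_nonneg (x 0 0)
  have h01 := abs_nonneg (x 0 1)
  have h10 := abs_nonneg (x 1 0)
  have h11 := abs_nonneg (x 1 1)
  fin_cases i <;> fin_cases j <;> simp <;> linarith

theorem isOpen_E (h2 : FinStmt) : IsOpen E := by
  rw [isOpen_iff_mem_nhds]
  intro x hx
  obtain ⟨R, hR⟩ := exists_Bd x
  have hfin := h2.2.2 R 0
  set F := {N : M2 | N ∈ Lines ∧ ∃ x : SL, (∀ i j, |x i j| ≤ R) ∧ |tau x N| ≤ 0} with hF
  have hopen : ∀ N ∈ F, {x' : SL | ¬ (tau x' N = 0 ∧ nu x' N = 0)} ∈ 𝓝 x := by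
    intro N hN
    have : IsOpen {x' : SL | ¬ (tau x' N = 0 ∧ nu x' N = 0)} := by
      have hc : IsClosed {x' : SL | tau x' N = 0 ∧ nu x' N = 0} :=
        (isClosed_eq (cont_tau N) continuous_const).inter
          (isClosed_eq (cont_nu N) continuous_const)
      exact hc.isOpen_compl
    exact this.mem_nhds (hx N hN.1)
  have h3 := (biInter_mem hfin).mpr hopen
  filter_upwards [h3, (isOpen_Bd R).mem_nhds hR] with x' h4 h5
  intro N hN h6
  have hNF : N ∈ F := ⟨hN, x', fun i j => (h5 i j).le, by rw [h6.1]; simp⟩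
  have := mem_iInter₂.mp h4 N hNF
  exact this h6

instance : T2Space SL := (Matrix.SpecialLinearGroup.isClosedEmbedding_val (R := ℝ)).isEmbedding.t2Space

instance : LocallyCompactSpace M2 := inferInstanceAs (LocallyCompactSpace (Fin 2 → Fin 2 → ℝ))

instance : LocallyCompactSpace SL :=
  (Matrix.SpecialLinearGroup.isClosedEmbedding_val (R := ℝ)).locallyCompactSpace

lemma bdd_of_compact {K : Set SL} (hK : IsCompact K) : ∃ R : ℝ, 0 ≤ R ∧ ∀ x ∈ K, ∀ i j, |x i j| ≤ R := by
  have hc : Continuous (fun x : SL => |x 0 0| + |x 0 1| + |x 1 0| + |x 1 1|) :=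
    (((cont_entry 0 0).abs.add (cont_entry 0 1).abs).add (cont_entry 1 0).abs).add
      (cont_entry 1 1).abs
  obtain ⟨R, hR⟩ := (hK.image hc).bddAbove
  refine ⟨max R 0, le_max_right _ _, fun x hx i j => le_trans ?_ (le_max_left R 0)⟩
  have h := hR ⟨x, hx, rfl⟩
  refine le_trans ?_ h
  have h00 := abs_nonneg (x 0 0)
  have h01 := abs_nonneg (x 0 1)
  have h10 := abs_nonneg (x 1 0)
  have h11 := abs_nonneg (x 1 1)
  fin_cases i <;> fin_cases j <;> simp <;> linarith

lemma entry_mul_inv {x y : SL} {R S : ℝ} (hx : ∀ i j, |x i j| ≤ R) (hy : ∀ i j, |y i j| ≤ S)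
    (i j : Fin 2) : |(y * x⁻¹ : SL) i j| ≤ 2 * S * R := by
  have hinv : ∀ k l, |(x⁻¹ : SL) k l| ≤ R := by
    intro k l
    have h := inv_entries x
    have hkl : (x⁻¹ : SL) k l = (!![x 1 1, - x 0 1; - x 1 0, x 0 0] : M2) k l := by
      rw [← h]
    rw [hkl]
    fin_cases k <;> fin_cases l <;> simp [hx]
  have hmul : (y * x⁻¹ : SL) i j = y i 0 * (x⁻¹ : SL) 0 j + y i 1 * (x⁻¹ : SL) 1 j := by
    show ((y * x⁻¹ : SL) : M2) i j = _
    rw [Matrix.SpecialLinearGroup.coe_mul, Matrix.mul_apply, Fin.sum_univ_two]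
  have hS : 0 ≤ S := (abs_nonneg _).trans (hy 0 0)
  rw [hmul]
  calc |y i 0 * (x⁻¹ : SL) 0 j + y i 1 * (x⁻¹ : SL) 1 j|
      ≤ |y i 0 * (x⁻¹ : SL) 0 j| + |y i 1 * (x⁻¹ : SL) 1 j| := abs_add_le _ _
    _ = |y i 0| * |(x⁻¹ : SL) 0 j| + |y i 1| * |(x⁻¹ : SL) 1 j| := by rw [abs_mul, abs_mul]
    _ ≤ S * R + S * R := add_le_add
        (mul_le_mul (hy i 0) (hinv 0 j) (abs_nonneg _) hS)
        (mul_le_mul (hy i 1) (hinv 1 j) (abs_nonneg _) hS)
    _ = 2 * S * R := by ring

instance instCCS : ContinuousConstSMul Gam E := ⟨fun g => by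
  refine Continuous.subtype_mk ?_ _
  exact continuous_const.mul continuous_subtype_val⟩

theorem pdisc (h2 : FinStmt) : ProperlyDiscontinuousSMul Gam E := by
  constructor
  intro K L hK hL
  obtain ⟨R, hR0, hR⟩ := bdd_of_compact (hK.image continuous_subtype_val)
  obtain ⟨S, hS0, hS⟩ := bdd_of_compact (hL.image continuous_subtype_val)
  have hfin := h2.2.1 (2 * S * R)
  refine Set.Finite.of_injOn (f := fun γ : Gam => (γ : SL)) ?_ (Subtype.val_injective.injOn) hfin
  rintro γ ⟨_, ⟨x, hx, rfl⟩, hy⟩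
  refine ⟨γ.2, ?_⟩
  have h1 := hR x.1 ⟨x, hx, rfl⟩
  have h3 := hS (γ • x : E).1 ⟨_, hy, rfl⟩
  have h4 : (γ : SL) = (γ • x : E).1 * (x.1)⁻¹ := by
    rw [smul_val, mul_inv_cancel_right]
  intro i j
  simp only
  rw [h4]
  exact entry_mul_inv h1 h3 i j

instance instICS : IsCancelSMul Gam E where
  left_cancel' g x x' h := by
    have := congrArg Subtype.val h
    exact Subtype.ext (mul_left_cancel this)
  right_cancel' g g' x h := by
    have := congrArg Subtype.val h
    exact Subtype.ext (mul_right_cancel this)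

end AdT.QuotA

namespace AdT

open QuotA in
theorem quotA (_h1 : FrameStmt) (h2 : FinStmt) : QuotAStmt := by
  have hE := isOpen_E h2
  have : LocallyCompactSpace E := hE.locallyCompactSpace
  have := pdisc h2
  refine ⟨hE, ?_, ?_⟩
  · exact isQuotientCoveringMap_quotientMk_of_properlyDiscontinuousSMul
  · exact t2Space_of_properlyDiscontinuousSMul_of_t2Space

end AdT
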