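import Pool.Agent.Helper88.AdT.Stmts1

/-!
# E is path connected
-/

open Matrix Real Topology Filter Set

noncomputable section

namespace AdT

namespace QuotB

/-- rotation matrices -/
def R (φ : ℝ) : SL := ⟨!![Real.cos φ, -Real.sin φ; Real.sin φ, Real.cos φ], by
  rw [Matrix.det_fin_two_of]
  nlinarith [Real.sin_sq_add_cos_sq φ]⟩

lemma R_zero : R 0 = 1 := by
  apply Subtype.ext
  ext i j
  fin_cases i <;> fin_cases j <;> simp [R]

lemma a_zero : a 0 = 1 := by
  apply Subtype.ext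
  ext i j
  fin_cases i <;> fin_cases j <;> simp [a]

lemma continuous_R : Continuous R := by
  apply Continuous.subtype_mk
  apply continuous_matrix
  intro i j
  fin_cases i <;> fin_cases j <;> simp <;> fun_prop

lemma continuous_a : Continuous a := by
  apply Continuous.subtype_mk
  apply continuous_matrix
  intro i j
  fin_cases i <;> fin_cases j <;> simp <;> fun_prop

lemma mul_entry (x z : SL) (i j : Fin 2) : (x * z : SL) i j = x i 0 * z 0 j + x i 1 * z 1 j := by
  rw [Matrix.SpecialLinearGroup.coe_mul, Matrix.mul_apply, Fin.sum_univ_two]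

lemma tau_R (x : SL) (φ : ℝ) {N : M2} (hN : N ∈ Lines) : tau (x * R φ) N = tau x N := by
  obtain ⟨b, d, c, -, rfl⟩ := hN
  have h := Real.sin_sq_add_cos_sq φ
  rw [tau_nm, tau_nm]
  simp only [mul_entry]
  simp only [R, Matrix.SpecialLinearGroup.coe_mk, Matrix.of_apply, Matrix.cons_val', Matrix.cons_val_zero, Matrix.cons_val_one, Matrix.cons_val_fin_one]
  linear_combination ((b : ℝ) * (x 0 0 * x 1 0 + x 0 1 * x 1 1)
    + d * ((x 1 0 ^ 2 + x 1 1 ^ 2 - x 0 0 ^ 2 - x 0 1 ^ 2) / 2)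
    + c * √3 * ((x 0 0 ^ 2 + x 0 1 ^ 2 + x 1 0 ^ 2 + x 1 1 ^ 2) / 2)) * h

/-- base point on no line -/
def Good (x : SL) : Prop := ∀ N ∈ Lines, tau x N ≠ 0

lemma Good.mem {x : SL} (h : Good x) : x ∈ E := fun N hN h0 => h N hN h0.1

lemma Good.rot {x : SL} (h : Good x) (φ : ℝ) : Good (x * R φ) := fun N hN h0 =>
  h N hN (by rwa [tau_R x φ hN] at h0)

lemma joined_rot {x : SL} (h : Good x) (φ : ℝ) : JoinedIn E x (x * R φ) := by
  refine JoinedIn.ofLine (f := fun s => x * R (s * φ)) ?_ ?_ ?_ ?_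
  · exact (continuous_const.mul (continuous_R.comp (continuous_id.mul continuous_const))).continuousOn
  · simp [R_zero]
  · simp
  · rintro _ ⟨s, -, rfl⟩
    exact (h.rot _).mem

lemma mem_flow (h1 : FrameStmt) {x : SL} (hx : x ∈ E) (t : ℝ) : x * a t ∈ E := by
  intro N hN h0
  obtain ⟨e1, e2, -⟩ := h1.2.2.1 x N t
  rw [e1, e2] at h0
  have hc := Real.cosh_sq t
  refine hx N hN ⟨?_, ?_⟩
  · linear_combination Real.cosh t * h0.1 - Real.sinh t * h0.2 - tau x N * hc
  · linear_combination Real.cosh t * h0.2 - Real.sinh t * h0.1 - nu x N * hc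

lemma joined_flow (h1 : FrameStmt) {x : SL} (hx : x ∈ E) (t : ℝ) : JoinedIn E x (x * a t) := by
  refine JoinedIn.ofLine (f := fun s => x * a (s * t)) ?_ ?_ ?_ ?_
  · exact (continuous_const.mul (continuous_a.comp (continuous_id.mul continuous_const))).continuousOn
  · simp [a_zero]
  · simp
  · rintro _ ⟨s, -, rfl⟩
    exact mem_flow h1 hx _

/-- points of `E` can be moved along the flow to a base point on no line -/
lemma exists_good (h1 : FrameStmt) (h2 : FinStmt) {x : SL} (hx : x ∈ E) :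
    ∃ u : ℝ, Good (x * a u) := by
  obtain ⟨K, hK⟩ : ∃ K : ℝ, ∀ u ∈ Icc (0 : ℝ) 1, ∀ i j, |(x * a u : SL) i j| ≤ K := by
    have : ∀ i j, ∃ K : ℝ, ∀ u ∈ Icc (0 : ℝ) 1, |(x * a u : SL) i j| ≤ K := by
      intro i j
      have hcont : Continuous (fun u : ℝ => (x * a u : SL) i j) := by
        have hc : Continuous (fun u : ℝ => ((x * a u : SL) : M2)) :=
          continuous_subtype_val.comp (continuous_const.mul continuous_a)
        exact (continuous_apply j).comp ((continuous_apply i).comp hc)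
      obtain ⟨K, hK⟩ := isCompact_Icc.exists_bound_of_continuousOn (s := Icc (0 : ℝ) 1)
        hcont.continuousOn
      exact ⟨K, fun u hu => by simpa using hK u hu⟩
    choose K hK using this
    refine ⟨∑ i, ∑ j, |K i j|, fun u hu i j => (hK i j u hu).trans ?_⟩
    calc K i j ≤ |K i j| := le_abs_self _
      _ ≤ ∑ j, |K i j| := Finset.single_le_sum (f := fun j => |K i j|)
          (fun _ _ => abs_nonneg _) (Finset.mem_univ j)
      _ ≤ ∑ i, ∑ j, |K i j| := Finset.single_le_sum (f := fun i => ∑ j, |K i j|)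
          (fun _ _ => Finset.sum_nonneg fun _ _ => abs_nonneg _) (Finset.mem_univ i)
  have hfin := h2.2.2 K 0
  set F := {N : M2 | N ∈ Lines ∧ ∃ x : SL, (∀ i j, |x i j| ≤ K) ∧ |tau x N| ≤ 0} with hF
  have hbad : {u : ℝ | u ∈ Icc (0 : ℝ) 1 ∧ ∃ N ∈ Lines, tau (x * a u) N = 0}.Finite := by
    have hsub : {u : ℝ | u ∈ Icc (0 : ℝ) 1 ∧ ∃ N ∈ Lines, tau (x * a u) N = 0} ⊆
        ⋃ N ∈ F, {u : ℝ | N ∈ Lines ∧ tau (x * a u) N = 0} := by
      rintro u ⟨hu, N, hN, h0⟩
      simp only [mem_iUnion]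
      exact ⟨N, ⟨hN, x * a u, hK u hu, by simp [h0]⟩, hN, h0⟩
    refine (hfin.biUnion fun N _ => ?_).subset hsub
    apply Set.Subsingleton.finite
    rintro u ⟨hN, hu⟩ v ⟨-, hv⟩
    by_contra hne
    have e1 := (h1.2.2.1 x N u).1
    have e2 := (h1.2.2.1 x N v).1
    rw [hu] at e1
    rw [hv] at e2
    have hs : Real.sinh (v - u) ≠ 0 := by
      intro h
      rw [Real.sinh_eq_zero] at h
      exact hne (by linarith)
    rw [Real.sinh_sub] at hs
    refine hx N hN ⟨?_, ?_⟩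
    · have : (Real.sinh v * Real.cosh u - Real.cosh v * Real.sinh u) * tau x N = 0 := by
        linear_combination (-Real.sinh v) * e1 + Real.sinh u * e2
      exact (mul_eq_zero.mp this).resolve_left hs
    · have : (Real.sinh v * Real.cosh u - Real.cosh v * Real.sinh u) * nu x N = 0 := by
        linear_combination (Real.cosh v) * e1 - Real.cosh u * e2
      exact (mul_eq_zero.mp this).resolve_left hs
  obtain ⟨u, hu, hu'⟩ := (Set.Icc_infinite (zero_lt_one' ℝ)).exists_notMem_finite hbad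
  refine ⟨u, fun N hN h0 => hu' ⟨hu, N, hN, h0⟩⟩

/-- the Cartan decomposition -/
lemma kak (g : SL) : ∃ φ t ψ : ℝ, g = R φ * a t * R ψ := by
  set α : ℂ := ⟨(g 0 0 + g 1 1) / 2, (g 1 0 - g 0 1) / 2⟩ with hα
  set β : ℂ := ⟨(g 0 0 - g 1 1) / 2, (g 1 0 + g 0 1) / 2⟩ with hβ
  have hdet : g 0 0 * g 1 1 - g 0 1 * g 1 0 = 1 := by
    have := g.2
    rwa [Matrix.det_fin_two] at this
  have hnorm : ‖α‖ ^ 2 = 1 + ‖β‖ ^ 2 := by
    rw [Complex.sq_norm, Complex.sq_norm, Complex.normSq_apply, Complex.normSq_apply]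
    simp only [hα, hβ]
    linear_combination hdet
  have hC : Real.cosh (arsinh ‖β‖) = ‖α‖ := by
    rw [Real.cosh_arsinh, ← hnorm, Real.sqrt_sq (norm_nonneg _)]
  have hS : Real.sinh (arsinh ‖β‖) = ‖β‖ := Real.sinh_arsinh _
  refine ⟨(α.arg + β.arg) / 2, 2 * arsinh ‖β‖, (α.arg - β.arg) / 2, ?_⟩
  have hexp : Real.exp (2 * arsinh ‖β‖ / 2) = ‖α‖ + ‖β‖ := by
    rw [mul_div_cancel_left₀ _ (two_ne_zero), ← Real.cosh_add_sinh, hC, hS]
  have hexp' : Real.exp (-(2 * arsinh ‖β‖ / 2)) = ‖α‖ - ‖β‖ := by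
    rw [mul_div_cancel_left₀ _ (two_ne_zero), ← Real.cosh_sub_sinh, hC, hS]
  have c1 : Real.cos α.arg = Real.cos ((α.arg + β.arg) / 2) * Real.cos ((α.arg - β.arg) / 2) -
      Real.sin ((α.arg + β.arg) / 2) * Real.sin ((α.arg - β.arg) / 2) := by
    rw [← Real.cos_add]; congr 1; ring
  have s1 : Real.sin α.arg = Real.sin ((α.arg + β.arg) / 2) * Real.cos ((α.arg - β.arg) / 2) +
      Real.cos ((α.arg + β.arg) / 2) * Real.sin ((α.arg - β.arg) / 2) := by
    rw [← Real.sin_add]; congr 1; ring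
  have c2 : Real.cos β.arg = Real.cos ((α.arg + β.arg) / 2) * Real.cos ((α.arg - β.arg) / 2) +
      Real.sin ((α.arg + β.arg) / 2) * Real.sin ((α.arg - β.arg) / 2) := by
    rw [← Real.cos_sub]; congr 1; ring
  have s2 : Real.sin β.arg = Real.sin ((α.arg + β.arg) / 2) * Real.cos ((α.arg - β.arg) / 2) -
      Real.cos ((α.arg + β.arg) / 2) * Real.sin ((α.arg - β.arg) / 2) := by
    rw [← Real.sin_sub]; congr 1; ring
  have reα : ‖α‖ * Real.cos α.arg = (g 0 0 + g 1 1) / 2 := Complex.norm_mul_cos_arg α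
  have imα : ‖α‖ * Real.sin α.arg = (g 1 0 - g 0 1) / 2 := Complex.norm_mul_sin_arg α
  have reβ : ‖β‖ * Real.cos β.arg = (g 0 0 - g 1 1) / 2 := Complex.norm_mul_cos_arg β
  have imβ : ‖β‖ * Real.sin β.arg = (g 1 0 + g 0 1) / 2 := Complex.norm_mul_sin_arg β
  rw [c1] at reα
  rw [s1] at imα
  rw [c2] at reβ
  rw [s2] at imβ
  apply Subtype.ext
  ext i j
  have hij : (R ((α.arg + β.arg) / 2) * a (2 * arsinh ‖β‖) * R ((α.arg - β.arg) / 2) : SL) i j =
      (R ((α.arg + β.arg) / 2) * a (2 * arsinh ‖β‖) * R ((α.arg - β.arg) / 2) : SL).1 i j := rfl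
  rw [← hij, mul_entry, mul_entry, mul_entry]
  fin_cases i <;> fin_cases j <;>
    simp only [R, a, hexp, hexp', Matrix.SpecialLinearGroup.coe_mk, Matrix.of_apply, Matrix.cons_val',
      Matrix.cons_val_zero, Matrix.cons_val_one, Matrix.cons_val_fin_one, Fin.zero_eta, Fin.mk_one]
  · show g 0 0 = _
    linear_combination -reα - reβ
  · show g 0 1 = _
    linear_combination imα - imβ
  · show g 1 0 = _
    linear_combination -imα - imβ
  · show g 1 1 = _
    linear_combination -reα + reβ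

lemma joined_good (h1 : FrameStmt) {x z : SL} (hx : Good x) (hz : Good z) : JoinedIn E x z := by
  obtain ⟨φ, t, ψ, h⟩ := kak (x⁻¹ * z)
  have hz' : z = x * R φ * a t * R ψ := by
    have : z = x * (x⁻¹ * z) := by group
    rw [this, h]
    group
  have hR : R ψ * R (-ψ) = 1 := by
    apply Subtype.ext
    ext i j
    have := Real.sin_sq_add_cos_sq ψ
    fin_cases i <;> fin_cases j <;> simp [R, Matrix.mul_apply, Fin.sum_univ_two] <;> nlinarith
  have hg : Good (x * R φ * a t) := by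
    have h3 : x * R φ * a t = z * R (-ψ) := by
      rw [hz', _root_.mul_assoc (x * R φ * a t), hR, _root_.mul_one]
    rw [h3]
    exact hz.rot _
  refine ((joined_rot hx φ).trans (joined_flow h1 (hx.rot φ).mem t)).trans ?_
  rw [hz']
  exact joined_rot hg ψ

end QuotB

open QuotB

theorem quotB (h1 : FrameStmt) (h2 : FinStmt) : QuotBStmt := by
  rw [QuotBStmt, ← isPathConnected_iff_pathConnectedSpace]
  obtain ⟨u, hu⟩ := exists_good h1 h2 x1_mem
  refine ⟨x1 * a u, hu.mem, fun {z} hz => ?_⟩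
  obtain ⟨v, hv⟩ := exists_good h1 h2 hz
  exact (joined_good h1 hu hv).trans (joined_flow h1 hz v).symm

end AdT
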