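import Pool.Agent.Helper88.AdT.Stmts1

/-!
AD-13: the anti-de Sitter structures `A_t`.
-/

open Matrix Real Topology Filter Set

noncomputable section

namespace AdT

namespace Struct

lemma a_add (s t : ℝ) : a (s + t) = a s * a t := by
  apply Subtype.ext
  rw [Matrix.SpecialLinearGroup.coe_mul]
  show !![exp ((s + t) / 2), 0; 0, exp (-((s + t) / 2))] =
    !![exp (s / 2), 0; 0, exp (-(s / 2))] * !![exp (t / 2), 0; 0, exp (-(t / 2))]
  rw [Matrix.mul_fin_two]
  simp only [mul_zero, zero_mul, add_zero, zero_add, ← Real.exp_add]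
  congr 4 <;> ring_nf

lemma continuous_a : Continuous a := by
  refine Continuous.subtype_mk ?_ _
  apply continuous_matrix
  intro i j
  fin_cases i <;> fin_cases j <;> simp <;> fun_prop

lemma devf_add (t : ℝ) (f g : Bool → ℝ) : devf t (fun κ => f κ + g κ) = devf t f + devf t g := by
  simp only [devf]
  ring

/-- the local homeomorphism `E → N` -/
lemma isLocalHomeomorph (hF : FNStmt) (hQ : QuotAStmt) {gi : Idx → SL} (hg : GoodGi gi) :
    IsLocalHomeomorph (fun x : E => jN gi (pr x)) :=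
  (hF gi hg).1.isLocalHomeomorph.comp hQ.2.1.isCoveringMap.isLocalHomeomorph

lemma cont_dev (t : ℝ) {U : Set E} {f : Bool → E → ℝ} (hf : ∀ κ, ContinuousOn (f κ) U) :
    ContinuousOn (fun x' : E => x'.1 * a (devf t (fun κ => f κ x'))) U := by
  apply ContinuousOn.mul continuous_subtype_val.continuousOn
  apply continuous_a.comp_continuousOn
  unfold devf
  have h1 := hf true
  have h2 := hf false
  fun_prop

theorem cover (hF : FNStmt) (hL : LocalStmt) (hQ : QuotAStmt) (gi : Idx → SL) (hg : GoodGi gi)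
    (t : ℝ) (ht : |t| < s0 / 20) (q : FN gi) (hq : q ∉ Sg gi) :
    ∃ c ∈ devCharts gi t, q ∈ c.source := by
  have hq' : q ∈ range (jN gi) := by
    by_contra hcon
    apply hq
    rw [← (hF gi hg).2.2.2.1]
    exact hcon
  obtain ⟨m, rfl⟩ := hq'
  obtain ⟨x, rfl⟩ := hQ.2.1.surjective m
  obtain ⟨U, f, hU, hxU, hUE, hfc, hfv, hD⟩ := hL x.1 x.2
  obtain ⟨hinj, hopen⟩ := hD t ht
  set D : E → SL := fun x' => x'.1 * a (devf t (fun κ => f κ x'.1)) with hDdef
  set U₁ : Set E := Subtype.val ⁻¹' U with hU₁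
  have hU₁o : IsOpen U₁ := hU.preimage continuous_subtype_val
  have hinj₁ : InjOn D U₁ := by
    intro x1 h1 x2 h2 h
    exact Subtype.ext (hinj h1 h2 h)
  have hfc₁ : ∀ κ, ContinuousOn (fun x' : E => f κ x'.1) U₁ := fun κ =>
    (hfc κ).comp continuous_subtype_val.continuousOn (fun x' hx' => hx')
  have hcont : ContinuousOn D U₁ := cont_dev t hfc₁
  have hopen₁ : IsOpenMap (U₁.domRestrict D) := by
    intro W hW
    have h1 : IsOpen (Subtype.val '' W : Set E) := hU₁o.isOpenMap_subtype_val W hW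
    have h2 : IsOpen (Subtype.val '' (Subtype.val '' W : Set E) : Set SL) :=
      hQ.1.isOpenMap_subtype_val _ h1
    have h3 : (Subtype.val '' (Subtype.val '' W : Set E) : Set SL) ⊆ U := by
      rintro _ ⟨_, ⟨w, hw, rfl⟩, rfl⟩
      exact w.2
    have h4 := hopen _ h3 h2
    have h5 : U₁.domRestrict D '' W = (fun x' : SL => x' * a (devf t (fun κ => f κ x'))) ''
        (Subtype.val '' (Subtype.val '' W : Set E) : Set SL) := by
      rw [Set.image_image, Set.image_image]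
      rfl
    rw [h5]
    exact h4
  let e2 : OpenPartialHomeomorph E SL := OpenPartialHomeomorph.ofContinuousOpenRestrict
    (hinj₁.toPartialEquiv D U₁) hcont hopen₁ hU₁o
  obtain ⟨e1, hx1, he1⟩ := isLocalHomeomorph hF hQ hg x
  have he1' : ∀ x' : E, e1 x' = jN gi (pr x') := fun x' => (congrFun he1 x').symm
  have he2 : ∀ x' : E, e2 x' = D x' := fun x' => rfl
  have hs2 : e2.source = U₁ := rfl
  have hmem : ∀ q', q' ∈ (e1.symm.trans e2).source ↔ q' ∈ e1.target ∧ e1.symm q' ∈ U₁ := by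
    intro q'
    rw [OpenPartialHomeomorph.trans_source, OpenPartialHomeomorph.symm_source, hs2]
    rfl
  refine ⟨e1.symm.trans e2, ?_, ?_⟩
  · intro q' hq'
    rw [hmem] at hq'
    refine ⟨e1.symm q', ?_, fun κ x' => f κ x'.1, 1, 1, e1.source ∩ U₁, e1.open_source.inter hU₁o,
      ⟨e1.map_target hq'.1, hq'.2⟩, fun κ => (hfc₁ κ).mono inter_subset_right,
      fun κ x' hx' => hfv κ x'.1 hx'.2, ?_⟩
    · rw [← he1', e1.right_inv hq'.1]
    · intro x' hx'
      rw [← he1', one_mul, mul_one, OpenPartialHomeomorph.coe_trans, Function.comp_apply,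
        e1.left_inv hx'.1, he2]
  · rw [hmem]
    refine ⟨?_, ?_⟩
    · rw [← he1']
      exact e1.map_source hx1
    · rw [← he1', e1.left_inv hx1]
      exact hxU

/-- two real lifts of the same circle valued function differ locally by an integer -/
lemma int_diff {X : Type} [TopologicalSpace X] {g : X → ℝ} {x : X} (hg : ContinuousAt g x)
    (h0 : ∀ᶠ x' in 𝓝 x, ((g x' : ℝ) : AddCircle (1 : ℝ)) = 0) :
    ∃ n : ℤ, ∀ᶠ x' in 𝓝 x, g x' = n := by
  have h1 : ∀ᶠ x' in 𝓝 x, ∃ n : ℤ, g x' = n := by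
    filter_upwards [h0] with x' hx'
    obtain ⟨n, hn⟩ := (AddCircle.coe_eq_zero_iff (1 : ℝ)).1 hx'
    exact ⟨n, by rw [← hn]; simp⟩
  obtain ⟨n, hn⟩ := h1.self_of_nhds
  refine ⟨n, ?_⟩
  have h2 : ∀ᶠ x' in 𝓝 x, |g x' - g x| < 1 := by
    have := Metric.tendsto_nhds.1 hg 1 one_pos
    filter_upwards [this] with x' hx'
    rwa [Real.dist_eq] at hx'
  filter_upwards [h1, h2] with x' hx1 hx2
  obtain ⟨k, hk⟩ := hx1
  rw [hk, hn] at hx2
  rw [hk]
  have h3 : |(k - n : ℤ)| < 1 := by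
    have : |((k - n : ℤ) : ℝ)| < 1 := by push_cast; exact hx2
    exact_mod_cast this
  have h4 : k - n = 0 := Int.abs_lt_one_iff.1 h3
  have h5 : k = n := by omega
  rw [h5]

theorem compat (hF : FNStmt) (hQ : QuotAStmt) (hI : IsomStmt) (hT : ThetaStmt) (gi : Idx → SL)
    (hg : GoodGi gi) (t : ℝ) : Compat (devCharts gi t) (devCharts gi t) id := by
  intro c hc c' hc' q hq hq'
  obtain ⟨x, hxq, f, A, B, U, hU, hxU, hfc, hfv, hcx⟩ := hc q hq
  obtain ⟨x2, hx2q, f2, A2, B2, U2, hU2, hx2U, hf2c, hf2v, hcx2⟩ := hc' q hq'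
  have hpr : pr x2 = pr x := (hF gi hg).1.injective (hx2q.trans hxq.symm)
  obtain ⟨γ, hγ⟩ := hQ.2.1.apply_eq_iff_mem_orbit.1 hpr
  have hγ' : γ • x = x2 := hγ
  have hsm : Continuous (fun x' : E => γ • x') := hQ.2.1.continuous_const_smul γ
  have hU2' : ∀ᶠ x' in 𝓝 x, γ • x' ∈ U2 := by
    apply hsm.continuousAt.eventually_mem
    rw [hγ']
    exact hU2.mem_nhds hx2U
  have hUx : ∀ᶠ x' in 𝓝 x, x' ∈ U := hU.mem_nhds hxU
  have hint : ∀ κ, ∃ n : ℤ, ∀ᶠ x' in 𝓝 x, f2 κ (γ • x') - f κ x' = n := by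
    intro κ
    apply int_diff
    · apply ContinuousAt.sub
      · have h1 : ContinuousAt (f2 κ) (γ • x) := by
          rw [hγ']
          exact (hf2c κ).continuousAt (hU2.mem_nhds hx2U)
        exact ContinuousAt.comp (f := fun x' : E => γ • x') h1 hsm.continuousAt
      · exact (hfc κ).continuousAt (hU.mem_nhds hxU)
    · filter_upwards [hU2', hUx] with x' h1 h2
      rw [AddCircle.coe_sub, hfv κ x' h2, hf2v κ _ h1, smul_val, hT.2.1 κ γ.1 γ.2 x'.1, sub_self]
  choose n hn using hint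
  set h0 : ℝ := devf t (fun κ => (n κ : ℝ)) with hh0
  have hkey : ∀ᶠ x' in 𝓝 x, c' (jN gi (pr x')) =
      (A2 * γ.1 * A⁻¹) * c (jN gi (pr x')) * (B⁻¹ * a h0 * B2) := by
    filter_upwards [hU2', hUx, hn true, hn false] with x' h1 h2 h3 h4
    have h5 : pr (γ • x') = pr x' := hQ.2.1.map_smul γ
    have h6 := hcx2 (γ • x') h1
    rw [h5] at h6
    have h7 : (fun κ => f2 κ (γ • x')) = fun κ => f κ x' + n κ := by
      funext κ
      cases κ
      · linarith
      · linarith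
    rw [h6, hcx x' h2, h7, devf_add, a_add, smul_val, hh0]
    group
  refine ⟨fun z => (A2 * γ.1 * A⁻¹) * z * (B⁻¹ * a h0 * B2), hI.2.2.2.1 _ _, ?_⟩
  have hopen : IsOpenMap (fun x : E => jN gi (pr x)) :=
    (hF gi hg).1.isOpenMap.comp hQ.2.1.isCoveringMap.isOpenMap
  have h8 := hopen.nhds_le x
  have h9 : ∀ᶠ q' in Filter.map (fun x : E => jN gi (pr x)) (𝓝 x), c' (id q') =
      (A2 * γ.1 * A⁻¹) * c q' * (B⁻¹ * a h0 * B2) := by
    rw [Filter.eventually_map]
    exact hkey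
  rw [← hxq]
  exact h8 h9

end Struct

theorem struct (hF : FNStmt) (hL : LocalStmt) (hQ : QuotAStmt) (hI : IsomStmt)
    (hT : ThetaStmt) : StructStmt := by
  intro gi hg t ht
  refine ⟨?_, Struct.cover hF hL hQ gi hg t ht, Struct.compat hF hQ hI hT gi hg t⟩
  intro c hc
  rw [Set.disjoint_left]
  intro q hq hqS
  obtain ⟨x, hx, -⟩ := hc q hq
  rw [← (hF gi hg).2.2.2.1] at hqS
  exact hqS ⟨pr x, hx⟩

end AdT
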