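import Pool.Agent.Helper88.AdT.Stmts1

/-!
AD-9b: the tube map is an open embedding of the punctured solid torus.
-/

open Matrix Real Topology Filter Set

noncomputable section

namespace AdT

namespace TubeB

lemma cont_coe : Continuous (fun x : SL => (x : M2)) := continuous_subtype_val

lemma cont_entry (i j : Fin 2) : Continuous (fun x : SL => (x : M2) i j) :=
  cont_coe.matrix_elem i j

lemma cont_a : Continuous (fun t : ℝ => a t) := by
  refine Continuous.subtype_mk ?_ _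
  refine continuous_matrix ?_
  intro i j
  fin_cases i <;> fin_cases j <;> simp <;> fun_prop

lemma cont_y : Continuous (fun w : ℂ => y w) := by
  refine Continuous.subtype_mk ?_ _
  refine continuous_matrix ?_
  intro i j
  fin_cases i <;> fin_cases j <;> simp <;> fun_prop

/-- the basic map -/
def T (p : ℂ × ℝ) : SL := a p.2 * y p.1

lemma cont_T : Continuous T :=
  (cont_a.comp continuous_snd).mul (cont_y.comp continuous_fst)

lemma T_val (w : ℂ) (z : ℝ) : ((T (w, z) : SL) : M2) =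
    !![exp (z / 2) * (1 + w.re * w.im), exp (z / 2) * w.re; exp (-(z / 2)) * w.im,
      exp (-(z / 2))] := by
  simp only [T, Matrix.SpecialLinearGroup.coe_mul]
  ext i j
  fin_cases i <;> fin_cases j <;> simp [a, y, Matrix.mul_apply, Fin.sum_univ_two]

/-- its inverse -/
def Ti (x : SL) : ℂ × ℝ :=
  (⟨(x : M2) 0 1 * (x : M2) 1 1, (x : M2) 1 0 / (x : M2) 1 1⟩, -2 * log ((x : M2) 1 1))

lemma Ti_T (p : ℂ × ℝ) : Ti (T p) = p := by
  obtain ⟨w, z⟩ := p
  have h := T_val w z
  have h01 : ((T (w, z) : SL) : M2) 0 1 = exp (z / 2) * w.re := by rw [h]; simp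
  have h10 : ((T (w, z) : SL) : M2) 1 0 = exp (-(z / 2)) * w.im := by rw [h]; simp
  have h11 : ((T (w, z) : SL) : M2) 1 1 = exp (-(z / 2)) := by rw [h]; simp
  unfold Ti
  rw [h01, h10, h11]
  refine Prod.ext (Complex.ext ?_ ?_) ?_
  · show exp (z / 2) * w.re * exp (-(z / 2)) = w.re
    have : exp (z / 2) * exp (-(z / 2)) = 1 := by rw [← Real.exp_add]; simp
    calc exp (z / 2) * w.re * exp (-(z / 2)) = (exp (z / 2) * exp (-(z / 2))) * w.re := by ring
      _ = w.re := by rw [this, one_mul]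
  · show exp (-(z / 2)) * w.im / exp (-(z / 2)) = w.im
    field_simp
  · show -2 * log (exp (-(z / 2))) = z
    rw [Real.log_exp]; ring

lemma T_Ti {x : SL} (hx : 0 < (x : M2) 1 1) : T (Ti x) = x := by
  apply Subtype.ext
  have hdet : (x : M2) 0 0 * (x : M2) 1 1 - (x : M2) 0 1 * (x : M2) 1 0 = 1 := by
    rw [← Matrix.det_fin_two]; exact x.2
  have e1 : exp (-((-2 * log ((x : M2) 1 1)) / 2)) = (x : M2) 1 1 := by
    rw [show -((-2 * log ((x : M2) 1 1)) / 2) = log ((x : M2) 1 1) by ring, Real.exp_log hx]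
  have e2 : exp ((-2 * log ((x : M2) 1 1)) / 2) = ((x : M2) 1 1)⁻¹ := by
    rw [show (-2 * log ((x : M2) 1 1)) / 2 = -log ((x : M2) 1 1) by ring, Real.exp_neg,
      Real.exp_log hx]
  have h := T_val (Ti x).1 (Ti x).2
  have h' : ((T (Ti x) : SL) : M2) = (x : M2) := by
    rw [show T (Ti x) = T ((Ti x).1, (Ti x).2) from rfl, h]
    simp only [Ti]
    rw [e1, e2]
    ext i j
    have hne := hx.ne'
    fin_cases i <;> fin_cases j <;> simp
    · field_simp
      linarith
    · field_simp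
    · field_simp
  exact h'

lemma T_pos (p : ℂ × ℝ) : 0 < ((T p : SL) : M2) 1 1 := by
  obtain ⟨w, z⟩ := p
  rw [T_val]; simp; positivity

lemma open_pos : IsOpen {x : SL | 0 < (x : M2) 1 1} :=
  isOpen_lt continuous_const (cont_entry 1 1)

lemma contOn_Ti : ContinuousOn Ti {x : SL | 0 < (x : M2) 1 1} := by
  have h01 := cont_entry 0 1
  have h10 := cont_entry 1 0
  have h11 := cont_entry 1 1
  have e : Ti = fun x : SL => ((((x : M2) 0 1 * (x : M2) 1 1 : ℝ) : ℂ) +
      (((x : M2) 1 0 / (x : M2) 1 1 : ℝ) : ℂ) * Complex.I, -2 * log ((x : M2) 1 1)) := by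
    funext x
    refine Prod.ext (Complex.ext ?_ ?_) rfl
    · simp [Ti]
    · simp [Ti]
  rw [e]
  refine ContinuousOn.prodMk ?_ ?_
  · refine ContinuousOn.add ?_ (ContinuousOn.mul ?_ continuousOn_const)
    · exact Complex.continuous_ofReal.comp_continuousOn (h01.mul h11).continuousOn
    · refine Complex.continuous_ofReal.comp_continuousOn ?_
      exact h10.continuousOn.div h11.continuousOn (fun x hx => ne_of_gt hx)
  · refine continuousOn_const.mul ?_
    exact h11.continuousOn.log (fun x hx => ne_of_gt hx)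

lemma isOpenMap_T : IsOpenMap T := by
  intro U hU
  have : T '' U = {x : SL | 0 < (x : M2) 1 1} ∩ Ti ⁻¹' U := by
    ext x
    constructor
    · rintro ⟨p, hp, rfl⟩
      exact ⟨T_pos p, by simpa [Ti_T] using hp⟩
    · rintro ⟨hx, hx'⟩
      exact ⟨Ti x, hx', T_Ti hx⟩
  rw [this]
  exact contOn_Ti.isOpen_inter_preimage open_pos hU

/-- punctured tube over `ℝ` -/
abbrev Yt : Type := {p : ℂ × ℝ // p.1 ≠ 0 ∧ ‖p.1‖ < ε0}

/-- punctured solid torus -/
abbrev Xt : Type := {p : ℂ × AddCircle (2 : ℝ) // p.1 ≠ 0 ∧ ‖p.1‖ < ε0}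

lemma isOpen_Ys : IsOpen {p : ℂ × ℝ | p.1 ≠ 0 ∧ ‖p.1‖ < ε0} :=
  (isOpen_ne.preimage continuous_fst).inter (isOpen_lt continuous_fst.norm continuous_const)

lemma s0_pos : 0 < s0 := by
  have : 0 < r0 := by
    rw [r0, Real.arsinh_pos_iff]; positivity
  rw [s0]; linarith

/-- the projection of the tubes -/
def pi0 (p : Yt) : Xt := ⟨(p.1.1, ((p.1.2 / s0 : ℝ) : AddCircle (2 : ℝ))), p.2⟩

lemma cont_pi0 : Continuous pi0 := by
  refine Continuous.subtype_mk ?_ _
  refine Continuous.prodMk (continuous_fst.comp continuous_subtype_val) ?_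
  exact (AddCircle.continuous_mk' 2).comp
    ((continuous_snd.comp continuous_subtype_val).div_const s0)

lemma surj_pi0 : Function.Surjective pi0 := by
  rintro ⟨⟨w, t⟩, h⟩
  obtain ⟨r, rfl⟩ := QuotientAddGroup.mk_surjective t
  refine ⟨⟨(w, r * s0), h⟩, ?_⟩
  apply Subtype.ext
  show (w, ((r * s0 / s0 : ℝ) : AddCircle (2 : ℝ))) = (w, (r : AddCircle (2 : ℝ)))
  rw [mul_div_cancel_right₀ _ s0_pos.ne']

lemma isOpenMap_q : IsOpenMap (fun z : ℝ => ((z / s0 : ℝ) : AddCircle (2 : ℝ))) := by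
  have h1 : IsOpenMap (fun z : ℝ => z / s0) := by
    have := (Homeomorph.mulRight₀ (s0⁻¹) (inv_ne_zero s0_pos.ne')).isOpenMap
    simpa [div_eq_mul_inv] using this
  exact QuotientAddGroup.isOpenMap_coe.comp h1

lemma isOpenMap_pi0 : IsOpenMap pi0 := by
  have h1 : IsOpenMap (Prod.map (id : ℂ → ℂ) (fun z : ℝ => ((z / s0 : ℝ) : AddCircle (2 : ℝ)))) :=
    IsOpenMap.id.prodMap isOpenMap_q
  intro U hU
  obtain ⟨V, hV, rfl⟩ := isOpen_induced_iff.mp hU
  refine isOpen_induced_iff.mpr ⟨_, h1 _ (hV.inter isOpen_Ys), ?_⟩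
  ext ⟨⟨w, t⟩, h⟩
  constructor
  · rintro ⟨⟨w', z⟩, ⟨hz, hz'⟩, he⟩
    refine ⟨⟨(w', z), hz'⟩, hz, ?_⟩
    apply Subtype.ext
    exact he
  · rintro ⟨⟨⟨w', z⟩, h'⟩, hz, he⟩
    refine ⟨(w', z), ⟨hz, h'⟩, ?_⟩
    exact congrArg Subtype.val he

end TubeB

open TubeB in
theorem tubeB (hA : TubeAStmt) (hQ : QuotAStmt) (_hS : StabStmt) : TubeBStmt := by
  intro g hg
  obtain ⟨-, hA2, hA3, -, hA5⟩ := hA
  obtain ⟨hE, hpr, -⟩ := hQ
  -- the lift
  have hmem : ∀ p : Yt, tb g p.1.2 p.1.1 ∈ E := fun p => hA2 g hg _ _ p.2.1 p.2.2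
  set L : Yt → E := fun p => ⟨tb g p.1.2 p.1.1, hmem p⟩ with hL
  set F : Xt → M := fun p => psi g p.1 with hF
  have hFpi : ∀ p : Yt, F (pi0 p) = pr (L p) := by
    intro p
    have h3 := hA3 g hg p.1.2 p.1.1 p.2.2
    have h4 : F (pi0 p) = prT (tb g p.1.2 p.1.1) := h3
    rw [h4, prT, dif_pos (hmem p)]
  have hT : ∀ p : Yt, tb g p.1.2 p.1.1 = g * T p.1 := by
    intro p
    simp only [tb, T, mul_assoc]
  have hLc : Continuous L := by
    refine Continuous.subtype_mk ?_ _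
    have : (fun p : Yt => tb g p.1.2 p.1.1) = fun p : Yt => g * T p.1 := funext hT
    rw [this]
    exact continuous_const.mul (cont_T.comp continuous_subtype_val)
  have hLo : IsOpenMap L := by
    have h1 : IsOpenMap (fun p : Yt => g * T p.1) := by
      have h2 : IsOpenMap (fun p : Yt => T p.1) := isOpenMap_T.comp isOpen_Ys.isOpenMap_subtype_val
      exact (isOpenMap_mul_left g).comp h2
    intro U hU
    refine isOpen_induced_iff.mpr ⟨_, h1 U hU, ?_⟩
    ext x
    constructor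
    · rintro ⟨p, hp, he⟩
      refine ⟨p, hp, Subtype.ext ?_⟩
      rw [← he]
      exact hT p
    · rintro ⟨p, hp, he⟩
      refine ⟨p, hp, ?_⟩
      rw [← he]
      exact (hT p).symm
  have hprc : Continuous pr := hpr.continuous
  have hpro : IsOpenMap pr := hpr.isCoveringMap.isOpenMap
  have hGc : Continuous (fun p => F (pi0 p)) := by
    have : (fun p => F (pi0 p)) = fun p => pr (L p) := funext hFpi
    rw [this]
    exact hprc.comp hLc
  have hquot : IsOpenQuotientMap pi0 := ⟨surj_pi0, cont_pi0, isOpenMap_pi0⟩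
  have hFc : Continuous F := hquot.isQuotientMap.continuous_iff.mpr hGc
  have hFo : IsOpenMap F := by
    intro U hU
    have h1 : F '' U = (fun p => pr (L p)) '' (pi0 ⁻¹' U) := by
      ext m
      constructor
      · rintro ⟨p, hp, rfl⟩
        obtain ⟨q, rfl⟩ := surj_pi0 p
        exact ⟨q, hp, (hFpi q).symm⟩
      · rintro ⟨q, hq, rfl⟩
        exact ⟨pi0 q, hq, hFpi q⟩
    rw [h1]
    exact (hpro.comp hLo) _ (hU.preimage cont_pi0)
  have hFi : Function.Injective F := by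
    intro p q hpq
    obtain ⟨p, rfl⟩ := surj_pi0 p
    obtain ⟨q, rfl⟩ := surj_pi0 q
    rw [hFpi, hFpi] at hpq
    have h1 : MulAction.orbitRel Gam E (L p) (L q) := Quotient.exact hpq
    rw [MulAction.orbitRel_apply] at h1
    obtain ⟨γ, hγ⟩ := h1
    have h2 : tb g p.1.2 p.1.1 = (γ : SL) * tb g q.1.2 q.1.1 := by
      have := congrArg Subtype.val hγ
      exact this.symm
    obtain ⟨k, -, hw, hz⟩ := hA5 g hg _ _ _ _ p.2.2 q.2.2 γ.1 γ.2 h2
    apply Subtype.ext
    refine Prod.ext hw ?_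
    show ((p.1.2 / s0 : ℝ) : AddCircle (2 : ℝ)) = ((q.1.2 / s0 : ℝ) : AddCircle (2 : ℝ))
    rw [hz]
    have h3 : (q.1.2 + 2 * s0 * k) / s0 = q.1.2 / s0 + (k : ℤ) • (2 : ℝ) := by
      have := s0_pos.ne'
      field_simp
      simp
      ring
    rw [h3, AddCircle.coe_add, AddCircle.coe_zsmul, AddCircle.coe_period, smul_zero, add_zero]
  exact IsOpenEmbedding.of_continuous_injective_isOpenMap hFc hFi hFo

end AdT
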