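import Pool.Agent.Helper88.AdT.Stmts1

/-!
# the winding of th2 around the origin
-/

open Matrix Real Topology Filter Set

noncomputable section

namespace AdT

namespace Wind

lemma tw_eq (w : ℂ) : tw w = w.im * (1 + w.re * w.im) + w.re := by
  have : Dm = nm (1 : ℝ) 0 0 := rfl
  rw [tw, this, tau_nm]
  simp [y]
  ring

lemma nw_eq (w : ℂ) : nw w = w.im * (1 + w.re * w.im) - w.re := by
  have : Dm = nm (1 : ℝ) 0 0 := rfl
  rw [nw, this, nu_nm]
  simp [y]
  ring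

lemma re_eq (ρ φ : ℝ) : ((ρ : ℂ) * Complex.exp (φ * Complex.I)).re = ρ * Real.cos φ := by
  rw [Complex.re_ofReal_mul, Complex.exp_ofReal_mul_I_re]

lemma im_eq (ρ φ : ℝ) : ((ρ : ℂ) * Complex.exp (φ * Complex.I)).im = ρ * Real.sin φ := by
  rw [Complex.im_ofReal_mul, Complex.exp_ofReal_mul_I_im]

/-- the coordinates along a circle -/
def T (ρ φ : ℝ) : ℝ := tw (ρ * Complex.exp (φ * Complex.I))
def N (ρ φ : ℝ) : ℝ := nw (ρ * Complex.exp (φ * Complex.I))

lemma T_eq (ρ φ : ℝ) : T ρ φ =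
    ρ * (Real.sin φ + Real.cos φ + ρ ^ 2 * Real.sin φ ^ 2 * Real.cos φ) := by
  rw [T, tw_eq, re_eq, im_eq]; ring

lemma N_eq (ρ φ : ℝ) : N ρ φ =
    ρ * (Real.sin φ - Real.cos φ + ρ ^ 2 * Real.sin φ ^ 2 * Real.cos φ) := by
  rw [N, nw_eq, re_eq, im_eq]; ring

lemma continuous_T (ρ : ℝ) : Continuous (T ρ) := by
  have : T ρ = fun φ => ρ * (Real.sin φ + Real.cos φ + ρ ^ 2 * Real.sin φ ^ 2 * Real.cos φ) :=
    funext (T_eq ρ)
  rw [this]; fun_prop

lemma continuous_N (ρ : ℝ) : Continuous (N ρ) := by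
  have : N ρ = fun φ => ρ * (Real.sin φ - Real.cos φ + ρ ^ 2 * Real.sin φ ^ 2 * Real.cos φ) :=
    funext (N_eq ρ)
  rw [this]; fun_prop

lemma T_add_pi (ρ φ : ℝ) : T ρ (φ + π) = -T ρ φ := by
  rw [T_eq, T_eq, Real.sin_add_pi, Real.cos_add_pi]; ring

lemma N_add_pi (ρ φ : ℝ) : N ρ (φ + π) = -N ρ φ := by
  rw [N_eq, N_eq, Real.sin_add_pi, Real.cos_add_pi]; ring

/-- the angle where the second coordinate vanishes, and the sign of the second coordinate -/
lemma exists_angle {ρ : ℝ} (h0 : 0 < ρ) (h1 : ρ < ε0) : ∃ φs : ℝ, N ρ φs = 0 ∧ 0 < T ρ φs ∧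
    ∀ φ ∈ Ioo φs (φs + π), 0 < N ρ φ := by
  have hρ : ρ < 1 / 4 := h1
  have hρ2 : ρ ^ 2 < 1 := by nlinarith
  have hs4 : 0 < Real.sin (π / 4) := Real.sin_pos_of_pos_of_lt_pi (by positivity) (by linarith [Real.pi_pos])
  have hIVT : ∃ φs ∈ Icc (0 : ℝ) (π / 4), N ρ φs = 0 := by
    have := intermediate_value_Icc (show (0 : ℝ) ≤ π / 4 by positivity)
      (continuous_N ρ).continuousOn
    have hmem : (0 : ℝ) ∈ Icc (N ρ 0) (N ρ (π / 4)) := by
      rw [N_eq, N_eq]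
      constructor
      · simp; linarith
      · rw [Real.sin_pi_div_four, Real.cos_pi_div_four]
        have : (0 : ℝ) < √2 := by positivity
        have h2 : 0 ≤ ρ * (√2 / 2 - √2 / 2 + ρ ^ 2 * (√2 / 2) ^ 2 * (√2 / 2)) := by
          rw [sub_self, zero_add]; positivity
        exact h2
    obtain ⟨φs, h2, h3⟩ := this hmem
    exact ⟨φs, h2, h3⟩
  obtain ⟨φs, ⟨hφ0, hφ4⟩, hN⟩ := hIVT
  have hc : 0 < Real.cos φs := Real.cos_pos_of_mem_Ioo ⟨by linarith [Real.pi_pos], by linarith [Real.pi_pos]⟩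
  have hs : 0 ≤ Real.sin φs := Real.sin_nonneg_of_nonneg_of_le_pi hφ0 (by linarith [Real.pi_pos])
  have hN' : Real.sin φs - Real.cos φs + ρ ^ 2 * Real.sin φs ^ 2 * Real.cos φs = 0 := by
    rw [N_eq] at hN
    exact (mul_eq_zero.mp hN).resolve_left h0.ne'
  refine ⟨φs, hN, ?_, ?_⟩
  · rw [T_eq]
    positivity
  · rintro φ ⟨ha, hb⟩
    have hδ : 0 < Real.sin (φ - φs) := Real.sin_pos_of_pos_of_lt_pi (by linarith) (by linarith)
    have hsub := Real.sin_sub φ φs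
    have hadd := Real.sin_add φ φs
    have e1 := Real.sin_sq_add_cos_sq φ
    have e2 := Real.sin_sq_add_cos_sq φs
    have key : Real.cos φs * (Real.sin φ - Real.cos φ + ρ ^ 2 * Real.sin φ ^ 2 * Real.cos φ) =
        Real.sin (φ - φs) * (1 + ρ ^ 2 * Real.cos φ * Real.cos φs * Real.sin (φ + φs)) := by
      rw [hsub, hadd]
      linear_combination (Real.cos φ) * hN' + ρ ^ 2 * Real.cos φ * Real.cos φs * (
        - Real.sin φ ^ 2 * e2 + Real.sin φs ^ 2 * e1)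
    have hb1 : -1 ≤ Real.cos φ * Real.cos φs * Real.sin (φ + φs) := by
      have a1 := Real.abs_cos_le_one φ
      have a2 := Real.abs_cos_le_one φs
      have a3 := Real.abs_sin_le_one (φ + φs)
      have : |Real.cos φ * Real.cos φs * Real.sin (φ + φs)| ≤ 1 := by
        rw [abs_mul, abs_mul]
        exact mul_le_one₀ (mul_le_one₀ a1 (abs_nonneg _) a2) (abs_nonneg _) a3
      exact (abs_le.mp this).1
    have hpos : 0 < 1 + ρ ^ 2 * Real.cos φ * Real.cos φs * Real.sin (φ + φs) := by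
      nlinarith [sq_nonneg ρ]
    have : 0 < Real.cos φs *
        (Real.sin φ - Real.cos φ + ρ ^ 2 * Real.sin φ ^ 2 * Real.cos φ) := by
      rw [key]; positivity
    rw [N_eq]
    exact mul_pos h0 (pos_of_mul_pos_right this hc.le)

lemma isDiscrete_int : IsDiscrete (range (fun k : ℤ => (k : ℝ))) := by
  have h : IsEmbedding (fun k : ℤ => (k : ℝ)) := Int.isClosedEmbedding_coe_real.isEmbedding
  refine ⟨?_⟩
  exact (h.toHomeomorph.symm).isEmbedding.discreteTopology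

lemma coe_eq_iff (x z : ℝ) : (x : AddCircle (2 : ℝ)) = (z : AddCircle (2 : ℝ)) ↔
    ∃ k : ℤ, x - z = 2 * k := by
  rw [← sub_eq_zero, ← AddCircle.coe_sub, AddCircle.coe_eq_zero_iff]
  constructor
  · rintro ⟨k, hk⟩
    exact ⟨k, by rw [← hk]; simp; ring⟩
  · rintro ⟨k, hk⟩
    exact ⟨k, by rw [hk]; simp; ring⟩

/-- on an arc where a lift is given by a function with values in `[m, m + 1]` -/
lemma arc {F g : ℝ → ℝ} {c d : ℝ} (hcd : c < d) (m : ℝ) (hF : Continuous F)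
    (hg : ContinuousOn g (Ioo c d)) (hval : ∀ φ ∈ Ioo c d, g φ ∈ Icc m (m + 1))
    (heq : ∀ φ ∈ Ioo c d, (F φ : AddCircle (2 : ℝ)) = (g φ : AddCircle (2 : ℝ))) :
    ∃ k : ℤ, F c ∈ Icc (2 * k + m) (2 * k + m + 1) ∧ F d ∈ Icc (2 * k + m) (2 * k + m + 1) := by
  obtain ⟨_, ⟨k, rfl⟩, hk⟩ := (isPreconnected_Ioo (a := c) (b := d)).eqOn_const_of_mapsTo
    isDiscrete_int (f := fun φ => (F φ - g φ) / 2) ((hF.continuousOn.sub hg).div_const _)
    (by
      intro φ hφ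
      obtain ⟨k, hk⟩ := (coe_eq_iff _ _).mp (heq φ hφ)
      exact ⟨k, by simp only; rw [hk]; ring⟩) (range_nonempty _)
  have hcl : Icc c d ⊆ F ⁻¹' (Icc (2 * (k : ℝ) + m) (2 * k + m + 1)) := by
    rw [← closure_Ioo hcd.ne]
    apply closure_minimal _ (isClosed_Icc.preimage hF)
    intro φ hφ
    have h1 := hk hφ
    have h2 := hval φ hφ
    simp only [Function.const_apply] at h1
    constructor
    · linarith [h2.1]
    · linarith [h2.2]
  exact ⟨k, hcl ⟨le_rfl, hcd.le⟩, hcl ⟨hcd.le, le_rfl⟩⟩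

lemma clamp_mem (x : ℝ) : clamp x ∈ Icc (-1 : ℝ) 1 :=
  ⟨le_max_left _ _, max_le (by norm_num) (min_le_left _ _)⟩

lemma u0_mem (τ ν : ℝ) : u0 τ ν ∈ Icc (0 : ℝ) 1 := by
  have := clamp_mem (arsinh τ / m0 ν)
  constructor
  · rw [u0]; linarith [this.1]
  · rw [u0]; linarith [this.2]

lemma m0_ne (hr : 0 < r0) {ν : ℝ} (h : ν ≠ 0) : m0 ν ≠ 0 := by
  rcases lt_or_gt_of_ne h with h | h
  · have : m0 ν < 0 := max_lt (by linarith) ((min_le_right _ _).trans_lt h)
    exact this.ne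
  · have : 0 < m0 ν := lt_max_of_lt_right (lt_min hr h)
    exact this.ne'

lemma continuousOn_u0 (hr : 0 < r0) (ρ : ℝ) {s : Set ℝ} (hs : ∀ φ ∈ s, N ρ φ ≠ 0) :
    ContinuousOn (fun φ => u0 (T ρ φ) (N ρ φ)) s := by
  unfold u0
  have hcl : Continuous clamp := by
    unfold clamp
    exact continuous_const.max (continuous_const.min continuous_id)
  have h1 : Continuous (fun φ => m0 (N ρ φ)) := by
    unfold m0
    exact continuous_const.max (continuous_const.min (continuous_N ρ))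
  have h2 : ContinuousOn (fun φ => arsinh (T ρ φ) / m0 (N ρ φ)) s :=
    ((Real.continuous_arsinh.comp (continuous_T ρ)).continuousOn).div h1.continuousOn
      (fun φ hφ => m0_ne hr (hs φ hφ))
  exact continuousOn_const.add ((hcl.comp_continuousOn h2).div_const _)

lemma step (hr : 0 < r0) {ρ : ℝ} (h0 : 0 < ρ) (h1 : ρ < ε0) {F : ℝ → ℝ} (hF : Continuous F)
    (hFe : ∀ φ, (F φ : AddCircle (2 : ℝ)) = th2 (T ρ φ) (N ρ φ)) :
    ∃ φs, F (φs + 2 * π) = F φs - 2 := by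
  obtain ⟨φs, hN, hT, hpos⟩ := exists_angle h0 h1
  have hπ := Real.pi_pos
  refine ⟨φs, ?_⟩
  have hneg : ∀ φ ∈ Ioo (φs + π) (φs + 2 * π), N ρ φ < 0 := by
    rintro φ ⟨ha, hb⟩
    have := hpos (φ - π) ⟨by linarith, by linarith⟩
    have h2 := N_add_pi ρ (φ - π)
    rw [sub_add_cancel] at h2
    linarith
  have v0 : (F φs : AddCircle (2 : ℝ)) = ((1 : ℝ) : AddCircle (2 : ℝ)) := by
    rw [hFe, th2, if_pos hN, if_pos hT]
  have v1 : (F (φs + π) : AddCircle (2 : ℝ)) = ((0 : ℝ) : AddCircle (2 : ℝ)) := by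
    rw [hFe, th2, N_add_pi, T_add_pi, hN, if_pos (neg_zero), if_neg (by linarith)]
    simp
  have v2 : (F (φs + 2 * π) : AddCircle (2 : ℝ)) = ((1 : ℝ) : AddCircle (2 : ℝ)) := by
    have e : φs + 2 * π = φs + π + π := by ring
    rw [hFe, e, th2, N_add_pi, T_add_pi, N_add_pi, T_add_pi, hN, if_pos (by simp),
      if_pos (by simpa using hT)]
  obtain ⟨k, hk1, hk2⟩ := arc (F := F) (g := fun φ => u0 (T ρ φ) (N ρ φ)) (c := φs) (d := φs + π)
    (by linarith) 0 hF (continuousOn_u0 hr ρ fun φ hφ => (hpos φ hφ).ne')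
    (fun φ _ => by simpa using u0_mem _ _)
    (fun φ hφ => by rw [hFe, th2, if_neg (hpos φ hφ).ne', if_pos (hpos φ hφ)])
  obtain ⟨l, hl1, hl2⟩ := arc (F := F) (g := fun φ => u0 (T ρ φ) (N ρ φ) + 1) (c := φs + π)
    (d := φs + 2 * π) (by linarith) 1 hF
    ((continuousOn_u0 hr ρ fun φ hφ => (hneg φ hφ).ne).add continuousOn_const)
    (fun φ _ => by
      have := u0_mem (T ρ φ) (N ρ φ)
      exact ⟨by linarith [this.1], by linarith [this.2]⟩)
    (fun φ hφ => by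
      rw [hFe, th2, if_neg (hneg φ hφ).ne, if_neg (hneg φ hφ).not_gt])
  obtain ⟨j0, hj0⟩ := (coe_eq_iff _ _).mp v0
  obtain ⟨j1, hj1⟩ := (coe_eq_iff _ _).mp v1
  obtain ⟨j2, hj2⟩ := (coe_eq_iff _ _).mp v2
  simp only [mem_Icc, add_zero] at hk1 hk2 hl1 hl2
  have a1 : j0 = k := by
    have i1 : (j0 : ℝ) ≤ k := by linarith
    have i2 : (k : ℝ) < j0 + 1 := by linarith
    have i1' : j0 ≤ k := by exact_mod_cast i1
    have i2' : k < j0 + 1 := by exact_mod_cast i2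
    omega
  have a2 : j1 = k := by
    have i1 : (k : ℝ) ≤ j1 := by linarith
    have i2 : (j1 : ℝ) < k + 1 := by linarith
    have i1' : k ≤ j1 := by exact_mod_cast i1
    have i2' : j1 < k + 1 := by exact_mod_cast i2
    omega
  have a3 : j1 = l + 1 := by
    have i1 : (l : ℝ) < j1 := by linarith
    have i2 : (j1 : ℝ) ≤ l + 1 := by linarith
    have i1' : l < j1 := by exact_mod_cast i1
    have i2' : j1 ≤ l + 1 := by exact_mod_cast i2
    omega
  have a4 : j2 = l := by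
    have i1 : (l : ℝ) ≤ j2 := by linarith
    have i2 : (j2 : ℝ) < l + 1 := by linarith
    have i1' : l ≤ j2 := by exact_mod_cast i1
    have i2' : j2 < l + 1 := by exact_mod_cast i2
    omega
  have b1 : (j0 : ℝ) = l + 1 := by
    have : j0 = l + 1 := by omega
    exact_mod_cast this
  have b2 : (j2 : ℝ) = l := by exact_mod_cast a4
  rw [b2] at hj2
  rw [b1] at hj0
  linarith

end Wind

open Wind

theorem wind (h : ThStmt) : WindStmt := by
  intro F hF hFe ρ φ h0 h1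
  have hr : 0 < r0 := h.2.2.2.2.2.1
  have hc : Continuous (F ρ) := by
    rw [← continuousOn_univ]
    exact hF.comp (f := fun φ : ℝ => (ρ, φ)) (by fun_prop) (fun _ _ => ⟨h0, h1⟩)
  have hFe' : ∀ φ, (F ρ φ : AddCircle (2 : ℝ)) = th2 (T ρ φ) (N ρ φ) := fun φ => hFe ρ φ h0 h1
  obtain ⟨φs, hφs⟩ := step hr h0 h1 hc hFe'
  obtain ⟨_, ⟨k, rfl⟩, hk⟩ := (isPreconnected_univ (α := ℝ)).eqOn_const_of_mapsTo
    isDiscrete_int (f := fun φ => (F ρ (φ + 2 * π) - F ρ φ) / 2)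
    (((hc.comp (continuous_id.add continuous_const)).sub hc).div_const _).continuousOn
    (by
      intro φ _
      have e : (F ρ (φ + 2 * π) : AddCircle (2 : ℝ)) = (F ρ φ : AddCircle (2 : ℝ)) := by
        have e2 : φ + 2 * π = φ + π + π := by ring
        rw [hFe', hFe', e2, T_add_pi, N_add_pi, T_add_pi, N_add_pi, neg_neg, neg_neg]
      obtain ⟨k, hk⟩ := (coe_eq_iff _ _).mp e
      exact ⟨k, by simp only; rw [hk]; ring⟩) (range_nonempty _)
  have e1 := hk (mem_univ φs)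
  have e2 := hk (mem_univ φ)
  simp only [Function.const_apply] at e1 e2
  linarith

end AdT
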