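import Pool.Agent.Helper88.AdT.TubeA
import Pool.Agent.Helper88.AdT.TubeB
import Pool.Agent.Helper88.AdT.Wind

/-!
AD-15 : the tachyon charts around the circles of the link.
-/

open Matrix Real Topology Filter Set

noncomputable section

namespace AdT.Tach2

/-- real lifts of circle valued functions on convex open sets -/
lemma exists_lift {V : Type} [NormedAddCommGroup V] [NormedSpace ℝ V] {p : ℝ}
    {D : Set V} (hDo : IsOpen D) (hDc : Convex ℝ D) (f : V → AddCircle p)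
    (hf : ContinuousOn f D) {x0 : V} (hx0 : x0 ∈ D) {v0 : ℝ} (hv : (v0 : AddCircle p) = f x0) :
    ∃ F : V → ℝ, ContinuousOn F D ∧ (∀ x ∈ D, (F x : AddCircle p) = f x) ∧ F x0 = v0 := by
  have : ContractibleSpace D := hDc.contractibleSpace ⟨x0, hx0⟩
  have : LocallyPathConnectedSpace D := hDo.locallyPathConnectedSpace
  obtain ⟨F, ⟨hF0, hFl⟩, -⟩ := (AddCircle.isCoveringMap_coe p).existsUnique_continuousMap_lifts
    (⟨D.domRestrict f, hf.domRestrict⟩ : C(D, AddCircle p)) ⟨x0, hx0⟩ v0 hv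
  classical
  refine ⟨fun x => if h : x ∈ D then F ⟨x, h⟩ else 0, ?_, ?_, ?_⟩
  · rw [continuousOn_iff_continuous_domRestrict]
    have : D.domRestrict (fun x => if h : x ∈ D then F ⟨x, h⟩ else 0) = F := by
      funext x
      simp
    rw [this]
    exact F.continuous
  · intro x hx
    simp only [dif_pos hx]
    exact congrFun hFl ⟨x, hx⟩
  · simp only [dif_pos hx0]
    exact hF0

/-- two lifts differ by a constant -/
lemma lift_diff {V : Type} [TopologicalSpace V] {p : ℝ} {D : Set V} (hD : IsPreconnected D)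
    {F F' : V → ℝ} (hF : ContinuousOn F D) (hF' : ContinuousOn F' D)
    (h : ∀ x ∈ D, (F x : AddCircle p) = F' x) {x z : V} (hx : x ∈ D) (hz : z ∈ D) :
    F x - F' x = F z - F' z := by
  by_cases hp : p = 0
  · have h1 : ∀ x ∈ D, F x = F' x := by
      intro x hx
      have h2 := (QuotientAddGroup.eq_iff_sub_mem).mp (h x hx)
      obtain ⟨n, hn⟩ := AddSubgroup.mem_zmultiples_iff.mp h2
      rw [hp, smul_zero] at hn
      linarith
    rw [h1 x hx, h1 z hz]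
    ring
  · have hc : ContinuousOn (fun x => (F x - F' x) / p) D := (hF.sub hF').div_const p
    have hm : ∀ x ∈ D, ∃ n : ℤ, (F x - F' x) / p = n := by
      intro x hx
      have h2 := (QuotientAddGroup.eq_iff_sub_mem).mp (h x hx)
      obtain ⟨n, hn⟩ := AddSubgroup.mem_zmultiples_iff.mp h2
      rw [zsmul_eq_mul] at hn
      exact ⟨n, by rw [← hn]; field_simp⟩
    have him : IsPreconnected ((fun x => (F x - F' x) / p) '' D) := hD.image _ hc
    have hoc := him.ordConnected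
    have key : ∀ u ∈ D, ∀ v ∈ D, (F u - F' u) / p ≤ (F v - F' v) / p := by
      intro u hu v hv
      by_contra hlt
      push Not at hlt
      obtain ⟨n, hn⟩ := hm u hu
      obtain ⟨m, hmm⟩ := hm v hv
      rw [hn, hmm] at hlt
      have hlt' : m < n := by exact_mod_cast hlt
      have h3 : (m : ℝ) + 1 ≤ n := by exact_mod_cast hlt'
      have h4 : (m : ℝ) + 1 / 2 ∈ ((fun x => (F x - F' x) / p) '' D) := by
        apply hoc.out (mem_image_of_mem _ hv) (mem_image_of_mem _ hu)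
        simp only [hn, hmm]
        constructor <;> linarith
      obtain ⟨x', hx', he⟩ := h4
      obtain ⟨k, hk⟩ := hm x' hx'
      simp only [hk] at he
      have h5 : (2 * k : ℝ) = 2 * m + 1 := by linarith
      have h6 : 2 * k = 2 * m + 1 := by exact_mod_cast h5
      omega
    have := le_antisymm (key x hx z hz) (key z hz x hx)
    field_simp at this
    exact this

/-- a lift of a function avoiding a value varies by less than a period -/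
lemma lift_bdd {V : Type} [TopologicalSpace V] {B : Set V} (hB : IsPreconnected B)
    {F : V → ℝ} (hF : ContinuousOn F B) (c : ℝ)
    (h : ∀ x ∈ B, (F x : AddCircle (2 : ℝ)) ≠ c) {x z : V} (hx : x ∈ B) (hz : z ∈ B) :
    |F x - F z| ≤ 2 := by
  have hoc := (hB.image _ hF).ordConnected
  have key : ∀ u ∈ B, ∀ v ∈ B, F u - F v ≤ 2 := by
    intro u hu v hv
    by_contra hlt
    push Not at hlt
    -- a representative of `c` in `[F v, F u]`
    set n := ⌈(F v - c) / 2⌉ with hn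
    have h1 : (F v - c) / 2 ≤ n := Int.le_ceil _
    have h2 : (n : ℝ) < (F v - c) / 2 + 1 := Int.ceil_lt_add_one _
    have h4 : c + 2 * n ∈ F '' B := by
      apply hoc.out (mem_image_of_mem _ hv) (mem_image_of_mem _ hu)
      constructor <;> linarith
    obtain ⟨x', hx', he⟩ := h4
    apply h x' hx'
    rw [he]
    have : ((2 * n : ℝ) : AddCircle (2 : ℝ)) = 0 := by
      rw [QuotientAddGroup.eq_zero_iff, AddSubgroup.mem_zmultiples_iff]
      exact ⟨n, by rw [zsmul_eq_mul]; ring⟩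
    rw [AddCircle.coe_add, this, add_zero]
  exact abs_sub_le_iff.mpr ⟨key x hx z hz, key z hz x hx⟩

/-- the chart around a circle -/
lemma exists_chart {X : Type} [TopologicalSpace X] [Nonempty X] (k : ST ε0 → X)
    (hk : IsOpenEmbedding k)
    (zz ϑ₀ : ℝ) (hz : 0 < zz) : ∃ κ : OpenPartialHomeomorph X (ℂ × ℝ),
      (κ.source = {q | ∃ (p : ST ε0) (ϑ : ℝ), |ϑ - ϑ₀| < 1 / 2 ∧
        p.1.2 = (ϑ : AddCircle (2 : ℝ)) ∧ k p = q}) ∧
      (∀ (p : ST ε0) (ϑ : ℝ), |ϑ - ϑ₀| < 1 / 2 → p.1.2 = (ϑ : AddCircle (2 : ℝ)) →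
        κ (k p) = (p.1.1, zz / 2 * ϑ)) ∧
      κ.target = Metric.ball (0 : ℂ) ε0 ×ˢ Ioo (zz / 2 * (ϑ₀ - 1 / 2)) (zz / 2 * (ϑ₀ + 1 / 2)) ∧
      (∀ (w : ℂ) (T : ℝ) (hw : ‖w‖ < ε0),
        T ∈ Ioo (zz / 2 * (ϑ₀ - 1 / 2)) (zz / 2 * (ϑ₀ + 1 / 2)) →
        κ.symm (w, T) = k ⟨(w, ((2 / zz * T : ℝ) : AddCircle (2 : ℝ))), hw⟩) := by
  classical
  set T₁ := zz / 2 * (ϑ₀ - 1 / 2) with hT₁
  set T₂ := zz / 2 * (ϑ₀ + 1 / 2) with hT₂
  set D : Set (ℂ × ℝ) := Metric.ball (0 : ℂ) ε0 ×ˢ Ioo T₁ T₂ with hD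
  have hDo : IsOpen D := Metric.isOpen_ball.prod isOpen_Ioo
  have hDw : ∀ z ∈ D, ‖z.1‖ < ε0 := fun z hz => by simpa using hz.1
  have hDT : ∀ z ∈ D, |2 / zz * z.2 - ϑ₀| < 1 / 2 := by
    intro z hzD
    have h1 := hzD.2.1
    have h2 := hzD.2.2
    have e : z.2 = zz / 2 * (2 / zz * z.2) := by field_simp
    rw [e, hT₁, mul_lt_mul_iff_right₀ (by positivity)] at h1
    rw [e, hT₂, mul_lt_mul_iff_right₀ (by positivity)] at h2
    rw [abs_lt]
    constructor <;> linarith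
  have hTD : ∀ (w : ℂ) (ϑ : ℝ), ‖w‖ < ε0 → |ϑ - ϑ₀| < 1 / 2 → (w, zz / 2 * ϑ) ∈ D := by
    intro w ϑ hw hϑ
    rw [abs_lt] at hϑ
    refine ⟨by simpa using hw, ?_, ?_⟩
    · simp only [hT₁]
      exact mul_lt_mul_of_pos_left (by linarith [hϑ.1]) (by positivity)
    · simp only [hT₂]
      exact mul_lt_mul_of_pos_left (by linarith [hϑ.2]) (by positivity)
  set Φ : ℂ × ℝ → X := fun z => if h : ‖z.1‖ < ε0 then
    k ⟨(z.1, ((2 / zz * z.2 : ℝ) : AddCircle (2 : ℝ))), h⟩ else Classical.arbitrary X with hΦ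
  have hΦD : ∀ z (h : ‖z.1‖ < ε0), Φ z =
      k ⟨(z.1, ((2 / zz * z.2 : ℝ) : AddCircle (2 : ℝ))), h⟩ := fun z h => by
    simp only [hΦ, dif_pos h]
  have hinj : InjOn Φ D := by
    intro z hzD z' hzD' he
    rw [hΦD z (hDw z hzD), hΦD z' (hDw z' hzD')] at he
    have h1 := congrArg Subtype.val (hk.injective he)
    have h2 := congrArg Prod.fst h1
    have h3 := congrArg Prod.snd h1
    simp only at h2 h3
    refine Prod.ext h2 ?_
    have h4 := (QuotientAddGroup.eq_iff_sub_mem).mp h3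
    obtain ⟨n, hn⟩ := AddSubgroup.mem_zmultiples_iff.mp h4
    rw [zsmul_eq_mul] at hn
    have h5 := abs_lt.mp (hDT z hzD)
    have h6 := abs_lt.mp (hDT z' hzD')
    have h7 : (n : ℝ) < 1 := by linarith
    have h8 : (-1 : ℝ) < n := by linarith
    have h9 : n = 0 := by
      have a1 : n < 1 := by exact_mod_cast h7
      have a2 : -1 < n := by exact_mod_cast h8
      omega
    rw [h9, Int.cast_zero, zero_mul] at hn
    have h10 : 2 / zz * z.2 = 2 / zz * z'.2 := by linarith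
    exact mul_left_cancel₀ (by positivity) h10
  -- the corresponding map on the tube
  set Ψ : {z : ℂ × ℝ // ‖z.1‖ < ε0} → ST ε0 := fun z =>
    ⟨(z.1.1, ((2 / zz * z.1.2 : ℝ) : AddCircle (2 : ℝ))), z.2⟩ with hΨ
  have hΨc : Continuous Ψ := by
    refine Continuous.subtype_mk ?_ _
    refine Continuous.prodMk (continuous_fst.comp continuous_subtype_val) ?_
    exact (AddCircle.continuous_mk' 2).comp
      ((continuous_snd.comp continuous_subtype_val).const_mul _)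
  have hq : IsOpenMap (fun z : ℝ => ((2 / zz * z : ℝ) : AddCircle (2 : ℝ))) :=
    QuotientAddGroup.isOpenMap_coe.comp
      (Homeomorph.mulLeft₀ (2 / zz) (by positivity)).isOpenMap
  have hΨo : IsOpenMap Ψ := by
    have h1 : IsOpenMap (Prod.map (id : ℂ → ℂ)
        (fun z : ℝ => ((2 / zz * z : ℝ) : AddCircle (2 : ℝ)))) := IsOpenMap.id.prodMap hq
    have hOo : IsOpen {z : ℂ × ℝ | ‖z.1‖ < ε0} := isOpen_lt continuous_fst.norm continuous_const
    intro U hU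
    obtain ⟨V, hV, rfl⟩ := isOpen_induced_iff.mp hU
    refine isOpen_induced_iff.mpr ⟨_, h1 _ (hV.inter hOo), ?_⟩
    ext ⟨⟨w, t⟩, h⟩
    constructor
    · rintro ⟨⟨w', z⟩, ⟨hz1, hz2⟩, he⟩
      refine ⟨⟨(w', z), hz2⟩, hz1, ?_⟩
      apply Subtype.ext
      exact he
    · rintro ⟨⟨⟨w', z⟩, h'⟩, hz1, he⟩
      refine ⟨(w', z), ⟨hz1, h'⟩, ?_⟩
      exact congrArg Subtype.val he
  have hcont : ContinuousOn Φ D := by
    rw [continuousOn_iff_continuous_domRestrict]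
    have : D.domRestrict Φ = k ∘ Ψ ∘ (fun z : D => ⟨z.1, hDw z.1 z.2⟩) := by
      funext z
      exact hΦD z.1 (hDw z.1 z.2)
    rw [this]
    exact hk.continuous.comp (hΨc.comp (continuous_subtype_val.subtype_mk _))
  have hopen : IsOpenMap (D.domRestrict Φ) := by
    have : D.domRestrict Φ = k ∘ Ψ ∘ (fun z : D => ⟨z.1, hDw z.1 z.2⟩) := by
      funext z
      exact hΦD z.1 (hDw z.1 z.2)
    rw [this]
    refine hk.isOpenMap.comp (hΨo.comp ?_)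
    intro U hU
    obtain ⟨V, hV, rfl⟩ := isOpen_induced_iff.mp hU
    refine isOpen_induced_iff.mpr ⟨V ∩ D, hV.inter hDo, ?_⟩
    ext ⟨z, h⟩
    constructor
    · rintro ⟨h1, h2⟩
      exact ⟨⟨z, h2⟩, h1, rfl⟩
    · rintro ⟨⟨z', h'⟩, h1, he⟩
      have : z' = z := congrArg Subtype.val he
      subst this
      exact ⟨h1, h'⟩
  have : Nonempty (ℂ × ℝ) := ⟨(0, 0)⟩
  set e : PartialEquiv (ℂ × ℝ) X := hinj.toPartialEquiv Φ D with he
  have hes : e.source = D := rfl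
  have het : e.target = Φ '' D := rfl
  have hef : (e : ℂ × ℝ → X) = Φ := rfl
  set c : OpenPartialHomeomorph (ℂ × ℝ) X :=
    OpenPartialHomeomorph.ofContinuousOpenRestrict e hcont hopen hDo with hc
  have hcs : c.source = D := rfl
  have hct : c.target = Φ '' D := rfl
  have hcf : ∀ z, c z = Φ z := fun z => rfl
  refine ⟨c.symm, ?_, ?_, ?_, ?_⟩
  · show c.target = _
    rw [hct]
    ext q
    constructor
    · rintro ⟨z, hzD, rfl⟩
      exact ⟨⟨(z.1, ((2 / zz * z.2 : ℝ) : AddCircle (2 : ℝ))), hDw z hzD⟩, 2 / zz * z.2,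
        hDT z hzD, rfl, (hΦD z (hDw z hzD)).symm⟩
    · rintro ⟨p, ϑ, hϑ, hp, rfl⟩
      refine ⟨(p.1.1, zz / 2 * ϑ), hTD _ _ p.2 hϑ, ?_⟩
      rw [hΦD _ p.2]
      congr 1
      apply Subtype.ext
      refine Prod.ext rfl ?_
      show ((2 / zz * (zz / 2 * ϑ) : ℝ) : AddCircle (2 : ℝ)) = p.1.2
      rw [hp]
      congr 1
      field_simp
  · intro p ϑ hϑ hp
    have h1 : (p.1.1, zz / 2 * ϑ) ∈ c.source := hTD _ _ p.2 hϑ
    have h2 : c (p.1.1, zz / 2 * ϑ) = k p := by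
      rw [hcf, hΦD _ p.2]
      congr 1
      apply Subtype.ext
      refine Prod.ext rfl ?_
      show ((2 / zz * (zz / 2 * ϑ) : ℝ) : AddCircle (2 : ℝ)) = p.1.2
      rw [hp]
      congr 1
      field_simp
    rw [← h2, c.left_inv h1]
  · rfl
  · intro w T hw hT
    show c (w, T) = _
    rw [hcf, hΦD (w, T) hw]

/-- polar coordinates -/
def wq (ρ φ : ℝ) : ℂ := ρ * Complex.exp (φ * Complex.I)

lemma wq_cont : Continuous (fun p : ℝ × ℝ => wq p.1 p.2) := by unfold wq; fun_prop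

lemma wq_norm {ρ φ : ℝ} (h : 0 ≤ ρ) : ‖wq ρ φ‖ = ρ := by
  rw [wq, norm_mul, Complex.norm_exp_ofReal_mul_I, mul_one, Complex.norm_real,
    Real.norm_of_nonneg h]

lemma wq_per (ρ φ : ℝ) : wq ρ (φ + 2 * π) = wq ρ φ := by
  rw [wq, wq]
  congr 1
  push_cast
  rw [add_mul, Complex.exp_add, Complex.exp_two_pi_mul_I, mul_one]

lemma twnw_ne {w : ℂ} (hw : w ≠ 0) : (tw w, nw w) ≠ (0 : ℝ × ℝ) := by
  intro h
  have h1 : tw w = 0 := congrArg Prod.fst h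
  have h2 : nw w = 0 := congrArg Prod.snd h
  rw [Wind.tw_eq] at h1
  rw [Wind.nw_eq] at h2
  apply hw
  have h3 : w.re = 0 := by linarith
  have h4 : w.im = 0 := by
    rw [h3] at h1
    linarith
  exact Complex.ext h3 h4

lemma tw_cont : Continuous tw := by
  have : tw = fun w => w.im * (1 + w.re * w.im) + w.re := funext Wind.tw_eq
  rw [this]
  exact (Complex.continuous_im.mul (continuous_const.add
    (Complex.continuous_re.mul Complex.continuous_im))).add Complex.continuous_re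

lemma nw_cont : Continuous nw := by
  have : nw = fun w => w.im * (1 + w.re * w.im) - w.re := funext Wind.nw_eq
  rw [this]
  exact (Complex.continuous_im.mul (continuous_const.add
    (Complex.continuous_re.mul Complex.continuous_im))).sub Complex.continuous_re

/-- the real lift of `th2` in polar coordinates -/
lemma exists_theta (hTh : ThStmt) : ∃ θ : ℝ → ℝ → ℝ,
    ContinuousOn (fun p : ℝ × ℝ => θ p.1 p.2) {p | 0 < p.1 ∧ p.1 < ε0} ∧
    ∀ ρ φ : ℝ, 0 < ρ → ρ < ε0 →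
      (θ ρ φ : AddCircle (2 : ℝ)) = th2 (tw (wq ρ φ)) (nw (wq ρ φ)) := by
  set D : Set (ℝ × ℝ) := {p | 0 < p.1 ∧ p.1 < ε0} with hD
  have hDo : IsOpen D := (isOpen_lt continuous_const continuous_fst).inter
    (isOpen_lt continuous_fst continuous_const)
  have hDe : D = Ioo (0 : ℝ) ε0 ×ˢ (univ : Set ℝ) := by
    ext p
    simp [hD]
  have hDc : Convex ℝ D := by
    rw [hDe]
    exact (convex_Ioo 0 ε0).prod convex_univ
  have hx0 : ((1 / 8 : ℝ), (0 : ℝ)) ∈ D := by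
    constructor
    · norm_num
    · show (1 / 8 : ℝ) < 1 / 4
      norm_num
  have hf : ContinuousOn (fun p : ℝ × ℝ => th2 (tw (wq p.1 p.2)) (nw (wq p.1 p.2))) D := by
    have h1 : ContinuousOn (fun p : ℝ × ℝ => (tw (wq p.1 p.2), nw (wq p.1 p.2))) D :=
      ((tw_cont.comp wq_cont).prodMk (nw_cont.comp wq_cont)).continuousOn
    refine ContinuousOn.comp hTh.2.1 h1 ?_
    intro p hp
    refine twnw_ne ?_
    have := wq_norm (φ := p.2) hp.1.le
    intro h0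
    rw [h0, norm_zero] at this
    exact hp.1.ne this
  obtain ⟨v0, hv0⟩ := QuotientAddGroup.mk_surjective (th2 (tw (wq (1 / 8) 0)) (nw (wq (1 / 8) 0)))
  obtain ⟨F, hF, hFl, -⟩ := exists_lift hDo hDc _ hf hx0 hv0
  exact ⟨fun ρ φ => F (ρ, φ), hF, fun ρ φ h1 h2 => hFl (ρ, φ) ⟨h1, h2⟩⟩

lemma one_Gam : (1 : SL) ∈ Gam := Gam.one_mem

lemma a2_Gam (hS : StabStmt) : a (2 * s0) ∈ Gam := by
  have h := hS.1 1 (hS.2.2.1 1 Gam.one_mem)
  simpa using h

lemma y_zero : y 0 = 1 := by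
  ext i j
  fin_cases i <;> fin_cases j <;> simp [y]

/-- the real lift of `Th false` in a tube -/
lemma exists_G (hA : TubeAStmt) (hT : ThetaStmt) (hS : StabStmt) : ∃ G : ℂ × ℝ → ℝ,
    ContinuousOn G {p | ‖p.1‖ < ε0} ∧
    (∀ p : ℂ × ℝ, ‖p.1‖ < ε0 → (G p : AddCircle (1 : ℝ)) = Th false (a p.2 * y p.1)) ∧
    (∀ z : ℝ, G (0, z) = z / s0 + 1 / 2) ∧
    ∀ (w : ℂ) (z : ℝ), ‖w‖ < ε0 → G (w, z - 2 * s0) = G (w, z) - 2 := by
  have hs : s0 ≠ 0 := TubeA.s0_pos.ne'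
  have hε : (0 : ℝ) < ε0 := by rw [ε0]; norm_num
  set D : Set (ℂ × ℝ) := {p | ‖p.1‖ < ε0} with hD
  have hDo : IsOpen D := isOpen_lt continuous_fst.norm continuous_const
  have hDe : D = Metric.ball (0 : ℂ) ε0 ×ˢ (univ : Set ℝ) := by
    ext p
    simp [hD]
  have hDc : Convex ℝ D := by
    rw [hDe]
    exact (convex_ball 0 ε0).prod convex_univ
  have hx0 : ((0 : ℂ), (0 : ℝ)) ∈ D := by
    show ‖(0 : ℂ)‖ < ε0
    rw [norm_zero]
    exact hε
  have hay : Continuous (fun p : ℂ × ℝ => a p.2 * y p.1) :=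
    (TubeB.cont_a.comp continuous_snd).mul (TubeB.cont_y.comp continuous_fst)
  have hf : ContinuousOn (fun p : ℂ × ℝ => Th false (a p.2 * y p.1)) D := by
    refine ContinuousOn.comp (g := Th false) (f := fun p : ℂ × ℝ => a p.2 * y p.1)
      (hT.1 false) hay.continuousOn ?_
    intro p hp
    exact hA.1 p.2 p.1 hp
  have hv : (((0 : ℝ) / s0 + 1 / 2 : ℝ) : AddCircle (1 : ℝ)) =
      Th false (a ((0 : ℂ), (0 : ℝ)).2 * y ((0 : ℂ), (0 : ℝ)).1) := by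
    show _ = Th false (a 0 * y 0)
    rw [y_zero, mul_one, hT.2.2.2.2.2 0]
  obtain ⟨G, hG, hGl, hG0⟩ := exists_lift hDo hDc _ hf hx0 hv
  have hGz : ∀ z : ℝ, G (0, z) = z / s0 + 1 / 2 := by
    intro z
    have h1 := lift_diff (p := (1 : ℝ)) (D := (univ : Set ℝ)) isPreconnected_univ
      (F := fun z => G ((0 : ℂ), z)) (F' := fun z => z / s0 + 1 / 2)
      (hG.comp (by fun_prop) (fun z _ => by
        show ‖(0 : ℂ)‖ < ε0
        rw [norm_zero]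
        exact hε)) (by fun_prop) (fun z _ => by
        rw [hGl ((0 : ℂ), z) (by
          show ‖(0 : ℂ)‖ < ε0
          rw [norm_zero]
          exact hε)]
        show Th false (a z * y 0) = _
        rw [y_zero, mul_one, hT.2.2.2.2.2 z]) (mem_univ z) (mem_univ 0)
    simp only [hG0] at h1
    linarith
  refine ⟨G, hG, hGl, hGz, ?_⟩
  intro w z hw
  have hshift : ∀ p : ℂ × ℝ, p ∈ D → (p.1, p.2 - 2 * s0) ∈ D := fun p hp => hp
  have h1 := lift_diff (p := (1 : ℝ)) (D := D) hDc.isPreconnected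
    (F := fun p => G (p.1, p.2 - 2 * s0)) (F' := G)
    (hG.comp (by fun_prop) hshift) hG (fun p hp => by
      rw [hGl (p.1, p.2 - 2 * s0) (hshift p hp), hGl p hp]
      have e : a p.2 * y p.1 = a (2 * s0) * (a (p.2 - 2 * s0) * y p.1) := by
        rw [← mul_assoc, TubeA.a_mul]
        congr 2
        ring
      show Th false (a (p.2 - 2 * s0) * y p.1) = Th false (a p.2 * y p.1)
      rw [e, hT.2.1 false _ (a2_Gam hS)]) (show (w, z) ∈ D from hw) hx0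
  simp only [hGz] at h1
  have h2 : (0 - 2 * s0) / s0 = -2 := by field_simp; ring
  rw [h2, zero_div] at h1
  linarith

/-- values avoided by `th2` -/
lemma th2_avoid (τ ν : ℝ) : (0 < τ → th2 τ ν ≠ ((0 : ℝ) : AddCircle (2 : ℝ))) ∧
    (τ < 0 → th2 τ ν ≠ ((1 : ℝ) : AddCircle (2 : ℝ))) ∧
    (0 < ν → th2 τ ν ≠ ((3 / 2 : ℝ) : AddCircle (2 : ℝ))) ∧
    (ν < 0 → th2 τ ν ≠ ((1 / 2 : ℝ) : AddCircle (2 : ℝ))) := by
  have hr : 0 < r0 := TubeA.r0_pos
  have key : ∀ (x z : ℝ), 0 < |x - z| → |x - z| < 2 →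
      (x : AddCircle (2 : ℝ)) ≠ (z : AddCircle (2 : ℝ)) := by
    intro x z h1 h2 h3
    obtain ⟨n, hn⟩ := AddSubgroup.mem_zmultiples_iff.mp ((QuotientAddGroup.eq_iff_sub_mem).mp h3)
    rw [zsmul_eq_mul] at hn
    rw [← hn, abs_mul, abs_of_pos (by norm_num : (0 : ℝ) < 2)] at h1 h2
    have h4 : |(n : ℝ)| < 1 := by linarith
    have h5 : |n| < 1 := by exact_mod_cast h4
    have h6 := Int.abs_lt_one_iff.mp h5
    rw [h6] at h1
    simp at h1
  have hc := Wind.clamp_mem (arsinh τ / m0 ν)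
  have hc1 := hc.1
  have hc2 := hc.2
  have hu := Wind.u0_mem τ ν
  have hu1 := hu.1
  have hu2 := hu.2
  have hm : 0 < ν → 0 < m0 ν := by
    intro h
    have : 0 < min r0 ν := lt_min hr h
    exact lt_of_lt_of_le this (le_max_right _ _)
  have hm' : ν < 0 → m0 ν < 0 := by
    intro h
    rw [m0]
    exact max_lt (by linarith) (lt_of_le_of_lt (min_le_right _ _) h)
  refine ⟨fun hτ => ?_, fun hτ => ?_, fun hν => ?_, fun hν => ?_⟩
  · -- `0 < τ` : values in `[1/2, 3/2]`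
    have ha : 0 < arsinh τ := Real.arsinh_pos_iff.mpr hτ
    rcases lt_trichotomy ν 0 with h | h | h
    · rw [th2, if_neg h.ne, if_neg (not_lt.mpr h.le)]
      apply key
      · rw [sub_zero, abs_of_nonneg (by linarith)]
        linarith
      · have : arsinh τ / m0 ν < 0 := div_neg_of_pos_of_neg ha (hm' h)
        have h2 : clamp (arsinh τ / m0 ν) ≤ 0 := by
          rw [clamp]
          exact max_le (by norm_num) ((min_le_right _ _).trans this.le)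
        rw [sub_zero, abs_of_nonneg (by linarith), u0]
        linarith
    · rw [th2, if_pos h, if_pos hτ]
      apply key <;> norm_num
    · rw [th2, if_neg h.ne', if_pos h]
      have : 0 < arsinh τ / m0 ν := div_pos ha (hm h)
      have h2 : 0 ≤ clamp (arsinh τ / m0 ν) := by
        rw [clamp]
        exact le_max_of_le_right (le_min (by norm_num) this.le)
      apply key
      · rw [sub_zero, abs_of_nonneg hu1, u0]
        linarith
      · rw [sub_zero, abs_of_nonneg hu1]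
        linarith
  · have ha : arsinh τ < 0 := Real.arsinh_neg_iff.mpr hτ
    rcases lt_trichotomy ν 0 with h | h | h
    · rw [th2, if_neg h.ne, if_neg (not_lt.mpr h.le)]
      have : 0 < arsinh τ / m0 ν := div_pos_of_neg_of_neg ha (hm' h)
      have h2 : 0 ≤ clamp (arsinh τ / m0 ν) := by
        rw [clamp]
        exact le_max_of_le_right (le_min (by norm_num) this.le)
      apply key
      · rw [add_sub_cancel_right, abs_of_nonneg hu1, u0]
        linarith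
      · rw [add_sub_cancel_right, abs_of_nonneg hu1]
        linarith
    · rw [th2, if_pos h, if_neg (not_lt.mpr hτ.le)]
      have := key 0 1 (by norm_num) (by norm_num)
      simpa using this
    · rw [th2, if_neg h.ne', if_pos h]
      have : arsinh τ / m0 ν < 0 := div_neg_of_neg_of_pos ha (hm h)
      have h2 : clamp (arsinh τ / m0 ν) ≤ 0 := by
        rw [clamp]
        exact max_le (by norm_num) ((min_le_right _ _).trans this.le)
      apply key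
      · rw [abs_pos, u0]
        intro h3
        linarith
      · rw [abs_lt]
        constructor <;> linarith
  · rw [th2, if_neg hν.ne', if_pos hν]
    apply key
    · rw [abs_pos]
      intro h3
      linarith
    · rw [abs_lt]
      constructor <;> linarith
  · rw [th2, if_neg hν.ne, if_neg (not_lt.mpr hν.le)]
    apply key
    · rw [abs_pos]
      intro h3
      linarith
    · rw [abs_lt]
      constructor <;> linarith

/-- local boundedness of the lift near the core -/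
lemma theta_bdd {θ : ℝ → ℝ → ℝ}
    (hθ : ContinuousOn (fun p : ℝ × ℝ => θ p.1 p.2) {p | 0 < p.1 ∧ p.1 < ε0})
    (hθl : ∀ ρ φ : ℝ, 0 < ρ → ρ < ε0 →
      (θ ρ φ : AddCircle (2 : ℝ)) = th2 (tw (wq ρ φ)) (nw (wq ρ φ))) (φ₀ : ℝ) :
    ∃ η C : ℝ, 0 < η ∧ ∀ ρ φ : ℝ, 0 < ρ → ρ < η → |φ - φ₀| < η → |θ ρ φ| ≤ C := by
  -- the normalised coordinates
  set P : ℝ × ℝ → ℝ := fun p =>
    Real.sin p.2 + Real.cos p.2 + p.1 ^ 2 * Real.sin p.2 ^ 2 * Real.cos p.2 with hP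
  set Q : ℝ × ℝ → ℝ := fun p =>
    Real.sin p.2 - Real.cos p.2 + p.1 ^ 2 * Real.sin p.2 ^ 2 * Real.cos p.2 with hQ
  have hPc : Continuous P := by fun_prop
  have hQc : Continuous Q := by fun_prop
  have hTP : ∀ ρ φ, tw (wq ρ φ) = ρ * P (ρ, φ) := Wind.T_eq
  have hNQ : ∀ ρ φ, nw (wq ρ φ) = ρ * Q (ρ, φ) := Wind.N_eq
  -- a general principle
  have gen : ∀ (S : Set (ℝ × ℝ)), S ∈ 𝓝 ((0 : ℝ), φ₀) → ∀ c : ℝ,
      (∀ ρ φ, 0 < ρ → (ρ, φ) ∈ S → th2 (tw (wq ρ φ)) (nw (wq ρ φ)) ≠ (c : AddCircle (2 : ℝ))) →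
      ∃ η C : ℝ, 0 < η ∧ ∀ ρ φ : ℝ, 0 < ρ → ρ < η → |φ - φ₀| < η → |θ ρ φ| ≤ C := by
    intro S hS c hc
    obtain ⟨η, hη, hball⟩ := Metric.mem_nhds_iff.mp hS
    have hε : (0 : ℝ) < ε0 := by rw [ε0]; norm_num
    set η' := min η ε0 with hη'
    have hη'0 : 0 < η' := lt_min hη hε
    set B : Set (ℝ × ℝ) := Ioo 0 η' ×ˢ Ioo (φ₀ - η') (φ₀ + η') with hB
    have hBc : IsPreconnected B := isPreconnected_Ioo.prod isPreconnected_Ioo
    have hBD : ∀ p ∈ B, 0 < p.1 ∧ p.1 < ε0 := fun p hp =>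
      ⟨hp.1.1, lt_of_lt_of_le hp.1.2 (min_le_right _ _)⟩
    have hBS : ∀ p ∈ B, p ∈ S := by
      intro p hp
      apply hball
      have h1 := hp.1.1
      have h2 := lt_of_lt_of_le hp.1.2 (min_le_left _ _)
      have h3 := hp.2.1
      have h4 := hp.2.2
      have h5 : η' ≤ η := min_le_left _ _
      rw [Metric.mem_ball, Prod.dist_eq, max_lt_iff, Real.dist_eq, Real.dist_eq]
      simp only
      constructor
      · rw [sub_zero, abs_of_pos h1]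
        exact h2
      · rw [abs_lt]
        constructor <;> linarith
    have hmid : ((η' / 2, φ₀) : ℝ × ℝ) ∈ B := by
      constructor
      · constructor <;> simp only <;> linarith
      · constructor <;> simp only <;> linarith
    refine ⟨η', |θ (η' / 2) φ₀| + 2, hη'0, fun ρ φ h1 h2 h3 => ?_⟩
    rw [abs_lt] at h3
    have hpB : ((ρ, φ) : ℝ × ℝ) ∈ B := ⟨⟨h1, h2⟩, by constructor <;> simp only <;> linarith⟩
    have h4 := lift_bdd hBc (hθ.mono hBD) c (fun p hp => by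
      rw [hθl p.1 p.2 (hBD p hp).1 (hBD p hp).2]
      exact hc p.1 p.2 (hBD p hp).1 (hBS p hp)) hpB hmid
    simp only at h4
    have h5 := abs_sub_abs_le_abs_sub (θ ρ φ) (θ (η' / 2) φ₀)
    linarith
  have hsq : Real.sin φ₀ ^ 2 + Real.cos φ₀ ^ 2 = 1 := Real.sin_sq_add_cos_sq φ₀
  have hP0 : P (0, φ₀) = Real.sin φ₀ + Real.cos φ₀ := by simp [hP]
  have hQ0 : Q (0, φ₀) = Real.sin φ₀ - Real.cos φ₀ := by simp [hQ]
  rcases lt_trichotomy (P (0, φ₀)) 0 with h | h | h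
  · refine gen {p | P p < 0} ((isOpen_lt hPc continuous_const).mem_nhds h) 1 ?_
    intro ρ φ hρ hS
    refine (th2_avoid _ _).2.1 ?_
    rw [hTP]
    exact mul_neg_of_pos_of_neg hρ hS
  · rcases lt_trichotomy (Q (0, φ₀)) 0 with h' | h' | h'
    · refine gen {p | Q p < 0} ((isOpen_lt hQc continuous_const).mem_nhds h') (1 / 2) ?_
      intro ρ φ hρ hS
      refine (th2_avoid _ _).2.2.2 ?_
      rw [hNQ]
      exact mul_neg_of_pos_of_neg hρ hS
    · exfalso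
      rw [hP0] at h
      rw [hQ0] at h'
      have e1 : Real.sin φ₀ = 0 := by linarith
      have e2 : Real.cos φ₀ = 0 := by linarith
      rw [e1, e2] at hsq
      norm_num at hsq
    · refine gen {p | 0 < Q p} ((isOpen_lt continuous_const hQc).mem_nhds h') (3 / 2) ?_
      intro ρ φ hρ hS
      refine (th2_avoid _ _).2.2.1 ?_
      rw [hNQ]
      exact mul_pos hρ hS
  · refine gen {p | 0 < P p} ((isOpen_lt continuous_const hPc).mem_nhds h) 0 ?_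
    intro ρ φ hρ hS
    refine (th2_avoid _ _).1 ?_
    rw [hTP]
    exact mul_pos hρ hS

/-- the position on the core -/
def zf (zz : ℝ) (θ : ℝ → ℝ → ℝ) (ρ φ T : ℝ) : ℝ := s0 * (2 / zz * T + θ ρ φ)

/-- the displacement along the flow -/
def kf (zz : ℝ) (θ : ℝ → ℝ → ℝ) (G : ℂ × ℝ → ℝ) (ρ φ T : ℝ) : ℝ :=
  -(1 / 2) * (zz * θ ρ φ + (2 * s0 - zz) * G (wq ρ φ, zf zz θ ρ φ T)) + (2 * s0 - zz) / 4

/-- the developing map of a tachyon chart -/
def dvf (zz : ℝ) (θ : ℝ → ℝ → ℝ) (G : ℂ × ℝ → ℝ) (ρ φ T : ℝ) : SL :=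
  a (zf zz θ ρ φ T) * y (wq ρ φ) * a (kf zz θ G ρ φ T)

lemma zf_cont {zz : ℝ} {θ : ℝ → ℝ → ℝ}
    (hθ : ContinuousOn (fun p : ℝ × ℝ => θ p.1 p.2) {p | 0 < p.1 ∧ p.1 < ε0}) :
    ContinuousOn (fun p : ℝ × ℝ × ℝ => zf zz θ p.1 p.2.1 p.2.2) {p | 0 < p.1 ∧ p.1 < ε0} := by
  have h1 : ContinuousOn (fun p : ℝ × ℝ × ℝ => θ p.1 p.2.1) {p | 0 < p.1 ∧ p.1 < ε0} :=
    hθ.comp (f := fun p : ℝ × ℝ × ℝ => ((p.1, p.2.1) : ℝ × ℝ)) (by fun_prop) (fun p hp => hp)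
  unfold zf
  exact continuousOn_const.mul ((continuousOn_const.mul (by fun_prop)).add h1)

lemma kf_cont {zz : ℝ} {θ : ℝ → ℝ → ℝ} {G : ℂ × ℝ → ℝ}
    (hθ : ContinuousOn (fun p : ℝ × ℝ => θ p.1 p.2) {p | 0 < p.1 ∧ p.1 < ε0})
    (hG : ContinuousOn G {p | ‖p.1‖ < ε0}) :
    ContinuousOn (fun p : ℝ × ℝ × ℝ => kf zz θ G p.1 p.2.1 p.2.2) {p | 0 < p.1 ∧ p.1 < ε0} := by
  have h1 : ContinuousOn (fun p : ℝ × ℝ × ℝ => θ p.1 p.2.1) {p | 0 < p.1 ∧ p.1 < ε0} :=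
    hθ.comp (f := fun p : ℝ × ℝ × ℝ => ((p.1, p.2.1) : ℝ × ℝ)) (by fun_prop) (fun p hp => hp)
  have h2 : ContinuousOn (fun p : ℝ × ℝ × ℝ => G (wq p.1 p.2.1, zf zz θ p.1 p.2.1 p.2.2))
      {p | 0 < p.1 ∧ p.1 < ε0} := by
    refine hG.comp (f := fun p : ℝ × ℝ × ℝ => ((wq p.1 p.2.1, zf zz θ p.1 p.2.1 p.2.2) : ℂ × ℝ))
      ?_ (fun p hp => ?_)
    · refine ContinuousOn.prodMk ?_ (zf_cont hθ)
      exact (wq_cont.comp (by fun_prop :
        Continuous (fun p : ℝ × ℝ × ℝ => ((p.1, p.2.1) : ℝ × ℝ)))).continuousOn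
    · show ‖wq p.1 p.2.1‖ < ε0
      rw [wq_norm hp.1.le]
      exact hp.2
  unfold kf
  exact (continuousOn_const.mul ((continuousOn_const.mul h1).add
    (continuousOn_const.mul h2))).add continuousOn_const

lemma dvf_cont {zz : ℝ} {θ : ℝ → ℝ → ℝ} {G : ℂ × ℝ → ℝ}
    (hθ : ContinuousOn (fun p : ℝ × ℝ => θ p.1 p.2) {p | 0 < p.1 ∧ p.1 < ε0})
    (hG : ContinuousOn G {p | ‖p.1‖ < ε0}) :
    ContinuousOn (fun p : ℝ × ℝ × ℝ => dvf zz θ G p.1 p.2.1 p.2.2) {p | 0 < p.1 ∧ p.1 < ε0} := by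
  unfold dvf
  refine ContinuousOn.mul (ContinuousOn.mul ?_ ?_) ?_
  · exact TubeB.cont_a.comp_continuousOn (zf_cont hθ)
  · exact (TubeB.cont_y.comp (wq_cont.comp (by fun_prop :
        Continuous (fun p : ℝ × ℝ × ℝ => ((p.1, p.2.1) : ℝ × ℝ))))).continuousOn
  · exact TubeB.cont_a.comp_continuousOn (kf_cont hθ hG)

/-- holonomy -/
lemma dvf_hol {zz : ℝ} {θ : ℝ → ℝ → ℝ} {G : ℂ × ℝ → ℝ}
    (hθp : ∀ ρ φ : ℝ, 0 < ρ → ρ < ε0 → θ ρ (φ + 2 * π) = θ ρ φ - 2)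
    (hGp : ∀ (w : ℂ) (z : ℝ), ‖w‖ < ε0 → G (w, z - 2 * s0) = G (w, z) - 2)
    {ρ : ℝ} (h0 : 0 < ρ) (h1 : ρ < ε0) (φ T : ℝ) :
    dvf zz θ G ρ (φ + 2 * π) T = a (-(2 * s0)) * dvf zz θ G ρ φ T * a (- -(2 * s0)) := by
  have e1 : zf zz θ ρ (φ + 2 * π) T = -(2 * s0) + zf zz θ ρ φ T := by
    rw [zf, zf, hθp ρ φ h0 h1]
    ring
  have hw : ‖wq ρ φ‖ < ε0 := by
    rw [wq_norm h0.le]
    exact h1
  have e2 : kf zz θ G ρ (φ + 2 * π) T = kf zz θ G ρ φ T + - -(2 * s0) := by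
    rw [kf, kf, e1, wq_per, hθp ρ φ h0 h1]
    have e3 : -(2 * s0) + zf zz θ ρ φ T = zf zz θ ρ φ T - 2 * s0 := by ring
    rw [e3, hGp _ _ hw]
    ring
  rw [dvf, dvf, e1, e2, wq_per, ← TubeA.a_mul, ← TubeA.a_mul]
  simp only [mul_assoc]

/-- signs of the entries -/
lemma dvf_sign {zz : ℝ} {θ : ℝ → ℝ → ℝ} {G : ℂ × ℝ → ℝ} {ρ : ℝ} (h0 : 0 < ρ) (h1 : ρ < ε0)
    (φ T : ℝ) : 0 < dvf zz θ G ρ φ T 0 0 ∧ 0 < dvf zz θ G ρ φ T 1 1 ∧
      SignType.sign (dvf zz θ G ρ φ T 0 1) = SignType.sign (cos φ) ∧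
      SignType.sign (dvf zz θ G ρ φ T 1 0) = SignType.sign (sin φ) := by
  have hw : ‖wq ρ φ‖ < ε0 := by
    rw [wq_norm h0.le]
    exact h1
  have hqr := TubeA.qr_lt hw hw
  rw [abs_lt] at hqr
  have hre : (wq ρ φ).re = ρ * Real.cos φ := Wind.re_eq ρ φ
  have him : (wq ρ φ).im = ρ * Real.sin φ := Wind.im_eq ρ φ
  have d00 : dvf zz θ G ρ φ T 0 0 = Real.exp (zf zz θ ρ φ T / 2) *
      (1 + (wq ρ φ).re * (wq ρ φ).im) * Real.exp (kf zz θ G ρ φ T / 2) := by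
    rw [dvf, TubeA.mul_ent, TubeA.x00, TubeA.a00, TubeA.a10, mul_zero, add_zero]
  have d01 : dvf zz θ G ρ φ T 0 1 = Real.exp (zf zz θ ρ φ T / 2) *
      (wq ρ φ).re * Real.exp (-(kf zz θ G ρ φ T / 2)) := by
    rw [dvf, TubeA.mul_ent, TubeA.x01, TubeA.a01, TubeA.a11, mul_zero, zero_add]
  have d10 : dvf zz θ G ρ φ T 1 0 = Real.exp (-(zf zz θ ρ φ T / 2)) *
      (wq ρ φ).im * Real.exp (kf zz θ G ρ φ T / 2) := by
    rw [dvf, TubeA.mul_ent, TubeA.x10, TubeA.a00, TubeA.a10, mul_zero, add_zero]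
  have d11 : dvf zz θ G ρ φ T 1 1 = Real.exp (-(zf zz θ ρ φ T / 2)) *
      Real.exp (-(kf zz θ G ρ φ T / 2)) := by
    rw [dvf, TubeA.mul_ent, TubeA.x11, TubeA.a01, TubeA.a11, mul_zero, zero_add]
  have sg : ∀ x y z : ℝ, 0 < x → 0 < z → SignType.sign (x * y * z) = SignType.sign y := by
    intro x y z hx hz
    rw [sign_mul, sign_mul, sign_pos hx, sign_pos hz, one_mul, mul_one]
  refine ⟨?_, ?_, ?_, ?_⟩
  · rw [d00]
    have : 0 < 1 + (wq ρ φ).re * (wq ρ φ).im := by linarith [hqr.1]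
    positivity
  · rw [d11]
    positivity
  · rw [d01, sg _ _ _ (Real.exp_pos _) (Real.exp_pos _), hre, sign_mul, sign_pos h0, one_mul]
  · rw [d10, sg _ _ _ (Real.exp_pos _) (Real.exp_pos _), him, sign_mul, sign_pos h0, one_mul]

/-- commuting the flow past the section -/
lemma ay_comm (z k : ℝ) (w : ℂ) :
    a z * y w * a k = a (z + k) * y ⟨Real.exp (-k) * w.re, Real.exp k * w.im⟩ := by
  have e1 : Real.exp (k / 2) * Real.exp (-(k / 2)) = 1 := by rw [← Real.exp_add]; simp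
  have e2 : Real.exp k = Real.exp (k / 2) * Real.exp (k / 2) := by
    rw [← Real.exp_add]; ring_nf
  have e3 : Real.exp (-k) = Real.exp (-(k / 2)) * Real.exp (-(k / 2)) := by
    rw [← Real.exp_add]; ring_nf
  rw [← TubeA.a_mul]
  have e4 : y w * a k = a k * y ⟨Real.exp (-k) * w.re, Real.exp k * w.im⟩ := by
    ext i j
    fin_cases i <;> fin_cases j
    · show (y w * a k) 0 0 = (a k * y _) 0 0
      rw [TubeA.mul_ent, TubeA.mul_ent, TubeA.a00, TubeA.a01, TubeA.a10, TubeA.y00, TubeA.y01,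
        TubeA.y00, TubeA.y10, e2, e3]
      generalize Real.exp (k / 2) = A at *
      generalize Real.exp (-(k / 2)) = B at *
      linear_combination (-(A * w.re * w.im) * (A * B + 1)) * e1
    · show (y w * a k) 0 1 = (a k * y _) 0 1
      rw [TubeA.mul_ent, TubeA.mul_ent, TubeA.a00, TubeA.a01, TubeA.a11, TubeA.y00, TubeA.y01,
        TubeA.y01, TubeA.y11, e3]
      generalize Real.exp (k / 2) = A at *
      generalize Real.exp (-(k / 2)) = B at *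
      linear_combination (-(B * w.re)) * e1
    · show (y w * a k) 1 0 = (a k * y _) 1 0
      rw [TubeA.mul_ent, TubeA.mul_ent, TubeA.a00, TubeA.a10, TubeA.a11, TubeA.y10, TubeA.y11,
        TubeA.y00, TubeA.y10, e2]
      generalize Real.exp (k / 2) = A at *
      generalize Real.exp (-(k / 2)) = B at *
      linear_combination (-(A * w.im)) * e1
    · show (y w * a k) 1 1 = (a k * y _) 1 1
      rw [TubeA.mul_ent, TubeA.mul_ent, TubeA.a01, TubeA.a10, TubeA.a11, TubeA.y10, TubeA.y11,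
        TubeA.y01, TubeA.y11]
      ring
  rw [mul_assoc, e4, mul_assoc]

/-- the limit at the core -/
lemma dvf_lim {zz : ℝ} (hz : 0 < zz) {θ : ℝ → ℝ → ℝ} {G : ℂ × ℝ → ℝ}
    (hθ : ContinuousOn (fun p : ℝ × ℝ => θ p.1 p.2) {p | 0 < p.1 ∧ p.1 < ε0})
    (hθl : ∀ ρ φ : ℝ, 0 < ρ → ρ < ε0 →
      (θ ρ φ : AddCircle (2 : ℝ)) = th2 (tw (wq ρ φ)) (nw (wq ρ φ)))
    (hG : ContinuousOn G {p | ‖p.1‖ < ε0}) (hG0 : ∀ z : ℝ, G (0, z) = z / s0 + 1 / 2)
    (φ T : ℝ) : Tendsto (fun p : ℝ × ℝ × ℝ => dvf zz θ G p.1 p.2.1 p.2.2)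
      (𝓝[>] 0 ×ˢ 𝓝 φ ×ˢ 𝓝 T) (𝓝 (a T)) := by
  have hs : 0 < s0 := TubeA.s0_pos
  have hε : (0 : ℝ) < ε0 := by rw [ε0]; norm_num
  set 𝓕 : Filter (ℝ × ℝ × ℝ) := 𝓝[>] 0 ×ˢ 𝓝 φ ×ˢ 𝓝 T with h𝓕
  have t1 : Tendsto (fun p : ℝ × ℝ × ℝ => p.1) 𝓕 (𝓝[>] 0) := tendsto_fst
  have t1' : Tendsto (fun p : ℝ × ℝ × ℝ => p.1) 𝓕 (𝓝 0) := t1.mono_right nhdsWithin_le_nhds
  have t2 : Tendsto (fun p : ℝ × ℝ × ℝ => p.2.1) 𝓕 (𝓝 φ) := tendsto_fst.comp tendsto_snd
  have t3 : Tendsto (fun p : ℝ × ℝ × ℝ => p.2.2) 𝓕 (𝓝 T) := tendsto_snd.comp tendsto_snd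
  obtain ⟨η, C, hη, hC⟩ := theta_bdd hθ hθl φ
  have ev1 : ∀ᶠ p in 𝓕, 0 < p.1 := t1.eventually self_mem_nhdsWithin
  have ev2 : ∀ᶠ p in 𝓕, p.1 < η := t1'.eventually (gt_mem_nhds hη)
  have ev3 : ∀ᶠ p in 𝓕, |p.2.1 - φ| < η := t2.eventually (Metric.ball_mem_nhds φ hη)
  have ev4 : ∀ᶠ p in 𝓕, |p.2.2| < |T| + 1 := t3.abs.eventually (gt_mem_nhds (by linarith))
  have evθ : ∀ᶠ p in 𝓕, |θ p.1 p.2.1| ≤ C := by
    filter_upwards [ev1, ev2, ev3] with p h1 h2 h3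
    exact hC _ _ h1 h2 h3
  -- boundedness of the position
  set K : ℝ := s0 * (2 / zz * (|T| + 1) + C) with hK
  have evz : ∀ᶠ p in 𝓕, zf zz θ p.1 p.2.1 p.2.2 ∈ Icc (-K) K := by
    filter_upwards [ev4, evθ] with p h1 h2
    refine abs_le.mp ?_
    rw [zf, abs_mul, abs_of_pos hs, hK]
    refine mul_le_mul_of_nonneg_left ?_ hs.le
    refine (abs_add_le _ _).trans (add_le_add ?_ h2)
    rw [abs_mul, abs_of_pos (by positivity : 0 < 2 / zz)]
    exact mul_le_mul_of_nonneg_left h1.le (by positivity)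
  have tw0 : Tendsto (fun p : ℝ × ℝ × ℝ => wq p.1 p.2.1) 𝓕 (𝓝 0) := by
    rw [tendsto_zero_iff_norm_tendsto_zero]
    refine t1'.congr' ?_
    filter_upwards [ev1] with p hp
    rw [wq_norm hp.le]
  -- the error term
  set err : ℝ × ℝ × ℝ → ℝ := fun p =>
    G (wq p.1 p.2.1, zf zz θ p.1 p.2.1 p.2.2) - (zf zz θ p.1 p.2.1 p.2.2 / s0 + 1 / 2) with herr
  have terr : Tendsto err 𝓕 (𝓝 0) := by
    rw [Metric.tendsto_nhds]
    intro e he
    have h1 : ∀ z ∈ Icc (-K) K, ∀ᶠ x : ℂ × ℝ in 𝓝 ((0 : ℂ), z),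
        |G (x.1, x.2) - (x.2 / s0 + 1 / 2)| < e := by
      intro z _
      have hm : {p : ℂ × ℝ | ‖p.1‖ < ε0} ∈ 𝓝 ((0 : ℂ), z) :=
        (isOpen_lt continuous_fst.norm continuous_const).mem_nhds (by simpa using hε)
      have hc : ContinuousAt G ((0 : ℂ), z) := hG.continuousAt hm
      have hc2 : ContinuousAt (fun x : ℂ × ℝ => G x - (x.2 / s0 + 1 / 2)) ((0 : ℂ), z) :=
        hc.sub (by fun_prop)
      have h2 := hc2.tendsto
      simp only [hG0, sub_self] at h2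
      have h3 := h2.eventually (Metric.ball_mem_nhds 0 he)
      filter_upwards [h3] with x hx
      rw [Real.dist_eq, sub_zero] at hx
      exact hx
    have h2 := isCompact_Icc.eventually_forall_of_forall_eventually
      (P := fun (w : ℂ) (z : ℝ) => |G (w, z) - (z / s0 + 1 / 2)| < e) h1
    filter_upwards [tw0.eventually h2, evz] with p h3 h4
    rw [Real.dist_eq, sub_zero]
    exact h3 _ h4
  -- the sum of the exponents
  have hsum : ∀ p : ℝ × ℝ × ℝ, zf zz θ p.1 p.2.1 p.2.2 + kf zz θ G p.1 p.2.1 p.2.2 =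
      p.2.2 - (2 * s0 - zz) / 2 * err p := by
    intro p
    have e1 : G (wq p.1 p.2.1, zf zz θ p.1 p.2.1 p.2.2) =
      err p + (zf zz θ p.1 p.2.1 p.2.2 / s0 + 1 / 2) := by
      simp only [herr]
      ring
    have e2 : zf zz θ p.1 p.2.1 p.2.2 / s0 = 2 / zz * p.2.2 + θ p.1 p.2.1 := by
      rw [zf]
      field_simp
    rw [kf, e1, e2, zf]
    field_simp
    ring
  have tsum : Tendsto (fun p : ℝ × ℝ × ℝ => zf zz θ p.1 p.2.1 p.2.2 +
      kf zz θ G p.1 p.2.1 p.2.2) 𝓕 (𝓝 T) := by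
    simp_rw [hsum]
    have := t3.sub (terr.const_mul ((2 * s0 - zz) / 2))
    rw [mul_zero, sub_zero] at this
    exact this
  -- the exponents are bounded
  have evk : ∀ᶠ p in 𝓕, |kf zz θ G p.1 p.2.1 p.2.2| ≤ |T| + 1 + K := by
    have h1 : ∀ᶠ p in 𝓕, |zf zz θ p.1 p.2.1 p.2.2 + kf zz θ G p.1 p.2.1 p.2.2| < |T| + 1 :=
      tsum.abs.eventually (gt_mem_nhds (by linarith))
    filter_upwards [h1, evz] with p h2 h3
    rw [abs_lt] at h2
    rw [abs_le]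
    constructor <;> linarith [h2.1, h2.2, h3.1, h3.2]
  -- the transverse coordinate tends to zero
  have hbd : ∀ p : ℝ × ℝ × ℝ, 0 < p.1 → |kf zz θ G p.1 p.2.1 p.2.2| ≤ |T| + 1 + K →
      |Real.exp (-kf zz θ G p.1 p.2.1 p.2.2) * (wq p.1 p.2.1).re| ≤
        Real.exp (|T| + 1 + K) * p.1 ∧
      |Real.exp (kf zz θ G p.1 p.2.1 p.2.2) * (wq p.1 p.2.1).im| ≤
        Real.exp (|T| + 1 + K) * p.1 := by
    intro p h0 h1
    rw [abs_le] at h1
    rw [abs_mul, abs_mul, abs_of_pos (Real.exp_pos _), abs_of_pos (Real.exp_pos _)]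
    have h2 := wq_norm (φ := p.2.1) h0.le
    constructor
    · refine mul_le_mul (Real.exp_le_exp.mpr (by linarith [h1.1])) ?_ (abs_nonneg _)
        (Real.exp_pos _).le
      have := Complex.abs_re_le_norm (wq p.1 p.2.1)
      rwa [h2] at this
    · refine mul_le_mul (Real.exp_le_exp.mpr (by linarith [h1.2])) ?_ (abs_nonneg _)
        (Real.exp_pos _).le
      have := Complex.abs_im_le_norm (wq p.1 p.2.1)
      rwa [h2] at this
  have tb0 : Tendsto (fun p : ℝ × ℝ × ℝ => Real.exp (|T| + 1 + K) * p.1) 𝓕 (𝓝 0) := by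
    have := t1'.const_mul (Real.exp (|T| + 1 + K))
    rwa [mul_zero] at this
  have tre : Tendsto (fun p : ℝ × ℝ × ℝ =>
      Real.exp (-kf zz θ G p.1 p.2.1 p.2.2) * (wq p.1 p.2.1).re) 𝓕 (𝓝 0) := by
    refine squeeze_zero_norm' ?_ tb0
    filter_upwards [ev1, evk] with p h0 h1
    exact (hbd p h0 h1).1
  have tim : Tendsto (fun p : ℝ × ℝ × ℝ =>
      Real.exp (kf zz θ G p.1 p.2.1 p.2.2) * (wq p.1 p.2.1).im) 𝓕 (𝓝 0) := by
    refine squeeze_zero_norm' ?_ tb0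
    filter_upwards [ev1, evk] with p h0 h1
    exact (hbd p h0 h1).2
  have tw' : Tendsto (fun p : ℝ × ℝ × ℝ =>
      (⟨Real.exp (-kf zz θ G p.1 p.2.1 p.2.2) * (wq p.1 p.2.1).re,
        Real.exp (kf zz θ G p.1 p.2.1 p.2.2) * (wq p.1 p.2.1).im⟩ : ℂ)) 𝓕 (𝓝 0) := by
    have h1 := (Complex.continuous_ofReal.tendsto 0).comp tre
    have h2 := ((Complex.continuous_ofReal.tendsto 0).comp tim).mul_const Complex.I
    have h3 := h1.add h2
    simp only [Complex.ofReal_zero, zero_mul, add_zero] at h3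
    refine h3.congr (fun p => ?_)
    rw [Complex.mk_eq_add_mul_I]
    rfl
  have hfin : Tendsto (fun p : ℝ × ℝ × ℝ => a (zf zz θ p.1 p.2.1 p.2.2 +
      kf zz θ G p.1 p.2.1 p.2.2) * y ⟨Real.exp (-kf zz θ G p.1 p.2.1 p.2.2) * (wq p.1 p.2.1).re,
        Real.exp (kf zz θ G p.1 p.2.1 p.2.2) * (wq p.1 p.2.1).im⟩) 𝓕 (𝓝 (a T * y 0)) :=
    ((TubeB.cont_a.tendsto T).comp tsum).mul ((TubeB.cont_y.tendsto 0).comp tw')
  rw [y_zero, mul_one] at hfin
  refine hfin.congr (fun p => ?_)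
  rw [dvf, ay_comm]

/-- two local lifts differ by a constant near a point -/
lemma ev_const {V : Type} [TopologicalSpace V] {F F' : V → ℝ} {x : V}
    (hF : ContinuousAt F x) (hF' : ContinuousAt F' x)
    (h : ∀ᶠ z in 𝓝 x, (F z : AddCircle (1 : ℝ)) = F' z) :
    ∀ᶠ z in 𝓝 x, F z = F' z + (F x - F' x) := by
  have hc : ContinuousAt (fun z => F z - F' z) x := hF.sub hF'
  have h1 : ∀ᶠ z in 𝓝 x, |(F z - F' z) - (F x - F' x)| < 1 :=
    hc.tendsto.eventually (Metric.ball_mem_nhds _ one_pos)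
  have hx := h.self_of_nhds
  obtain ⟨m, hm⟩ := AddSubgroup.mem_zmultiples_iff.mp ((QuotientAddGroup.eq_iff_sub_mem).mp hx)
  filter_upwards [h1, h] with z hz1 hz2
  obtain ⟨n, hn⟩ := AddSubgroup.mem_zmultiples_iff.mp ((QuotientAddGroup.eq_iff_sub_mem).mp hz2)
  rw [zsmul_eq_mul, mul_one] at hn hm
  rw [← hn, ← hm] at hz1
  have h3 : |n - m| < 1 := by exact_mod_cast hz1
  have h4 : n - m = 0 := Int.abs_lt_one_iff.mp h3
  have h5 : (n : ℝ) = m := by exact_mod_cast (sub_eq_zero.mp h4)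
  linarith

lemma tw_small {w : ℂ} (h : ‖w‖ < ε0) : 2 * tw w ^ 2 < 1 := by
  rw [Wind.tw_eq]
  have h2 := abs_lt.mp (TubeA.re_lt h)
  have h3 := abs_lt.mp (TubeA.im_lt h)
  have h4 := abs_lt.mp (TubeA.qr_lt h h)
  generalize w.re = q at *
  generalize w.im = r at *
  have h5 : |r * (1 + q * r) + q| < 0.6 := by
    have h6 : |r * (1 + q * r)| ≤ 1 / 4 * (17 / 16) := by
      rw [abs_mul]
      refine mul_le_mul (abs_le.mpr ⟨by linarith [h3.1], by linarith [h3.2]⟩)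
        (abs_le.mpr ⟨by linarith [h4.1], by linarith [h4.2]⟩) (abs_nonneg _) (by norm_num)
    rw [abs_le] at h6
    rw [abs_lt]
    constructor
    · norm_num
      linarith [h6.1, h2.1]
    · norm_num
      linarith [h6.2, h2.2]
  have h7 : (r * (1 + q * r) + q) ^ 2 < 0.6 ^ 2 := by
    rw [← sq_abs]
    exact pow_lt_pow_left₀ h5 (abs_nonneg _) (by norm_num)
  norm_num at h7 ⊢
  linarith

lemma devf_col (t : ℝ) (col : Bool) (f : Bool → ℝ) :
    devf t f = -(1 / 2) * (zc col t * f col + (2 * s0 - zc col t) * f (!col)) := by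
  cases col
  · simp only [devf, zc, cond_false, Bool.not_false]
    ring
  · simp only [devf, zc, cond_true, Bool.not_true]
    ring

/-- the developing property -/
lemma dvf_dev (hF : FNStmt) (hA : TubeAStmt) (hT : ThetaStmt) (hTh : ThStmt) (hI : IsomStmt)
    (gi : Idx → SL) (hgi : GoodGi gi) (i : Idx) (col : Bool)
    (hc1 : ∀ x, Th col (gi i * x) = Th true x) (hc2 : ∀ x, Th (!col) (gi i * x) = Th false x)
    (t : ℝ) (hz : 0 < zc col t) {θ : ℝ → ℝ → ℝ} {G : ℂ × ℝ → ℝ}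
    (hθ : ContinuousOn (fun p : ℝ × ℝ => θ p.1 p.2) {p | 0 < p.1 ∧ p.1 < ε0})
    (hθl : ∀ ρ φ : ℝ, 0 < ρ → ρ < ε0 →
      (θ ρ φ : AddCircle (2 : ℝ)) = th2 (tw (wq ρ φ)) (nw (wq ρ φ)))
    (hG : ContinuousOn G {p | ‖p.1‖ < ε0})
    (hGl : ∀ p : ℂ × ℝ, ‖p.1‖ < ε0 → (G p : AddCircle (1 : ℝ)) = Th false (a p.2 * y p.1))
    (κ : OpenPartialHomeomorph (FN gi) (ℂ × ℝ)) (T₁ T₂ : ℝ)
    (hsymm : ∀ (w : ℂ) (T : ℝ) (hw : ‖w‖ < ε0), T ∈ Ioo T₁ T₂ →
      κ.symm (w, T) = kN gi i ⟨(w, ((2 / zc col t * T : ℝ) : AddCircle (2 : ℝ))), hw⟩)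
    {ρ : ℝ} (hρ : ρ ∈ Ioo 0 ε0) (φ : ℝ) {T : ℝ} (hTT : T ∈ Ioo T₁ T₂)
    {c : OpenPartialHomeomorph (FN gi) SL} (hc : c ∈ devCharts gi t)
    (hsrc : κ.symm (wq ρ φ, T) ∈ c.source) :
    ∃ f, IsIsom f ∧ ∀ᶠ p : ℝ × ℝ × ℝ in 𝓝 (ρ, φ, T),
      c (κ.symm (wq p.1 p.2.1, p.2.2)) = f (dvf (zc col t) θ G p.1 p.2.1 p.2.2) := by
  have hs : 0 < s0 := TubeA.s0_pos
  obtain ⟨hj, hk, hkj, -⟩ := hF gi hgi
  set g := gi i with hg
  have hgN : g ∈ Nz := hgi.1 i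
  set zz := zc col t with hzz
  -- the good region
  set O : Set (ℝ × ℝ × ℝ) := {p | (0 < p.1 ∧ p.1 < ε0) ∧ (T₁ < p.2.2 ∧ p.2.2 < T₂)} with hO
  have hOo : IsOpen O :=
    ((isOpen_lt continuous_const continuous_fst).inter
      (isOpen_lt continuous_fst continuous_const)).inter
    ((isOpen_lt continuous_const (continuous_snd.comp continuous_snd)).inter
      (isOpen_lt (continuous_snd.comp continuous_snd) continuous_const))
  have hp0 : ((ρ, φ, T) : ℝ × ℝ × ℝ) ∈ O := ⟨⟨hρ.1, hρ.2⟩, ⟨hTT.1, hTT.2⟩⟩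
  have hOev : ∀ᶠ p in 𝓝 ((ρ, φ, T) : ℝ × ℝ × ℝ), p ∈ O := hOo.mem_nhds hp0
  have hw : ∀ p ∈ O, ‖wq p.1 p.2.1‖ < ε0 ∧ wq p.1 p.2.1 ≠ 0 := by
    intro p hp
    have h1 := wq_norm (φ := p.2.1) hp.1.1.le
    refine ⟨by rw [h1]; exact hp.1.2, fun h2 => ?_⟩
    rw [h2, norm_zero] at h1
    exact hp.1.1.ne h1
  set X : ℝ × ℝ × ℝ → SL := fun p => tb g (zf zz θ p.1 p.2.1 p.2.2) (wq p.1 p.2.1) with hX
  have hXE : ∀ p ∈ O, X p ∈ E := fun p hp => hA.2.1 g hgN _ _ (hw p hp).2 (hw p hp).1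
  have hXs : ∀ p ∈ O, κ.symm (wq p.1 p.2.1, p.2.2) = jN gi (prT (X p)) := by
    intro p hp
    have h1 := hw p hp
    rw [hsymm _ _ h1.1 ⟨hp.2.1, hp.2.2⟩, hkj i _ h1.2]
    congr 1
    show psi g (wq p.1 p.2.1, ((2 / zz * p.2.2 : ℝ) : AddCircle (2 : ℝ)) +
      th2 (tw (wq p.1 p.2.1)) (nw (wq p.1 p.2.1))) = _
    rw [← hθl p.1 p.2.1 hp.1.1 hp.1.2, ← AddCircle.coe_add]
    have e : 2 / zz * p.2.2 + θ p.1 p.2.1 = zf zz θ p.1 p.2.1 p.2.2 / s0 := by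
      rw [zf]
      field_simp
    rw [e, hA.2.2.1 g hgN _ _ h1.1]
  -- the chart
  obtain ⟨x, hx, f, A, B, U, hU, hxU, hfc, hfl, hcf⟩ := hc _ hsrc
  rw [hXs (ρ, φ, T) hp0] at hx
  have hpx : prT x.1 = prT (X (ρ, φ, T)) := by
    rw [← hj.injective hx, prT, dif_pos x.2]
  obtain ⟨γ, hγ, hxγ⟩ := TubeA.prT_eq x.2 (hXE _ hp0) hpx
  have hXc : ContinuousAt X (ρ, φ, T) := by
    have h1 : ContinuousAt (fun p : ℝ × ℝ × ℝ => zf zz θ p.1 p.2.1 p.2.2) (ρ, φ, T) :=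
      (zf_cont hθ).continuousAt (((isOpen_lt continuous_const continuous_fst).inter
        (isOpen_lt continuous_fst continuous_const)).mem_nhds ⟨hρ.1, hρ.2⟩)
    have h2 : Continuous (fun p : ℝ × ℝ × ℝ => wq p.1 p.2.1) :=
      wq_cont.comp (by fun_prop : Continuous (fun p : ℝ × ℝ × ℝ => ((p.1, p.2.1) : ℝ × ℝ)))
    have h3 : ContinuousAt (fun p : ℝ × ℝ × ℝ => a (zf zz θ p.1 p.2.1 p.2.2)) (ρ, φ, T) :=
      ContinuousAt.comp (g := a) TubeB.cont_a.continuousAt h1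
    have h4 : ContinuousAt (fun p : ℝ × ℝ × ℝ => y (wq p.1 p.2.1)) (ρ, φ, T) :=
      (TubeB.cont_y.comp h2).continuousAt
    exact (continuousAt_const.mul h3).mul h4
  classical
  set Y : ℝ × ℝ × ℝ → E := fun p => if h : γ * X p ∈ E then ⟨γ * X p, h⟩ else x with hY
  have hYv : ∀ p ∈ O, (Y p).1 = γ * X p := by
    intro p hp
    have h : γ * X p ∈ E := E_mul hγ (hXE p hp)
    simp only [hY, dif_pos h]
  have hY0 : Y (ρ, φ, T) = x := Subtype.ext ((hYv _ hp0).trans hxγ.symm)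
  have hYc : ContinuousAt Y (ρ, φ, T) := by
    have h1 : Tendsto (fun p => ((Y p : E) : SL)) (𝓝 (ρ, φ, T)) (𝓝 ((Y (ρ, φ, T) : E) : SL)) := by
      have h2 : Tendsto (fun p => γ * X p) (𝓝 (ρ, φ, T)) (𝓝 (γ * X (ρ, φ, T))) :=
        (continuousAt_const.mul hXc).tendsto
      rw [hYv _ hp0]
      refine h2.congr' ?_
      filter_upwards [hOev] with p hp
      exact (hYv p hp).symm
    exact tendsto_subtype_rng.mpr h1
  have hYU : ∀ᶠ p in 𝓝 ((ρ, φ, T) : ℝ × ℝ × ℝ), Y p ∈ U := by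
    apply hYc.eventually
    rw [hY0]
    exact hU.mem_nhds hxU
  have hfY : ∀ κ, ContinuousAt (fun p => f κ (Y p)) (ρ, φ, T) := by
    intro κ
    have h1 : ContinuousAt (f κ) (Y (ρ, φ, T)) := by
      rw [hY0]
      exact (hfc κ).continuousAt (hU.mem_nhds hxU)
    exact ContinuousAt.comp (g := f κ) h1 hYc
  -- the values of the two functions
  have hThc : ∀ p ∈ O, ∀ κ, Th κ (γ * X p) = Th κ (g * (a (zf zz θ p.1 p.2.1 p.2.2) *
      y (wq p.1 p.2.1))) := by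
    intro p _ κ
    rw [hT.2.1 κ γ hγ, hX]
    simp only [tb, mul_assoc]
  have hcol1 : ∀ᶠ p in 𝓝 ((ρ, φ, T) : ℝ × ℝ × ℝ),
      ((f col (Y p) : ℝ) : AddCircle (1 : ℝ)) = (θ p.1 p.2.1 : ℝ) := by
    filter_upwards [hOev, hYU] with p hp hpU
    have h1 := hw p hp
    rw [hfl col (Y p) hpU, hYv p hp, hThc p hp, hc1]
    have hτ : tau (a (zf zz θ p.1 p.2.1 p.2.2) * y (wq p.1 p.2.1)) Dm = tw (wq p.1 p.2.1) := by
      rw [TubeA.tau_ay, Wind.tw_eq]
    have hν : nu (a (zf zz θ p.1 p.2.1 p.2.2) * y (wq p.1 p.2.1)) Dm = nw (wq p.1 p.2.1) := by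
      rw [TubeA.nu_ay, Wind.nw_eq]
    have hsm : 2 * tau (a (zf zz θ p.1 p.2.1 p.2.2) * y (wq p.1 p.2.1)) Dm ^ 2 < 1 := by
      rw [hτ]
      exact tw_small h1.1
    rw [hT.2.2.2.1 true _ Dm TubeA.Dm_Can hsm, hτ, hν]
    exact (hTh.2.2.2.2.1 _ _ _ (twnw_ne h1.2) (hθl p.1 p.2.1 hp.1.1 hp.1.2)).symm
  have hcol2 : ∀ᶠ p in 𝓝 ((ρ, φ, T) : ℝ × ℝ × ℝ),
      ((f (!col) (Y p) : ℝ) : AddCircle (1 : ℝ)) =
        (G (wq p.1 p.2.1, zf zz θ p.1 p.2.1 p.2.2) : ℝ) := by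
    filter_upwards [hOev, hYU] with p hp hpU
    have h1 := hw p hp
    rw [hfl (!col) (Y p) hpU, hYv p hp, hThc p hp, hc2, hGl _ h1.1]
  have hD : {p : ℝ × ℝ × ℝ | 0 < p.1 ∧ p.1 < ε0} ∈ 𝓝 ((ρ, φ, T) : ℝ × ℝ × ℝ) :=
    ((isOpen_lt continuous_const continuous_fst).inter
        (isOpen_lt continuous_fst continuous_const)).mem_nhds ⟨hρ.1, hρ.2⟩
  have hθc : ContinuousAt (fun p : ℝ × ℝ × ℝ => θ p.1 p.2.1) (ρ, φ, T) := by
    have h1 : ContinuousOn (fun p : ℝ × ℝ × ℝ => θ p.1 p.2.1) {p | 0 < p.1 ∧ p.1 < ε0} :=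
      hθ.comp (f := fun p : ℝ × ℝ × ℝ => ((p.1, p.2.1) : ℝ × ℝ)) (by fun_prop) (fun p hp => hp)
    exact h1.continuousAt hD
  have hGc : ContinuousAt (fun p : ℝ × ℝ × ℝ => G (wq p.1 p.2.1, zf zz θ p.1 p.2.1 p.2.2))
      (ρ, φ, T) := by
    have h1 : ContinuousAt (fun p : ℝ × ℝ × ℝ => zf zz θ p.1 p.2.1 p.2.2) (ρ, φ, T) :=
      (zf_cont hθ).continuousAt hD
    have h2 : Continuous (fun p : ℝ × ℝ × ℝ => wq p.1 p.2.1) :=
      wq_cont.comp (by fun_prop : Continuous (fun p : ℝ × ℝ × ℝ => ((p.1, p.2.1) : ℝ × ℝ)))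
    have h3 : ContinuousAt G (wq ρ φ, zf zz θ ρ φ T) :=
      hG.continuousAt ((isOpen_lt continuous_fst.norm continuous_const).mem_nhds (hw _ hp0).1)
    exact ContinuousAt.comp (g := G)
      (f := fun p : ℝ × ℝ × ℝ => ((wq p.1 p.2.1, zf zz θ p.1 p.2.1 p.2.2) : ℂ × ℝ)) h3
      (h2.continuousAt.prodMk h1)
  have hd1 := ev_const (hfY col) hθc hcol1
  have hd2 := ev_const (hfY (!col)) hGc hcol2
  set d1 : ℝ := f col (Y (ρ, φ, T)) - θ ρ φ with hd1d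
  set d2 : ℝ := f (!col) (Y (ρ, φ, T)) - G (wq ρ φ, zf zz θ ρ φ T) with hd2d
  set K : ℝ := -(1 / 2) * (zz * d1 + (2 * s0 - zz) * d2) - (2 * s0 - zz) / 4 with hK
  refine ⟨fun Z => (A * γ * g) * Z * (a K * B), hI.2.2.2.1 _ _, ?_⟩
  filter_upwards [hOev, hYU, hd1, hd2] with p hp hpU h1 h2
  have h3 : κ.symm (wq p.1 p.2.1, p.2.2) = jN gi (pr (Y p)) := by
    rw [hXs p hp, ← TubeA.prT_mul hγ (X p), ← hYv p hp, prT, dif_pos (Y p).2]
  rw [h3, hcf (Y p) hpU]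
  have h4 : devf t (fun κ => f κ (Y p)) = kf zz θ G p.1 p.2.1 p.2.2 + K := by
    rw [devf_col t col, ← hzz]
    simp only [h1, h2]
    rw [kf, hK]
    ring
  rw [h4, hYv p hp, ← TubeA.a_mul, dvf, hX]
  simp only [tb, mul_assoc]

end AdT.Tach2

namespace AdT

open Tach2 in
theorem tach2 (hF : FNStmt) (hA : TubeAStmt) (hW : WindStmt) (hT : ThetaStmt) (hTh : ThStmt)
    (hS : StabStmt) (_hQ : QuotAStmt) (_hAr : Arith1Stmt) (hI : IsomStmt) : Tach2Stmt := by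
  intro gi hgi i
  have hs : 0 < s0 := TubeA.s0_pos
  have hε : (0 : ℝ) < ε0 := by rw [ε0]; norm_num
  obtain ⟨hj, hk, hkj, hrange, -⟩ := hF gi hgi
  -- the colour
  have hcol : ∃ col : Bool, (∀ x, Th col (gi i * x) = Th true x) ∧
      (∀ x, Th (!col) (gi i * x) = Th false x) := by
    rcases hT.2.2.1 (gi i) (hgi.1 i) with h | h
    · exact ⟨true, h true, h false⟩
    · exact ⟨false, h true, h false⟩
  obtain ⟨col, hc1, hc2⟩ := hcol
  refine ⟨col, fun ϑ₀ => ?_⟩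
  obtain ⟨θ, hθ, hθl⟩ := exists_theta hTh
  obtain ⟨G, hG, hGl, hG0, hGp⟩ := exists_G hA hT hS
  have hθp : ∀ ρ φ : ℝ, 0 < ρ → ρ < ε0 → θ ρ (φ + 2 * π) = θ ρ φ - 2 := hW θ hθ hθl
  have hne : Nonempty (FN gi) := ⟨jN gi (Classical.arbitrary M)⟩
  have key : ∀ t : ℝ, |t| < s0 / 20 → ∃ κ : OpenPartialHomeomorph (FN gi) (ℂ × ℝ),
      (κ.source = {q | ∃ (p : ST ε0) (ϑ : ℝ), |ϑ - ϑ₀| < 1 / 2 ∧
        p.1.2 = (ϑ : AddCircle (2 : ℝ)) ∧ kN gi i p = q}) ∧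
      (∀ (p : ST ε0) (ϑ : ℝ), |ϑ - ϑ₀| < 1 / 2 → p.1.2 = (ϑ : AddCircle (2 : ℝ)) →
        κ (kN gi i p) = (p.1.1, zc col t / 2 * ϑ)) ∧
      IsTachyonChart (devCharts gi t) (Sg gi) (-(2 * s0)) κ := by
    intro t ht
    rw [abs_lt] at ht
    have hz : 0 < zc col t := by
      cases col
      · simp only [zc, cond_false]
        linarith
      · simp only [zc, cond_true]
        linarith
    obtain ⟨κ, hκ1, hκ2, hκ3, hκ4⟩ := exists_chart (kN gi i) (hk i) (zc col t) ϑ₀ hz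
    refine ⟨κ, hκ1, hκ2, ε0, _, _, dvf (zc col t) θ G, hε, hκ3, ?_, ?_, ?_, ?_, ?_⟩
    · intro q hq
      rw [hκ1] at hq
      obtain ⟨p, ϑ, hϑ, hp, rfl⟩ := hq
      rw [hκ2 p ϑ hϑ hp]
      constructor
      · intro h
        by_contra hne
        have h1 := hkj i p hne
        have h2 : kN gi i p ∈ (range (jN gi))ᶜ := by
          rw [hrange]
          exact h
        exact h2 ⟨_, h1.symm⟩
      · intro h
        exact ⟨i, p, h, rfl⟩
    · exact (dvf_cont hθ hG).mono (fun p hp => hp.1)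
    · intro ρ hρ φ T hT' c hc hsrc
      exact dvf_dev hF hA hT hTh hI gi hgi i col hc1 hc2 t hz hθ hθl hG hGl κ _ _ hκ4 hρ φ hT'
        hc hsrc
    · intro ρ hρ φ T hT'
      exact ⟨dvf_hol hθp hGp hρ.1 hρ.2 φ T, dvf_sign hρ.1 hρ.2 φ T⟩
    · intro φ T hT'
      exact dvf_lim hz hθ hθl hG hG0 φ T
  have h0 : |(0 : ℝ)| < s0 / 20 := by rw [abs_zero]; positivity
  obtain ⟨κ0, -⟩ := key 0 h0
  have key2 : ∀ t : ℝ, ∃ κ : OpenPartialHomeomorph (FN gi) (ℂ × ℝ), |t| < s0 / 20 →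
      (κ.source = {q | ∃ (p : ST ε0) (ϑ : ℝ), |ϑ - ϑ₀| < 1 / 2 ∧
        p.1.2 = (ϑ : AddCircle (2 : ℝ)) ∧ kN gi i p = q}) ∧
      (∀ (p : ST ε0) (ϑ : ℝ), |ϑ - ϑ₀| < 1 / 2 → p.1.2 = (ϑ : AddCircle (2 : ℝ)) →
        κ (kN gi i p) = (p.1.1, zc col t / 2 * ϑ)) ∧
      IsTachyonChart (devCharts gi t) (Sg gi) (-(2 * s0)) κ := by
    intro t
    by_cases ht : |t| < s0 / 20
    · obtain ⟨κ, hκ⟩ := key t ht
      exact ⟨κ, fun _ => hκ⟩
    · exact ⟨κ0, fun h => absurd h ht⟩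
  choose κ hκ using key2
  exact ⟨κ, fun t ht => (hκ t ht).1, fun t ht => (hκ t ht).2.1, fun t ht => (hκ t ht).2.2⟩

end AdT
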