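import Pool.Agent.Helper88.AdT.Stmts1

/-!
AD-16 : the coordinate on the core of a tachyon chart is determined up to sign and translation.
-/

open Matrix Real Topology Filter Set

noncomputable section

namespace AdT.TachCoord

/-- polar coordinates -/
def pol (p : ℝ × ℝ × ℝ) : ℂ × ℝ := (p.1 * Complex.exp (p.2.1 * Complex.I), p.2.2)

lemma pol_cont : Continuous pol := by unfold pol; fun_prop

lemma pol_inv (z : ℂ × ℝ) : pol (‖z.1‖, Complex.arg z.1, z.2) = z := by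
  rw [pol]
  simp only [Complex.norm_mul_exp_arg_mul_I]

lemma pol_zero (ρ T : ℝ) : pol (ρ, 0, T) = ((ρ : ℂ), T) := by
  rw [pol]
  simp

lemma eventually_pol {ρ T : ℝ} (hρ : 0 < ρ) {Q : ℂ × ℝ → Prop}
    (h : ∀ᶠ p in 𝓝 ((ρ, 0, T) : ℝ × ℝ × ℝ), Q (pol p)) :
    ∀ᶠ z in 𝓝 (((ρ : ℂ), T) : ℂ × ℝ), Q z := by
  have hs : (ρ : ℂ) ∈ Complex.slitPlane := Complex.ofReal_mem_slitPlane.mpr hρ
  have hc : ContinuousAt (fun z : ℂ × ℝ => ((‖z.1‖, Complex.arg z.1, z.2) : ℝ × ℝ × ℝ))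
      ((ρ : ℂ), T) := by
    refine ContinuousAt.prodMk (by fun_prop) (ContinuousAt.prodMk ?_ (by fun_prop))
    exact ContinuousAt.comp (f := fun z : ℂ × ℝ => z.1) (g := Complex.arg)
      (Complex.continuousAt_arg hs) (by fun_prop)
  have hv : ((‖((ρ : ℂ))‖, Complex.arg (ρ : ℂ), T) : ℝ × ℝ × ℝ) = (ρ, 0, T) := by
    rw [Complex.arg_ofReal_of_nonneg hρ.le, Complex.norm_real, Real.norm_of_nonneg hρ.le]
  have h2 := hc.tendsto
  simp only [hv] at h2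
  filter_upwards [h2.eventually h] with z hz
  rwa [pol_inv] at hz

lemma a00 (t : ℝ) : (a t : M2) 0 0 = Real.exp (t / 2) := rfl
lemma a01 (t : ℝ) : (a t : M2) 0 1 = 0 := rfl
lemma a10 (t : ℝ) : (a t : M2) 1 0 = 0 := rfl
lemma a11 (t : ℝ) : (a t : M2) 1 1 = Real.exp (-(t / 2)) := rfl

lemma diag_conj (m : ℝ) (X : SL) (i : Fin 2) : (a m * X * a (-m) : SL) i i = X i i := by
  have h : Real.exp (m / 2) * Real.exp (-(m / 2)) = 1 := by rw [← Real.exp_add]; simp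
  show ((a m * X * a (-m) : SL) : M2) i i = (X : M2) i i
  rw [Matrix.SpecialLinearGroup.coe_mul, Matrix.SpecialLinearGroup.coe_mul]
  fin_cases i
  · simp only [Matrix.mul_apply, Fin.sum_univ_two, Fin.zero_eta, a00, a01, a10, a11, neg_div,
      neg_neg]
    linear_combination ((X : M2) 0 0) * h
  · simp only [Matrix.mul_apply, Fin.sum_univ_two, Fin.mk_one, a00, a01, a10, a11, neg_div,
      neg_neg]
    linear_combination ((X : M2) 1 1) * h

lemma dg_per {dv : ℝ → ℝ → ℝ → SL} {ρ T m : ℝ}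
    (h : ∀ φ, dv ρ (φ + 2 * π) T = a m * dv ρ φ T * a (-m)) (i : Fin 2) {φ φ' : ℝ}
    (he : Complex.exp (φ * Complex.I) = Complex.exp (φ' * Complex.I)) :
    (dv ρ φ T) i i = (dv ρ φ' T) i i := by
  have hp : Function.Periodic (fun φ : ℝ => (dv ρ φ T) i i) (2 * π) := by
    intro φ
    show (dv ρ (φ + 2 * π) T) i i = _
    rw [h, diag_conj]
  obtain ⟨n, hn⟩ := Complex.exp_eq_exp_iff_exists_int.mp he
  have h1 : φ = φ' + n * (2 * π) := by
    have h2 : ((φ : ℂ) - (φ' + n * (2 * π))) * Complex.I = 0 := by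
      linear_combination hn
    have h3 := (mul_eq_zero.mp h2).resolve_right Complex.I_ne_zero
    have h4 : (((φ - (φ' + n * (2 * π))) : ℝ) : ℂ) = 0 := by push_cast; exact h3
    have h5 := Complex.ofReal_eq_zero.mp h4
    linarith
  rw [h1]
  exact hp.int_mul n φ'

lemma dg_lim {dv : ℝ → ℝ → ℝ → SL} {T : ℝ}
    (hlim : ∀ φ : ℝ, Tendsto (fun p : ℝ × ℝ × ℝ => dv p.1 p.2.1 p.2.2)
      (𝓝[>] 0 ×ˢ 𝓝 φ ×ˢ 𝓝 T) (𝓝 (a T))) (i : Fin 2) :
    Tendsto (fun z : ℂ × ℝ => (dv ‖z.1‖ (Complex.arg z.1) z.2) i i)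
      (𝓝[{z | z.1 ≠ 0}] ((0 : ℂ), T)) (𝓝 ((a T) i i)) := by
  intro V hV
  have hent : Continuous (fun X : SL => X i i) := by
    have : Continuous (fun X : SL => (X : M2) i i) :=
      (continuous_apply_apply i i).comp continuous_subtype_val
    exact this
  have h1 : ∀ φ ∈ Icc (-π) π, ∀ᶠ z : (ℝ × ℝ) × ℝ in 𝓝 ((0, T), φ),
      (0 < z.1.1 → (dv z.1.1 z.2 z.1.2) i i ∈ V) := by
    intro φ _
    have h2 : ∀ᶠ p : ℝ × ℝ × ℝ in (𝓝[>] 0 ×ˢ 𝓝 φ ×ˢ 𝓝 T), (dv p.1 p.2.1 p.2.2) i i ∈ V :=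
      (hent.continuousAt.tendsto.comp (hlim φ)).eventually hV
    have h3 : (𝓝[>] (0 : ℝ) ×ˢ 𝓝 φ ×ˢ 𝓝 T) = 𝓝[Ioi (0 : ℝ) ×ˢ univ] (0, (φ, T)) := by
      rw [nhdsWithin_prod_eq, nhdsWithin_univ, nhds_prod_eq]
    rw [h3, eventually_nhdsWithin_iff] at h2
    have hc : Tendsto (fun z : (ℝ × ℝ) × ℝ => ((z.1.1, z.2, z.1.2) : ℝ × ℝ × ℝ))
        (𝓝 ((0, T), φ)) (𝓝 (0, φ, T)) := by
      have : Continuous (fun z : (ℝ × ℝ) × ℝ => ((z.1.1, z.2, z.1.2) : ℝ × ℝ × ℝ)) := by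
        fun_prop
      exact this.tendsto ((0, T), φ)
    filter_upwards [hc.eventually h2] with z hz h0
    exact hz ⟨h0, mem_univ _⟩
  have h2 := isCompact_Icc.eventually_forall_of_forall_eventually
    (P := fun (x : ℝ × ℝ) (φ : ℝ) => 0 < x.1 → (dv x.1 φ x.2) i i ∈ V) h1
  have hc : Tendsto (fun z : ℂ × ℝ => ((‖z.1‖, z.2) : ℝ × ℝ)) (𝓝 (0, T)) (𝓝 (0, T)) := by
    have : Continuous (fun z : ℂ × ℝ => ((‖z.1‖, z.2) : ℝ × ℝ)) := by fun_prop
    have h := this.tendsto (0, T)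
    simpa using h
  have h3 := hc.eventually h2
  show ∀ᶠ z in 𝓝[{z | z.1 ≠ 0}] ((0 : ℂ), T), (dv ‖z.1‖ (Complex.arg z.1) z.2) i i ∈ V
  rw [eventually_nhdsWithin_iff]
  filter_upwards [h3] with z hz hz0
  exact hz _ ⟨(Complex.neg_pi_lt_arg _).le, Complex.arg_le_pi _⟩ (norm_pos_iff.mpr hz0)

/-- the final algebra -/
lemma alg {T0 η p q r s : ℝ} (hη : 0 < η) (F : ℝ → ℝ)
    (h0 : ∀ T, |T - T0| < η → Real.exp (F T / 2) = Real.exp (T / 2) * p + Real.exp (-(T / 2)) * q)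
    (h1 : ∀ T, |T - T0| < η →
      Real.exp (-(F T / 2)) = Real.exp (T / 2) * r + Real.exp (-(T / 2)) * s) :
    ∃ σ c : ℝ, (σ = 1 ∨ σ = -1) ∧ ∀ T, |T - T0| < η → F T = σ * T + c := by
  -- the product of the two right hand sides is one
  have hprod : ∀ T, |T - T0| < η →
      (p * r) * Real.exp T ^ 2 + (p * s + q * r - 1) * Real.exp T + q * s = 0 := by
    intro T hT
    have e : Real.exp (F T / 2) * Real.exp (-(F T / 2)) = 1 := by rw [← Real.exp_add]; simp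
    rw [h0 T hT, h1 T hT] at e
    have e1 : Real.exp (T / 2) * Real.exp (-(T / 2)) = 1 := by rw [← Real.exp_add]; simp
    have e2 : Real.exp T = Real.exp (T / 2) * Real.exp (T / 2) := by
      rw [← Real.exp_add]; ring_nf
    rw [e2]
    generalize Real.exp (T / 2) = x at *
    generalize Real.exp (-(T / 2)) = y at *
    linear_combination x * x * e + (- (p * r * x ^ 2 * 0) - (p * s + q * r) * x ^ 2
      - q * s * (x * y + 1)) * e1
  -- a quadratic polynomial with three roots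
  have hx : ∀ k : ℕ, k ≤ 2 → |T0 + k * (η / 4) - T0| < η := by
    intro k hk
    have hk' : (k : ℝ) ≤ 2 := by exact_mod_cast hk
    rw [add_sub_cancel_left, abs_of_nonneg (by positivity)]
    nlinarith
  have a0 := hprod _ (hx 0 (by norm_num))
  have a1 := hprod _ (hx 1 (by norm_num))
  have a2 := hprod _ (hx 2 (by norm_num))
  set x0 := Real.exp (T0 + (0 : ℕ) * (η / 4))
  set x1 := Real.exp (T0 + (1 : ℕ) * (η / 4))
  set x2 := Real.exp (T0 + (2 : ℕ) * (η / 4))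
  have l1 : x0 < x1 := Real.exp_lt_exp.mpr (by push_cast; linarith)
  have l2 : x1 < x2 := Real.exp_lt_exp.mpr (by push_cast; linarith)
  have b1 : (p * r) * (x0 + x1) + (p * s + q * r - 1) = 0 := by
    have : (x1 - x0) * ((p * r) * (x0 + x1) + (p * s + q * r - 1)) = 0 := by
      linear_combination a1 - a0
    exact (mul_eq_zero.mp this).resolve_left (by linarith)
  have b2 : (p * r) * (x1 + x2) + (p * s + q * r - 1) = 0 := by
    have : (x2 - x1) * ((p * r) * (x1 + x2) + (p * s + q * r - 1)) = 0 := by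
      linear_combination a2 - a1
    exact (mul_eq_zero.mp this).resolve_left (by linarith)
  have c1 : p * r = 0 := by
    have : (x2 - x0) * (p * r) = 0 := by linear_combination b2 - b1
    exact (mul_eq_zero.mp this).resolve_left (by linarith)
  have c2 : p * s + q * r = 1 := by rw [c1] at b1; linarith
  have c3 : q * s = 0 := by
    rw [c1, c2] at a0
    linarith
  have hT0 : |T0 - T0| < η := by simpa using hη
  rcases mul_eq_zero.mp c1 with hp | hr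
  · -- `p = 0`
    have hq : q ≠ 0 := by
      intro hq
      rw [hp, hq] at c2
      simp at c2
    refine ⟨-1, 2 * Real.log q, Or.inr rfl, fun T hT => ?_⟩
    have e := h0 T hT
    rw [hp, mul_zero, zero_add] at e
    have hqp : 0 < q := by
      have := Real.exp_pos (F T / 2)
      rw [e] at this
      exact (pos_iff_pos_of_mul_pos this).mp (Real.exp_pos _)
    have e3 := congrArg Real.log e
    rw [Real.log_exp, Real.log_mul (Real.exp_ne_zero _) hq, Real.log_exp] at e3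
    linarith
  · have hp : p ≠ 0 := by
      intro hp
      rw [hp, hr] at c2
      simp at c2
    have hs : s ≠ 0 := by
      intro hs
      rw [hs, hr] at c2
      simp at c2
    have hq : q = 0 := (mul_eq_zero.mp c3).resolve_right hs
    refine ⟨1, 2 * Real.log p, Or.inl rfl, fun T hT => ?_⟩
    have e := h0 T hT
    rw [hq, mul_zero, add_zero] at e
    have e3 := congrArg Real.log e
    rw [Real.log_exp, Real.log_mul (Real.exp_ne_zero _) hp, Real.log_exp] at e3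
    linarith

lemma isom_inv (hI : IsomStmt) {f : SL → SL} (hf : IsIsom f) : ∃ g, IsIsom g ∧
    (∀ x, f (g x) = x) ∧ (∀ x, g (f x) = x) := by
  obtain ⟨g, hg, h1, h2⟩ := hI.2.2.1 f hf
  exact ⟨g, hg, fun x => congrFun h1 x, fun x => congrFun h2 x⟩

lemma isom_cont (hI : IsomStmt) {f : SL → SL} (hf : IsIsom f) : Continuous f :=
  hI.2.2.2.2.1 f hf

/-- linear functionals agreeing near a point of `SL` agree -/
lemma lin_unique (hI : IsomStmt) (x : SL) (ℓ ℓ' : M2 →ₗ[ℝ] ℝ)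
    (h : ∀ᶠ y : SL in 𝓝 x, ℓ (y : M2) = ℓ' (y : M2)) : ℓ = ℓ' := by
  obtain ⟨U, hU, hUo, hxU⟩ := mem_nhds_iff.mp h
  have h1 := hI.2.2.2.2.2.2 LinearMap.id (fun v => rfl) U hUo ⟨x, hxU⟩ (ℓ - ℓ') (fun y hy => by
    have := hU hy
    show ℓ (y : M2) - ℓ' (y : M2) = 0
    rw [sub_eq_zero]
    exact this)
  ext1 v
  have := h1 v
  exact sub_eq_zero.mp this

end AdT.TachCoord

namespace AdT

open TachCoord in
theorem tachCoord (hI : IsomStmt) : TachCoordStmt := by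
  intro N _ S S' 𝒞 𝒞' m m' h κ κ' q hS hcov hcov' hcompat hκ hκ' hqS hq hq'
  obtain ⟨ε, T₁, T₂, dv, hε, htar, hzero, hcont, hdev, hprop, hlim⟩ := hκ
  obtain ⟨ε', T₁', T₂', dv', hε', htar', hzero', hcont', hdev', hprop', hlim'⟩ := hκ'
  set T0 := (κ q).2 with hT0
  have hκq : κ q = (0, T0) := Prod.ext ((hzero q hq).mp hqS) rfl
  have hSh : ∀ x, h x ∈ S' ↔ x ∈ S := by
    intro x
    rw [← hS]
    exact h.injective.mem_set_image
  -- the domain
  set W : Set (ℂ × ℝ) := κ.target ∩ κ.symm ⁻¹' (h ⁻¹' κ'.source) with hW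
  have hWo : IsOpen W := κ.symm.isOpen_inter_preimage (κ'.open_source.preimage h.continuous)
  have hqW : ((0 : ℂ), T0) ∈ W := by
    rw [← hκq]
    refine ⟨κ.map_source hq, ?_⟩
    show h (κ.symm (κ q)) ∈ κ'.source
    rw [κ.left_inv hq]
    exact hq'
  obtain ⟨η, hη, hball⟩ := Metric.isOpen_iff.mp hWo _ hqW
  have hin : ∀ (w : ℂ) (T : ℝ), ‖w‖ < η → |T - T0| < η → (w, T) ∈ W := by
    intro w T hw hT
    apply hball
    rw [Metric.mem_ball, Prod.dist_eq, max_lt_iff]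
    exact ⟨by simpa using hw, hT⟩
  set G : ℂ × ℝ → ℂ × ℝ := fun z => κ' (h (κ.symm z)) with hG
  have hGc : ∀ z ∈ W, ContinuousAt G z := by
    intro z hz
    have c1 : ContinuousAt κ.symm z := κ.continuousAt_symm hz.1
    have c2 : ContinuousAt κ' (h (κ.symm z)) := κ'.continuousAt hz.2
    exact ContinuousAt.comp (g := κ') (f := fun z => h (κ.symm z)) c2
      (h.continuous.continuousAt.comp c1)
  have hGt : ∀ z ∈ W, G z ∈ κ'.target := fun z hz => κ'.map_source hz.2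
  have hW1 : ∀ z ∈ W, ‖z.1‖ < ε ∧ z.2 ∈ Ioo T₁ T₂ := by
    intro z hz
    have := hz.1
    rw [htar] at this
    exact ⟨by simpa using this.1, this.2⟩
  have hGt1 : ∀ z ∈ W, ‖(G z).1‖ < ε' ∧ (G z).2 ∈ Ioo T₁' T₂' := by
    intro z hz
    have := hGt z hz
    rw [htar'] at this
    exact ⟨by simpa using this.1, this.2⟩
  have hsymS : ∀ z ∈ W, κ.symm z ∈ S ↔ z.1 = 0 := by
    intro z hz
    rw [hzero _ (κ.map_target hz.1), κ.right_inv hz.1]
  have hGz : ∀ z ∈ W, (G z).1 = 0 ↔ z.1 = 0 := by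
    intro z hz
    rw [← hzero' _ hz.2, hSh, hsymS z hz]
  set dg : Fin 2 → ℂ × ℝ → ℝ := fun i z => (dv' ‖z.1‖ (Complex.arg z.1) z.2) i i with hdg
  have hhol' : ∀ ρ ∈ Ioo 0 ε', ∀ T ∈ Ioo T₁' T₂', ∀ φ,
      dv' ρ (φ + 2 * π) T = a m' * dv' ρ φ T * a (-m') := fun ρ hρ T hT φ => (hprop' ρ hρ φ T hT).1
  -- local existence of the functionals
  have stepA : ∀ (ρ T : ℝ), 0 < ρ → ρ < η → |T - T0| < η → ∀ i, ∃ ℓ : M2 →ₗ[ℝ] ℝ,
      ∀ᶠ p : ℝ × ℝ × ℝ in 𝓝 (ρ, 0, T), dg i (G (pol p)) = ℓ (dv p.1 p.2.1 p.2.2 : M2) := by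
    intro ρ T hρ hρη hT i
    have hz0 : pol (ρ, 0, T) = ((ρ : ℂ), T) := pol_zero ρ T
    have hz0W : pol (ρ, 0, T) ∈ W := by
      rw [hz0]
      exact hin _ _ (by rw [Complex.norm_real, Real.norm_of_nonneg hρ.le]; exact hρη) hT
    have hz0ne : (pol (ρ, 0, T)).1 ≠ 0 := by
      rw [hz0]
      show (ρ : ℂ) ≠ 0
      exact_mod_cast hρ.ne'
    have hρε : ρ < ε := by
      have := (hW1 _ hz0W).1
      rw [hz0] at this
      simp only [Complex.norm_real, Real.norm_of_nonneg hρ.le] at this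
      exact this
    have hTT : T ∈ Ioo T₁ T₂ := (hW1 _ hz0W).2
    set z0 := pol (ρ, 0, T) with hz0d
    set P0 := κ.symm z0 with hP0
    have hP0S : P0 ∉ S := fun h => hz0ne ((hsymS z0 hz0W).mp h)
    have hhP0S : h P0 ∉ S' := fun h' => hP0S ((hSh _).mp h')
    obtain ⟨c, hc, hPc⟩ := hcov P0 hP0S
    obtain ⟨c', hc', hPc'⟩ := hcov' (h P0) hhP0S
    obtain ⟨f1, hf1, hf1'⟩ := hcompat c hc c' hc' P0 hPc hPc'
    obtain ⟨f2, hf2, hf2'⟩ := hdev ρ ⟨hρ, hρε⟩ 0 T hTT c hc hPc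
    have hw0 : (G z0).1 ≠ 0 := fun h' => hz0ne ((hGz z0 hz0W).mp h')
    have hG0 : pol (‖(G z0).1‖, Complex.arg (G z0).1, (G z0).2) = G z0 := pol_inv _
    obtain ⟨f3, hf3, hf3'⟩ := hdev' ‖(G z0).1‖ ⟨norm_pos_iff.mpr hw0, (hGt1 z0 hz0W).1⟩
      (Complex.arg (G z0).1) (G z0).2 (hGt1 z0 hz0W).2 c' hc' (by
        have : κ'.symm (pol (‖(G z0).1‖, Complex.arg (G z0).1, (G z0).2)) ∈ c'.source := by
          rw [hG0, hG]
          show κ'.symm (κ' (h (κ.symm z0))) ∈ c'.source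
          rw [κ'.left_inv hz0W.2]
          exact hPc'
        exact this)
    have cpol : Tendsto pol (𝓝 (ρ, 0, T)) (𝓝 z0) := pol_cont.tendsto _
    have cG : Tendsto (fun p => G (pol p)) (𝓝 (ρ, 0, T)) (𝓝 (G z0)) :=
      (hGc z0 hz0W).tendsto.comp cpol
    -- the lift of the map
    set L : ℝ × ℝ × ℝ → ℝ × ℝ × ℝ := fun p =>
      (‖(G (pol p)).1‖, Complex.arg (G z0).1 + Complex.arg ((G (pol p)).1 / (G z0).1),
        (G (pol p)).2) with hL
    have cL : Tendsto L (𝓝 (ρ, 0, T)) (𝓝 (‖(G z0).1‖, Complex.arg (G z0).1, (G z0).2)) := by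
      have t1 : Tendsto (fun p => (G (pol p)).1) (𝓝 (ρ, 0, T)) (𝓝 (G z0).1) :=
        (continuous_fst.tendsto _).comp cG
      have t2 : Tendsto (fun p => (G (pol p)).2) (𝓝 (ρ, 0, T)) (𝓝 (G z0).2) :=
        (continuous_snd.tendsto _).comp cG
      have t3 : Tendsto (fun p => (G (pol p)).1 / (G z0).1) (𝓝 (ρ, 0, T)) (𝓝 1) := by
        have := t1.div_const (G z0).1
        rwa [div_self hw0] at this
      have t4 : Tendsto (fun p => Complex.arg ((G (pol p)).1 / (G z0).1)) (𝓝 (ρ, 0, T))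
          (𝓝 0) := by
        have h5 := (Complex.continuousAt_arg Complex.one_mem_slitPlane).tendsto.comp t3
        rw [Complex.arg_one] at h5
        exact h5
      have t5 := (tendsto_const_nhds (x := Complex.arg (G z0).1)).add t4
      rw [add_zero] at t5
      exact t1.norm.prodMk_nhds (t5.prodMk_nhds t2)
    have hpolL : ∀ p, pol (L p) = G (pol p) := by
      intro p
      rw [hL]
      refine Prod.ext ?_ rfl
      show ((‖(G (pol p)).1‖ : ℝ) : ℂ) * Complex.exp (((Complex.arg (G z0).1 +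
        Complex.arg ((G (pol p)).1 / (G z0).1) : ℝ) : ℂ) * Complex.I) = (G (pol p)).1
      have e1 := Complex.norm_mul_exp_arg_mul_I (G z0).1
      have e2 := Complex.norm_mul_exp_arg_mul_I ((G (pol p)).1 / (G z0).1)
      have e3 : ‖(G (pol p)).1‖ = ‖(G z0).1‖ * ‖(G (pol p)).1 / (G z0).1‖ := by
        rw [norm_div, mul_div_cancel₀ _ (norm_ne_zero_iff.mpr hw0)]
      rw [e3]
      push_cast
      rw [add_mul, Complex.exp_add]
      calc _ = ((‖(G z0).1‖ : ℂ) * Complex.exp (Complex.arg (G z0).1 * Complex.I)) *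
            ((‖(G (pol p)).1 / (G z0).1‖ : ℂ) *
              Complex.exp (Complex.arg ((G (pol p)).1 / (G z0).1) * Complex.I)) := by ring
        _ = _ := by rw [e1, e2, mul_div_cancel₀ _ hw0]
    obtain ⟨g3, hg3, hg3a, hg3b⟩ := isom_inv hI hf3
    have hF : IsIsom (g3 ∘ (f1 ∘ f2)) := hI.1 _ _ hg3 (hI.1 _ _ hf1 hf2)
    obtain ⟨Λ, hΛdet, hΛ⟩ := hF
    refine ⟨(Matrix.entryLinearMap ℝ ℝ i i) ∘ₗ Λ, ?_⟩
    have ev1 : ∀ᶠ p in 𝓝 ((ρ, 0, T) : ℝ × ℝ × ℝ), pol p ∈ W :=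
      cpol.eventually (hWo.mem_nhds hz0W)
    have cP : Tendsto (fun p => κ.symm (pol p)) (𝓝 (ρ, 0, T)) (𝓝 P0) :=
      (κ.continuousAt_symm hz0W.1).tendsto.comp cpol
    have ev2 := cP.eventually hf1'
    have ev3 := cL.eventually hf3'
    have ev4 : ∀ᶠ p in 𝓝 ((ρ, 0, T) : ℝ × ℝ × ℝ), (G (pol p)).1 ≠ 0 :=
      (((continuous_fst.tendsto _).comp cG).eventually_ne hw0)
    filter_upwards [ev1, ev2, ev3, ev4, hf2'] with p h1 h2 h3 h4 h5
    have h6 : κ'.symm (pol (L p)) = h (κ.symm (pol p)) := by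
      rw [hpolL, hG]
      exact κ'.left_inv h1.2
    have h3' : c' (κ'.symm (pol (L p))) = f3 (dv' (L p).1 (L p).2.1 (L p).2.2) := h3
    have h5' : c (κ.symm (pol p)) = f2 (dv p.1 p.2.1 p.2.2) := h5
    rw [h6, h2, h5'] at h3'
    have h7 : dv' (L p).1 (L p).2.1 (L p).2.2 = (g3 ∘ (f1 ∘ f2)) (dv p.1 p.2.1 p.2.2) := by
      show _ = g3 (f1 (f2 (dv p.1 p.2.1 p.2.2)))
      rw [h3', hg3b]
    have h8 : dg i (G (pol p)) = (dv' (L p).1 (L p).2.1 (L p).2.2) i i := by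
      show (dv' ‖(G (pol p)).1‖ (Complex.arg (G (pol p)).1) (G (pol p)).2) i i =
        (dv' ‖(G (pol p)).1‖ (L p).2.1 (G (pol p)).2) i i
      refine dg_per (m := m') (hhol' _ ⟨norm_pos_iff.mpr h4, (hGt1 _ h1).1⟩ _ (hGt1 _ h1).2) i ?_
      have e1 : ((‖(G (pol p)).1‖ : ℝ) : ℂ) * Complex.exp (((L p).2.1 : ℂ) * Complex.I) =
        (G (pol p)).1 := congrArg Prod.fst (hpolL p)
      have e2 := Complex.norm_mul_exp_arg_mul_I (G (pol p)).1
      have e3 : ((‖(G (pol p)).1‖ : ℝ) : ℂ) ≠ 0 := by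
        exact_mod_cast (norm_ne_zero_iff.mpr h4)
      exact mul_left_cancel₀ e3 (e2.trans e1.symm)
    rw [h8, h7]
    show ((g3 ∘ (f1 ∘ f2)) (dv p.1 p.2.1 p.2.2) : M2) i i = (Λ (dv p.1 p.2.1 p.2.2 : M2)) i i
    rw [hΛ]
  -- uniqueness of the functionals
  have stepB : ∀ (ρ T : ℝ), 0 < ρ → ρ < η → |T - T0| < η → ∀ ℓ ℓ' : M2 →ₗ[ℝ] ℝ,
      (∀ᶠ p : ℝ × ℝ × ℝ in 𝓝 (ρ, 0, T), ℓ (dv p.1 p.2.1 p.2.2 : M2) =
        ℓ' (dv p.1 p.2.1 p.2.2 : M2)) → ℓ = ℓ' := by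
    intro ρ T hρ hρη hT ℓ ℓ' hev
    have hz0 : pol (ρ, 0, T) = ((ρ : ℂ), T) := pol_zero ρ T
    have hz0W : pol (ρ, 0, T) ∈ W := by
      rw [hz0]
      exact hin _ _ (by rw [Complex.norm_real, Real.norm_of_nonneg hρ.le]; exact hρη) hT
    have hz0ne : (pol (ρ, 0, T)).1 ≠ 0 := by
      rw [hz0]
      show (ρ : ℂ) ≠ 0
      exact_mod_cast hρ.ne'
    have hρε : ρ < ε := by
      have := (hW1 _ hz0W).1
      rw [hz0] at this
      simp only [Complex.norm_real, Real.norm_of_nonneg hρ.le] at this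
      exact this
    have hTT : T ∈ Ioo T₁ T₂ := (hW1 _ hz0W).2
    have hP0S : κ.symm (pol (ρ, 0, T)) ∉ S := fun h => hz0ne ((hsymS _ hz0W).mp h)
    obtain ⟨c, hc, hPc⟩ := hcov _ hP0S
    obtain ⟨f2, hf2, hf2'⟩ := hdev ρ ⟨hρ, hρε⟩ 0 T hTT c hc hPc
    obtain ⟨g2, hg2, hg2a, hg2b⟩ := isom_inv hI hf2
    have e1 : ∀ᶠ p : ℝ × ℝ × ℝ in 𝓝 (ρ, 0, T), ℓ (g2 (c (κ.symm (pol p))) : M2) =
        ℓ' (g2 (c (κ.symm (pol p))) : M2) := by
      filter_upwards [hev, hf2'] with p h1 h2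
      have h2' : c (κ.symm (pol p)) = f2 (dv p.1 p.2.1 p.2.2) := h2
      rw [h2', hg2b]
      exact h1
    have e2 := eventually_pol
      (Q := fun z => ℓ (g2 (c (κ.symm z)) : M2) = ℓ' (g2 (c (κ.symm z)) : M2)) hρ e1
    rw [← hz0] at e2
    have e3 : ∀ᶠ x : N in 𝓝 (κ.symm (pol (ρ, 0, T))), ℓ (g2 (c x) : M2) = ℓ' (g2 (c x) : M2) := by
      rw [← κ.symm.map_nhds_eq hz0W.1]
      exact e2
    have e4 : ∀ᶠ x : SL in 𝓝 (c (κ.symm (pol (ρ, 0, T)))), ℓ (g2 x : M2) = ℓ' (g2 x : M2) := by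
      rw [← c.map_nhds_eq hPc]
      exact e3
    have e5 : c (κ.symm (pol (ρ, 0, T))) = f2 (dv ρ 0 T) := hf2'.self_of_nhds
    rw [e5] at e4
    have e6 : ∀ᶠ x : SL in 𝓝 (dv ρ 0 T), ℓ (g2 (f2 x) : M2) = ℓ' (g2 (f2 x) : M2) :=
      ((isom_cont hI hf2).tendsto _).eventually e4
    refine lin_unique hI (dv ρ 0 T) ℓ ℓ' ?_
    filter_upwards [e6] with x hx
    rwa [hg2b] at hx
  -- the functionals are constant
  set Ω : Set (ℝ × ℝ) := Ioo 0 η ×ˢ Ioo (T0 - η) (T0 + η) with hΩ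
  have hΩ' : ∀ z ∈ Ω, 0 < z.1 ∧ z.1 < η ∧ |z.2 - T0| < η := by
    intro z hz
    exact ⟨hz.1.1, hz.1.2, by rw [abs_lt]; constructor <;> linarith [hz.2.1, hz.2.2]⟩
  have hΩo : IsOpen Ω := isOpen_Ioo.prod isOpen_Ioo
  have hΩc : IsPreconnected Ω := isPreconnected_Ioo.prod isPreconnected_Ioo
  have stepC : ∀ i, ∃ ℓ : M2 →ₗ[ℝ] ℝ, ∀ z ∈ Ω, dg i (G ((z.1 : ℂ), z.2)) =
      ℓ (dv z.1 0 z.2 : M2) := by
    intro i
    have hex : ∀ z : ℝ × ℝ, ∃ ℓ : M2 →ₗ[ℝ] ℝ, z ∈ Ω → ∀ᶠ p : ℝ × ℝ × ℝ in 𝓝 (z.1, 0, z.2),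
        dg i (G (pol p)) = ℓ (dv p.1 p.2.1 p.2.2 : M2) := by
      intro z
      by_cases hz : z ∈ Ω
      · obtain ⟨h1, h2, h3⟩ := hΩ' z hz
        obtain ⟨ℓ, hℓ⟩ := stepA z.1 z.2 h1 h2 h3 i
        exact ⟨ℓ, fun _ => hℓ⟩
      · exact ⟨0, fun h => absurd h hz⟩
    choose Λ hΛ using hex
    have hconst : ∀ z ∈ Ω, ∀ z' ∈ Ω, Λ z = Λ z' := by
      intro z hz z' hz'
      refine hΩc.induction₂ (fun z z' => Λ z = Λ z') ?_ (fun _ _ _ _ _ _ h1 h2 => h1.trans h2)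
        (fun _ _ _ _ h1 => h1.symm) hz hz'
      intro x hx
      have h1 := (hΛ x hx).eventually_nhds
      have hc : Tendsto (fun z : ℝ × ℝ => ((z.1, 0, z.2) : ℝ × ℝ × ℝ)) (𝓝 x)
          (𝓝 (x.1, 0, x.2)) := by
        have : Continuous (fun z : ℝ × ℝ => ((z.1, 0, z.2) : ℝ × ℝ × ℝ)) := by fun_prop
        exact this.tendsto x
      have h2 := hc.eventually h1
      filter_upwards [nhdsWithin_le_nhds h2, self_mem_nhdsWithin] with y hy hyΩ
      obtain ⟨k1, k2, k3⟩ := hΩ' y hyΩ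
      refine stepB y.1 y.2 k1 k2 k3 _ _ ?_
      filter_upwards [hy, hΛ y hyΩ] with p hp hp'
      rw [← hp, ← hp']
    have hmid : ((η / 2, T0) : ℝ × ℝ) ∈ Ω := by
      constructor
      · constructor <;> simp only <;> linarith
      · constructor <;> simp only <;> linarith
    refine ⟨Λ (η / 2, T0), fun z hz => ?_⟩
    rw [← hconst z hz _ hmid]
    have := (hΛ z hz).self_of_nhds
    rw [pol_zero] at this
    exact this
  -- the limit on the core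
  have hTin : ∀ T, |T - T0| < η → T ∈ Ioo T₁ T₂ := by
    intro T hT
    exact (hW1 _ (hin 0 T (by simpa using hη) hT)).2
  have stepD : ∀ i, ∃ ℓ : M2 →ₗ[ℝ] ℝ, ∀ T, |T - T0| < η →
      (a (G (0, T)).2) i i = ℓ (a T : M2) := by
    intro i
    obtain ⟨ℓ, hℓ⟩ := stepC i
    refine ⟨ℓ, fun T hT => ?_⟩
    have hTW : ((0 : ℂ), T) ∈ W := hin 0 T (by simpa using hη) hT
    have hG0 : G (0, T) = (0, (G (0, T)).2) := Prod.ext ((hGz _ hTW).mpr rfl) rfl
    have l1 : Tendsto (fun ρ : ℝ => ((ρ : ℂ), T)) (𝓝[>] 0) (𝓝 ((0 : ℂ), T)) := by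
      have : Continuous (fun ρ : ℝ => ((ρ : ℂ), T)) := by fun_prop
      have h1 := this.tendsto 0
      simp only [Complex.ofReal_zero] at h1
      exact h1.mono_left nhdsWithin_le_nhds
    have l2 : Tendsto (fun ρ : ℝ => G ((ρ : ℂ), T)) (𝓝[>] 0) (𝓝 (G (0, T))) :=
      (hGc _ hTW).tendsto.comp l1
    have hsmall : ∀ᶠ ρ : ℝ in 𝓝[>] 0, ρ < η := nhdsWithin_le_nhds (gt_mem_nhds hη)
    have l3 : Tendsto (fun ρ : ℝ => G ((ρ : ℂ), T)) (𝓝[>] 0)
        (𝓝[{z | z.1 ≠ 0}] ((0 : ℂ), (G (0, T)).2)) := by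
      rw [← hG0]
      refine tendsto_nhdsWithin_iff.mpr ⟨l2, ?_⟩
      filter_upwards [self_mem_nhdsWithin, hsmall] with ρ hρ hρ'
      have hρ0 : 0 < ρ := hρ
      have h1 : ((ρ : ℂ), T) ∈ W :=
        hin _ _ (by rw [Complex.norm_real, Real.norm_of_nonneg hρ0.le]; exact hρ') hT
      intro h2
      have h3 := (hGz _ h1).mp h2
      simp only [Complex.ofReal_eq_zero] at h3
      exact hρ0.ne' h3
    have l4 := (dg_lim (dv := dv') (T := (G (0, T)).2)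
      (fun φ => hlim' φ _ (hGt1 _ hTW).2) i).comp l3
    have l5 : Tendsto (fun ρ : ℝ => ℓ (dv ρ 0 T : M2)) (𝓝[>] 0) (𝓝 (ℓ (a T : M2))) := by
      have k1 : Tendsto (fun ρ : ℝ => ((ρ, 0, T) : ℝ × ℝ × ℝ)) (𝓝[>] 0)
          (𝓝[>] 0 ×ˢ 𝓝 0 ×ˢ 𝓝 T) :=
        tendsto_id.prodMk (tendsto_const_nhds.prodMk tendsto_const_nhds)
      have k2 := (hlim 0 T (hTin T hT)).comp k1
      have k3 : Continuous (fun x : SL => ℓ (x : M2)) :=
        (LinearMap.continuous_of_finiteDimensional ℓ).comp continuous_subtype_val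
      exact (k3.tendsto _).comp k2
    refine tendsto_nhds_unique_of_eventuallyEq l4 l5 ?_
    filter_upwards [self_mem_nhdsWithin, hsmall] with ρ hρ hρ'
    exact hℓ (ρ, T) ⟨⟨hρ, hρ'⟩, by
      rw [abs_lt] at hT
      constructor <;> simp only <;> linarith [hT.1, hT.2]⟩
  obtain ⟨ℓ0, hℓ0⟩ := stepD 0
  obtain ⟨ℓ1, hℓ1⟩ := stepD 1
  -- decomposition of `a T`
  set E1 : M2 := !![1, 0; 0, 0]
  set E2 : M2 := !![0, 0; 0, 1]
  have hdec : ∀ T : ℝ, (a T : M2) = Real.exp (T / 2) • E1 + Real.exp (-(T / 2)) • E2 := by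
    intro T
    ext i j
    fin_cases i <;> fin_cases j <;> simp [a, E1, E2]
  obtain ⟨σ, c, hσ, hfin⟩ := alg (p := ℓ0 E1) (q := ℓ0 E2) (r := ℓ1 E1) (s := ℓ1 E2) hη
    (fun T => (G (0, T)).2) (fun T hT => by
      have := hℓ0 T hT
      rw [hdec T, map_add, map_smul, map_smul] at this
      exact this) (fun T hT => by
      have := hℓ1 T hT
      rw [hdec T, map_add, map_smul, map_smul] at this
      exact this)
  refine ⟨σ, c, hσ, ?_⟩
  have hκc : Tendsto κ (𝓝 q) (𝓝 (κ q)) := κ.continuousAt hq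
  have ev : ∀ᶠ q' in 𝓝 q, |(κ q').2 - T0| < η := by
    have h1 : Tendsto (fun q' => (κ q').2) (𝓝 q) (𝓝 T0) := (continuous_snd.tendsto _).comp hκc
    exact h1.eventually (Metric.ball_mem_nhds T0 hη)
  filter_upwards [ev, κ.open_source.mem_nhds hq] with q' h1 h2 h3
  have h4 : κ q' = (0, (κ q').2) := Prod.ext ((hzero q' h2).mp h3) rfl
  have h5 := hfin (κ q').2 h1
  rw [← h5]
  show (κ' (h q')).2 = (κ' (h (κ.symm (0, (κ q').2)))).2
  rw [← h4, κ.left_inv h2]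

end AdT
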