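import Pool.Agent.Helper88.AdT.Stmts

/-!
Continuity of the one-line functions `th` and `th2`.
-/

open Matrix Real Topology Filter Set

noncomputable section

namespace AdT

namespace ThFun

lemma sqrt2_pos : (0 : ℝ) < √2 := Real.sqrt_pos.mpr (by norm_num)

lemma sqrt2_mul : √2 * √2 = (2 : ℝ) := Real.mul_self_sqrt (by norm_num)

lemma r0_pos : 0 < r0 := by
  rw [r0, Real.arsinh_pos_iff]
  have := sqrt2_pos
  positivity

lemma sinh_r0 : sinh r0 = 1 / √2 := by rw [r0, Real.sinh_arsinh]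

lemma inv_sqrt2_sq : (1 / √2) ^ 2 = (1 : ℝ) / 2 := by
  rw [div_pow, one_pow, pow_two, sqrt2_mul]

lemma r0_le : r0 ≤ 0.7072 := by
  have h1 : r0 ≤ sinh r0 := Real.self_le_sinh_iff.mpr r0_pos.le
  rw [sinh_r0] at h1
  have h2 : (1 : ℝ) / √2 ≤ 0.7072 := by
    by_contra h
    push Not at h
    have h3 := inv_sqrt2_sq
    nlinarith
  linarith

lemma cosh_s0 : cosh s0 = 2 := by
  rw [s0, Real.cosh_two_mul, Real.cosh_sq, sinh_r0, inv_sqrt2_sq]
  norm_num

lemma s0_pos : 0 < s0 := by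
  have := r0_pos
  rw [s0]; linarith

lemma sinh_s0 : sinh s0 = √3 := by
  have h1 : 0 < sinh s0 := Real.sinh_pos_iff.mpr s0_pos
  have h2 : sinh s0 ^ 2 = 3 := by
    rw [Real.sinh_sq, cosh_s0]; norm_num
  rw [← h2, Real.sqrt_sq h1.le]

lemma exp_s0 : exp s0 = 2 + √3 := by
  rw [← Real.cosh_add_sinh, cosh_s0, sinh_s0]

/-! the function `m0` -/

lemma m0_pos {ν : ℝ} (h : 0 < ν) : 0 < m0 ν :=
  lt_max_of_lt_right (lt_min r0_pos h)

lemma m0_neg' (ν : ℝ) : m0 (-ν) = -m0 ν := by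
  simp only [m0]
  have h := r0_pos
  simp only [min_def, max_def]
  split_ifs <;> linarith

lemma m0_neg {ν : ℝ} (h : ν < 0) : m0 ν < 0 := by
  have h1 := m0_pos (ν := -ν) (by linarith)
  rw [m0_neg'] at h1
  linarith

lemma m0_zero : m0 0 = 0 := by
  have h := m0_neg' 0
  rw [neg_zero] at h
  linarith

lemma m0_cont : Continuous m0 := by
  unfold m0
  fun_prop

lemma m0_abs (ν : ℝ) : |m0 ν| ≤ r0 := by
  have h := r0_pos
  rw [abs_le]
  refine ⟨le_max_left _ _, ?_⟩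
  exact max_le (by linarith) (min_le_left _ _)

/-! the function `clamp` -/

lemma clamp_cont : Continuous clamp := by
  unfold clamp
  fun_prop

lemma clamp_ge {x : ℝ} (h : 1 ≤ x) : clamp x = 1 := by
  rw [clamp, min_eq_left h]; norm_num

lemma clamp_le {x : ℝ} (h : x ≤ -1) : clamp x = -1 := by
  rw [clamp, min_eq_right (by linarith)]
  exact max_eq_left h

lemma u0_contAt {p : ℝ × ℝ} (h : p.2 ≠ 0) : ContinuousAt (fun p : ℝ × ℝ => u0 p.1 p.2) p := by
  unfold u0
  have hm : m0 p.2 ≠ 0 := by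
    rcases lt_or_gt_of_ne h with h | h
    · exact (m0_neg h).ne
    · exact (m0_pos h).ne'
  have h1 : ContinuousAt (fun p : ℝ × ℝ => arsinh p.1) p :=
    (Real.continuous_arsinh.comp continuous_fst).continuousAt
  have h2 : ContinuousAt (fun p : ℝ × ℝ => m0 p.2) p :=
    (m0_cont.comp continuous_snd).continuousAt
  have h3 : ContinuousAt (fun p : ℝ × ℝ => clamp (arsinh p.1 / m0 p.2)) p :=
    clamp_cont.continuousAt.comp' (h1.div h2 hm)
  exact continuousAt_const.add (h3.div_const 2)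

/-- `u0` when the quotient is at least one -/
lemma u0_one {τ ν : ℝ} (h : 1 ≤ arsinh τ / m0 ν) : u0 τ ν = 1 := by
  rw [u0, clamp_ge h]; norm_num

lemma u0_zero {τ ν : ℝ} (h : arsinh τ / m0 ν ≤ -1) : u0 τ ν = 0 := by
  rw [u0, clamp_le h]; norm_num

lemma th2_pos {τ ν : ℝ} (hτ : 0 < τ) (h : |m0 ν| ≤ arsinh τ) :
    th2 τ ν = ((1 : ℝ) : AddCircle (2 : ℝ)) := by
  unfold th2
  split_ifs with h1 h2
  · rfl
  · have h3 := m0_pos h2
    rw [abs_of_pos h3] at h
    rw [u0_one ((le_div_iff₀ h3).mpr (by linarith))]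
  · have h4 : ν < 0 := lt_of_le_of_ne (not_lt.mp h2) h1
    have h3 := m0_neg h4
    rw [abs_of_neg h3] at h
    rw [u0_zero ((div_le_iff_of_neg h3).mpr (by linarith)), zero_add]

lemma th2_neg {τ ν : ℝ} (hτ : τ < 0) (h : |m0 ν| ≤ -arsinh τ) :
    th2 τ ν = 0 := by
  unfold th2
  split_ifs with h1 h2 h3
  · linarith
  · rfl
  · have h3 := m0_pos h3
    rw [abs_of_pos h3] at h
    rw [u0_zero ((div_le_iff₀ h3).mpr (by linarith))]
    rfl
  · have h4 : ν < 0 := lt_of_le_of_ne (not_lt.mp h3) h1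
    have h3 := m0_neg h4
    rw [abs_of_neg h3] at h
    rw [u0_one ((le_div_iff_of_neg h3).mpr (by linarith))]
    have e : (1 : ℝ) + 1 = 2 := by norm_num
    rw [e]
    exact AddCircle.coe_period 2

lemma th2_contAt {p : ℝ × ℝ} (hp : p ≠ 0) : ContinuousAt (fun p : ℝ × ℝ => th2 p.1 p.2) p := by
  obtain ⟨τ, ν⟩ := p
  rcases lt_trichotomy ν 0 with hν | hν | hν
  · have h1 : ContinuousAt
        (fun p : ℝ × ℝ => ((u0 p.1 p.2 + 1 : ℝ) : AddCircle (2 : ℝ))) (τ, ν) :=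
      (AddCircle.continuous_mk' 2).continuousAt.comp'
        ((u0_contAt (p := (τ, ν)) hν.ne).add continuousAt_const)
    refine h1.congr ?_
    have h2 : ∀ᶠ p : ℝ × ℝ in 𝓝 (τ, ν), p.2 < 0 :=
      (isOpen_lt continuous_snd continuous_const).mem_nhds hν
    filter_upwards [h2] with p hp
    rw [th2, if_neg hp.ne, if_neg (not_lt.mpr hp.le)]
  · subst hν
    have hτ : τ ≠ 0 := by
      rintro rfl
      exact hp rfl
    rcases lt_or_gt_of_ne hτ with hτ | hτ
    · have h1 : ContinuousAt (fun _ : ℝ × ℝ => (0 : AddCircle (2 : ℝ))) (τ, (0 : ℝ)) :=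
        continuousAt_const
      refine h1.congr ?_
      have h2 : ∀ᶠ p : ℝ × ℝ in 𝓝 (τ, 0), p.1 < 0 :=
        (isOpen_lt continuous_fst continuous_const).mem_nhds hτ
      have h3 : ∀ᶠ p : ℝ × ℝ in 𝓝 (τ, 0), |m0 p.2| < -arsinh p.1 := by
        refine (isOpen_lt (m0_cont.comp continuous_snd).abs
          (Real.continuous_arsinh.comp continuous_fst).neg).mem_nhds ?_
        show |m0 0| < -arsinh τ
        rw [m0_zero, abs_zero]
        have := Real.arsinh_neg_iff.mpr hτ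
        linarith
      filter_upwards [h2, h3] with p hp1 hp2
      rw [th2_neg hp1 hp2.le]
    · have h1 : ContinuousAt (fun _ : ℝ × ℝ => ((1 : ℝ) : AddCircle (2 : ℝ))) (τ, (0 : ℝ)) :=
        continuousAt_const
      refine h1.congr ?_
      have h2 : ∀ᶠ p : ℝ × ℝ in 𝓝 (τ, 0), 0 < p.1 :=
        (isOpen_lt continuous_const continuous_fst).mem_nhds hτ
      have h3 : ∀ᶠ p : ℝ × ℝ in 𝓝 (τ, 0), |m0 p.2| < arsinh p.1 := by
        refine (isOpen_lt (m0_cont.comp continuous_snd).abs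
          (Real.continuous_arsinh.comp continuous_fst)).mem_nhds ?_
        show |m0 0| < arsinh τ
        rw [m0_zero, abs_zero]
        exact Real.arsinh_pos_iff.mpr hτ
      filter_upwards [h2, h3] with p hp1 hp2
      rw [th2_pos hp1 hp2.le]
  · have h1 : ContinuousAt
        (fun p : ℝ × ℝ => ((u0 p.1 p.2 : ℝ) : AddCircle (2 : ℝ))) (τ, ν) :=
      (AddCircle.continuous_mk' 2).continuousAt.comp' (u0_contAt (p := (τ, ν)) hν.ne')
    refine h1.congr ?_
    have h2 : ∀ᶠ p : ℝ × ℝ in 𝓝 (τ, ν), 0 < p.2 :=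
      (isOpen_lt continuous_const continuous_snd).mem_nhds hν
    filter_upwards [h2] with p hp
    rw [th2, if_neg hp.ne', if_pos hp]

/-- the projection `ℝ/2ℤ → ℝ/ℤ` -/
def p21 : AddCircle (2 : ℝ) →+ AddCircle (1 : ℝ) :=
  QuotientAddGroup.map (AddSubgroup.zmultiples (2 : ℝ)) (AddSubgroup.zmultiples (1 : ℝ))
    (AddMonoidHom.id ℝ) (by
      intro x hx
      obtain ⟨k, rfl⟩ := AddSubgroup.mem_zmultiples_iff.mp hx
      exact AddSubgroup.mem_zmultiples_iff.mpr ⟨2 * k, by simp; ring⟩)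

lemma p21_coe (x : ℝ) : p21 ((x : ℝ) : AddCircle (2 : ℝ)) = ((x : ℝ) : AddCircle (1 : ℝ)) := rfl

lemma p21_cont : Continuous p21 := by
  have h : Continuous (fun x : ℝ => p21 ((x : ℝ) : AddCircle (2 : ℝ))) :=
    AddCircle.continuous_mk' 1
  exact (QuotientAddGroup.isQuotientMap_mk (N := AddSubgroup.zmultiples (2 : ℝ))).continuous_iff.mpr h

lemma coe_one' : ((1 : ℝ) : AddCircle (1 : ℝ)) = 0 := AddCircle.coe_period 1

lemma th_eq (τ ν : ℝ) : th τ ν = p21 (th2 τ ν) := by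
  unfold th th2
  split_ifs with h1 h2 h3
  · rw [p21_coe, coe_one']
  · rw [map_zero]
  · rw [p21_coe]
  · rw [p21_coe]
    have : ((u0 τ ν + 1 : ℝ) : AddCircle (1 : ℝ)) = (u0 τ ν : ℝ) + (1 : ℝ) :=
      AddCircle.coe_add 1 (u0 τ ν) 1
    rw [this, coe_one', add_zero]

lemma arsinh_ge {τ : ℝ} (h : 1 ≤ 2 * τ ^ 2) : r0 ≤ arsinh τ ∨ arsinh τ ≤ -r0 := by
  rcases le_total 0 τ with h0 | h0
  · left
    rw [r0, Real.arsinh_le_arsinh]
    have h1 := inv_sqrt2_sq
    have h2 : 0 < 1 / √2 := by have := sqrt2_pos; positivity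
    by_contra h3
    push Not at h3
    nlinarith
  · right
    have h2 : 0 < 1 / √2 := by have := sqrt2_pos; positivity
    rw [r0, ← Real.arsinh_neg, Real.arsinh_le_arsinh]
    have h1 := inv_sqrt2_sq
    by_contra h3
    push Not at h3
    nlinarith

lemma th_far (τ ν : ℝ) (h : 1 ≤ 2 * τ ^ 2) : th τ ν = 0 := by
  have hτ : τ ≠ 0 := by
    rintro rfl
    norm_num at h
  have hm := m0_abs ν
  rcases arsinh_ge h with h1 | h1
  · have hpos : 0 < τ := by
      rw [← Real.arsinh_pos_iff]; have := r0_pos; linarith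
    rw [th_eq, th2_pos hpos (hm.trans h1), p21_coe, coe_one']
  · have hneg : τ < 0 := by
      rw [← Real.arsinh_neg_iff]; have := r0_pos; linarith
    rw [th_eq, th2_neg hneg (by linarith), map_zero]

lemma th_neg_neg (τ ν : ℝ) : th (-τ) (-ν) = th τ ν := by
  unfold th
  have h : u0 (-τ) (-ν) = u0 τ ν := by
    rw [u0, u0, Real.arsinh_neg, m0_neg', neg_div_neg_eq]
  rw [h]
  simp only [neg_eq_zero]

end ThFun

open ThFun

theorem thFun : ThStmt := by
  refine ⟨?_, ?_, th_far, th_neg_neg, ?_, r0_pos, r0_le, sinh_r0, cosh_s0, exp_s0⟩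
  · have h : (fun p : ℝ × ℝ => th p.1 p.2) = fun p : ℝ × ℝ => p21 (th2 p.1 p.2) := by
      funext p
      exact th_eq _ _
    rw [h]
    intro p hp
    exact (p21_cont.continuousAt.comp' (th2_contAt hp)).continuousWithinAt
  · intro p hp
    exact (th2_contAt hp).continuousWithinAt
  · intro τ ν f _ hf
    rw [th_eq, ← hf, p21_coe]

end AdT
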