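import Pool.Agent.Helper88.AdT.Stmts1

/-!
Module AD-5 (written by helper98): the circle valued functions `Th`.
-/

open Matrix Real Topology Filter Set

noncomputable section

namespace AdT

namespace Theta

lemma cont_entry (i j : Fin 2) : Continuous (fun x : SL => x i j) :=
  (continuous_subtype_val : Continuous (Subtype.val : SL → M2)).matrix_elem i j

lemma cont_tau (N : M2) : Continuous (fun x : SL => tau x N) := by
  have h : ∀ i j, Continuous (fun x : SL => x i j) := cont_entry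
  have h00 := h 0 0
  have h01 := h 0 1
  have h10 := h 1 0
  have h11 := h 1 1
  simp only [tau, fr_gen, Matrix.of_apply, Matrix.cons_val', Matrix.cons_val_zero,
    Matrix.cons_val_one, Matrix.cons_val_fin_one]
  fun_prop

lemma cont_nu (N : M2) : Continuous (fun x : SL => nu x N) := by
  have h : ∀ i j, Continuous (fun x : SL => x i j) := cont_entry
  have h00 := h 0 0
  have h01 := h 0 1
  have h10 := h 1 0
  have h11 := h 1 1
  simp only [nu, fr_gen, Matrix.of_apply, Matrix.cons_val', Matrix.cons_val_zero,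
    Matrix.cons_val_one, Matrix.cons_val_fin_one]
  fun_prop

lemma fr_neg (x : SL) (N : M2) : fr x (-N) = -fr x N := by simp [fr]
lemma tau_neg (x : SL) (N : M2) : tau x (-N) = -tau x N := by simp [tau, fr_neg]; ring
lemma nu_neg (x : SL) (N : M2) : nu x (-N) = -nu x N := by simp [nu, fr_neg]; ring
lemma ip_neg_left (N N' : M2) : ip (-N) N' = -ip N N' := by simp [ip]; ring
lemma ip_neg_right (N N' : M2) : ip N (-N') = -ip N N' := by simp [ip]; ring

lemma Dm_can : Dm ∈ Can true := ⟨1, 0, 0, by norm_num, by norm_num, by simp [Dm]⟩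
lemma Km_can : Km ∈ Can false := ⟨0, 1, 0, by norm_num, by norm_num, by simp [Km]⟩

/-- the key lemma -/
lemma key (h1 : Arith1Stmt) (h2 : FrameStmt) {κ : Bool} {x : SL} {N N' : M2} (hN : N ∈ Can κ)
    (hN' : N' ∈ Can κ) (ht : 2 * tau x N ^ 2 < 1) (ht' : 2 * tau x N' ^ 2 < 1) : N = N' := by
  have hL := (h1.2.2.2.2.2.1 κ N hN).1
  have hL' := (h1.2.2.2.2.2.1 κ N' hN').1
  obtain ⟨k, hk, hk3⟩ := h1.2.1 κ N hN N' hN'
  apply h1.2.2.2.1 N hL N' hL'
  have e1 := h2.1 x N hL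
  have e2 := h2.1 x N' hL'
  have e3 := h2.2.1 x N hL N' hL'
  set τ := tau x N
  set τ' := tau x N'
  set ν := nu x N
  set ν' := nu x N'
  set σ := sg x N
  set σ' := sg x N'
  have c1 : (ν * ν' + σ * σ') ^ 2 ≤ (ν ^ 2 + σ ^ 2) * (ν' ^ 2 + σ' ^ 2) := by
    nlinarith [sq_nonneg (ν * σ' - σ * ν')]
  have c2 : ν ^ 2 + σ ^ 2 < 3 / 2 := by linarith
  have c3 : ν' ^ 2 + σ' ^ 2 < 3 / 2 := by linarith
  have c4 : (ν * ν' + σ * σ') ^ 2 < (3 / 2) ^ 2 := by
    have : (ν ^ 2 + σ ^ 2) * (ν' ^ 2 + σ' ^ 2) < 3 / 2 * (3 / 2) :=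
      mul_lt_mul'' c2 c3 (by positivity) (by positivity)
    linarith
  have c5 := abs_lt_of_sq_lt_sq c4 (by norm_num)
  have c6 : (τ * τ') ^ 2 < (1 / 2) ^ 2 := by
    have : τ ^ 2 * τ' ^ 2 < 1 / 2 * (1 / 2) :=
      mul_lt_mul'' (by linarith) (by linarith) (by positivity) (by positivity)
    nlinarith
  have c7 := abs_lt_of_sq_lt_sq c6 (by norm_num)
  rw [abs_lt] at c5 c7
  have c8 : (-2 : ℝ) < k := by rw [← hk, e3]; linarith [c5.1, c7.2]
  have c9 : (k : ℝ) < 2 := by rw [← hk, e3]; linarith [c5.2, c7.1]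
  have c10 : (-2 : ℤ) < k := by exact_mod_cast c8
  have c11 : k < 2 := by exact_mod_cast c9
  have c12 : k = 1 := by omega
  rw [hk, c12]
  norm_num

lemma Th_one (h1 : Arith1Stmt) (h2 : FrameStmt) (h5 : ThStmt) (κ : Bool) (x : SL) (N : M2)
    (hN : N ∈ Can κ) (ht : 2 * tau x N ^ 2 < 1) : Th κ x = th (tau x N) (nu x N) := by
  have hz : ∀ N' : Can κ, N' ≠ ⟨N, hN⟩ → th (tau x N'.1) (nu x N'.1) = 0 := by
    rintro ⟨N', hN'⟩ hne
    by_cases ht' : 2 * tau x N' ^ 2 < 1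
    · have e : N' = N := key h1 h2 (κ := κ) (x := x) hN' hN ht' ht
      subst e
      exact absurd rfl hne
    · exact h5.2.2.1 _ _ (not_lt.1 ht')
  unfold Th
  exact finsum_eq_single (fun N' : Can κ => th (tau x N'.1) (nu x N'.1)) ⟨N, hN⟩ hz

lemma Th_zero (h5 : ThStmt) (κ : Bool) (x : SL) (h : ∀ N ∈ Can κ, 1 ≤ 2 * tau x N ^ 2) :
    Th κ x = 0 := by
  unfold Th
  rw [← finsum_zero (α := Can κ)]
  congr 1
  funext N
  exact h5.2.2.1 _ _ (h N.1 N.2)

lemma Th_cont (h1 : Arith1Stmt) (h4 : FinStmt) (h5 : ThStmt) (κ : Bool) :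
    ContinuousOn (Th κ) {x : SL | ∀ N ∈ Can κ, ¬ (tau x N = 0 ∧ nu x N = 0)} := by
  intro x hx
  apply ContinuousAt.continuousWithinAt
  obtain ⟨R, hR⟩ : ∃ R : ℝ, ∀ i j, |x i j| < R := by
    refine ⟨∑ i, ∑ j, |x i j| + 1, fun i j => ?_⟩
    have e1 : |x i j| ≤ ∑ j, |x i j| :=
      Finset.single_le_sum (f := fun j => |x i j|) (fun _ _ => abs_nonneg _) (Finset.mem_univ j)
    have e2 : ∑ j, |x i j| ≤ ∑ i, ∑ j, |x i j| :=
      Finset.single_le_sum (f := fun i => ∑ j, |x i j|)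
        (fun _ _ => Finset.sum_nonneg fun _ _ => abs_nonneg _) (Finset.mem_univ i)
    linarith
  have hU : ∀ᶠ x' in 𝓝 x, ∀ i j, |(x' : SL) i j| < R := by
    rw [eventually_all]
    intro i
    rw [eventually_all]
    intro j
    exact (cont_entry i j).abs.continuousAt.eventually (gt_mem_nhds (hR i j))
  have hfin := h4.2.2 R 1
  have hfin' : {N : Can κ | N.1 ∈ {N : M2 | N ∈ Lines ∧ ∃ x : SL, (∀ i j, |x i j| ≤ R) ∧
      |tau x N| ≤ 1}}.Finite := hfin.preimage Subtype.val_injective.injOn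
  have heq : Th κ =ᶠ[𝓝 x] fun x' => ∑ N ∈ hfin'.toFinset, th (tau x' N.1) (nu x' N.1) := by
    filter_upwards [hU] with x' hx'
    unfold Th
    apply finsum_eq_sum_of_support_subset
    intro N hN
    rw [Set.Finite.coe_toFinset]
    refine ⟨(h1.2.2.2.2.2.1 κ N.1 N.2).1, x', fun i j => (hx' i j).le, ?_⟩
    by_contra hcon
    apply hN
    apply h5.2.2.1
    have e1 : 1 < |tau x' N.1| := not_le.1 hcon
    have e2 : (1 : ℝ) < |tau x' N.1| ^ 2 := by nlinarith
    rw [sq_abs] at e2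
    linarith
  refine ContinuousAt.congr ?_ heq.symm
  apply tendsto_finsetSum
  intro N _
  have hne : (tau x N.1, nu x N.1) ∈ ({0}ᶜ : Set (ℝ × ℝ)) := by
    intro h0
    have h0' := Prod.mk.inj (show (tau x N.1, nu x N.1) = ((0 : ℝ), (0 : ℝ)) from h0)
    exact hx N.1 N.2 h0'
  have hc1 : ContinuousAt (fun p : ℝ × ℝ => th p.1 p.2) (tau x N.1, nu x N.1) :=
    h5.1.continuousAt (isOpen_compl_singleton.mem_nhds hne)
  have hc2 : ContinuousAt (fun x' : SL => (tau x' N.1, nu x' N.1)) x :=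
    ((cont_tau N.1).prodMk (cont_nu N.1)).continuousAt
  exact ContinuousAt.comp (f := fun x' : SL => (tau x' N.1, nu x' N.1)) (x := x) hc1 hc2

/-- lines of a colour, up to sign -/
def Col (κ : Bool) (N : M2) : Prop := N ∈ Can κ ∨ -N ∈ Can κ

lemma col_line (h1 : Arith1Stmt) {κ : Bool} {N : M2} (h : Col κ N) : N ∈ Lines := by
  rcases h with h | h
  · exact (h1.2.2.2.2.2.1 κ N h).1
  · have := (h1.2.2.2.2.2.1 κ _ h).2
    rwa [neg_neg] at this

lemma can_ip (h1 : Arith1Stmt) {κ κ' : Bool} {N N' : M2} (h : N ∈ Can κ) (h' : N' ∈ Can κ') :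
    ∃ k : ℤ, ip N N' = k ∧ (κ = κ' ↔ k % 3 ≠ 0) := by
  cases κ <;> cases κ'
  · obtain ⟨k, hk, h3⟩ := h1.2.1 false N h N' h'
    exact ⟨k, hk, by simp; omega⟩
  · obtain ⟨k, hk, h3⟩ := h1.2.2.1 N' h' N h
    refine ⟨k, ?_, by simp; omega⟩
    rw [← hk, ip, ip, Matrix.trace_mul_comm]
  · obtain ⟨k, hk, h3⟩ := h1.2.2.1 N h N' h'
    exact ⟨k, hk, by simp; omega⟩
  · obtain ⟨k, hk, h3⟩ := h1.2.1 true N h N' h'
    exact ⟨k, hk, by simp; omega⟩

lemma col_ip (h1 : Arith1Stmt) {κ κ' : Bool} {N N' : M2} (h : Col κ N) (h' : Col κ' N') :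
    ∃ k : ℤ, ip N N' = k ∧ (κ = κ' ↔ k % 3 ≠ 0) := by
  rcases h with h | h <;> rcases h' with h' | h'
  · exact can_ip h1 h h'
  · obtain ⟨k, hk, h3⟩ := can_ip h1 h h'
    refine ⟨-k, ?_, h3.trans (by omega)⟩
    rw [ip_neg_right] at hk
    push_cast
    linarith
  · obtain ⟨k, hk, h3⟩ := can_ip h1 h h'
    refine ⟨-k, ?_, h3.trans (by omega)⟩
    rw [ip_neg_left] at hk
    push_cast
    linarith
  · obtain ⟨k, hk, h3⟩ := can_ip h1 h h'
    refine ⟨k, ?_, h3⟩
    rw [ip_neg_left, ip_neg_right] at hk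
    linarith

lemma col_unique (h1 : Arith1Stmt) {κ κ' κ₁ κ₁' : Bool} {N N' P P' : M2} (h : Col κ N)
    (h' : Col κ' N') (g : Col κ₁ P) (g' : Col κ₁' P') (hip : ip N N' = ip P P') :
    (κ = κ' ↔ κ₁ = κ₁') := by
  obtain ⟨k, hk, h3⟩ := col_ip h1 h h'
  obtain ⟨l, hl, l3⟩ := col_ip h1 g g'
  have : (k : ℝ) = l := by rw [← hk, ← hl, hip]
  have hkl : k = l := by exact_mod_cast this
  rw [h3, l3, hkl]

/-- the values of `Th` are compared through a map of lines -/
lemma Th_transfer (h1 : Arith1Stmt) (h2 : FrameStmt) (h5 : ThStmt) {κ κ' : Bool} {g : SL}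
    (x : SL) (hf : ∀ N ∈ Can κ, Col κ' (cj g N)) (hb : ∀ N ∈ Can κ', Col κ (cj g⁻¹ N)) :
    Th κ' (g * x) = Th κ x := by
  by_cases hA : ∃ N ∈ Can κ, 2 * tau x N ^ 2 < 1
  · obtain ⟨N, hN, ht⟩ := hA
    rw [Th_one h1 h2 h5 κ x N hN ht]
    rcases hf N hN with hc | hc
    · rw [Th_one h1 h2 h5 κ' (g * x) _ hc (by rw [tau_mul]; exact ht), tau_mul, nu_mul]
    · rw [Th_one h1 h2 h5 κ' (g * x) _ hc (by rw [tau_neg, tau_mul, neg_sq]; exact ht),
        tau_neg, nu_neg, tau_mul, nu_mul]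
      exact h5.2.2.2.1 _ _
  · push Not at hA
    rw [Th_zero h5 κ x hA]
    apply Th_zero h5
    intro C hC
    have e1 : tau (g * x) C = tau x (cj g⁻¹ C) := by
      rw [← tau_mul g x (cj g⁻¹ C), cj_cj_inv]
    rw [e1]
    rcases hb C hC with hc | hc
    · exact hA _ hc
    · have := hA _ hc
      rwa [tau_neg, neg_sq] at this

lemma Th_nz (h1 : Arith1Stmt) (h2 : FrameStmt) (h5 : ThStmt) {g : SL} (hg : g ∈ Nz) :
    (∀ κ x, Th κ (g * x) = Th κ x) ∨ (∀ κ x, Th (!κ) (g * x) = Th κ x) := by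
  have hD : Dm ∈ Lines := (h1.2.2.2.2.2.1 true Dm Dm_can).1
  have hK : Km ∈ Lines := (h1.2.2.2.2.2.1 false Km Km_can).1
  obtain ⟨κD, hκD⟩ := h1.2.2.2.2.1 _ (hg Dm hD).1
  obtain ⟨κK, hκK⟩ := h1.2.2.2.2.1 _ (hg Km hK).1
  have hne : κD ≠ κK := by
    intro h
    have := (col_unique h1 (κ := true) (κ' := false) (Or.inl Dm_can) (Or.inl Km_can)
      (show Col κD (cj g Dm) from hκD) (show Col κK (cj g Km) from hκK) (ip_cj g _ _).symm).2 h
    exact absurd this (by decide)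
  -- the colour of the image
  set s : Bool → Bool := fun κ => bif κ then κD else κK with hs
  have hsc : ∀ κ, ∀ N, Col κ N → Col (s κ) (cj g N) := by
    intro κ N hN
    obtain ⟨κ₁, hκ₁⟩ := h1.2.2.2.2.1 _ (hg N (col_line h1 hN)).1
    have e : κ₁ = s κ := by
      cases κ
      · have := (col_unique h1 hN (show Col false Km from Or.inl Km_can)
          (show Col κ₁ (cj g N) from hκ₁) (show Col κK (cj g Km) from hκK) (ip_cj g _ _).symm).1 rfl
        simpa [hs] using this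
      · have := (col_unique h1 hN (show Col true Dm from Or.inl Dm_can)
          (show Col κ₁ (cj g N) from hκ₁) (show Col κD (cj g Dm) from hκD) (ip_cj g _ _).symm).1 rfl
        simpa [hs] using this
    rw [← e]
    exact hκ₁
  have hsinj : ∀ κ κ', s κ = s κ' → κ = κ' := by
    intro κ κ' h
    cases κ <;> cases κ'
    · rfl
    · exact absurd h (by simpa [hs] using hne.symm)
    · exact absurd h (by simpa [hs] using hne)
    · rfl
  have hcu : ∀ κ κ' N, Col κ N → Col κ' N → κ = κ' := by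
    intro κ κ' N hN hN'
    exact (col_unique h1 hN hN' hN hN rfl).2 rfl
  have hback : ∀ κ, ∀ C ∈ Can (s κ), Col κ (cj g⁻¹ C) := by
    intro κ C hC
    obtain ⟨κ₂, hκ₂⟩ := h1.2.2.2.2.1 _ (hg C (col_line h1 (Or.inl hC))).2
    have e1 := hsc κ₂ _ hκ₂
    rw [cj_cj_inv] at e1
    have e2 := hcu _ _ C e1 (Or.inl hC)
    rw [← hsinj _ _ e2]
    exact hκ₂
  have hmain : ∀ κ x, Th (s κ) (g * x) = Th κ x := fun κ x =>
    Th_transfer h1 h2 h5 x (fun N hN => hsc κ N (Or.inl hN)) (hback κ)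
  by_cases hcase : κD = true
  · left
    have hKf : κK = false := by
      cases κK
      · rfl
      · exact absurd hcase hne
    have hs' : ∀ κ, s κ = κ := by
      intro κ
      cases κ
      · simp [hs, hKf]
      · simp [hs, hcase]
    intro κ x
    have := hmain κ x
    rwa [hs'] at this
  · right
    have hDf : κD = false := by
      cases κD
      · rfl
      · exact absurd rfl hcase
    have hKt : κK = true := by
      cases κK
      · exact absurd hDf hne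
      · rfl
    have hs' : ∀ κ, s κ = !κ := by
      intro κ
      cases κ
      · simp [hs, hKt]
      · simp [hs, hDf]
    intro κ x
    have := hmain κ x
    rwa [hs'] at this

/-! ### the last clause -/

lemma e_mul (t : ℝ) : exp (t / 2) * exp (-(t / 2)) = 1 := by
  rw [← Real.exp_add, add_neg_cancel, Real.exp_zero]

lemma a00 (t : ℝ) : (a t) 0 0 = exp (t / 2) := by simp [a]
lemma a01 (t : ℝ) : (a t) 0 1 = 0 := by simp [a]
lemma a10 (t : ℝ) : (a t) 1 0 = 0 := by simp [a]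
lemma a11 (t : ℝ) : (a t) 1 1 = exp (-(t / 2)) := by simp [a]

lemma a_add (s t : ℝ) : a s * a t = a (s + t) := by
  have e1 : exp (s / 2) * exp (t / 2) = exp ((s + t) / 2) := by
    rw [← Real.exp_add]
    congr 1
    ring
  have e2 : exp (-(s / 2)) * exp (-(t / 2)) = exp (-((s + t) / 2)) := by
    rw [← Real.exp_add]
    congr 1
    ring
  apply Subtype.ext
  rw [Matrix.SpecialLinearGroup.coe_mul]
  show !![exp (s / 2), 0; 0, exp (-(s / 2))] * !![exp (t / 2), 0; 0, exp (-(t / 2))] =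
    !![exp ((s + t) / 2), 0; 0, exp (-((s + t) / 2))]
  rw [Matrix.mul_fin_two, ← e1, ← e2]
  simp

lemma tau_a_Dm (z : ℝ) : tau (a z) Dm = 0 := by
  rw [Dm, tau_nm, a01, a10]
  ring

lemma nu_a_Dm (z : ℝ) : nu (a z) Dm = 0 := by
  rw [Dm, nu_nm, a01, a10]
  ring

lemma sg_a_Dm (z : ℝ) : sg (a z) Dm = 1 := by
  rw [Dm, sg_nm, a01, a10, a00, a11, e_mul]
  ring

lemma exp_half_sq (u : ℝ) : exp (u / 2) ^ 2 = exp u := by
  rw [sq, ← Real.exp_add]
  congr 1
  ring

lemma exp_neg_half_sq (u : ℝ) : exp (-(u / 2)) ^ 2 = exp (-u) := by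
  rw [sq, ← Real.exp_add]
  congr 1
  ring

lemma tau_a_Km (u : ℝ) : tau (a u) Km = -sinh u := by
  rw [Km, tau_nm, a01, a10, a00, a11, exp_half_sq, exp_neg_half_sq, Real.sinh_eq]
  ring

lemma nu_a_Km (u : ℝ) : nu (a u) Km = -cosh u := by
  rw [Km, nu_nm, a01, a10, a00, a11, exp_half_sq, exp_neg_half_sq, Real.cosh_eq]
  ring

lemma a_split (z s : ℝ) : a z = a s * a (z - s) := by
  rw [a_add]
  congr 1
  ring

lemma tau_cj (z s : ℝ) : tau (a z) (cj (a s) Km) = -sinh (z - s) := by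
  rw [a_split z s, tau_mul, tau_a_Km]

lemma nu_cj (z s : ℝ) : nu (a z) (cj (a s) Km) = -cosh (z - s) := by
  rw [a_split z s, nu_mul, nu_a_Km]

/-- the value on the perpendicular line -/
lemma th_val (h5 : ThStmt) {u : ℝ} (hu : |u| ≤ r0) :
    th (-sinh u) (-cosh u) = ((1 / 2 + u / s0 : ℝ) : AddCircle (1 : ℝ)) := by
  obtain ⟨hr, hr1, hsr, -, -⟩ := h5.2.2.2.2.2
  have hc := Real.one_le_cosh u
  unfold th
  rw [if_neg (by linarith)]
  congr 1
  unfold u0
  have hm : m0 (-cosh u) = -r0 := by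
    unfold m0
    rw [min_eq_right (by linarith), max_eq_left (by linarith)]
  rw [Real.arsinh_neg, Real.arsinh_sinh, hm, neg_div_neg_eq]
  have hcl : clamp (u / r0) = u / r0 := by
    unfold clamp
    rw [abs_le] at hu
    have e1 : u / r0 ≤ 1 := by rw [div_le_one hr]; exact hu.2
    have e2 : -1 ≤ u / r0 := by rw [le_div_iff₀ hr]; linarith [hu.1]
    rw [min_eq_right e1, max_eq_right e2]
  rw [hcl, s0]
  field_simp

lemma sinh_sq_lt (h5 : ThStmt) {u : ℝ} (hu : 2 * sinh u ^ 2 < 1) : |u| < r0 := by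
  obtain ⟨hr, hr1, hsr, -, -⟩ := h5.2.2.2.2.2
  have h2 : sinh r0 ^ 2 = 1 / 2 := by
    rw [hsr, div_pow, one_pow, Real.sq_sqrt (by norm_num)]
  have h3 : sinh u ^ 2 < sinh r0 ^ 2 := by linarith
  have h4 : |sinh u| < |sinh r0| := sq_lt_sq.1 h3
  rw [Real.abs_sinh, Real.abs_sinh, Real.sinh_lt_sinh, abs_of_pos hr] at h4
  exact h4

lemma le_sinh_sq (h5 : ThStmt) {u : ℝ} (hu : 1 ≤ 2 * sinh u ^ 2) : r0 ≤ |u| := by
  obtain ⟨hr, hr1, hsr, -, -⟩ := h5.2.2.2.2.2
  have h2 : sinh r0 ^ 2 = 1 / 2 := by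
    rw [hsr, div_pow, one_pow, Real.sq_sqrt (by norm_num)]
  have h3 : sinh r0 ^ 2 ≤ sinh u ^ 2 := by linarith
  have h4 : |sinh r0| ≤ |sinh u| := sq_le_sq.1 h3
  rw [Real.abs_sinh, Real.abs_sinh, Real.sinh_le_sinh, abs_of_pos hr] at h4
  exact h4

lemma circle_eq (z : ℝ) (k : ℤ) (hs : s0 ≠ 0) :
    ((1 / 2 + (z - k * s0) / s0 : ℝ) : AddCircle (1 : ℝ)) = ((z / s0 + 1 / 2 : ℝ) : AddCircle (1 : ℝ)) := by
  have e : (1 / 2 + (z - k * s0) / s0 : ℝ) = (z / s0 + 1 / 2) + ((-k : ℤ) : ℝ) * 1 := by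
    push_cast
    field_simp
    ring
  rw [e, AddCircle.coe_add]
  have : ((((-k : ℤ) : ℝ) * 1 : ℝ) : AddCircle (1 : ℝ)) = 0 := by
    rw [AddCircle.coe_eq_zero_iff]
    exact ⟨-k, by simp⟩
  rw [this, add_zero]

lemma Th_axis (h1 : Arith1Stmt) (h2 : FrameStmt) (h3 : PerpStmt) (h5 : ThStmt) (z : ℝ) :
    Th false (a z) = ((z / s0 + 1 / 2 : ℝ) : AddCircle (1 : ℝ)) := by
  have hr := h5.2.2.2.2.2.1
  have hs : s0 ≠ 0 := by
    unfold s0
    linarith
  have hDL : Dm ∈ Lines := (h1.2.2.2.2.2.1 true Dm Dm_can).1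
  by_cases hA : ∃ N ∈ Can false, 2 * tau (a z) N ^ 2 < 1
  · obtain ⟨N, hN, ht⟩ := hA
    rw [Th_one h1 h2 h5 false (a z) N hN ht]
    have hNL := (h1.2.2.2.2.2.1 false N hN).1
    obtain ⟨k, hk, hk3⟩ := h1.2.2.1 Dm Dm_can N hN
    have e1 := h2.2.1 (a z) Dm hDL N hNL
    rw [tau_a_Dm, nu_a_Dm, sg_a_Dm] at e1
    have e2 := h2.1 (a z) N hNL
    have e3 : (k : ℝ) ^ 2 < 2 := by
      rw [← hk, e1]
      nlinarith [sq_nonneg (nu (a z) N)]
    have e4 : k ^ 2 < 2 := by exact_mod_cast e3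
    have e5 : k = 0 := by
      have : -2 < k := by nlinarith
      have : k < 2 := by nlinarith
      omega
    have e6 : ip N Dm = 0 := by
      rw [ip, Matrix.trace_mul_comm, ← ip, hk, e5]
      simp
    obtain ⟨m, hm⟩ := h3.1 N hNL e6
    have hval : th (tau (a z) N) (nu (a z) N) =
        th (-sinh (z - m * s0)) (-cosh (z - m * s0)) := by
      rcases hm with hm | hm
      · rw [hm, tau_cj, nu_cj]
      · rw [hm, tau_neg, nu_neg, tau_cj, nu_cj]
        exact h5.2.2.2.1 _ _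
    have hts : 2 * sinh (z - m * s0) ^ 2 < 1 := by
      rcases hm with hm | hm
      · rw [hm, tau_cj, neg_sq] at ht
        exact ht
      · rw [hm, tau_neg, tau_cj, neg_neg] at ht
        exact ht
    rw [hval, th_val h5 (sinh_sq_lt h5 hts).le, circle_eq z m hs]
  · push Not at hA
    rw [Th_zero h5 false (a z) hA]
    set k : ℤ := round (z / s0) with hk
    have hspos : 0 < s0 := by
      unfold s0
      linarith
    have e1 : |z - k * s0| ≤ r0 := by
      have e2 : |z / s0 - k| ≤ 1 / 2 := abs_sub_round (z / s0)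
      have e3 : z - k * s0 = (z / s0 - k) * s0 := by
        field_simp
      rw [e3, abs_mul, abs_of_pos hspos]
      calc |z / s0 - k| * s0 ≤ 1 / 2 * s0 := by gcongr
        _ = r0 := by unfold s0; ring
    have hKL : cj (a (k * s0)) Km ∈ Lines := h3.2 k
    obtain ⟨κ, hκ⟩ := h1.2.2.2.2.1 _ hKL
    have hcD : cj (a (k * s0)) Dm = Dm := by
      have h0 : (cj (a (k * s0)) Dm) = (cj (a (k * s0)) Dm) := rfl
      unfold cj Dm nm
      rw [inv_entries, a00, a01, a10, a11]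
      ext i j
      fin_cases i <;> fin_cases j <;>
        simp [a, Matrix.mul_apply, Fin.sum_univ_two, ← Real.exp_add]
    have hip : ip Dm (cj (a (k * s0)) Km) = ip Dm Km := by
      rw [← hcD, ip_cj, hcD]
    have hcol : κ = false := by
      cases κ
      · rfl
      · exact absurd ((col_unique h1 (show Col true Dm from Or.inl Dm_can)
          (show Col true (cj (a (k * s0)) Km) from hκ) (show Col true Dm from Or.inl Dm_can)
          (show Col false Km from Or.inl Km_can) hip).1 rfl) (by decide)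
    subst hcol
    have hle : 1 ≤ 2 * sinh (z - k * s0) ^ 2 := by
      rcases hκ with h | h
      · have := hA _ h
        rwa [tau_cj, neg_sq] at this
      · have := hA _ h
        rwa [tau_neg, tau_cj, neg_neg] at this
    have e4 := le_sinh_sq h5 hle
    have e5 : |z - k * s0| = r0 := le_antisymm e1 e4
    rw [← circle_eq z k hs]
    rcases abs_eq hr.le |>.1 e5 with h | h
    · rw [h]
      have : (1 / 2 + r0 / s0 : ℝ) = 1 := by
        unfold s0
        field_simp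
        norm_num
      rw [this]
      symm
      rw [AddCircle.coe_eq_zero_iff]
      exact ⟨1, by simp⟩
    · rw [h]
      have : (1 / 2 + -r0 / s0 : ℝ) = 0 := by
        unfold s0
        field_simp
        norm_num
      rw [this]
      simp

end Theta

theorem theta (h1 : Arith1Stmt) (h2 : FrameStmt) (h3 : PerpStmt) (h4 : FinStmt) (h5 : ThStmt) :
    ThetaStmt :=
  ⟨Theta.Th_cont h1 h4 h5,
    fun _ _ hg x => Theta.Th_transfer h1 h2 h5 x (fun _ hN => Or.inl (Can_cj hg hN))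
      (fun _ hN => Or.inl (Can_cj (Gam.inv_mem hg) hN)),
    fun _ hg => Theta.Th_nz h1 h2 h5 hg,
    fun κ x N hN ht => Theta.Th_one h1 h2 h5 κ x N hN ht,
    fun κ x h => Theta.Th_zero h5 κ x h,
    Theta.Th_axis h1 h2 h3 h5⟩

end AdT
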