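import Pool.Agent.Helper88.AdT.Stmts

/-!
# AD-2: transitivity on lines, stabilisers, perpendicular lines
-/

open Matrix Real Topology Filter Set

noncomputable section

namespace AdT

namespace Trans

lemma sinh_r0 : sinh r0 = 1 / √2 := by rw [r0, sinh_arsinh]

lemma exp_s0 : exp s0 = 2 + √3 := by
  have h2 : √2 * √2 = (2 : ℝ) := Real.mul_self_sqrt (by norm_num)
  have h2' : (0 : ℝ) < √2 := Real.sqrt_pos.mpr (by norm_num)
  have h3 := sqrt3_mul
  have hs : sinh r0 * √2 = 1 := by rw [sinh_r0]; field_simp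
  have hcs : cosh r0 ^ 2 = 3 / 2 := by
    have h := cosh_sq r0
    rw [sinh_r0, div_pow, one_pow, Real.sq_sqrt (by norm_num : (0 : ℝ) ≤ 2)] at h
    rw [h]; norm_num
  have hc : cosh r0 * √2 = √3 := by
    have h1 : (cosh r0 * √2) ^ 2 = √3 ^ 2 := by
      rw [mul_pow, hcs, Real.sq_sqrt (by norm_num : (0 : ℝ) ≤ 2),
        Real.sq_sqrt (by norm_num : (0 : ℝ) ≤ 3)]
      norm_num
    have h4 : 0 ≤ cosh r0 * √2 := mul_nonneg (cosh_pos _).le h2'.le
    exact (pow_left_inj₀ h4 sqrt3_pos.le (by norm_num)).1 h1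
  have he : exp r0 * √2 = √3 + 1 := by
    rw [← cosh_add_sinh r0, add_mul, hc, hs]
  have he2 : exp s0 * 2 = (√3 + 1) * (√3 + 1) := by
    rw [s0, two_mul, exp_add, ← he]
    calc exp r0 * exp r0 * 2 = exp r0 * exp r0 * (√2 * √2) := by rw [h2]
      _ = _ := by ring
  linarith

lemma exp_neg_s0 : exp (-s0) = 2 - √3 := by
  rw [exp_neg, exp_s0]
  have h3 := sqrt3_mul
  have h4 := sqrt3_pos
  rw [inv_eq_one_div, div_eq_iff (by positivity)]
  linarith

lemma ext2 {A B : M2} (h00 : A 0 0 = B 0 0) (h01 : A 0 1 = B 0 1) (h10 : A 1 0 = B 1 0)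
    (h11 : A 1 1 = B 1 1) : A = B := by
  ext i j
  fin_cases i <;> fin_cases j
  · exact h00
  · exact h01
  · exact h10
  · exact h11

lemma a_add (s t : ℝ) : a (s + t) = a s * a t := by
  apply Subtype.ext
  rw [Matrix.SpecialLinearGroup.coe_mul]
  apply ext2
  · simp [a, Matrix.mul_apply, Fin.sum_univ_two, ← exp_add]; ring
  · simp [a, Matrix.mul_apply, Fin.sum_univ_two]
  · simp [a, Matrix.mul_apply, Fin.sum_univ_two]
  · simp [a, Matrix.mul_apply, Fin.sum_univ_two, ← exp_add]; ring

lemma a_zero : a 0 = 1 := by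
  apply Subtype.ext
  apply ext2 <;> simp [a]

lemma a_neg (t : ℝ) : a (-t) = (a t)⁻¹ := by
  rw [eq_inv_iff_mul_eq_one, ← a_add, neg_add_cancel, a_zero]

lemma a_zpow (t : ℝ) (k : ℤ) : a (k * t) = (a t) ^ k := by
  induction k using Int.induction_on with
  | zero => simp [a_zero]
  | succ k ih =>
    rw [_root_.zpow_add_one, ← ih, ← a_add]
    congr 1
    push_cast
    ring
  | pred k ih =>
    rw [_root_.zpow_sub_one, ← ih, ← a_neg, ← a_add]
    congr 1
    push_cast
    ring

lemma cj_a (t b d c : ℝ) : cj (a t) (nm b d c) =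
    !![b, exp t * (d + c * √3); exp (-t) * (d - c * √3), -b] := by
  have hinv : (↑((a t)⁻¹) : M2) = !![exp (-(t / 2)), 0; 0, exp (t / 2)] := by
    rw [inv_entries]
    simp [a]
  have e1 : exp (t / 2) * exp (-(t / 2)) = 1 := by rw [← exp_add]; simp
  have e2 : exp (t / 2) * exp (t / 2) = exp t := by rw [← exp_add]; congr 1; ring
  have e3 : exp (-(t / 2)) * exp (-(t / 2)) = exp (-t) := by rw [← exp_add]; congr 1; ring
  rw [cj, hinv]
  apply ext2
  · simp [a, nm, Matrix.mul_apply, Fin.sum_univ_two]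
    linear_combination b * e1
  · simp [a, nm, Matrix.mul_apply, Fin.sum_univ_two]
    linear_combination (d + c * √3) * e2
  · simp [a, nm, Matrix.mul_apply, Fin.sum_univ_two]
    linear_combination (d - c * √3) * e3
  · simp [a, nm, Matrix.mul_apply, Fin.sum_univ_two]
    linear_combination b * e1

/-- translation along `Dm` -/
lemma cj_P (b d c : ℝ) : cj (a s0) (nm b d c) = nm b (2 * d + 3 * c) (d + 2 * c) := by
  rw [cj_a, exp_s0, exp_neg_s0]
  have h3 := sqrt3_mul
  apply ext2
  · simp [nm]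
  · simp [nm]; linear_combination c * h3
  · simp [nm]; linear_combination c * h3
  · simp [nm]

lemma cj_Pinv (b d c : ℝ) : cj (a s0)⁻¹ (nm b d c) = nm b (2 * d - 3 * c) (2 * c - d) := by
  have h := cj_P b (2 * d - 3 * c) (2 * c - d)
  have e : nm b (2 * (2 * d - 3 * c) + 3 * (2 * c - d)) (2 * d - 3 * c + 2 * (2 * c - d)) =
      nm b d c := by congr 1 <;> ring
  rw [e] at h
  rw [← h, cj_inv_cj]

/-- the rotation by a right angle -/
def R : SL := ⟨!![1 / √2, 1 / √2; -(1 / √2), 1 / √2], by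
  have h2 : √2 * √2 = (2 : ℝ) := Real.mul_self_sqrt (by norm_num)
  have h2' : √2 ≠ 0 := (Real.sqrt_pos.mpr (by norm_num)).ne'
  rw [Matrix.det_fin_two_of]
  field_simp
  nlinarith⟩

lemma cj_R (b d c : ℝ) : cj R (nm b d c) = nm d (-b) c := by
  have h2' : √2 ≠ 0 := (Real.sqrt_pos.mpr (by norm_num)).ne'
  have hh : (1 / √2) * (1 / √2) = (1 / 2 : ℝ) := by
    have h2 : √2 * √2 = (2 : ℝ) := Real.mul_self_sqrt (by norm_num)
    rw [div_mul_div_comm, h2]; norm_num
  have hinv : (↑(R⁻¹) : M2) = !![1 / √2, -(1 / √2); 1 / √2, 1 / √2] := by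
    rw [inv_entries]
    simp [R]
  have hR : (R : M2) = !![1 / √2, 1 / √2; -(1 / √2), 1 / √2] := rfl
  generalize 1 / √2 = s at *
  rw [cj, hinv, hR]
  apply ext2
  · simp [nm, Matrix.mul_apply, Fin.sum_univ_two]
    linear_combination (2 * d) * hh
  · simp [nm, Matrix.mul_apply, Fin.sum_univ_two]
    linear_combination (-2 * b + 2 * c * √3) * hh
  · simp [nm, Matrix.mul_apply, Fin.sum_univ_two]
    linear_combination (-2 * b - 2 * c * √3) * hh
  · simp [nm, Matrix.mul_apply, Fin.sum_univ_two]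
    linear_combination (-2 * d) * hh

lemma cj_Rinv (b d c : ℝ) : cj R⁻¹ (nm b d c) = nm (-d) b c := by
  have h := cj_R (-d) b c
  rw [neg_neg] at h
  rw [← h, cj_inv_cj]

/-- the group of isometries permuting the lines -/
def NzG : Subgroup SL where
  carrier := Nz
  mul_mem' := by
    intro g h hg hh N hN
    refine ⟨?_, ?_⟩
    · rw [cj_mul]; exact (hg _ (hh N hN).1).1
    · rw [_root_.mul_inv_rev, cj_mul]; exact (hh _ (hg N hN).2).2
  one_mem' := by
    intro N hN
    rw [inv_one, cj_one]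
    exact ⟨hN, hN⟩
  inv_mem' := by
    intro g hg N hN
    rw [inv_inv]
    exact ⟨(hg N hN).2, (hg N hN).1⟩

lemma mem_NzG {g : SL} : g ∈ NzG ↔ g ∈ Nz := Iff.rfl

lemma P_mem : a s0 ∈ NzG := by
  rw [mem_NzG]
  rintro N ⟨b, d, c, hQ, rfl⟩
  refine ⟨⟨b, 2 * d + 3 * c, d + 2 * c, by linear_combination hQ, ?_⟩,
    ⟨b, 2 * d - 3 * c, 2 * c - d, by linear_combination hQ, ?_⟩⟩
  · rw [cj_P]; push_cast; rfl
  · rw [cj_Pinv]; push_cast; rfl

lemma R_mem : R ∈ NzG := by
  rw [mem_NzG]
  rintro N ⟨b, d, c, hQ, rfl⟩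
  refine ⟨⟨d, -b, c, by linear_combination hQ, ?_⟩, ⟨-d, b, c, by linear_combination hQ, ?_⟩⟩
  · rw [cj_R]; push_cast; rfl
  · rw [cj_Rinv]; push_cast; rfl

/-- equivalence of lines -/
def Rel (N N' : M2) : Prop := ∃ g ∈ NzG, cj g N = N'

lemma Rel.symm {N N' : M2} (h : Rel N N') : Rel N' N := by
  obtain ⟨g, hg, rfl⟩ := h
  exact ⟨g⁻¹, NzG.inv_mem hg, cj_inv_cj g N⟩

lemma Rel.trans {N N' N'' : M2} (h : Rel N N') (h' : Rel N' N'') : Rel N N'' := by
  obtain ⟨g, hg, rfl⟩ := h
  obtain ⟨g', hg', rfl⟩ := h'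
  exact ⟨g' * g, NzG.mul_mem hg' hg, cj_mul g' g N⟩

lemma rel_P (b d c : ℝ) : Rel (nm b d c) (nm b (2 * d + 3 * c) (d + 2 * c)) :=
  ⟨_, P_mem, cj_P b d c⟩

lemma rel_Pinv (b d c : ℝ) : Rel (nm b d c) (nm b (2 * d - 3 * c) (2 * c - d)) :=
  ⟨_, NzG.inv_mem P_mem, cj_Pinv b d c⟩

lemma rel_R (b d c : ℝ) : Rel (nm b d c) (nm d (-b) c) := ⟨_, R_mem, cj_R b d c⟩

/-- one step of the descent -/
lemma step {d c : ℤ} (h1 : |c| < |d|) (h2 : |d| < 3 * |c|) :
    |d + 2 * c| < |c| ∨ |2 * c - d| < |c| := by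
  rcases abs_cases c with ⟨hc, hc'⟩ | ⟨hc, hc'⟩ <;> rcases abs_cases d with ⟨hd, hd'⟩ | ⟨hd, hd'⟩ <;>
    rw [hc, hd] at h1 h2 <;> rw [hc]
  · right; rw [abs_lt]; constructor <;> linarith
  · left; rw [abs_lt]; constructor <;> linarith
  · left; rw [abs_lt]; constructor <;> linarith
  · right; rw [abs_lt]; constructor <;> linarith

lemma trans_aux (n : ℕ) : ∀ b d c : ℤ, |c| = n → b ^ 2 + d ^ 2 - 3 * c ^ 2 = 1 →
    Rel (nm b d c) Dm := by
  induction n using Nat.strong_induction_on with
  | _ n ih =>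
    intro b d c hc hQ
    -- descent when |d| is large
    have key : ∀ b d : ℤ, b ^ 2 + d ^ 2 - 3 * c ^ 2 = 1 → c ≠ 0 → |b| ≤ |d| →
        Rel (nm b d c) Dm := by
      intro b d hQ hc0 hbd
      have hc1 : 1 ≤ c ^ 2 := by
        have : 0 < c ^ 2 := by positivity
        omega
      have hb2 : b ^ 2 ≤ d ^ 2 := sq_le_sq.2 hbd
      have h1 : |c| < |d| := by
        apply sq_lt_sq.1
        nlinarith
      have h2 : |d| < 3 * |c| := by
        have : |d| < |3 * c| := by
          apply sq_lt_sq.1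
          nlinarith [sq_nonneg b]
        rwa [abs_mul] at this
      rcases step h1 h2 with h | h
      · refine (rel_P b d c).trans ?_
        have := ih (|d + 2 * c|).natAbs (by
          have : ((|d + 2 * c|).natAbs : ℤ) < n := by
            rw [← hc, Int.natCast_natAbs, abs_abs]; exact h
          exact_mod_cast this) b (2 * d + 3 * c) (d + 2 * c)
          (by rw [Int.natCast_natAbs, abs_abs]) (by linear_combination hQ)
        push_cast at this
        exact this
      · refine (rel_Pinv b d c).trans ?_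
        have := ih (|2 * c - d|).natAbs (by
          have : ((|2 * c - d|).natAbs : ℤ) < n := by
            rw [← hc, Int.natCast_natAbs, abs_abs]; exact h
          exact_mod_cast this) b (2 * d - 3 * c) (2 * c - d)
          (by rw [Int.natCast_natAbs, abs_abs]) (by linear_combination hQ)
        push_cast at this
        exact this
    by_cases hc0 : c = 0
    · subst hc0
      have hQ' : b ^ 2 + d ^ 2 = 1 := by linarith
      have hb : -1 ≤ b ∧ b ≤ 1 := by constructor <;> nlinarith [sq_nonneg d]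
      have hd : -1 ≤ d ∧ d ≤ 1 := by constructor <;> nlinarith [sq_nonneg b]
      have r1 : Rel (nm 1 0 0) Dm := ⟨1, NzG.one_mem, cj_one _⟩
      have r2 : Rel (nm 0 1 0) Dm := by
        have := rel_R 0 1 0
        rw [neg_zero] at this
        exact this.trans r1
      have r3 : Rel (nm (-1) 0 0) Dm := by
        have := rel_R (-1) 0 0
        rw [neg_neg] at this
        exact this.trans r2
      have r4 : Rel (nm 0 (-1) 0) Dm := by
        have := rel_R 0 (-1) 0
        rw [neg_zero] at this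
        exact this.trans r3
      obtain ⟨hb1, hb2⟩ := hb
      obtain ⟨hd1, hd2⟩ := hd
      have hbc : b = -1 ∨ b = 0 ∨ b = 1 := by omega
      have hdc : d = -1 ∨ d = 0 ∨ d = 1 := by omega
      rcases hbc with rfl | rfl | rfl <;> rcases hdc with rfl | rfl | rfl <;>
        first
        | (exfalso; norm_num at hQ'; done)
        | (push_cast; first | exact r1 | exact r2 | exact r3 | exact r4)
    · rcases le_total |b| |d| with h | h
      · exact key b d hQ hc0 h
      · refine (rel_R b d c).trans ?_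
        have := key d (-b) (by linear_combination hQ) hc0 (by rwa [abs_neg])
        push_cast at this
        exact this

/-- Pell's equation `d² - 3c² = 1` -/
lemma pell_aux (n : ℕ) : ∀ d c : ℤ, |c| = n → d ^ 2 - 3 * c ^ 2 = 1 →
    ∃ k : ℤ, ∃ s : ℝ, (s = 1 ∨ s = -1) ∧ (d : ℝ) + c * √3 = s * exp (k * s0) ∧
      (d : ℝ) - c * √3 = s * exp (-(k * s0)) := by
  induction n using Nat.strong_induction_on with
  | _ n ih =>
    intro d c hc hQ
    by_cases hc0 : c = 0
    · subst hc0
      have hQ' : (d - 1) * (d + 1) = 0 := by linear_combination hQ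
      rcases mul_eq_zero.1 hQ' with h | h
      · have : d = 1 := by omega
        subst this
        exact ⟨0, 1, Or.inl rfl, by simp, by simp⟩
      · have : d = -1 := by omega
        subst this
        exact ⟨0, -1, Or.inr rfl, by simp, by simp⟩
    · have hc1 : 1 ≤ c ^ 2 := by
        have : 0 < c ^ 2 := by positivity
        omega
      have h1 : |c| < |d| := by
        apply sq_lt_sq.1
        nlinarith
      have h2 : |d| < 3 * |c| := by
        have : |d| < |3 * c| := by
          apply sq_lt_sq.1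
          nlinarith
        rwa [abs_mul] at this
      have h3 := sqrt3_mul
      rcases step h1 h2 with h | h
      · obtain ⟨k, s, hs, e1, e2⟩ := ih (|d + 2 * c|).natAbs (by
          have : ((|d + 2 * c|).natAbs : ℤ) < n := by
            rw [← hc, Int.natCast_natAbs, abs_abs]; exact h
          exact_mod_cast this) (2 * d + 3 * c) (d + 2 * c)
          (by rw [Int.natCast_natAbs, abs_abs]) (by linear_combination hQ)
        refine ⟨k - 1, s, hs, ?_, ?_⟩
        · have e : exp (((k - 1 : ℤ) : ℝ) * s0) = exp (k * s0) * exp (-s0) := by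
            rw [← exp_add]; congr 1; push_cast; ring
          rw [e, ← mul_assoc, ← e1, exp_neg_s0]
          push_cast
          linear_combination ((d : ℝ) + 2 * c) * h3
        · have e : exp (-(((k - 1 : ℤ) : ℝ) * s0)) = exp (-(k * s0)) * exp s0 := by
            rw [← exp_add]; congr 1; push_cast; ring
          rw [e, ← mul_assoc, ← e2, exp_s0]
          push_cast
          linear_combination ((d : ℝ) + 2 * c) * h3
      · obtain ⟨k, s, hs, e1, e2⟩ := ih (|2 * c - d|).natAbs (by
          have : ((|2 * c - d|).natAbs : ℤ) < n := by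
            rw [← hc, Int.natCast_natAbs, abs_abs]; exact h
          exact_mod_cast this) (2 * d - 3 * c) (2 * c - d)
          (by rw [Int.natCast_natAbs, abs_abs]) (by linear_combination hQ)
        refine ⟨k + 1, s, hs, ?_, ?_⟩
        · have e : exp (((k + 1 : ℤ) : ℝ) * s0) = exp (k * s0) * exp s0 := by
            rw [← exp_add]; congr 1; push_cast; ring
          rw [e, ← mul_assoc, ← e1, exp_s0]
          push_cast
          linear_combination (-(2 : ℝ) * c + d) * h3
        · have e : exp (-(((k + 1 : ℤ) : ℝ) * s0)) = exp (-(k * s0)) * exp (-s0) := by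
            rw [← exp_add]; congr 1; push_cast; ring
          rw [e, ← mul_assoc, ← e2, exp_neg_s0]
          push_cast
          linear_combination (-(2 : ℝ) * c + d) * h3

lemma pell (d c : ℤ) (hQ : d ^ 2 - 3 * c ^ 2 = 1) :
    ∃ k : ℤ, ∃ s : ℝ, (s = 1 ∨ s = -1) ∧ (d : ℝ) + c * √3 = s * exp (k * s0) ∧
      (d : ℝ) - c * √3 = s * exp (-(k * s0)) :=
  pell_aux (|c|).natAbs d c (by rw [Int.natCast_natAbs, abs_abs]) hQ

lemma a_k_mem (k : ℤ) : a (k * s0) ∈ NzG := by
  rw [a_zpow]
  exact NzG.zpow_mem P_mem k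

lemma a_two (t : ℝ) : (a (2 * t) : M2) = !![exp t, 0; 0, exp (-t)] := by
  apply ext2 <;> simp [a]

end Trans

open AdT.Trans

theorem trans : TransStmt := by
  rintro N ⟨b, d, c, hQ, rfl⟩
  exact (trans_aux (|c|).natAbs b d c (by rw [Int.natCast_natAbs, abs_abs]) hQ).symm

theorem perp : PerpStmt := by
  have hKm : ∀ k : ℤ, cj (a (k * s0)) Km = !![0, exp (k * s0); exp (-(k * s0)), 0] := by
    intro k
    rw [Km, cj_a]
    apply ext2 <;> simp
  constructor
  · rintro N ⟨b, d, c, hQ, rfl⟩ hip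
    have hb : (b : ℝ) = 0 := by
      rw [ip, Dm] at hip
      have : (nm b d c * nm 1 0 0).trace = 2 * b := by
        rw [Matrix.trace_fin_two]
        simp [nm, Matrix.mul_apply, Fin.sum_univ_two]
        ring
      rw [this] at hip
      linarith
    have hb' : b = 0 := by exact_mod_cast hb
    subst hb'
    obtain ⟨k, s, hs, e1, e2⟩ := pell d c (by linear_combination hQ)
    refine ⟨k, ?_⟩
    rcases hs with rfl | rfl
    · left
      rw [hKm]
      apply ext2
      · simp [nm]
      · simp [nm]; linarith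
      · simp [nm]; linarith
      · simp [nm]
    · right
      rw [hKm]
      apply ext2
      · simp [nm]
      · simp [nm]; linarith
      · simp [nm]; linarith
      · simp [nm]
  · intro k
    exact (a_k_mem k Km ⟨0, 1, 0, by norm_num, by simp [Km]⟩).1

theorem stab : StabStmt := by
  refine ⟨?_, ?_, ?_, fun g hg h hh => NzG.mul_mem hg hh, fun g hg => NzG.inv_mem hg, ?_⟩
  · intro g hg
    obtain ⟨b, d, c, hQ, hN⟩ := (hg Dm ⟨1, 0, 0, by norm_num, by simp [Dm]⟩).1
    refine ⟨2, b, c, d, ?_⟩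
    have h1 : (a (2 * s0) : M2) = (2 : ℝ) • 1 + √3 • Dm := by
      rw [a_two, exp_s0, exp_neg_s0]
      apply ext2 <;> simp [Dm, nm]
      ring
    rw [Matrix.SpecialLinearGroup.coe_mul, Matrix.SpecialLinearGroup.coe_mul, h1, mul_add, add_mul,
      mul_smul_comm, smul_mul_assoc, mul_one, SL_mul_inv, mul_smul_comm, smul_mul_assoc]
    have h2 : (g : M2) * Dm * (↑(g⁻¹) : M2) = nm b d c := hN
    rw [h2, sqrt3_nm]
    apply ext2
    · simp [gm]
    · simp [gm]
    · simp [gm]
    · simp [gm]; ring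
  · intro g hg γ hγ hcomm
    obtain ⟨a', b', c', d', hγ'⟩ := hγ
    obtain ⟨b, d, c, hQ, hN⟩ := (hg Dm ⟨1, 0, 0, by norm_num, by simp [Dm]⟩).1
    have hQr : (b : ℝ) ^ 2 + d ^ 2 - 3 * c ^ 2 = 1 := by exact_mod_cast hQ
    have h3 := sqrt3_mul
    -- commutation
    have hcm : (γ : M2) * nm b d c = nm b d c * (γ : M2) := by
      rw [hN] at hcomm
      have h1 : cj γ (nm b d c) * (γ : M2) = nm b d c * (γ : M2) := by rw [hcomm]
      rw [cj, Matrix.mul_assoc, SL_inv_mul, Matrix.mul_one] at h1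
      exact h1
    rw [hγ'] at hcm
    have k00 := congrFun (congrFun hcm 0) 0
    have k01 := congrFun (congrFun hcm 0) 1
    have k10 := congrFun (congrFun hcm 1) 0
    simp [gm, nm, Matrix.mul_apply, Fin.sum_univ_two] at k00 k01 k10
    -- cross products vanish
    have x1 : (c' : ℝ) * d = d' * c := by
      linear_combination (1 / 6) * k00 + ((c : ℝ) * d' / 3) * h3
    have x2 : (b' : ℝ) * d = d' * b := by
      have h4 : √3 * ((b' : ℝ) * d) = √3 * (d' * b) := by
        linear_combination (1 / 4) * k01 - (1 / 4) * k10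
      exact mul_left_cancel₀ sqrt3_pos.ne' h4
    have x3 : (b' : ℝ) * c = c' * b := by
      linear_combination (1 / 12) * k01 + (1 / 12) * k10 - ((b' : ℝ) * c / 3) * h3
    set t : ℤ := b * b' + d * d' - 3 * c * c' with ht
    have htr : (t : ℝ) = b * b' + d * d' - 3 * c * c' := by rw [ht]; push_cast; ring
    have eb : (b' : ℝ) = t * b := by rw [htr]; linear_combination (-(b' : ℝ)) * hQr + d * x2 - 3 * c * x3
    have ed : (d' : ℝ) = t * d := by
      rw [htr]; linear_combination (-(d' : ℝ)) * hQr - b * x2 + 3 * c * x1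
    have ec : (c' : ℝ) = t * c := by
      rw [htr]; linear_combination (-(c' : ℝ)) * hQr - b * x3 + d * x1
    have hγN : (γ : M2) = (a' : ℝ) • 1 + ((t : ℝ) * √3) • nm b d c := by
      rw [hγ', eb, ec, ed]
      apply ext2
      · simp [gm, nm]; ring
      · simp [gm, nm]; linear_combination (-(t : ℝ) * c) * h3
      · simp [gm, nm]; linear_combination ((t : ℝ) * c) * h3
      · simp [gm, nm]; ring
    have hpell : a' ^ 2 - 3 * t ^ 2 = 1 := by
      have hE := Gam_eqn hγ'
      have : ((a' ^ 2 - 3 * t ^ 2 : ℤ) : ℝ) = 1 := by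
        have hE' : (a' : ℝ) ^ 2 - 3 * b' ^ 2 + 9 * c' ^ 2 - 3 * d' ^ 2 = 1 := by exact_mod_cast hE
        push_cast
        rw [eb, ec, ed] at hE'
        linear_combination hE' + (3 * (t : ℝ) ^ 2) * hQr
      exact_mod_cast this
    obtain ⟨k, s, hs, e1, e2⟩ := pell a' t hpell
    refine ⟨k, ?_⟩
    have hD : (γ : M2) = s • ((g * a (2 * s0 * k) * g⁻¹ : SL) : M2) := by
      have h1 : (a (2 * s0 * k) : M2) = !![exp (k * s0), 0; 0, exp (-(k * s0))] := by
        rw [← a_two]
        congr 2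
        ring
      have h2 : s • (a (2 * s0 * k) : M2) = (a' : ℝ) • 1 + ((t : ℝ) * √3) • Dm := by
        rw [h1]
        apply ext2
        · simp [Dm, nm]; linarith
        · simp [Dm, nm]
        · simp [Dm, nm]
        · simp [Dm, nm]; linarith
      rw [Matrix.SpecialLinearGroup.coe_mul, Matrix.SpecialLinearGroup.coe_mul, ← smul_mul_assoc,
        ← mul_smul_comm, h2, mul_add, add_mul, mul_smul_comm, smul_mul_assoc, mul_one, SL_mul_inv,
        mul_smul_comm, smul_mul_assoc]
      have h4 : (g : M2) * Dm * (↑(g⁻¹) : M2) = nm b d c := hN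
      rw [h4, hγN]
    rcases hs with rfl | rfl
    · left; rw [hD, one_smul]
    · right; rw [hD, neg_one_smul]
  · intro g hg N hN
    exact ⟨Lines_cj hg hN, Lines_cj (Gam.inv_mem hg) hN⟩
  · rintro g ⟨a', b', c', d', hg⟩
    refine ⟨⟨-(g : M2), by rw [Matrix.det_neg, g.2]; simp⟩, ⟨-a', -b', -c', -d', ?_⟩, rfl⟩
    show -(g : M2) = _
    rw [hg]
    apply ext2
    · simp [gm]; ring
    · simp [gm]; ring
    · simp [gm]; ring
    · simp [gm]; ring

end AdT
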