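import Pool.Agent.Helper88.AdT.Arith1
import Pool.Agent.Helper88.AdT.Trans
import Pool.Agent.Helper88.AdT.Fin
import Pool.Agent.Helper88.AdT.ThFun
import Pool.Agent.Helper88.AdT.Wind
import Pool.Agent.Helper88.AdT.Theta
import Pool.Agent.Helper88.AdT.Mono
import Pool.Agent.Helper88.AdT.Fibre
import Pool.Agent.Helper88.AdT.Local
import Pool.Agent.Helper88.AdT.QuotA
import Pool.Agent.Helper88.AdT.QuotB
import Pool.Agent.Helper88.AdT.TubeA
import Pool.Agent.Helper88.AdT.TubeB
import Pool.Agent.Helper88.AdT.TubeC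
import Pool.Agent.Helper88.AdT.Fill
import Pool.Agent.Helper88.AdT.Isom
import Pool.Agent.Helper88.AdT.Struct
import Pool.Agent.Helper88.AdT.Cont
import Pool.Agent.Helper88.AdT.NonIso
import Pool.Agent.Helper88.AdT.FN
import Pool.Agent.Helper88.AdT.Tach2
import Pool.Agent.Helper88.AdT.TachCoord
import Pool.Agent.Helper88.AdT.CylSys
import Pool.Agent.Helper88.AdT.FreeG
import Pool.Agent.Helper88.AdT.MuRetr
import Pool.Agent.Helper88.AdT.P4
import Pool.Agent.Helper88.AdT.P5
import Pool.Agent.Helper88.AdT.Mpt
import Pool.Agent.Helper88.AdT.Dyn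
import Pool.Agent.Helper88.AdT.Lift
import Pool.Agent.Helper88.AdT.AtoroM
import Pool.Agent.Helper88.AdT.AtoroN
import Pool.Agent.Helper88.AdT.Assemble

/-!
Composition of all modules of the project AdT: a closed anti-de Sitter 3-manifold with tachyons
along a link, with atoroidal complement, which is flexible relative to the tachyon masses.
-/

open Matrix Real Topology Filter Set

namespace AdT

theorem final_of_gos (gos : GosStmt) : FinalStmt := by
  have hAr := arith1
  have hFr := frame
  have hTr := trans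
  have hPe := perp
  have hSt := stab
  have hFin := fin hFr
  have hCo := cocomp
  have hTh := thFun
  have hWi := wind hTh
  have hTt := theta hAr hFr hPe hFin hTh
  have hMo := mono hAr hFr hFin hTh hTt
  have hMf := monoFibre
  have hLo := localDev (AdT.QuotA.isOpen_E hFin) hTt hMo hMf
  have hQA := quotA hFr hFin
  have hQB := quotB hFr hFin
  have hTA := tubeA hAr hFr hSt
  have hTB := tubeB hTA hQA hSt
  have hTC := tubeC hFr hFin hCo hTr hTA hQA
  have hFl := fill
  have hIs := isom
  have hFN := fnStmt hTA hTB hTC hQA hQB hFl hTh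
  have hSr := struct hFN hLo hQA hIs hTt
  have hCt := contFam hFN hLo hQA
  have hT2 := tach2 hFN hTA hWi hTt hTh hSt hQA hAr hIs
  have hTc := tachCoord hIs
  have hNi := nonIso hFN hSr hT2 hTc
  have hCy := cyl gos
  have hC2 := cyl2 gos
  have hCS := cylS gos
  have hMu := muStmt
  have hRe := retr
  have h4a := p4a hCy fg1 hRe
  have h4b := p4b hCS fg2 hMu hRe
  have h4c := p4c hCS hMu
  have h5a := p5a hC2 fg4
  have h5b := p5b hC2 fg4
  have h5c := p5c hC2 fg3
  have hMP := mpt hMu hRe h4c h5a h5b h5c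
  have hLi := lift hFr
  have hAM := atoroM hQA hFr hFin hTr hSt hTA hMu h4a h4b h4c hMP dynA (dynB hFr) (dynC hFin) hLi
  have hAN := atoroN hAM hFN hTr hTA hLi
  exact final_of hFN (existsGi hTr) hTh hSr hCt hT2 hNi hAN

end AdT
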