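import Pool.Agent.Helper88.AdT.Pi1
import Pool.Agent.Helper88.AdT.Stmts2

/-!
Fundamental groupoid of a space glued from simply connected pieces along simply connected
collars: a covering space gives the crossing word, and the classes of paths are determined by it.
-/

open Matrix Real Topology Filter Set

noncomputable section

namespace AdT

namespace Gos

/-- the data of the theorem -/
structure GD (Y A : Type) [TopologicalSpace Y] where
  U0 : Set Y
  U : A → Set Y
  V : A → Set Y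
  W : A → Set Y
  hU0 : IsOpen U0
  hU : ∀ α, IsOpen (U α)
  hV : ∀ α, IsOpen (V α)
  hW : ∀ α, IsOpen (W α)
  cov : ∀ y, y ∈ U0 ∨ ∃ α, y ∈ U α
  dis : ∀ α β, α ≠ β → Disjoint (U α) (U β)
  hUU : ∀ α, U α ∩ U0 = V α ∪ W α
  hVW : ∀ α, Disjoint (V α) (W α)
  pV : ∀ α, IsPathConnected (V α)
  pW : ∀ α, IsPathConnected (W α)
  s0 : SimplyConnectedSpace U0
  sU : ∀ α, SimplyConnectedSpace (U α)

local instance instTopFG {A : Type} : TopologicalSpace (FreeGroup A) := ⊥
local instance instDiscFG {A : Type} : DiscreteTopology (FreeGroup A) := ⟨rfl⟩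

namespace GD

variable {Y A : Type} [TopologicalSpace Y] (D : GD Y A)

def bs : Option A → Set Y
  | none => D.U0
  | some α => D.U α

def s : Option A → Y → FreeGroup A
  | none, _ => 1
  | some α, y => sig D.W α y

lemma isOpen_bs (i : Option A) : IsOpen (D.bs i) := by
  cases i with
  | none => exact D.hU0
  | some α => exact D.hU α

lemma W_sub0 {α : A} {y : Y} (h : y ∈ D.W α) : y ∈ D.U0 := by
  have : y ∈ D.U α ∩ D.U0 := by rw [D.hUU]; exact Or.inr h
  exact this.2

lemma W_subU {α : A} {y : Y} (h : y ∈ D.W α) : y ∈ D.U α := by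
  have : y ∈ D.U α ∩ D.U0 := by rw [D.hUU]; exact Or.inr h
  exact this.1

lemma V_sub0 {α : A} {y : Y} (h : y ∈ D.V α) : y ∈ D.U0 := by
  have : y ∈ D.U α ∩ D.U0 := by rw [D.hUU]; exact Or.inl h
  exact this.2

lemma V_subU {α : A} {y : Y} (h : y ∈ D.V α) : y ∈ D.U α := by
  have : y ∈ D.U α ∩ D.U0 := by rw [D.hUU]; exact Or.inl h
  exact this.1

lemma sig_W {α : A} {y : Y} (h : y ∈ D.W α) : sig D.W α y = FreeGroup.of α := by
  rw [sig, if_pos h]

lemma sig_nW {α : A} {y : Y} (h : y ∉ D.W α) : sig D.W α y = 1 := by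
  rw [sig, if_neg h]

lemma V_nW {α : A} {y : Y} (h : y ∈ D.V α) : y ∉ D.W α :=
  fun h' => Set.disjoint_left.mp (D.hVW α) h h'

open Classical in
def idx (y : Y) : Option A :=
  if h : y ∈ D.U0 then none else some ((D.cov y).resolve_left h).choose

lemma idx_mem (y : Y) : y ∈ D.bs (D.idx y) := by
  unfold idx
  split_ifs with h
  · exact h
  · exact ((D.cov y).resolve_left h).choose_spec

lemma s_idx (y : Y) : D.s (D.idx y) y = 1 := by
  unfold idx
  split_ifs with h
  · rfl
  · exact D.sig_nW fun h' => h (D.W_sub0 h')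

lemma sig_loc {α : A} {y : Y} (h : y ∈ D.U α) (h' : y ∈ D.U0) :
    ∀ᶠ z in 𝓝 y, sig D.W α z = sig D.W α y := by
  have h1 : y ∈ D.V α ∪ D.W α := by rw [← D.hUU]; exact ⟨h, h'⟩
  rcases h1 with h1 | h1
  · filter_upwards [(D.hV α).mem_nhds h1] with z hz
    rw [D.sig_nW (D.V_nW hz), D.sig_nW (D.V_nW h1)]
  · filter_upwards [(D.hW α).mem_nhds h1] with z hz
    rw [D.sig_W hz, D.sig_W h1]

lemma s_loc (i j : Option A) {y : Y} (hi : y ∈ D.bs i) (hj : y ∈ D.bs j) :
    ∀ᶠ z in 𝓝 y, D.s i z * (D.s j z)⁻¹ = D.s i y * (D.s j y)⁻¹ := by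
  cases i with
  | none =>
    cases j with
    | none => exact Eventually.of_forall fun z => rfl
    | some β =>
      filter_upwards [D.sig_loc hj hi] with z hz
      simp only [s, hz]
  | some α =>
    cases j with
    | none =>
      filter_upwards [D.sig_loc hi hj] with z hz
      simp only [s, hz]
    | some β =>
      have hab : α = β := by
        by_contra hne
        exact Set.disjoint_left.mp (D.dis α β hne) hi hj
      subst hab
      exact Eventually.of_forall fun z => by simp only [mul_inv_cancel]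

def core : FiberBundleCore (Option A) Y (FreeGroup A) where
  baseSet := D.bs
  isOpen_baseSet := D.isOpen_bs
  indexAt := D.idx
  mem_baseSet_at := D.idx_mem
  coordChange i j y v := v * (D.s i y * (D.s j y)⁻¹)
  coordChange_self i x _ v := by simp only [mul_inv_cancel, mul_one]
  continuousOn_coordChange i j := by
    rintro ⟨y, v⟩ ⟨⟨hi, hj⟩, -⟩
    have h1 : ContinuousAt (fun p : Y × FreeGroup A =>
        p.2 * (D.s i y * (D.s j y)⁻¹)) (y, v) := by
      have h2 : Continuous (fun u : FreeGroup A => u * (D.s i y * (D.s j y)⁻¹)) :=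
        continuous_of_discreteTopology
      exact (h2.comp continuous_snd).continuousAt
    refine (h1.congr ?_).continuousWithinAt
    have h3 : ∀ᶠ p : Y × FreeGroup A in 𝓝 (y, v),
        D.s i p.1 * (D.s j p.1)⁻¹ = D.s i y * (D.s j y)⁻¹ :=
      continuousAt_fst.eventually (D.s_loc i j hi hj)
    filter_upwards [h3] with p hp
    rw [hp]
  coordChange_comp i j k x _ v := by group

abbrev TS : Type := D.core.TotalSpace

def val (e : D.TS) : FreeGroup A := e.2

def pt (y : Y) (g : FreeGroup A) : D.TS := ⟨y, g⟩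

lemma val_pt (y : Y) (g : FreeGroup A) : D.val (D.pt y g) = g := rfl

lemma isCov : IsCoveringMap (fun e : D.TS => e.1) :=
  FiberBundle.isCoveringMap (F := FreeGroup A) (E := D.core.Fiber)

/-- local constancy of the coordinate along a path in the total space -/
lemma lc {T : Type} [TopologicalSpace T] {Γ : T → D.TS} (hΓ : Continuous Γ) {i : Option A} {t : T}
    (h : (Γ t).1 ∈ D.bs i) :
    ∀ᶠ s in 𝓝 t, D.val (Γ s) * (D.s i (Γ s).1)⁻¹ = D.val (Γ t) * (D.s i (Γ t).1)⁻¹ := by
  have h1 : ContinuousAt (fun e : D.TS => (D.core.localTriv i e).2) (Γ t) :=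
    continuousAt_snd.comp ((D.core.localTriv i).continuousAt h)
  have h2 : ContinuousAt (fun s => (D.core.localTriv i (Γ s)).2) t :=
    h1.comp hΓ.continuousAt
  have h3 : ∀ e : D.TS, (D.core.localTriv i e).2 = D.val e * (D.s i e.1)⁻¹ := by
    intro e
    have h4 : (D.core.localTriv i e).2 =
        D.val e * (D.s (D.idx e.1) e.1 * (D.s i e.1)⁻¹) := rfl
    rw [h4, D.s_idx, one_mul]
  have h5 := h2.eventually (isOpen_discrete {(D.core.localTriv i (Γ t)).2} |>.mem_nhds rfl)
  filter_upwards [h5] with s hs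
  have hs' : (D.core.localTriv i (Γ s)).2 = (D.core.localTriv i (Γ t)).2 := hs
  rw [h3, h3] at hs'
  exact hs'

/-- a lift of a path -/
def Lift {x y : Y} (γ : Path x y) (Γ : unitInterval → D.TS) : Prop :=
  Continuous Γ ∧ ∀ t, (Γ t).1 = γ t

lemma lift_const {x y : Y} {γ : Path x y} {Γ Γ' : unitInterval → D.TS} (h : D.Lift γ Γ)
    (h' : D.Lift γ Γ') (t : unitInterval) :
    D.val (Γ t) * (D.val (Γ' t))⁻¹ = D.val (Γ 0) * (D.val (Γ' 0))⁻¹ := by
  have hl : IsLocallyConstant (fun t => D.val (Γ t) * (D.val (Γ' t))⁻¹) := by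
    rw [IsLocallyConstant.iff_eventually_eq]
    intro t
    have h1 : (Γ t).1 ∈ D.bs (D.idx (γ t)) := by rw [h.2]; exact D.idx_mem _
    have h2 : (Γ' t).1 ∈ D.bs (D.idx (γ t)) := by rw [h'.2]; exact D.idx_mem _
    filter_upwards [D.lc h.1 h1, D.lc h'.1 h2] with s hs hs'
    rw [h.2, h.2] at hs
    rw [h'.2, h'.2] at hs'
    calc D.val (Γ s) * (D.val (Γ' s))⁻¹
        = (D.val (Γ s) * (D.s (D.idx (γ t)) (γ s))⁻¹) *
          (D.val (Γ' s) * (D.s (D.idx (γ t)) (γ s))⁻¹)⁻¹ := by group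
      _ = (D.val (Γ t) * (D.s (D.idx (γ t)) (γ t))⁻¹) *
          (D.val (Γ' t) * (D.s (D.idx (γ t)) (γ t))⁻¹)⁻¹ := by rw [hs, hs']
      _ = _ := by group
  exact hl.apply_eq_of_preconnectedSpace t 0

lemma exists_lift {x y : Y} (γ : Path x y) (g : FreeGroup A) :
    ∃ Γ : unitInterval → D.TS, D.Lift γ Γ ∧ D.val (Γ 0) = g := by
  obtain ⟨Γ, h1, h2⟩ := D.isCov.exists_path_lifts γ (D.pt x g) γ.source
  refine ⟨Γ, ⟨Γ.continuous, fun t => congrFun h1 t⟩, ?_⟩
  rw [h2, val_pt]

/-- the crossing word -/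
def om {x y : Y} (γ : Path x y) : FreeGroup A :=
  D.val (D.isCov.liftPath γ (D.pt x 1) γ.source 1)

lemma lift_om {x y : Y} {γ : Path x y} {Γ : unitInterval → D.TS} (h : D.Lift γ Γ) :
    D.val (Γ 1) = D.val (Γ 0) * D.om γ := by
  have h1 : D.Lift γ (D.isCov.liftPath γ (D.pt x 1) γ.source) :=
    ⟨(D.isCov.liftPath γ (D.pt x 1) γ.source).continuous,
      fun t => congrFun (D.isCov.liftPath_lifts γ (D.pt x 1) γ.source) t⟩
  have h2 := D.lift_const h h1 1
  rw [D.isCov.liftPath_zero, val_pt, inv_one, mul_one] at h2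
  rw [om, ← h2]
  group

lemma om_homotopic {x y : Y} {γ γ' : Path x y} (h : γ.Homotopic γ') : D.om γ = D.om γ' := by
  exact congrArg D.val
    (D.isCov.liftPath_apply_one_eq_of_homotopicRel h (D.pt x 1) γ.source γ'.source)

lemma om_trans {x y z : Y} (γ : Path x y) (γ' : Path y z) :
    D.om (γ.trans γ') = D.om γ * D.om γ' := by
  have h := D.isCov.liftPath_trans (e := D.pt x 1) (x := x) rfl γ γ'
  have h1 : D.om (γ.trans γ') = D.val (D.isCov.liftPath γ' (D.isCov.liftPath γ (D.pt x 1) γ.source 1)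
      (by simpa using (congrFun (D.isCov.liftPath_lifts γ (D.pt x 1) γ.source) 1).symm) 1) := by
    rw [om]
    congr 1
    exact (congrArg (fun c : C(unitInterval, D.TS) => c 1) h).trans (Path.target _)
  rw [h1]
  have h2 := D.lift_om (γ := γ') (Γ := D.isCov.liftPath γ' (D.isCov.liftPath γ (D.pt x 1) γ.source 1)
      (by simpa using (congrFun (D.isCov.liftPath_lifts γ (D.pt x 1) γ.source) 1).symm))
    ⟨ContinuousMap.continuous _, fun t => congrFun (D.isCov.liftPath_lifts γ' _ _) t⟩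
  rw [h2, D.isCov.liftPath_zero]
  rfl

lemma om_bs {x y : Y} (γ : Path x y) (i : Option A) (h : ∀ t, γ t ∈ D.bs i) :
    D.om γ = (D.s i x)⁻¹ * D.s i y := by
  obtain ⟨Γ, h1, h2⟩ := D.exists_lift γ 1
  have hl : IsLocallyConstant (fun t => D.val (Γ t) * (D.s i (γ t))⁻¹) := by
    rw [IsLocallyConstant.iff_eventually_eq]
    intro t
    have h3 : (Γ t).1 ∈ D.bs i := by rw [h1.2]; exact h t
    filter_upwards [D.lc h1.1 h3] with s hs
    rw [h1.2, h1.2] at hs
    exact hs
  have h4 := hl.apply_eq_of_preconnectedSpace 1 0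
  simp only [h2, γ.source, γ.target, one_mul] at h4
  have h5 := D.lift_om h1
  rw [h2, one_mul] at h5
  rw [← h5, ← h4]
  group

lemma om_avoid (B : Set A) {x y : Y} (γ : Path x y)
    (h : ∀ α ∈ B, Disjoint (range γ) (D.U α \ D.U0)) :
    D.om γ ∈ Subgroup.closure (FreeGroup.of '' Bᶜ) := by
  obtain ⟨Γ, h1, h2⟩ := D.exists_lift γ 1
  set H := Subgroup.closure (FreeGroup.of '' Bᶜ : Set (FreeGroup A))
  have hl : IsLocallyConstant (fun t => D.val (Γ t) ∈ H) := by
    rw [IsLocallyConstant.iff_eventually_eq]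
    intro t
    by_cases h0 : γ t ∈ D.U0
    · have h3 : (Γ t).1 ∈ D.bs none := by rw [h1.2]; exact h0
      filter_upwards [D.lc h1.1 h3] with s hs
      have hs' : D.val (Γ s) = D.val (Γ t) := by simpa only [GD.s, inv_one, mul_one] using hs
      rw [hs']
    · obtain ⟨α, hα⟩ := (D.cov (γ t)).resolve_left h0
      have hB : α ∉ B := fun hB =>
        Set.disjoint_left.mp (h α hB) ⟨t, rfl⟩ ⟨hα, h0⟩
      have hsig : ∀ z, sig D.W α z ∈ H := by
        intro z
        by_cases hz : z ∈ D.W α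
        · rw [D.sig_W hz]; exact Subgroup.subset_closure ⟨α, hB, rfl⟩
        · rw [D.sig_nW hz]; exact H.one_mem
      have h3 : (Γ t).1 ∈ D.bs (some α) := by rw [h1.2]; exact hα
      filter_upwards [D.lc h1.1 h3] with s hs
      have hs' : D.val (Γ s) * (sig D.W α (Γ s).1)⁻¹ = D.val (Γ t) * (sig D.W α (Γ t).1)⁻¹ := hs
      apply propext
      constructor
      · intro hm
        have : D.val (Γ t) = D.val (Γ s) * (sig D.W α (Γ s).1)⁻¹ * sig D.W α (Γ t).1 := by
          rw [hs']; group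
        rw [this]
        exact H.mul_mem (H.mul_mem hm (H.inv_mem (hsig _))) (hsig _)
      · intro hm
        have : D.val (Γ s) = D.val (Γ t) * (sig D.W α (Γ t).1)⁻¹ * sig D.W α (Γ s).1 := by
          rw [← hs']; group
        rw [this]
        exact H.mul_mem (H.mul_mem hm (H.inv_mem (hsig _))) (hsig _)
  have h4 := hl.apply_eq_of_preconnectedSpace 1 0
  have h5 := D.lift_om h1
  rw [h2, one_mul] at h5
  have h4' : (D.val (Γ 1) ∈ H) = (D.val (Γ 0) ∈ H) := h4
  rw [← h5, h4', h2]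
  exact H.one_mem

/-! ### the subdivision principle -/

lemma subdiv (P : ∀ {x y : Y}, Path x y → Prop)
    (ht : ∀ {x y z : Y} (γ : Path x y) (γ' : Path y z), P γ → P γ' → P (γ.trans γ'))
    (hh : ∀ {x y : Y} (γ γ' : Path x y), γ.Homotopic γ' → P γ → P γ')
    (hb : ∀ (i : Option A) {x y : Y} (γ : Path x y), (∀ t, γ t ∈ D.bs i) → P γ)
    {x y : Y} (γ : Path x y) : P γ := by
  obtain ⟨t, t0, tm, ⟨n, hn⟩, hc⟩ := exists_monotone_Icc_subset_open_cover_unitInterval
    (c := fun i => γ ⁻¹' D.bs i) (fun i => (D.isOpen_bs i).preimage γ.continuous)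
    (fun s _ => mem_iUnion.2 ⟨D.idx (γ s), D.idx_mem _⟩)
  have key : ∀ m, P (γ.subpath (t 0) (t m)) := by
    intro m
    induction m with
    | zero =>
      rw [Path.subpath_self]
      exact hb (D.idx (γ (t 0))) _ (fun _ => D.idx_mem _)
    | succ m ih =>
      obtain ⟨i, hi⟩ := hc m
      refine hh _ _ ⟨Path.Homotopy.subpathTransSubpath γ (t 0) (t m) (t (m + 1))⟩
        (ht _ _ ih (hb i _ ?_))
      intro s
      have h1 : γ.subpath (t m) (t (m + 1)) s ∈ range (γ.subpath (t m) (t (m + 1))) := ⟨s, rfl⟩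
      rw [Path.range_subpath_of_le _ _ _ (tm m.le_succ)] at h1
      obtain ⟨u, hu, hu'⟩ := h1
      rw [← hu']
      exact hi hu
  have h1 := key n
  rw [t0, hn n le_rfl, Path.subpath_zero_one] at h1
  have hcast : ∀ {x y x' y' : Y} (γ : Path x y) (hx : x' = x) (hy : y' = y),
      P (γ.cast hx hy) → P γ := by
    intro x y x' y' γ hx hy h
    subst hx hy
    simpa using h
  exact hcast γ _ _ h1

/-! ### classes of paths -/

lemma sc_hom {S : Set Y} (hS : SimplyConnectedSpace S) {x y : Y} {γ γ' : Path x y}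
    (h : ∀ t, γ t ∈ S) (h' : ∀ t, γ' t ∈ S) : γ.Homotopic γ' := by
  obtain ⟨H, -⟩ := (homIn_iff h h').2 (SimplyConnectedSpace.paths_homotopic _ _)
  exact ⟨H⟩

lemma pc0 : IsPathConnected D.U0 := by
  have := D.s0
  exact isPathConnected_iff_pathConnectedSpace.mpr inferInstance

lemma pcU (α : A) : IsPathConnected (D.U α) := by
  have := D.sU α
  exact isPathConnected_iff_pathConnectedSpace.mpr inferInstance

/-- a path inside a path connected set -/
def jo {S : Set Y} (hS : IsPathConnected S) {x y : Y} (hx : x ∈ S) (hy : y ∈ S) : Path x y :=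
  (hS.joinedIn x hx y hy).somePath

lemma jo_mem {S : Set Y} (hS : IsPathConnected S) {x y : Y} (hx : x ∈ S) (hy : y ∈ S)
    (t : unitInterval) : jo hS hx hy t ∈ S := (hS.joinedIn x hx y hy).somePath_mem t

def b : Y := D.pc0.nonempty.some
lemma hb : D.b ∈ D.U0 := D.pc0.nonempty.some_mem
def v (α : A) : Y := (D.pV α).nonempty.some
lemma hv (α : A) : D.v α ∈ D.V α := (D.pV α).nonempty.some_mem
def w (α : A) : Y := (D.pW α).nonempty.some
lemma hw (α : A) : D.w α ∈ D.W α := (D.pW α).nonempty.some_mem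

open Classical in
def tau (y : Y) : Path D.b y :=
  if h : y ∈ D.U0 then jo D.pc0 D.hb h
  else (jo D.pc0 D.hb (D.V_sub0 (D.hv ((D.cov y).resolve_left h).choose))).trans
    (jo (D.pcU ((D.cov y).resolve_left h).choose) (D.V_subU (D.hv _))
      ((D.cov y).resolve_left h).choose_spec)

abbrev PG : Type := (FundamentalGroup Y D.b)ᵐᵒᵖ

/-- class of a path -/
abbrev qk {x y : Y} (γ : Path x y) : Path.Homotopic.Quotient x y :=
  Path.Homotopic.Quotient.mk γ

def opq (p : Path.Homotopic.Quotient D.b D.b) : D.PG :=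
  MulOpposite.op (show FundamentalGroup Y D.b from p)

lemma opq_mul (p q : Path.Homotopic.Quotient D.b D.b) :
    D.opq p * D.opq q = D.opq (p.trans q) := rfl

lemma opq_refl : D.opq (Path.Homotopic.Quotient.refl D.b) = 1 := rfl

lemma opq_inj {p q : Path.Homotopic.Quotient D.b D.b} (h : D.opq p = D.opq q) : p = q :=
  MulOpposite.op_injective h

def R {x y : Y} (γ : Path x y) : D.PG :=
  D.opq ((qk (D.tau x)).trans ((qk γ).trans (qk (D.tau y)).symm))

lemma R_trans {x y z : Y} (γ : Path x y) (γ' : Path y z) :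
    D.R (γ.trans γ') = D.R γ * D.R γ' := by
  have h0 : qk (γ.trans γ') = (qk γ).trans (qk γ') := Path.Homotopic.Quotient.mk_trans γ γ'
  rw [R, R, R, opq_mul, h0]
  congr 1
  simp only [Path.Homotopic.Quotient.trans_assoc]
  congr 2
  rw [← Path.Homotopic.Quotient.trans_assoc (qk (D.tau y)).symm,
    Path.Homotopic.Quotient.symm_trans, Path.Homotopic.Quotient.refl_trans]

lemma R_homotopic {x y : Y} {γ γ' : Path x y} (h : γ.Homotopic γ') : D.R γ = D.R γ' := by
  have h0 : qk γ = qk γ' := Path.Homotopic.Quotient.eq.2 h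
  rw [R, R, h0]

lemma R_inj {x y : Y} {γ γ' : Path x y} (h : D.R γ = D.R γ') : γ.Homotopic γ' := by
  rw [R, R] at h
  have h1 := D.opq_inj h
  have h2 : ∀ q : Path.Homotopic.Quotient x y, q = ((qk (D.tau x)).symm.trans
      ((qk (D.tau x)).trans (q.trans (qk (D.tau y)).symm))).trans (qk (D.tau y)) := by
    intro q
    rw [← Path.Homotopic.Quotient.trans_assoc (qk (D.tau x)).symm,
      Path.Homotopic.Quotient.symm_trans,
      Path.Homotopic.Quotient.refl_trans, Path.Homotopic.Quotient.trans_assoc,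
      Path.Homotopic.Quotient.symm_trans, Path.Homotopic.Quotient.trans_refl]
  have h3 : qk γ = qk γ' := by rw [h2 (qk γ), h1, ← h2]
  exact Path.Homotopic.Quotient.eq.1 h3

lemma R_one {x y : Y} {γ : Path x y} (h : ((D.tau x).trans γ).Homotopic (D.tau y)) :
    D.R γ = 1 := by
  have h1 : (qk (D.tau x)).trans (qk γ) = qk (D.tau y) := by
    rw [← Path.Homotopic.Quotient.mk_trans]
    exact Path.Homotopic.Quotient.eq.2 h
  rw [R, ← Path.Homotopic.Quotient.trans_assoc, h1, Path.Homotopic.Quotient.trans_symm]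
  rfl

/-- the class of a path in `U0` -/
lemma R_U0 {x y : Y} (γ : Path x y) (h : ∀ t, γ t ∈ D.U0) : D.R γ = 1 := by
  have hx : x ∈ D.U0 := by simpa using h 0
  have hy : y ∈ D.U0 := by simpa using h 1
  apply D.R_one
  rw [tau, tau, dif_pos hx, dif_pos hy]
  exact sc_hom D.s0 (mem_trans (jo_mem _ _ _) h) (jo_mem _ _ _)

def kap (α : A) : Path (D.v α) (D.w α) :=
  jo (D.pcU α) (D.V_subU (D.hv α)) (D.W_subU (D.hw α))

def Phi : FreeGroup A →* D.PG := FreeGroup.lift fun α => D.R (D.kap α)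

lemma R_U1 {α : A} {y : Y} (γ : Path (D.v α) y) (h : ∀ t, γ t ∈ D.U α) :
    D.R γ = D.Phi (sig D.W α y) := by
  have hy : y ∈ D.U α := by simpa using h 1
  by_cases h0 : y ∈ D.U0
  · have h1 : y ∈ D.V α ∪ D.W α := by rw [← D.hUU]; exact ⟨hy, h0⟩
    rcases h1 with h1 | h1
    · rw [D.sig_nW (D.V_nW h1), map_one]
      have h2 : γ.Homotopic (jo (D.pV α) (D.hv α) h1) :=
        sc_hom (D.sU α) h fun t => D.V_subU (jo_mem (D.pV α) (D.hv α) h1 t)
      rw [D.R_homotopic h2]
      exact D.R_U0 _ fun t => D.V_sub0 (jo_mem (D.pV α) (D.hv α) h1 t)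
    · rw [D.sig_W h1, Phi, FreeGroup.lift_apply_of]
      have h2 : γ.Homotopic ((D.kap α).trans (jo (D.pW α) (D.hw α) h1)) :=
        sc_hom (D.sU α) h (mem_trans (jo_mem _ _ _)
          fun t => D.W_subU (jo_mem (D.pW α) (D.hw α) h1 t))
      rw [D.R_homotopic h2, R_trans, D.R_U0 (jo (D.pW α) (D.hw α) h1)
        fun t => D.W_sub0 (jo_mem (D.pW α) (D.hw α) h1 t), mul_one]
  · rw [D.sig_nW fun h' => h0 (D.W_sub0 h'), map_one]
    apply D.R_one
    have hα : ((D.cov y).resolve_left h0).choose = α := by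
      by_contra hne
      exact Set.disjoint_left.mp (D.dis _ _ hne) ((D.cov y).resolve_left h0).choose_spec hy
    have h1 : D.tau y = (jo D.pc0 D.hb (D.V_sub0 (D.hv α))).trans
        (jo (D.pcU α) (D.V_subU (D.hv _)) hy) := by
      rw [tau, dif_neg h0]
      have : ∀ (β : A) (hβ : y ∈ D.U β), β = α →
          (jo D.pc0 D.hb (D.V_sub0 (D.hv β))).trans (jo (D.pcU β) (D.V_subU (D.hv _)) hβ) =
          (jo D.pc0 D.hb (D.V_sub0 (D.hv α))).trans (jo (D.pcU α) (D.V_subU (D.hv _)) hy) := by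
        intro β hβ e
        subst e
        rfl
      exact this _ _ hα
    rw [h1]
    have h2 : D.tau (D.v α) = jo D.pc0 D.hb (D.V_sub0 (D.hv α)) := by
      rw [tau, dif_pos (D.V_sub0 (D.hv α))]
    rw [h2]
    exact Path.Homotopic.hcomp (Path.Homotopic.refl _) (sc_hom (D.sU α) h (jo_mem _ _ _))

lemma R_bs (i : Option A) {x y : Y} (γ : Path x y) (h : ∀ t, γ t ∈ D.bs i) :
    D.R γ = D.Phi (D.om γ) := by
  rw [D.om_bs γ i h]
  cases i with
  | none =>
    rw [D.R_U0 γ h]
    simp [s]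
  | some α =>
    have hx : x ∈ D.U α := by
      have := h 0
      rw [γ.source] at this
      exact this
    have h1 := D.R_U1 (jo (D.pcU α) (D.V_subU (D.hv α)) hx) (jo_mem _ _ _)
    have h2 := D.R_U1 ((jo (D.pcU α) (D.V_subU (D.hv α)) hx).trans γ) (mem_trans (jo_mem _ _ _) h)
    rw [R_trans, h1] at h2
    have h3 : D.R γ = (D.Phi (sig D.W α x))⁻¹ * D.Phi (sig D.W α y) := by
      rw [← h2]; group
    rw [h3]
    simp [s]

lemma R_om {x y : Y} (γ : Path x y) : D.R γ = D.Phi (D.om γ) := by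
  refine D.subdiv (fun γ => D.R γ = D.Phi (D.om γ)) ?_ ?_ ?_ γ
  · intro x y z γ γ' h h'
    rw [R_trans, om_trans, map_mul, h, h']
  · intro x y γ γ' h h'
    rw [← D.R_homotopic h, ← D.om_homotopic h, h']
  · intro i x y γ h
    exact D.R_bs i γ h

lemma om_refl (x : Y) : D.om (Path.refl x) = 1 := by
  have h := D.om_bs (Path.refl x) (D.idx x) (fun _ => D.idx_mem x)
  rw [h]; group

lemma om_symm {x y : Y} (γ : Path x y) : D.om γ.symm = (D.om γ)⁻¹ := by
  have h := D.om_trans γ γ.symm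
  have h1 : (γ.trans γ.symm).Homotopic (Path.refl x) := by
    rw [← Path.Homotopic.Quotient.eq, Path.Homotopic.Quotient.mk_trans,
      Path.Homotopic.Quotient.mk_symm, Path.Homotopic.Quotient.trans_symm]
    rfl
  rw [D.om_homotopic h1, om_refl] at h
  exact (inv_eq_of_mul_eq_one_right h.symm).symm

lemma surj (B : Set A) (g : FreeGroup A) (hg : g ∈ Subgroup.closure (FreeGroup.of '' B)) :
    ∀ x y : Y, x ∈ D.U0 → y ∈ D.U0 →
      ∃ γ : Path x y, range γ ⊆ D.U0 ∪ ⋃ α ∈ B, D.U α ∧ D.om γ = g := by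
  induction hg using Subgroup.closure_induction with
  | mem g hg =>
    obtain ⟨α, hα, rfl⟩ := hg
    intro x y hx hy
    refine ⟨((jo D.pc0 hx (D.V_sub0 (D.hv α))).trans (D.kap α)).trans
      (jo D.pc0 (D.W_sub0 (D.hw α)) hy), ?_, ?_⟩
    · rw [Path.trans_range, Path.trans_range]
      rintro z ((⟨t, rfl⟩ | ⟨t, rfl⟩) | ⟨t, rfl⟩)
      · exact Or.inl (jo_mem _ _ _ t)
      · refine Or.inr ?_
        simp only [mem_iUnion]
        exact ⟨α, hα, jo_mem _ _ _ t⟩
      · exact Or.inl (jo_mem _ _ _ t)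
    · rw [om_trans, om_trans, D.om_bs (jo D.pc0 hx (D.V_sub0 (D.hv α))) none (jo_mem _ _ _),
        D.om_bs (jo D.pc0 (D.W_sub0 (D.hw α)) hy) none (jo_mem _ _ _),
        D.om_bs (D.kap α) (some α) (jo_mem _ _ _)]
      simp only [s, D.sig_nW (D.V_nW (D.hv α)), D.sig_W (D.hw α)]
      group
  | one =>
    intro x y hx hy
    refine ⟨jo D.pc0 hx hy, ?_, ?_⟩
    · rintro z ⟨t, rfl⟩
      exact Or.inl (jo_mem _ _ _ t)
    · rw [D.om_bs (jo D.pc0 hx hy) none (jo_mem _ _ _)]
      simp [s]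
  | mul g h _ _ ihg ihh =>
    intro x y hx hy
    obtain ⟨γ, h1, h2⟩ := ihg x x hx hx
    obtain ⟨γ', h1', h2'⟩ := ihh x y hx hy
    refine ⟨γ.trans γ', ?_, ?_⟩
    · rw [Path.trans_range]
      exact union_subset h1 h1'
    · rw [om_trans, h2, h2']
  | inv g _ ih =>
    intro x y hx hy
    obtain ⟨γ, h1, h2⟩ := ih y x hy hx
    refine ⟨γ.symm, ?_, ?_⟩
    · rw [Path.symm_range]; exact h1
    · rw [om_symm, h2]

end GD

end Gos

open Gos in
theorem gos : GosStmt := by
  intro Y A _ U0 U V W h1 h2 h3 h4 h5 h6 h7 h8 h9 h10 h11 h12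
  let D : GD Y A := ⟨U0, U, V, W, h1, h2, h3, h4, h5, h6, h7, h8, h9, h10, h11, h12⟩
  refine ⟨fun {x y} γ => D.om γ, ?_, ?_, ?_, ?_, ?_, ?_⟩
  · intro x y γ γ'
    refine ⟨fun h => D.om_homotopic h, fun h => D.R_inj ?_⟩
    have h' : D.om γ = D.om γ' := h
    rw [D.R_om, D.R_om, h']
  · intro x y z γ γ'
    exact D.om_trans γ γ'
  · intro x y γ h
    have := D.om_bs γ none (fun t => h ⟨t, rfl⟩)
    simpa [GD.s] using this
  · intro α x y γ h
    exact D.om_bs γ (some α) (fun t => h ⟨t, rfl⟩)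
  · intro B x y γ h
    exact D.om_avoid B γ h
  · intro B x y hx hy g hg
    exact D.surj B g hg x y hx hy

end AdT
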