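import Pool.Agent.Helper88.AdT.P5Coord
import Pool.Agent.Helper88.AdT.CylSys

/-!
AT-5, part 3: straightening the boost orbits, the standard annulus with two punctures.
-/

open Matrix Real Topology Filter Set

noncomputable section

namespace AdT

namespace P5

open MuRetr

/-! ### straightening the boost orbits -/

lemma abs_XN_le (N : Qd) : |XN N| ≤ rt (TN N) := by
  have h1 := XYT N
  have h2 := rt_sq (TN N)
  apply abs_le_of_sq_le_sq _ (rt_pos _).le
  nlinarith [sq_nonneg (YN N)]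

/-- denominators -/
def mD (s : ℝ) (N : Qd) : ℝ := (1 + s ^ 2) * rt (TN N) - 2 * s * XN N

lemma mD_pos {s : ℝ} (hs : |s| < 1) (N : Qd) : 0 < mD s N := by
  have h1 := abs_XN_le N
  have h2 := rt_pos (TN N)
  have h3 : s * XN N ≤ |s| * rt (TN N) := by
    calc s * XN N ≤ |s * XN N| := le_abs_self _
      _ = |s| * |XN N| := abs_mul _ _
      _ ≤ |s| * rt (TN N) := mul_le_mul_of_nonneg_left h1 (abs_nonneg _)
  have h4 : s ^ 2 = |s| ^ 2 := (sq_abs s).symm
  have h5 : 0 < (1 - |s|) ^ 2 * rt (TN N) := by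
    have : 0 < 1 - |s| := by linarith
    positivity
  rw [mD, h4]
  nlinarith

lemma mob_eqn {s : ℝ} (hs : |s| < 1) (N : Qd) :
    (rt (TN N) * ((1 + s ^ 2) * XN N - 2 * s * rt (TN N)) / mD s N) ^ 2 +
      (rt (TN N) * ((1 - s ^ 2) * YN N) / mD s N) ^ 2 - TN N ^ 2 = 1 := by
  have h1 := XYT N
  have h2 := rt_sq (TN N)
  have h3 := (mD_pos hs N).ne'
  have h4 : YN N ^ 2 = rt (TN N) ^ 2 - XN N ^ 2 := by linarith
  have h5 : ((1 + s ^ 2) * XN N - 2 * s * rt (TN N)) ^ 2 + ((1 - s ^ 2) * YN N) ^ 2 =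
      mD s N ^ 2 := by
    rw [mul_pow (1 - s ^ 2), h4, mD]
    ring
  have h6 : (rt (TN N) * ((1 + s ^ 2) * XN N - 2 * s * rt (TN N)) / mD s N) ^ 2 +
      (rt (TN N) * ((1 - s ^ 2) * YN N) / mD s N) ^ 2 = rt (TN N) ^ 2 := by
    rw [div_pow, div_pow, ← add_div, div_eq_iff (pow_ne_zero 2 h3), ← h5]
    ring
  rw [h6, h2]
  ring

/-- parameter of the straightening at height `T` -/
def sT (q : Qd) (T : ℝ) : ℝ := XN q / (rt T + √(1 + T ^ 2 - XN q ^ 2))

lemma one_le_rt (T : ℝ) : 1 ≤ rt T := by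
  rw [rt]
  apply Real.one_le_sqrt.2
  nlinarith [sq_nonneg T]

lemma sT_den {q : Qd} (hq : |XN q| < 1) (T : ℝ) : 1 < rt T + √(1 + T ^ 2 - XN q ^ 2) := by
  have h1 := one_le_rt T
  have h2 := Real.sqrt_pos.2 (ell_pos hq T)
  linarith

lemma sT_lt {q : Qd} (hq : |XN q| < 1) (T : ℝ) : |sT q T| < 1 := by
  have h := sT_den hq T
  rw [sT, abs_div, abs_of_pos (by linarith : 0 < rt T + √(1 + T ^ 2 - XN q ^ 2)),
    div_lt_one (by linarith)]
  linarith

lemma sT_eq {q : Qd} (hq : |XN q| < 1) (T : ℝ) :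
    2 * sT q T * rt T = (1 + sT q T ^ 2) * XN q := by
  have h := sT_den hq T
  have hQ := Real.sq_sqrt (ell_pos hq T).le
  have hR := rt_sq T
  have h0 : rt T + √(1 + T ^ 2 - XN q ^ 2) ≠ 0 := by linarith
  have hs : sT q T * (rt T + √(1 + T ^ 2 - XN q ^ 2)) = XN q := by
    rw [sT, div_mul_cancel₀ _ h0]
  have h1 : sT q T * XN q = rt T - √(1 + T ^ 2 - XN q ^ 2) := by
    apply mul_right_cancel₀ h0
    linear_combination (XN q) * hs - hR + hQ
  linear_combination hs - sT q T * h1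

lemma continuous_sT {q : Qd} (hq : |XN q| < 1) : Continuous (sT q) := by
  unfold sT
  refine continuous_const.div ?_ (fun T => (by have := sT_den hq T; linarith : _ ≠ (0 : ℝ)))
  exact continuous_rt.add (by fun_prop)

/-- the two fixed points -/
def Pp : Set Qd := {Dq, cq Jm Dq}

lemma mem_Pp (N : Qd) : N ∈ Pp ↔ YN N = 0 ∧ TN N = 0 := by
  constructor
  · rintro (rfl | rfl)
    · exact ⟨Dq_Y, Dq_T⟩
    · rw [(cqJ Dq).2.1, (cqJ Dq).2.2, Dq_Y, Dq_T]
      simp
  · rintro ⟨h1, h2⟩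
    have h := XYT N
    rw [h1, h2] at h
    have h3 : (XN N - 1) * (XN N + 1) = 0 := by nlinarith
    rcases mul_eq_zero.1 h3 with h4 | h4
    · left
      apply qd_ext
      · rw [Dq_X]; linarith
      · rw [Dq_Y, h1]
      · rw [Dq_T, h2]
    · right
      show N = cq Jm Dq
      apply qd_ext
      · rw [(cqJ Dq).1, Dq_X]; linarith
      · rw [(cqJ Dq).2.1, Dq_Y, h1]; simp
      · rw [(cqJ Dq).2.2, Dq_T, h2]

lemma straighten {q x : Qd} (hq : |XN q| < 1) (c : Path x x) (hc : ∀ t, c t ∈ Ppᶜ)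
    (h : Disjoint (range c) (ell q)) : ∃ (x' : Qd) (c' : Path x' x'), FreeIn Ppᶜ c c' ∧
      ∀ t, XN (c' t) = 0 → ¬ 0 < YN q * YN (c' t) := by
  let s : unitInterval × unitInterval → ℝ := fun p => (p.1 : ℝ) * sT q (TN (c p.2))
  have hs : ∀ p, |s p| < 1 := by
    intro p
    have h1 := sT_lt hq (TN (c p.2))
    show |(p.1 : ℝ) * sT q (TN (c p.2))| < 1
    rw [abs_mul, abs_of_nonneg p.1.2.1]
    have h2 := p.1.2.2
    have h3 := p.1.2.1
    have h4 := abs_nonneg (sT q (TN (c p.2)))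
    nlinarith
  let K : unitInterval × unitInterval → Qd := fun p =>
    mkq (rt (TN (c p.2)) * ((1 + s p ^ 2) * XN (c p.2) - 2 * s p * rt (TN (c p.2))) /
      mD (s p) (c p.2)) (rt (TN (c p.2)) * ((1 - s p ^ 2) * YN (c p.2)) / mD (s p) (c p.2))
      (TN (c p.2)) (mob_eqn (hs p) (c p.2))
  have cc : Continuous fun p : unitInterval × unitInterval => c p.2 :=
    c.continuous.comp continuous_snd
  have cX : Continuous fun p : unitInterval × unitInterval => XN (c p.2) := continuous_XN.comp cc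
  have cY : Continuous fun p : unitInterval × unitInterval => YN (c p.2) := continuous_YN.comp cc
  have cT : Continuous fun p : unitInterval × unitInterval => TN (c p.2) := continuous_TN.comp cc
  have cR : Continuous fun p : unitInterval × unitInterval => rt (TN (c p.2)) :=
    continuous_rt.comp cT
  have cs : Continuous s := (continuous_subtype_val.comp continuous_fst).mul
    ((continuous_sT hq).comp cT)
  have cD : Continuous fun p : unitInterval × unitInterval => mD (s p) (c p.2) := by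
    unfold mD
    fun_prop
  have hD : ∀ p : unitInterval × unitInterval, mD (s p) (c p.2) ≠ 0 :=
    fun p => (mD_pos (hs p) _).ne'
  have hK : Continuous K := by
    refine continuous_mkq ?_ ?_ cT _
    · exact (cR.mul (by fun_prop)).div cD hD
    · exact (cR.mul (by fun_prop)).div cD hD
  have hKS : ∀ p, K p ∈ Ppᶜ := by
    intro p hp
    rw [mem_Pp] at hp
    obtain ⟨h1, h2⟩ := hp
    rw [YN_mkq, div_eq_zero_iff] at h1
    rw [TN_mkq] at h2
    have h3 := h1.resolve_right (hD p)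
    have h4 : (1 - s p ^ 2) ≠ 0 := by
      have := (sq_lt_one_iff_abs_lt_one (s p)).2 (hs p)
      linarith
    have h5 := (rt_pos (TN (c p.2))).ne'
    have h6 : YN (c p.2) = 0 := by
      have := (mul_eq_zero.1 h3).resolve_left h5
      exact (mul_eq_zero.1 this).resolve_left h4
    exact hc p.2 ((mem_Pp _).2 ⟨h6, h2⟩)
  have h01 : ∀ τ, K (τ, 0) = K (τ, 1) := by
    intro τ
    have e : c 0 = c 1 := by rw [c.source, c.target]
    have es : s (τ, 0) = s (τ, 1) := by
      show (τ : ℝ) * sT q (TN (c 0)) = (τ : ℝ) * sT q (TN (c 1))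
      rw [e]
    apply qd_ext
    · show XN (mkq _ _ _ _) = XN (mkq _ _ _ _)
      rw [XN_mkq, XN_mkq, es]
      simp only [e]
    · show YN (mkq _ _ _ _) = YN (mkq _ _ _ _)
      rw [YN_mkq, YN_mkq, es]
      simp only [e]
    · show TN (mkq _ _ _ _) = TN (mkq _ _ _ _)
      rw [TN_mkq, TN_mkq]
      simp only [e]
  let c' : Path (K (1, 0)) (K (1, 0)) :=
    { toFun := fun t => K (1, t)
      continuous_toFun := hK.comp (by fun_prop)
      source' := rfl
      target' := (h01 1).symm }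
  refine ⟨_, c', freeIn_of_family K hK hKS h01 c c' ?_ (fun _ => rfl), ?_⟩
  · intro t
    have es : s (0, t) = 0 := by
      show ((0 : unitInterval) : ℝ) * _ = 0
      simp
    have h5 := (rt_pos (TN (c t))).ne'
    have e0 : mD 0 (c t) = rt (TN (c t)) := by rw [mD]; ring
    apply qd_ext
    · show _ = XN (mkq _ _ _ _)
      rw [XN_mkq, es, e0, mul_div_cancel_left₀ _ h5]
      ring
    · show _ = YN (mkq _ _ _ _)
      rw [YN_mkq, es, e0, mul_div_cancel_left₀ _ h5]
      ring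
    · show _ = TN (mkq _ _ _ _)
      rw [TN_mkq]
  · intro t hX hY
    have es : s (1, t) = sT q (TN (c t)) := by
      show ((1 : unitInterval) : ℝ) * _ = _
      simp
    have hX' : XN (mkq _ _ _ (mob_eqn (hs (1, t)) (c t))) = 0 := hX
    have hY' : 0 < YN q * YN (mkq _ _ _ (mob_eqn (hs (1, t)) (c t))) := hY
    rw [XN_mkq, div_eq_zero_iff] at hX'
    rw [YN_mkq] at hY'
    have h5 := rt_pos (TN (c t))
    have h6 := (mul_eq_zero.1 (hX'.resolve_right (hD (1, t)))).resolve_left h5.ne'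
    have h7 := sT_eq hq (TN (c t))
    have h8 : XN (c t) = XN q := by
      rw [es] at h6
      have h9 : (1 + sT q (TN (c t)) ^ 2) * (XN (c t) - XN q) = 0 := by linarith
      have h10 : (1 + sT q (TN (c t)) ^ 2) ≠ 0 := by positivity
      have := (mul_eq_zero.1 h9).resolve_left h10
      linarith
    have h9 : 0 < YN q * YN (c t) := by
      have h10 : 0 < 1 - s (1, t) ^ 2 := by
        have := (sq_lt_one_iff_abs_lt_one (s (1, t))).2 (hs (1, t))
        linarith
      have h11 := mD_pos (hs (1, t)) (c t)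
      have h12 : YN q * (rt (TN (c t)) * ((1 - s (1, t) ^ 2) * YN (c t)) / mD (s (1, t)) (c t)) =
          (YN q * YN (c t)) * (rt (TN (c t)) * (1 - s (1, t) ^ 2) / mD (s (1, t)) (c t)) := by
        ring
      have hY2 : 0 < (YN q * YN (c t)) *
          (rt (TN (c t)) * (1 - s (1, t) ^ 2) / mD (s (1, t)) (c t)) := by
        rw [← h12]; exact hY'
      have h13 : 0 < rt (TN (c t)) * (1 - s (1, t) ^ 2) / mD (s (1, t)) (c t) := by positivity
      exact (pos_iff_pos_of_mul_pos hY2).2 h13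
    exact Set.disjoint_left.1 h ⟨t, rfl⟩ ⟨h8, h9⟩

/-! ### the standard coordinates -/

/-- polar coordinates, the half lines over `±i` at the angles `0`, `1/2` -/
def Psi0 : Qd ≃ₜ Cyl :=
  Phi.trans (Tw (fun _ => ((1 / 4 : ℝ) : AddCircle (1 : ℝ))) continuous_const)

lemma Psi0_snd (N : Qd) : (Psi0 N).2 = TN N := rfl

lemma Psi0_fst (N : Qd) : (Psi0 N).1 = (Phi N).1 - ((1 / 4 : ℝ) : AddCircle (1 : ℝ)) := rfl

lemma Psi0_fst_iff (N : Qd) (r : ℝ) : (Psi0 N).1 = (r : AddCircle (1 : ℝ)) ↔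
    XN N = -(rt (TN N) * sin (2 * π * r)) ∧ YN N = rt (TN N) * cos (2 * π * r) := by
  rw [Psi0_fst, sub_eq_iff_eq_add, ← AddCircle.coe_add, Phi_fst_eq_iff]
  have e : 2 * π * (r + 1 / 4) = 2 * π * r + π / 2 := by ring
  rw [e, Real.cos_add_pi_div_two, Real.sin_add_pi_div_two, mul_neg]

lemma arctan_coord {X Y R : ℝ} (hX : 0 < X) (hR : 0 < R) (h : X ^ 2 + Y ^ 2 = R ^ 2) :
    X = R * cos (arctan (Y / X)) ∧ Y = R * sin (arctan (Y / X)) := by
  have h1 : √(1 + (Y / X) ^ 2) = R / X := by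
    rw [Real.sqrt_eq_iff_mul_self_eq_of_pos (by positivity)]
    field_simp
    linarith
  rw [Real.cos_arctan, Real.sin_arctan, h1]
  constructor <;> field_simp

lemma Phi_pos {N : Qd} (hX : 0 < XN N) :
    (Phi N).1 = ((arctan (YN N / XN N) / (2 * π) : ℝ) : AddCircle (1 : ℝ)) := by
  rw [Phi_fst_eq_iff]
  have e : 2 * π * (arctan (YN N / XN N) / (2 * π)) = arctan (YN N / XN N) := by
    field_simp
  rw [e]
  exact arctan_coord hX (rt_pos _) (by have := XYT N; rw [rt_sq]; linarith)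

lemma Phi_neg {N : Qd} (hX : XN N < 0) :
    (Phi N).1 = ((arctan (YN N / XN N) / (2 * π) + 1 / 2 : ℝ) : AddCircle (1 : ℝ)) := by
  rw [Phi_fst_eq_iff]
  have e : 2 * π * (arctan (YN N / XN N) / (2 * π) + 1 / 2) = arctan (YN N / XN N) + π := by
    field_simp
  have h := arctan_coord (X := -XN N) (Y := -YN N) (R := rt (TN N)) (by linarith) (rt_pos _)
    (by have := XYT N; rw [rt_sq]; nlinarith)
  rw [neg_div_neg_eq] at h
  rw [e, Real.cos_add_pi, Real.sin_add_pi]
  constructor <;> linarith [h.1, h.2]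

/-- the punctures -/
def pm : Cyl := (((-(1 / 4) : ℝ) : AddCircle (1 : ℝ)), 0)
def pq : Cyl := (((1 / 4 : ℝ) : AddCircle (1 : ℝ)), 0)
def F0 : Set Cyl := {pm, pq}
def fm : F0 := ⟨pm, Or.inl rfl⟩
def fp : F0 := ⟨pq, Or.inr rfl⟩

lemma Psi0_Dq : Psi0 Dq = pm := by
  refine Prod.ext ?_ ?_
  · show (Phi Dq).1 - _ = _
    rw [Phi_pos (by rw [Dq_X]; norm_num), Dq_Y]
    simp [pm]
  · show TN Dq = 0
    exact Dq_T

lemma Psi0_JDq : Psi0 (cq Jm Dq) = pq := by
  refine Prod.ext ?_ ?_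
  · show (Phi (cq Jm Dq)).1 - _ = _
    rw [Phi_neg (by rw [(cqJ Dq).1, Dq_X]; norm_num), (cqJ Dq).2.1, Dq_Y, ← AddCircle.coe_sub]
    show _ = ((1 / 4 : ℝ) : AddCircle (1 : ℝ))
    congr 1
    simp
    norm_num
  · show TN (cq Jm Dq) = 0
    rw [(cqJ Dq).2.2, Dq_T]

lemma Psi0_image : Psi0 '' Pp = F0 := by
  rw [Pp, image_pair, Psi0_Dq, Psi0_JDq]
  rfl

lemma F0_finite : F0.Finite := by simp [F0]

lemma opt_cases (α : Option F0) : α = none ∨ α = some fm ∨ α = some fp := by
  rcases α with _ | ⟨p, rfl | hp⟩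
  · exact Or.inl rfl
  · exact Or.inr (Or.inl rfl)
  · right; right
    have hp' : p = pq := hp
    subst hp'
    rfl

lemma f_cases (f : F0) : f = fm ∨ f = fp := by
  rcases f with ⟨p, rfl | hp⟩
  · exact Or.inl rfl
  · right
    have hp' : p = pq := hp
    subst hp'
    rfl

lemma f_snd (f : F0) : f.1.2 = 0 := by
  rcases f_cases f with rfl | rfl <;> rfl

lemma coe_ne {s s' : ℝ} (h : s ≠ s') (h' : |s - s'| < 1) :
    (s : AddCircle (1 : ℝ)) ≠ (s' : AddCircle (1 : ℝ)) := by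
  intro he
  have h1 : ((s - s' : ℝ) : AddCircle (1 : ℝ)) = 0 := by
    rw [AddCircle.coe_sub, he, sub_self]
  have := CylSys.coe_small h1 h'
  exact h (by linarith)

lemma arc_none0 (y : Cyl) : y ∈ arc F0 none ↔ y.1 = 0 := by
  constructor
  · rintro ⟨h, -⟩
    exact h
  · intro h
    refine ⟨h, ?_⟩
    intro f hf h0
    exfalso
    have h00 : (0 : AddCircle (1 : ℝ)) = ((0 : ℝ) : AddCircle (1 : ℝ)) := by simp
    rcases f_cases ⟨f, hf⟩ with e | e
    · have e' : f = pm := congrArg Subtype.val e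
      rw [e', h00] at h0
      exact coe_ne (s := -(1 / 4)) (s' := 0) (by norm_num) (by rw [abs_lt]; norm_num) h0
    · have e' : f = pq := congrArg Subtype.val e
      rw [e', h00] at h0
      exact coe_ne (s := 1 / 4) (s' := 0) (by norm_num) (by rw [abs_lt]; norm_num) h0

lemma arc_some0 (f : F0) (y : Cyl) : y ∈ arc F0 (some f) ↔ y.1 = f.1.1 ∧ 0 < y.2 := by
  constructor
  · rintro ⟨h1, h2, -⟩
    rw [f_snd f] at h2
    exact ⟨h1, h2⟩
  · rintro ⟨h1, h2⟩
    refine ⟨h1, by rw [f_snd f]; exact h2, ?_⟩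
    intro f' hf' h3 h4
    have h5 := f_snd ⟨f', hf'⟩
    have h6 := f_snd f
    have h5' : f'.2 = 0 := h5
    rw [h5', h6] at h4
    exact absurd h4 (lt_irrefl _)

/-- the angles of the cuts are far from each other -/
lemma ang_far (f : F0) (α : Option F0) {U : ℝ} (hU : |U| < 1 / 4)
    (h : ang F0 α = f.1.1 + (U : AddCircle (1 : ℝ))) : α = some f ∧ U = 0 := by
  have h1 := (abs_lt.1 hU).1
  have h2 := (abs_lt.1 hU).2
  have h00 : (0 : AddCircle (1 : ℝ)) = ((0 : ℝ) : AddCircle (1 : ℝ)) := by simp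
  have zero_case : ∀ r : ℝ, |r| = 1 / 4 →
      (0 : AddCircle (1 : ℝ)) = (r : AddCircle (1 : ℝ)) + (U : AddCircle (1 : ℝ)) → False := by
    intro r hr he
    rw [h00, ← AddCircle.coe_add] at he
    rcases (abs_eq (by norm_num)).1 hr with hr | hr
    · exact coe_ne (by linarith) (by rw [abs_lt]; constructor <;> linarith) he
    · exact coe_ne (by linarith) (by rw [abs_lt]; constructor <;> linarith) he
  have cross : ∀ r r' : ℝ, r ≠ r' → |r - r'| = 1 / 2 →
      (r : AddCircle (1 : ℝ)) = (r' : AddCircle (1 : ℝ)) + (U : AddCircle (1 : ℝ)) → False := by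
    intro r r' _ hr he
    rw [← AddCircle.coe_add] at he
    rcases (abs_eq (by norm_num)).1 hr with hr | hr
    · exact coe_ne (by linarith) (by rw [abs_lt]; constructor <;> linarith) he
    · exact coe_ne (by linarith) (by rw [abs_lt]; constructor <;> linarith) he
  have same : ∀ θ : AddCircle (1 : ℝ), θ = θ + (U : AddCircle (1 : ℝ)) → U = 0 := by
    intro θ he
    apply CylSys.coe_small (left_eq_add.1 he)
    linarith
  rcases opt_cases α with rfl | rfl | rfl <;> rcases f_cases f with rfl | rfl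
  · exact (zero_case (-(1 / 4)) (by rw [abs_neg]; exact abs_of_pos (by norm_num)) h).elim
  · exact (zero_case (1 / 4) (abs_of_pos (by norm_num)) h).elim
  · exact ⟨rfl, same _ h⟩
  · exact (cross (-(1 / 4)) (1 / 4) (by norm_num) (by norm_num) h).elim
  · exact (cross (1 / 4) (-(1 / 4)) (by norm_num) (by norm_num) h).elim
  · exact ⟨rfl, same _ h⟩

end P5

end AdT
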