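import Pool.Agent.Helper88.AdT.MuRetr

/-!
AT-5, part 1: general tools for crossing words in the annulus.
-/

open Matrix Real Topology Filter Set

noncomputable section

namespace AdT

namespace P5

open MuRetr

section Tools

variable {Y Z : Type} [TopologicalSpace Y] [TopologicalSpace Z] {S S' : Set Z} {x y z w : Z}

lemma freeIn_push {C : Set Y} (F : Y → Z) (hF : Continuous F) (hC : MapsTo F C S) {a b : Y}
    {c : Path a a} {c' : Path b b} (h : FreeIn C c c') : FreeIn S (c.map hF) (c'.map hF) := by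
  obtain ⟨δ, h⟩ := h
  refine ⟨δ.map hF, ?_⟩
  refine homIn_push F hF hC h (fun t => rfl) ?_
  exact lf_trans _ (fun _ => rfl) (lf_trans _ (fun _ => rfl) (fun _ => rfl))

lemma freeIn_congr₂ {x' y' : Z} {c : Path x x} {c₂ : Path x' x'} {γ : Path y y}
    {γ' : Path y' y'} (h : ∀ t, c t = c₂ t) (h' : ∀ t, γ t = γ' t) (H : FreeIn S c γ) :
    FreeIn S c₂ γ' := by
  have hx : x = x' := by have := h 0; simpa using this
  have hy : y = y' := by have := h' 0; simpa using this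
  subst hx
  subst hy
  have e1 : c = c₂ := Path.ext (funext h)
  have e2 : γ = γ' := Path.ext (funext h')
  rwa [e1, e2] at H

lemma freeIn_mono (hS : S ⊆ S') {c : Path x x} {c' : Path y y} (h : FreeIn S c c') :
    FreeIn S' c c' := by
  obtain ⟨δ, h⟩ := h
  exact ⟨δ, homIn_mono hS h⟩

lemma homIn_trans_symm {δ : Path x y} (h : ∀ t, δ t ∈ S) :
    HomIn S (δ.trans δ.symm) (Path.refl x) := by
  have h2 : ∀ t, Path.refl x t ∈ S := fun t => by simpa using h 0
  rw [homIn_iff _ _ (trans_mem h (symm_mem h)) h2, lft_trans h (symm_mem h)]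
  have e1 : lft δ.symm (symm_mem h) = (lft δ h).symm := rfl
  have e2 : lft (Path.refl x) h2 = Path.refl _ := rfl
  rw [e1, e2]
  exact ⟨(Path.Homotopy.reflTransSymm _).symm⟩

lemma homIn_subpath (γ : Path x y) (h : ∀ t, γ t ∈ S) (t₀ t₁ t₂ : unitInterval) :
    HomIn S ((γ.subpath t₀ t₁).trans (γ.subpath t₁ t₂)) (γ.subpath t₀ t₂) := by
  have hs : ∀ s₀ s₁ t, γ.subpath s₀ s₁ t ∈ S := fun _ _ _ => h _
  rw [homIn_iff _ _ (trans_mem (hs _ _) (hs _ _)) (hs _ _), lft_trans (hs _ _) (hs _ _)]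
  exact ⟨Path.Homotopy.subpathTransSubpath (lft γ h) t₀ t₁ t₂⟩

/-- a free homotopy given as a map of the square -/
lemma freeIn_of_family (K : unitInterval × unitInterval → Z) (hK : Continuous K)
    (hS : ∀ p, K p ∈ S) (h01 : ∀ τ, K (τ, 0) = K (τ, 1)) (c : Path x x) (c' : Path y y)
    (hc : ∀ t, c t = K (0, t)) (hc' : ∀ t, c' t = K (1, t)) : FreeIn S c c' := by
  have hx : K (0, 0) = x := by rw [← hc]; simp
  have hy : K (1, 0) = y := by rw [← hc']; simp
  let δ : Path x y :=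
    { toFun := fun τ => K (τ, 0)
      continuous_toFun := hK.comp (by fun_prop)
      source' := hx
      target' := hy }
  refine ⟨δ, ?_⟩
  let pr : ℝ → unitInterval := projIcc (0 : ℝ) 1 zero_le_one
  have hpr : Continuous pr := continuous_projIcc
  let F : ℝ × ℝ → Z := fun p => K (pr p.1, pr p.2)
  have hF : Continuous F := hK.comp ((hpr.comp continuous_fst).prodMk (hpr.comp continuous_snd))
  have pv : ∀ t : unitInterval, pr (t : ℝ) = t := fun t => projIcc_val _ t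
  have p0 : pr 0 = 0 := pv 0
  have p1 : pr 1 = 1 := pv 1
  have ps : ∀ t : unitInterval, pr (1 - (t : ℝ)) = unitInterval.symm t := fun t => by
    rw [← pv (unitInterval.symm t)]; rfl
  refine homIn_lift (C := univ) convex_univ F hF (fun p _ => hS _) (seg (0, 0) (0, 1))
    ((seg (0, 0) (1, 0)).trans ((seg (1, 0) (1, 1)).trans (seg (1, 1) (0, 1))))
    (fun _ => mem_univ _) (fun _ => mem_univ _) ?_ ?_
  · intro t
    rw [hc, seg_apply]
    show _ = K (pr _, pr _)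
    simp [p0, pv]
  · refine lf_trans _ ?_ (lf_trans _ ?_ ?_)
    · intro t
      rw [seg_apply]
      show K (t, 0) = K (pr _, pr _)
      simp [p0, pv]
    · intro t
      rw [hc', seg_apply]
      show _ = K (pr _, pr _)
      simp [p1, pv]
    · intro t
      rw [seg_apply]
      show K (unitInterval.symm t, 0) = K (pr _, pr _)
      rw [h01]
      have : (1 : ℝ) + t * (0 - 1) = 1 - t := by ring
      simp only [this, ps, sub_self, mul_zero, add_zero, p1]

lemma free_mem {S : Set Z} {c : Path x x} {c' : Path y y} (h : FreeIn S c c') :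
    (∀ t, c t ∈ S) ∧ ∀ t, c' t ∈ S := by
  obtain ⟨δ, h⟩ := h
  refine ⟨(homIn_mem h).1, fun t => ?_⟩
  have h2 := (homIn_mem h).2
  -- the middle part of the concatenation
  have hsub : ∀ s : unitInterval, (c'.trans δ.symm) s ∈ S := by
    intro s
    have hs : ((1 + (s : ℝ)) / 2) ∈ unitInterval :=
      ⟨by have := s.2.1; linarith, by have := s.2.2; linarith⟩
    have := h2 ⟨(1 + (s : ℝ)) / 2, hs⟩
    rw [Path.trans_apply] at this
    split_ifs at this with hle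
    · have hs0 : (s : ℝ) = 0 := le_antisymm (by simp at hle; linarith) s.2.1
      have hs0' : s = 0 := Subtype.ext hs0
      subst hs0'
      rw [Path.source]
      have e : (⟨2 * ((1 + ((0 : unitInterval) : ℝ)) / 2), (unitInterval.mul_pos_mem_iff two_pos).2
        ⟨hs.1, hle⟩⟩ : unitInterval) = 1 := Subtype.ext (by simp)
      have := e ▸ this
      simpa using this
    · have e : (⟨2 * ((1 + (s : ℝ)) / 2) - 1, unitInterval.two_mul_sub_one_mem_iff.2
        ⟨(not_le.1 hle).le, hs.2⟩⟩ : unitInterval) = s := Subtype.ext (by simp; ring)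
      have := e ▸ this
      simpa using this
  have hs : ((t : ℝ) / 2) ∈ unitInterval :=
    ⟨by have := t.2.1; linarith, by have := t.2.2; linarith⟩
  have h3 := hsub ⟨(t : ℝ) / 2, hs⟩
  rw [Path.trans_apply] at h3
  have hle : (t : ℝ) / 2 ≤ 1 / 2 := by have := t.2.2; linarith
  rw [dif_pos hle] at h3
  have e : (⟨2 * ((t : ℝ) / 2), (unitInterval.mul_pos_mem_iff two_pos).2
        ⟨hs.1, hle⟩⟩ : unitInterval) = t := Subtype.ext (by simp; ring)
  rwa [e] at h3

lemma path_mem_of_free {S : Set Z} {c : Path x x} {c' : Path y y} {δ : Path x y}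
    (h : HomIn S c (δ.trans (c'.trans δ.symm))) : ∀ t, δ t ∈ S := by
  intro t
  have h2 := (homIn_mem h).2
  have hs : ((t : ℝ) / 2) ∈ unitInterval :=
    ⟨by have := t.2.1; linarith, by have := t.2.2; linarith⟩
  have h3 := h2 ⟨(t : ℝ) / 2, hs⟩
  rw [Path.trans_apply] at h3
  have hle : (t : ℝ) / 2 ≤ 1 / 2 := by have := t.2.2; linarith
  rw [dif_pos hle] at h3
  have e : (⟨2 * ((t : ℝ) / 2), (unitInterval.mul_pos_mem_iff two_pos).2
        ⟨hs.1, hle⟩⟩ : unitInterval) = t := Subtype.ext (by simp; ring)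
  rwa [e] at h3

end Tools

/-- crossing words for the complement of `F` -/
structure CD (F : Set Cyl) where
  η : ℝ
  ω : ∀ {x y : Cyl}, Path x y → FreeGroup (Option F)
  pos : 0 < η
  lt : η < 1 / 2
  hom : ∀ (x y : Cyl) (γ γ' : Path x y), range γ ⊆ Fᶜ → range γ' ⊆ Fᶜ →
      (HomIn Fᶜ γ γ' ↔ ω γ = ω γ')
  mul : ∀ (x y z : Cyl) (γ : Path x y) (γ' : Path y z), range γ ⊆ Fᶜ → range γ' ⊆ Fᶜ →
      ω (γ.trans γ') = ω γ * ω γ'
  cut : ∀ (x y : Cyl) (γ : Path x y), range γ ⊆ cut0 F → ω γ = 1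
  box : ∀ (α : Option F) (x y : Cyl) (γ : Path x y), range γ ⊆ bx F η α →
      ω γ = (sig (bxr F η) α x)⁻¹ * sig (bxr F η) α y
  avoid : ∀ (B : Set (Option F)) (x y : Cyl) (γ : Path x y),
      range γ ⊆ Fᶜ → (∀ α ∈ B, Disjoint (range γ) (arc F α)) →
      ω γ ∈ Subgroup.closure (FreeGroup.of '' Bᶜ)
  surj : ∀ (B : Set (Option F)) (x y : Cyl), x ∈ cut0 F → y ∈ cut0 F →
      ∀ g ∈ Subgroup.closure (FreeGroup.of '' B),
        ∃ γ : Path x y, range γ ⊆ Fᶜ ∧ (∀ α ∉ B, Disjoint (range γ) (arc F α)) ∧ ω γ = g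

section CDlemmas

variable {F : Set Cyl} (D : CD F) {x y z : Cyl}

lemma CD.refl (hx : x ∉ F) : D.ω (Path.refl x) = 1 := by
  have hr : range (Path.refl x) ⊆ Fᶜ := by
    rintro _ ⟨t, rfl⟩
    simpa using hx
  have h := D.mul x x x (Path.refl x) (Path.refl x) hr hr
  rw [Path.refl_trans_refl] at h
  exact left_eq_mul.mp h

lemma mem_of_range {S : Set Cyl} {γ : Path x y} (h : range γ ⊆ S) : ∀ t, γ t ∈ S :=
  fun t => h ⟨t, rfl⟩

lemma range_of_mem {S : Set Cyl} {γ : Path x y} (h : ∀ t, γ t ∈ S) : range γ ⊆ S := by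
  rintro _ ⟨t, rfl⟩
  exact h t

lemma CD.symm {γ : Path x y} (h : ∀ t, γ t ∈ Fᶜ) : D.ω γ.symm = (D.ω γ)⁻¹ := by
  have hx : x ∉ F := by simpa using h 0
  have h1 : HomIn Fᶜ (γ.trans γ.symm) (Path.refl x) := homIn_trans_symm h
  have h2 := (D.hom _ _ _ _ (range_of_mem (homIn_mem h1).1) (range_of_mem (homIn_mem h1).2)).1 h1
  rw [D.mul _ _ _ _ _ (range_of_mem h) (range_of_mem (symm_mem h)), D.refl hx] at h2
  exact eq_inv_of_mul_eq_one_right h2

lemma CD.homEq {γ γ' : Path x y} (h : HomIn Fᶜ γ γ') : D.ω γ = D.ω γ' :=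
  (D.hom _ _ _ _ (range_of_mem (homIn_mem h).1) (range_of_mem (homIn_mem h).2)).1 h

lemma CD.trans {γ : Path x y} {γ' : Path y z} (h : ∀ t, γ t ∈ Fᶜ) (h' : ∀ t, γ' t ∈ Fᶜ) :
    D.ω (γ.trans γ') = D.ω γ * D.ω γ' :=
  D.mul _ _ _ _ _ (range_of_mem h) (range_of_mem h')

lemma CD.conj_of_free {c : Path x x} {c' : Path y y} (h : FreeIn Fᶜ c c') :
    IsConj (D.ω c) (D.ω c') := by
  have hm := free_mem h
  obtain ⟨δ, h⟩ := h
  have hδ := path_mem_of_free h
  have h1 := D.homEq h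
  rw [D.trans hδ (trans_mem hm.2 (symm_mem hδ)), D.trans hm.2 (symm_mem hδ), D.symm hδ] at h1
  rw [isConj_comm, isConj_iff]
  exact ⟨D.ω δ, by rw [h1]; group⟩

/-- horizontal path -/
def hpath (p : Cyl) (s : ℝ) : Path p (p.1 + (s : AddCircle (1 : ℝ)), p.2) where
  toFun t := (p.1 + (((t : ℝ) * s : ℝ) : AddCircle (1 : ℝ)), p.2)
  continuous_toFun := by
    refine Continuous.prodMk (continuous_const.add ?_) continuous_const
    exact (AddCircle.continuous_mk' 1).comp (by fun_prop)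
  source' := by simp
  target' := by simp

lemma exists_to_cut (hF : F.Finite) (p : Cyl) (hp : p ∉ F) :
    ∃ (q : Cyl) (γ : Path p q), q ∈ cut0 F ∧ ∀ t, γ t ∈ Fᶜ := by
  let Θ : Set (AddCircle (1 : ℝ)) := insert 0 (Prod.fst '' F)
  have hΘ : Θ.Finite := (hF.image _).insert _
  have hc : Continuous fun s : ℝ => (s : AddCircle (1 : ℝ)) := AddCircle.continuous_mk' 1
  have ev : ∀ᶠ s : ℝ in 𝓝[>] 0, ∀ θ ∈ Θ, p.1 + (s : AddCircle (1 : ℝ)) ≠ θ := by
    rw [hΘ.eventually_all]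
    intro θ _
    by_cases h : p.1 = θ
    · have h1 : ∀ᶠ s : ℝ in 𝓝[>] 0, s ∈ Ioo (0 : ℝ) 1 := Ioo_mem_nhdsGT one_pos
      filter_upwards [h1] with s hs he
      rw [h, add_eq_left, AddCircle.coe_eq_zero_iff] at he
      obtain ⟨n, hn⟩ := he
      have hn' : (n : ℝ) = s := by simpa using hn
      have h2 := hs.1
      have h3 := hs.2
      rw [← hn'] at h2 h3
      have : (0 : ℤ) < n := by exact_mod_cast h2
      have : n < (1 : ℤ) := by exact_mod_cast h3
      omega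
    · have h1 : Tendsto (fun s : ℝ => p.1 + (s : AddCircle (1 : ℝ))) (𝓝 0) (𝓝 (p.1)) := by
        have h0 : Continuous fun s : ℝ => p.1 + (s : AddCircle (1 : ℝ)) := continuous_const.add hc
        have := h0.tendsto 0
        simpa using this
      have h2 : ∀ᶠ s : ℝ in 𝓝 0, p.1 + (s : AddCircle (1 : ℝ)) ≠ θ :=
        h1.eventually (isOpen_ne.mem_nhds h)
      exact h2.filter_mono nhdsWithin_le_nhds
  obtain ⟨u, hu, hsub⟩ := (mem_nhdsGT_iff_exists_Ioc_subset).1 ev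
  have hu' : (0 : ℝ) < u := hu
  refine ⟨_, hpath p u, ?_, ?_⟩
  · have h1 := hsub ⟨hu', le_refl u⟩
    refine ⟨fun h => ?_, fun α h => ?_⟩
    · exact h1 _ (Or.inr ⟨_, h, rfl⟩) rfl
    · cases α with
      | none => exact h1 0 (Or.inl rfl) h.1
      | some f => exact h1 f.1.1 (Or.inr ⟨f.1, f.2, rfl⟩) h.1
  · intro t ht
    rcases eq_or_lt_of_le t.2.1 with h0 | h0
    · have : t = 0 := Subtype.ext h0.symm
      rw [this, Path.source] at ht
      exact hp ht
    · have h1 := hsub (show (t : ℝ) * u ∈ Ioc 0 u from ⟨mul_pos h0 hu',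
        by nlinarith [t.2.2]⟩)
      exact h1 _ (Or.inr ⟨_, ht, rfl⟩) rfl

lemma CD.conn (hF : F.Finite) (x y : Cyl) (hx : x ∉ F) (hy : y ∉ F)
    (g : FreeGroup (Option F)) : ∃ δ : Path x y, (∀ t, δ t ∈ Fᶜ) ∧ D.ω δ = g := by
  obtain ⟨x', a, hx', ha⟩ := exists_to_cut hF x hx
  obtain ⟨y', b, hy', hb⟩ := exists_to_cut hF y hy
  obtain ⟨l, hl, -, hω⟩ := D.surj univ x' y' hx' hy' ((D.ω a)⁻¹ * g * D.ω b) (by
    rw [image_univ, FreeGroup.closure_range_of]
    exact Subgroup.mem_top _)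
  have hl' := mem_of_range hl
  refine ⟨a.trans (l.trans b.symm), trans_mem ha (trans_mem hl' (symm_mem hb)), ?_⟩
  rw [D.trans ha (trans_mem hl' (symm_mem hb)), D.trans hl' (symm_mem hb), D.symm hb, hω]
  group

lemma CD.free_of_conj (hF : F.Finite) {c : Path x x} {c' : Path y y} (hc : ∀ t, c t ∈ Fᶜ)
    (hc' : ∀ t, c' t ∈ Fᶜ) (h : IsConj (D.ω c) (D.ω c')) : FreeIn Fᶜ c c' := by
  rw [isConj_iff] at h
  obtain ⟨g, hg⟩ := h
  have hx : x ∉ F := by simpa using hc 0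
  have hy : y ∉ F := by simpa using hc' 0
  obtain ⟨δ, hδ, hω⟩ := D.conn hF x y hx hy g⁻¹
  refine ⟨δ, ?_⟩
  rw [D.hom _ _ _ _ (range_of_mem hc)
    (range_of_mem (trans_mem hδ (trans_mem hc' (symm_mem hδ)))),
    D.trans hδ (trans_mem hc' (symm_mem hδ)), D.trans hc' (symm_mem hδ), D.symm hδ, hω, ← hg]
  group

/-- subdivision argument -/
lemma CD.subdiv (u : Cyl → FreeGroup (Option F)) (H : Subgroup (FreeGroup (Option F)))
    {ι : Type} (O : ι → Set Cyl) (hO : ∀ i, IsOpen (O i))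
    (hloc : ∀ (i : ι) (a b : Cyl) (p : Path a b), (∀ t, p t ∈ Fᶜ) → (∀ t, p t ∈ O i) →
      u a * D.ω p * (u b)⁻¹ ∈ H)
    (γ : Path x y) (hγ : ∀ t, γ t ∈ Fᶜ) (hcov : ∀ t, ∃ i, γ t ∈ O i) :
    u x * D.ω γ * (u y)⁻¹ ∈ H := by
  obtain ⟨t, ht0, hmono, ⟨n, hn⟩, hsub⟩ :=
    exists_monotone_Icc_subset_open_cover_unitInterval (c := fun i => γ ⁻¹' O i)
      (fun i => (hO i).preimage γ.continuous)
      (fun s _ => by
        obtain ⟨i, hi⟩ := hcov s
        exact mem_iUnion.2 ⟨i, hi⟩)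
  have hs : ∀ s₀ s₁ t, γ.subpath s₀ s₁ t ∈ Fᶜ := fun _ _ _ => hγ _
  have key : ∀ m : ℕ, u (γ 0) * D.ω (γ.subpath 0 (t m)) * (u (γ (t m)))⁻¹ ∈ H := by
    intro m
    induction m with
    | zero =>
      have hx : γ 0 ∉ F := hγ 0
      have e : D.ω (γ.subpath 0 0) = 1 := by
        rw [Path.subpath_self]; exact D.refl hx
      rw [ht0, e]
      simp
    | succ m ih =>
      obtain ⟨i, hi⟩ := hsub m
      have h1 : ∀ s, γ.subpath (t m) (t (m + 1)) s ∈ O i := by
        intro s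
        have h2 : γ.subpath (t m) (t (m + 1)) s ∈ range (γ.subpath (t m) (t (m + 1))) := ⟨s, rfl⟩
        rw [Path.range_subpath_of_le _ _ _ (hmono (Nat.le_succ m))] at h2
        obtain ⟨r, hr, hr'⟩ := h2
        rw [← hr']
        exact hi hr
      have h3 := hloc i _ _ _ (hs _ _) h1
      have h4 := D.homEq (homIn_subpath γ hγ 0 (t m) (t (m + 1)))
      rw [D.trans (hs _ _) (hs _ _)] at h4
      rw [← h4]
      have := H.mul_mem ih h3
      convert this using 1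
      group
  have h5 := key n
  rw [hn n le_rfl] at h5
  have h6 : D.ω (γ.subpath 0 1) = D.ω γ ∧ γ 0 = x ∧ γ 1 = y := by
    refine ⟨?_, γ.source, γ.target⟩
    have h7 : ∀ (x' y' : Cyl) (hx : x' = x) (hy : y' = y), D.ω (γ.cast hx hy) = D.ω γ := by
      rintro x' y' rfl rfl
      rfl
    rw [Path.subpath_zero_one]
    exact h7 _ _ _ _
  rw [h6.1, h6.2.1, h6.2.2] at h5
  exact h5

/-- powers -/
lemma CD.npw {γ : Path x x} (h : ∀ t, γ t ∈ Fᶜ) (n : ℕ) :
    (∀ t, AdT.npw γ n t ∈ Fᶜ) ∧ D.ω (AdT.npw γ n) = D.ω γ ^ n := by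
  have hx : x ∉ F := by simpa using h 0
  induction n with
  | zero => exact ⟨fun t => by simpa [AdT.npw] using hx, by simpa [AdT.npw] using D.refl hx⟩
  | succ n ih =>
    refine ⟨trans_mem h ih.1, ?_⟩
    show D.ω (γ.trans (AdT.npw γ n)) = _
    rw [D.trans h ih.1, ih.2, pow_succ']

lemma CD.pw {γ : Path x x} (h : ∀ t, γ t ∈ Fᶜ) (k : ℤ) :
    (∀ t, AdT.pw γ k t ∈ Fᶜ) ∧ D.ω (AdT.pw γ k) = D.ω γ ^ k := by
  rcases k with n | n
  · have := D.npw h n
    refine ⟨this.1, ?_⟩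
    show D.ω (AdT.npw γ n) = _
    rw [this.2]
    simp
  · have := D.npw (symm_mem h) (n + 1)
    refine ⟨this.1, ?_⟩
    show D.ω (AdT.npw γ.symm (n + 1)) = _
    rw [this.2, D.symm h, zpow_negSucc, inv_pow]

end CDlemmas

end P5

end AdT
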