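import Pool.Agent.Helper88.AdT.P5Base

/-!
AT-5, part 2: coordinates on the annulus; the statements P5a and P5b.
-/

open Matrix Real Topology Filter Set

noncomputable section

namespace AdT

namespace P5

open MuRetr

/-- `√(1 + T²)` -/
def rt (T : ℝ) : ℝ := √(1 + T ^ 2)

lemma rt_pos (T : ℝ) : 0 < rt T := Real.sqrt_pos.mpr (by positivity)

lemma rt_sq (T : ℝ) : rt T ^ 2 = 1 + T ^ 2 := Real.sq_sqrt (by positivity)

lemma continuous_rt : Continuous rt := by
  unfold rt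
  fun_prop

/-- the circle coordinate -/
def uC (N : Qd) : ℂ := ⟨XN N / rt (TN N), YN N / rt (TN N)⟩

lemma uC_normSq (N : Qd) : (XN N / rt (TN N)) ^ 2 + (YN N / rt (TN N)) ^ 2 = 1 := by
  have h := XYT N
  have h1 := rt_sq (TN N)
  have h2 := rt_pos (TN N)
  rw [div_pow, div_pow, ← add_div, h1]
  rw [div_eq_one_iff_eq (by positivity)]
  linarith

lemma uC_norm (N : Qd) : ‖uC N‖ = 1 := by
  have h : Complex.normSq (uC N) = 1 := by
    rw [Complex.normSq_apply, uC]
    have := uC_normSq N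
    nlinarith
  rw [Complex.norm_def, h, Real.sqrt_one]

def Uc (N : Qd) : Circle := ⟨uC N, mem_sphere_zero_iff_norm.2 (uC_norm N)⟩

lemma continuous_Uc : Continuous Uc := by
  unfold Uc
  refine Continuous.subtype_mk ?_ _
  have h : uC = fun N => ((XN N / rt (TN N) : ℝ) : ℂ) + ((YN N / rt (TN N) : ℝ) : ℂ) * Complex.I := by
    funext N
    apply Complex.ext <;> simp [uC]
  rw [h]
  have h1 : Continuous fun N => rt (TN N) := continuous_rt.comp continuous_TN
  have h2 : ∀ N, rt (TN N) ≠ 0 := fun N => (rt_pos _).ne'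
  have h3 : Continuous fun N => XN N / rt (TN N) := continuous_XN.div h1 h2
  have h4 : Continuous fun N => YN N / rt (TN N) := continuous_YN.div h1 h2
  exact (Complex.continuous_ofReal.comp h3).add
    ((Complex.continuous_ofReal.comp h4).mul continuous_const)

/-- the point with coordinates `X, Y, T` -/
def mkq (X Y T : ℝ) (h : X ^ 2 + Y ^ 2 - T ^ 2 = 1) : Qd :=
  ⟨!![X, Y + T; Y - T, -X], by simp, by rw [Matrix.det_fin_two_of]; nlinarith⟩

@[simp] lemma XN_mkq (X Y T : ℝ) (h) : XN (mkq X Y T h) = X := by simp [XN, mkq]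
@[simp] lemma YN_mkq (X Y T : ℝ) (h) : YN (mkq X Y T h) = Y := by simp [YN, mkq]
@[simp] lemma TN_mkq (X Y T : ℝ) (h) : TN (mkq X Y T h) = T := by simp [TN, mkq]

lemma continuous_mkq {W : Type} [TopologicalSpace W] {X Y T : W → ℝ} (hX : Continuous X)
    (hY : Continuous Y) (hT : Continuous T) (h : ∀ w, X w ^ 2 + Y w ^ 2 - T w ^ 2 = 1) :
    Continuous fun w => mkq (X w) (Y w) (T w) (h w) := by
  unfold mkq
  refine Continuous.subtype_mk ?_ _
  refine continuous_matrix ?_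
  intro i j
  fin_cases i <;> fin_cases j
  · exact hX
  · exact hY.add hT
  · exact hY.sub hT
  · exact hX.neg

lemma circ_eq (u : Circle) (T : ℝ) :
    (rt T * (u : ℂ).re) ^ 2 + (rt T * (u : ℂ).im) ^ 2 - T ^ 2 = 1 := by
  have h := Circle.normSq_coe u
  rw [Complex.normSq_apply] at h
  have h1 := rt_sq T
  have : (rt T * (u : ℂ).re) ^ 2 + (rt T * (u : ℂ).im) ^ 2 =
      rt T ^ 2 * ((u : ℂ).re * (u : ℂ).re + (u : ℂ).im * (u : ℂ).im) := by ring
  rw [this, h, h1]
  ring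

/-- polar coordinates of the annulus -/
def Phi : Qd ≃ₜ Cyl where
  toFun N := ((AddCircle.homeomorphCircle one_ne_zero).symm (Uc N), TN N)
  invFun p := mkq (rt p.2 * (AddCircle.toCircle p.1 : ℂ).re)
    (rt p.2 * (AddCircle.toCircle p.1 : ℂ).im) p.2 (circ_eq _ _)
  left_inv N := by
    have h : AddCircle.toCircle ((AddCircle.homeomorphCircle one_ne_zero).symm (Uc N)) = Uc N := by
      rw [← AddCircle.homeomorphCircle_apply one_ne_zero, Homeomorph.apply_symm_apply]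
    have h2 := (rt_pos (TN N)).ne'
    apply qd_ext
    · rw [XN_mkq, h]
      show rt (TN N) * (XN N / rt (TN N)) = _
      field_simp
    · rw [YN_mkq, h]
      show rt (TN N) * (YN N / rt (TN N)) = _
      field_simp
    · rw [TN_mkq]
  right_inv p := by
    refine Prod.ext ?_ (by simp)
    show (AddCircle.homeomorphCircle one_ne_zero).symm (Uc _) = p.1
    rw [Homeomorph.symm_apply_eq, AddCircle.homeomorphCircle_apply]
    apply Subtype.ext
    have h2 := (rt_pos p.2).ne'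
    apply Complex.ext
    · show XN _ / rt (TN _) = _
      rw [XN_mkq, TN_mkq]
      field_simp
    · show YN _ / rt (TN _) = _
      rw [YN_mkq, TN_mkq]
      field_simp
  continuous_toFun :=
    ((Homeomorph.continuous _).comp continuous_Uc).prodMk continuous_TN
  continuous_invFun := by
    have h1 : Continuous fun p : Cyl => ((AddCircle.toCircle p.1 : Circle) : ℂ) :=
      continuous_subtype_val.comp (AddCircle.continuous_toCircle.comp continuous_fst)
    have h2 : Continuous fun p : Cyl => rt p.2 := continuous_rt.comp continuous_snd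
    exact continuous_mkq (h2.mul (Complex.continuous_re.comp h1))
      (h2.mul (Complex.continuous_im.comp h1)) continuous_snd _

lemma Phi_snd (N : Qd) : (Phi N).2 = TN N := rfl

lemma Phi_fst (N : Qd) : AddCircle.toCircle (Phi N).1 = Uc N := by
  show AddCircle.toCircle ((AddCircle.homeomorphCircle one_ne_zero).symm (Uc N)) = Uc N
  rw [← AddCircle.homeomorphCircle_apply one_ne_zero, Homeomorph.apply_symm_apply]

lemma Phi_fst_eq_iff (N : Qd) (r : ℝ) : (Phi N).1 = (r : AddCircle (1 : ℝ)) ↔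
    XN N = rt (TN N) * cos (2 * π * r) ∧ YN N = rt (TN N) * sin (2 * π * r) := by
  have hinj := AddCircle.injective_toCircle (T := (1 : ℝ)) one_ne_zero
  have h2 := (rt_pos (TN N)).ne'
  rw [← hinj.eq_iff, Phi_fst, AddCircle.toCircle_apply_mk, div_one, ← Circle.coe_inj,
    Circle.coe_exp]
  have e : (Uc N : ℂ) = uC N := rfl
  have hexp : Complex.exp (((2 * π * r : ℝ) : ℂ) * Complex.I) =
      ⟨cos (2 * π * r), sin (2 * π * r)⟩ := by
    apply Complex.ext
    · rw [Complex.exp_ofReal_mul_I_re]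
    · rw [Complex.exp_ofReal_mul_I_im]
  rw [e, hexp, uC, Complex.mk.injEq, div_eq_iff h2, div_eq_iff h2, mul_comm _ (rt _),
    mul_comm _ (rt _)]

/-- twist of the standard annulus -/
def Tw (α : ℝ → AddCircle (1 : ℝ)) (hα : Continuous α) : Cyl ≃ₜ Cyl where
  toFun p := (p.1 - α p.2, p.2)
  invFun p := (p.1 + α p.2, p.2)
  left_inv p := by simp
  right_inv p := by simp
  continuous_toFun := (continuous_fst.sub (hα.comp continuous_snd)).prodMk continuous_snd
  continuous_invFun := (continuous_fst.add (hα.comp continuous_snd)).prodMk continuous_snd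

/-- the crossing data exist -/
lemma exists_CD (hC : Cyl2Stmt) (F : Set Cyl) (hF : F.Finite) : Nonempty (CD F) := by
  obtain ⟨η, ω, h1, h2, h3, h4, h5, h6, h7, h8⟩ := hC F hF
  exact ⟨⟨η, ω, h1, h2, h3, h4, h5, h6, h7, h8⟩⟩

lemma ell_pos {q : Qd} (hq : |XN q| < 1) (T : ℝ) : 0 < 1 + T ^ 2 - XN q ^ 2 := by
  have h := (sq_lt_one_iff_abs_lt_one (XN q)).2 hq
  nlinarith [sq_nonneg T]

lemma YN_ne {q : Qd} (hq : |XN q| < 1) : YN q ≠ 0 := by
  intro h
  have h1 := XYT q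
  have h2 := ell_pos hq (TN q)
  rw [h] at h1
  nlinarith

lemma pt_eqn {q : Qd} (hq : |XN q| < 1) (T : ℝ) :
    XN q ^ 2 + (YN q / |YN q| * √(1 + T ^ 2 - XN q ^ 2)) ^ 2 - T ^ 2 = 1 := by
  have h1 := YN_ne hq
  rw [mul_pow, div_pow, sq_abs, div_self (pow_ne_zero 2 h1), one_mul,
    Real.sq_sqrt (ell_pos hq T).le]
  ring

/-- the point of the curve `ell q` at height `T` -/
def pt (q : Qd) (hq : |XN q| < 1) (T : ℝ) : Qd :=
  mkq (XN q) (YN q / |YN q| * √(1 + T ^ 2 - XN q ^ 2)) T (pt_eqn hq T)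

lemma continuous_pt (q : Qd) (hq : |XN q| < 1) : Continuous (pt q hq) := by
  unfold pt
  refine continuous_mkq continuous_const ?_ continuous_id _
  fun_prop

lemma mem_ell_iff (q : Qd) (hq : |XN q| < 1) (N : Qd) : N ∈ ell q ↔ N = pt q hq (TN N) := by
  have h1 := YN_ne hq
  have hpos := ell_pos hq (TN N)
  have habs : 0 < |YN q| := abs_pos.2 h1
  have hs : 0 < √(1 + TN N ^ 2 - XN q ^ 2) := Real.sqrt_pos.2 hpos
  constructor
  · rintro ⟨hX, hY⟩
    have h2 := XYT N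
    have h3 := pt_eqn hq (TN N)
    rw [hX] at h2
    apply qd_ext
    · simp [pt, hX]
    · rw [pt, YN_mkq]
      have hsq : YN N ^ 2 = (YN q / |YN q| * √(1 + TN N ^ 2 - XN q ^ 2)) ^ 2 := by linarith
      have hsgn : 0 < YN N * (YN q / |YN q| * √(1 + TN N ^ 2 - XN q ^ 2)) := by
        have : YN N * (YN q / |YN q| * √(1 + TN N ^ 2 - XN q ^ 2)) =
            YN q * YN N * (√(1 + TN N ^ 2 - XN q ^ 2) / |YN q|) := by field_simp
        rw [this]
        positivity
      rcases sq_eq_sq_iff_eq_or_eq_neg.1 hsq with h | h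
      · exact h
      · rw [h] at hsgn
        nlinarith [sq_nonneg (YN q / |YN q| * √(1 + TN N ^ 2 - XN q ^ 2))]
    · simp [pt]
  · intro h
    have hX : XN N = XN q := by rw [h]; simp [pt]
    have hY : YN N = YN q / |YN q| * √(1 + TN N ^ 2 - XN q ^ 2) := by
      conv_lhs => rw [h]
      simp [pt]
    refine ⟨hX, ?_⟩
    rw [hY]
    have : YN q * (YN q / |YN q| * √(1 + TN N ^ 2 - XN q ^ 2)) =
        YN q ^ 2 / |YN q| * √(1 + TN N ^ 2 - XN q ^ 2) := by ring
    rw [this]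
    positivity

/-- coordinates in which `ell q` is the line `angle = 0` -/
def Psi (q : Qd) (hq : |XN q| < 1) : Qd ≃ₜ Cyl :=
  Phi.trans (Tw (fun T => (Phi (pt q hq T)).1)
    (continuous_fst.comp (Phi.continuous.comp (continuous_pt q hq))))

lemma Psi_snd (q : Qd) (hq : |XN q| < 1) (N : Qd) : (Psi q hq N).2 = TN N := rfl

lemma Psi_fst (q : Qd) (hq : |XN q| < 1) (N : Qd) :
    (Psi q hq N).1 = (Phi N).1 - (Phi (pt q hq (TN N))).1 := rfl

lemma Psi_zero_iff (q : Qd) (hq : |XN q| < 1) (N : Qd) : (Psi q hq N).1 = 0 ↔ N ∈ ell q := by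
  rw [Psi_fst, sub_eq_zero, mem_ell_iff q hq]
  constructor
  · intro h
    apply Phi.injective
    refine Prod.ext h ?_
    rw [Phi_snd, Phi_snd]
    simp [pt]
  · intro h
    exact congrArg (fun N => (Phi N).1) h

lemma q_mem_ell {q : Qd} (hq : |XN q| < 1) : q ∈ ell q :=
  ⟨rfl, mul_self_pos.2 (YN_ne hq)⟩

section Transfer

variable {q x x₁ x₂ : Qd} {P : Set Qd} (Ψ : Qd ≃ₜ Cyl)

lemma mapsTo_compl : MapsTo Ψ Pᶜ (Ψ '' P)ᶜ := by
  rintro N hN ⟨N', hN', he⟩
  exact hN (Ψ.injective he ▸ hN')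

lemma mapsTo_compl_symm : MapsTo Ψ.symm (Ψ '' P)ᶜ Pᶜ := by
  intro p hp hN
  exact hp ⟨Ψ.symm p, hN, Ψ.apply_symm_apply p⟩

lemma free_down {c : Path x x} {c' : Path x₁ x₁} (h : FreeIn Pᶜ c c') :
    FreeIn (Ψ '' P)ᶜ (c.map Ψ.continuous) (c'.map Ψ.continuous) :=
  freeIn_push Ψ Ψ.continuous (mapsTo_compl Ψ) h

lemma free_up {c : Path x x} {z : Cyl} {c' : Path z z}
    (h : FreeIn (Ψ '' P)ᶜ (c.map Ψ.continuous) c') :
    FreeIn Pᶜ c (c'.map Ψ.symm.continuous) :=
  freeIn_congr₂ (fun _ => Ψ.symm_apply_apply _) (fun _ => rfl)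
    (freeIn_push Ψ.symm Ψ.symm.continuous (mapsTo_compl_symm Ψ) h)

end Transfer

/-- avoiding one half of the line, in terms of crossing words -/
lemma avoid_up {q x₁ : Qd} (hq : |XN q| < 1) {P : Set Qd} (D : CD (Psi q hq '' P))
    (f : Psi q hq '' P) (hf : f.1 = Psi q hq q) {c₁ : Path x₁ x₁}
    (hc : ∀ t, c₁ t ∈ Pᶜ) (h : Disjoint (range c₁) (ellp q)) :
    D.ω (c₁.map (Psi q hq).continuous) ∈
      Subgroup.closure (FreeGroup.of '' ({some f} : Set (Option (Psi q hq '' P)))ᶜ) := by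
  refine D.avoid _ _ _ _ (range_of_mem fun t => mapsTo_compl (Psi q hq) (hc t)) ?_
  intro α hα
  rw [mem_singleton_iff] at hα
  subst hα
  rw [Set.disjoint_left]
  rintro _ ⟨t, rfl⟩ ⟨h1, h2, -⟩
  have h1' : (Psi q hq (c₁ t)).1 = 0 := by
    have : (Psi q hq (c₁ t)).1 = f.1.1 := h1
    rw [this, hf]
    exact (Psi_zero_iff q hq q).2 (q_mem_ell hq)
  have h2' : TN q < TN (c₁ t) := by
    have : f.1.2 < (Psi q hq (c₁ t)).2 := h2
    rwa [hf, Psi_snd, Psi_snd] at this
  exact (Set.disjoint_left.1 h) ⟨t, rfl⟩ ⟨(Psi_zero_iff q hq _).1 h1', h2'.le⟩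

lemma avoid_down {q x₁ : Qd} (hq : |XN q| < 1) {P : Set Qd} (hqP : q ∈ P)
    (D : CD (Psi q hq '' P)) {c₁ : Path x₁ x₁}
    (hc : ∀ t, c₁ t ∈ Pᶜ) (h : Disjoint (range c₁) (ellm q)) :
    D.ω (c₁.map (Psi q hq).continuous) ∈
      Subgroup.closure (FreeGroup.of '' ({none} : Set (Option (Psi q hq '' P)))ᶜ) := by
  refine D.avoid _ _ _ _ (range_of_mem fun t => mapsTo_compl (Psi q hq) (hc t)) ?_
  intro α hα
  rw [mem_singleton_iff] at hα
  subst hα
  rw [Set.disjoint_left]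
  rintro _ ⟨t, rfl⟩ ⟨h1, h2⟩
  have h1' : (Psi q hq (c₁ t)).1 = 0 := h1
  have h2' : TN (c₁ t) < TN q := by
    have := h2 _ ⟨q, hqP, rfl⟩ ((Psi_zero_iff q hq q).2 (q_mem_ell hq))
    exact this
  exact (Set.disjoint_left.1 h) ⟨t, rfl⟩ ⟨(Psi_zero_iff q hq _).1 h1', h2'.le⟩

end P5

open P5 MuRetr

lemma isConj_mul_one {G : Type} [Group G] {a b : G} (hb : b = 1) (h : IsConj a b) : a = 1 := by
  subst hb
  obtain ⟨g, hg⟩ := isConj_iff.1 h
  have : a = g⁻¹ * 1 * g := by rw [← hg]; group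
  rw [this]; group

theorem p5a (hC : Cyl2Stmt) (hFG : FG4Stmt) : P5aStmt := by
  intro q x x₁ x₂ c c₁ c₂ hq h₁ h₂ d₁ d₂
  let Ψ := Psi q hq
  have hfin : (Ψ '' {q}).Finite := (Set.finite_singleton q).image _
  obtain ⟨D⟩ := exists_CD hC (Ψ '' {q}) hfin
  let f : Ψ '' {q} := ⟨Ψ q, q, rfl, rfl⟩
  have k₁ := D.conj_of_free (free_down Ψ h₁)
  have k₂ := D.conj_of_free (free_down Ψ h₂)
  have a₁ := avoid_up hq D f rfl (free_mem h₁).2 d₁
  have a₂ := avoid_down (P := {q}) hq (mem_singleton q) D (free_mem h₂).2 d₂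
  obtain ⟨w, hw, hcw⟩ := hFG _ _ _ _ _ _ a₁ a₂ k₁ k₂
  have hempty : (({some f} : Set (Option (Ψ '' {q})))ᶜ ∩ ({none} : Set (Option (Ψ '' {q})))ᶜ) = ∅ := by
    ext α
    simp only [mem_inter_iff, mem_compl_iff, mem_singleton_iff, mem_empty_iff_false, iff_false,
      not_and, not_not]
    intro hα
    cases α with
    | none => rfl
    | some g =>
      exfalso
      apply hα
      congr 1
      obtain ⟨_, q', hq', rfl⟩ := g
      rw [mem_singleton_iff] at hq'
      subst hq'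
      rfl
  rw [hempty, image_empty, Subgroup.closure_empty, Subgroup.mem_bot] at hw
  have hω := isConj_mul_one hw hcw
  have hcm := (free_mem (free_down Ψ h₁)).1
  have hx : Ψ x ∉ Ψ '' {q} := by
    have h0 := hcm 0
    rwa [Path.source] at h0
  have hhom : HomIn (Ψ '' {q})ᶜ (c.map Ψ.continuous) (Path.refl (Ψ x)) := by
    rw [D.hom _ _ _ _ (range_of_mem hcm) (range_of_mem fun t => by simpa using hx)]
    rw [D.refl hx]
    exact hω
  exact homIn_push Ψ.symm Ψ.symm.continuous (mapsTo_univ _ _) hhom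
    (fun t => (Ψ.symm_apply_apply _).symm) (fun t => (Ψ.symm_apply_apply _).symm)

lemma Dq_X : XN Dq = 1 := by simp [XN, Dq, Dm, nm]
lemma Dq_Y : YN Dq = 0 := by simp [YN, Dq, Dm, nm]
lemma Dq_T : TN Dq = 0 := by simp [TN, Dq, Dm, nm]

lemma cqJ (N : Qd) : XN (cq Jm N) = -XN N ∧ YN (cq Jm N) = -YN N ∧ TN (cq Jm N) = TN N := by
  have h : (cq Jm N).1 = !![0, 1; -1, 0] * !![N.1 0 0, N.1 0 1; N.1 1 0, N.1 1 1] *
      !![0, -1; 1, 0] := by
    rw [← Matrix.eta_fin_two N.1]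
    show cj Jm N.1 = _
    rw [cj, inv_entries]
    simp [Jm]
  have h2 := N.2.1
  simp only [XN, YN, TN]
  rw [h, Matrix.mul_fin_two, Matrix.mul_fin_two]
  refine ⟨?_, ?_, ?_⟩
  · simp
    linarith
  · simp
    ring
  · simp
    ring

theorem p5b (hC : Cyl2Stmt) (hFG : FG4Stmt) : P5bStmt := by
  intro q x x₁ x₂ c c₁ c₂ hq h₁ h₂ d₁ d₂
  let P : Set Qd := {q, Dq, cq Jm Dq}
  let Ψ := Psi q hq
  have hfin : (Ψ '' P).Finite := (by simp [P] : P.Finite).image _
  obtain ⟨D⟩ := exists_CD hC (Ψ '' P) hfin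
  have hqP : q ∈ P := Or.inl rfl
  let f : Ψ '' P := ⟨Ψ q, q, hqP, rfl⟩
  have k₁ := D.conj_of_free (free_down Ψ h₁)
  have k₂ := D.conj_of_free (free_down Ψ h₂)
  have a₁ := avoid_up hq D f rfl (free_mem h₁).2 d₁
  have a₂ := avoid_down hq hqP D (free_mem h₂).2 d₂
  obtain ⟨w, hw, hcw⟩ := hFG _ _ _ _ _ _ a₁ a₂ k₁ k₂
  have hcm := (free_mem (free_down Ψ h₁)).1
  have hx : Ψ x ∉ Ψ '' P := by
    have h0 := hcm 0
    rwa [Path.source] at h0
  obtain ⟨z, -, hz, -⟩ := exists_to_cut hfin (Ψ x) hx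
  obtain ⟨c', hc', hav, hω⟩ := D.surj _ z z hz hz w hw
  have hc'm := mem_of_range hc'
  have hfree : FreeIn (Ψ '' P)ᶜ (c.map Ψ.continuous) c' := by
    refine D.free_of_conj hfin hcm hc'm ?_
    rw [hω]
    exact hcw
  have hup := free_up Ψ hfree
  refine ⟨_, _, freeIn_mono ?_ hup, ?_⟩
  · apply compl_subset_compl.2
    intro N hN
    exact Or.inr hN
  · rw [Set.disjoint_left]
    rintro _ ⟨t, rfl⟩ hell
    have h0 : (c' t).1 = 0 := by
      have := (Psi_zero_iff q hq _).2 hell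
      rwa [show Psi q hq ((c'.map Ψ.symm.continuous) t) = c' t from Ψ.apply_symm_apply _] at this
    have hΨq : (Ψ q).1 = 0 := (Psi_zero_iff q hq q).2 (q_mem_ell hq)
    -- other punctures are not on the line
    have hother : ∀ f' ∈ Ψ '' P, f'.1 = 0 → f' = Ψ q := by
      rintro _ ⟨N, hN, rfl⟩ hN0
      have hN1 := (Psi_zero_iff q hq N).1 hN0
      have hX : XN N = XN q := hN1.1
      rcases hN with rfl | rfl | rfl
      · rfl
      · rw [Dq_X] at hX
        rw [← hX] at hq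
        simp at hq
      · rw [(cqJ Dq).1, Dq_X] at hX
        rw [← hX] at hq
        simp at hq
    rcases lt_trichotomy (c' t).2 (Ψ q).2 with hlt | heq | hgt
    · have := hav none (by simp)
      refine Set.disjoint_left.1 this ⟨t, rfl⟩ ⟨h0, ?_⟩
      intro f' hf' hf0
      rw [hother f' hf' hf0]
      exact hlt
    · have : c' t = Ψ q := Prod.ext (h0.trans hΨq.symm) heq
      exact hc'm t (this ▸ ⟨q, hqP, rfl⟩)
    · have := hav (some f) (by simp)
      refine Set.disjoint_left.1 this ⟨t, rfl⟩ ⟨h0.trans hΨq.symm, hgt, ?_⟩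
      intro f' hf' hf0 hlt
      have := hother f' hf' (hf0.trans hΨq)
      rw [this] at hlt
      exact absurd hlt (lt_irrefl _)

end AdT
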