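import Pool.Agent.Helper88.AdT.Stmts1

/-!
Basic objects for the atoroidality part: homotopies inside a set, the annulus `Qd` of oriented
geodesics, the conjugation action, small loops around punctures.
-/

open Matrix Real Topology Filter Set

noncomputable section

namespace AdT

section Pi1

variable {Z : Type} [TopologicalSpace Z]

/-- homotopy relative to the end points inside the set `S` -/
def HomIn (S : Set Z) {x y : Z} (γ γ' : Path x y) : Prop :=
  ∃ H : Path.Homotopy γ γ', ∀ p, H p ∈ S

/-- free homotopy of loops inside the set `S` -/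
def FreeIn (S : Set Z) {x y : Z} (γ : Path x x) (γ' : Path y y) : Prop :=
  ∃ δ : Path x y, HomIn S γ (δ.trans (γ'.trans δ.symm))

/-- natural powers of a loop -/
def npw {x : Z} (γ : Path x x) : ℕ → Path x x
  | 0 => Path.refl x
  | n + 1 => γ.trans (npw γ n)

/-- integer powers of a loop -/
def pw {x : Z} (γ : Path x x) : ℤ → Path x x
  | Int.ofNat n => npw γ n
  | Int.negSucc n => npw γ.symm (n + 1)

end Pi1

/-- the annulus of oriented geodesics: traceless matrices of determinant `-1` -/
abbrev Qd : Type := {N : M2 // N 1 1 = -N 0 0 ∧ N.det = -1}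

lemma cj_tr (g : SL) {N : M2} (h : N 1 1 = -N 0 0) : (cj g N) 1 1 = -(cj g N) 0 0 := by
  have h1 : (cj g N).trace = N.trace := by
    rw [cj, Matrix.trace_mul_comm, ← Matrix.mul_assoc, SL_inv_mul, Matrix.one_mul]
  rw [Matrix.trace_fin_two, Matrix.trace_fin_two, h] at h1
  linarith

/-- conjugation as a map of the annulus -/
def cq (g : SL) (N : Qd) : Qd := ⟨cj g N.1, cj_tr g N.2.1, by rw [cj_det]; exact N.2.2⟩

lemma cq_mul (g h : SL) (N : Qd) : cq (g * h) N = cq g (cq h N) := Subtype.ext (cj_mul g h N.1)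

lemma cq_one (N : Qd) : cq 1 N = N := Subtype.ext (cj_one N.1)

lemma continuous_cq (g : SL) : Continuous (cq g) := by
  unfold cq cj
  fun_prop

/-- conjugation as a homeomorphism of the annulus -/
def cqh (g : SL) : Qd ≃ₜ Qd where
  toFun := cq g
  invFun := cq g⁻¹
  left_inv N := by rw [← cq_mul, inv_mul_cancel, cq_one]
  right_inv N := by rw [← cq_mul, mul_inv_cancel, cq_one]
  continuous_toFun := continuous_cq g
  continuous_invFun := continuous_cq g⁻¹

/-- the oriented geodesic `Dm` -/
def Dq : Qd := ⟨Dm, by simp [Dm, nm], by simp [Dm, nm, Matrix.det_fin_two]⟩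

/-- the flow line of the frame `x` -/
def dq (x : SL) : Qd := cq x Dq

lemma dq_mul (g x : SL) : dq (g * x) = cq g (dq x) := cq_mul g x Dq

lemma continuous_SL_inv : Continuous (fun x : SL => ((x⁻¹ : SL) : M2)) := by
  have : (fun x : SL => ((x⁻¹ : SL) : M2)) = fun x : SL => (x : M2).adjugate := by
    funext x; exact Matrix.SpecialLinearGroup.coe_inv x
  rw [this]
  exact continuous_subtype_val.matrix_adjugate

lemma continuous_dq : Continuous dq := by
  unfold dq cq cj
  refine Continuous.subtype_mk ?_ _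
  exact (continuous_subtype_val.matrix_mul continuous_const).matrix_mul continuous_SL_inv

/-- coordinates: `X² + Y² - T² = 1` -/
def XN (N : Qd) : ℝ := N.1 0 0
def YN (N : Qd) : ℝ := (N.1 0 1 + N.1 1 0) / 2
def TN (N : Qd) : ℝ := (N.1 0 1 - N.1 1 0) / 2

lemma XYT (N : Qd) : XN N ^ 2 + YN N ^ 2 - TN N ^ 2 = 1 := by
  have h := N.2.2
  rw [Matrix.det_fin_two, N.2.1] at h
  simp only [XN, YN, TN]
  nlinarith

/-- `cj J Dm = -Dm` -/
def Jm : SL := ⟨!![0, 1; -1, 0], by simp [Matrix.det_fin_two]⟩

lemma continuous_y : Continuous y := by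
  unfold y
  refine Continuous.subtype_mk ?_ _
  refine continuous_matrix ?_
  intro i j
  fin_cases i <;> fin_cases j <;> simp <;> fun_prop

/-- the loop around the puncture `dq g`, `k` times, of radius `ρ` -/
def mu (g : SL) (ρ : ℝ) (k : ℤ) : Path (dq (g * y ρ)) (dq (g * y ρ)) where
  toFun t := dq (g * y (ρ * Complex.exp (2 * π * k * (t : ℝ) * Complex.I)))
  continuous_toFun := by
    refine continuous_dq.comp (continuous_const.mul (continuous_y.comp ?_))
    fun_prop
  source' := by simp
  target' := by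
    have h : Complex.exp (2 * π * k * (((1 : unitInterval) : ℝ) : ℂ) * Complex.I) = 1 := by
      rw [Complex.exp_eq_one_iff]
      exact ⟨k, by simp; ring⟩
    rw [h, mul_one]

/-- radius small with respect to the set of punctures `F` -/
def Small (F : Set Qd) (g : SL) (ρ : ℝ) : Prop :=
  0 < ρ ∧ ρ < 1 / 4 ∧ ∀ w : ℂ, w ≠ 0 → ‖w‖ ≤ ρ → dq (g * y w) ∉ F

/-- locally finite subsets -/
def LF (P : Set Qd) : Prop := ∀ R : ℝ, {N : Qd | N ∈ P ∧ ∀ i j, |N.1 i j| ≤ R}.Finite

/-- the set of all lines -/
def Pq : Set Qd := {N | N.1 ∈ Lines}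

end AdT
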