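import Pool.Agent.Helper88.AdT.Stmts

/-!
Definitions used in the final statement: anti-de Sitter structures, tachyons, links,
isometries, atoroidality.
-/

open Matrix Real Topology Filter Set

noncomputable section

namespace AdT

/-- Isometries of `AdS₃ = SL(2,ℝ) = {det = 1}`: restrictions of linear maps preserving `det`. -/
def IsIsom (f : SL → SL) : Prop :=
  ∃ L : M2 →ₗ[ℝ] M2, (∀ v, (L v).det = v.det) ∧ ∀ x : SL, ((f x : SL) : M2) = L (x : M2)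

/-- charts with values in AdS₃, compatible up to isometries -/
def Compat {N : Type} [TopologicalSpace N] (𝒞 𝒞' : Set (OpenPartialHomeomorph N SL))
    (h : N → N) : Prop :=
  ∀ c ∈ 𝒞, ∀ c' ∈ 𝒞', ∀ x ∈ c.source, h x ∈ c'.source →
    ∃ f, IsIsom f ∧ ∀ᶠ x' in 𝓝 x, c' (h x') = f (c x')

/-- An anti-de Sitter structure on `N \ S` (a `(G,X)`-atlas with `X = AdS₃`). -/
structure AdSStr (N : Type) [TopologicalSpace N] (S : Set N) where
  charts : Set (OpenPartialHomeomorph N SL)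
  disj : ∀ c ∈ charts, Disjoint c.source S
  cover : ∀ x ∉ S, ∃ c ∈ charts, x ∈ c.source
  compat : Compat charts charts id

/-- `κ = (w, T)` is a cylindrical chart around a piece of a tachyon of mass `m`: in polar
coordinates `w = ρ e^{iφ}` the anti-de Sitter structure has a developing map `dv ρ φ T` on the
universal cover of the punctured cylinder, which winds once around the space-like
geodesic `T ↦ a T` (it passes through the four quadrants between the light-like planes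
`x₀₁ = 0` and `x₁₀ = 0`), whose holonomy is the boost `x ↦ a m * x * a (-m)` fixing
this geodesic pointwise, and which tends to the point `a T` of the geodesic as `ρ → 0`. -/
def IsTachyonChart {N : Type} [TopologicalSpace N] (𝒞 : Set (OpenPartialHomeomorph N SL))
    (S : Set N) (m : ℝ) (κ : OpenPartialHomeomorph N (ℂ × ℝ)) : Prop :=
  ∃ (ε T₁ T₂ : ℝ) (dv : ℝ → ℝ → ℝ → SL), 0 < ε ∧
    κ.target = Metric.ball (0 : ℂ) ε ×ˢ Ioo T₁ T₂ ∧
    (∀ x ∈ κ.source, x ∈ S ↔ (κ x).1 = 0) ∧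
    ContinuousOn (fun p : ℝ × ℝ × ℝ => dv p.1 p.2.1 p.2.2) (Ioo 0 ε ×ˢ univ ×ˢ Ioo T₁ T₂) ∧
    (∀ ρ ∈ Ioo 0 ε, ∀ φ : ℝ, ∀ T ∈ Ioo T₁ T₂, ∀ c ∈ 𝒞,
      κ.symm (ρ * Complex.exp (φ * Complex.I), T) ∈ c.source →
      ∃ f, IsIsom f ∧ ∀ᶠ p : ℝ × ℝ × ℝ in 𝓝 (ρ, φ, T),
        c (κ.symm (p.1 * Complex.exp (p.2.1 * Complex.I), p.2.2)) = f (dv p.1 p.2.1 p.2.2)) ∧
    (∀ ρ ∈ Ioo 0 ε, ∀ φ : ℝ, ∀ T ∈ Ioo T₁ T₂,
      dv ρ (φ + 2 * π) T = a m * dv ρ φ T * a (-m) ∧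
      0 < dv ρ φ T 0 0 ∧ 0 < dv ρ φ T 1 1 ∧
      SignType.sign (dv ρ φ T 0 1) = SignType.sign (cos φ) ∧
      SignType.sign (dv ρ φ T 1 0) = SignType.sign (sin φ)) ∧
    (∀ φ : ℝ, ∀ T ∈ Ioo T₁ T₂, Tendsto (fun p : ℝ × ℝ × ℝ => dv p.1 p.2.1 p.2.2)
      (𝓝[>] 0 ×ˢ 𝓝 φ ×ˢ 𝓝 T) (𝓝 (a T)))

/-- `S` is a link: a nonempty finite disjoint union of (tame) embedded circles. -/
def IsLink {N : Type} [TopologicalSpace N] (S : Set N) : Prop :=
  ∃ (ι : Type) (_ : Finite ι) (_ : Nonempty ι)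
    (k : ι → {w : ℂ // ‖w‖ < 1} × AddCircle (1 : ℝ) → N),
    (∀ i, IsOpenEmbedding (k i)) ∧ (∀ i j, i ≠ j → Disjoint (range (k i)) (range (k j))) ∧
    S = ⋃ i, k i '' {p | p.1.1 = 0}

/-- closed connected topological 3-manifold -/
structure IsClosedThreeManifold (N : Type) [TopologicalSpace N] : Prop where
  t2 : T2Space N
  compact : CompactSpace N
  connected : ConnectedSpace N
  euclidean : ∀ x : N, ∃ c : OpenPartialHomeomorph N (EuclideanSpace ℝ (Fin 3)), x ∈ c.source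

/-- (Homotopically) atoroidal complement: every subgroup `ℤ²` of `π₁(N \ S)` is peripheral,
i.e. conjugate to loops in an arbitrarily small punctured neighbourhood of `S`. -/
def AtoroidalCompl {N : Type} [TopologicalSpace N] (S : Set N) : Prop :=
  ∀ (x₀ : ↥(Sᶜ : Set N)) (α β : FundamentalGroup (↥(Sᶜ : Set N)) x₀), α * β = β * α →
    (∀ m n : ℤ, α ^ m * β ^ n = 1 → m = 0 ∧ n = 0) →
    ∀ U : Set N, IsOpen U → S ⊆ U →
      ∃ (y : ↥(Sᶜ : Set N)) (γ : Path x₀ y) (p q : Path y y),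
        (∀ t, (p t : N) ∈ U) ∧ (∀ t, (q t : N) ∈ U) ∧
        α = FundamentalGroup.fromPath (Path.Homotopic.Quotient.mk (γ.trans (p.trans γ.symm))) ∧
        β = FundamentalGroup.fromPath (Path.Homotopic.Quotient.mk (γ.trans (q.trans γ.symm)))

/-- The final statement. -/
def FinalStmt : Prop :=
  ∃ (N : Type) (_ : TopologicalSpace N) (S : Set N) (m δ : ℝ) (𝒜 : ℝ → AdSStr N S),
    IsClosedThreeManifold N ∧ IsLink S ∧ AtoroidalCompl S ∧ m ≠ 0 ∧ 0 < δ ∧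
    (∀ q ∉ S, ∃ (U : Set N) (c : ℝ → OpenPartialHomeomorph N SL), IsOpen U ∧ q ∈ U ∧
      (∀ t ∈ Ioo (-δ) δ, c t ∈ (𝒜 t).charts ∧ (c t).source = U) ∧
      ContinuousOn (fun p : ℝ × N => c p.1 p.2) (Ioo (-δ) δ ×ˢ U)) ∧
    (∀ q ∈ S, ∃ (U : Set N) (κ : ℝ → OpenPartialHomeomorph N (ℂ × ℝ)), IsOpen U ∧ q ∈ U ∧
      (∀ t ∈ Ioo (-δ) δ, IsTachyonChart (𝒜 t).charts S m (κ t) ∧ (κ t).source = U) ∧
      ContinuousOn (fun p : ℝ × N => κ p.1 p.2) (Ioo (-δ) δ ×ˢ U)) ∧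
    ∀ t t' : ℝ, 0 ≤ t → t < t' → t' < δ →
      ¬ ∃ h : N ≃ₜ N, h '' S = S ∧ Compat (𝒜 t).charts (𝒜 t').charts h

end AdT
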