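import Pool.Agent.Helper88.AdT.Arith0

/-!
Statements of the modules AD-*.
-/

open Matrix Real Topology Filter Set

noncomputable section

namespace AdT

/-! ## AD-1 integrality of the inner products -/

def Arith1Stmt : Prop :=
  (∀ N ∈ Lines, ∀ N' ∈ Lines, ∃ k : ℤ, ip N N' = k) ∧
  (∀ κ, ∀ N ∈ Can κ, ∀ N' ∈ Can κ, ∃ k : ℤ, ip N N' = k ∧ k % 3 = 1) ∧
  (∀ N ∈ Can true, ∀ N' ∈ Can false, ∃ k : ℤ, ip N N' = k ∧ k % 3 = 0) ∧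
  (∀ N ∈ Lines, ∀ N' ∈ Lines, ip N N' = 1 → N = N') ∧
  (∀ N ∈ Lines, ∃ κ, N ∈ Can κ ∨ -N ∈ Can κ) ∧
  (∀ κ, ∀ N ∈ Can κ, N ∈ Lines ∧ -N ∈ Lines) ∧
  (∀ κ, ∀ N ∈ Can κ, -N ∉ Can κ) ∧
  (∀ N ∈ Can true, N ∉ Can false ∧ -N ∉ Can false)

/-- frame coordinates: `-τ² + ν² + σ² = 1` on lines, and the inner product in a frame -/
def FrameStmt : Prop :=
  (∀ (x : SL), ∀ N ∈ Lines, -(tau x N) ^ 2 + nu x N ^ 2 + sg x N ^ 2 = 1) ∧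
  (∀ (x : SL), ∀ N ∈ Lines, ∀ N' ∈ Lines,
    ip N N' = -(tau x N * tau x N') + nu x N * nu x N' + sg x N * sg x N') ∧
  (∀ (x : SL) (N : M2) (t : ℝ),
    tau (x * a t) N = cosh t * tau x N + sinh t * nu x N ∧
    nu (x * a t) N = sinh t * tau x N + cosh t * nu x N ∧ sg (x * a t) N = sg x N) ∧
  (∀ x : SL, ∀ N ∈ Lines, tau x N = 0 → nu x N = 0 → N = cj x Dm ∨ N = -cj x Dm)

/-! ## AD-2 transitivity, stabilisers, perpendicular lines -/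

def TransStmt : Prop := ∀ N ∈ Lines, ∃ g ∈ Nz, cj g Dm = N

def StabStmt : Prop :=
  (∀ g ∈ Nz, g * a (2 * s0) * g⁻¹ ∈ Gam) ∧
  (∀ g ∈ Nz, ∀ γ ∈ Gam, cj γ (cj g Dm) = cj g Dm → ∃ k : ℤ,
    (γ : M2) = ((g * a (2 * s0 * k) * g⁻¹ : SL) : M2) ∨
    (γ : M2) = -((g * a (2 * s0 * k) * g⁻¹ : SL) : M2)) ∧
  (∀ g ∈ Gam, g ∈ Nz) ∧ (∀ g ∈ Nz, ∀ h ∈ Nz, g * h ∈ Nz) ∧ (∀ g ∈ Nz, g⁻¹ ∈ Nz) ∧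
  (∀ g : SL, g ∈ Gam → ∃ h : SL, h ∈ Gam ∧ (h : M2) = -(g : M2))

def PerpStmt : Prop :=
  (∀ N ∈ Lines, ip N Dm = 0 → ∃ k : ℤ, N = cj (a (k * s0)) Km ∨ N = -cj (a (k * s0)) Km) ∧
  (∀ k : ℤ, cj (a (k * s0)) Km ∈ Lines)

/-! ## AD-3 finiteness and cocompactness -/

def FinStmt : Prop :=
  (∀ R : ℝ, {N : M2 | N ∈ Lines ∧ ∀ i j, |N i j| ≤ R}.Finite) ∧
  (∀ R : ℝ, {g : SL | g ∈ Gam ∧ ∀ i j, |g i j| ≤ R}.Finite) ∧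
  (∀ (R C : ℝ), {N : M2 | N ∈ Lines ∧ ∃ x : SL, (∀ i j, |x i j| ≤ R) ∧ |tau x N| ≤ C}.Finite)

def CocompStmt : Prop := ∃ R : ℝ, ∀ x : SL, ∃ γ ∈ Gam, ∀ i j, |(γ * x : SL) i j| ≤ R

/-! ## AD-4 the one-line function -/

def ThStmt : Prop :=
  ContinuousOn (fun p : ℝ × ℝ => th p.1 p.2) {0}ᶜ ∧
  ContinuousOn (fun p : ℝ × ℝ => th2 p.1 p.2) {0}ᶜ ∧
  (∀ τ ν : ℝ, 1 ≤ 2 * τ ^ 2 → th τ ν = 0) ∧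
  (∀ τ ν : ℝ, th (-τ) (-ν) = th τ ν) ∧
  (∀ τ ν f : ℝ, (τ, ν) ≠ (0 : ℝ × ℝ) → (f : AddCircle (2 : ℝ)) = th2 τ ν →
    (f : AddCircle (1 : ℝ)) = th τ ν) ∧
  (0 < r0 ∧ r0 ≤ 0.7072 ∧ sinh r0 = 1 / √2 ∧ cosh s0 = 2 ∧ exp s0 = 2 + √3)

/-- winding of `th2`: real lifts along a circle around the origin drop by 2 -/
def WindStmt : Prop :=
  ∀ (F : ℝ → ℝ → ℝ), ContinuousOn (fun p : ℝ × ℝ => F p.1 p.2) {p | 0 < p.1 ∧ p.1 < ε0} →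
    (∀ ρ φ : ℝ, 0 < ρ → ρ < ε0 → (F ρ φ : AddCircle (2 : ℝ)) =
      th2 (tw (ρ * Complex.exp (φ * Complex.I))) (nw (ρ * Complex.exp (φ * Complex.I)))) →
    ∀ ρ φ : ℝ, 0 < ρ → ρ < ε0 → F ρ (φ + 2 * π) = F ρ φ - 2

/-! ## AD-5 the functions `Th κ` -/

def ThetaStmt : Prop :=
  (∀ κ, ContinuousOn (Th κ) {x : SL | ∀ N ∈ Can κ, ¬ (tau x N = 0 ∧ nu x N = 0)}) ∧
  (∀ κ, ∀ g ∈ Gam, ∀ x, Th κ (g * x) = Th κ x) ∧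
  (∀ g ∈ Nz, (∀ κ x, Th κ (g * x) = Th κ x) ∨ (∀ κ x, Th (!κ) (g * x) = Th κ x)) ∧
  (∀ κ (x : SL), ∀ N ∈ Can κ, 2 * tau x N ^ 2 < 1 → Th κ x = th (tau x N) (nu x N)) ∧
  (∀ κ (x : SL), (∀ N ∈ Can κ, 1 ≤ 2 * tau x N ^ 2) → Th κ x = 0) ∧
  (∀ z : ℝ, Th false (a z) = ((z / s0 + 1 / 2 : ℝ) : AddCircle (1 : ℝ)))

/-! ## AD-6 monotonicity -/

/-- exponent of the developing map; `f κ` is a real value of `Th κ` -/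
def devf (t : ℝ) (f : Bool → ℝ) : ℝ := -(1 / 2) * ((s0 + t) * f true + (s0 - t) * f false)

def MonoStmt : Prop :=
  ∀ x ∈ E, ∀ t : ℝ, |t| < s0 / 20 → ∀ δ : ℝ, 0 < δ → ∀ f : Bool → ℝ → ℝ,
    (∀ κ, ContinuousOn (f κ) (Ico 0 δ)) →
    (∀ κ, ∀ u ∈ Ico 0 δ, ((f κ u : ℝ) : AddCircle (1 : ℝ)) = Th κ (x * a u)) →
    ∀ᶠ u in 𝓝[>] (0 : ℝ), devf t (fun κ => f κ 0) < u + devf t (fun κ => f κ u)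

/-! ## AD-7 the developing map is locally an open embedding -/

/-- a general lemma -/
def MonoFibreStmt : Prop :=
  ∀ (Z : Type) [TopologicalSpace Z] (O : Set (Z × ℝ)) (_ : IsOpen O) (H : Z × ℝ → ℝ)
    (_ : ContinuousOn H O)
    (_ : ∀ ζ t₁ t₂, t₁ < t₂ → (∀ t ∈ Icc t₁ t₂, (ζ, t) ∈ O) → H (ζ, t₁) < H (ζ, t₂))
    (V : Set Z) (_ : IsOpen V) (t₀ t₁ : ℝ) (_ : V ×ˢ Ioo t₀ t₁ ⊆ O),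
    InjOn (fun p : Z × ℝ => (p.1, H p)) (V ×ˢ Ioo t₀ t₁) ∧
    ∀ W ⊆ V ×ˢ Ioo t₀ t₁, IsOpen W → IsOpen ((fun p : Z × ℝ => (p.1, H p)) '' W)

def LocalStmt : Prop :=
  ∀ x ∈ E, ∃ (U : Set SL) (f : Bool → SL → ℝ), IsOpen U ∧ x ∈ U ∧ U ⊆ E ∧
    (∀ κ, ContinuousOn (f κ) U) ∧
    (∀ κ, ∀ x' ∈ U, ((f κ x' : ℝ) : AddCircle (1 : ℝ)) = Th κ x') ∧
    ∀ t : ℝ, |t| < s0 / 20 →
      InjOn (fun x' => x' * a (devf t (fun κ => f κ x'))) U ∧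
      ∀ W ⊆ U, IsOpen W → IsOpen ((fun x' : SL => x' * a (devf t (fun κ => f κ x'))) '' W)

/-! ## AD-8 the quotient -/

def QuotStmt : Prop :=
  IsOpen E ∧ IsQuotientCoveringMap pr Gam ∧ T2Space M ∧ PathConnectedSpace E

/-! ## AD-9 the tubes -/

def TubeStmt : Prop :=
  (∀ z w, ‖w‖ < ε0 → ∀ N ∈ Can false, ¬ (tau (a z * y w) N = 0 ∧ nu (a z * y w) N = 0)) ∧
  (∀ g ∈ Nz, ∀ z w, w ≠ 0 → ‖w‖ < ε0 → tb g z w ∈ E) ∧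
  (∀ g ∈ Nz, ∀ z w, ‖w‖ < ε0 → psi g (w, ((z / s0 : ℝ) : AddCircle (2 : ℝ))) = prT (tb g z w)) ∧
  (∀ g ∈ Nz, IsOpenEmbedding
    (fun p : {p : ℂ × AddCircle (2 : ℝ) // p.1 ≠ 0 ∧ ‖p.1‖ < ε0} => psi g p.1)) ∧
  (∀ g ∈ Nz, ∀ h ∈ Nz, (¬ ∃ γ ∈ Gam, cj γ (cj g Dm) = cj h Dm) → ∀ p q : ℂ × AddCircle (2 : ℝ),
    p.1 ≠ 0 → ‖p.1‖ < ε0 → q.1 ≠ 0 → ‖q.1‖ < ε0 → psi g p ≠ psi h q) ∧
  (∀ g ∈ Nz, ∀ δ : ℝ, 0 < δ → δ < ε0 → IsClosed (psi g '' {p | p.1 ≠ 0 ∧ ‖p.1‖ ≤ δ})) ∧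
  Finite Idx ∧
  (∀ gi : Idx → SL, (∀ i, gi i ∈ Nz) → (∀ i, ∃ h : cj (gi i) Dm ∈ Lines,
      (Quotient.mk'' (⟨_, h⟩ : LL) : Idx) = i) →
    ∀ δ : ℝ, 0 < δ → δ < ε0 → IsCompact (⋃ i, psi (gi i) '' {p | p.1 ≠ 0 ∧ ‖p.1‖ < δ})ᶜ)

/-! ## AD-10 filling solid tori -/

section Fill

variable {X : Type} [TopologicalSpace X] {ι : Type} (ε : ℝ) (e : ι → ℂ × AddCircle (2 : ℝ) → X)

/-- open solid torus -/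
abbrev ST (ε : ℝ) : Type := {p : ℂ × AddCircle (2 : ℝ) // ‖p.1‖ < ε}

/-- gluing relation -/
def FillRel (u v : X ⊕ (Σ _ : ι, ST ε)) : Prop :=
  ∃ (i : ι) (p : ST ε), p.1.1 ≠ 0 ∧ u = .inl (e i p.1) ∧ v = .inr ⟨i, p⟩

/-- `X` with solid tori glued in along the punctured solid tori -/
def Fill : Type := Quot (FillRel ε e)

instance : TopologicalSpace (Fill ε e) := inferInstanceAs (TopologicalSpace (Quot (FillRel ε e)))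

def fj (x : X) : Fill ε e := Quot.mk _ (.inl x)
def fk (i : ι) (p : ST ε) : Fill ε e := Quot.mk _ (.inr ⟨i, p⟩)

end Fill

def FillStmt : Prop :=
  ∀ (X : Type) [TopologicalSpace X] [T2Space X] (ι : Type) [Finite ι] (ε : ℝ) (_ : 0 < ε)
    (e : ι → ℂ × AddCircle (2 : ℝ) → X)
    (_ : ∀ i, IsOpenEmbedding
      (fun p : {p : ℂ × AddCircle (2 : ℝ) // p.1 ≠ 0 ∧ ‖p.1‖ < ε} => e i p.1))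
    (_ : ∀ i j, i ≠ j → ∀ p q : ℂ × AddCircle (2 : ℝ), p.1 ≠ 0 → ‖p.1‖ < ε → q.1 ≠ 0 →
      ‖q.1‖ < ε → e i p ≠ e j q)
    (_ : ∀ i, ∀ δ : ℝ, 0 < δ → δ < ε → IsClosed (e i '' {p | p.1 ≠ 0 ∧ ‖p.1‖ ≤ δ}))
    (_ : ∀ δ : ℝ, 0 < δ → δ < ε → IsCompact (⋃ i, e i '' {p | p.1 ≠ 0 ∧ ‖p.1‖ < δ})ᶜ),
  T2Space (Fill ε e) ∧ CompactSpace (Fill ε e) ∧ IsOpenEmbedding (fj ε e) ∧
  (∀ i, IsOpenEmbedding (fk ε e i)) ∧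
  (∀ i (p : ST ε), p.1.1 ≠ 0 → fk ε e i p = fj ε e (e i p.1)) ∧
  (∀ q : Fill ε e, (∃ x, fj ε e x = q) ∨ ∃ i p, p.1.1 = 0 ∧ fk ε e i p = q) ∧
  (∀ i (p : ST ε) x, p.1.1 = 0 → fk ε e i p ≠ fj ε e x) ∧
  (∀ i j (p q : ST ε), p.1.1 = 0 → q.1.1 = 0 → fk ε e i p = fk ε e j q → i = j ∧ p = q)

end AdT
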