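import Pool.Agent.Helper88.AdT.Spec

/-!
Statements of the modules AD-11 ... AD-17 (assembly of the AdS structures).
-/

open Matrix Real Topology Filter Set

noncomputable section

namespace AdT

/-- the closed manifold -/
abbrev FN (gi : Idx → SL) : Type := Fill ε0 (fun i => gl (gi i))

/-- a choice of frames on representatives of all oriented lines -/
def GoodGi (gi : Idx → SL) : Prop :=
  (∀ i, gi i ∈ Nz) ∧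
  ∀ i, ∃ h : cj (gi i) Dm ∈ Lines, (Quotient.mk'' (⟨_, h⟩ : LL) : Idx) = i

/-- the inclusion of the complement of the link -/
def jN (gi : Idx → SL) : M → FN gi := fj ε0 (fun i => gl (gi i))

/-- the solid tori -/
def kN (gi : Idx → SL) : Idx → ST ε0 → FN gi := fk ε0 (fun i => gl (gi i))

/-- the link -/
def Sg (gi : Idx → SL) : Set (FN gi) := {q | ∃ i, ∃ p : ST ε0, p.1.1 = 0 ∧ kN gi i p = q}

/-! ## AD-11 topology of the filled manifold -/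

def FNStmt : Prop := ∀ gi : Idx → SL, GoodGi gi →
  IsOpenEmbedding (jN gi) ∧ (∀ i, IsOpenEmbedding (kN gi i)) ∧
  (∀ i (p : ST ε0), p.1.1 ≠ 0 → kN gi i p = jN gi (gl (gi i) p.1)) ∧
  (range (jN gi))ᶜ = Sg gi ∧
  (∀ i j (p q : ST ε0), p.1.1 = 0 → q.1.1 = 0 → kN gi i p = kN gi j q → i = j ∧ p = q) ∧
  Nonempty Idx ∧ Finite Idx ∧ IsClosedThreeManifold (FN gi) ∧ IsLink (Sg gi)

def ExistsGiStmt : Prop := ∃ gi : Idx → SL, GoodGi gi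

/-! ## AD-12 isometries -/

def IsomStmt : Prop :=
  (∀ f g, IsIsom f → IsIsom g → IsIsom (f ∘ g)) ∧ IsIsom id ∧
  (∀ f, IsIsom f → ∃ g, IsIsom g ∧ f ∘ g = id ∧ g ∘ f = id) ∧
  (∀ A B : SL, IsIsom (fun x => A * x * B)) ∧
  (∀ f, IsIsom f → Continuous f) ∧
  (∀ f g, IsIsom f → IsIsom g → ∀ U : Set SL, IsOpen U → U.Nonempty → EqOn f g U → f = g) ∧
  (∀ (L : M2 →ₗ[ℝ] M2), (∀ v, (L v).det = v.det) → ∀ (U : Set SL), IsOpen U → U.Nonempty →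
    ∀ ℓ : M2 →ₗ[ℝ] ℝ, (∀ x ∈ U, ℓ (L (x : M2)) = 0) → ∀ v, ℓ (L v) = 0)

/-! ## AD-13 the structures `A_t` -/

/-- the charts of the structure with parameter `t` -/
def devCharts (gi : Idx → SL) (t : ℝ) : Set (OpenPartialHomeomorph (FN gi) SL) :=
  {c | ∀ q ∈ c.source, ∃ x : E, jN gi (pr x) = q ∧
    ∃ (f : Bool → E → ℝ) (A B : SL) (U : Set E), IsOpen U ∧ x ∈ U ∧
      (∀ κ, ContinuousOn (f κ) U) ∧
      (∀ κ, ∀ x' ∈ U, ((f κ x' : ℝ) : AddCircle (1 : ℝ)) = Th κ x'.1) ∧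
      ∀ x' ∈ U, c (jN gi (pr x')) = A * (x'.1 * a (devf t (fun κ => f κ x'))) * B}

def StructStmt : Prop := ∀ gi : Idx → SL, GoodGi gi → ∀ t : ℝ, |t| < s0 / 20 →
  (∀ c ∈ devCharts gi t, Disjoint c.source (Sg gi)) ∧
  (∀ q ∉ Sg gi, ∃ c ∈ devCharts gi t, q ∈ c.source) ∧
  Compat (devCharts gi t) (devCharts gi t) id

/-! ## AD-14 continuity of the family -/

def ContStmt : Prop := ∀ gi : Idx → SL, GoodGi gi → ∀ q ∉ Sg gi,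
  ∃ (U : Set (FN gi)) (c : ℝ → OpenPartialHomeomorph (FN gi) SL), IsOpen U ∧ q ∈ U ∧
    (∀ t ∈ Ioo (-(s0 / 20)) (s0 / 20), c t ∈ devCharts gi t ∧ (c t).source = U) ∧
    ContinuousOn (fun p : ℝ × FN gi => c p.1 p.2) (Ioo (-(s0 / 20)) (s0 / 20) ×ˢ U)

/-! ## AD-15 the tachyon charts -/

/-- length parameter of the singular circles of the two colours -/
def zc (col : Bool) (t : ℝ) : ℝ := bif col then s0 + t else s0 - t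

def Tach2Stmt : Prop := ∀ gi : Idx → SL, GoodGi gi → ∀ i : Idx, ∃ col : Bool, ∀ ϑ₀ : ℝ,
  ∃ κ : ℝ → OpenPartialHomeomorph (FN gi) (ℂ × ℝ),
    (∀ t : ℝ, |t| < s0 / 20 → (κ t).source =
      {q | ∃ (p : ST ε0) (ϑ : ℝ), |ϑ - ϑ₀| < 1 / 2 ∧ p.1.2 = (ϑ : AddCircle (2 : ℝ)) ∧
        kN gi i p = q}) ∧
    (∀ t : ℝ, |t| < s0 / 20 → ∀ (p : ST ε0) (ϑ : ℝ), |ϑ - ϑ₀| < 1 / 2 →
      p.1.2 = (ϑ : AddCircle (2 : ℝ)) →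
      κ t (kN gi i p) = (p.1.1, zc col t / 2 * ϑ)) ∧
    ∀ t : ℝ, |t| < s0 / 20 → IsTachyonChart (devCharts gi t) (Sg gi) (-(2 * s0)) (κ t)

/-! ## AD-16 the coordinate on the core of a tachyon chart -/

def TachCoordStmt : Prop :=
  ∀ (N : Type) [TopologicalSpace N] (S S' : Set N)
    (𝒞 𝒞' : Set (OpenPartialHomeomorph N SL)) (m m' : ℝ) (h : N ≃ₜ N)
    (κ κ' : OpenPartialHomeomorph N (ℂ × ℝ)) (q : N),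
    h '' S = S' → (∀ x ∉ S, ∃ c ∈ 𝒞, x ∈ c.source) → (∀ x ∉ S', ∃ c ∈ 𝒞', x ∈ c.source) →
    Compat 𝒞 𝒞' h → IsTachyonChart 𝒞 S m κ → IsTachyonChart 𝒞' S' m' κ' →
    q ∈ S → q ∈ κ.source → h q ∈ κ'.source →
    ∃ σ c : ℝ, (σ = 1 ∨ σ = -1) ∧ ∀ᶠ q' in 𝓝 q, q' ∈ S → (κ' (h q')).2 = σ * (κ q').2 + c

/-! ## AD-17 the structures are pairwise not isometric -/

def NonIsoStmt : Prop := ∀ gi : Idx → SL, GoodGi gi → ∀ t t' : ℝ, 0 ≤ t → t < t' →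
  t' < s0 / 20 → ¬ ∃ h : FN gi ≃ₜ FN gi, h '' Sg gi = Sg gi ∧
    Compat (devCharts gi t) (devCharts gi t') h

/-! ## parts of QuotStmt and TubeStmt (modules AD-8a/b, AD-9a/b/c) -/

def QuotAStmt : Prop := IsOpen E ∧ IsQuotientCoveringMap pr Gam ∧ T2Space M

def QuotBStmt : Prop := PathConnectedSpace E

def TubeAStmt : Prop :=
  (∀ z w, ‖w‖ < ε0 → ∀ N ∈ Can false, ¬ (tau (a z * y w) N = 0 ∧ nu (a z * y w) N = 0)) ∧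
  (∀ g ∈ Nz, ∀ z w, w ≠ 0 → ‖w‖ < ε0 → tb g z w ∈ E) ∧
  (∀ g ∈ Nz, ∀ z w, ‖w‖ < ε0 → psi g (w, ((z / s0 : ℝ) : AddCircle (2 : ℝ))) = prT (tb g z w)) ∧
  (∀ g ∈ Nz, ∀ h ∈ Nz, (¬ ∃ γ ∈ Gam, cj γ (cj g Dm) = cj h Dm) → ∀ p q : ℂ × AddCircle (2 : ℝ),
    p.1 ≠ 0 → ‖p.1‖ < ε0 → q.1 ≠ 0 → ‖q.1‖ < ε0 → psi g p ≠ psi h q) ∧
  (∀ g ∈ Nz, ∀ z z' w w', ‖w‖ < ε0 → ‖w'‖ < ε0 → ∀ γ ∈ Gam, tb g z w = γ * tb g z' w' →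
    ∃ k : ℤ, γ = g * a (2 * s0 * k) * g⁻¹ ∧ w = w' ∧ z = z' + 2 * s0 * k)

def TubeBStmt : Prop :=
  ∀ g ∈ Nz, IsOpenEmbedding
    (fun p : {p : ℂ × AddCircle (2 : ℝ) // p.1 ≠ 0 ∧ ‖p.1‖ < ε0} => psi g p.1)

def TubeCStmt : Prop :=
  (∀ g ∈ Nz, ∀ δ : ℝ, 0 < δ → δ < ε0 → IsClosed (psi g '' {p | p.1 ≠ 0 ∧ ‖p.1‖ ≤ δ})) ∧
  Finite Idx ∧
  (∀ gi : Idx → SL, (∀ i, gi i ∈ Nz) → (∀ i, ∃ h : cj (gi i) Dm ∈ Lines,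
      (Quotient.mk'' (⟨_, h⟩ : LL) : Idx) = i) →
    ∀ δ : ℝ, 0 < δ → δ < ε0 → IsCompact (⋃ i, psi (gi i) '' {p | p.1 ≠ 0 ∧ ‖p.1‖ < δ})ᶜ)

end AdT
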