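import Pool.Agent.Helper88.AdT.Stmts1

/-!
# AD-9c: closedness and compactness of the complement of the tubes, finitely many lines
-/

open Matrix Real Topology Filter Set

noncomputable section

namespace AdT

namespace TubeC

/-! ### continuity -/

theorem cont_entry (i j : Fin 2) : Continuous fun x : SL => x i j := by
  have h : Continuous fun x : SL => (x : M2) := Matrix.SpecialLinearGroup.isClosedEmbedding_val.continuous
  exact h.matrix_elem i j

theorem cont_fr (N : M2) (i j : Fin 2) : Continuous fun x : SL => fr x N i j := by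
  have h00 := cont_entry 0 0
  have h01 := cont_entry 0 1
  have h10 := cont_entry 1 0
  have h11 := cont_entry 1 1
  simp only [fr_gen]
  fin_cases i <;> fin_cases j <;> simp <;> fun_prop

theorem cont_tau (N : M2) : Continuous fun x : SL => tau x N :=
  ((cont_fr N 0 1).sub (cont_fr N 1 0)).div_const 2

theorem cont_nu (N : M2) : Continuous fun x : SL => nu x N :=
  (((cont_fr N 0 1).add (cont_fr N 1 0)).neg).div_const 2

theorem cont_sg (N : M2) : Continuous fun x : SL => sg x N := cont_fr N 0 0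

/-! ### the tubes in terms of frame coordinates -/

def PP (x : SL) (N : M2) : ℝ :=
  ((tau x N - nu x N) / 2) ^ 2 * (1 + sg x N) ^ 2 + (tau x N + nu x N) ^ 2

theorem cont_PP (N : M2) : Continuous fun x : SL => PP x N := by
  have h1 := cont_tau N
  have h2 := cont_nu N
  have h3 := cont_sg N
  unfold PP
  fun_prop

/-- closed tubes -/
def Tc (δ : ℝ) (N : M2) : Set SL := {x | 0 ≤ sg x N ∧ PP x N ≤ δ ^ 2 * (1 + sg x N) ^ 2}

/-- open tubes -/
def To (δ : ℝ) (N : M2) : Set SL := {x | 0 < sg x N ∧ PP x N < δ ^ 2 * (1 + sg x N) ^ 2}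

theorem isClosed_Tc (δ : ℝ) (N : M2) : IsClosed (Tc δ N) := by
  have h1 := cont_PP N
  have h3 := cont_sg N
  exact (isClosed_le continuous_const h3).inter
    (isClosed_le h1 (by fun_prop : Continuous fun x : SL => δ ^ 2 * (1 + sg x N) ^ 2))

theorem isOpen_To (δ : ℝ) (N : M2) : IsOpen (To δ N) := by
  have h1 := cont_PP N
  have h3 := cont_sg N
  exact (isOpen_lt continuous_const h3).inter
    (isOpen_lt h1 (by fun_prop : Continuous fun x : SL => δ ^ 2 * (1 + sg x N) ^ 2))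

/-! ### frames of the section -/

theorem y_entries (w : ℂ) : (y w : M2) = !![1 + w.re * w.im, w.re; w.im, 1] := rfl

theorem a_entries (t : ℝ) : (a t : M2) = !![exp (t / 2), 0; 0, exp (-(t / 2))] := rfl

theorem Dm_eq : Dm = !![1, 0; 0, -1] := by
  ext i j
  fin_cases i <;> fin_cases j <;> simp [Dm, nm]

theorem fr_y (w : ℂ) : fr (y w) Dm =
    !![1 + 2 * w.re * w.im, 2 * w.re; -(2 * w.im * (1 + w.re * w.im)), -(1 + 2 * w.re * w.im)] := by
  rw [fr_gen, Dm_eq, y_entries]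
  ext i j
  fin_cases i <;> fin_cases j <;> simp <;> ring

theorem tau_y (w : ℂ) : tau (y w) Dm = w.re + w.im * (1 + w.re * w.im) := by
  rw [tau, fr_y]; simp; ring

theorem nu_y (w : ℂ) : nu (y w) Dm = w.im * (1 + w.re * w.im) - w.re := by
  rw [nu, fr_y]; simp; ring

theorem sg_y (w : ℂ) : sg (y w) Dm = 1 + 2 * w.re * w.im := by
  rw [sg, fr_y]; simp

theorem cj_a_Dm (t : ℝ) : cj (a t) Dm = Dm := by
  have h : exp (t / 2) * exp (-(t / 2)) = 1 := by rw [← Real.exp_add]; simp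
  have h' : exp (-(t / 2)) * exp (t / 2) = 1 := by rw [mul_comm]; exact h
  rw [cj, inv_entries, a_entries, Dm_eq]
  ext i j
  fin_cases i <;> fin_cases j <;> simp [Matrix.mul_apply, Fin.sum_univ_two, h, h']

theorem norm_sq_re_im (w : ℂ) : ‖w‖ ^ 2 = w.re ^ 2 + w.im ^ 2 := by
  rw [← Complex.normSq_eq_norm_sq, Complex.normSq_apply]; ring

theorem reim_bound {w : ℂ} {δ : ℝ} (hδ : ‖w‖ ≤ δ) : |w.re * w.im| ≤ δ ^ 2 / 2 := by
  have h := norm_sq_re_im w
  have h0 := norm_nonneg w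
  have h2 : ‖w‖ ^ 2 ≤ δ ^ 2 := by nlinarith
  rw [abs_le]
  constructor <;> nlinarith [sq_nonneg (w.re + w.im), sq_nonneg (w.re - w.im)]

/-- frame coordinates of tube points -/
theorem coords {h x : SL} {N : M2} {w : ℂ} (hN : cj h Dm = N) (hx : x = h * y w) :
    tau x N = w.re + w.im * (1 + w.re * w.im) ∧ nu x N = w.im * (1 + w.re * w.im) - w.re ∧
    sg x N = 1 + 2 * w.re * w.im := by
  subst hN hx
  rw [tau_mul, nu_mul, sg_mul, tau_y, nu_y, sg_y]
  exact ⟨rfl, rfl, rfl⟩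

theorem PP_coords {h x : SL} {N : M2} {w : ℂ} (hN : cj h Dm = N) (hx : x = h * y w) :
    PP x N = ‖w‖ ^ 2 * (1 + sg x N) ^ 2 := by
  obtain ⟨h1, h2, h3⟩ := coords hN hx
  rw [PP, h1, h2, h3, norm_sq_re_im]
  ring

theorem sg_pos {h x : SL} {N : M2} {w : ℂ} (hN : cj h Dm = N) (hx : x = h * y w)
    (hw : ‖w‖ < ε0) : 0 < sg x N := by
  obtain ⟨-, -, h3⟩ := coords hN hx
  have := reim_bound hw.le
  rw [abs_le] at this
  unfold ε0 at this
  rw [h3]
  linarith [this.1]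

theorem tau_bound {h x : SL} {N : M2} {w : ℂ} (hN : cj h Dm = N) (hx : x = h * y w)
    (hw : ‖w‖ < ε0) : |tau x N| ≤ 1 := by
  obtain ⟨h1, -, -⟩ := coords hN hx
  have h2 := reim_bound hw.le
  have h4 := Complex.abs_re_le_norm w
  have h5 := Complex.abs_im_le_norm w
  unfold ε0 at hw h2
  rw [h1]
  rw [abs_le] at *
  constructor <;> nlinarith

theorem trace_nm (x : SL) (b d c : ℝ) : fr x (nm b d c) 1 1 = -fr x (nm b d c) 0 0 := by
  rw [fr_gen]
  simp [nm]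
  ring

/-- every frame with `0 ≤ sg` is of the form `h * y w` -/
theorem exists_tube (h1 : FrameStmt) {N : M2} (hN : N ∈ Lines) {x : SL} (hs : 0 ≤ sg x N) :
    ∃ h w, cj h Dm = N ∧ x = h * y w ∧ ‖w‖ ^ 2 * (1 + sg x N) ^ 2 = PP x N := by
  have hfr := h1.1 x N hN
  set w : ℂ := ⟨(tau x N - nu x N) / 2, (tau x N + nu x N) / (1 + sg x N)⟩ with hw
  have hpos : 1 + sg x N ≠ 0 := by linarith
  have e1 : 2 * w.re = tau x N - nu x N := by rw [hw]; simp; ring
  have e2 : w.im * (1 + sg x N) = tau x N + nu x N := by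
    rw [hw]; simp only; field_simp
  have e3 : 1 + 2 * w.re * w.im = sg x N := by
    have : (2 * w.re) * (w.im * (1 + sg x N)) = sg x N ^ 2 - 1 := by
      rw [e1, e2]; linear_combination (-1 : ℝ) * hfr
    have h2 : (1 + sg x N) * (2 * w.re * w.im - (sg x N - 1)) = 0 := by
      linear_combination this
    rcases mul_eq_zero.1 h2 with h | h
    · exact absurd h hpos
    · linarith
  have hfx : fr x N = fr (y w) Dm := by
    have t0 : fr x N 0 1 = tau x N - nu x N := by simp [tau, nu]; ring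
    have t1 : fr x N 1 0 = -(tau x N + nu x N) := by simp [tau, nu]; ring
    have t2 : fr x N 1 1 = -sg x N := by
      obtain ⟨b, d, c, -, rfl⟩ := hN
      rw [trace_nm]; rfl
    have t3 : 1 + w.re * w.im = (1 + sg x N) / 2 := by linarith
    rw [fr_y, t3]
    ext i j
    fin_cases i <;> fin_cases j
    · simp only [Fin.zero_eta, Fin.isValue, Matrix.of_apply, Matrix.cons_val', Matrix.cons_val_zero,
        Matrix.cons_val_fin_one]
      rw [e3]; rfl
    · simp only [Fin.zero_eta, Fin.mk_one, Fin.isValue, Matrix.of_apply, Matrix.cons_val',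
        Matrix.cons_val_zero, Matrix.cons_val_one, Matrix.cons_val_fin_one]
      rw [t0, e1]
    · simp only [Fin.zero_eta, Fin.mk_one, Fin.isValue, Matrix.of_apply, Matrix.cons_val',
        Matrix.cons_val_zero, Matrix.cons_val_one, Matrix.cons_val_fin_one]
      rw [t1, ← e2]; ring
    · simp only [Fin.mk_one, Fin.isValue, Matrix.of_apply, Matrix.cons_val',
        Matrix.cons_val_one, Matrix.cons_val_fin_one]
      rw [t2, e3]
  refine ⟨x * (y w)⁻¹, w, ?_, by group, ?_⟩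
  · rw [cj_mul]
    have : cj (y w)⁻¹ Dm = fr (y w) Dm := (fr_eq (y w) Dm).symm
    rw [this, ← hfx, fr_eq, cj_cj_inv]
  · rw [PP, ← e1, ← e2, norm_sq_re_im]
    ring

theorem mem_Tc (h1 : FrameStmt) {δ : ℝ} (hδ0 : 0 < δ) (hδ : δ < ε0) {N : M2} (hN : N ∈ Lines)
    {x : SL} : x ∈ Tc δ N ↔ ∃ h w, cj h Dm = N ∧ x = h * y w ∧ ‖w‖ ≤ δ := by
  constructor
  · rintro ⟨a1, a2⟩
    obtain ⟨h, w, b1, b2, b3⟩ := exists_tube h1 hN a1
    refine ⟨h, w, b1, b2, ?_⟩
    rw [← b3] at a2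
    have hp : 0 < (1 + sg x N) ^ 2 := by positivity
    have := le_of_mul_le_mul_right a2 hp
    exact (sq_le_sq₀ (norm_nonneg w) hδ0.le).1 this
  · rintro ⟨h, w, b1, b2, b3⟩
    refine ⟨(sg_pos b1 b2 (by linarith)).le, ?_⟩
    rw [PP_coords b1 b2]
    have := (sq_le_sq₀ (norm_nonneg w) hδ0.le).2 b3
    nlinarith [sq_nonneg (1 + sg x N)]

theorem mem_To (h1 : FrameStmt) {δ : ℝ} (hδ0 : 0 < δ) (hδ : δ < ε0) {N : M2} (hN : N ∈ Lines)
    {x : SL} : x ∈ To δ N ↔ ∃ h w, cj h Dm = N ∧ x = h * y w ∧ ‖w‖ < δ := by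
  constructor
  · rintro ⟨a1, a2⟩
    obtain ⟨h, w, b1, b2, b3⟩ := exists_tube h1 hN a1.le
    refine ⟨h, w, b1, b2, ?_⟩
    rw [← b3] at a2
    have hp : 0 < (1 + sg x N) ^ 2 := by positivity
    have := lt_of_mul_lt_mul_right a2 hp.le
    exact (sq_lt_sq₀ (norm_nonneg w) hδ0.le).1 this
  · rintro ⟨h, w, b1, b2, b3⟩
    have hs := sg_pos b1 b2 (by linarith)
    refine ⟨hs, ?_⟩
    rw [PP_coords b1 b2]
    have := (sq_lt_sq₀ (norm_nonneg w) hδ0.le).2 b3
    have hp : 0 < (1 + sg x N) ^ 2 := by positivity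
    nlinarith

/-! ### stabilisers -/

theorem comm_Dm {k : SL} (hk : cj k Dm = Dm) :
    ∃ z, (k : M2) = (a z : M2) ∨ (k : M2) = -(a z : M2) := by
  have hcomm : (k : M2) * Dm = Dm * (k : M2) := by
    have := congrArg (fun X => X * (k : M2)) hk
    simp only [cj] at this
    rw [Matrix.mul_assoc, SL_inv_mul, Matrix.mul_one] at this
    exact this
  have h01 := congrFun (congrFun hcomm 0) 1
  have h10 := congrFun (congrFun hcomm 1) 0
  rw [Dm_eq] at h01 h10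
  simp [Matrix.mul_apply, Fin.sum_univ_two] at h01 h10
  have e01 : (k : M2) 0 1 = 0 := by linarith
  have e10 : (k : M2) 1 0 = 0 := by linarith
  have hdet : (k : M2) 0 0 * (k : M2) 1 1 = 1 := by
    have := k.2
    rw [Matrix.det_fin_two, e01] at this
    linarith
  rcases lt_trichotomy ((k : M2) 0 0) 0 with h | h | h
  · refine ⟨2 * Real.log (-(k : M2) 0 0), Or.inr ?_⟩
    have hp : 0 < -(k : M2) 0 0 := by linarith
    rw [a_entries]
    have f1 : 2 * Real.log (-(k : M2) 0 0) / 2 = Real.log (-(k : M2) 0 0) := by ring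
    rw [f1, Real.exp_neg, Real.exp_log hp]
    ext i j
    fin_cases i <;> fin_cases j
    · simp
    · simpa using e01
    · simpa using e10
    · have h0 : (k : M2) 0 0 ≠ 0 := h.ne
      have : (k : M2) 1 1 = -(-(k : M2) 0 0)⁻¹ := by
        field_simp
        linarith
      simpa using this
  · rw [h] at hdet
    simp at hdet
  · refine ⟨2 * Real.log ((k : M2) 0 0), Or.inl ?_⟩
    rw [a_entries]
    have f1 : 2 * Real.log ((k : M2) 0 0) / 2 = Real.log ((k : M2) 0 0) := by ring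
    rw [f1, Real.exp_neg, Real.exp_log h]
    ext i j
    fin_cases i <;> fin_cases j
    · simp
    · simpa using e01
    · simpa using e10
    · have h0 : (k : M2) 0 0 ≠ 0 := h.ne'
      have : (k : M2) 1 1 = ((k : M2) 0 0)⁻¹ := by
        field_simp
        linarith
      simpa using this

theorem exists_neg {γ : SL} (hγ : γ ∈ Gam) : ∃ γ' ∈ Gam, (γ' : M2) = -(γ : M2) := by
  obtain ⟨p, q, r, s, h⟩ := hγ
  have hdet : (-(γ : M2)).det = 1 := by
    rw [Matrix.det_neg]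
    simp
  refine ⟨⟨-(γ : M2), hdet⟩, ⟨-p, -q, -r, -s, ?_⟩, rfl⟩
  show -(γ : M2) = _
  rw [h]
  ext i j
  fin_cases i <;> fin_cases j <;> simp [gm] <;> ring

theorem frames {g h γ : SL} (hγ : γ ∈ Gam) (e : cj h Dm = cj γ (cj g Dm)) :
    ∃ γ' ∈ Gam, ∃ z, h = γ' * (g * a z) := by
  have hk : cj ((γ * g)⁻¹ * h) Dm = Dm := by
    rw [cj_mul, e, ← cj_mul γ g, cj_inv_cj]
  obtain ⟨z, hz | hz⟩ := comm_Dm hk
  · refine ⟨γ, hγ, z, ?_⟩
    have : (γ * g)⁻¹ * h = a z := Subtype.ext hz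
    rw [← this]
    group
  · obtain ⟨γ', hγ', e'⟩ := exists_neg hγ
    refine ⟨γ', hγ', z, ?_⟩
    have hh : h = γ * g * ((γ * g)⁻¹ * h) := by group
    apply Subtype.ext
    rw [hh]
    show ((γ * g * ((γ * g)⁻¹ * h) : SL) : M2) = ((γ' * (g * a z) : SL) : M2)
    rw [Matrix.SpecialLinearGroup.coe_mul (γ * g), hz, Matrix.SpecialLinearGroup.coe_mul γ',
      e', Matrix.SpecialLinearGroup.coe_mul γ g, Matrix.SpecialLinearGroup.coe_mul g (a z)]
    simp [Matrix.mul_assoc]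

/-! ### the projection -/

theorem pr_eq_iff {x x' : E} : pr x = pr x' ↔ ∃ γ ∈ Gam, x.1 = γ * x'.1 := by
  unfold pr
  rw [Quotient.eq'', MulAction.orbitRel_apply]
  constructor
  · rintro ⟨γ, h⟩
    exact ⟨γ.1, γ.2, (congrArg Subtype.val h).symm⟩
  · rintro ⟨γ, hγ, h⟩
    exact ⟨⟨γ, hγ⟩, Subtype.ext h.symm⟩

theorem Dm_mem : Dm ∈ Lines := ⟨1, 0, 0, by norm_num, by simp [Dm]⟩

theorem s0_ne : s0 ≠ 0 := by
  unfold s0 r0
  have : 0 < arsinh (1 / √2) := Real.arsinh_pos_iff.2 (by positivity)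
  linarith

theorem prT_of_mem {x : SL} (hx : x ∈ E) : prT x = pr ⟨x, hx⟩ := by
  unfold prT
  rw [dif_pos hx]

theorem w_ne_zero {h x : SL} {N : M2} {w : ℂ} (hN : cj h Dm = N) (hx : x = h * y w)
    (hL : N ∈ Lines) (hE : x ∈ E) : w ≠ 0 := by
  rintro rfl
  obtain ⟨h1, h2, -⟩ := coords hN hx
  exact hE N hL ⟨by rw [h1]; simp, by rw [h2]; simp⟩

/-- points over the image of a tube -/
theorem pr_mem_iff (h5 : TubeAStmt) {g : SL} (hg : g ∈ Nz) {x : E} {P : ℂ → Prop}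
    (hP : ∀ w, P w → ‖w‖ < ε0) :
    pr x ∈ psi g '' {p | p.1 ≠ 0 ∧ P p.1} ↔
      ∃ γ ∈ Gam, ∃ h w, cj h Dm = cj γ (cj g Dm) ∧ x.1 = h * y w ∧ P w := by
  obtain ⟨-, c2, c3, -, -⟩ := h5
  constructor
  · rintro ⟨⟨w, v⟩, ⟨hw0, hw⟩, he⟩
    obtain ⟨t, rfl⟩ := QuotientAddGroup.mk_surjective v
    have hE := c2 g hg (s0 * t) w hw0 (hP w hw)
    have := c3 g hg (s0 * t) w (hP w hw)
    rw [mul_div_cancel_left₀ _ s0_ne] at this
    have h2 : pr x = pr ⟨tb g (s0 * t) w, hE⟩ := by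
      rw [← prT_of_mem hE, ← this]
      exact he.symm
    obtain ⟨γ, hγ, h3⟩ := pr_eq_iff.1 h2
    refine ⟨γ, hγ, γ * g * a (s0 * t), w, ?_, ?_, hw⟩
    · rw [cj_mul, cj_mul, cj_a_Dm]
    · rw [h3]
      simp [tb, mul_assoc]
  · rintro ⟨γ, hγ, h, w, e1, e2, hw⟩
    have hL : cj γ (cj g Dm) ∈ Lines := Lines_cj hγ (hg Dm Dm_mem).1
    have hw0 := w_ne_zero e1 e2 hL x.2
    obtain ⟨γ', hγ', z, rfl⟩ := frames hγ e1
    have hE := c2 g hg z w hw0 (hP w hw)
    refine ⟨(w, ((z / s0 : ℝ) : AddCircle (2 : ℝ))), ⟨hw0, hw⟩, ?_⟩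
    rw [c3 g hg z w (hP w hw), prT_of_mem hE]
    symm
    refine pr_eq_iff.2 ⟨γ', hγ', ?_⟩
    rw [e2]
    simp [tb, mul_assoc]

/-! ### the three parts -/

/-- part 1: closedness -/
theorem closed (h1 : FrameStmt) (h2 : FinStmt) (h5 : TubeAStmt) (h6 : QuotAStmt) {g : SL}
    (hg : g ∈ Nz) {δ : ℝ} (hδ0 : 0 < δ) (hδ : δ < ε0) :
    IsClosed (psi g '' {p | p.1 ≠ 0 ∧ ‖p.1‖ ≤ δ}) := by
  rw [← h6.2.1.toIsQuotientMap.isClosed_preimage]
  let O : Type := {N : M2 // ∃ γ ∈ Gam, N = cj γ (cj g Dm)}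
  have hOL : ∀ N : O, N.1 ∈ Lines := by
    rintro ⟨N, γ, hγ, rfl⟩
    exact Lines_cj hγ (hg Dm Dm_mem).1
  have hset : pr ⁻¹' (psi g '' {p | p.1 ≠ 0 ∧ ‖p.1‖ ≤ δ}) =
      Subtype.val ⁻¹' (⋃ N : O, Tc δ N.1) := by
    ext x
    rw [mem_preimage, pr_mem_iff h5 hg (P := fun w => ‖w‖ ≤ δ) (fun w hw => lt_of_le_of_lt hw hδ),
      mem_preimage, mem_iUnion]
    constructor
    · rintro ⟨γ, hγ, h, w, e1, e2, e3⟩
      refine ⟨⟨_, γ, hγ, rfl⟩, ?_⟩
      exact (mem_Tc h1 hδ0 hδ (hOL _)).2 ⟨h, w, e1, e2, e3⟩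
    · rintro ⟨⟨N, γ, hγ, rfl⟩, hx⟩
      obtain ⟨h, w, e1, e2, e3⟩ := (mem_Tc h1 hδ0 hδ (hOL ⟨_, γ, hγ, rfl⟩)).1 hx
      exact ⟨γ, hγ, h, w, e1, e2, e3⟩
  rw [hset]
  refine IsClosed.preimage continuous_subtype_val ?_
  refine LocallyFinite.isClosed_iUnion ?_ (fun N => isClosed_Tc δ N.1)
  intro x0
  set R : ℝ := |x0 0 0| + |x0 0 1| + |x0 1 0| + |x0 1 1| + 1 with hR
  refine ⟨{x | ∀ i j, |x i j| < R}, ?_, ?_⟩
  · have hopen : IsOpen {x : SL | ∀ i j, |x i j| < R} := by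
      simp only [Set.ofPred_forall]
      exact isOpen_iInter_of_finite (fun i => isOpen_iInter_of_finite (fun j =>
        isOpen_lt (cont_entry i j).abs continuous_const))
    refine hopen.mem_nhds ?_
    intro i j
    have p0 := abs_nonneg (x0 0 0)
    have p1 := abs_nonneg (x0 0 1)
    have p2 := abs_nonneg (x0 1 0)
    have p3 := abs_nonneg (x0 1 1)
    fin_cases i <;> fin_cases j <;> simp only [Fin.zero_eta, Fin.mk_one, Fin.isValue] <;> linarith
  · have hfin := h2.2.2 R 1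
    refine Set.Finite.of_finite_image (f := Subtype.val) (hfin.subset ?_)
      (Subtype.val_injective.injOn)
    rintro _ ⟨N, ⟨x, hx, hxR⟩, rfl⟩
    obtain ⟨h, w, e1, e2, e3⟩ := (mem_Tc h1 hδ0 hδ (hOL N)).1 hx
    exact ⟨hOL N, x, fun i j => (hxR i j).le, tau_bound e1 e2 (lt_of_le_of_lt e3 hδ)⟩

/-- entries of `cj h Dm` -/
theorem cj_Dm_entries (h : SL) : cj h Dm = !![h 0 0 * h 1 1 + h 0 1 * h 1 0, -(2 * (h 0 0 * h 0 1));
    2 * (h 1 0 * h 1 1), -(h 0 0 * h 1 1 + h 0 1 * h 1 0)] := by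
  have e : (h : M2) = !![h 0 0, h 0 1; h 1 0, h 1 1] := Matrix.eta_fin_two _
  rw [cj, inv_entries, Dm_eq, e, Matrix.mul_fin_two, Matrix.mul_fin_two]
  ext i j
  fin_cases i <;> fin_cases j <;> simp <;> ring

theorem bound_entries {h : SL} {R : ℝ} (hb : ∀ i j, |h i j| ≤ R) (i j : Fin 2) :
    |cj h Dm i j| ≤ 2 * R ^ 2 := by
  have hm : ∀ i j k l, |h i j * h k l| ≤ R ^ 2 := by
    intro i j k l
    rw [abs_mul, sq]
    exact mul_le_mul (hb i j) (hb k l) (abs_nonneg _) ((abs_nonneg _).trans (hb i j))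
  have b1 := hm 0 0 1 1
  have b2 := hm 0 1 1 0
  have b3 := hm 0 0 0 1
  have b4 := hm 1 0 1 1
  rw [cj_Dm_entries]
  rw [abs_le] at b1 b2 b3 b4 ⊢
  fin_cases i <;> fin_cases j <;> simp <;> constructor <;> linarith

/-- part 2: finitely many lines -/
theorem finite_Idx (h2 : FinStmt) (h3 : CocompStmt) (h4 : TransStmt) : Finite Idx := by
  obtain ⟨R, hR⟩ := h3
  have hfin := h2.1 (2 * R ^ 2)
  let S : Type := {N : M2 // N ∈ {N : M2 | N ∈ Lines ∧ ∀ i j, |N i j| ≤ 2 * R ^ 2}}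
  have : Finite S := hfin
  refine Finite.of_surjective (fun N : S => (Quotient.mk'' (⟨N.1, N.2.1⟩ : LL) : Idx)) ?_
  intro i
  induction i using Quotient.inductionOn' with
  | h N =>
    obtain ⟨N, hN⟩ := N
    obtain ⟨g, hg, rfl⟩ := h4 N hN
    obtain ⟨γ, hγ, hb⟩ := hR g
    have hmem : cj γ (cj g Dm) ∈ Lines := Lines_cj hγ hN
    refine ⟨⟨cj γ (cj g Dm), hmem, ?_⟩, ?_⟩
    · rw [← cj_mul]
      exact bound_entries hb
    · rw [Quotient.eq'', MulAction.orbitRel_apply]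
      exact ⟨⟨γ, hγ⟩, rfl⟩

theorem compact_bounded (R : ℝ) : IsCompact {x : SL | ∀ i j, |x i j| ≤ R} := by
  have hc : IsCompact {A : M2 | ∀ i j, |A i j| ≤ R} := by
    have : {A : M2 | ∀ i j, |A i j| ≤ R} =
        Set.pi univ (fun _ : Fin 2 => Set.pi univ (fun _ : Fin 2 => Icc (-R) R)) := by
      ext A
      exact ⟨fun h i _ j _ => abs_le.1 (h i j),
        fun h i j => abs_le.2 (h i (mem_univ i) j (mem_univ j))⟩
    rw [this]
    exact isCompact_univ_pi (fun _ => isCompact_univ_pi (fun _ => isCompact_Icc))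
  exact Matrix.SpecialLinearGroup.isClosedEmbedding_val.isCompact_preimage hc

theorem neg_mem_Lines {N : M2} (h : N ∈ Lines) : -N ∈ Lines := by
  obtain ⟨b, d, c, hQ, rfl⟩ := h
  refine ⟨-b, -d, -c, by linarith [hQ], ?_⟩
  ext i j
  fin_cases i <;> fin_cases j <;> simp [nm] <;> ring

theorem fr_neg (x : SL) (N : M2) : fr x (-N) = -fr x N := by
  simp [fr]

/-- part 3: compactness -/
theorem compact (h1 : FrameStmt) (h3 : CocompStmt) (h5 : TubeAStmt)
    (h6 : QuotAStmt) (gi : Idx → SL) (hgi : ∀ i, gi i ∈ Nz) (hgi' : ∀ i, ∃ h : cj (gi i) Dm ∈ Lines,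
      (Quotient.mk'' (⟨_, h⟩ : LL) : Idx) = i) {δ : ℝ} (hδ0 : 0 < δ) (hδ : δ < ε0) :
    IsCompact (⋃ i, psi (gi i) '' {p | p.1 ≠ 0 ∧ ‖p.1‖ < δ})ᶜ := by
  obtain ⟨R, hR⟩ := h3
  let K : Set SL := {x | (∀ i j, |x i j| ≤ R) ∧ ∀ N ∈ Lines, x ∉ To δ N}
  have hKc : IsCompact K := by
    have hcl : IsClosed {x : SL | ∀ N ∈ Lines, x ∉ To δ N} := by
      have : {x : SL | ∀ N ∈ Lines, x ∉ To δ N} = ⋂ N ∈ Lines, (To δ N)ᶜ := by
        ext x; simp
      rw [this]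
      exact isClosed_biInter (fun N _ => (isOpen_To δ N).isClosed_compl)
    exact (compact_bounded R).inter_right hcl
  have hKE : K ⊆ E := by
    rintro x ⟨-, hx⟩ N hN ⟨t1, t2⟩
    have hfr := h1.1 x N hN
    rw [t1, t2] at hfr
    have hsq : (sg x N - 1) * (sg x N + 1) = 0 := by linear_combination hfr
    rcases mul_eq_zero.1 hsq with h | h
    · apply hx N hN
      have hs : sg x N = 1 := by linarith
      refine ⟨by rw [hs]; norm_num, ?_⟩
      rw [PP, t1, t2, hs]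
      norm_num
      positivity
    · apply hx (-N) (neg_mem_Lines hN)
      have u1 : tau x (-N) = 0 := by
        have : tau x (-N) = -tau x N := by simp [tau, fr_neg]; ring
        rw [this, t1, neg_zero]
      have u2 : nu x (-N) = 0 := by
        have : nu x (-N) = -nu x N := by simp [nu, fr_neg]; ring
        rw [this, t2, neg_zero]
      have hs : sg x (-N) = 1 := by
        have : sg x (-N) = -sg x N := by simp [sg, fr_neg]
        rw [this]; linarith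
      refine ⟨by rw [hs]; norm_num, ?_⟩
      rw [PP, u1, u2, hs]
      norm_num
      positivity
  have hK' : IsCompact (Subtype.val ⁻¹' K : Set E) := by
    rw [Subtype.isCompact_iff]
    rw [Subtype.image_preimage_coe, inter_eq_right.2 hKE]
    exact hKc
  have himg : (⋃ i, psi (gi i) '' {p | p.1 ≠ 0 ∧ ‖p.1‖ < δ})ᶜ = pr '' (Subtype.val ⁻¹' K : Set E) := by
    ext m
    constructor
    · intro hm
      obtain ⟨x, rfl⟩ := h6.2.1.toIsQuotientMap.surjective m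
      obtain ⟨γ, hγ, hb⟩ := hR x.1
      have hpr : pr ⟨γ * x.1, E_mul hγ x.2⟩ = pr x := pr_eq_iff.2 ⟨γ, hγ, rfl⟩
      refine ⟨⟨γ * x.1, E_mul hγ x.2⟩, ⟨hb, ?_⟩, hpr⟩
      intro N hN hx
      obtain ⟨h, w, e1, e2, e3⟩ := (mem_To h1 hδ0 hδ hN).1 hx
      apply hm
      obtain ⟨hL, hq⟩ := hgi' (Quotient.mk'' (⟨N, hN⟩ : LL) : Idx)
      rw [mem_iUnion]
      refine ⟨(Quotient.mk'' (⟨N, hN⟩ : LL) : Idx), ?_⟩
      rw [← hpr]
      rw [pr_mem_iff h5 (hgi _) (P := fun w => ‖w‖ < δ) (fun w hw => lt_trans hw hδ)]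
      have hq' := Quotient.eq''.1 hq.symm
      rw [MulAction.orbitRel_apply] at hq'
      obtain ⟨γ', hγ'⟩ := hq'
      exact ⟨γ'.1, γ'.2, h, w, e1.trans (congrArg Subtype.val hγ').symm, e2, e3⟩
    · rintro ⟨x, ⟨-, hx⟩, rfl⟩ hm
      rw [mem_iUnion] at hm
      obtain ⟨i, hi⟩ := hm
      rw [pr_mem_iff h5 (hgi _) (P := fun w => ‖w‖ < δ) (fun w hw => lt_trans hw hδ)] at hi
      obtain ⟨γ, hγ, h, w, e1, e2, e3⟩ := hi
      have hL : cj γ (cj (gi i) Dm) ∈ Lines := Lines_cj hγ ((hgi i) Dm Dm_mem).1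
      exact hx _ hL ((mem_To h1 hδ0 hδ hL).2 ⟨h, w, e1, e2, e3⟩)
  rw [himg]
  exact hK'.image h6.2.1.toIsQuotientMap.continuous

end TubeC

theorem tubeC (h1 : FrameStmt) (h2 : FinStmt) (h3 : CocompStmt) (h4 : TransStmt)
    (h5 : TubeAStmt) (h6 : QuotAStmt) : TubeCStmt :=
  ⟨fun _ hg _ hδ0 hδ => TubeC.closed h1 h2 h5 h6 hg hδ0 hδ, TubeC.finite_Idx h2 h3 h4,
    fun gi hgi hgi' _ hδ0 hδ => TubeC.compact h1 h3 h5 h6 gi hgi hgi' hδ0 hδ⟩

end AdT
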